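import Pool.Agent.TH115.TC.HalfMain3

/-!
Twists with several primes which are not inert: the bound and the Tate conjecture.
-/

set_option autoImplicit false
set_option linter.all false

open Polynomial IsDedekindDomain WeierstrassCurve WeierstrassCurve.Affine WithZero
open scoped Classical nonZeroDivisors

namespace Pool.Agent.TH115.GD

theorem sq_mul_of {x y : WithZero (Multiplicative ℤ)} (h : IsSquare x ↔ IsSquare y) :
    IsSquare (x * y) := by
  by_cases hx : IsSquare x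
  · exact hx.mul (h.1 hx)
  · exact wz_mul hx fun hy => hx (h.2 hy)

section data

variable {k K N R : Type} [Field k] [Field K] [Algebra k[X] K] [IsFractionRing k[X] K]
  [Field N] [Algebra K N] [Algebra k[X] N] [IsScalarTower k[X] K N]
  [CommRing R] [IsDedekindDomain R] [Algebra R N] [IsFractionRing R N]
  [Algebra k[X] R] [IsScalarTower k[X] R N] [Algebra.IsIntegral k[X] R]

/-- The exceptional primes. -/
theorem exc_data (h2 : (2 : k) ≠ 0) {a2 a4 a6 D : k[X]} {H : Finset k[X]}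
    (hΔ : (crvC (algebraMap k[X] K a2) (algebraMap k[X] K a4)
      (algebraMap k[X] K a6)).Δ ≠ 0)
    (hnr : ∀ x : K, cub (crvC (algebraMap k[X] K a2) (algebraMap k[X] K a4)
      (algebraMap k[X] K a6)) x ≠ 0) {θR : R}
    (hθ : cub (crvC (algebraMap k[X] K a2) (algebraMap k[X] K a4)
      (algebraMap k[X] K a6)) (algebraMap R N θR) = 0)
    (hN : IntermediateField.adjoin K {algebraMap R N θR} = ⊤) (hD : Squarefree D)
    (hH : ∀ π ∈ H, Irreducible π ∧ π ∣ D ∧ ∃ u, HalfAt a2 a4 a6 π u)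
    (hin : ∀ π : k[X], Irreducible π → π ∣ D →
      InertAt a2 a4 a6 π ∨ ∃ π' ∈ H, Associated π' π) :
    aeval θR (cubX a2 a4 a6) = 0 ∧
    (∀ P : HeightOneSpectrum R, algebraMap k[X] R D ∈ P.asIdeal →
      P.intValuation (algebraMap k[X] R D) = exp (-1 : ℤ) ∧
      P.valuation N (cub' (crvC (algebraMap k[X] K a2) (algebraMap k[X] K a4)
      (algebraMap k[X] K a6)) (algebraMap R N θR)) = 1) ∧
    (∀ P : HeightOneSpectrum R, ¬ ParOK a2 a4 a6 D θR P → ∃ π, ExcP a2 a4 a6 D H θR π P) ∧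
    (∀ (π : k[X]) (P P' : HeightOneSpectrum R), ExcP a2 a4 a6 D H θR π P →
      ExcP a2 a4 a6 D H θR π P' → P = P') ∧
    (∀ π ∈ H, ∃ P : HeightOneSpectrum R, ExcP a2 a4 a6 D H θR π P) := by
  have hinj : Function.Injective (algebraMap k[X] R) := by
    intro x y h
    have h1 := congrArg (algebraMap R N) h
    rw [← IsScalarTower.algebraMap_apply k[X] R N, ← IsScalarTower.algebraMap_apply k[X] R N,
      IsScalarTower.algebraMap_apply k[X] K N, IsScalarTower.algebraMap_apply k[X] K N] at h1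
    exact IsFractionRing.injective k[X] K ((algebraMap K N).injective h1)
  have hcond := cond_der (R := R) hΔ hnr hθ hN
  have hrel : aeval θR (cubX a2 a4 a6) = 0 := by
    apply IsFractionRing.injective R N
    rw [map_zero, ← aeval_algebraMap_apply, ← hθ]
    simp only [cubX, cub, crvC, map_add, map_mul, map_pow, aeval_C, aeval_X]
    rw [IsScalarTower.algebraMap_apply k[X] K N, IsScalarTower.algebraMap_apply k[X] K N,
      IsScalarTower.algebraMap_apply k[X] K N]
  have hin' : ∀ π : k[X], Irreducible π → π ∣ D →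
      InertAt a2 a4 a6 π ∨ ∃ u, HalfAt a2 a4 a6 π u := by
    intro π hπ hπ'
    rcases hin π hπ hπ' with h | ⟨π', hπ'H, h⟩
    · exact Or.inl h
    · obtain ⟨-, -, u, hu⟩ := hH π' hπ'H
      exact Or.inr ⟨u, h.dvd_iff_dvd_left.1 hu.1, fun w hw => hu.2 w (h.dvd_iff_dvd_left.2 hw)⟩
  have hok := half_ok (R := R) h2 hΔ hnr hθ hN hD hin'
  refine ⟨hrel, fun P hP => ⟨(hok P hP).1, (hok P hP).2.1⟩, ?_, ?_, ?_⟩
  · intro P hP
    have hDP : algebraMap k[X] R D ∈ P.asIdeal := by
      by_contra h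
      exact hP (Or.inl h)
    obtain ⟨hv1, -, π, hπ, hπ', hv, h3⟩ := hok P hDP
    obtain ⟨u, hu, hu'⟩ := h3.resolve_left hP
    rcases hin π hπ hπ' with h | ⟨π', hπ'H, h⟩
    · exact absurd hu.1 (h.1 u)
    · exact ⟨π', hπ'H, fun q => by rw [hv, h.dvd_iff_dvd_left], hv1, u,
        ⟨h.dvd_iff_dvd_left.2 hu.1, fun w hw => hu.2 w (h.dvd_iff_dvd_left.1 hw)⟩, hu'⟩
  · intro π P P' hP hP'
    exact exc_uniq h2 (hH π hP.1).1 hrel hcond hP hP'
  · intro π hπH
    obtain ⟨hπ, hπD, u, hu⟩ := hH π hπH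
    obtain ⟨P, hπP, huP⟩ := exists_exc (R := R) h2 hπ hu hΔ hnr hθ hN hinj
    haveI := P.isPrime
    have hvP : ∀ q : k[X], algebraMap k[X] R q ∈ P.asIdeal ↔ π ∣ q := by
      intro q
      constructor
      · intro hq
        by_contra hnd
        obtain ⟨s, r, hsr⟩ := hπ.coprime_iff_not_dvd.2 hnd
        apply P.isPrime.ne_top
        rw [Ideal.eq_top_iff_one, ← map_one (algebraMap k[X] R), ← hsr, map_add, map_mul, map_mul]
        exact P.asIdeal.add_mem (P.asIdeal.mul_mem_left _ hπP) (P.asIdeal.mul_mem_left _ hq)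
      · rintro ⟨s, rfl⟩
        rw [map_mul]
        exact P.asIdeal.mul_mem_right _ hπP
    exact ⟨P, hπH, hvP, (hok P ((hvP D).2 hπD)).1, u, hu, huP⟩

end data

section main

variable {k k' K F N R : Type} [Field k] [Field k'] [Algebra k k'] [Field K] [Algebra k[X] K]
  [Field F] [Algebra k'[X] F] [IsFractionRing k'[X] F] [Algebra K F]
  [Field N] [Algebra K N] [Algebra k[X] N] [IsScalarTower k[X] K N]
  [CommRing R] [IsDedekindDomain R] [Algebra R N] [IsFractionRing R N]
  [Algebra k[X] R] [IsScalarTower k[X] R N] [Algebra.IsIntegral k[X] R]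

/-- The bound. -/
theorem half_bound (hT : IsTower k k' K F) (h2 : (2 : k) ≠ 0) {a2 a4 a6 : k[X]}
    (hS : SmoothC a2 a4 a6) (hΔ : (twist K a2 a4 a6 1).Δ ≠ 0)
    (hnr : ∀ x : F, cub (twist K a2 a4 a6 1) x ≠ 0) {θ : N}
    (hθ : cub (twist K a2 a4 a6 1) θ = 0) (hN : IntermediateField.adjoin K {θ} = ⊤)
    (hfin : Finite {c : ClassGroup R // c ^ 2 = 1}) {U : Finset Rˣ}
    (hU : ∀ ε : Rˣ, ∃ η ∈ U, ∃ (u : k) (v : Rˣ), (ε : R) = algebraMap k[X] R (C u) * v ^ 2 * η)
    {d : ℕ} (hd : Nat.card {c : ClassGroup R // c ^ 2 = 1} * U.card ≤ 2 ^ d)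
    {D : k[X]} (hD : Squarefree D) {H : Finset k[X]}
    (hH : ∀ π ∈ H, Irreducible π ∧ π ∣ D ∧ ∃ u, HalfAt a2 a4 a6 π u)
    (hin : ∀ π : k[X], Irreducible π → π ∣ D →
      InertAt a2 a4 a6 π ∨ ∃ π' ∈ H, Associated π' π) :
    GeneratedBy (F := F) k' (twist K a2 a4 a6 D) (d + H.card) := by
  haveI := hT.sep
  haveI := hT.fracK
  haveI : IsGalois k k' := inferInstance
  haveI : IsSepClosure K (Sep F) := sepKΩ hT.map
  haveI : Algebra.IsSeparable K (Sep F) := IsSepClosure.separable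
  haveI : IsGalois K (Sep F) := inferInstance
  have hnrD := twist_nr hT hD.ne_zero hnr
  have hΔD := twist_disc hD.ne_zero hΔ
  have hD0 := hD.ne_zero
  rw [twist_one] at hΔ hθ
  have hnrK : ∀ x : K, cub (crvC (algebraMap k[X] K a2) (algebraMap k[X] K a4)
      (algebraMap k[X] K a6)) x ≠ 0 := by
    intro x hx
    have h1 := cub_map (crvC (algebraMap k[X] K a2) (algebraMap k[X] K a4)
      (algebraMap k[X] K a6)) (Algebra.ofId K F) x
    rw [hx, map_zero] at h1
    rw [twist_one] at hnr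
    exact hnr _ h1
  obtain ⟨-, hsep⟩ := sepN (N := N) rfl rfl hΔ hθ hN
  let i : N →ₐ[K] Sep F := IsSepClosed.lift
  letI : Algebra N (Sep F) := i.toRingHom.toAlgebra
  haveI : IsScalarTower K N (Sep F) := IsScalarTower.of_algebraMap_eq fun x => (i.commutes x).symm
  have hθint : IsIntegral k[X] θ := by
    refine ⟨X ^ 3 + C a2 * X ^ 2 + C a4 * X + C a6, by monicity!, ?_⟩
    have e : cub (crvC (algebraMap k[X] K a2) (algebraMap k[X] K a4)
      (algebraMap k[X] K a6)) θ = θ ^ 3 + algebraMap K N (algebraMap k[X] K a2) * θ ^ 2 +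
      algebraMap K N (algebraMap k[X] K a4) * θ + algebraMap K N (algebraMap k[X] K a6) := rfl
    rw [e, ← IsScalarTower.algebraMap_apply k[X] K N, ← IsScalarTower.algebraMap_apply k[X] K N,
      ← IsScalarTower.algebraMap_apply k[X] K N] at hθ
    simp only [eval₂_add, eval₂_mul, eval₂_pow, eval₂_X, eval₂_C]
    exact hθ
  obtain ⟨θR, hθR⟩ := (IsIntegrallyClosed.isIntegral_iff (R := R) (K := N)).1
    (hθint.tower_top (A := R))
  subst hθR
  obtain ⟨hrel, hDv, hexc, huniq, hex⟩ := exc_data (R := R) h2 hΔ hnrK hθ hN hD hH hin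
  obtain ⟨S0, hS1, hS2⟩ := reps (N := N) hU
  -- the representatives
  let Ev : N → Prop := fun z => ∀ P : HeightOneSpectrum R, ParOK a2 a4 a6 D θR P →
    IsSquare (P.valuation N z)
  let Pat : N → Finset k[X] → Prop := fun z T => ∀ (π : k[X]) (P : HeightOneSpectrum R),
    ExcP a2 a4 a6 D H θR π P → (IsSquare (P.valuation N z) ↔ π ∉ T)
  let Z : Finset k[X] → N := fun T =>
    if h : ∃ z : N, z ≠ 0 ∧ Ev z ∧ Pat z T then h.choose else 1
  have hZ : ∀ T : Finset k[X], (∃ z : N, z ≠ 0 ∧ Ev z ∧ Pat z T) →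
      Z T ≠ 0 ∧ Ev (Z T) ∧ Pat (Z T) T := by
    intro T h
    have e : Z T = h.choose := dif_pos h
    rw [e]
    exact h.choose_spec
  refine critH_cps (R := R) (θR := θR) hT h2 hS hD0 hΔD hnrD hθ hN rfl hDv ?_
  intro iN a b c hC0 hθa hNtop hkN hkX hlay
  refine genL (Ev := Ev) hT h2 hΔD hnrD hC0 hθa hNtop hkN ?_
    (S := (H.powerset ×ˢ S0).image (fun p => Z p.1 * p.2)) (d := d + H.card) ?_ ?_
  · intro e he
    obtain ⟨⟨t, z, ht, hz, hk⟩, hpar⟩ := hlay e he
    refine ⟨t, z, ht, ?_, hz, hk, hpar t z ht hz hk⟩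
    rintro rfl
    rw [map_zero] at hz
    exact pow_ne_zero 2 ht hz
  · refine Finset.card_image_le.trans ?_
    rw [Finset.card_product, Finset.card_powerset, add_comm, pow_add]
    exact Nat.mul_le_mul_left _ (hS1.trans hd)
  · intro z hz hev
    let T := H.filter (fun π => ∃ P : HeightOneSpectrum R, ExcP a2 a4 a6 D H θR π P ∧
      ¬ IsSquare (P.valuation N z))
    have hpat : Pat z T := by
      intro π P hP
      constructor
      · intro hsq hmem
        obtain ⟨-, P', hP', hns⟩ := Finset.mem_filter.1 hmem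
        rw [huniq π P' P hP' hP] at hns
        exact hns hsq
      · intro hnm
        by_contra hns
        exact hnm (Finset.mem_filter.2 ⟨hP.1, P, hP, hns⟩)
    obtain ⟨hZ0, hZev, hZpat⟩ := hZ T ⟨z, hz, hev, hpat⟩
    obtain ⟨w, hw, u, g, hu, hg, e1⟩ := hS2 (z * Z T) (mul_ne_zero hz hZ0) (by
      intro P
      rw [map_mul]
      by_cases hP : ParOK a2 a4 a6 D θR P
      · exact (hev P hP).mul (hZev P hP)
      · obtain ⟨π, hπP⟩ := hexc P hP
        exact sq_mul_of ((hpat π P hπP).trans (hZpat π P hπP).symm))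
    refine ⟨Z T * w, Finset.mem_image.2 ⟨(T, w), Finset.mem_product.2
      ⟨Finset.mem_powerset.2 (Finset.filter_subset _ _), hw⟩, rfl⟩, u, g / Z T, hu,
      div_ne_zero hg hZ0, ?_⟩
    rw [hkX]
    have e3 : z = algebraMap k[X] N (C u) * g ^ 2 * w / Z T := by
      rw [eq_div_iff hZ0]
      exact e1
    rw [e3]
    field_simp

end main

end Pool.Agent.TH115.GD
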