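import Pool.Agent.TH115.TC.HalfR2

/-!
Twists with one prime which is not inert: the Tate conjecture in rank one.
-/

set_option autoImplicit false
set_option linter.all false

open Polynomial IsDedekindDomain WeierstrassCurve WeierstrassCurve.Affine WithZero
open scoped Classical nonZeroDivisors

namespace Pool.Agent.TH115.GD

section pt

variable {k' K F : Type} [Field k'] [Field K] [Field F] [Algebra K F] [Algebra k'[X] F]
  [IsFractionRing k'[X] F] {W : WeierstrassCurve K}

/-- The class of a point. -/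
theorem pt_class {Q : Pt W K} {H : ℕ → Pt W (Sep F)} (H0 : H 0 = act W (incl K K (Sep F)) Q)
    (HS : ∀ j, 2 • H (j + 1) = H j) :
    IsTateClass k' W (fun n (σ : Sep F ≃ₐ[F] Sep F) => act W (rs K σ) (H n) - H n) := by
  have PK : ∀ φ : Sep F →ₐ[K] Sep F, act W φ (act W (incl K K (Sep F)) Q) =
      act W (incl K K (Sep F)) Q := by
    intro φ
    have h1 : φ.comp (incl K K (Sep F)) = incl K K (Sep F) := AlgHom.ext fun x => φ.commutes x
    rw [act_act, h1]
  refine ⟨⟨fun n => cob_isCoc W (H n), fun σ => ?_, fun n σ => ?_⟩, fun n => ?_, fun τ => ?_⟩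
  · show act W (rs K σ) (H 0) - H 0 = 0
    rw [H0, PK, sub_self]
  · show 2 • (act W (rs K σ) (H (n + 1)) - H (n + 1)) = act W (rs K σ) (H n) - H n
    rw [smul_sub, ← map_nsmul, HS]
  · have h1 : LocallyTrivial k' W (fun _ : Sep F ≃ₐ[F] Sep F => (0 : Pt W (Sep F))) :=
      ⟨fun v => LocTriv.zero W, LocTriv.zero W⟩
    have h3 := lt_subT h1 (-H n)
    have e : (fun σ : Sep F ≃ₐ[F] Sep F => (0 : Pt W (Sep F)) - (act W (rs K σ) (-H n) - -H n)) =
        fun σ => act W (rs K σ) (H n) - H n := by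
      funext σ
      rw [map_neg]
      abel
    rwa [e] at h3
  · refine ⟨0, fun n => act W (ak τ) (H n) - H n, ⟨?_, fun n => ?_⟩, fun n σ σ' h => ?_⟩
    · show act W (ak τ) (H 0) - H 0 = 0
      rw [H0, PK, sub_self]
    · show 2 • (act W (ak τ) (H (n + 1)) - H (n + 1)) = act W (ak τ) (H n) - H n
      rw [smul_sub, ← map_nsmul, HS]
    · have hcomp : act W (ak τ) (act W (rs K σ') (H n)) = act W (rs K σ) (act W (ak τ) (H n)) := by
        have h5 : (ak τ).comp (rs K σ') = (rs K σ).comp (ak τ) := AlgHom.ext fun x => h x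
        rw [act_act, act_act, h5]
      show 2 ^ 0 • (act W (ak τ) (act W (rs K σ') (H n) - H n) -
        (act W (rs K σ) (H n) - H n)) = act W (rs K σ) (act W (ak τ) (H n) - H n) -
          (act W (ak τ) (H n) - H n)
      rw [pow_zero, one_smul, map_sub (act W (ak τ)), hcomp, map_sub (act W (rs K σ))]
      abel

end pt

section cob

variable {k k' K F N : Type} [Field k] [Field k'] [Algebra k k'] [Field K] [Algebra k[X] K]
  [Field F] [Algebra k'[X] F] [IsFractionRing k'[X] F] [Algebra K F]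
  [Field N] [Algebra K N] [Algebra N (Sep F)] [IsScalarTower K N (Sep F)] [Algebra k N]

/-- A cocycle with the trivial generator is the coboundary of a point of order two. -/
theorem cobL (hT : IsTower k k' K F) (h2 : (2 : k) ≠ 0) {W : WeierstrassCurve K}
    (hnr : ∀ x : F, cub W x ≠ 0)
    {a b c : Sep F} (hC : IsC (W.baseChange (Sep F)).toAffine a b c)
    {θ : N} (hθ : algebraMap N (Sep F) θ = a) (hNtop : IntermediateField.adjoin K {θ} = ⊤)
    (hkN : ∀ x : k, algebraMap N (Sep F) (algebraMap k N x) =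
      algebraMap F (Sep F) (algebraMap k'[X] F (C (algebraMap k k' x))))
    {f : (Sep F ≃ₐ[F] Sep F) → Pt W (Sep F)} (hf : IsCoc W f) (hf2 : ∀ σ, f σ + f σ = 0)
    {t : Sep F} (ht : t ≠ 0)
    (hk : ∀ σ : Sep F ≃ₐ[F] Sep F, σ a = a → σ t = sC a (f σ) * t) {u : k} {g : N}
    (hz : t ^ 2 = algebraMap N (Sep F) (algebraMap k N u * g ^ 2)) :
    ∃ R' : Pt W (Sep F), R' + R' = 0 ∧ ∀ σ, f σ = act W (rs K σ) R' - R' := by
  haveI := hT.sep
  haveI := hT.fracK
  haveI : IsSepClosed k' := IsSepClosure.sep_closed k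
  haveI : IsGalois k k' := inferInstance
  have hKF := hT.map
  haveI : IsSepClosure K (Sep F) := sepKΩ hKF
  haveI : Algebra.IsSeparable K (Sep F) := IsSepClosure.separable
  haveI : IsGalois K (Sep F) := inferInstance
  obtain ⟨s, hs⟩ := const_sqrt (k := k) (k' := k') h2 u
  have htr := fun x hx => trans_roots (F := F) hC hnr x hx
  set m : Sep F := algebraMap F (Sep F) (algebraMap k'[X] F (C s)) * algebraMap N (Sep F) g with hm
  have hm2 : m ^ 2 = algebraMap N (Sep F) (algebraMap k N u * g ^ 2) := by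
    rw [hm, mul_pow, ← map_pow, ← map_pow, ← C_pow, hs, map_mul, hkN, map_pow]
  have htm : t ^ 2 = m ^ 2 := by rw [hz, hm2]
  refine cob1 hC htr hf.mul hf2 fun σ hσ => ?_
  have hfixN : ∀ y : N, σ (algebraMap N (Sep F) y) = algebraMap N (Sep F) y := by
    intro y
    obtain ⟨τ', hτ'⟩ := lift_fix hNtop (σ.restrictScalars K) (by rw [hθ]; exact hσ)
    have h1 := hτ' (algebraMap N (Sep F) y)
    rw [τ'.commutes] at h1
    exact h1.symm
  have hmfix : σ m = m := by
    rw [hm, map_mul, σ.commutes, hfixN]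
  have h1 := hk σ hσ
  have h3 : σ t = t := by
    rcases sq_eq_sq_iff_eq_or_eq_neg.1 htm with h | h
    · rw [h, hmfix]
    · rw [h, map_neg, hmfix]
  rw [h3] at h1
  have h4 : (sC a (f σ) - 1) * t = 0 := by linear_combination -h1
  rcases mul_eq_zero.1 h4 with h5 | h5
  · exact sub_eq_zero.1 h5
  · exact absurd h5 ht

end cob

section even

variable {k N R : Type} [Field k] [Field N] [Algebra k[X] N]
  [CommRing R] [IsDedekindDomain R] [Algebra R N] [IsFractionRing R N]
  [Algebra k[X] R] [IsScalarTower k[X] R N]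

/-- Elements with even valuations are trivial, if the class number is odd. -/
theorem even_triv (hcl : ∀ c : ClassGroup R, c ^ 2 = 1 → c = 1)
    (hU : ∀ ε : Rˣ, ∃ (u : k) (v : Rˣ), (ε : R) = algebraMap k[X] R (C u) * v ^ 2)
    {z : N} (hz : z ≠ 0) (hev : ∀ v : HeightOneSpectrum R, IsSquare (v.valuation N z)) :
    ∃ (u : k) (g : N), u ≠ 0 ∧ g ≠ 0 ∧ z = algebraMap k[X] N (C u) * g ^ 2 := by
  have h1cls : ClsOf (R := R) (1 : N) 1 := by
    refine ⟨1, 1, ⊤, mem_nonZeroDivisors_of_ne_zero (by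
      rw [Ne, Ideal.zero_eq_bot]; exact top_ne_bot), one_ne_zero, one_ne_zero, ?_, ?_, ?_⟩
    · rw [map_one, one_pow, mul_one]
    · rw [Ideal.span_singleton_one, Ideal.top_pow]
    · rw [ClassGroup.mk0_eq_one_iff]
      exact ⟨⟨1, by rw [← Ideal.span, Ideal.span_singleton_one]⟩⟩
  obtain ⟨c, hc, hc2⟩ := exists_cls hz hev
  rw [hcl c hc2] at hc
  obtain ⟨ε, g, hg, e⟩ := cls_eq hc h1cls
  obtain ⟨u, v, hε⟩ := hU ε
  refine ⟨u, algebraMap R N v * g, ?_, ?_, ?_⟩
  · rintro rfl
    rw [C_0, map_zero, zero_mul] at hε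
    exact ε.ne_zero hε
  · refine mul_ne_zero ?_ hg
    rw [Ne, map_eq_zero_iff _ (IsFractionRing.injective R N)]
    exact v.ne_zero
  · rw [e, hε]
    simp only [map_mul, map_pow, ← IsScalarTower.algebraMap_apply k[X] R N]
    ring

theorem wz_mul {x y : WithZero (Multiplicative ℤ)} (hx : ¬ IsSquare x) (hy : ¬ IsSquare y) :
    IsSquare (x * y) := by
  have hx0 : x ≠ 0 := by rintro rfl; exact hx IsSquare.zero
  have hy0 : y ≠ 0 := by rintro rfl; exact hy IsSquare.zero
  rw [← exp_log hx0] at hx ⊢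
  rw [← exp_log hy0] at hy ⊢
  rw [isSquare_exp, Int.not_even_iff_odd] at hx hy
  rw [← exp_add, isSquare_exp]
  exact hx.add_odd hy

end even

end Pool.Agent.TH115.GD
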