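import Pool.Agent.TH115.TC.GenC2
import Pool.Agent.TH115.TC.HalfMain

/-!
The signs of the first layers, and the Tate conjecture if there are many points.
-/

set_option autoImplicit false
set_option linter.all false

open Polynomial IsDedekindDomain WeierstrassCurve WeierstrassCurve.Affine WithZero
open scoped Classical

namespace Pool.Agent.TH115.GD

section sgn

variable {k k' K F N : Type} [Field k] [Field k'] [Algebra k k'] [Field K] [Algebra k[X] K]
  [Field F] [Algebra k'[X] F] [IsFractionRing k'[X] F] [Algebra K F]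
  [Field N] [Algebra K N] [Algebra k N] [Algebra N (Sep F)] [IsScalarTower K N (Sep F)]

/-- The signs of the first layers are given by finitely many functions. -/
theorem signL (hT : IsTower k k' K F) (h2 : (2 : k) ≠ 0) {W : WeierstrassCurve K}
    {a : Sep F}
    {θ : N} (hθ : algebraMap N (Sep F) θ = a) (hNtop : IntermediateField.adjoin K {θ} = ⊤)
    (hkN : ∀ x : k, algebraMap N (Sep F) (algebraMap k N x) =
      algebraMap F (Sep F) (algebraMap k'[X] F (C (algebraMap k k' x))))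
    {Ev : N → Prop} (hlay : ∀ e : ℕ → (Sep F ≃ₐ[F] Sep F) → Pt W (Sep F), IsTateClass k' _ e →
      ∃ (t : Sep F) (z : N), t ≠ 0 ∧ z ≠ 0 ∧ t ^ 2 = algebraMap N (Sep F) z ∧
      (∀ σ : Sep F ≃ₐ[F] Sep F, σ a = a → σ t = sC a (e 1 σ) * t) ∧ Ev z)
    {S : Finset N}
    (hpts : ∀ z : N, z ≠ 0 → Ev z →
      ∃ w ∈ S, ∃ (u : k) (g : N), u ≠ 0 ∧ g ≠ 0 ∧ z = algebraMap k N u * g ^ 2 * w) :
    ∃ Sg : S → (Sep F ≃ₐ[F] Sep F) → Sep F,
      ∀ e : ℕ → (Sep F ≃ₐ[F] Sep F) → Pt W (Sep F), IsTateClass k' W e →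
      ∃ i, ∀ σ : Sep F ≃ₐ[F] Sep F, σ a = a → sC a (e 1 σ) = Sg i σ := by
  haveI := hT.sep
  haveI := hT.fracK
  haveI : IsSepClosed k' := IsSepClosure.sep_closed k
  haveI : IsGalois k k' := inferInstance
  have hKF := hT.map
  haveI : IsSepClosure K (Sep F) := sepKΩ hKF
  haveI : Algebra.IsSeparable K (Sep F) := IsSepClosure.separable
  haveI : IsGalois K (Sep F) := inferInstance
  have h2S : (2 : Sep F) ≠ 0 := by
    have h1 : IsUnit (2 : k) := isUnit_iff_ne_zero.2 h2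
    have h3 := h1.map (((algebraMap F (Sep F)).comp (algebraMap k'[X] F)).comp
      ((C : k' →+* k'[X]).comp (algebraMap k k')))
    rw [map_ofNat] at h3
    exact h3.ne_zero
  haveI : NeZero ((2 : ℕ) : Sep F) := ⟨by exact_mod_cast h2S⟩
  have hroot : ∀ w : N, ∃ r : Sep F, r ^ 2 = algebraMap N (Sep F) w := fun w =>
    IsSepClosed.exists_pow_nat_eq _ 2
  choose r hr using hroot
  refine ⟨fun i σ => σ (r i.1) / r i.1, ?_⟩
  intro e he
  obtain ⟨t, z, ht, hz0, hz, hk, hev⟩ := hlay e he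
  obtain ⟨w, hw, u, g, hu, hg, hz1⟩ := hpts z hz0 hev
  refine ⟨⟨w, hw⟩, fun σ hσ => ?_⟩
  obtain ⟨s, hs⟩ := const_sqrt (k := k) (k' := k') h2 u
  set m : Sep F := algebraMap F (Sep F) (algebraMap k'[X] F (C s)) * algebraMap N (Sep F) g with hm
  have hm2 : m ^ 2 = algebraMap N (Sep F) (algebraMap k N u * g ^ 2) := by
    rw [hm, mul_pow, ← map_pow, ← map_pow, ← C_pow, hs, map_mul, hkN, map_pow]
  have hfixN : ∀ y : N, σ (algebraMap N (Sep F) y) = algebraMap N (Sep F) y := by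
    intro y
    obtain ⟨τ', hτ'⟩ := lift_fix hNtop (σ.restrictScalars K) (by rw [hθ]; exact hσ)
    have h1 := hτ' (algebraMap N (Sep F) y)
    rw [τ'.commutes] at h1
    exact h1.symm
  have hmfix : σ m = m := by
    rw [hm, map_mul, σ.commutes, hfixN]
  have hw0 : w ≠ 0 := by
    rintro rfl
    rw [mul_zero] at hz1
    exact hz0 hz1
  have hrw : r w ≠ 0 := by
    intro h0
    have := hr w
    rw [h0, zero_pow two_ne_zero] at this
    exact hw0 ((map_eq_zero_iff _ (algebraMap N (Sep F)).injective).1 this.symm)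
  have htm : t ^ 2 = (m * r w) ^ 2 := by
    rw [hz, hz1, mul_pow, hm2, hr, ← map_mul]
  have h1 := hk σ hσ
  have h3 : σ t = (σ (r w) / r w) * t := by
    rcases sq_eq_sq_iff_eq_or_eq_neg.1 htm with h | h
    · rw [h, map_mul, hmfix]
      field_simp
    · rw [h, map_neg, map_mul, hmfix]
      field_simp
  rw [h3] at h1
  exact (mul_right_cancel₀ ht h1).symm

end sgn

section rk

variable {k k' K F : Type} [Field k] [Field k'] [Algebra k k'] [Field K] [Algebra k[X] K]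
  [Field F] [Algebra k'[X] F] [IsFractionRing k'[X] F] [Algebra K F]

/-- A point with a half which is fixed by the geometric Galois group is divisible by two. -/
theorem half_fixed (hT : IsTower k k' K F) {W : WeierstrassCurve K}
    (hnr : ∀ x : F, cub W x ≠ 0) {a b c : Sep F} (hC : IsC (W.baseChange (Sep F)).toAffine a b c)
    {Q : Pt W K} {H : Pt W (Sep F)} (hH : H + H = act W (incl K K (Sep F)) Q)
    (hfix : ∀ σ : Sep F ≃ₐ[F] Sep F, act W (rs K σ) H = H) : ∃ Q' : Pt W K, Q' + Q' = Q := by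
  haveI := hT.sep
  haveI := hT.fracK
  haveI : IsGalois k k' := inferInstance
  haveI : IsSepClosure K (Sep F) := sepKΩ hT.map
  haveI : Algebra.IsSeparable K (Sep F) := IsSepClosure.separable
  haveI : IsGalois K (Sep F) := inferInstance
  have PK : ∀ φ : Sep F →ₐ[K] Sep F, act W φ (act W (incl K K (Sep F)) Q) =
      act W (incl K K (Sep F)) Q := by
    intro φ
    have h1 : φ.comp (incl K K (Sep F)) = incl K K (Sep F) := AlgHom.ext fun x => φ.commutes x
    rw [act_act, h1]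
  have hall : ∀ τ : Sep F ≃ₐ[K] Sep F, act W (ak τ) H = H := by
    intro τ
    rw [← sub_eq_zero]
    refine no_pow hC hnr 1 _ ?_ fun σ => ?_
    · rw [pow_one, two_nsmul, sub_add_sub_comm, ← map_add, hH, PK, sub_self]
    · obtain ⟨σ', hσ'⟩ := exists_conj (preserves hT.map) τ σ
      have hcomp : act W (ak τ) (act W (rs K σ') H) = act W (rs K σ) (act W (ak τ) H) := by
        have h5 : (ak τ).comp (rs K σ') = (rs K σ).comp (ak τ) := AlgHom.ext fun x => hσ' x
        rw [act_act, act_act, h5]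
      rw [map_sub, ← hcomp, hfix, hfix]
  obtain ⟨Q0, hQ0⟩ := fixed_point (K := K) (F := K) W H (fun τ => hall τ)
  refine ⟨Q0, act_inj W (incl K K (Sep F)) ?_⟩
  rw [map_add, hQ0, hH]

/-- If the number of independent points is the maximal one, the Tate conjecture holds. -/
theorem tate_of_sign (hT : IsTower k k' K F) {W : WeierstrassCurve K}
    (hnr : ∀ x : F, cub W x ≠ 0) {a b c : Sep F} (hC : IsC (W.baseChange (Sep F)).toAffine a b c)
    {ι : Type} [Fintype ι] {r : ℕ} (hd : Fintype.card ι ≤ 2 ^ r)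
    (S : ι → (Sep F ≃ₐ[F] Sep F) → Sep F)
    (hS : ∀ e : ℕ → (Sep F ≃ₐ[F] Sep F) → Pt W (Sep F), IsTateClass k' W e →
      ∃ i, ∀ σ : Sep F ≃ₐ[F] Sep F, σ a = a → sC a (e 1 σ) = S i σ)
    (P : Fin r → Pt W K)
    (hP : ∀ T : Finset (Fin r), T.Nonempty → ∀ Q : Pt W K, ∑ i ∈ T, P i ≠ Q + Q) :
    TateAtTwo (F := F) k' W := by
  haveI := hT.sep
  haveI := hT.fracK
  haveI : IsGalois k k' := inferInstance
  haveI : IsSepClosure K (Sep F) := sepKΩ hT.map
  haveI : Algebra.IsSeparable K (Sep F) := IsSepClosure.separable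
  haveI : IsGalois K (Sep F) := inferInstance
  have htr := fun x hx => trans_roots (F := F) hC hnr x hx
  have hdiv : ∀ X : Pt W (Sep F), ∃ Y, Y + Y = X := fun X => halveC hC X
  have PK : ∀ (Q : Pt W K) (φ : Sep F →ₐ[K] Sep F), act W φ (act W (incl K K (Sep F)) Q) =
      act W (incl K K (Sep F)) Q := by
    intro Q φ
    have h1 : φ.comp (incl K K (Sep F)) = incl K K (Sep F) := AlgHom.ext fun x => φ.commutes x
    rw [act_act, h1]
  -- the classes of the points
  have hG : ∀ Q : Pt W K, ∃ G : ℕ → Pt W (Sep F), G 0 = act W (incl K K (Sep F)) Q ∧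
      ∀ j, 2 • G (j + 1) = G j := by
    intro Q
    obtain ⟨H, hH⟩ := hdiv (act W (incl K K (Sep F)) Q)
    obtain ⟨G, G0, -, GS⟩ := halves hdiv hH
    exact ⟨G, G0, GS⟩
  choose G G0 GS using hG
  have hcl : ∀ Q : Pt W K, IsTateClass k' W
      (fun n (σ : Sep F ≃ₐ[F] Sep F) => act W (rs K σ) (G Q n) - G Q n) := fun Q =>
    pt_class (G0 Q) (GS Q)
  have G1 : ∀ Q : Pt W K, G Q 1 + G Q 1 = act W (incl K K (Sep F)) Q := by
    intro Q
    rw [← two_nsmul, GS, G0]
  have hd2 : ∀ (Q : Pt W K) (σ : Sep F ≃ₐ[F] Sep F), (act W (rs K σ) (G Q 1) - G Q 1) +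
      (act W (rs K σ) (G Q 1) - G Q 1) = 0 := by
    intro Q σ
    rw [sub_add_sub_comm, ← map_add, G1, PK, sub_self]
  let Q : Finset (Fin r) → Pt W K := fun T => ∑ i ∈ T, P i
  choose Ψ hΨ using fun T : Finset (Fin r) => hS _ (hcl (Q T))
  -- a cocycle with trivial signs
  have triv : ∀ {f g : (Sep F ≃ₐ[F] Sep F) → Pt W (Sep F)}, IsCoc W f → IsCoc W g →
      (∀ σ, f σ + f σ = 0) → (∀ σ, g σ + g σ = 0) →
      (∀ σ : Sep F ≃ₐ[F] Sep F, σ a = a → sC a (f σ) = sC a (g σ)) →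
      ∃ R : Pt W (Sep F), R + R = 0 ∧ ∀ σ, f σ + g σ = act W (rs K σ) R - R := by
    intro f g hf hg hf2 hg2 hs
    refine cob1 hC htr (f := fun σ => f σ + g σ) (fun σ τ => ?_) (fun σ => ?_) fun σ hσ => ?_
    · show f (σ * τ) + g (σ * τ) = _
      rw [hf.mul, hg.mul, map_add]
      abel
    · show f σ + g σ + (f σ + g σ) = 0
      rw [add_add_add_comm, hf2, hg2, add_zero]
    · show sC a (f σ + g σ) = 1
      rw [sC_add hC (hf2 σ) (hg2 σ), hs σ hσ, sC_mul_self]
  have hΨinj : Function.Injective Ψ := by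
    intro T T' h
    obtain ⟨R, hR, hR'⟩ := triv ((hcl (Q T)).tc.coc 1) ((hcl (Q T')).tc.coc 1) (hd2 _) (hd2 _)
      (fun σ hσ => by rw [hΨ T σ hσ, hΨ T' σ hσ, h])
    have hR'' : ∀ σ, act W (rs K σ) (G (Q T) 1) - G (Q T) 1 +
        (act W (rs K σ) (G (Q T') 1) - G (Q T') 1) = act W (rs K σ) R - R := hR'
    obtain ⟨Q0, hQ0⟩ := half_fixed hT hnr hC (Q := Q T + Q T') (H := G (Q T) 1 + G (Q T') 1 - R) (by
      rw [sub_add_sub_comm, hR, sub_zero, add_add_add_comm, G1, G1, map_add]) (by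
      intro σ
      rw [← sub_eq_zero]
      have h5 := hR'' σ
      rw [map_sub, map_add]
      have h6 : act W (rs K σ) (G (Q T) 1) + act W (rs K σ) (G (Q T') 1) - act W (rs K σ) R -
          (G (Q T) 1 + G (Q T') 1 - R) = act W (rs K σ) (G (Q T) 1) - G (Q T) 1 +
        (act W (rs K σ) (G (Q T') 1) - G (Q T') 1) - (act W (rs K σ) R - R) := by abel
      rw [h6, h5, sub_self])
    by_contra hne
    have hnon : (symmDiff T T').Nonempty := by
      rw [Finset.nonempty_iff_ne_empty, ← Finset.bot_eq_empty, Ne, symmDiff_eq_bot]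
      exact hne
    have hsum : ∑ i ∈ T, P i + ∑ i ∈ T', P i = ∑ i ∈ symmDiff T T', P i +
        (∑ i ∈ T ∩ T', P i + ∑ i ∈ T ∩ T', P i) := by
      have h1 : ∑ i ∈ T, P i = ∑ i ∈ T \ T', P i + ∑ i ∈ T ∩ T', P i := by
        rw [← Finset.sum_sdiff (Finset.inter_subset_left : T ∩ T' ⊆ T),
          Finset.sdiff_inter_self_left]
      have h3 : ∑ i ∈ T', P i = ∑ i ∈ T' \ T, P i + ∑ i ∈ T ∩ T', P i := by
        rw [← Finset.sum_sdiff (Finset.inter_subset_right : T ∩ T' ⊆ T'),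
          Finset.sdiff_inter_self_right]
      have h4 : ∑ i ∈ symmDiff T T', P i = ∑ i ∈ T \ T', P i + ∑ i ∈ T' \ T, P i := by
        rw [symmDiff_def]
        exact Finset.sum_union (disjoint_sdiff_sdiff)
      rw [h1, h3, h4]
      abel
    apply hP _ hnon (Q0 - ∑ i ∈ T ∩ T', P i)
    have h5 : ∑ i ∈ symmDiff T T', P i = (∑ i ∈ T, P i + ∑ i ∈ T', P i) -
        (∑ i ∈ T ∩ T', P i + ∑ i ∈ T ∩ T', P i) := by
      rw [hsum]; abel
    have h6 : Q0 + Q0 = ∑ i ∈ T, P i + ∑ i ∈ T', P i := hQ0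
    rw [h5, ← h6]
    abel
  have hΨsurj : Function.Surjective Ψ := by
    have h1 := Fintype.card_le_of_injective Ψ hΨinj
    have h3 : Fintype.card (Finset (Fin r)) = 2 ^ r := by
      rw [Fintype.card_finset, Fintype.card_fin]
    exact ((Fintype.bijective_iff_injective_and_card Ψ).2
      ⟨hΨinj, le_antisymm h1 (by rw [h3]; exact hd)⟩).2
  refine tate_of_half hdiv fun e he => ?_
  have hf2 : ∀ σ, e 1 σ + e 1 σ = 0 := fun σ => by
    rw [← two_nsmul, he.tc.two 0 σ, he.tc.zero]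
  obtain ⟨i, hi⟩ := hS e he
  obtain ⟨T, rfl⟩ := hΨsurj i
  obtain ⟨R, hR, hR'⟩ := triv (he.tc.coc 1) ((hcl (Q T)).tc.coc 1) hf2 (hd2 _)
    (fun σ hσ => by rw [hi σ hσ, hΨ T σ hσ])
  refine ⟨-Q T, R - G (Q T) 1, ?_, fun σ => ?_⟩
  · rw [sub_add_sub_comm, hR, G1, map_neg, zero_sub]
  · have h1 : e 1 σ + (act W (rs K σ) (G (Q T) 1) - G (Q T) 1) = act W (rs K σ) R - R := hR' σ
    rw [map_sub]
    have h5 : e 1 σ = (e 1 σ + (act W (rs K σ) (G (Q T) 1) - G (Q T) 1)) -
      (act W (rs K σ) (G (Q T) 1) - G (Q T) 1) := by abel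
    rw [h5, h1]
    abel

end rk

end Pool.Agent.TH115.GD
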