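import Pool.Agent.TH115.TC.CritA
import Pool.Agent.TH115.TC.HalfMain4
import Pool.Agent.TH115.TC.SignL

/-!
All twists: the bound.
-/

set_option autoImplicit false
set_option linter.all false

open Polynomial IsDedekindDomain WeierstrassCurve WeierstrassCurve.Affine WithZero
open scoped Classical nonZeroDivisors

namespace Pool.Agent.TH115.GD

section main

variable {k k' K F N R : Type} [Field k] [Field k'] [Algebra k k'] [Field K] [Algebra k[X] K]
  [Field F] [Algebra k'[X] F] [IsFractionRing k'[X] F] [Algebra K F]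
  [Field N] [Algebra K N] [Algebra k[X] N] [IsScalarTower k[X] K N]
  [CommRing R] [IsDedekindDomain R] [Algebra R N] [IsFractionRing R N]
  [Algebra k[X] R] [IsScalarTower k[X] R N] [Algebra.IsIntegral k[X] R]

/-- The signs of the first layers for all twists, for an arbitrary goal. -/
theorem all_cps (hT : IsTower k k' K F) (h2 : (2 : k) ≠ 0) {a2 a4 a6 : k[X]}
    (hS : SmoothC a2 a4 a6) (hΔ : (twist K a2 a4 a6 1).Δ ≠ 0)
    (hnr : ∀ x : F, cub (twist K a2 a4 a6 1) x ≠ 0) {θ : N}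
    (hθ : cub (twist K a2 a4 a6 1) θ = 0) (hN : IntermediateField.adjoin K {θ} = ⊤)
    {S0 : Finset N} {d : ℕ} (hS1 : S0.card ≤ 2 ^ d)
    (hS2 : ∀ z : N, z ≠ 0 → (∀ v : HeightOneSpectrum R, IsSquare (v.valuation N z)) →
      ∃ w ∈ S0, ∃ (u : k) (g : N), u ≠ 0 ∧ g ≠ 0 ∧ z = algebraMap k[X] N (C u) * g ^ 2 * w)
    {D : k[X]} (hD0 : D ≠ 0) {Φ : Prop}
    (hfin : ∀ a b c : Sep F, IsC ((twist K a2 a4 a6 D).baseChange (Sep F)).toAffine a b c →
      ∀ (ι : Type) (_ : Fintype ι) (Sg : ι → (Sep F ≃ₐ[F] Sep F) → Sep F),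
      Fintype.card ι ≤ 2 ^ (d + (Nat.card {P : HeightOneSpectrum R //
          algebraMap k[X] R D ∈ P.asIdeal} -
        Nat.card {v : HeightOneSpectrum k[X] // D ∈ v.asIdeal})) →
      (∀ e : ℕ → (Sep F ≃ₐ[F] Sep F) → Pt (twist K a2 a4 a6 D) (Sep F),
        IsTateClass k' (twist K a2 a4 a6 D) e →
        ∃ i, ∀ σ : Sep F ≃ₐ[F] Sep F, σ a = a → sC a (e 1 σ) = Sg i σ) → Φ) : Φ := by
  haveI := hT.sep
  haveI := hT.fracK
  haveI : IsGalois k k' := inferInstance
  haveI : IsSepClosure K (Sep F) := sepKΩ hT.map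
  haveI : Algebra.IsSeparable K (Sep F) := IsSepClosure.separable
  haveI : IsGalois K (Sep F) := inferInstance
  have hnrD := twist_nr hT hD0 hnr
  have hΔD := twist_disc hD0 hΔ
  rw [twist_one] at hΔ hθ
  have hnrK : ∀ x : K, cub (crvC (algebraMap k[X] K a2) (algebraMap k[X] K a4)
      (algebraMap k[X] K a6)) x ≠ 0 := by
    intro x hx
    have h1 := cub_map (crvC (algebraMap k[X] K a2) (algebraMap k[X] K a4)
      (algebraMap k[X] K a6)) (Algebra.ofId K F) x
    rw [hx, map_zero] at h1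
    rw [twist_one] at hnr
    exact hnr _ h1
  obtain ⟨hfd, hsep⟩ := sepN (N := N) rfl rfl hΔ hθ hN
  let i : N →ₐ[K] Sep F := IsSepClosed.lift
  letI : Algebra N (Sep F) := i.toRingHom.toAlgebra
  haveI : IsScalarTower K N (Sep F) := IsScalarTower.of_algebraMap_eq fun x => (i.commutes x).symm
  -- the module `R`
  haveI : IsIntegralClosure R k[X] N := inferInstance
  haveI : Module.Finite k[X] R := IsIntegralClosure.finite k[X] K N R
  have hinj : Function.Injective (algebraMap k[X] R) := by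
    intro x y h
    have h1 := congrArg (algebraMap R N) h
    rw [← IsScalarTower.algebraMap_apply k[X] R N, ← IsScalarTower.algebraMap_apply k[X] R N,
      IsScalarTower.algebraMap_apply k[X] K N, IsScalarTower.algebraMap_apply k[X] K N] at h1
    exact IsFractionRing.injective k[X] K ((algebraMap K N).injective h1)
  haveI : Module.IsTorsionFree k[X] R := by
    rw [Module.isTorsionFree_iff_algebraMap_injective]
    exact hinj
  have hrank : Odd (Module.finrank k[X] R) := by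
    rw [← IsFractionRing.finrank_eq k[X] K R N]
    have hr : aeval θ (cubP (crvC (algebraMap k[X] K a2) (algebraMap k[X] K a4)
        (algebraMap k[X] K a6)) K) = 0 := by
      rw [cubP_aeval]
      exact hθ
    have hmin : minpoly K θ = cubP (crvC (algebraMap k[X] K a2) (algebraMap k[X] K a4)
        (algebraMap k[X] K a6)) K :=
      (minpoly.eq_of_irreducible_of_monic (cubP_irr hnrK) hr cubP_deg.2).symm
    have hint : IsIntegral K θ := ⟨_, cubP_deg.2, hr⟩
    have h1 := IntermediateField.adjoin.finrank hint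
    rw [hN, IntermediateField.finrank_top', hmin, cubP_deg.1] at h1
    rw [h1]
    exact ⟨1, rfl⟩
  choose P0 hP0 hP0' using exists_oddP (A := k[X]) (R := R) hrank
  -- the primes which divide `D`
  have hDR0 : algebraMap k[X] R D ≠ 0 := by
    rw [Ne, map_eq_zero_iff _ hinj]
    exact hD0
  have hfR : {P : HeightOneSpectrum R | algebraMap k[X] R D ∈ P.asIdeal}.Finite := by
    refine (Ideal.finite_factors (I := Ideal.span {algebraMap k[X] R D}) (by
      rw [Ne, Ideal.zero_eq_bot, Ideal.span_singleton_eq_bot]; exact hDR0)).subset ?_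
    intro P hP
    rw [Set.mem_setOf_eq] at hP ⊢
    rwa [Ideal.dvd_span_singleton]
  have hfA : {v : HeightOneSpectrum k[X] | D ∈ v.asIdeal}.Finite := by
    refine (Ideal.finite_factors (I := Ideal.span {D}) (by
      rw [Ne, Ideal.zero_eq_bot, Ideal.span_singleton_eq_bot]; exact hD0)).subset ?_
    intro P hP
    rw [Set.mem_setOf_eq] at hP ⊢
    rwa [Ideal.dvd_span_singleton]
  let TR := hfR.toFinset
  let TA := hfA.toFinset
  have hTR : ∀ P, P ∈ TR ↔ algebraMap k[X] R D ∈ P.asIdeal := fun P => by simp [TR]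
  have hTA : ∀ v, v ∈ TA ↔ D ∈ v.asIdeal := fun v => by simp [TA]
  have hund : ∀ P : HeightOneSpectrum R, D ∈ (P.under k[X]).asIdeal ↔
      algebraMap k[X] R D ∈ P.asIdeal := fun P => Iff.rfl
  have hP0inj : Function.Injective P0 := fun v w h => by rw [← hP0 v, ← hP0 w, h]
  have hsub : TA.image P0 ⊆ TR := by
    intro P hP
    obtain ⟨v, hv, rfl⟩ := Finset.mem_image.1 hP
    rw [hTR, ← hund, hP0]
    exact (hTA v).1 hv
  set E := TR \ TA.image P0 with hE
  have hEcard : E.card = Nat.card {P : HeightOneSpectrum R // algebraMap k[X] R D ∈ P.asIdeal} -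
        Nat.card {v : HeightOneSpectrum k[X] // D ∈ v.asIdeal} := by
    rw [hE, Finset.card_sdiff_of_subset hsub, Finset.card_image_of_injective _ hP0inj]
    congr 1
    · exact (Nat.card_eq_card_finite_toFinset hfR).symm
    · exact (Nat.card_eq_card_finite_toFinset hfA).symm
  rw [← hEcard] at hfin
  -- the representatives
  let Ev : N → Prop := fun z => (∀ P : HeightOneSpectrum R, algebraMap k[X] R D ∉ P.asIdeal →
    IsSquare (P.valuation N z)) ∧ IsSquare (Algebra.norm K z)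
  let Pat : N → Finset (HeightOneSpectrum R) → Prop := fun z T => ∀ P ∈ E,
    (IsSquare (P.valuation N z) ↔ P ∉ T)
  let Z : Finset (HeightOneSpectrum R) → N := fun T =>
    if h : ∃ z : N, z ≠ 0 ∧ Ev z ∧ Pat z T then h.choose else 1
  have hZ : ∀ T : Finset (HeightOneSpectrum R), (∃ z : N, z ≠ 0 ∧ Ev z ∧ Pat z T) →
      Z T ≠ 0 ∧ Ev (Z T) ∧ Pat (Z T) T := by
    intro T h
    have e : Z T = h.choose := dif_pos h
    rw [e]
    exact h.choose_spec
  refine critA_cps (R := R) hT h2 hS hD0 hΔD hnrD hθ hN ?_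
  intro iN a b c hC0 hθa hNtop hkN hkX hlay
  have hcardS : ((E.powerset ×ˢ S0).image (fun p => Z p.1 * p.2)).card ≤ 2 ^ (d + E.card) := by
    refine Finset.card_image_le.trans ?_
    rw [Finset.card_product, Finset.card_powerset, add_comm, pow_add]
    exact Nat.mul_le_mul_left _ hS1
  have hlay' : ∀ e : ℕ → (Sep F ≃ₐ[F] Sep F) → Pt (twist K a2 a4 a6 D) (Sep F),
      IsTateClass k' _ e → ∃ (t : Sep F) (z : N), t ≠ 0 ∧ z ≠ 0 ∧
      t ^ 2 = algebraMap N (Sep F) z ∧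
      (∀ σ : Sep F ≃ₐ[F] Sep F, σ a = a → σ t = sC a (e 1 σ) * t) ∧ Ev z := by
    intro e he
    obtain ⟨⟨t, z, ht, hz, hk, hn⟩, hpar⟩ := hlay e he
    refine ⟨t, z, ht, ?_, hz, hk, hpar t z ht hz hk, hn⟩
    rintro rfl
    rw [map_zero] at hz
    exact pow_ne_zero 2 ht hz
  have hpts' : ∀ z : N, z ≠ 0 → Ev z → ∃ w ∈ (E.powerset ×ˢ S0).image (fun p => Z p.1 * p.2),
      ∃ (u : k) (g : N), u ≠ 0 ∧ g ≠ 0 ∧ z = algebraMap k N u * g ^ 2 * w := by
    intro z hz hev
    let T := E.filter (fun P => ¬ IsSquare (P.valuation N z))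
    have hpat : Pat z T := by
      intro P hP
      constructor
      · intro hsq hmem
        exact (Finset.mem_filter.1 hmem).2 hsq
      · intro hnm
        by_contra hns
        exact hnm (Finset.mem_filter.2 ⟨hP, hns⟩)
    obtain ⟨hZ0, hZev, hZpat⟩ := hZ T ⟨z, hz, hev, hpat⟩
    have hzZ : z * Z T ≠ 0 := mul_ne_zero hz hZ0
    have hnorm : IsSquare (Algebra.norm K (z * Z T)) := by
      rw [map_mul]
      exact hev.2.mul hZev.2
    -- the primes which are not of the form `P0 v`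
    have hA : ∀ P : HeightOneSpectrum R, P ∉ TA.image P0 →
        IsSquare (P.valuation N (z * Z T)) := by
      intro P hP
      rw [map_mul]
      by_cases hDP : algebraMap k[X] R D ∈ P.asIdeal
      · have hPE : P ∈ E := Finset.mem_sdiff.2 ⟨(hTR P).2 hDP, hP⟩
        exact sq_mul_of ((hpat P hPE).trans (hZpat P hPE).symm)
      · exact (hev.1 P hDP).mul (hZev.1 P hDP)
    obtain ⟨w, hw, u, g, hu, hg, e1⟩ := hS2 (z * Z T) hzZ (by
      intro P
      by_cases hP : P ∈ TA.image P0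
      · obtain ⟨v, hv, rfl⟩ := Finset.mem_image.1 hP
        refine norm_parity' (A := k[X]) (K := K) hzZ hnorm (hP0' v) fun Q hQ hQ' => hA Q ?_
        intro hQm
        obtain ⟨w, hw, rfl⟩ := Finset.mem_image.1 hQm
        apply hQ'
        rw [hP0, hP0] at hQ
        rw [hQ]
      · exact hA P hP)
    refine ⟨Z T * w, Finset.mem_image.2 ⟨(T, w), Finset.mem_product.2
      ⟨Finset.mem_powerset.2 (Finset.filter_subset _ _), hw⟩, rfl⟩, u, g / Z T, hu,
      div_ne_zero hg hZ0, ?_⟩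
    rw [hkX]
    have e3 : z = algebraMap k[X] N (C u) * g ^ 2 * w / Z T := by
      rw [eq_div_iff hZ0]
      exact e1
    rw [e3]
    field_simp
  obtain ⟨Sg, hSg⟩ := signL (W := twist K a2 a4 a6 D) (Ev := Ev) hT h2 hθa hNtop hkN hlay' hpts'
  exact hfin a b c hC0 _ _ Sg (by rw [Fintype.card_coe]; exact hcardS) hSg

/-- The bound for all twists, by the number of the classes of even elements. -/
theorem all_boundS (hT : IsTower k k' K F) (h2 : (2 : k) ≠ 0) {a2 a4 a6 : k[X]}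
    (hS : SmoothC a2 a4 a6) (hΔ : (twist K a2 a4 a6 1).Δ ≠ 0)
    (hnr : ∀ x : F, cub (twist K a2 a4 a6 1) x ≠ 0) {θ : N}
    (hθ : cub (twist K a2 a4 a6 1) θ = 0) (hN : IntermediateField.adjoin K {θ} = ⊤)
    {S0 : Finset N} {d : ℕ} (hS1 : S0.card ≤ 2 ^ d)
    (hS2 : ∀ z : N, z ≠ 0 → (∀ v : HeightOneSpectrum R, IsSquare (v.valuation N z)) →
      ∃ w ∈ S0, ∃ (u : k) (g : N), u ≠ 0 ∧ g ≠ 0 ∧ z = algebraMap k[X] N (C u) * g ^ 2 * w)
    {D : k[X]} (hD0 : D ≠ 0) :
    GeneratedBy (F := F) k' (twist K a2 a4 a6 D)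
      (d + (Nat.card {P : HeightOneSpectrum R // algebraMap k[X] R D ∈ P.asIdeal} -
        Nat.card {v : HeightOneSpectrum k[X] // D ∈ v.asIdeal})) := by
  refine all_cps (R := R) hT h2 hS hΔ hnr hθ hN hS1 hS2 hD0 ?_
  intro a b c hC ι _ Sg hcard hSg
  haveI := hT.sep
  haveI := hT.fracK
  exact gen_of_sign hC (fun x hx => trans_roots (F := F) hC (twist_nr hT hD0 hnr) x hx)
    hcard Sg hSg

/-- The Tate conjecture for the twists of maximal rank. -/
theorem all_rankS (hT : IsTower k k' K F) (h2 : (2 : k) ≠ 0) {a2 a4 a6 : k[X]}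
    (hS : SmoothC a2 a4 a6) (hΔ : (twist K a2 a4 a6 1).Δ ≠ 0)
    (hnr : ∀ x : F, cub (twist K a2 a4 a6 1) x ≠ 0) {θ : N}
    (hθ : cub (twist K a2 a4 a6 1) θ = 0) (hN : IntermediateField.adjoin K {θ} = ⊤)
    {S0 : Finset N} {d : ℕ} (hS1 : S0.card ≤ 2 ^ d)
    (hS2 : ∀ z : N, z ≠ 0 → (∀ v : HeightOneSpectrum R, IsSquare (v.valuation N z)) →
      ∃ w ∈ S0, ∃ (u : k) (g : N), u ≠ 0 ∧ g ≠ 0 ∧ z = algebraMap k[X] N (C u) * g ^ 2 * w)
    {D : k[X]} (hD0 : D ≠ 0) {r : ℕ}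
    (hr : d + (Nat.card {P : HeightOneSpectrum R // algebraMap k[X] R D ∈ P.asIdeal} -
        Nat.card {v : HeightOneSpectrum k[X] // D ∈ v.asIdeal}) ≤ r)
    (P : Fin r → Pt (twist K a2 a4 a6 D) K)
    (hP : ∀ T : Finset (Fin r), T.Nonempty → ∀ Q : Pt (twist K a2 a4 a6 D) K,
      ∑ i ∈ T, P i ≠ Q + Q) :
    TateAtTwo (F := F) k' (twist K a2 a4 a6 D) := by
  refine all_cps (R := R) hT h2 hS hΔ hnr hθ hN hS1 hS2 hD0 ?_
  intro a b c hC ι _ Sg hcard hSg
  haveI := hT.sep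
  haveI := hT.fracK
  exact tate_of_sign hT (twist_nr hT hD0 hnr) hC
    (hcard.trans (Nat.pow_le_pow_right (by norm_num) hr)) Sg hSg P hP

/-- The Tate conjecture for the twists of maximal rank. -/
theorem all_rank (hT : IsTower k k' K F) (h2 : (2 : k) ≠ 0) {a2 a4 a6 : k[X]}
    (hS : SmoothC a2 a4 a6) (hΔ : (twist K a2 a4 a6 1).Δ ≠ 0)
    (hnr : ∀ x : F, cub (twist K a2 a4 a6 1) x ≠ 0) {θ : N}
    (hθ : cub (twist K a2 a4 a6 1) θ = 0) (hN : IntermediateField.adjoin K {θ} = ⊤)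
    (hfin : Finite {c : ClassGroup R // c ^ 2 = 1}) {U : Finset Rˣ}
    (hU : ∀ ε : Rˣ, ∃ η ∈ U, ∃ (u : k) (v : Rˣ), (ε : R) = algebraMap k[X] R (C u) * v ^ 2 * η)
    {d : ℕ} (hd : Nat.card {c : ClassGroup R // c ^ 2 = 1} * U.card ≤ 2 ^ d)
    {D : k[X]} (hD0 : D ≠ 0) {r : ℕ}
    (hr : d + (Nat.card {P : HeightOneSpectrum R // algebraMap k[X] R D ∈ P.asIdeal} -
        Nat.card {v : HeightOneSpectrum k[X] // D ∈ v.asIdeal}) ≤ r)
    (P : Fin r → Pt (twist K a2 a4 a6 D) K)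
    (hP : ∀ T : Finset (Fin r), T.Nonempty → ∀ Q : Pt (twist K a2 a4 a6 D) K,
      ∑ i ∈ T, P i ≠ Q + Q) :
    TateAtTwo (F := F) k' (twist K a2 a4 a6 D) := by
  obtain ⟨S0, hS1, hS2⟩ := reps (N := N) hU
  exact all_rankS hT h2 hS hΔ hnr hθ hN (hS1.trans hd) hS2 hD0 hr P hP

/-- The bound for all twists. -/
theorem all_bound (hT : IsTower k k' K F) (h2 : (2 : k) ≠ 0) {a2 a4 a6 : k[X]}
    (hS : SmoothC a2 a4 a6) (hΔ : (twist K a2 a4 a6 1).Δ ≠ 0)
    (hnr : ∀ x : F, cub (twist K a2 a4 a6 1) x ≠ 0) {θ : N}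
    (hθ : cub (twist K a2 a4 a6 1) θ = 0) (hN : IntermediateField.adjoin K {θ} = ⊤)
    (hfin : Finite {c : ClassGroup R // c ^ 2 = 1}) {U : Finset Rˣ}
    (hU : ∀ ε : Rˣ, ∃ η ∈ U, ∃ (u : k) (v : Rˣ), (ε : R) = algebraMap k[X] R (C u) * v ^ 2 * η)
    {d : ℕ} (hd : Nat.card {c : ClassGroup R // c ^ 2 = 1} * U.card ≤ 2 ^ d)
    {D : k[X]} (hD0 : D ≠ 0) :
    GeneratedBy (F := F) k' (twist K a2 a4 a6 D)
      (d + (Nat.card {P : HeightOneSpectrum R // algebraMap k[X] R D ∈ P.asIdeal} -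
        Nat.card {v : HeightOneSpectrum k[X] // D ∈ v.asIdeal})) := by
  obtain ⟨S0, hS1, hS2⟩ := reps (N := N) hU
  exact all_boundS hT h2 hS hΔ hnr hθ hN (hS1.trans hd) hS2 hD0

/-- If there are no Tate classes, the Tate conjecture holds. -/
theorem gen0_tate (hT : IsTower k k' K F) (h2 : (2 : k) ≠ 0) {a2 a4 a6 : k[X]}
    (hΔ : (twist K a2 a4 a6 1).Δ ≠ 0)
    (hnr : ∀ x : F, cub (twist K a2 a4 a6 1) x ≠ 0) {D : k[X]} (hD0 : D ≠ 0)
    (hgen : GeneratedBy (F := F) k' (twist K a2 a4 a6 D) 0) :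
    TateAtTwo (F := F) k' (twist K a2 a4 a6 D) := by
  haveI := hT.sep
  haveI := hT.fracK
  haveI : IsGalois k k' := inferInstance
  haveI : IsSepClosure K (Sep F) := sepKΩ hT.map
  have h2K : (2 : K) ≠ 0 := tt h2
  have hnrD := twist_nr hT hD0 hnr
  have hΔD := twist_disc hD0 hΔ
  obtain ⟨m, e, hm, -, hgen⟩ := hgen
  obtain rfl : m = 0 := by omega
  intro c hc hloc hinv n
  obtain ⟨z, R, hR, hcR⟩ := hgen c ⟨hc, hloc, hinv⟩ n
  have hcR' : ∀ σ, c n σ = act (twist K a2 a4 a6 D) (rs K σ) R - R := by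
    intro σ
    rw [hcR σ, Finset.univ_eq_empty, Finset.sum_empty, zero_add]
  have htor : ∀ (j : ℕ) (σ : Sep F ≃ₐ[F] Sep F), 2 ^ j • c j σ = 0 := by
    intro j σ
    induction j with
    | zero => rw [pow_zero, one_smul, hc.zero]
    | succ j ih => rw [pow_succ, mul_smul, hc.two, ih]
  have hfix : ∀ σ : Sep F ≃ₐ[F] Sep F, act (twist K a2 a4 a6 D) (rs K σ) (2 ^ n • R) =
      2 ^ n • R := by
    intro σ
    rw [map_nsmul, ← sub_eq_zero, ← smul_sub, ← hcR', htor]
  obtain ⟨a, ha⟩ : ∃ a : Sep F, cub (twist K a2 a4 a6 D) a = 0 := by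
    have h1 := (cubP_sep (W := twist K a2 a4 a6 D) rfl rfl hΔD)
    have h3 : ((cubP (twist K a2 a4 a6 D) K).map (algebraMap K (Sep F))).Separable := h1.map
    obtain ⟨a, ha⟩ := IsSepClosed.exists_root _ (by
      rw [degree_map]
      intro h
      rw [degree_eq_natDegree cubP_deg.2.ne_zero, cubP_deg.1] at h
      exact absurd h (by norm_num)) h3
    refine ⟨a, ?_⟩
    rw [IsRoot.def, eval_map_algebraMap, cubP_aeval] at ha
    exact ha
  obtain ⟨b, c', hC⟩ := exists_isC (W := twist K a2 a4 a6 D) rfl rfl hΔD h2K ha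
  have h0 : 2 ^ n • R = 0 := no_pow hC hnrD 1 _ (by
    rw [← mul_smul, ← pow_add, add_comm 1 n]
    exact hR) hfix
  refine ⟨0, R, by rw [h0, map_zero], hcR'⟩

end main

end Pool.Agent.TH115.GD
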