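import Pool.Agent.TH115.TC.HalfMain4

/-!
Twists with several primes which are not inert: the Tate conjecture.
-/

set_option autoImplicit false
set_option linter.all false

open Polynomial IsDedekindDomain WeierstrassCurve WeierstrassCurve.Affine WithZero
open scoped Classical nonZeroDivisors

namespace Pool.Agent.TH115.GD

section def2

variable {k : Type} [Field k] {R : Type} [CommRing R] [IsDedekindDomain R] [Algebra k[X] R]

/-- `P` is the prime of relative degree two over `π`: it contains `π`, and it does not contain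
`θ - u` for the root `u` of the cubic polynomial modulo `π`. -/
def DegTwoOver (a2 a4 a6 : k[X]) (θ : R) (π : k[X]) (P : HeightOneSpectrum R) : Prop :=
  algebraMap k[X] R π ∈ P.asIdeal ∧
    ∃ u : k[X], HalfAt a2 a4 a6 π u ∧ θ - algebraMap k[X] R u ∉ P.asIdeal

theorem ExcP.two {a2 a4 a6 D π : k[X]} {H : Finset k[X]} {θ : R} {P : HeightOneSpectrum R}
    (h : ExcP a2 a4 a6 D H θ π P) : DegTwoOver a2 a4 a6 θ π P := by
  obtain ⟨-, hv, -, u, hu, hu'⟩ := h
  exact ⟨(hv π).2 dvd_rfl, u, hu, hu'⟩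

theorem DegTwoOver.exc {a2 a4 a6 D π : k[X]} {H : Finset k[X]} {θ : R}
    {P : HeightOneSpectrum R} (h : DegTwoOver a2 a4 a6 θ π P) (hπH : π ∈ H)
    (hπ : Irreducible π) (hπD : π ∣ D)
    (hDv : algebraMap k[X] R D ∈ P.asIdeal →
      P.intValuation (algebraMap k[X] R D) = exp (-1 : ℤ)) : ExcP a2 a4 a6 D H θ π P := by
  obtain ⟨hπP, u, hu, hu'⟩ := h
  haveI := P.isPrime
  have hvP : ∀ q : k[X], algebraMap k[X] R q ∈ P.asIdeal ↔ π ∣ q := by
    intro q
    constructor
    · intro hq
      by_contra hnd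
      obtain ⟨s, r, hsr⟩ := hπ.coprime_iff_not_dvd.2 hnd
      apply P.isPrime.ne_top
      rw [Ideal.eq_top_iff_one, ← map_one (algebraMap k[X] R), ← hsr, map_add, map_mul, map_mul]
      exact P.asIdeal.add_mem (P.asIdeal.mul_mem_left _ hπP) (P.asIdeal.mul_mem_left _ hq)
    · rintro ⟨s, rfl⟩
      rw [map_mul]
      exact P.asIdeal.mul_mem_right _ hπP
  exact ⟨hπH, hvP, hDv ((hvP D).2 hπD), u, hu, hu'⟩

end def2

section main

variable {k k' K F N R : Type} [Field k] [Field k'] [Algebra k k'] [Field K] [Algebra k[X] K]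
  [Field F] [Algebra k'[X] F] [IsFractionRing k'[X] F] [Algebra K F]
  [Field N] [Algebra K N] [Algebra k[X] N] [IsScalarTower k[X] K N]
  [CommRing R] [IsDedekindDomain R] [Algebra R N] [IsFractionRing R N]
  [Algebra k[X] R] [IsScalarTower k[X] R N] [Algebra.IsIntegral k[X] R]

/-- The Tate conjecture at 2 for twists with several half inert primes. -/
theorem half_tateS (hT : IsTower k k' K F) (h2 : (2 : k) ≠ 0) {a2 a4 a6 : k[X]}
    (hS : SmoothC a2 a4 a6) (hΔ : (twist K a2 a4 a6 1).Δ ≠ 0)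
    (hnr : ∀ x : F, cub (twist K a2 a4 a6 1) x ≠ 0) {θR : R}
    (hθ : cub (twist K a2 a4 a6 1) (algebraMap R N θR) = 0)
    (hN : IntermediateField.adjoin K {algebraMap R N θR} = ⊤)
    {D : k[X]} (hD : Squarefree D) {H : Finset k[X]}
    (hH : ∀ π ∈ H, Irreducible π ∧ π ∣ D ∧ ∃ u, HalfAt a2 a4 a6 π u)
    (hin : ∀ π : k[X], Irreducible π → π ∣ D →
      InertAt a2 a4 a6 π ∨ ∃ π' ∈ H, Associated π' π) :
    ((∀ c : ClassGroup R, c ^ 2 = 1 → c = 1) →
      (∀ ε : Rˣ, ∃ (u : k) (v : Rˣ), (ε : R) = algebraMap k[X] R (C u) * v ^ 2) →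
      (∀ T ⊆ H, T.Nonempty → ∀ z : N, z ≠ 0 → (∀ P : HeightOneSpectrum R,
          IsSquare (P.valuation N z) ↔ ∀ π ∈ T, ¬ DegTwoOver a2 a4 a6 θR π P) →
        ∃ (x y : K) (A B : k[X]), y ^ 2 = cub (twist K a2 a4 a6 D) x ∧ IsCoprime A B ∧
          x * algebraMap k[X] K B = algebraMap k[X] K A ∧ ∀ π ∈ H, (π ∣ A ↔ π ∈ T)) →
      TateAtTwo (F := F) k' (twist K a2 a4 a6 D)) ∧
    ∀ (x y : K) (h : ((twist K a2 a4 a6 D).baseChange K).toAffine.Nonsingular x y) (A B : k[X]),
      IsCoprime A B → x * algebraMap k[X] K B = algebraMap k[X] K A → (∃ π ∈ H, π ∣ A) →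
      ∀ n : ℕ, n ≠ 0 → n • (Point.some x y h : Pt (twist K a2 a4 a6 D) K) ≠ 0 := by
  haveI := hT.sep
  haveI := hT.fracK
  haveI : IsGalois k k' := inferInstance
  haveI : IsSepClosure K (Sep F) := sepKΩ hT.map
  haveI : Algebra.IsSeparable K (Sep F) := IsSepClosure.separable
  haveI : IsGalois K (Sep F) := inferInstance
  have h2K : (2 : K) ≠ 0 := tt h2
  have hnrD := twist_nr hT hD.ne_zero hnr
  have hΔD := twist_disc hD.ne_zero hΔ
  have hD0 := hD.ne_zero
  rw [twist_one] at hΔ hθ
  have hnrK : ∀ x : K, cub (crvC (algebraMap k[X] K a2) (algebraMap k[X] K a4)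
      (algebraMap k[X] K a6)) x ≠ 0 := by
    intro x hx
    have h1 := cub_map (crvC (algebraMap k[X] K a2) (algebraMap k[X] K a4)
      (algebraMap k[X] K a6)) (Algebra.ofId K F) x
    rw [hx, map_zero] at h1
    rw [twist_one] at hnr
    exact hnr _ h1
  have hnrDK : ∀ x : K, cub (twist K a2 a4 a6 D) x ≠ 0 := by
    intro x hx
    have h1 := cub_map (twist K a2 a4 a6 D) (Algebra.ofId K F) x
    rw [hx, map_zero] at h1
    exact hnrD _ h1
  obtain ⟨-, hsep⟩ := sepN (N := N) rfl rfl hΔ hθ hN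
  let i : N →ₐ[K] Sep F := IsSepClosed.lift
  letI : Algebra N (Sep F) := i.toRingHom.toAlgebra
  haveI : IsScalarTower K N (Sep F) := IsScalarTower.of_algebraMap_eq fun x => (i.commutes x).symm
  haveI : IsGalois N (Sep F) := IsGalois.tower_top_of_isGalois K N (Sep F)
  obtain ⟨hrel, hDv, hexc, huniq, hex⟩ := exc_data (R := R) h2 hΔ hnrK hθ hN hD hH hin
  refine critH_cps (R := R) (θR := θR) hT h2 hS hD0 hΔD hnrD hθ hN rfl hDv ?_
  intro iN a b c hC0 hθa hNtop hkN hkX hlay
  have hC : IsC ((twist K a2 a4 a6 D).baseChange (Sep F)).toAffine a b c := hC0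
  have hdiv : ∀ X : Pt (twist K a2 a4 a6 D) (Sep F), ∃ Y, Y + Y = X := fun X => halveC hC X
  have hbc : ((twist K a2 a4 a6 D).baseChange K) = twist K a2 a4 a6 D := by
    rw [WeierstrassCurve.baseChange, Algebra.algebraMap_self]
    exact WeierstrassCurve.map_id _
  have PK : ∀ (Q : Pt (twist K a2 a4 a6 D) K) (φ : Sep F →ₐ[K] Sep F),
      act (twist K a2 a4 a6 D) φ (act (twist K a2 a4 a6 D) (incl K K (Sep F)) Q) =
      act (twist K a2 a4 a6 D) (incl K K (Sep F)) Q := by
    intro Q φ
    have h1 : φ.comp (incl K K (Sep F)) = incl K K (Sep F) := AlgHom.ext fun x => φ.commutes x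
    rw [act_act, h1]
  -- the data of a point
  have ptd : ∀ (x y : K) (hns : ((twist K a2 a4 a6 D).baseChange K).toAffine.Nonsingular x y)
      (H : Pt (twist K a2 a4 a6 D) (Sep F)), H + H = act (twist K a2 a4 a6 D)
        (incl K K (Sep F)) (Point.some x y hns : Pt (twist K a2 a4 a6 D) K) →
      hc a b c H ^ 2 = algebraMap N (Sep F) (algebraMap K N x -
        algebraMap K N (algebraMap k[X] K D) * algebraMap R N θR) := by
    intro x y hns H hH2
    rw [hc_sq hC, hH2]
    obtain ⟨h4, h5⟩ := act_some (twist K a2 a4 a6 D) (incl K K (Sep F)) hns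
    rw [h5]
    have hxa : (incl K K (Sep F)) x ≠ a := by
      intro h6
      apply hnrD (algebraMap K F x)
      apply (algebraMap F (Sep F)).injective
      have h7 := cub_map (twist K a2 a4 a6 D) (incl K F (Sep F)) (algebraMap K F x)
      have h8 : (incl K F (Sep F)) (algebraMap K F x) = a := by
        rw [← h6]
        exact (IsScalarTower.algebraMap_apply K F (Sep F) x).symm
      rw [h8, hC.root_a] at h7
      rw [map_zero]
      exact h7.symm
    simp only [dc, if_neg hxa]
    rw [map_sub, hθa, ← IsScalarTower.algebraMap_apply K N (Sep F)]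
    rfl
  refine ⟨fun hcl hU hpts => tate_of_half hdiv fun e he => ?_, ?_⟩
  · -- the first layer
    have hf2 : ∀ σ, e 1 σ + e 1 σ = 0 := fun σ => by
      rw [← two_nsmul, he.tc.two 0 σ, he.tc.zero]
    obtain ⟨⟨t, z, ht, hz, hk⟩, hpar⟩ := hlay e he
    have hz0 : z ≠ 0 := by
      rintro rfl
      rw [map_zero] at hz
      exact pow_ne_zero 2 ht hz
    let T := H.filter (fun π => ∃ P : HeightOneSpectrum R, ExcP a2 a4 a6 D H θR π P ∧
      ¬ IsSquare (P.valuation N z))
    have hpat : ∀ (π : k[X]) (P : HeightOneSpectrum R), ExcP a2 a4 a6 D H θR π P →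
        (IsSquare (P.valuation N z) ↔ π ∉ T) := by
      intro π P hP
      constructor
      · intro hsq hmem
        obtain ⟨-, P', hP', hns⟩ := Finset.mem_filter.1 hmem
        rw [huniq π P' P hP' hP] at hns
        exact hns hsq
      · intro hnm
        by_contra hns
        exact hnm (Finset.mem_filter.2 ⟨hP.1, P, hP, hns⟩)
    have hTH : T ⊆ H := Finset.filter_subset _ _
    by_cases hTe : T.Nonempty
    · -- add the class of a point
      obtain ⟨x, y, A, B, hxy, hAB, hx, hAT⟩ := hpts T hTH hTe z hz0 (by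
        intro P
        constructor
        · intro hsq π hπT htwo
          obtain ⟨hπ, hπD, -⟩ := hH π (hTH hπT)
          exact (hpat π P (htwo.exc (hTH hπT) hπ hπD fun h => (hDv P h).1)).1 hsq hπT
        · intro hno
          by_cases hP : ParOK a2 a4 a6 D θR P
          · exact hpar t z ht hz hk P hP
          · obtain ⟨π, hπP⟩ := hexc P hP
            exact (hpat π P hπP).2 fun hπT => hno π hπT hπP.two)
      have hWe : (twist K a2 a4 a6 D).toAffine.Equation x y := by
        rw [Affine.equation_iff]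
        show y ^ 2 + 0 * x * y + 0 * y = x ^ 3 + (twist K a2 a4 a6 D).a₂ * x ^ 2 +
          (twist K a2 a4 a6 D).a₄ * x + (twist K a2 a4 a6 D).a₆
        have h1 : y ^ 2 = x ^ 3 + (twist K a2 a4 a6 D).a₂ * x ^ 2 +
          (twist K a2 a4 a6 D).a₄ * x + (twist K a2 a4 a6 D).a₆ := hxy
        rw [h1]; ring
      have hns : ((twist K a2 a4 a6 D).baseChange K).toAffine.Nonsingular x y := by
        rw [hbc]
        exact ((twist K a2 a4 a6 D).toAffine.equation_iff_nonsingular_of_Δ_ne_zero hΔD).1 hWe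
      let Q : Pt (twist K a2 a4 a6 D) K := Point.some x y hns
      obtain ⟨H', hH2⟩ := halveC hC (act (twist K a2 a4 a6 D) (incl K K (Sep F)) Q)
      set zQ : N := algebraMap K N x - algebraMap K N (algebraMap k[X] K D) * algebraMap R N θR
        with hzQ
      have hhc := hc_ne hC H'
      have hhc2 : hc a b c H' ^ 2 = algebraMap N (Sep F) zQ := ptd x y hns H' hH2
      have hzQ0 : zQ ≠ 0 := by
        intro h0
        rw [h0, map_zero] at hhc2
        exact pow_ne_zero 2 hhc hhc2
      obtain ⟨G, G0, G1, GS⟩ := halves hdiv hH2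
      have heQ := pt_class (k' := k') G0 GS
      have hd2 : ∀ σ : Sep F ≃ₐ[F] Sep F,
          (act (twist K a2 a4 a6 D) (rs K σ) H' - H') +
            (act (twist K a2 a4 a6 D) (rs K σ) H' - H') = 0 := by
        intro σ
        rw [sub_add_sub_comm, ← map_add, hH2, PK, sub_self]
      have hkQ : ∀ σ : Sep F ≃ₐ[F] Sep F, σ a = a →
          σ (hc a b c H') = sC a (act (twist K a2 a4 a6 D) (rs K σ) H' - H') * hc a b c H' :=
        fun σ hσ => hc_sign hC (φ := rs K σ) hσ (hd2 σ)
      have headd := he.add heQ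
      obtain ⟨-, hpar'⟩ := hlay _ headd
      have hf2' : ∀ σ, (e 1 σ + (act (twist K a2 a4 a6 D) (rs K σ) (G 1) - G 1)) +
          (e 1 σ + (act (twist K a2 a4 a6 D) (rs K σ) (G 1) - G 1)) = 0 := by
        intro σ
        rw [add_add_add_comm, hf2, G1, hd2, add_zero]
      have hk' : ∀ σ : Sep F ≃ₐ[F] Sep F, σ a = a → σ (t * hc a b c H') =
          sC a (e 1 σ + (act (twist K a2 a4 a6 D) (rs K σ) (G 1) - G 1)) *
            (t * hc a b c H') := by
        intro σ hσ
        rw [map_mul, hk σ hσ, hkQ σ hσ, G1, sC_add hC (hf2 σ) (hd2 σ)]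
        exact mul_mul_mul_comm _ _ _ _
      have ht' : t * hc a b c H' ≠ 0 := mul_ne_zero ht hhc
      have hzz : (t * hc a b c H') ^ 2 = algebraMap N (Sep F) (z * zQ) := by
        rw [mul_pow, hz, hhc2, map_mul]
      have hall' : ∀ P : HeightOneSpectrum R, IsSquare (P.valuation N (z * zQ)) := by
        intro P
        by_cases hP : ParOK a2 a4 a6 D θR P
        · exact hpar' _ _ ht' hzz hk' P hP
        · obtain ⟨π, hπP⟩ := hexc P hP
          obtain ⟨hπ, hπD, -⟩ := hH π hπP.1
          rw [map_mul]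
          refine sq_mul_of ?_
          rw [hpat π P hπP, ← hAT π hπP.1]
          exact (par_pt h2 hπ hD hπD hrel hπP hxy hAB hx).symm
      obtain ⟨u, g, hu, hg, e1⟩ := even_triv hcl hU (mul_ne_zero hz0 hzQ0) hall'
      obtain ⟨R', hR', hR''⟩ := cobL hT h2 hnrD hC hθa hNtop hkN (headd.tc.coc 1) hf2' ht' hk'
        (u := u) (g := g) (by rw [hzz, e1, hkX])
      refine ⟨-Q, R' - H', ?_, fun σ => ?_⟩
      · rw [sub_add_sub_comm, hR', hH2, map_neg, zero_sub]
      · have h1 := hR'' σ
        rw [G1] at h1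
        rw [map_sub]
        have h5 : e 1 σ = (e 1 σ + (act (twist K a2 a4 a6 D) (rs K σ) H' - H')) -
          (act (twist K a2 a4 a6 D) (rs K σ) H' - H') := by abel
        rw [h5, h1]
        abel
    · have hTe' : T = ∅ := Finset.not_nonempty_iff_eq_empty.1 hTe
      have hall : ∀ P : HeightOneSpectrum R, IsSquare (P.valuation N z) := by
        intro P
        by_cases hP : ParOK a2 a4 a6 D θR P
        · exact hpar t z ht hz hk P hP
        · obtain ⟨π, hπP⟩ := hexc P hP
          exact (hpat π P hπP).2 (by rw [hTe']; exact Finset.notMem_empty _)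
      obtain ⟨u, g, hu, hg, e1⟩ := even_triv hcl hU hz0 hall
      obtain ⟨R', hR', hR''⟩ := cobL hT h2 hnrD hC hθa hNtop hkN (he.tc.coc 1) hf2 ht hk
        (u := u) (g := g) (by rw [hz, e1, hkX])
      exact ⟨0, R', by rw [hR', map_zero], hR''⟩
  · -- the point is not divisible by two
    intro x y hns A B hAB hx hpi n hn hnQ
    obtain ⟨π, hπH, hπA⟩ := hpi
    obtain ⟨hπ, hπD, -⟩ := hH π hπH
    obtain ⟨P, hP⟩ := hex π hπH
    have hxy : y ^ 2 = cub (twist K a2 a4 a6 D) x := by
      have h1 := hns.1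
      rw [hbc, Affine.equation_iff] at h1
      have h3 : y ^ 2 + 0 * x * y + 0 * y = x ^ 3 + (twist K a2 a4 a6 D).a₂ * x ^ 2 +
          (twist K a2 a4 a6 D).a₄ * x + (twist K a2 a4 a6 D).a₆ := h1
      show y ^ 2 = x ^ 3 + (twist K a2 a4 a6 D).a₂ * x ^ 2 +
          (twist K a2 a4 a6 D).a₄ * x + (twist K a2 a4 a6 D).a₆
      linear_combination h3
    have hnsq : ¬ IsSquare (P.valuation N (algebraMap K N x -
        algebraMap K N (algebraMap k[X] K D) * algebraMap R N θR)) := fun h =>
      (par_pt h2 hπ hD hπD hrel hP hxy hAB hx).1 h hπA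
    set Q : Pt (twist K a2 a4 a6 D) K := Point.some x y hns with hQ
    have hnodiv : ∀ Q' : Pt (twist K a2 a4 a6 D) K, Q' + Q' ≠ Q := by
      intro Q' hQ'
      set H' := act (twist K a2 a4 a6 D) (incl K K (Sep F)) Q' with hH'
      have hH'2 : H' + H' = act (twist K a2 a4 a6 D) (incl K K (Sep F)) Q := by
        rw [hH', ← map_add, hQ']
      have hsq := ptd x y hns H' hH'2
      have PK' : ∀ φ : Sep F →ₐ[K] Sep F, act (twist K a2 a4 a6 D) φ H' = H' := fun φ =>
        PK Q' φ
      obtain ⟨c', hc', e'⟩ := kummerN_unique (W := twist K a2 a4 a6 D) (N := N) hC hθa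
        (g := fun _ => 0) (t := hc a b c H') (u := 1) (hc_ne hC H') one_ne_zero (by
          intro τ hτ
          have h1 := hc_sign hC (φ := ak τ) hτ (H := H') (by rw [PK']; abel)
          rw [PK', sub_self] at h1
          exact h1) (by
          intro τ hτ
          rw [map_one]
          show (1 : Sep F) = sC a (0 : Pt (twist K a2 a4 a6 D) (Sep F)) * 1
          rw [mul_one]
          rfl)
      rw [mul_one] at e'
      rw [e', ← map_pow] at hsq
      apply hnsq
      rw [← (algebraMap N (Sep F)).injective hsq, map_pow, pow_two]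
      exact ⟨_, rfl⟩
    have hfin : IsOfFinAddOrder Q := isOfFinAddOrder_iff_nsmul_eq_zero.2
      ⟨n, Nat.pos_of_ne_zero hn, hnQ⟩
    have hpos := hfin.addOrderOf_pos
    have hord := addOrderOf_nsmul_eq_zero Q
    rcases Nat.even_or_odd' (addOrderOf Q) with ⟨j, hj | hj⟩
    · have h1 : j • Q + j • Q = 0 := by
        rw [← add_nsmul, ← two_mul, ← hj, hord]
      have h3 := two_tors h2K rfl rfl hnrDK h1
      have h5 := addOrderOf_dvd_of_nsmul_eq_zero h3
      have h6 := Nat.le_of_dvd (by omega) h5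
      omega
    · apply hnodiv (-(j • Q))
      have h1 : (2 * j + 1) • Q = 0 := by rw [← hj, hord]
      rw [add_nsmul, one_nsmul, two_mul, add_nsmul] at h1
      have h3 : Q = -(j • Q + j • Q) := by
        rw [eq_neg_iff_add_eq_zero, add_comm]
        exact h1
      rw [← neg_add]
      exact h3.symm

end main

end Pool.Agent.TH115.GD
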