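import Pool.Agent.TH115.TC.FamB

/-!
The Tate conjecture at 2 for the family `y ^ 2 = g(x) + s h(t) ^ 2`.
-/

set_option autoImplicit false
set_option linter.all false

open Polynomial IsDedekindDomain WithZero
open scoped Classical

namespace Pool.Agent.TH115.GD

theorem fam_tate {k k' K F : Type} [Field k] [Field k'] [Algebra k k'] [Field K] [Algebra k[X] K]
    [Field F] [Algebra k'[X] F] [IsFractionRing k'[X] F] [Algebra K F]
    (hT : IsTower k k' K F) (h2 : (2 : k) ≠ 0) {b2 b1 b0 s : k} {l : List (k × k)}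
    (hsep : (cb b2 b1 b0).Separable)
    (hs0 : s ≠ 0) (hor : IsSquare s ∨ ∀ r, (cb b2 b1 b0).eval r ≠ 0)
    (hl : ∀ p ∈ l, p.1 ≠ 0) (hgood : ∀ γ ∈ crit l, Good (cb b2 b1 b0) (s * γ ^ 2)) :
    TateAtTwo (F := F) k' (famC K b2 b1 b0 s (cq l)) := by
  haveI := hT.fracK
  have hnrK : ∀ x : K, cub (famC K b2 b1 b0 s (cq l)) x ≠ 0 := by
    intro x hx
    have h1 := cub_map (famC K b2 b1 b0 s (cq l)) (Algebra.ofId K F) x
    rw [hx, map_zero] at h1
    exact hnr_fam hT hs0 hl _ h1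
  haveI : Fact (Irreducible (cubP (famC K b2 b1 b0 s (cq l)) K)) := ⟨cubP_irr hnrK⟩
  refine famN (N := AdjoinRoot (cubP (famC K b2 b1 b0 s (cq l)) K)) hT h2 hsep hs0 hor hl hgood
    (θ := AdjoinRoot.root _) ?_ ?_
  · rw [← cubP_aeval (F := K), AdjoinRoot.aeval_eq, AdjoinRoot.mk_self]
  · rw [eq_top_iff]
    intro x _
    have h1 : x ∈ Algebra.adjoin K ({AdjoinRoot.root (cubP (famC K b2 b1 b0 s (cq l)) K)} :
        Set (AdjoinRoot (cubP (famC K b2 b1 b0 s (cq l)) K))) := by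
      rw [AdjoinRoot.adjoinRoot_eq_top]
      trivial
    exact IntermediateField.algebra_adjoin_le_adjoin K _ h1

end Pool.Agent.TH115.GD
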