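import Pool.Agent.TH115.TC.TwFam

/-!
The Tate conjecture at 2 for the inert twists of the family `y ^ 2 = g(x) + h(t)`.
-/

set_option autoImplicit false
set_option linter.all false

open Polynomial IsDedekindDomain WithZero
open scoped Classical

namespace Pool.Agent.TH115.GD

section fam

variable {k k' K F : Type} [Field k] [Field k'] [Algebra k k'] [Field K] [Algebra k[X] K]
  [Field F] [Algebra k'[X] F] [IsFractionRing k'[X] F] [Algebra K F]
  {b2 b1 b0 : k} {l : List (k × k)}

variable {N : Type} [Field N] [Algebra K N] [Algebra k[X] N] [IsScalarTower k[X] K N]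

theorem twN (hT : IsTower k k' K F) (h2 : (2 : k) ≠ 0) (hder : derivative (cb b2 b1 b0) ≠ 0)
    (hl : ∀ p ∈ l, p.1 ≠ 0) (hgood : GoodL b2 b1 b0 l) {D : k[X]} (hD : Squarefree D)
    (hin : ∀ π : k[X], Irreducible π → π ∣ D → ∀ u : k[X],
      ¬ π ∣ (cb b2 b1 b0).comp u + cq l) {θ : N}
    (hθ : cub (crvC (algebraMap k[X] K (C b2)) (algebraMap k[X] K (C b1))
      (algebraMap k[X] K (C b0 + cq l))) θ = 0) (hNtop : IntermediateField.adjoin K {θ} = ⊤) :
    TateAtTwo (F := F) k' (twC K b2 b1 b0 (cq l) D) := by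
  haveI := hT.fracK
  letI : Algebra k N := ((algebraMap k[X] N).comp C).toAlgebra
  have hk : ∀ c : k, algebraMap k N c = algebraMap k[X] N (C c) := fun c => rfl
  set t : N := algebraMap k[X] N X with ht
  have hinj : Function.Injective (algebraMap k[X] N) := by
    rw [IsScalarTower.algebraMap_eq k[X] K N]
    exact (algebraMap K N).injective.comp (IsFractionRing.injective k[X] K)
  have hCt : ∀ p : k[X], algebraMap k[X] N p = aeval t p := by
    intro p
    have e : algebraMap k[X] N = ((aeval t : k[X] →ₐ[k] N) : k[X] →+* N) := by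
      apply Polynomial.ringHom_ext
      · intro c
        rw [← hk]
        exact (aeval_C t c).symm
      · exact (aeval_X t).symm
    rw [e]
    rfl
  have htr : Transcendental k t := by
    rw [transcendental_iff_injective]
    intro p q hpq
    exact hinj (by rw [hCt, hCt]; exact hpq)
  have heq : aeval t (cq l) = -aeval θ (cb b2 b1 b0) := by
    have e : cub (crvC (algebraMap k[X] K (C b2)) (algebraMap k[X] K (C b1))
      (algebraMap k[X] K (C b0 + cq l))) θ = θ ^ 3 + algebraMap K N (algebraMap k[X] K (C b2)) * θ ^ 2 +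
      algebraMap K N (algebraMap k[X] K (C b1)) * θ +
      algebraMap K N (algebraMap k[X] K (C b0 + cq l)) := rfl
    rw [e, ← IsScalarTower.algebraMap_apply k[X] K N, ← IsScalarTower.algebraMap_apply k[X] K N,
      ← IsScalarTower.algebraMap_apply k[X] K N, map_add, ← hk, ← hk, ← hk, hCt] at hθ
    unfold cb
    simp only [map_add, map_mul, map_pow, aeval_C, aeval_X]
    linear_combination hθ
  have hθtr : Transcendental k θ := by
    intro hθa
    have h1 : IsAlgebraic k (-aeval θ (cb b2 b1 b0)) := by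
      rw [isAlgebraic_iff_isIntegral] at hθa ⊢
      refine IsIntegral.neg ?_
      unfold cb
      simp only [map_add, map_mul, map_pow, aeval_C, aeval_X]
      exact (((hθa.pow 3).add (isIntegral_algebraMap.mul (hθa.pow 2))).add
        (isIntegral_algebraMap.mul hθa)).add isIntegral_algebraMap
    rw [← heq] at h1
    refine htr.aeval (cq l) ?_ ?_ h1
    · rw [cq_deg l hl]
      positivity
    · apply mem_nonZeroDivisors_of_ne_zero
      rw [Ne, leadingCoeff_eq_zero]
      intro h0
      have h3 : (cq l).natDegree = 0 := by rw [h0, natDegree_zero]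
      rw [cq_deg l hl] at h3
      have : 0 < 2 ^ l.length := by positivity
      omega
  have htop : IntermediateField.adjoin k ({θ, t} : Set N) = ⊤ := by
    set T := IntermediateField.adjoin k ({θ, t} : Set N) with hTdef
    have hθT : θ ∈ T := IntermediateField.subset_adjoin k _ (Or.inl rfl)
    have htT : t ∈ T := IntermediateField.subset_adjoin k _ (Or.inr rfl)
    have hp : ∀ p : k[X], algebraMap k[X] N p ∈ T := by
      intro p
      rw [hCt, aeval_def, eval₂_eq_sum_range]
      exact sum_mem fun i _ => mul_mem (T.algebraMap_mem _) (pow_mem htT i)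
    rw [eq_top_iff]
    intro x _
    have hx : x ∈ IntermediateField.adjoin K {θ} := by rw [hNtop]; trivial
    refine IntermediateField.adjoin_induction K (p := fun x _ => x ∈ T) ?_ ?_ ?_ ?_ ?_ hx
    · intro y hy
      rw [Set.mem_singleton_iff] at hy
      subst hy
      exact hθT
    · intro y
      obtain ⟨n, d, hd, rfl⟩ := IsFractionRing.div_surjective (A := k[X]) y
      rw [map_div₀, ← IsScalarTower.algebraMap_apply k[X] K N,
        ← IsScalarTower.algebraMap_apply k[X] K N]
      exact div_mem (hp n) (hp d)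
    · intro x y _ _ hx hy
      exact add_mem hx hy
    · intro x _ hx
      exact inv_mem hx
    · intro x y _ _ hx hy
      exact mul_mem hx hy
  obtain ⟨R, i1, i2, i3, i4, i5, i6, θR, tR, hL⟩ := levG_all h2 (cb_deg b2 b1 b0).1 l hl
    (fun γ hγ => ⟨(hgood γ hγ).1, (hgood γ hγ).2, fun A hA hA1 => absurd hA hA1⟩)
    N θ t hθtr htop heq
  letI : Algebra k[X] R := ((aeval tR : k[X] →ₐ[k] R) : k[X] →+* R).toAlgebra
  haveI : IsScalarTower k[X] R N := IsScalarTower.of_algebraMap_eq fun p => by
    show _ = algebraMap R N (aeval tR p)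
    rw [← aeval_algebraMap_apply, hL.ht, hCt]
  haveI : IsScalarTower k k[X] R := IsScalarTower.of_algebraMap_eq fun c => by
    show _ = aeval tR (C c)
    rw [aeval_C]
  have heqR : aeval tR (cq l) = -aeval θR (cb b2 b1 b0) := by
    apply IsFractionRing.injective R N
    rw [map_neg, ← aeval_algebraMap_apply, ← aeval_algebraMap_apply, hL.ht, hL.hθ, heq]
  haveI : Algebra.IsIntegral k[X] R := int_tw (aeval_X tR) heqR hL.int
  refine mainT (R := R) hT h2 (smooth_tw h2 hl hgood) hD.ne_zero (disc_tw h2 hder hl)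
    (disc_twD h2 hder hl hD.ne_zero) (hnr_twD hT hl hD.ne_zero) hθ hNtop ?_ ?_
  · refine twist_ok (g := cb b2 b1 b0) (H := cq l) (θR := θR) (tR := tR) (cb_deg b2 b1 b0).2
      (cb_deg b2 b1 b0).1 hL.gen (by rw [heqR]; ring) (fun p => rfl) ?_ hder hD hin ?_
    · intro p q hpq
      apply hinj
      rw [IsScalarTower.algebraMap_apply k[X] R N, IsScalarTower.algebraMap_apply k[X] R N, hpq]
    · rw [← aeval_algebraMap_apply, hL.hθ, cb_der]
      have e : cub' (crvC (algebraMap k[X] K (C b2)) (algebraMap k[X] K (C b1))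
        (algebraMap k[X] K (C b0 + cq l))) θ = 3 * θ ^ 2 +
          2 * algebraMap K N (algebraMap k[X] K (C b2)) * θ +
          algebraMap K N (algebraMap k[X] K (C b1)) := rfl
      rw [e, ← IsScalarTower.algebraMap_apply k[X] K N, ← IsScalarTower.algebraMap_apply k[X] K N,
        ← hk, ← hk]
      simp only [map_add, map_mul, map_pow, aeval_C, aeval_X, map_ofNat]
  · intro z hz hev
    obtain ⟨c, A, w, hc, hA, hw, e⟩ := hL.even z hz hev
    have hA1 : A = 1 := hA
    subst hA1
    refine ⟨c, w, hc, hw, Or.inl ?_⟩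
    rw [e, map_one, mul_one, hk]

end fam

/-- **The Tate conjecture at 2 for inert twists.** -/
theorem tw_tate {k k' K F : Type} [Field k] [Field k'] [Algebra k k'] [Field K] [Algebra k[X] K]
    [Field F] [Algebra k'[X] F] [IsFractionRing k'[X] F] [Algebra K F]
    (hT : IsTower k k' K F) (h2 : (2 : k) ≠ 0) {b2 b1 b0 : k} {l : List (k × k)}
    (hder : derivative (cb b2 b1 b0) ≠ 0)
    (hl : ∀ p ∈ l, p.1 ≠ 0) (hgood : GoodL b2 b1 b0 l) {D : k[X]} (hD : Squarefree D)
    (hin : ∀ π : k[X], Irreducible π → π ∣ D → ∀ u : k[X],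
      ¬ π ∣ (cb b2 b1 b0).comp u + cq l) :
    TateAtTwo (F := F) k' (twC K b2 b1 b0 (cq l) D) := by
  haveI := hT.fracK
  set W := crvC (algebraMap k[X] K (C b2)) (algebraMap k[X] K (C b1))
      (algebraMap k[X] K (C b0 + cq l)) with hW
  have hnrK : ∀ x : K, cub W x ≠ 0 := by
    intro x hx
    have h1 := cub_map W (Algebra.ofId K F) x
    rw [hx, map_zero] at h1
    exact hnr_tw hT hl _ h1
  haveI : Fact (Irreducible (cubP W K)) := ⟨cubP_irr hnrK⟩
  refine twN (N := AdjoinRoot (cubP W K)) hT h2 hder hl hgood hD hin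
    (θ := AdjoinRoot.root _) ?_ ?_
  · rw [← hW, ← cubP_aeval (F := K), AdjoinRoot.aeval_eq, AdjoinRoot.mk_self]
  · rw [eq_top_iff]
    intro x _
    have h1 : x ∈ Algebra.adjoin K ({AdjoinRoot.root (cubP W K)} :
        Set (AdjoinRoot (cubP W K))) := by
      rw [AdjoinRoot.adjoinRoot_eq_top]
      trivial
    exact IntermediateField.algebra_adjoin_le_adjoin K _ h1

end Pool.Agent.TH115.GD
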