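import Pool.Agent.TH115.TC.EvenCl

/-!
Inert twists and the class group of the trigonal curve.
-/

set_option autoImplicit false
set_option linter.all false

open Polynomial IsDedekindDomain WithZero
open scoped Classical nonZeroDivisors

namespace Pool.Agent.TH115.GD

section tw

variable {k k' K F : Type} [Field k] [Field k'] [Algebra k k'] [Field K] [Algebra k[X] K]
  [Field F] [Algebra k'[X] F] [IsFractionRing k'[X] F] [Algebra K F]

/-- The twist of `y ^ 2 = x ^ 3 + a2 x ^ 2 + a4 x + a6` by `D`. -/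
noncomputable def twist (K : Type) [Field K] [Algebra k[X] K] (a2 a4 a6 D : k[X]) :
    WeierstrassCurve K :=
  crvC (algebraMap k[X] K (D * a2)) (algebraMap k[X] K (D ^ 2 * a4))
    (algebraMap k[X] K (D ^ 3 * a6))

theorem twist_eq (a2 a4 a6 D : k[X]) : twist K a2 a4 a6 D =
    crvC (algebraMap k[X] K D * algebraMap k[X] K a2)
      (algebraMap k[X] K D ^ 2 * algebraMap k[X] K a4)
      (algebraMap k[X] K D ^ 3 * algebraMap k[X] K a6) := by
  unfold twist
  rw [map_mul, map_mul, map_mul, map_pow, map_pow]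

theorem twist_one (a2 a4 a6 : k[X]) : twist K a2 a4 a6 1 =
    crvC (algebraMap k[X] K a2) (algebraMap k[X] K a4) (algebraMap k[X] K a6) := by
  unfold twist
  simp only [one_mul, one_pow]

theorem twist_nr (hT : IsTower k k' K F) {a2 a4 a6 D : k[X]} (hD : D ≠ 0)
    (hnr : ∀ x : F, cub (twist K a2 a4 a6 1) x ≠ 0) (x : F) : cub (twist K a2 a4 a6 D) x ≠ 0 := by
  haveI := hT.fracK
  rw [twist_one] at hnr
  have hd : algebraMap K F (algebraMap k[X] K D) ≠ 0 := by
    rw [Ne, _root_.map_eq_zero, map_eq_zero_iff _ (IsFractionRing.injective k[X] K)]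
    exact hD
  have e : x = algebraMap K F (algebraMap k[X] K D) *
      (x / algebraMap K F (algebraMap k[X] K D)) := by
    rw [mul_div_cancel₀ _ hd]
  rw [e, twist_eq, cub_tw]
  exact mul_ne_zero (pow_ne_zero 3 hd) (hnr _)

theorem twist_disc [IsFractionRing k[X] K] {a2 a4 a6 D : k[X]} (hD : D ≠ 0)
    (hΔ : (twist K a2 a4 a6 1).Δ ≠ 0) : (twist K a2 a4 a6 D).Δ ≠ 0 := by
  have hd : algebraMap k[X] K D ≠ 0 := by
    rw [Ne, map_eq_zero_iff _ (IsFractionRing.injective k[X] K)]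
    exact hD
  rw [twist_one, crvC_disc] at hΔ
  rw [twist_eq, crvC_disc]
  intro h0
  refine mul_ne_zero (pow_ne_zero 6 hd) hΔ ?_
  rw [← h0]
  ring

end tw

section main

variable {k k' K F N R : Type} [Field k] [Field k'] [Algebra k k'] [Field K] [Algebra k[X] K]
  [Field F] [Algebra k'[X] F] [IsFractionRing k'[X] F] [Algebra K F]
  [Field N] [Algebra K N] [Algebra k[X] N] [IsScalarTower k[X] K N]
  [CommRing R] [IsDedekindDomain R] [Algebra R N] [IsFractionRing R N]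
  [Algebra k[X] R] [IsScalarTower k[X] R N] [Algebra.IsIntegral k[X] R]

/-- The bound by the number of the classes of even elements. -/
theorem even_bound (hT : IsTower k k' K F) (h2 : (2 : k) ≠ 0) {a2 a4 a6 : k[X]}
    (hS : SmoothC a2 a4 a6) (hΔ : (twist K a2 a4 a6 1).Δ ≠ 0)
    (hnr : ∀ x : F, cub (twist K a2 a4 a6 1) x ≠ 0) {θ : N}
    (hθ : cub (twist K a2 a4 a6 1) θ = 0) (hN : IntermediateField.adjoin K {θ} = ⊤)
    {S : Finset N} {d : ℕ} (hd : S.card ≤ 2 ^ d)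
    (hpts : ∀ z : N, z ≠ 0 → (∀ v : HeightOneSpectrum R, IsSquare (v.valuation N z)) →
      ∃ w ∈ S, ∃ (u : k) (g : N), u ≠ 0 ∧ g ≠ 0 ∧ z = algebraMap k[X] N (C u) * g ^ 2 * w)
    {D : k[X]} (hD : Squarefree D)
    (hin : ∀ π : k[X], Irreducible π → π ∣ D → InertAt a2 a4 a6 π) :
    GeneratedBy (F := F) k' (twist K a2 a4 a6 D) d := by
  haveI := hT.fracK
  have hnrD := twist_nr hT hD.ne_zero hnr
  have hΔD := twist_disc hD.ne_zero hΔ
  rw [twist_one] at hΔ hθ
  have hnrK : ∀ x : K, cub (crvC (algebraMap k[X] K a2) (algebraMap k[X] K a4)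
      (algebraMap k[X] K a6)) x ≠ 0 := by
    intro x hx
    have h1 := cub_map (crvC (algebraMap k[X] K a2) (algebraMap k[X] K a4)
      (algebraMap k[X] K a6)) (Algebra.ofId K F) x
    rw [hx, map_zero] at h1
    rw [twist_one] at hnr
    exact hnr _ h1
  exact mainG (R := R) hT h2 hS hD.ne_zero hΔ hΔD hnrD hθ hN
    (twist_okR h2 hΔ hnrK hθ hN hD hin) hd hpts

/-- The bound by the class group and the units. -/
theorem cl_bound (hT : IsTower k k' K F) (h2 : (2 : k) ≠ 0) {a2 a4 a6 : k[X]}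
    (hS : SmoothC a2 a4 a6) (hΔ : (twist K a2 a4 a6 1).Δ ≠ 0)
    (hnr : ∀ x : F, cub (twist K a2 a4 a6 1) x ≠ 0) {θ : N}
    (hθ : cub (twist K a2 a4 a6 1) θ = 0) (hN : IntermediateField.adjoin K {θ} = ⊤)
    (hfin : Finite {c : ClassGroup R // c ^ 2 = 1}) {U : Finset Rˣ}
    (hU : ∀ ε : Rˣ, ∃ η ∈ U, ∃ (u : k) (v : Rˣ), (ε : R) = algebraMap k[X] R (C u) * v ^ 2 * η)
    {d : ℕ} (hd : Nat.card {c : ClassGroup R // c ^ 2 = 1} * U.card ≤ 2 ^ d)
    {D : k[X]} (hD : Squarefree D)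
    (hin : ∀ π : k[X], Irreducible π → π ∣ D → InertAt a2 a4 a6 π) :
    GeneratedBy (F := F) k' (twist K a2 a4 a6 D) d := by
  obtain ⟨S, hS1, hS2⟩ := reps (N := N) hU
  exact even_bound (R := R) hT h2 hS hΔ hnr hθ hN (hS1.trans hd) hS2 hD hin

/-- The Tate conjecture at 2 for the twists, if the class number is odd. -/
theorem cl_tate (hT : IsTower k k' K F) (h2 : (2 : k) ≠ 0) {a2 a4 a6 : k[X]}
    (hS : SmoothC a2 a4 a6) (hΔ : (twist K a2 a4 a6 1).Δ ≠ 0)
    (hnr : ∀ x : F, cub (twist K a2 a4 a6 1) x ≠ 0) {θ : N}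
    (hθ : cub (twist K a2 a4 a6 1) θ = 0) (hN : IntermediateField.adjoin K {θ} = ⊤)
    (hcl : ∀ c : ClassGroup R, c ^ 2 = 1 → c = 1)
    (hU : ∀ ε : Rˣ, ∃ (u : k) (v : Rˣ), (ε : R) = algebraMap k[X] R (C u) * v ^ 2)
    {D : k[X]} (hD : Squarefree D)
    (hin : ∀ π : k[X], Irreducible π → π ∣ D → InertAt a2 a4 a6 π) :
    TateAtTwo (F := F) k' (twist K a2 a4 a6 D) := by
  haveI := hT.fracK
  have hnrD := twist_nr hT hD.ne_zero hnr
  have hΔD := twist_disc hD.ne_zero hΔ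
  rw [twist_one] at hΔ hθ
  have hnrK : ∀ x : K, cub (crvC (algebraMap k[X] K a2) (algebraMap k[X] K a4)
      (algebraMap k[X] K a6)) x ≠ 0 := by
    intro x hx
    have h1 := cub_map (crvC (algebraMap k[X] K a2) (algebraMap k[X] K a4)
      (algebraMap k[X] K a6)) (Algebra.ofId K F) x
    rw [hx, map_zero] at h1
    rw [twist_one] at hnr
    exact hnr _ h1
  have h1cls : ClsOf (R := R) (1 : N) 1 := by
    refine ⟨1, 1, ⊤, mem_nonZeroDivisors_of_ne_zero (by
      rw [Ne, Ideal.zero_eq_bot]; exact top_ne_bot), one_ne_zero, one_ne_zero, ?_, ?_, ?_⟩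
    · rw [map_one, one_pow, mul_one]
    · rw [Ideal.span_singleton_one, Ideal.top_pow]
    · rw [ClassGroup.mk0_eq_one_iff]
      exact ⟨⟨1, by rw [← Ideal.span, Ideal.span_singleton_one]⟩⟩
  refine mainT (R := R) hT h2 hS hD.ne_zero hΔ hΔD hnrD hθ hN
    (twist_okR h2 hΔ hnrK hθ hN hD hin) ?_
  intro z hz hev
  obtain ⟨c, hc, hc2⟩ := exists_cls hz hev
  rw [hcl c hc2] at hc
  obtain ⟨ε, g, hg, e⟩ := cls_eq hc h1cls
  obtain ⟨u, v, hε⟩ := hU ε
  refine ⟨u, algebraMap R N v * g, ?_, ?_, Or.inl ?_⟩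
  · rintro rfl
    rw [C_0, map_zero, zero_mul] at hε
    exact ε.ne_zero hε
  · refine mul_ne_zero ?_ hg
    rw [Ne, map_eq_zero_iff _ (IsFractionRing.injective R N)]
    exact v.ne_zero
  · rw [e, hε]
    simp only [map_mul, map_pow, ← IsScalarTower.algebraMap_apply k[X] R N]
    ring

end main

end Pool.Agent.TH115.GD
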