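import Pool.Agent.TH115.TC.LocC

/-!
Cocycles with values in the points of order two: the sign at one root determines the class.
-/

set_option autoImplicit false
set_option linter.all false

open WeierstrassCurve WeierstrassCurve.Affine
open scoped Classical

namespace Pool.Agent.TH115.GD

open Pool.Agent.W309.TD (locConst_apply exists_root compare)

universe u

section cont

variable {F M Ω : Type u} [Field F] [Field M] [Field Ω] [Algebra F M] [Algebra M Ω] [Algebra F Ω]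
  [IsScalarTower F M Ω] [IsGalois F Ω]

/-- The restriction of scalars is continuous. -/
theorem cont_rs : Continuous (AlgEquiv.restrictScalarsHom F : (Ω ≃ₐ[M] Ω) →* (Ω ≃ₐ[F] Ω)) := by
  haveI : IsGalois M Ω := IsGalois.tower_top_of_isGalois F M Ω
  apply continuous_of_continuousAt_one
  unfold ContinuousAt
  rw [map_one]
  intro s hs
  obtain ⟨E, hE, hEs⟩ := (krullTopology_mem_nhds_one_iff F Ω s).1 hs
  haveI : Algebra.IsSeparable F E := inferInstance
  obtain ⟨α, hα⟩ := Field.exists_primitive_element F E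
  have ho : (MulAction.stabilizer (Ω ≃ₐ[M] Ω) (α : Ω) : Set (Ω ≃ₐ[M] Ω)) ∈
      nhds (1 : Ω ≃ₐ[M] Ω) :=
    (stabilizer_isOpen_of_isIntegral (K := M) (α : Ω)).mem_nhds
      (MulAction.stabilizer (Ω ≃ₐ[M] Ω) (α : Ω)).one_mem
  rw [Filter.mem_map]
  refine Filter.mem_of_superset ho fun τ hτ => hEs ?_
  have hτ' : τ (α : Ω) = α := hτ
  show (τ.restrictScalars F) ∈ E.fixingSubgroup
  rw [IntermediateField.mem_fixingSubgroup_iff]
  intro x hx
  -- the two embeddings of `E` agree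
  have key : ((τ.restrictScalars F).toAlgHom.comp E.val) = E.val := by
    refine AlgHom.ext fun y => ?_
    have hy : y ∈ (⊤ : IntermediateField F E) := trivial
    rw [← hα] at hy
    refine IntermediateField.adjoin_induction F
      (p := fun y _ => ((τ.restrictScalars F).toAlgHom.comp E.val) y = E.val y) ?_ ?_ ?_ ?_ ?_ hy
    · intro y hy
      rw [Set.mem_singleton_iff] at hy
      subst hy
      exact hτ'
    · intro y
      rw [AlgHom.commutes, AlgHom.commutes]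
    · intro x y _ _ hx hy
      rw [map_add, map_add, hx, hy]
    · intro x _ hx
      rw [map_inv₀, map_inv₀, hx]
    · intro x y _ _ hx hy
      rw [map_mul, map_mul, hx, hy]
  exact DFunLike.congr_fun key ⟨x, hx⟩

end cont

section cob

variable {K F Ω : Type u} [Field K] [Field F] [Field Ω] [Algebra K F] [Algebra F Ω] [Algebra K Ω]
  [IsScalarTower K F Ω] [IsSepClosed Ω] {W : WeierstrassCurve K} {a b c : Ω}
  (hC : IsC (W.baseChange Ω).toAffine a b c)

include hC

omit [IsSepClosed Ω] in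
/-- Every root can be put in the first position. -/
theorem IsC.at_root {e : Ω} (he : e = a ∨ e = b ∨ e = c) :
    ∃ e' e'', IsC (W.baseChange Ω).toAffine e e' e'' := by
  rcases he with rfl | rfl | rfl
  · exact ⟨b, c, hC⟩
  · exact ⟨c, a, hC.rot⟩
  · exact ⟨a, b, hC.rot.rot⟩

omit [IsSepClosed Ω] in
theorem IsC.act_root (φ : Ω →ₐ[K] Ω) {e : Ω} (he : e = a ∨ e = b ∨ e = c) :
    φ e = a ∨ φ e = b ∨ φ e = c := by
  apply hC.root
  rw [cub_map]
  rcases he with rfl | rfl | rfl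
  · rw [hC.root_a, map_zero]
  · rw [hC.root_b, map_zero]
  · rw [hC.root_c, map_zero]

/-- A cocycle with values in the points of order two is determined by its sign at the root `a`
on the stabilizer of `a`. -/
theorem cob1 (htr : ∀ e : Ω, (e = a ∨ e = b ∨ e = c) → ∃ ρ : Ω ≃ₐ[F] Ω, ρ a = e)
    {f : (Ω ≃ₐ[F] Ω) → Pt W Ω} (hmul : ∀ σ τ, f (σ * τ) = f σ + act W (rs K σ) (f τ))
    (hf2 : ∀ σ, f σ + f σ = 0) (hs : ∀ σ : Ω ≃ₐ[F] Ω, σ a = a → sC a (f σ) = 1) :
    ∃ R : Pt W Ω, R + R = 0 ∧ ∀ σ, f σ = act W (rs K σ) R - R := by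
  have add : ∀ {e : Ω}, (e = a ∨ e = b ∨ e = c) → ∀ {S T : Pt W Ω}, S + S = 0 → T + T = 0 →
      sC e (S + T) = sC e S * sC e T := by
    intro e he S T hS hT
    obtain ⟨e', e'', hC'⟩ := hC.at_root he
    exact sC_add hC' hS hT
  have tw : ∀ (σ : Ω ≃ₐ[F] Ω) {T : Pt W Ω}, T + T = 0 →
      act W (rs K σ) T + act W (rs K σ) T = 0 := fun σ T hT => (two_act W _ _).2 hT
  have sga : ∀ (σ : Ω ≃ₐ[F] Ω) (e : Ω) (P : Pt W Ω), sC (σ e) (act W (rs K σ) P) = sC e P :=
    fun σ e P => sC_act' W (rs K σ) e P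
  -- independence of the choice
  have indep : ∀ ρ ρ' : Ω ≃ₐ[F] Ω, ρ a = ρ' a → sC (ρ a) (f ρ) = sC (ρ a) (f ρ') := by
    intro ρ ρ' h
    have he := hC.act_root (rs K ρ) (e := a) (Or.inl rfl)
    have he' : ρ a = a ∨ ρ a = b ∨ ρ a = c := he
    have h1 : ρ' = ρ * (ρ⁻¹ * ρ') := by group
    have h3 : (ρ⁻¹ * ρ') a = a := by
      rw [AlgEquiv.mul_apply, ← h, ← AlgEquiv.mul_apply, inv_mul_cancel]
      rfl
    rw [h1, hmul, add he' (hf2 _) (tw _ (hf2 _)), sga, hs _ h3, mul_one]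
  choose ρ hρ using htr
  set φ : Ω → Ω := fun e => if h : (e = a ∨ e = b ∨ e = c) then sC e (f (ρ e h)) else 1 with hφ
  have hφρ : ∀ (σ : Ω ≃ₐ[F] Ω), φ (σ a) = sC (σ a) (f σ) := by
    intro σ
    have he : σ a = a ∨ σ a = b ∨ σ a = c := hC.act_root (rs K σ) (e := a) (Or.inl rfl)
    rw [hφ]
    simp only [dif_pos he]
    have h1 : ρ (σ a) he a = σ a := hρ _ he
    have := indep (ρ (σ a) he) σ h1
    rw [h1] at this
    exact this
  have hφsq : ∀ e, φ e = 1 ∨ φ e = -1 := by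
    intro e
    rw [hφ]
    dsimp only
    split_ifs
    · exact sC_sq _
    · exact Or.inl rfl
  have hφmul : ∀ (σ : Ω ≃ₐ[F] Ω) (e : Ω), (e = a ∨ e = b ∨ e = c) →
      φ (σ e) = sC (σ e) (f σ) * φ e := by
    intro σ e he
    have h1 := hφρ (σ * ρ e he)
    have h3 : (σ * ρ e he) a = σ e := by rw [AlgEquiv.mul_apply, hρ]
    have hσe : σ e = a ∨ σ e = b ∨ σ e = c := hC.act_root (rs K σ) he
    rw [h3] at h1
    rw [h1, hmul, add hσe (hf2 _) (tw _ (hf2 _)), sga]
    congr 1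
    have h5 := hφρ (ρ e he)
    rw [hρ] at h5
    exact h5.symm
  have hsq1 : ∀ e, φ e * φ e = 1 := fun e => by rcases hφsq e with h | h <;> rw [h] <;> ring
  set π := φ a * φ b * φ c with hπ
  have hπsq : π * π = 1 := by
    rw [hπ]
    linear_combination (φ b * φ c) ^ 2 * hsq1 a + (φ c) ^ 2 * hsq1 b + hsq1 c
  have hπ1 : π = 1 ∨ π = -1 := by
    rw [hπ]
    rcases hφsq a with h1 | h1 <;> rcases hφsq b with h3 | h3 <;> rcases hφsq c with h4 | h4 <;>
      rw [h1, h3, h4] <;> norm_num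
  have hpm : ∀ e, φ e * π = 1 ∨ φ e * π = -1 := by
    intro e
    rcases hφsq e with h1 | h1 <;> rcases hπ1 with h3 | h3 <;> rw [h1, h3] <;> norm_num
  obtain ⟨R, hR, ra, rb, rc⟩ := exists_tor hC (hpm a) (hpm b) (hpm c) (by
    have h1 : φ a * φ b * φ c = π := hπ.symm
    linear_combination π ^ 3 * h1 + (π * π + 1) * hπsq)
  have hRe : ∀ e, (e = a ∨ e = b ∨ e = c) → sC e R = φ e * π := by
    rintro e (rfl | rfl | rfl)
    · exact ra
    · exact rb
    · exact rc
  refine ⟨R, hR, fun σ => ?_⟩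
  have hneg : -R = R := neg_eq_of_add_eq_zero_left hR
  have hd : act W (rs K σ) R - R = act W (rs K σ) R + R := by rw [sub_eq_add_neg, hneg]
  have hall : ∀ e, (e = a ∨ e = b ∨ e = c) → sC e (f σ) = sC e (act W (rs K σ) R - R) := by
    intro e he
    obtain ⟨e0, he0, rfl⟩ : ∃ e0, (e0 = a ∨ e0 = b ∨ e0 = c) ∧ σ e0 = e := by
      refine ⟨σ⁻¹ e, hC.act_root (rs K σ⁻¹) he, ?_⟩
      rw [← AlgEquiv.mul_apply, mul_inv_cancel]
      rfl
    rw [hd, add he (tw σ hR) hR, sga, hRe _ he0, hRe _ he, hφmul σ e0 he0]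
    linear_combination (-(sC (σ e0) (f σ))) * (φ e0 * φ e0) * hπsq - (sC (σ e0) (f σ)) * hsq1 e0
  refine sC_ext hC (hf2 σ) ?_ (hall a (Or.inl rfl)) (hall b (Or.inr (Or.inl rfl)))
  rw [hd, add_add_add_comm, tw σ hR, hR, add_zero]

end cob

end Pool.Agent.TH115.GD
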