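import Pool.Agent.TH115.SD.Hensel

/-!
The map between the completions of two fields at compatible places.
-/

set_option autoImplicit false
set_option linter.all false

open IsDedekindDomain WithZero Filter Topology MonoidWithZeroHom

namespace Pool.Agent.TH115.GD

section compl

variable {A F B M : Type*} [CommRing A] [IsDedekindDomain A] [Field F] [Algebra A F]
  [IsFractionRing A F] [CommRing B] [IsDedekindDomain B] [Field M] [Algebra B M]
  [IsFractionRing B M] (v : HeightOneSpectrum A) (w : HeightOneSpectrum B) (f : F →+* M)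
  (h1 : ∀ x, v.valuation F x ≤ 1 → w.valuation M (f x) ≤ 1)
  (h2 : ∀ x, v.valuation F x < 1 → w.valuation M (f x) < 1)

include h1 h2 in
theorem exp_bound {π : F} (hπ : v.valuation F π = exp (-1 : ℤ)) (n : ℕ) (x : F)
    (hx : v.valuation F x < v.valuation F (π ^ n)) :
    w.valuation M (f x) ≤ exp (-(n : ℤ)) := by
  have hπ0 : π ≠ 0 := by
    rintro rfl
    rw [map_zero] at hπ
    exact exp_ne_zero hπ.symm
  have e : x = π ^ n * (x / π ^ n) := by
    field_simp
  have h3 : v.valuation F (x / π ^ n) ≤ 1 := by
    rw [map_div₀]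
    have hp : v.valuation F (π ^ n) ≠ 0 := (Valuation.ne_zero_iff _).2 (pow_ne_zero n hπ0)
    exact (div_le_one₀ (zero_lt_iff.2 hp)).2 hx.le
  have h4 : w.valuation M (f π) ≤ exp (-1 : ℤ) := by
    have h5 := h2 π (by rw [hπ, ← exp_zero, exp_lt_exp]; norm_num)
    by_cases h0 : w.valuation M (f π) = 0
    · rw [h0]; exact zero_le
    · have h6 : exp (log (w.valuation M (f π))) = w.valuation M (f π) := exp_log h0
      rw [← h6, ← exp_zero, exp_lt_exp] at h5
      rw [← h6, exp_le_exp]
      omega
  rw [e, map_mul f, map_mul, map_pow f, map_pow]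
  calc w.valuation M (f π) ^ n * w.valuation M (f (x / π ^ n))
      ≤ exp (-1 : ℤ) ^ n * 1 := mul_le_mul' (pow_le_pow_left₀ zero_le h4 n) (h1 _ h3)
    _ = exp (-(n : ℤ)) := by
      rw [mul_one, ← exp_nsmul]
      congr 1
      simp

/-- The field with the topology of the valuation. -/
noncomputable def wf : WithVal (v.valuation F) →+* w.adicCompletion M :=
  ((algebraMap M (w.adicCompletion M)).comp f).comp (WithVal.equiv (v.valuation F)).toRingHom

include h1 h2 in
theorem wf_cont : Continuous (wf v w f) := by
  have key : ContinuousAt (wf v w f).toAddMonoidHom 0 := by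
    show Tendsto (wf v w f) (𝓝 0) (𝓝 (wf v w f 0))
    rw [map_zero]
    intro s hs
    obtain ⟨γ, hγ⟩ := Valued.mem_nhds_zero.1 hs
    have hg : ValueGroup₀.embedding γ.1 ≠ 0 := by
      rw [Ne, map_eq_zero]
      exact γ.ne_zero
    obtain ⟨n, hn, -⟩ := exists_exp_neg_natCast_lt_and_lt hg hg
    obtain ⟨π, hπ⟩ := v.valuation_exists_uniformizer F
    have hπ0 : π ≠ 0 := by
      rintro rfl
      rw [map_zero] at hπ
      exact exp_ne_zero hπ.symm
    have hne : (Valued.v (R := WithVal (v.valuation F))).restrict
        (WithVal.toVal (v.valuation F) (π ^ n)) ≠ 0 := by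
      rw [Valuation.ne_zero_iff]
      intro h
      exact pow_ne_zero n hπ0 ((WithVal.toVal_eq_zero _ _).1 h)
    rw [Filter.mem_map, Valued.mem_nhds_zero]
    refine ⟨Units.mk0 _ hne, fun x hx => hγ ?_⟩
    have hx' : Valued.v x < Valued.v (WithVal.toVal (v.valuation F) (π ^ n)) :=
      (Valuation.restrict_lt_iff _).1 hx
    show (Valued.v (R := w.adicCompletion M)).restrict (wf v w f x) < γ
    rw [Valuation.restrict_lt_iff_lt_embedding]
    refine lt_of_le_of_lt ?_ hn
    have e : Valued.v (wf v w f x) = w.valuation M (f x.ofVal) :=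
      HeightOneSpectrum.valuedAdicCompletion_eq_valuation' w (f x.ofVal)
    rw [e]
    exact exp_bound v w f h1 h2 hπ n _ hx'
  exact continuous_of_continuousAt_zero (wf v w f).toAddMonoidHom key

include h1 h2 in
/-- The map of the completions. -/
theorem exists_compl_map : ∃ j : v.adicCompletion F →+* w.adicCompletion M,
    (∀ x : F, j (algebraMap F (v.adicCompletion F) x) = algebraMap M (w.adicCompletion M) (f x)) ∧
    (∀ y, Valued.v y ≤ 1 → Valued.v (j y) ≤ 1) ∧ (∀ y, Valued.v y < 1 → Valued.v (j y) < 1) := by
  have hc := wf_cont v w f h1 h2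
  set j0 := UniformSpace.Completion.extensionHom (wf v w f) hc with hj0
  set j : v.adicCompletion F →+* w.adicCompletion M :=
    j0.comp (HeightOneSpectrum.adicCompletion.equiv F v).toRingHom with hj
  have hjc : Continuous j :=
    (UniformSpace.Completion.continuous_extension (f := wf v w f)).comp
      (HeightOneSpectrum.adicCompletion.continuous_toCompletion F v)
  have hjx : ∀ x : F, j (algebraMap F (v.adicCompletion F) x) =
      algebraMap M (w.adicCompletion M) (f x) := by
    intro x
    exact UniformSpace.Completion.extensionHom_coe (wf v w f) hc (WithVal.toVal _ x)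
  have near : ∀ y : v.adicCompletion F, ∃ x : F,
      Valued.v (y - algebraMap F (v.adicCompletion F) x) < 1 ∧
      Valued.v (j (y - algebraMap F (v.adicCompletion F) x)) < 1 := by
    intro y
    have hU1 : {z : v.adicCompletion F | Valued.v z < 1} ∈ 𝓝 (0 : v.adicCompletion F) := by
      rw [Valued.mem_nhds_zero]
      exact ⟨1, fun z hz => by
        have := (Valuation.restrict_lt_iff_lt_embedding _).1 hz
        simpa using this⟩
    have hU2 : {z : v.adicCompletion F | Valued.v (j z) < 1} ∈ 𝓝 (0 : v.adicCompletion F) := by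
      have h3 : {z : w.adicCompletion M | Valued.v z < 1} ∈ 𝓝 (0 : w.adicCompletion M) := by
        rw [Valued.mem_nhds_zero]
        exact ⟨1, fun z hz => by
          have := (Valuation.restrict_lt_iff_lt_embedding _).1 hz
          simpa using this⟩
      have h4 : Tendsto j (𝓝 0) (𝓝 0) := by
        have := hjc.tendsto 0
        rwa [map_zero] at this
      exact h4 h3
    have hU := Filter.inter_mem hU1 hU2
    have ht : Tendsto (fun z : v.adicCompletion F => y - z) (𝓝 y) (𝓝 0) := by
      have h5 : Tendsto (fun z : v.adicCompletion F => y - z) (𝓝 y) (𝓝 (y - y)) :=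
        tendsto_const_nhds.sub tendsto_id
      rwa [sub_self] at h5
    obtain ⟨z, hz, x, rfl⟩ := mem_closure_iff_nhds.1
      (HeightOneSpectrum.denseRange_algebraMap F v y) _ (ht hU)
    exact ⟨x, hz.1, hz.2⟩
  have vx : ∀ x : F, Valued.v (algebraMap F (v.adicCompletion F) x) = v.valuation F x :=
    fun x => HeightOneSpectrum.valuedAdicCompletion_eq_valuation' v x
  have wx : ∀ x : M, Valued.v (algebraMap M (w.adicCompletion M) x) = w.valuation M x :=
    fun x => HeightOneSpectrum.valuedAdicCompletion_eq_valuation' w x
  refine ⟨j, hjx, fun y hy => ?_, fun y hy => ?_⟩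
  · obtain ⟨x, hx1, hx2⟩ := near y
    have h3 : v.valuation F x ≤ 1 := by
      rw [← vx]
      have e : algebraMap F (v.adicCompletion F) x =
        y - (y - algebraMap F (v.adicCompletion F) x) := by ring
      rw [e]
      exact (Valuation.map_sub _ _ _).trans (max_le hy hx1.le)
    have e : j y = j (y - algebraMap F (v.adicCompletion F) x) +
        algebraMap M (w.adicCompletion M) (f x) := by
      rw [map_sub, hjx]; ring
    rw [e]
    refine (Valuation.map_add _ _ _).trans (max_le hx2.le ?_)
    rw [wx]
    exact h1 x h3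
  · obtain ⟨x, hx1, hx2⟩ := near y
    have h3 : v.valuation F x < 1 := by
      rw [← vx]
      have e : algebraMap F (v.adicCompletion F) x =
        y - (y - algebraMap F (v.adicCompletion F) x) := by ring
      rw [e]
      exact lt_of_le_of_lt (Valuation.map_sub _ _ _) (max_lt hy hx1)
    have e : j y = j (y - algebraMap F (v.adicCompletion F) x) +
        algebraMap M (w.adicCompletion M) (f x) := by
      rw [map_sub, hjx]; ring
    rw [e]
    refine lt_of_le_of_lt (Valuation.map_add _ _ _) (max_lt hx2 ?_)
    rw [wx]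
    exact h2 x h3

end compl

end Pool.Agent.TH115.GD
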