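import Pool.Agent.TH115.TC.Roots

/-!
The criterion for the Tate conjecture at 2 for `y ^ 2 = f(x, t)` in terms of the curve `f = 0`.
-/

set_option autoImplicit false
set_option linter.all false

open Polynomial IsDedekindDomain WeierstrassCurve WeierstrassCurve.Affine WithZero
open scoped Classical

namespace Pool.Agent.TH115.GD

section polyint

variable {k k' : Type} [Field k] [Field k'] [Algebra k k'] [Algebra.IsIntegral k k']

theorem poly_integral : (mapRingHom (algebraMap k k')).IsIntegral := by
  intro p
  induction p using Polynomial.induction_on' with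
  | add p q hp hq => exact RingHom.IsIntegralElem.add _ hp hq
  | monomial n c =>
    rw [← C_mul_X_pow_eq_monomial]
    refine RingHom.IsIntegralElem.mul _ ?_ ?_
    · have h1 : (algebraMap k k').IsIntegralElem c := Algebra.IsIntegral.isIntegral (R := k) c
      have h3 := h1.map (C : k' →+* k'[X])
      have h4 : (C : k' →+* k'[X]).comp (algebraMap k k') =
          (mapRingHom (algebraMap k k')).comp (C : k →+* k[X]) := by
        ext x; simp
      rw [h4] at h3
      exact RingHom.IsIntegralElem.of_comp h3
    · have h1 : (X ^ n : k'[X]) = mapRingHom (algebraMap k k') (X ^ n) := by simp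
      rw [h1]
      exact RingHom.isIntegralElem_map _

end polyint

section critN

variable {k k' K F N : Type} [Field k] [Field k'] [Algebra k k'] [Field K] [Algebra k[X] K]
  [Field F] [Algebra k'[X] F] [IsFractionRing k'[X] F] [Algebra K F]
  [Field N] [Algebra K N] [Algebra k[X] N] [IsScalarTower k[X] K N]
  {R : Type} [CommRing R] [IsDedekindDomain R] [Algebra R N] [IsFractionRing R N]
  [Algebra k[X] R] [IsScalarTower k[X] R N] [Algebra.IsIntegral k[X] R]

/-- The criterion with a fixed embedding of `N` in the separable closure. -/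
theorem critN [Algebra N (Sep F)] [IsScalarTower K N (Sep F)]
    (hT : IsTower k k' K F) (h2 : (2 : k) ≠ 0) {a2 a4 a6 : k[X]}
    (hS : SmoothC a2 a4 a6)
    (hΔ : (crvC (algebraMap k[X] K a2) (algebraMap k[X] K a4) (algebraMap k[X] K a6)).Δ ≠ 0)
    (hnr : ∀ x : F, cub (crvC (algebraMap k[X] K a2) (algebraMap k[X] K a4)
      (algebraMap k[X] K a6)) x ≠ 0) {θ : N}
    (hθ : cub (crvC (algebraMap k[X] K a2) (algebraMap k[X] K a4)
      (algebraMap k[X] K a6)) θ = 0) (hNtop : IntermediateField.adjoin K {θ} = ⊤)
    (hpts : ∀ z : N, z ≠ 0 → (∀ v : HeightOneSpectrum R,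
        IsSquare (v.valuation N z)) →
      ∃ (u : k) (g : N), u ≠ 0 ∧ g ≠ 0 ∧ (z = algebraMap k[X] N (C u) * g ^ 2 ∨
        ∃ x y : K, y ^ 2 = cub (crvC (algebraMap k[X] K a2) (algebraMap k[X] K a4)
          (algebraMap k[X] K a6)) x ∧
          z = algebraMap k[X] N (C u) * g ^ 2 * (algebraMap K N x - θ))) :
    TateAtTwo (F := F) k' (crvC (algebraMap k[X] K a2) (algebraMap k[X] K a4)
      (algebraMap k[X] K a6)) := by
  haveI := hT.sep
  haveI := hT.fracK
  haveI : IsGalois k k' := inferInstance
  have hKF := hT.map
  haveI : IsSepClosure K (Sep F) := sepKΩ hKF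
  haveI : Algebra.IsSeparable K (Sep F) := IsSepClosure.separable
  haveI : IsGalois K (Sep F) := inferInstance
  have h2K : (2 : K) ≠ 0 := tt h2
  set W := crvC (algebraMap k[X] K a2) (algebraMap k[X] K a4) (algebraMap k[X] K a6) with hW
  set a : Sep F := algebraMap N (Sep F) θ with ha
  have hcuba : cub W a = 0 := by
    have h1 := cub_map W (IsScalarTower.toAlgHom K N (Sep F)) θ
    rw [hθ, map_zero] at h1
    exact h1
  obtain ⟨b, c, hC⟩ := exists_isC (W := W) rfl rfl hΔ h2K hcuba
  have hKN : ∀ x : K, algebraMap N (Sep F) (algebraMap K N x) =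
      algebraMap F (Sep F) (algebraMap K F x) := fun x => by
    rw [← IsScalarTower.algebraMap_apply K N (Sep F), ← IsScalarTower.algebraMap_apply K F (Sep F)]
  -- the field `M`
  let S : IntermediateField F (Sep F) := IntermediateField.adjoin F {a}
  haveI : FiniteDimensional F S := IntermediateField.adjoin.finiteDimensional
    (Algebra.IsIntegral.isIntegral (R := F) a)
  haveI : Algebra.IsSeparable F S := inferInstance
  have hmem : ∀ x : N, algebraMap N (Sep F) x ∈ S := by
    intro x
    have hx : x ∈ (⊤ : IntermediateField K N) := trivial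
    rw [← hNtop] at hx
    refine IntermediateField.adjoin_induction K
      (p := fun x _ => algebraMap N (Sep F) x ∈ S) ?_ ?_ ?_ ?_ ?_ hx
    · intro y hy
      rw [Set.mem_singleton_iff] at hy
      subst hy
      exact IntermediateField.mem_adjoin_simple_self F a
    · intro y
      rw [hKN]
      exact S.algebraMap_mem _
    · intro x y _ _ hx hy
      rw [map_add]; exact add_mem hx hy
    · intro x _ hx
      rw [map_inv₀]; exact inv_mem hx
    · intro x y _ _ hx hy
      rw [map_mul]; exact mul_mem hx hy
  let M : Type := S
  letI : Algebra N M := ((algebraMap N (Sep F)).codRestrict S hmem).toAlgebra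
  haveI : IsScalarTower N M (Sep F) := IsScalarTower.of_algebraMap_eq fun x => rfl
  haveI : IsScalarTower K F M := IsScalarTower.of_algebraMap_eq fun x => Subtype.ext
    (IsScalarTower.algebraMap_apply K F (Sep F) x)
  letI : Algebra k N := ((algebraMap k[X] N).comp C).toAlgebra
  letI : Algebra k' M := ((algebraMap F M).comp ((algebraMap k'[X] F).comp C)).toAlgebra
  letI : Algebra k M := ((algebraMap k' M).comp (algebraMap k k')).toAlgebra
  haveI : IsScalarTower k k' M := IsScalarTower.of_algebraMap_eq fun x => rfl
  have hkX : ∀ p : k[X], algebraMap N (Sep F) (algebraMap k[X] N p) =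
      algebraMap F (Sep F) (algebraMap k'[X] F (p.map (algebraMap k k'))) := by
    intro p
    rw [IsScalarTower.algebraMap_apply k[X] K N, hKN, hKF]
  have hkN : ∀ x : k, algebraMap N (Sep F) (algebraMap k N x) =
      algebraMap F (Sep F) (algebraMap k'[X] F (C (algebraMap k k' x))) := by
    intro x
    have := hkX (C x)
    rwa [map_C] at this
  haveI : IsScalarTower k N M := IsScalarTower.of_algebraMap_eq fun x => Subtype.ext (hkN x).symm
  letI : Algebra k'[X] M := ((algebraMap F M).comp (algebraMap k'[X] F)).toAlgebra
  haveI : IsScalarTower k'[X] F M := IsScalarTower.of_algebraMap_eq fun x => rfl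
  -- the ring `R`
  haveI : FiniteDimensional K N := by
    have hint : IsIntegral K θ := by
      have h1 : IsIntegral K a := Algebra.IsIntegral.isIntegral a
      exact (isIntegral_algebraMap_iff (algebraMap N (Sep F)).injective).1 h1
    haveI := IntermediateField.adjoin.finiteDimensional hint
    rw [hNtop] at this
    exact (IntermediateField.topEquiv (F := K) (E := N)).toLinearEquiv.finiteDimensional
  haveI : Algebra.IsSeparable K N := Algebra.isSeparable_tower_bot_of_isSeparable K N (Sep F)
  haveI : IsDedekindDomain (integralClosure k'[X] M) := integralClosure.isDedekindDomain k'[X] F M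
  haveI : IsFractionRing (integralClosure k'[X] M) M :=
    integralClosure.isFractionRing_of_finite_extension F M
  letI : Algebra R M := ((algebraMap N M).comp (algebraMap R N)).toAlgebra
  haveI : IsScalarTower R N M := IsScalarTower.of_algebraMap_eq fun x => rfl
  have hRB : ∀ r : R, algebraMap N M (algebraMap R N r) ∈ integralClosure k'[X] M := by
    intro r
    have h1 : IsIntegral k[X] (algebraMap R N r) :=
      (Algebra.IsIntegral.isIntegral (R := k[X]) r).algebraMap
    exact IsIntegral.map_of_comp_eq (mapRingHom (algebraMap k k')) (algebraMap N M) (by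
      ext p
      · exact (hkX (C p)).symm
      · exact (hkX X).symm) h1
  letI : Algebra R (integralClosure k'[X] M) :=
    (((algebraMap N M).comp (algebraMap R N)).codRestrict
      (integralClosure k'[X] M) hRB).toAlgebra
  haveI : IsScalarTower R (integralClosure k'[X] M) M :=
    IsScalarTower.of_algebraMap_eq fun x => rfl
  letI : Algebra k' (integralClosure k'[X] M) :=
    ((algebraMap k'[X] (integralClosure k'[X] M)).comp C).toAlgebra
  haveI : IsScalarTower k' (integralClosure k'[X] M) M :=
    IsScalarTower.of_algebraMap_eq fun x => rfl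
  haveI : Algebra.IsIntegral R (integralClosure k'[X] M) := by
    have h1 : (mapRingHom (algebraMap k k')).IsIntegral := poly_integral
    have h3 : (algebraMap k'[X] (integralClosure k'[X] M)).IsIntegral := fun x =>
      Algebra.IsIntegral.isIntegral (R := k'[X]) x
    have h4 := RingHom.IsIntegral.trans _ _ h1 h3
    have h5 : (algebraMap k'[X] (integralClosure k'[X] M)).comp (mapRingHom (algebraMap k k')) =
        (algebraMap R (integralClosure k'[X] M)).comp
          (algebraMap k[X] R) := by
      apply RingHom.ext
      intro p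
      apply Subtype.ext
      apply Subtype.ext
      show algebraMap F (Sep F) (algebraMap k'[X] F (p.map (algebraMap k k'))) =
        algebraMap N (Sep F) (algebraMap R N (algebraMap k[X] R p))
      rw [← IsScalarTower.algebraMap_apply k[X] R N]
      exact (hkX p).symm
    rw [h5] at h4
    exact ⟨RingHom.IsIntegral.tower_top _ _ h4⟩
  haveI : Module.IsTorsionFree R (integralClosure k'[X] M) := by
    rw [Module.isTorsionFree_iff_algebraMap_injective]
    intro x y h
    have h1 := congrArg (algebraMap (integralClosure k'[X] M) M) h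
    rw [← IsScalarTower.algebraMap_apply R (integralClosure k'[X] M) M,
      ← IsScalarTower.algebraMap_apply R (integralClosure k'[X] M) M] at h1
    exact IsFractionRing.injective R N ((algebraMap N M).injective h1)
  haveI : Module.IsTorsionFree k'[X] (integralClosure k'[X] M) := by
    rw [Module.isTorsionFree_iff_algebraMap_injective]
    intro x y h
    have h1 := congrArg (algebraMap (integralClosure k'[X] M) M) h
    apply IsFractionRing.injective k'[X] F
    exact (algebraMap F M).injective h1
  -- `M` is generated by the constants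
  have htop : IntermediateField.adjoin N (Set.range (algebraMap k' M)) = ⊤ := by
    set T : IntermediateField N M := IntermediateField.adjoin N (Set.range (algebraMap k' M)) with hT'
    have hpoly : ∀ p : k'[X], algebraMap F M (algebraMap k'[X] F p) ∈ T := by
      intro p
      induction p using Polynomial.induction_on' with
      | add p q hp hq => rw [map_add, map_add]; exact add_mem hp hq
      | monomial n c =>
        rw [← C_mul_X_pow_eq_monomial, map_mul, map_mul, map_pow, map_pow]
        refine mul_mem (IntermediateField.subset_adjoin N _ ⟨c, rfl⟩) (pow_mem ?_ n)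
        have h1 : algebraMap F M (algebraMap k'[X] F X) = algebraMap N M (algebraMap k[X] N X) := by
          apply Subtype.ext
          have := hkX X
          rw [map_X] at this
          exact this.symm
        rw [h1]
        exact T.algebraMap_mem _
    have hF : ∀ x : F, algebraMap F M x ∈ T := by
      intro x
      obtain ⟨n, d, hd, rfl⟩ := IsFractionRing.div_surjective (A := k'[X]) x
      rw [map_div₀]
      exact div_mem (hpoly n) (hpoly d)
    rw [eq_top_iff]
    rintro ⟨x, hx⟩ -
    refine IntermediateField.adjoin_induction F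
      (p := fun x hx => (⟨x, hx⟩ : M) ∈ T) ?_ ?_ ?_ ?_ ?_ hx
    · intro y hy
      rw [Set.mem_singleton_iff] at hy
      subst hy
      exact T.algebraMap_mem θ
    · intro y
      exact hF y
    · intro x y _ _ hx hy
      exact add_mem hx hy
    · intro x _ hx
      exact inv_mem hx
    · intro x y _ _ hx hy
      exact mul_mem hx hy
  exact critM (M := M) (R := R) (integralClosure k'[X] M) hT h2 hS hΔ hnr hC rfl hNtop htop
    hkN hpts

end critN

section main

variable {k k' K F N : Type} [Field k] [Field k'] [Algebra k k'] [Field K] [Algebra k[X] K]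
  [Field F] [Algebra k'[X] F] [IsFractionRing k'[X] F] [Algebra K F]
  [Field N] [Algebra K N] [Algebra k[X] N] [IsScalarTower k[X] K N]

/-- The cubic field is separable. -/
theorem sepN {W : WeierstrassCurve K} (h1 : W.a₁ = 0) (h3 : W.a₃ = 0) (hΔ : W.Δ ≠ 0) {θ : N}
    (hθ : cub W θ = 0) (hNtop : IntermediateField.adjoin K {θ} = ⊤) :
    FiniteDimensional K N ∧ Algebra.IsSeparable K N := by
  have hr : aeval θ (cubP W K) = 0 := by
    have : aeval θ (cubP W K) = cub W θ := by simp [cubP, cub]
    rw [this, hθ]
  have hint : IsIntegral K θ := ⟨cubP W K, cubP_deg.2, hr⟩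
  have hs : IsSeparable K θ := (cubP_sep h1 h3 hΔ).of_dvd (minpoly.dvd K θ hr)
  have f1 := IntermediateField.adjoin.finiteDimensional hint
  have f3 : Algebra.IsSeparable K (IntermediateField.adjoin K {θ}) :=
    (IntermediateField.isSeparable_adjoin_simple_iff_isSeparable K N).2 hs
  rw [hNtop] at f1 f3
  let e := IntermediateField.topEquiv (F := K) (E := N)
  refine ⟨e.toLinearEquiv.finiteDimensional, ?_⟩
  exact Algebra.IsSeparable.of_algHom K (⊤ : IntermediateField K N) e.symm.toAlgHom

/-- **The criterion**. -/
theorem mainC {R : Type} [CommRing R] [IsDedekindDomain R] [Algebra R N] [IsFractionRing R N]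
    [Algebra k[X] R] [IsScalarTower k[X] R N] [Algebra.IsIntegral k[X] R]
    (hT : IsTower k k' K F) (h2 : (2 : k) ≠ 0) {a2 a4 a6 : k[X]}
    (hS : SmoothC a2 a4 a6)
    (hΔ : (crvC (algebraMap k[X] K a2) (algebraMap k[X] K a4) (algebraMap k[X] K a6)).Δ ≠ 0)
    (hnr : ∀ x : F, cub (crvC (algebraMap k[X] K a2) (algebraMap k[X] K a4)
      (algebraMap k[X] K a6)) x ≠ 0) {θ : N}
    (hθ : cub (crvC (algebraMap k[X] K a2) (algebraMap k[X] K a4)
      (algebraMap k[X] K a6)) θ = 0) (hNtop : IntermediateField.adjoin K {θ} = ⊤)
    (hpts : ∀ z : N, z ≠ 0 → (∀ v : HeightOneSpectrum R, IsSquare (v.valuation N z)) →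
      ∃ (u : k) (g : N), u ≠ 0 ∧ g ≠ 0 ∧ (z = algebraMap k[X] N (C u) * g ^ 2 ∨
        ∃ x y : K, y ^ 2 = cub (crvC (algebraMap k[X] K a2) (algebraMap k[X] K a4)
          (algebraMap k[X] K a6)) x ∧
          z = algebraMap k[X] N (C u) * g ^ 2 * (algebraMap K N x - θ))) :
    TateAtTwo (F := F) k' (crvC (algebraMap k[X] K a2) (algebraMap k[X] K a4)
      (algebraMap k[X] K a6)) := by
  haveI := hT.sep
  haveI := hT.fracK
  haveI : IsSepClosure K (Sep F) := sepKΩ hT.map
  obtain ⟨-, hsep⟩ := sepN (N := N) rfl rfl hΔ hθ hNtop
  let i : N →ₐ[K] Sep F := IsSepClosed.lift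
  letI : Algebra N (Sep F) := i.toRingHom.toAlgebra
  haveI : IsScalarTower K N (Sep F) := IsScalarTower.of_algebraMap_eq fun x => (i.commutes x).symm
  exact critN (R := R) hT h2 hS hΔ hnr hθ hNtop hpts

end main

end Pool.Agent.TH115.GD
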