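import Pool.Agent.TH115.TC.EvenCl

/-!
The valuations of the relative norm.
-/

set_option autoImplicit false
set_option linter.all false

open IsDedekindDomain WithZero
open scoped Classical

namespace Pool.Agent.TH115.GD

section cnt

variable {A : Type} [CommRing A] [IsDedekindDomain A]

/-- The multiplicity of the prime `v` in the ideal `I`. -/
noncomputable def cnt (v : HeightOneSpectrum A) (I : Ideal A) : ℕ :=
  (Associates.mk v.asIdeal).count (Associates.mk I).factors

theorem cnt_mul (v : HeightOneSpectrum A) {I J : Ideal A} (hI : I ≠ ⊥) (hJ : J ≠ ⊥) :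
    cnt v (I * J) = cnt v I + cnt v J := by
  unfold cnt
  rw [← Associates.mk_mul_mk, Associates.count_mul (Associates.mk_ne_zero.2 hI)
    (Associates.mk_ne_zero.2 hJ) v.associates_irreducible]

theorem cnt_top (v : HeightOneSpectrum A) : cnt v (⊤ : Ideal A) = 0 := by
  have h := cnt_mul v (I := ⊤) (J := ⊤) top_ne_bot top_ne_bot
  rw [Ideal.mul_top] at h
  omega

theorem cnt_pow (v : HeightOneSpectrum A) {I : Ideal A} (hI : I ≠ ⊥) (n : ℕ) :
    cnt v (I ^ n) = n * cnt v I := by
  induction n with
  | zero => rw [pow_zero, Ideal.one_eq_top, cnt_top, zero_mul]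
  | succ n ih =>
    rw [pow_succ, cnt_mul v (pow_ne_zero n hI) hI, ih]
    ring

theorem cnt_self (v : HeightOneSpectrum A) : cnt v v.asIdeal = 1 := by
  unfold cnt
  exact Associates.count_self v.associates_irreducible

theorem cnt_ne {v w : HeightOneSpectrum A} (h : v ≠ w) : cnt v w.asIdeal = 0 := by
  unfold cnt
  apply Associates.count_eq_zero_of_ne v.associates_irreducible w.associates_irreducible
  intro h1
  rw [Associates.mk_eq_mk_iff_associated, associated_iff_eq] at h1
  exact h (HeightOneSpectrum.ext h1)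

theorem intVal_sq (v : HeightOneSpectrum A) {r : A} (hr : r ≠ 0) :
    IsSquare (v.intValuation r) ↔ Even (cnt v (Ideal.span {r})) := by
  rw [v.intValuation_if_neg hr]
  unfold cnt
  rw [isSquare_exp, even_neg, Int.even_coe_nat]

end cnt

section norm

variable {A R : Type} [CommRing A] [IsDedekindDomain A] [CommRing R] [IsDedekindDomain R]
  [Algebra A R] [Module.Finite A R] [Module.IsTorsionFree A R]

/-- The degree of the prime `P`. -/
noncomputable def dg (A : Type) [CommRing A] [IsDedekindDomain A] [Algebra A R]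
    [Module.Finite A R] [Module.IsTorsionFree A R] (P : HeightOneSpectrum R) : ℕ :=
  cnt (P.under A) (Ideal.relNorm A P.asIdeal)

theorem relNorm_ne {I : Ideal R} (hI : I ≠ ⊥) : Ideal.relNorm A I ≠ ⊥ := by
  rw [Ne, Ideal.relNorm_eq_bot_iff]
  exact hI

theorem cnt_relNorm_prime (v : HeightOneSpectrum A) (P : HeightOneSpectrum R) :
    cnt v (Ideal.relNorm A P.asIdeal) = if P.under A = v then dg A P else 0 := by
  split_ifs with h
  · rw [← h]; rfl
  · haveI : P.asIdeal.LiesOver (P.under A).asIdeal := ⟨rfl⟩
    haveI := (P.under A).isPrime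
    obtain ⟨s, hs⟩ := Ideal.exists_relNorm_eq_pow_of_isPrime P.asIdeal (P.under A).asIdeal
    rw [hs, cnt_pow v (P.under A).ne_bot, cnt_ne (fun h' => h h'.symm), mul_zero]

theorem cnt_relNorm (v : HeightOneSpectrum A) {T : Finset (HeightOneSpectrum R)}
    (hT : ∀ P : HeightOneSpectrum R, P ∈ T ↔ P.under A = v) (I : Ideal R) (hI : I ≠ ⊥) :
    cnt v (Ideal.relNorm A I) = ∑ P ∈ T, dg A P * cnt P I := by
  revert hI
  refine UniqueFactorizationMonoid.induction_on_prime I ?_ ?_ ?_
  · intro h; exact absurd rfl h
  · intro J hJ _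
    rw [Ideal.isUnit_iff] at hJ
    rw [hJ, Ideal.relNorm_top, cnt_top]
    simp only [cnt_top, mul_zero, Finset.sum_const_zero]
  · intro J Q hJ hQ ih _
    have hQ0 : Q ≠ ⊥ := hQ.ne_zero
    let q : HeightOneSpectrum R := ⟨Q, Ideal.isPrime_of_prime hQ, hQ0⟩
    have hJ0 : J ≠ ⊥ := hJ
    have e : ∀ P ∈ T, dg A P * cnt P (Q * J) = (if P = q then dg A P else 0) +
        dg A P * cnt P J := by
      intro P _
      rw [cnt_mul P hQ0 hJ0, mul_add]
      congr 1
      split_ifs with h
      · rw [h]
        show dg A q * cnt q q.asIdeal = _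
        rw [cnt_self, mul_one]
      · show dg A P * cnt P q.asIdeal = _
        rw [cnt_ne h, mul_zero]
    rw [Finset.sum_congr rfl e, Finset.sum_add_distrib, map_mul,
      cnt_mul v (relNorm_ne hQ0) (relNorm_ne hJ0), ih hJ0]
    congr 1
    show cnt v (Ideal.relNorm A q.asIdeal) = _
    rw [cnt_relNorm_prime, Finset.sum_ite_eq']
    simp only [hT]

theorem mapI_ne {v : HeightOneSpectrum A} : v.asIdeal.map (algebraMap A R) ≠ ⊥ := by
  rw [Ne, Ideal.map_eq_bot_iff_of_injective (FaithfulSMul.algebraMap_injective A R)]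
  exact v.ne_bot

theorem under_iff {v : HeightOneSpectrum A} {P : HeightOneSpectrum R} :
    P.under A = v ↔ P.asIdeal ∣ v.asIdeal.map (algebraMap A R) := by
  rw [Ideal.dvd_iff_le, Ideal.map_le_iff_le_comap]
  constructor
  · rintro rfl
    exact le_rfl
  · intro h
    apply HeightOneSpectrum.ext
    exact (v.isMaximal.eq_of_le (P.under A).isPrime.ne_top h).symm

theorem finite_over (v : HeightOneSpectrum A) : {P : HeightOneSpectrum R | P.under A = v}.Finite := by
  refine (Ideal.finite_factors (I := v.asIdeal.map (algebraMap A R)) mapI_ne).subset ?_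
  intro P hP
  exact under_iff.1 hP

/-- There is a prime of odd degree over `v`, if the degree of the extension is odd. -/
theorem exists_oddP (hodd : Odd (Module.finrank A R)) (v : HeightOneSpectrum A) :
    ∃ P : HeightOneSpectrum R, P.under A = v ∧ Odd (dg A P) := by
  have h := cnt_relNorm (A := A) (R := R) v (T := (finite_over v).toFinset) (fun P => by simp)
    (v.asIdeal.map (algebraMap A R)) mapI_ne
  rw [Ideal.relNorm_algebraMap, cnt_pow v v.ne_bot, cnt_self, mul_one] at h
  rw [h] at hodd
  by_contra hcon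
  push Not at hcon
  rw [← Nat.not_even_iff_odd] at hodd
  apply hodd
  refine Finset.even_sum _ fun P hP => ?_
  rw [Set.Finite.mem_toFinset] at hP
  exact (Nat.not_odd_iff_even.1 (hcon P hP)).mul_right _

/-- If the norm has an even valuation, the parity at a prime of odd degree is determined by the
other primes. -/
theorem norm_parity {P0 : HeightOneSpectrum R} (hs : Odd (dg A P0)) {r : R} (hr : r ≠ 0)
    (hn : IsSquare ((P0.under A).intValuation (Algebra.intNorm A R r)))
    (hn0 : Algebra.intNorm A R r ≠ 0)
    (hev : ∀ P : HeightOneSpectrum R, P.under A = P0.under A → P ≠ P0 →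
      IsSquare (P.intValuation r)) : IsSquare (P0.intValuation r) := by
  rw [intVal_sq _ hn0] at hn
  rw [intVal_sq _ hr]
  have hr' : Ideal.span {r} ≠ (⊥ : Ideal R) := by
    rw [Ne, Ideal.span_singleton_eq_bot]
    exact hr
  have h := cnt_relNorm (A := A) (R := R) (P0.under A) (T := (finite_over (P0.under A)).toFinset)
    (fun P => by simp) (Ideal.span {r}) hr'
  rw [Ideal.relNorm_singleton] at h
  rw [h, ← Finset.add_sum_erase _ _ (a := P0) (by simp)] at hn
  have h3 : Even (∑ P ∈ ((finite_over (R := R) (P0.under A)).toFinset).erase P0,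
      dg A P * cnt P (Ideal.span {r})) := by
    refine Finset.even_sum _ fun P hP => ?_
    rw [Finset.mem_erase, Set.Finite.mem_toFinset] at hP
    exact ((intVal_sq P hr).1 (hev P hP.2 hP.1)).mul_left _
  have h5 : Even (dg A P0 * cnt P0 (Ideal.span {r})) := (Nat.even_add.1 hn).2 h3
  rcases Nat.even_mul.1 h5 with h6 | h6
  · exact absurd h6 (Nat.not_even_iff_odd.2 hs)
  · exact h6

end norm

section field

variable {A R K N : Type} [CommRing A] [IsDedekindDomain A] [CommRing R] [IsDedekindDomain R]
  [Algebra A R] [Module.Finite A R] [Module.IsTorsionFree A R]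
  [Field K] [Algebra A K] [IsFractionRing A K] [Field N] [Algebra R N] [IsFractionRing R N]
  [Algebra K N] [Algebra A N] [IsScalarTower A K N] [IsScalarTower A R N]
  [FiniteDimensional K N]

theorem norm_parity' {z : N} (hz : z ≠ 0) (hn : IsSquare (Algebra.norm K z))
    {P0 : HeightOneSpectrum R} (hs : Odd (dg A P0))
    (hev : ∀ P : HeightOneSpectrum R, P.under A = P0.under A → P ≠ P0 →
      IsSquare (P.valuation N z)) : IsSquare (P0.valuation N z) := by
  obtain ⟨r, s, hs0, rfl⟩ := IsFractionRing.div_surjective (A := R) z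
  have hs1 : s ≠ 0 := nonZeroDivisors.ne_zero hs0
  have hsN : algebraMap R N s ≠ 0 := by
    rw [Ne, map_eq_zero_iff _ (IsFractionRing.injective R N)]
    exact hs1
  have hr1 : r ≠ 0 := by
    rintro rfl
    rw [map_zero, zero_div] at hz
    exact hz rfl
  have hrs : r * s ≠ 0 := mul_ne_zero hr1 hs1
  have e : algebraMap R N r / algebraMap R N s * algebraMap R N s ^ 2 =
      algebraMap R N (r * s) := by
    rw [map_mul]
    field_simp
  have hval : ∀ P : HeightOneSpectrum R, IsSquare (P.intValuation (r * s)) ↔
      IsSquare (P.valuation N (algebraMap R N r / algebraMap R N s)) := by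
    intro P
    have h1 : P.valuation N (algebraMap R N (r * s)) = P.intValuation (r * s) :=
      P.valuation_of_algebraMap _
    rw [← h1, ← e, map_mul, map_pow]
    have hv0 : P.valuation N (algebraMap R N s) ≠ 0 := (Valuation.ne_zero_iff _).2 hsN
    constructor
    · rintro ⟨w, hw⟩
      refine ⟨w / P.valuation N (algebraMap R N s), ?_⟩
      rw [div_mul_div_comm, ← hw, pow_two, mul_div_cancel_right₀ _ (mul_ne_zero hv0 hv0)]
    · intro h
      exact h.mul ⟨_, pow_two _⟩
  rw [← hval]
  have hnorm : algebraMap A K (Algebra.intNorm A R (r * s)) =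
      Algebra.norm K (algebraMap R N r / algebraMap R N s) * Algebra.norm K (algebraMap R N s) ^ 2 := by
    rw [Algebra.algebraMap_intNorm (K := K) (L := N), ← e, map_mul, map_pow]
  refine norm_parity (A := A) hs hrs ?_ ?_ fun P hP hP' => (hval P).2 (hev P hP hP')
  · have h1 : (P0.under A).valuation K (algebraMap A K (Algebra.intNorm A R (r * s))) =
        (P0.under A).intValuation (Algebra.intNorm A R (r * s)) :=
      (P0.under A).valuation_of_algebraMap _
    rw [← h1, hnorm, map_mul, map_pow]
    obtain ⟨w, hw⟩ := hn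
    rw [hw, map_mul]
    exact IsSquare.mul ⟨_, rfl⟩ ⟨_, pow_two _⟩
  · intro h0
    have h1 : Algebra.norm K (algebraMap R N (r * s)) ≠ 0 := by
      rw [Ne, Algebra.norm_eq_zero_iff, map_eq_zero_iff _ (IsFractionRing.injective R N)]
      exact hrs
    apply h1
    rw [← Algebra.algebraMap_intNorm (A := A) (K := K) (L := N), h0, map_zero]

end field

end Pool.Agent.TH115.GD
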