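import Pool.Agent.TH115.TC.Smooth

/-!
The valuations of the Kummer generator over the cubic field are even.
-/

set_option autoImplicit false
set_option linter.all false

open Polynomial IsDedekindDomain WeierstrassCurve WeierstrassCurve.Affine WithZero
open scoped Classical

namespace Pool.Agent.TH115.GD

section par

variable {k k' K F M B : Type} [Field k] [Field k'] [Algebra k k'] [Field K] [Algebra k[X] K]
  [Field F] [Algebra k'[X] F] [IsFractionRing k'[X] F] [Algebra K F]
  [Field M] [Algebra F M] [Algebra K M] [IsScalarTower K F M] [Algebra M (Sep F)]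
  [IsScalarTower F M (Sep F)]
  [CommRing B] [IsDedekindDomain B] [Algebra B M] [IsFractionRing B M] [Algebra k'[X] B]
  [Algebra.IsIntegral k'[X] B] [Algebra k'[X] M] [IsScalarTower k'[X] F M]
  [IsScalarTower k'[X] B M] [Module.IsTorsionFree k'[X] B]

theorem isSquare_mul_sq {E : Type} [Field E] (w : Valuation E (WithZero (Multiplicative ℤ)))
    {z g D : E} (e : z = g ^ 2 * D) (h : IsSquare (w D)) : IsSquare (w z) := by
  rw [e, map_mul, map_pow, pow_two]
  exact IsSquare.mul ⟨_, rfl⟩ h

/-- The valuations of the generator are even. -/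
theorem parM (hKF : ∀ p : k[X], algebraMap K F (algebraMap k[X] K p) =
      algebraMap k'[X] F (p.map (algebraMap k k'))) {a2 a4 a6 : k[X]} (hS : SmoothC a2 a4 a6)
    {a b c : Sep F} {θ z : M} (hθ : algebraMap M (Sep F) θ = a)
    (hC : IsC ((crvC (algebraMap k[X] K a2) (algebraMap k[X] K a4)
      (algebraMap k[X] K a6)).baseChange (Sep F)).toAffine a b c)
    {f : (Sep F ≃ₐ[F] Sep F) → Pt (crvC (algebraMap k[X] K a2) (algebraMap k[X] K a4)
      (algebraMap k[X] K a6)) (Sep F)} (hf : IsCoc _ f) (hf2 : ∀ σ, f σ + f σ = 0)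
    (hloc : LocallyTrivial k' _ f) {t : Sep F} (ht : t ≠ 0)
    (hz : t ^ 2 = algebraMap M (Sep F) z) (hk : ∀ σ : Sep F ≃ₐ[F] Sep F, σ a = a →
      σ t = sC a (f σ) * t) (𝔓 : HeightOneSpectrum B) : IsSquare (𝔓.valuation M z) := by
  set W := crvC (algebraMap k[X] K a2) (algebraMap k[X] K a4) (algebraMap k[X] K a6) with hW
  let v : HeightOneSpectrum k'[X] := 𝔓.under k'[X]
  haveI hlo : 𝔓.asIdeal.LiesOver v.asIdeal := ⟨rfl⟩
  have hval : ∀ x : F, v.valuation F x ^ v.asIdeal.ramificationIdx' 𝔓.asIdeal =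
      𝔓.valuation M (algebraMap F M x) := fun x =>
    HeightOneSpectrum.valuation_liesOver (A := k'[X]) M v 𝔓 x
  have he : v.asIdeal.ramificationIdx' 𝔓.asIdeal ≠ 0 :=
    Ideal.IsDedekindDomain.ramificationIdx'_ne_zero_of_liesOver 𝔓.asIdeal v.ne_bot
  obtain ⟨j, hj1, hj2, hj3⟩ := exists_compl_map v 𝔓 (algebraMap F M)
    (fun x hx => by rw [← hval]; exact pow_le_one₀ zero_le hx)
    (fun x hx => by rw [← hval]; exact pow_lt_one₀ zero_le hx he)
  let L := Comp k'[X] F v
  let E := Comp B M 𝔓
  haveI : IsScalarTower K F E := IsScalarTower.of_algebraMap_eq fun x => by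
    show algebraMap M E (algebraMap K M x) = algebraMap M E (algebraMap F M (algebraMap K F x))
    rw [← IsScalarTower.algebraMap_apply K F M]
  let j' : L →+* E := j
  have hj' : ∀ x : F, j' (algebraMap F L x) = algebraMap F E x := fun x => hj1 x
  have hjK : ∀ x : K, j' (algebraMap K L x) = algebraMap K E x := fun x => by
    rw [IsScalarTower.algebraMap_apply K F L, hj', ← IsScalarTower.algebraMap_apply K F E]
  obtain ⟨g, D, hg, hzD, hD⟩ := locC (K := K) (F := F) (Ω := Sep F) (L := L) (Ω' := Sep L) (E := E)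
    (M := M) W (Sep E) hC hθ j' hj' hf hf2 (hloc.1 v) ht hz hk
  let wE : Valuation E (WithZero (Multiplicative ℤ)) :=
    (Valued.v : Valuation (𝔓.adicCompletion M) (WithZero (Multiplicative ℤ)))
  let vL : Valuation L (WithZero (Multiplicative ℤ)) :=
    (Valued.v : Valuation (v.adicCompletion F) (WithZero (Multiplicative ℤ)))
  have wz : ∀ x : M, wE (algebraMap M E x) = 𝔓.valuation M x := fun x =>
    HeightOneSpectrum.valuedAdicCompletion_eq_valuation' 𝔓 x
  have vz : ∀ x : F, vL (algebraMap F L x) = v.valuation F x := fun x =>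
    HeightOneSpectrum.valuedAdicCompletion_eq_valuation' v x
  rw [← wz]
  refine isSquare_mul_sq wE hzD ?_
  rcases hD with rfl | ⟨x, y, hxy, hcase⟩
  · rw [map_one]; exact ⟨1, (mul_one 1).symm⟩
  -- the integrality of `θ`
  have hcubM : cub W θ = 0 := by
    apply (algebraMap M (Sep F)).injective
    rw [map_zero]
    have h1 : cub W (algebraMap M (Sep F) θ) = algebraMap M (Sep F) (cub W θ) := by
      simp only [cub, map_add, map_mul, map_pow]
      have e : ∀ x : K, algebraMap M (Sep F) (algebraMap K M x) = algebraMap K (Sep F) x := by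
        intro x
        rw [IsScalarTower.algebraMap_apply K F M, ← IsScalarTower.algebraMap_apply F M (Sep F),
          ← IsScalarTower.algebraMap_apply K F (Sep F)]
      rw [e, e, e]
    rw [← h1, hθ]
    exact hC.root_a
  have hcubE : cub W (algebraMap M E θ) = 0 := by
    have h1 : cub W (algebraMap M E θ) = algebraMap M E (cub W θ) := by
      simp only [cub, map_add, map_mul, map_pow]
      rfl
    rw [h1, hcubM, map_zero]
  have eKM : ∀ p : k[X], algebraMap K M (algebraMap k[X] K p) =
      algebraMap B M (algebraMap k'[X] B (p.map (algebraMap k k'))) := fun p => by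
    rw [IsScalarTower.algebraMap_apply K F M, hKF, ← IsScalarTower.algebraMap_apply k'[X] F M,
      IsScalarTower.algebraMap_apply k'[X] B M]
  have v1 : ∀ p : k[X], 𝔓.valuation M (algebraMap K M (algebraMap k[X] K p)) ≤ 1 := fun p => by
    rw [eKM]; exact 𝔓.valuation_le_one _
  have hθ1 : wE (algebraMap M E θ) ≤ 1 := by
    rw [wz]
    by_contra h1
    rw [not_le] at h1
    have h0 : 𝔓.valuation M θ ≠ 0 := fun h => by rw [h] at h1; exact absurd h1 (by simp)
    have e : θ ^ 3 = -(algebraMap K M W.a₂ * θ ^ 2 + algebraMap K M W.a₄ * θ +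
        algebraMap K M W.a₆) := by
      have : θ ^ 3 + algebraMap K M W.a₂ * θ ^ 2 + algebraMap K M W.a₄ * θ +
        algebraMap K M W.a₆ = 0 := hcubM
      linear_combination this
    have h3 := congrArg (𝔓.valuation M) e
    rw [Valuation.map_neg, map_pow] at h3
    set s := 𝔓.valuation M θ with hs
    have h4 : 𝔓.valuation M (algebraMap K M W.a₂ * θ ^ 2 + algebraMap K M W.a₄ * θ +
        algebraMap K M W.a₆) ≤ s ^ 2 := by
      refine (Valuation.map_add _ _ _).trans (max_le ((Valuation.map_add _ _ _).trans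
        (max_le ?_ ?_)) ?_)
      · rw [map_mul, map_pow]
        calc _ ≤ 1 * s ^ 2 := mul_le_mul_left (v1 a2) _
          _ = s ^ 2 := one_mul _
      · rw [map_mul]
        calc _ ≤ 1 * s := mul_le_mul_left (v1 a4) _
          _ = s := one_mul _
          _ ≤ s ^ 2 := by rw [pow_two]; exact le_mul_of_one_le_left' h1.le
      · refine (v1 a6).trans ?_
        exact one_le_pow₀ h1.le
    rw [← h3] at h4
    have h5 : s ^ 2 < s ^ 3 := by
      rw [pow_succ s 2]
      exact lt_mul_of_one_lt_right (pow_pos (zero_lt_iff.2 h0) 2) h1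
    exact absurd h4 (not_le.2 h5)
  have vi1 : ∀ p : k[X], vL (algebraMap K L (algebraMap k[X] K p)) ≤ 1 := fun p => by
    rw [IsScalarTower.algebraMap_apply K F L, hKF, vz]
    exact v.valuation_le_one _
  exact parC (K := K) W vL wE j' hjK hj2 hj3 (vi1 a2) (vi1 a4)
    (fun x h1 h3 h4 => hsm_of hKF hS v x vL rfl h1 h3 h4) hcubE hθ1 hxy hcase

end par

end Pool.Agent.TH115.GD
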