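import Pool.Agent.TH115.TC.Unram

/-!
Extensions of constants are unramified: the valuations.
-/

set_option autoImplicit false
set_option linter.all false

open Polynomial IsDedekindDomain WithZero
open scoped Classical

namespace Pool.Agent.TH115.GD

section unram

variable (k : Type*) {k' N M R B : Type*} [Field k] [Field k'] [Algebra k k'] [IsGalois k k']
  [Field N] [Field M] [Algebra k N] [Algebra k' M] [Algebra k M] [IsScalarTower k k' M]
  [Algebra N M] [IsScalarTower k N M]
  [CommRing R] [IsDedekindDomain R] [Algebra R N] [IsFractionRing R N]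
  [CommRing B] [IsDedekindDomain B] [Algebra B M] [IsFractionRing B M]
  [Algebra R B] [Algebra R M] [IsScalarTower R N M] [IsScalarTower R B M]
  [Algebra.IsIntegral R B] [Module.IsTorsionFree R B] [Algebra k' B] [IsScalarTower k' B M]
  (htop : IntermediateField.adjoin N (Set.range (algebraMap k' M)) = ⊤)

include k htop

theorem ram_le_one (w : HeightOneSpectrum B) :
    (w.under R).asIdeal.ramificationIdx' w.asIdeal ≤ 1 := by
  set v := w.under R with hv
  haveI hlo : w.asIdeal.LiesOver v.asIdeal := ⟨rfl⟩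
  haveI : IsIntegralClosure B R M := inferInstance
  haveI : Normal N M := normal_const k htop
  have hval : ∀ x : N, v.valuation N x ^ v.asIdeal.ramificationIdx' w.asIdeal =
      w.valuation M (algebraMap N M x) := fun x =>
    HeightOneSpectrum.valuation_liesOver (A := R) M v w x
  set e := v.asIdeal.ramificationIdx' w.asIdeal with he
  -- the other primes
  have hfin : (Ideal.primesOver v.asIdeal B).Finite :=
    haveI : v.asIdeal.IsMaximal := v.isMaximal
    IsDedekindDomain.primesOver_finite v.asIdeal B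
  have hsel : ∀ 𝔮 : Ideal B, 𝔮 ∈ hfin.toFinset.erase w.asIdeal → ∃ s : B, s ∈ 𝔮 ∧ s ∉ w.asIdeal := by
    intro 𝔮 h𝔮
    rw [Finset.mem_erase, Set.Finite.mem_toFinset] at h𝔮
    obtain ⟨hne, hpr, hlie⟩ := h𝔮
    by_contra hcon
    push Not at hcon
    have hle : 𝔮 ≤ w.asIdeal := fun s hs => hcon s hs
    haveI := hpr
    haveI := hlie
    have h0 : 𝔮 ≠ ⊥ := by
      intro h0
      have h1 : v.asIdeal = 𝔮.under R := hlie.over
      rw [h0, Ideal.under_bot] at h1
      exact v.ne_bot h1
    have hmax : 𝔮.IsMaximal := hpr.isMaximal h0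
    exact hne (hmax.eq_of_le w.isPrime.ne_top hle)
  choose! s hs1 hs2 using hsel
  obtain ⟨π, hπ⟩ := w.intValuation_exists_uniformizer
  set x0 : B := π * ∏ 𝔮 ∈ hfin.toFinset.erase w.asIdeal, s 𝔮 with hx0
  have hx0w : w.intValuation x0 = exp (-1 : ℤ) := by
    have h1 : ∏ 𝔮 ∈ hfin.toFinset.erase w.asIdeal, s 𝔮 ∉ w.asIdeal := by
      haveI := w.isPrime
      rw [Ideal.IsPrime.prod_mem_iff]
      rintro ⟨𝔮, h𝔮, h3⟩
      exact hs2 𝔮 h𝔮 h3
    rw [hx0, map_mul, hπ, (w.intValuation_eq_one_iff).2 h1, mul_one]
  have hx0J : ∀ w' : HeightOneSpectrum B, w'.under R = v → x0 ∈ w'.asIdeal := by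
    intro w' hw'
    by_cases hw : w'.asIdeal = w.asIdeal
    · rw [hw, ← w.intValuation_lt_one_iff_mem, hx0w, ← exp_zero, exp_lt_exp]
      norm_num
    · have hmem : w'.asIdeal ∈ hfin.toFinset.erase w.asIdeal := by
        rw [Finset.mem_erase, Set.Finite.mem_toFinset]
        refine ⟨hw, w'.isPrime, ⟨?_⟩⟩
        rw [← hw']
        rfl
      rw [hx0]
      exact Ideal.mul_mem_left _ _ (Ideal.mem_of_dvd _ (Finset.dvd_prod_of_mem s hmem)
        (hs1 _ hmem))
  -- the submodule
  let I : Submodule k' M :=
    { carrier := {y | ∃ b : B, (∀ w' : HeightOneSpectrum B, w'.under R = v → b ∈ w'.asIdeal) ∧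
        algebraMap B M b = y}
      add_mem' := by
        rintro _ _ ⟨b, hb, rfl⟩ ⟨b', hb', rfl⟩
        exact ⟨b + b', fun w' h => w'.asIdeal.add_mem (hb w' h) (hb' w' h), map_add _ _ _⟩
      zero_mem' := ⟨0, fun w' _ => w'.asIdeal.zero_mem, map_zero _⟩
      smul_mem' := by
        rintro c _ ⟨b, hb, rfl⟩
        refine ⟨algebraMap k' B c * b, fun w' h => w'.asIdeal.mul_mem_left _ (hb w' h), ?_⟩
        rw [map_mul, Algebra.smul_def, ← IsScalarTower.algebraMap_apply k' B M] }
  obtain ⟨β, h, hxh, hI⟩ := desc_elt k htop (algebraMap B M x0)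
  have hstab : ∀ τ : M ≃ₐ[N] M, τ (algebraMap B M x0) ∈ I := by
    intro τ
    refine ⟨galRestrict R N M B τ x0, fun w' hw' => ?_, algebraMap_galRestrict_apply R τ x0⟩
    have hsurj : Function.Surjective (galRestrict R N M B τ : B →+* B) :=
      (galRestrict R N M B τ).surjective
    have h1 := hx0J (HeightOneSpectrum.comap (galRestrict R N M B τ : B →+* B) hsurj w') (by
      rw [← hw']
      apply HeightOneSpectrum.ext
      ext r
      show (galRestrict R N M B τ : B →+* B) (algebraMap R B r) ∈ w'.asIdeal ↔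
        algebraMap R B r ∈ w'.asIdeal
      have h3 : (galRestrict R N M B τ : B →+* B) (algebraMap R B r) = algebraMap R B r :=
        (galRestrict R N M B τ).commutes r
      rw [h3])
    exact h1
  have hco := hI I hstab
  -- the valuations of the coefficients
  have hcw : ∀ i, w.valuation M (algebraMap N M (h.coeff i)) ≤ exp (-(e : ℤ)) := by
    intro i
    obtain ⟨b, hb, hbe⟩ := hco i
    have i1 : IsIntegral R (algebraMap N M (h.coeff i)) := by
      rw [← hbe]
      exact (Algebra.IsIntegral.isIntegral (R := R) b).algebraMap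
    have i3 : IsIntegral R (h.coeff i) :=
      (isIntegral_algebraMap_iff (algebraMap N M).injective).1 i1
    obtain ⟨r, hr⟩ := (IsIntegrallyClosed.isIntegral_iff (K := N)).1 i3
    have hrb : algebraMap R B r = b := by
      apply IsFractionRing.injective B M
      rw [← IsScalarTower.algebraMap_apply R B M, hbe, ← hr, ← IsScalarTower.algebraMap_apply R N M]
    have hrv : r ∈ v.asIdeal := by
      have h1 := hb w rfl
      rw [← hrb] at h1
      exact h1
    have h3 : v.intValuation r ≤ exp (-((1 : ℕ) : ℤ)) := by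
      rw [v.intValuation_le_pow_iff_mem, pow_one]
      exact hrv
    rw [← hval, ← hr, v.valuation_of_algebraMap]
    calc v.intValuation r ^ e ≤ (exp (-((1 : ℕ) : ℤ))) ^ e := pow_le_pow_left₀ zero_le h3 e
      _ = exp (-(e : ℤ)) := by
        rw [← exp_nsmul]
        congr 1
        simp
  have hβ1 : w.valuation M (algebraMap k' M β) ≤ 1 := by
    rw [IsScalarTower.algebraMap_apply k' B M]
    exact w.valuation_le_one _
  have hfinal : w.valuation M (algebraMap B M x0) ≤ exp (-(e : ℤ)) := by
    rw [hxh, aeval_eq_sum_range]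
    refine Valuation.map_sum_le _ fun i _ => ?_
    rw [Algebra.smul_def, map_mul, map_pow]
    calc w.valuation M (algebraMap N M (h.coeff i)) * w.valuation M (algebraMap k' M β) ^ i
        ≤ exp (-(e : ℤ)) * 1 := mul_le_mul' (hcw i) (pow_le_one₀ zero_le hβ1)
      _ = _ := mul_one _
  rw [w.valuation_of_algebraMap, hx0w, exp_le_exp] at hfinal
  omega

/-- The valuation of an element of `N` does not change. -/
theorem val_unram (w : HeightOneSpectrum B) (x : N) :
    w.valuation M (algebraMap N M x) = (w.under R).valuation N x := by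
  haveI hlo : w.asIdeal.LiesOver (w.under R).asIdeal := ⟨rfl⟩
  have h1 := ram_le_one k (R := R) htop w
  have h3 : (w.under R).asIdeal.ramificationIdx' w.asIdeal ≠ 0 :=
    Ideal.IsDedekindDomain.ramificationIdx'_ne_zero_of_liesOver w.asIdeal (w.under R).ne_bot
  have h4 : (w.under R).asIdeal.ramificationIdx' w.asIdeal = 1 := by omega
  rw [← HeightOneSpectrum.valuation_liesOver (A := R) M (w.under R) w x, h4, pow_one]

end unram

section lying

variable {R B : Type*} [CommRing R] [IsDedekindDomain R] [CommRing B] [IsDedekindDomain B]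
  [Algebra R B] [Algebra.IsIntegral R B] [Module.IsTorsionFree R B]

/-- Every prime of `R` lies under a prime of `B`. -/
theorem exists_over (v : HeightOneSpectrum R) : ∃ w : HeightOneSpectrum B, w.under R = v := by
  haveI := v.isPrime
  have hker : RingHom.ker (algebraMap R B) ≤ v.asIdeal := by
    rw [(RingHom.injective_iff_ker_eq_bot _).1 (FaithfulSMul.algebraMap_injective R B)]
    exact bot_le
  obtain ⟨Q, -, hQ, hQv⟩ := Ideal.exists_ideal_over_prime_of_isIntegral v.asIdeal (⊥ : Ideal B)
    (by
      rw [← RingHom.ker_eq_comap_bot]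
      exact hker)
  have hQ0 : Q ≠ ⊥ := by
    rintro rfl
    rw [← RingHom.ker_eq_comap_bot,
      (RingHom.injective_iff_ker_eq_bot _).1 (FaithfulSMul.algebraMap_injective R B)] at hQv
    exact v.ne_bot hQv.symm
  exact ⟨⟨Q, hQ, hQ0⟩, HeightOneSpectrum.ext hQv⟩

end lying

end Pool.Agent.TH115.GD
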