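import Pool.Agent.TH115.TC.KumN
import Pool.Agent.TH115.TC.CritM

/-!
The norm of the Kummer generator is a square.
-/

set_option autoImplicit false
set_option linter.all false

open WeierstrassCurve WeierstrassCurve.Affine Polynomial
open scoped Classical

namespace Pool.Agent.TH115.GD

universe u

section nrm

variable {K N Ω : Type u} [Field K] [Field N] [Field Ω] [Algebra K N] [Algebra N Ω] [Algebra K Ω]
  [IsScalarTower K N Ω] [IsGalois K Ω] [IsSepClosed Ω] {W : WeierstrassCurve K} {a b c : Ω}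
  (hC : IsC (W.baseChange Ω).toAffine a b c)

include hC

omit [Field N] [Algebra K N] [Algebra N Ω] [IsScalarTower K N Ω] in
theorem prod_fixed (htr : ∀ e : Ω, (e = a ∨ e = b ∨ e = c) → ∃ ρ : Ω ≃ₐ[K] Ω, ρ a = e)
    {g : (Ω ≃ₐ[K] Ω) → Pt W Ω} (hmul : ∀ σ τ, g (σ * τ) = g σ + act W (ak σ) (g τ))
    (hg2 : ∀ τ, g τ + g τ = 0) {t : Ω}
    (hk : ∀ τ : Ω ≃ₐ[K] Ω, τ a = a → τ t = sC a (g τ) * t) :
    ∃ (ρ : Ω → (Ω ≃ₐ[K] Ω)) (h : K), (∀ x ∈ ({a, b, c} : Finset Ω), ρ x a = x) ∧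
      algebraMap K Ω h ^ 2 = ∏ x ∈ ({a, b, c} : Finset Ω), ρ x (t ^ 2) := by
  let ρ : Ω → (Ω ≃ₐ[K] Ω) := fun x => if h : ∃ ρ : Ω ≃ₐ[K] Ω, ρ a = x then h.choose else 1
  have hρ : ∀ x ∈ ({a, b, c} : Finset Ω), ρ x a = x := by
    intro x hx
    simp only [Finset.mem_insert, Finset.mem_singleton] at hx
    have h := htr x hx
    have e : ρ x = h.choose := dif_pos h
    rw [e]
    exact h.choose_spec
  have hsgn : ∀ (τ : Ω ≃ₐ[K] Ω) (x : Ω) (P : Pt W Ω), τ (sC x P) = sC x P := by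
    intro τ x P
    rcases sC_sq (a := x) P with h | h <;> rw [h] <;> simp
  have hact : ∀ (τ : Ω ≃ₐ[K] Ω) (x : Ω) (P : Pt W Ω), sC (τ x) (act W (ak τ) P) = sC x P :=
    fun τ x P => sC_act' W (ak τ) x P
  have hCx : ∀ x ∈ ({a, b, c} : Finset Ω), ∀ {S T : Pt W Ω}, S + S = 0 → T + T = 0 →
      sC x (S + T) = sC x S * sC x T := by
    intro x hx S T hS hT
    simp only [Finset.mem_insert, Finset.mem_singleton] at hx
    rcases hx with rfl | rfl | rfl
    · exact sC_add hC hS hT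
    · exact sC_add hC.rot hS hT
    · exact sC_add hC.rot.rot hS hT
  let U : Ω → Ω := fun x => sC x (g (ρ x)) * ρ x t
  have hU : ∀ x ∈ ({a, b, c} : Finset Ω), ∀ τ : Ω ≃ₐ[K] Ω, τ a = x →
      τ t = sC x (g τ) * U x := by
    intro x hx τ hτ
    have hρx := hρ x hx
    set σ := (ρ x)⁻¹ * τ with hσ
    have hσa : σ a = a := by
      rw [hσ, AlgEquiv.mul_apply, hτ]
      apply (ρ x).injective
      rw [hρx]
      exact (ρ x).apply_symm_apply x
    have e : τ = ρ x * σ := by rw [hσ, mul_inv_cancel_left]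
    have h1 := hk σ hσa
    have h3 : g τ = g (ρ x) + act W (ak (ρ x)) (g σ) := by rw [e, hmul]
    have h5 : sC x (act W (ak (ρ x)) (g σ)) = sC a (g σ) := by
      have := hact (ρ x) a (g σ)
      rwa [hρx] at this
    rw [h3, hCx x hx (hg2 _) ((two_act W _ _).2 (hg2 _)), h5]
    have h6 : τ t = sC a (g σ) * ρ x t := by
      rw [e, AlgEquiv.mul_apply, h1, map_mul, hsgn]
    rw [h6]
    show _ = sC x (g (ρ x)) * sC a (g σ) * (sC x (g (ρ x)) * ρ x t)
    have h7 := sC_mul_self (a := x) (g (ρ x))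
    linear_combination -(sC a (g σ) * ρ x t) * h7
  have hperm : ∀ (τ : Ω ≃ₐ[K] Ω), ∀ x ∈ ({a, b, c} : Finset Ω), τ x ∈ ({a, b, c} : Finset Ω) := by
    intro τ x hx
    simp only [Finset.mem_insert, Finset.mem_singleton] at hx ⊢
    exact hC.act_root (ak τ) hx
  have hτU : ∀ (τ : Ω ≃ₐ[K] Ω), ∀ x ∈ ({a, b, c} : Finset Ω),
      τ (U x) = sC (τ x) (g τ) * U (τ x) := by
    intro τ x hx
    have h1 := hU (τ x) (hperm τ x hx) (τ * ρ x) (by rw [AlgEquiv.mul_apply, hρ x hx])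
    rw [AlgEquiv.mul_apply, hmul, hCx _ (hperm τ x hx) (hg2 _) ((two_act W _ _).2 (hg2 _)),
      hact] at h1
    show τ (sC x (g (ρ x)) * ρ x t) = _
    rw [map_mul, hsgn, h1]
    have h7 := sC_mul_self (a := x) (g (ρ x))
    linear_combination (sC (τ x) (g τ) * U (τ x)) * h7
  have hab : a ≠ b := hC.ab
  have hac : a ≠ c := hC.ac
  have hbc : b ≠ c := hC.bc
  have hsum : ∀ f : Ω → Ω, ∏ x ∈ ({a, b, c} : Finset Ω), f x = f a * f b * f c := by
    intro f
    rw [Finset.prod_insert (by simp [hab, hac]), Finset.prod_insert (by simp [hbc]),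
      Finset.prod_singleton, mul_assoc]
  set P : Ω := ∏ x ∈ ({a, b, c} : Finset Ω), U x with hP
  have hfix : ∀ τ : Ω ≃ₐ[K] Ω, τ P = P := by
    intro τ
    rw [hP, map_prod, Finset.prod_congr rfl (hτU τ)]
    have h1 : ∏ x ∈ ({a, b, c} : Finset Ω), sC (τ x) (g τ) * U (τ x) =
        ∏ x ∈ ({a, b, c} : Finset Ω), sC x (g τ) * U x := by
      refine Finset.prod_bij (fun x _ => τ x) (hperm τ) (fun x _ y _ h => τ.injective h) ?_
        (fun x _ => rfl)
      intro y hy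
      refine ⟨τ⁻¹ y, hperm τ⁻¹ y hy, ?_⟩
      exact τ.apply_symm_apply y
    rw [h1, Finset.prod_mul_distrib, hsum (fun x => sC x (g τ))]
    have h3 := sC_prod hC (hg2 τ)
    rw [h3, one_mul]
  obtain ⟨h, hh⟩ : ∃ h : K, algebraMap K Ω h = P := by
    have h1 := (InfiniteGalois.mem_bot_iff_fixed (k := K) (K := Ω) P).2 hfix
    exact IntermediateField.mem_bot.1 h1
  refine ⟨ρ, h, hρ, ?_⟩
  rw [hh, hP, ← Finset.prod_pow]
  refine Finset.prod_congr rfl fun x _ => ?_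
  show (sC x (g (ρ x)) * ρ x t) ^ 2 = _
  have h7 := sC_mul_self (a := x) (g (ρ x))
  rw [map_pow]
  linear_combination (ρ x t) ^ 2 * h7

theorem norm_prod [FiniteDimensional K N] [Algebra.IsSeparable K N]
    {θ : N} (hθ : algebraMap N Ω θ = a)
    (htop : IntermediateField.adjoin K {θ} = ⊤) {ρ : Ω → (Ω ≃ₐ[K] Ω)}
    (hρ : ∀ x ∈ ({a, b, c} : Finset Ω), ρ x a = x) (z : N) :
    algebraMap K Ω (Algebra.norm K z) = ∏ x ∈ ({a, b, c} : Finset Ω), ρ x (algebraMap N Ω z) := by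
  let E := AlgebraicClosure Ω
  let φ : Ω →ₐ[K] E := IsScalarTower.toAlgHom K Ω E
  have hCE := hC.map φ
  apply (algebraMap Ω E).injective
  rw [← IsScalarTower.algebraMap_apply K Ω E, Algebra.norm_eq_prod_embeddings K E z, map_prod]
  symm
  let e : Ω → (N →ₐ[K] E) := fun x => φ.comp (((ρ x) : Ω →ₐ[K] Ω).comp
    (IsScalarTower.toAlgHom K N Ω))
  have he : ∀ x ∈ ({a, b, c} : Finset Ω), e x θ = φ x := by
    intro x hx
    show φ (ρ x (algebraMap N Ω θ)) = _
    rw [hθ, hρ x hx]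
  refine Finset.prod_bij (fun x _ => e x) (fun x _ => Finset.mem_univ _) ?_ ?_ (fun x _ => rfl)
  · intro x hx y hy h
    have h1 : e x θ = e y θ := by rw [h]
    rw [he x hx, he y hy] at h1
    exact φ.injective h1
  · intro σ _
    have hcub : cub W (σ θ) = 0 := by
      have h0 : cub W θ = 0 := by
        apply (algebraMap N Ω).injective
        have h1 := cub_map W (IsScalarTower.toAlgHom K N Ω) θ
        have h3 : (IsScalarTower.toAlgHom K N Ω) θ = a := hθ
        rw [h3, hC.root_a] at h1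
        rw [map_zero]
        exact h1.symm
      rw [cub_map, h0, map_zero]
    have hr := hCE.root hcub
    obtain ⟨x, hx, hxσ⟩ : ∃ x ∈ ({a, b, c} : Finset Ω), φ x = σ θ := by
      rcases hr with h | h | h
      · exact ⟨a, by simp, h.symm⟩
      · exact ⟨b, by simp, h.symm⟩
      · exact ⟨c, by simp, h.symm⟩
    refine ⟨x, hx, ?_⟩
    apply AlgHom.ext
    intro y
    have hy : y ∈ (⊤ : IntermediateField K N) := trivial
    rw [← htop] at hy
    refine IntermediateField.adjoin_induction K (p := fun y _ => e x y = σ y) ?_ ?_ ?_ ?_ ?_ hy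
    · intro y hy
      rw [Set.mem_singleton_iff] at hy
      subst hy
      rw [he x hx, hxσ]
    · intro y
      rw [AlgHom.commutes, AlgHom.commutes]
    · intro x y _ _ hx hy
      rw [map_add, map_add, hx, hy]
    · intro x _ hx
      rw [map_inv₀, map_inv₀, hx]
    · intro x y _ _ hx hy
      rw [map_mul, map_mul, hx, hy]

/-- The norm of the generator is a square. -/
theorem norm_sq [FiniteDimensional K N] [Algebra.IsSeparable K N]
    (htr : ∀ e : Ω, (e = a ∨ e = b ∨ e = c) → ∃ ρ : Ω ≃ₐ[K] Ω, ρ a = e)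
    {θ : N} (hθ : algebraMap N Ω θ = a) (htop : IntermediateField.adjoin K {θ} = ⊤)
    {g : (Ω ≃ₐ[K] Ω) → Pt W Ω} (hmul : ∀ σ τ, g (σ * τ) = g σ + act W (ak σ) (g τ))
    (hg2 : ∀ τ, g τ + g τ = 0) {t : Ω} {z : N} (hz : t ^ 2 = algebraMap N Ω z)
    (hk : ∀ τ : Ω ≃ₐ[K] Ω, τ a = a → τ t = sC a (g τ) * t) : IsSquare (Algebra.norm K z) := by
  obtain ⟨ρ, h, hρ, e⟩ := prod_fixed hC htr hmul hg2 hk
  refine ⟨h, ?_⟩
  apply (algebraMap K Ω).injective
  rw [norm_prod hC hθ htop hρ, map_mul, ← pow_two, e, hz]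

end nrm

end Pool.Agent.TH115.GD
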