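import Pool.Agent.TH115.TC.CritH
import Pool.Agent.TH115.TC.NormA
import Pool.Agent.TH115.TC.NormB

/-!
All twists: the first layers of the Tate classes.
-/

set_option autoImplicit false
set_option linter.all false

open Polynomial IsDedekindDomain WeierstrassCurve WeierstrassCurve.Affine WithZero
open scoped Classical

namespace Pool.Agent.TH115.GD

section crit

variable {k k' K F N M R B : Type} [Field k] [Field k'] [Algebra k k'] [Field K] [Algebra k[X] K]
  [Field F] [Algebra k'[X] F] [IsFractionRing k'[X] F] [Algebra K F]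
  [Field N] [Algebra K N] [Algebra N (Sep F)] [IsScalarTower K N (Sep F)]
  [Field M] [Algebra F M] [Algebra K M] [IsScalarTower K F M] [Algebra M (Sep F)]
  [IsScalarTower F M (Sep F)]
  [Algebra N M] [IsScalarTower N M (Sep F)]
  [Algebra k N] [Algebra k' M] [Algebra k M] [IsScalarTower k k' M] [IsScalarTower k N M]
  [CommRing R] [IsDedekindDomain R] [Algebra R N] [IsFractionRing R N]
  [CommRing B] [IsDedekindDomain B] [Algebra B M] [IsFractionRing B M]
  [Algebra R B] [Algebra R M] [IsScalarTower R N M] [IsScalarTower R B M]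
  [Algebra.IsIntegral R B] [Module.IsTorsionFree R B] [Algebra k' B] [IsScalarTower k' B M]
  [Algebra k'[X] B] [Algebra.IsIntegral k'[X] B] [Algebra k'[X] M] [IsScalarTower k'[X] F M]
  [IsScalarTower k'[X] B M] [Module.IsTorsionFree k'[X] B]
  [Algebra k[X] N] [IsScalarTower k[X] K N] [Algebra k[X] R] [IsScalarTower k[X] R N]

/-- The first layer of a Tate class is given by an element of `N` whose norm is a square. -/
theorem layerE2 (hT : IsTower k k' K F) {W : WeierstrassCurve K}
    (hnr : ∀ x : F, cub W x ≠ 0)
    {a b c : Sep F} (hC : IsC (W.baseChange (Sep F)).toAffine a b c)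
    {θ : N} (hθ : algebraMap N (Sep F) θ = a)
    (hNtop : IntermediateField.adjoin K {θ} = ⊤)
    [FiniteDimensional K N] [Algebra.IsSeparable K N]
    {e : ℕ → (Sep F ≃ₐ[F] Sep F) → Pt W (Sep F)} (he : IsTateClass k' _ e) :
    ∃ (t : Sep F) (z : N), t ≠ 0 ∧ t ^ 2 = algebraMap N (Sep F) z ∧
      (∀ σ : Sep F ≃ₐ[F] Sep F, σ a = a → σ t = sC a (e 1 σ) * t) ∧
      IsSquare (Algebra.norm K z) := by
  haveI := hT.sep
  haveI := hT.fracK
  haveI : IsGalois k k' := inferInstance
  have hKF := hT.map
  haveI : IsSepClosure K (Sep F) := sepKΩ hKF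
  haveI : Algebra.IsSeparable K (Sep F) := IsSepClosure.separable
  haveI : IsGalois K (Sep F) := inferInstance
  have hf2 : ∀ σ, e 1 σ + e 1 σ = 0 := fun σ => by
    rw [← two_nsmul, he.tc.two 0 σ, he.tc.zero]
  obtain ⟨g, hg, hmul, hg2, hgF⟩ := ext_coc hC hnr (preserves hKF) (he.tc.coc 1) hf2 (inv_one he)
  obtain ⟨t, z, ht, hz, hk⟩ := kummerN hC hθ hNtop hg hmul hg2
  refine ⟨t, z, ht, hz, fun σ hσ => ?_, ?_⟩
  · have h1 := hk (σ.restrictScalars K) hσ
    rw [hgF] at h1
    exact h1
  · have htr := fun x hx => trans_roots (F := F) hC hnr x hx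
    exact norm_sq hC (fun x hx => by
      obtain ⟨ρ, hρ⟩ := htr x hx
      exact ⟨ρ.restrictScalars K, hρ⟩) hθ hNtop hmul hg2 hz hk

variable (B)

include B

/-- The valuations of the generator at the primes which do not divide the twist. -/
theorem layerQ (hT : IsTower k k' K F) {a2 a4 a6 D : k[X]} (hS : SmoothC a2 a4 a6)
    {a b c : Sep F} (hC : IsC ((crvC (algebraMap k[X] K (D * a2)) (algebraMap k[X] K (D ^ 2 * a4))
      (algebraMap k[X] K (D ^ 3 * a6))).baseChange (Sep F)).toAffine a b c)
    {θ : N} (hθ : algebraMap N (Sep F) (algebraMap K N (algebraMap k[X] K D) * θ) = a)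
    (htop : IntermediateField.adjoin N (Set.range (algebraMap k' M)) = ⊤)
    (hXB : ∀ p : k[X], algebraMap R B (algebraMap k[X] R p) =
      algebraMap k'[X] B (p.map (algebraMap k k')))
    {e : ℕ → (Sep F ≃ₐ[F] Sep F) → Pt (crvC (algebraMap k[X] K (D * a2)) (algebraMap k[X] K (D ^ 2 * a4))
      (algebraMap k[X] K (D ^ 3 * a6))) (Sep F)} (he : IsTateClass k' _ e)
    {t : Sep F} {z : N} (ht : t ≠ 0) (hz : t ^ 2 = algebraMap N (Sep F) z)
    (hkF : ∀ σ : Sep F ≃ₐ[F] Sep F, σ a = a → σ t = sC a (e 1 σ) * t)
    (P : HeightOneSpectrum R) (hDP : algebraMap k[X] R D ∉ P.asIdeal) :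
    IsSquare (P.valuation N z) := by
  haveI := hT.sep
  haveI := hT.fracK
  haveI : IsGalois k k' := inferInstance
  have hKF := hT.map
  have hf2 : ∀ σ, e 1 σ + e 1 σ = 0 := fun σ => by
    rw [← two_nsmul, he.tc.two 0 σ, he.tc.zero]
  have hKM : ∀ x : K, algebraMap N M (algebraMap K N x) = algebraMap K M x := by
    intro x
    apply (algebraMap M (Sep F)).injective
    rw [← IsScalarTower.algebraMap_apply N M (Sep F), ← IsScalarTower.algebraMap_apply K N (Sep F),
      IsScalarTower.algebraMap_apply K F M, ← IsScalarTower.algebraMap_apply F M (Sep F),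
      ← IsScalarTower.algebraMap_apply K F (Sep F)]
  have hzM : t ^ 2 = algebraMap M (Sep F) (algebraMap N M z) := by
    rw [← IsScalarTower.algebraMap_apply N M (Sep F), hz]
  have hθM : algebraMap M (Sep F) (algebraMap K M (algebraMap k[X] K D) * algebraMap N M θ) =
      a := by
    rw [← hKM, ← map_mul, ← IsScalarTower.algebraMap_apply N M (Sep F), hθ]
  obtain ⟨𝔓0, h𝔓0⟩ := exists_over (B := B) P
  have hvalP : ∀ (𝔓 : HeightOneSpectrum B) (x : N),
      𝔓.valuation M (algebraMap N M x) = (𝔓.under R).valuation N x := fun 𝔓 x =>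
    val_unram k (R := R) htop 𝔓 x
  rw [← h𝔓0, ← hvalP 𝔓0]
  refine parM' hKF hθM hC (he.tc.coc 1) hf2 (he.loc 1) ht hzM hkF 𝔓0 ?_
  refine locSm_tw hKF hS _ ?_
  intro h1
  apply hDP
  rw [← h𝔓0]
  show algebraMap R B (algebraMap k[X] R D) ∈ 𝔓0.asIdeal
  rw [hXB]
  exact h1

end crit

section critN

variable {k k' K F N : Type} [Field k] [Field k'] [Algebra k k'] [Field K] [Algebra k[X] K]
  [Field F] [Algebra k'[X] F] [IsFractionRing k'[X] F] [Algebra K F]
  [Field N] [Algebra K N] [Algebra k[X] N] [IsScalarTower k[X] K N]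
  {R : Type} [CommRing R] [IsDedekindDomain R] [Algebra R N] [IsFractionRing R N]
  [Algebra k[X] R] [IsScalarTower k[X] R N] [Algebra.IsIntegral k[X] R]

/-- The first layers, for an arbitrary goal. -/
theorem critA_cps [Algebra N (Sep F)] [IsScalarTower K N (Sep F)]
    (hT : IsTower k k' K F) (h2 : (2 : k) ≠ 0) {a2 a4 a6 D : k[X]}
    (hS : SmoothC a2 a4 a6) (hD0 : D ≠ 0)
    (hΔ : (crvC (algebraMap k[X] K (D * a2)) (algebraMap k[X] K (D ^ 2 * a4))
      (algebraMap k[X] K (D ^ 3 * a6))).Δ ≠ 0)
    (hnr : ∀ x : F, cub (crvC (algebraMap k[X] K (D * a2)) (algebraMap k[X] K (D ^ 2 * a4))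
      (algebraMap k[X] K (D ^ 3 * a6))) x ≠ 0) {θ : N}
    (hθ : cub (crvC (algebraMap k[X] K a2) (algebraMap k[X] K a4)
      (algebraMap k[X] K a6)) θ = 0) (hNtop' : IntermediateField.adjoin K {θ} = ⊤)
    {Φ : Prop} (hfin : ∀ (iN : Algebra k N) (a b c : Sep F),
      IsC ((crvC (algebraMap k[X] K (D * a2)) (algebraMap k[X] K (D ^ 2 * a4))
        (algebraMap k[X] K (D ^ 3 * a6))).baseChange (Sep F)).toAffine a b c →
      algebraMap N (Sep F) (algebraMap K N (algebraMap k[X] K D) * θ) = a →
      IntermediateField.adjoin K {algebraMap K N (algebraMap k[X] K D) * θ} = ⊤ →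
      (∀ x : k, algebraMap N (Sep F) (algebraMap k N x) =
        algebraMap F (Sep F) (algebraMap k'[X] F (C (algebraMap k k' x)))) →
      (∀ x : k, algebraMap k N x = algebraMap k[X] N (C x)) →
      (∀ e : ℕ → (Sep F ≃ₐ[F] Sep F) → Pt (crvC (algebraMap k[X] K (D * a2))
        (algebraMap k[X] K (D ^ 2 * a4)) (algebraMap k[X] K (D ^ 3 * a6))) (Sep F),
        IsTateClass k' _ e → (∃ (t : Sep F) (z : N), t ≠ 0 ∧ t ^ 2 = algebraMap N (Sep F) z ∧
          (∀ σ : Sep F ≃ₐ[F] Sep F, σ a = a → σ t = sC a (e 1 σ) * t) ∧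
          IsSquare (Algebra.norm K z)) ∧
        ∀ (t : Sep F) (z : N), t ≠ 0 → t ^ 2 = algebraMap N (Sep F) z →
          (∀ σ : Sep F ≃ₐ[F] Sep F, σ a = a → σ t = sC a (e 1 σ) * t) →
          ∀ P : HeightOneSpectrum R, algebraMap k[X] R D ∉ P.asIdeal → IsSquare (P.valuation N z)) → Φ) :
    Φ := by
  haveI := hT.sep
  haveI := hT.fracK
  haveI : IsGalois k k' := inferInstance
  have hKF := hT.map
  haveI : IsSepClosure K (Sep F) := sepKΩ hKF
  haveI : Algebra.IsSeparable K (Sep F) := IsSepClosure.separable
  haveI : IsGalois K (Sep F) := inferInstance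
  have h2K : (2 : K) ≠ 0 := tt h2
  set W := (crvC (algebraMap k[X] K (D * a2)) (algebraMap k[X] K (D ^ 2 * a4))
      (algebraMap k[X] K (D ^ 3 * a6))) with hW
  set W1 := (crvC (algebraMap k[X] K a2) (algebraMap k[X] K a4)
      (algebraMap k[X] K a6)) with hW1
  have eW : W = crvC (algebraMap k[X] K D * algebraMap k[X] K a2)
      (algebraMap k[X] K D ^ 2 * algebraMap k[X] K a4)
      (algebraMap k[X] K D ^ 3 * algebraMap k[X] K a6) := by
    rw [hW, map_mul, map_mul, map_mul, map_pow, map_pow]
  set d : N := algebraMap K N (algebraMap k[X] K D) with hd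
  have hdK : algebraMap k[X] K D ≠ 0 := by
    rw [Ne, map_eq_zero_iff _ (IsFractionRing.injective k[X] K)]
    exact hD0
  have hd0 : d ≠ 0 := (_root_.map_ne_zero _).2 hdK
  have hNtop : IntermediateField.adjoin K {d * θ} = ⊤ := by
    rw [eq_top_iff, ← hNtop', IntermediateField.adjoin_le_iff, Set.singleton_subset_iff]
    have h1 : θ = algebraMap K N (algebraMap k[X] K D)⁻¹ * (d * θ) := by
      rw [map_inv₀, ← hd, inv_mul_cancel_left₀ hd0]
    have h3 := mul_mem (IntermediateField.algebraMap_mem (IntermediateField.adjoin K {d * θ})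
      (algebraMap k[X] K D)⁻¹) (IntermediateField.mem_adjoin_simple_self K (d * θ))
    rw [← h1] at h3
    exact h3
  set a : Sep F := algebraMap N (Sep F) (d * θ) with ha
  have hcubN : cub W (d * θ) = 0 := by
    rw [eW]
    have e := cub_tw (L := N) (algebraMap k[X] K a2) (algebraMap k[X] K a4)
      (algebraMap k[X] K a6) (algebraMap k[X] K D) θ
    rw [hW1] at hθ
    rw [← hd, hθ, mul_zero] at e
    exact e
  have hcuba : cub W a = 0 := by
    have h1 := cub_map W (IsScalarTower.toAlgHom K N (Sep F)) (d * θ)
    rw [hcubN, map_zero] at h1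
    exact h1
  obtain ⟨b, c, hC⟩ := exists_isC (W := W) rfl rfl hΔ h2K hcuba
  have hKN : ∀ x : K, algebraMap N (Sep F) (algebraMap K N x) =
      algebraMap F (Sep F) (algebraMap K F x) := fun x => by
    rw [← IsScalarTower.algebraMap_apply K N (Sep F), ← IsScalarTower.algebraMap_apply K F (Sep F)]
  -- the field `M`
  let S : IntermediateField F (Sep F) := IntermediateField.adjoin F {a}
  haveI : FiniteDimensional F S := IntermediateField.adjoin.finiteDimensional
    (Algebra.IsIntegral.isIntegral (R := F) a)
  haveI : Algebra.IsSeparable F S := inferInstance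
  have hmem : ∀ x : N, algebraMap N (Sep F) x ∈ S := by
    intro x
    have hx : x ∈ (⊤ : IntermediateField K N) := trivial
    rw [← hNtop] at hx
    refine IntermediateField.adjoin_induction K
      (p := fun x _ => algebraMap N (Sep F) x ∈ S) ?_ ?_ ?_ ?_ ?_ hx
    · intro y hy
      rw [Set.mem_singleton_iff] at hy
      subst hy
      exact IntermediateField.mem_adjoin_simple_self F a
    · intro y
      rw [hKN]
      exact S.algebraMap_mem _
    · intro x y _ _ hx hy
      rw [map_add]; exact add_mem hx hy
    · intro x _ hx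
      rw [map_inv₀]; exact inv_mem hx
    · intro x y _ _ hx hy
      rw [map_mul]; exact mul_mem hx hy
  let M : Type := S
  letI : Algebra N M := ((algebraMap N (Sep F)).codRestrict S hmem).toAlgebra
  haveI : IsScalarTower N M (Sep F) := IsScalarTower.of_algebraMap_eq fun x => rfl
  haveI : IsScalarTower K F M := IsScalarTower.of_algebraMap_eq fun x => Subtype.ext
    (IsScalarTower.algebraMap_apply K F (Sep F) x)
  letI : Algebra k N := ((algebraMap k[X] N).comp C).toAlgebra
  letI : Algebra k' M := ((algebraMap F M).comp ((algebraMap k'[X] F).comp C)).toAlgebra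
  letI : Algebra k M := ((algebraMap k' M).comp (algebraMap k k')).toAlgebra
  haveI : IsScalarTower k k' M := IsScalarTower.of_algebraMap_eq fun x => rfl
  have hkX : ∀ p : k[X], algebraMap N (Sep F) (algebraMap k[X] N p) =
      algebraMap F (Sep F) (algebraMap k'[X] F (p.map (algebraMap k k'))) := by
    intro p
    rw [IsScalarTower.algebraMap_apply k[X] K N, hKN, hKF]
  have hkN : ∀ x : k, algebraMap N (Sep F) (algebraMap k N x) =
      algebraMap F (Sep F) (algebraMap k'[X] F (C (algebraMap k k' x))) := by
    intro x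
    have := hkX (C x)
    rwa [map_C] at this
  haveI : IsScalarTower k N M := IsScalarTower.of_algebraMap_eq fun x => Subtype.ext (hkN x).symm
  letI : Algebra k'[X] M := ((algebraMap F M).comp (algebraMap k'[X] F)).toAlgebra
  haveI : IsScalarTower k'[X] F M := IsScalarTower.of_algebraMap_eq fun x => rfl
  -- the ring `R`
  haveI : FiniteDimensional K N := by
    have hint : IsIntegral K (d * θ) := by
      have h1 : IsIntegral K a := Algebra.IsIntegral.isIntegral a
      exact (isIntegral_algebraMap_iff (algebraMap N (Sep F)).injective).1 h1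
    haveI := IntermediateField.adjoin.finiteDimensional hint
    rw [hNtop] at this
    exact (IntermediateField.topEquiv (F := K) (E := N)).toLinearEquiv.finiteDimensional
  haveI : Algebra.IsSeparable K N := Algebra.isSeparable_tower_bot_of_isSeparable K N (Sep F)
  haveI : IsDedekindDomain (integralClosure k'[X] M) := integralClosure.isDedekindDomain k'[X] F M
  haveI : IsFractionRing (integralClosure k'[X] M) M :=
    integralClosure.isFractionRing_of_finite_extension F M
  letI : Algebra R M := ((algebraMap N M).comp (algebraMap R N)).toAlgebra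
  haveI : IsScalarTower R N M := IsScalarTower.of_algebraMap_eq fun x => rfl
  have hRB : ∀ r : R, algebraMap N M (algebraMap R N r) ∈ integralClosure k'[X] M := by
    intro r
    have h1 : IsIntegral k[X] (algebraMap R N r) :=
      (Algebra.IsIntegral.isIntegral (R := k[X]) r).algebraMap
    exact IsIntegral.map_of_comp_eq (mapRingHom (algebraMap k k')) (algebraMap N M) (by
      ext p
      · exact (hkX (C p)).symm
      · exact (hkX X).symm) h1
  letI : Algebra R (integralClosure k'[X] M) :=
    (((algebraMap N M).comp (algebraMap R N)).codRestrict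
      (integralClosure k'[X] M) hRB).toAlgebra
  haveI : IsScalarTower R (integralClosure k'[X] M) M :=
    IsScalarTower.of_algebraMap_eq fun x => rfl
  letI : Algebra k' (integralClosure k'[X] M) :=
    ((algebraMap k'[X] (integralClosure k'[X] M)).comp C).toAlgebra
  haveI : IsScalarTower k' (integralClosure k'[X] M) M :=
    IsScalarTower.of_algebraMap_eq fun x => rfl
  haveI : Algebra.IsIntegral R (integralClosure k'[X] M) := by
    have h1 : (mapRingHom (algebraMap k k')).IsIntegral := poly_integral
    have h3 : (algebraMap k'[X] (integralClosure k'[X] M)).IsIntegral := fun x =>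
      Algebra.IsIntegral.isIntegral (R := k'[X]) x
    have h4 := RingHom.IsIntegral.trans _ _ h1 h3
    have h5 : (algebraMap k'[X] (integralClosure k'[X] M)).comp (mapRingHom (algebraMap k k')) =
        (algebraMap R (integralClosure k'[X] M)).comp
          (algebraMap k[X] R) := by
      apply RingHom.ext
      intro p
      apply Subtype.ext
      apply Subtype.ext
      show algebraMap F (Sep F) (algebraMap k'[X] F (p.map (algebraMap k k'))) =
        algebraMap N (Sep F) (algebraMap R N (algebraMap k[X] R p))
      rw [← IsScalarTower.algebraMap_apply k[X] R N]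
      exact (hkX p).symm
    rw [h5] at h4
    exact ⟨RingHom.IsIntegral.tower_top _ _ h4⟩
  haveI : Module.IsTorsionFree R (integralClosure k'[X] M) := by
    rw [Module.isTorsionFree_iff_algebraMap_injective]
    intro x y h
    have h1 := congrArg (algebraMap (integralClosure k'[X] M) M) h
    rw [← IsScalarTower.algebraMap_apply R (integralClosure k'[X] M) M,
      ← IsScalarTower.algebraMap_apply R (integralClosure k'[X] M) M] at h1
    exact IsFractionRing.injective R N ((algebraMap N M).injective h1)
  haveI : Module.IsTorsionFree k'[X] (integralClosure k'[X] M) := by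
    rw [Module.isTorsionFree_iff_algebraMap_injective]
    intro x y h
    have h1 := congrArg (algebraMap (integralClosure k'[X] M) M) h
    apply IsFractionRing.injective k'[X] F
    exact (algebraMap F M).injective h1
  -- `M` is generated by the constants
  have htop : IntermediateField.adjoin N (Set.range (algebraMap k' M)) = ⊤ := by
    set T : IntermediateField N M := IntermediateField.adjoin N (Set.range (algebraMap k' M)) with hT'
    have hpoly : ∀ p : k'[X], algebraMap F M (algebraMap k'[X] F p) ∈ T := by
      intro p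
      induction p using Polynomial.induction_on' with
      | add p q hp hq => rw [map_add, map_add]; exact add_mem hp hq
      | monomial n c =>
        rw [← C_mul_X_pow_eq_monomial, map_mul, map_mul, map_pow, map_pow]
        refine mul_mem (IntermediateField.subset_adjoin N _ ⟨c, rfl⟩) (pow_mem ?_ n)
        have h1 : algebraMap F M (algebraMap k'[X] F X) = algebraMap N M (algebraMap k[X] N X) := by
          apply Subtype.ext
          have := hkX X
          rw [map_X] at this
          exact this.symm
        rw [h1]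
        exact T.algebraMap_mem _
    have hF : ∀ x : F, algebraMap F M x ∈ T := by
      intro x
      obtain ⟨n, d, hd, rfl⟩ := IsFractionRing.div_surjective (A := k'[X]) x
      rw [map_div₀]
      exact div_mem (hpoly n) (hpoly d)
    rw [eq_top_iff]
    rintro ⟨x, hx⟩ -
    refine IntermediateField.adjoin_induction F
      (p := fun x hx => (⟨x, hx⟩ : M) ∈ T) ?_ ?_ ?_ ?_ ?_ hx
    · intro y hy
      rw [Set.mem_singleton_iff] at hy
      subst hy
      exact T.algebraMap_mem (d * θ)
    · intro y
      exact hF y
    · intro x y _ _ hx hy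
      exact add_mem hx hy
    · intro x _ hx
      exact inv_mem hx
    · intro x y _ _ hx hy
      exact mul_mem hx hy
  have hcomm : ∀ p : k[X], algebraMap R (integralClosure k'[X] M) (algebraMap k[X] R p) =
      algebraMap k'[X] (integralClosure k'[X] M) (p.map (algebraMap k k')) := by
    intro p
    apply Subtype.ext
    apply Subtype.ext
    show algebraMap N (Sep F) (algebraMap R N (algebraMap k[X] R p)) =
      algebraMap F (Sep F) (algebraMap k'[X] F (p.map (algebraMap k k')))
    rw [← IsScalarTower.algebraMap_apply k[X] R N]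
    exact hkX p
  refine hfin inferInstance a b c hC rfl hNtop hkN (fun x => rfl) ?_
  intro e he
  refine ⟨layerE2 hT hnr hC rfl hNtop he, ?_⟩
  intro t z ht hz hkF P hP
  exact layerQ (M := M) (R := R) (integralClosure k'[X] M) hT hS hC rfl htop
    hcomm he ht hz hkF P hP

end critN

end Pool.Agent.TH115.GD
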