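import Pool.Agent.TH115.TC.LocP

/-!
Smooth points of the trigonal curve at the level of completions.
-/

set_option autoImplicit false
set_option linter.all false

open Polynomial IsDedekindDomain WeierstrassCurve WeierstrassCurve.Affine WithZero Filter Topology
open scoped Classical

namespace Pool.Agent.TH115.GD

section ft

/-- The derivative of `x ^ 3 + a2 x ^ 2 + a4 x + a6` with respect to `t`. -/
noncomputable def ftd {k : Type*} (K : Type*) {L : Type*} [Field k] [Field K] [Algebra k[X] K] [Field L]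
    [Algebra K L] (a2 a4 a6 : k[X]) (x : L) : L :=
  algebraMap K L (algebraMap k[X] K (derivative a2)) * x ^ 2 +
    algebraMap K L (algebraMap k[X] K (derivative a4)) * x +
    algebraMap K L (algebraMap k[X] K (derivative a6))

variable {k k' : Type*} [Field k] [Field k'] [Algebra k k'] {a2 a4 a6 : k[X]}

theorem ft_poly {I : Ideal k'[X]} {p : k'[X]}
    (h1 : p ^ 3 + a2.map (algebraMap k k') * p ^ 2 + a4.map (algebraMap k k') * p +
      a6.map (algebraMap k k') ∈ I ^ 2)
    (h3 : 3 * p ^ 2 + 2 * a2.map (algebraMap k k') * p + a4.map (algebraMap k k') ∈ I) :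
    (derivative a2).map (algebraMap k k') * p ^ 2 +
      (derivative a4).map (algebraMap k k') * p + (derivative a6).map (algebraMap k k') ∈ I := by
  have hd := deriv_sq h1
  have ed : derivative (p ^ 3 + a2.map (algebraMap k k') * p ^ 2 + a4.map (algebraMap k k') * p +
      a6.map (algebraMap k k')) =
      ((derivative a2).map (algebraMap k k') * p ^ 2 + (derivative a4).map (algebraMap k k') * p +
        (derivative a6).map (algebraMap k k')) +
      (3 * p ^ 2 + 2 * a2.map (algebraMap k k') * p + a4.map (algebraMap k k')) *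
        derivative p := by
    simp only [derivative_add, derivative_mul, derivative_pow, derivative_map]
    push_cast
    simp only [map_ofNat, C_ofNat]
    ring
  rw [ed] at hd
  have := I.sub_mem hd (I.mul_mem_right (derivative p) h3)
  rwa [add_sub_cancel_right] at this

end ft

section smooth

variable {k k' K F M B : Type} [Field k] [Field k'] [Algebra k k'] [Field K] [Algebra k[X] K]
  [Field F] [Algebra k'[X] F] [IsFractionRing k'[X] F] [Algebra K F]
  [Field M] [Algebra F M] [Algebra K M] [IsScalarTower K F M]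
  [CommRing B] [IsDedekindDomain B] [Algebra B M] [IsFractionRing B M] [Algebra k'[X] B]
  [Algebra.IsIntegral k'[X] B] [Algebra k'[X] M] [IsScalarTower k'[X] F M]
  [IsScalarTower k'[X] B M] [Module.IsTorsionFree k'[X] B]

theorem locSmP_of (hKF : ∀ p : k[X], algebraMap K F (algebraMap k[X] K p) =
      algebraMap k'[X] F (p.map (algebraMap k k'))) {a2 a4 a6 : k[X]}
    (𝔓 : HeightOneSpectrum B) {θ : M}
    (hns : ¬ (𝔓.valuation M (cub' (crvC (algebraMap k[X] K a2) (algebraMap k[X] K a4)
      (algebraMap k[X] K a6)) θ) < 1 ∧ 𝔓.valuation M (ftd K a2 a4 a6 θ) < 1)) :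
    LocSmP (k' := k') (F := F) (crvC (algebraMap k[X] K a2) (algebraMap k[X] K a4)
      (algebraMap k[X] K a6)) 𝔓 θ := by
  intro x vL wE j hvL hwE hj hle hlt hx hxθ h1 h3
  set W := crvC (algebraMap k[X] K a2) (algebraMap k[X] K a4) (algebraMap k[X] K a6) with hW
  have vx : ∀ x : F, vL (algebraMap F (Comp k'[X] F (𝔓.under k'[X])) x) = (𝔓.under k'[X]).valuation F x := fun x => by
    rw [hvL]
    exact HeightOneSpectrum.valuedAdicCompletion_eq_valuation' (𝔓.under k'[X]) x
  have wz : ∀ x : M, wE (algebraMap M (Comp B M 𝔓) x) = 𝔓.valuation M x := fun x => by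
    rw [hwE]
    exact HeightOneSpectrum.valuedAdicCompletion_eq_valuation' 𝔓 x
  have vi : ∀ p : k'[X], vL (algebraMap F (Comp k'[X] F (𝔓.under k'[X])) (algebraMap k'[X] F p)) = (𝔓.under k'[X]).intValuation p := fun p => by
    rw [vx, (𝔓.under k'[X]).valuation_of_algebraMap]
  have vi1 : ∀ p : k'[X], vL (algebraMap F (Comp k'[X] F (𝔓.under k'[X])) (algebraMap k'[X] F p)) ≤ 1 := fun p => by
    rw [vi]; exact (𝔓.under k'[X]).intValuation_le_one p
  have eK : ∀ p : k[X], algebraMap K (Comp k'[X] F (𝔓.under k'[X])) (algebraMap k[X] K p) =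
      algebraMap F (Comp k'[X] F (𝔓.under k'[X])) (algebraMap k'[X] F (p.map (algebraMap k k'))) := fun p => by
    rw [IsScalarTower.algebraMap_apply K F (Comp k'[X] F (𝔓.under k'[X])), hKF]
  by_contra hne
  have h2 : vL (cub W x) ≤ exp (-2 : ℤ) := by
    by_cases h0 : vL (cub W x) = 0
    · rw [h0]; exact zero_le
    · have e : exp (log (vL (cub W x))) = vL (cub W x) := exp_log h0
      rw [← e, ← exp_zero, exp_lt_exp] at h1
      rw [← e, exp_inj] at hne
      rw [← e, exp_le_exp]
      omega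
  obtain ⟨p, hp⟩ : ∃ p : k'[X], vL (x - algebraMap F (Comp k'[X] F (𝔓.under k'[X])) (algebraMap k'[X] F p)) ≤ exp (-2 : ℤ) := by
    have hx' : (Valued.v (R := (𝔓.under k'[X]).adicCompletion F) (Γ₀ := WithZero (Multiplicative ℤ))) x ≤ 1 := by
      rw [hvL] at hx; exact hx
    obtain ⟨p, hp⟩ := approx (𝔓.under k'[X]) x hx'
    refine ⟨p, ?_⟩
    rw [hvL]
    exact hp
  set y := algebraMap F (Comp k'[X] F (𝔓.under k'[X])) (algebraMap k'[X] F p) with hy
  set A2 := algebraMap K (Comp k'[X] F (𝔓.under k'[X])) W.a₂ with hA2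
  set A4 := algebraMap K (Comp k'[X] F (𝔓.under k'[X])) W.a₄ with hA4
  set A6 := algebraMap K (Comp k'[X] F (𝔓.under k'[X])) W.a₆ with hA6
  have w2 : vL A2 ≤ 1 := by rw [hA2]; show vL (algebraMap K (Comp k'[X] F (𝔓.under k'[X])) (algebraMap k[X] K a2)) ≤ 1; rw [eK]; exact vi1 _
  have w4 : vL A4 ≤ 1 := by rw [hA4]; show vL (algebraMap K (Comp k'[X] F (𝔓.under k'[X])) (algebraMap k[X] K a4)) ≤ 1; rw [eK]; exact vi1 _
  have wy : vL y ≤ 1 := vi1 p
  have wn : ∀ n : ℕ, vL (n : (Comp k'[X] F (𝔓.under k'[X]))) ≤ 1 := fun n => by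
    have := vi1 (n : k'[X])
    rwa [map_natCast, map_natCast] at this
  have two : exp (-2 : ℤ) < (1 : WithZero (Multiplicative ℤ)) := by
    rw [← exp_zero, exp_lt_exp]; norm_num
  have ad : ∀ {s t : (Comp k'[X] F (𝔓.under k'[X]))}, vL s ≤ 1 → vL t ≤ 1 → vL (s + t) ≤ 1 := fun hs ht =>
    (Valuation.map_add _ _ _).trans (max_le hs ht)
  have mu : ∀ {s t : (Comp k'[X] F (𝔓.under k'[X]))}, vL s ≤ 1 → vL t ≤ 1 → vL (s * t) ≤ 1 := fun hs ht => by
    rw [map_mul]; exact mul_le_one' hs ht
  have c1 : vL (cub W y) ≤ exp (-2 : ℤ) := by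
    have e : cub W y = cub W x - (x - y) * (x * x + x * y + y * y + A2 * (x + y) + A4) := by
      simp only [cub]
      ring
    rw [e]
    refine (Valuation.map_sub _ _ _).trans (max_le h2 ?_)
    rw [map_mul]
    calc vL (x - y) * vL (x * x + x * y + y * y + A2 * (x + y) + A4)
        ≤ exp (-2 : ℤ) * 1 := mul_le_mul' hp
          (ad (ad (ad (ad (mu hx hx) (mu hx wy)) (mu wy wy)) (mu w2 (ad hx wy))) w4)
      _ = exp (-2 : ℤ) := mul_one _
  have c3 : vL (cub' W y) < 1 := by
    have e : cub' W y = cub' W x - (x - y) * (((3 : ℕ) : (Comp k'[X] F (𝔓.under k'[X]))) * (x + y) + ((2 : ℕ) : (Comp k'[X] F (𝔓.under k'[X]))) * A2) := by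
      simp only [cub']
      push_cast
      ring
    rw [e]
    refine lt_of_le_of_lt (Valuation.map_sub _ _ _) (max_lt h3 ?_)
    rw [map_mul]
    calc vL (x - y) * vL (((3 : ℕ) : (Comp k'[X] F (𝔓.under k'[X]))) * (x + y) + ((2 : ℕ) : (Comp k'[X] F (𝔓.under k'[X]))) * A2)
        ≤ exp (-2 : ℤ) * 1 := mul_le_mul' hp (ad (mu (wn 3) (ad hx wy)) (mu (wn 2) w2))
      _ < 1 := by rw [mul_one]; exact two
  have e1 : cub W y = algebraMap F (Comp k'[X] F (𝔓.under k'[X])) (algebraMap k'[X] F (p ^ 3 + a2.map (algebraMap k k') * p ^ 2 +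
      a4.map (algebraMap k k') * p + a6.map (algebraMap k k'))) := by
    simp only [cub, map_add, map_mul, map_pow, ← eK]
    rfl
  have e3 : cub' W y = algebraMap F (Comp k'[X] F (𝔓.under k'[X])) (algebraMap k'[X] F (3 * p ^ 2 +
      2 * a2.map (algebraMap k k') * p + a4.map (algebraMap k k'))) := by
    simp only [cub', map_add, map_mul, map_pow, ← eK, map_ofNat]
    rfl
  rw [e1, vi] at c1
  rw [e3, vi] at c3
  have m1 := ((𝔓.under k'[X]).intValuation_le_pow_iff_mem _ 2).1 (by exact_mod_cast c1)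
  have m3 := (HeightOneSpectrum.intValuation_lt_one_iff_mem _ _).1 c3
  have mt := ft_poly m1 m3
  -- the valuations in `M`
  have toM : ∀ q : k'[X], q ∈ (𝔓.under k'[X]).asIdeal → 𝔓.valuation M (algebraMap k'[X] M q) < 1 := by
    intro q hq
    rw [IsScalarTower.algebraMap_apply k'[X] B M, 𝔓.valuation_of_algebraMap,
      HeightOneSpectrum.intValuation_lt_one_iff_mem]
    exact hq
  have leM : ∀ q : k'[X], 𝔓.valuation M (algebraMap k'[X] M q) ≤ 1 := by
    intro q
    rw [IsScalarTower.algebraMap_apply k'[X] B M]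
    exact 𝔓.valuation_le_one _
  have eM : ∀ q : k[X], algebraMap K M (algebraMap k[X] K q) =
      algebraMap k'[X] M (q.map (algebraMap k k')) := by
    intro q
    rw [IsScalarTower.algebraMap_apply K F M, hKF, ← IsScalarTower.algebraMap_apply k'[X] F M]
  set pM := algebraMap k'[X] M p with hpM
  have hjy : j y = algebraMap M (Comp B M 𝔓) pM := by
    rw [hy, hj, hpM, IsScalarTower.algebraMap_apply k'[X] F M]
    rfl
  have hθp : 𝔓.valuation M (θ - pM) < 1 := by
    rw [← wz, map_sub, ← hjy]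
    have e : algebraMap M (Comp B M 𝔓) θ - j y = -(j x - algebraMap M (Comp B M 𝔓) θ) +
        j (x - y) := by
      rw [map_sub]; ring
    rw [e]
    refine lt_of_le_of_lt (Valuation.map_add _ _ _) (max_lt ?_ ?_)
    · rw [Valuation.map_neg]; exact hxθ
    · exact hlt _ (lt_of_le_of_lt hp two)
  have hp1 : 𝔓.valuation M pM ≤ 1 := leM p
  have hθ1 : 𝔓.valuation M θ ≤ 1 := by
    have e : θ = (θ - pM) + pM := by ring
    rw [e]
    exact (Valuation.map_add _ _ _).trans (max_le hθp.le hp1)
  have adM : ∀ {s t : M}, 𝔓.valuation M s ≤ 1 → 𝔓.valuation M t ≤ 1 →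
      𝔓.valuation M (s + t) ≤ 1 := fun hs ht => (Valuation.map_add _ _ _).trans (max_le hs ht)
  have muM : ∀ {s t : M}, 𝔓.valuation M s ≤ 1 → 𝔓.valuation M t ≤ 1 →
      𝔓.valuation M (s * t) ≤ 1 := fun hs ht => by rw [map_mul]; exact mul_le_one' hs ht
  have nM : ∀ n : ℕ, 𝔓.valuation M (n : M) ≤ 1 := fun n => by
    have := leM (n : k'[X])
    rwa [map_natCast] at this
  apply hns
  constructor
  · have e : cub' W θ = algebraMap k'[X] M (3 * p ^ 2 +
      2 * a2.map (algebraMap k k') * p + a4.map (algebraMap k k')) +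
      (θ - pM) * (((3 : ℕ) : M) * (θ + pM) + ((2 : ℕ) : M) *
        algebraMap k'[X] M (a2.map (algebraMap k k'))) := by
      have e5 : cub' W θ = 3 * θ ^ 2 + 2 * algebraMap K M (algebraMap k[X] K a2) * θ +
        algebraMap K M (algebraMap k[X] K a4) := rfl
      rw [e5, eM, eM]
      simp only [map_add, map_mul, map_pow, map_ofNat, ← hpM]
      push_cast
      ring
    rw [e]
    refine lt_of_le_of_lt (Valuation.map_add _ _ _) (max_lt (toM _ m3) ?_)
    rw [map_mul]
    exact lt_of_le_of_lt (mul_le_of_le_one_right' (adM (muM (nM 3) (adM hθ1 hp1))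
      (muM (nM 2) (leM _)))) hθp
  · have e : ftd K a2 a4 a6 θ = algebraMap k'[X] M ((derivative a2).map (algebraMap k k') * p ^ 2 +
      (derivative a4).map (algebraMap k k') * p + (derivative a6).map (algebraMap k k')) +
      (θ - pM) * (algebraMap k'[X] M ((derivative a2).map (algebraMap k k')) * (θ + pM) +
        algebraMap k'[X] M ((derivative a4).map (algebraMap k k'))) := by
      unfold ftd
      rw [eM, eM, eM]
      simp only [map_add, map_mul, map_pow, ← hpM]
      ring
    rw [e]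
    refine lt_of_le_of_lt (Valuation.map_add _ _ _) (max_lt (toM _ mt) ?_)
    rw [map_mul]
    exact lt_of_le_of_lt (mul_le_of_le_one_right' (adM (muM (leM _) (adM hθ1 hp1))
      (leM _))) hθp

theorem locSmP_tw (hKF : ∀ p : k[X], algebraMap K F (algebraMap k[X] K p) =
      algebraMap k'[X] F (p.map (algebraMap k k'))) {a2 a4 a6 D : k[X]}
    (𝔓 : HeightOneSpectrum B) {θ : M}
    (hD : 𝔓.valuation M (algebraMap K M (algebraMap k[X] K D)) = 1)
    (hns : ¬ (𝔓.valuation M (cub' (crvC (algebraMap k[X] K a2) (algebraMap k[X] K a4)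
      (algebraMap k[X] K a6)) θ) < 1 ∧ 𝔓.valuation M (ftd K a2 a4 a6 θ) < 1)) :
    LocSmP (k' := k') (F := F) (crvC (algebraMap k[X] K (D * a2)) (algebraMap k[X] K (D ^ 2 * a4))
      (algebraMap k[X] K (D ^ 3 * a6))) 𝔓 (algebraMap K M (algebraMap k[X] K D) * θ) := by
  intro x vL wE j hvL hwE hj hle hlt hx hxθ h1 h3
  have wz : ∀ x : M, wE (algebraMap M (Comp B M 𝔓) x) = 𝔓.valuation M x := fun x => by
    rw [hwE]
    exact HeightOneSpectrum.valuedAdicCompletion_eq_valuation' 𝔓 x
  have hv : D.map (algebraMap k k') ∉ (𝔓.under k'[X]).asIdeal := by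
    intro h
    have h5 : 𝔓.valuation M (algebraMap K M (algebraMap k[X] K D)) < 1 := by
      rw [IsScalarTower.algebraMap_apply K F M, hKF, ← IsScalarTower.algebraMap_apply k'[X] F M,
        IsScalarTower.algebraMap_apply k'[X] B M, 𝔓.valuation_of_algebraMap,
        HeightOneSpectrum.intValuation_lt_one_iff_mem]
      exact h
    rw [hD] at h5
    exact lt_irrefl _ h5
  set W := crvC (algebraMap k[X] K a2) (algebraMap k[X] K a4) (algebraMap k[X] K a6) with hW
  set d := algebraMap K (Comp k'[X] F (𝔓.under k'[X])) (algebraMap k[X] K D) with hd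
  have vd : vL d = 1 := by
    rw [hd, IsScalarTower.algebraMap_apply K F (Comp k'[X] F (𝔓.under k'[X])), hKF, hvL]
    have h5 : Valued.v (algebraMap F ((𝔓.under k'[X]).adicCompletion F) (algebraMap k'[X] F
        (D.map (algebraMap k k')))) =
          (𝔓.under k'[X]).valuation F (algebraMap k'[X] F (D.map (algebraMap k k'))) :=
      HeightOneSpectrum.valuedAdicCompletion_eq_valuation' (𝔓.under k'[X]) _
    have h6 : (𝔓.under k'[X]).valuation F (algebraMap k'[X] F (D.map (algebraMap k k'))) = 1 := by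
      rw [(𝔓.under k'[X]).valuation_of_algebraMap, (𝔓.under k'[X]).intValuation_eq_one_iff]
      exact hv
    rw [h6] at h5
    exact h5
  have hd0 : d ≠ 0 := by
    intro h0
    rw [h0, map_zero] at vd
    exact zero_ne_one vd
  have e0 : x = d * (x / d) := by rw [mul_div_cancel₀ x hd0]
  have e1 : cub (crvC (algebraMap k[X] K (D * a2)) (algebraMap k[X] K (D ^ 2 * a4))
      (algebraMap k[X] K (D ^ 3 * a6))) x = d ^ 3 * cub W (x / d) := by
    conv_lhs => rw [e0]
    rw [map_mul, map_mul, map_mul, map_pow, map_pow]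
    exact cub_tw _ _ _ _ _
  have e3 : cub' (crvC (algebraMap k[X] K (D * a2)) (algebraMap k[X] K (D ^ 2 * a4))
      (algebraMap k[X] K (D ^ 3 * a6))) x = d ^ 2 * cub' W (x / d) := by
    conv_lhs => rw [e0]
    rw [map_mul, map_mul, map_mul, map_pow, map_pow]
    exact cub'_tw _ _ _ _ _
  have q1 : vL (d ^ 3 * cub W (x / d)) = vL (cub W (x / d)) := by
    rw [map_mul, map_pow, vd, one_pow, one_mul]
  have q3 : vL (d ^ 2 * cub' W (x / d)) = vL (cub' W (x / d)) := by
    rw [map_mul, map_pow, vd, one_pow, one_mul]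
  rw [e1, q1] at h1 ⊢
  rw [e3, q3] at h3
  have hjd : j d = algebraMap M (Comp B M 𝔓) (algebraMap K M (algebraMap k[X] K D)) := by
    rw [hd, IsScalarTower.algebraMap_apply K F (Comp k'[X] F (𝔓.under k'[X])), hj,
      IsScalarTower.algebraMap_apply K F M]
    rfl
  refine locSmP_of (K := K) hKF 𝔓 hns (x / d) vL wE j hvL hwE hj hle hlt
    (by rw [map_div₀, vd, div_one]; exact hx) ?_ h1 h3
  have e5 : j x - algebraMap M (Comp B M 𝔓) (algebraMap K M (algebraMap k[X] K D) * θ) =
      j d * (j (x / d) - algebraMap M (Comp B M 𝔓) θ) := by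
    rw [map_mul, ← hjd, mul_sub, ← map_mul, mul_div_cancel₀ x hd0]
  rw [e5, map_mul, hjd, wz, hD, one_mul] at hxθ
  exact hxθ

end smooth

end Pool.Agent.TH115.GD
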