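import Pool.Agent.TH115.TC.Cob
import Pool.Agent.TH115.ID.Inv

/-!
The extension of an invariant class of `Gal(Ω / F)` with values in the points of order two to
`Gal(Ω / K)`.
-/

set_option autoImplicit false
set_option linter.all false

open WeierstrassCurve WeierstrassCurve.Affine Polynomial
open scoped Classical

namespace Pool.Agent.TH115.GD

open Pool.Agent.W309.TD (locConst_apply exists_root compare)

universe u

section roots

variable {K F Ω : Type u} [Field K] [Field F] [Field Ω] [Algebra K F] [Algebra F Ω] [Algebra K Ω]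
  [IsScalarTower K F Ω] {W : WeierstrassCurve K} {a b c : Ω}
  (hC : IsC (W.baseChange Ω).toAffine a b c) (hnr : ∀ x : F, cub W x ≠ 0)

/-- The cubic polynomial of `W`. -/
noncomputable def cubP (W : WeierstrassCurve K) (F : Type u) [Field F] [Algebra K F] : F[X] :=
  X ^ 3 + C (algebraMap K F W.a₂) * X ^ 2 + C (algebraMap K F W.a₄) * X + C (algebraMap K F W.a₆)

omit [Field Ω] [Algebra F Ω] [Algebra K Ω] [IsScalarTower K F Ω] in
theorem cubP_deg : (cubP W F).natDegree = 3 ∧ (cubP W F).Monic := by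
  have h1 : (cubP W F).natDegree = 3 := by
    unfold cubP
    compute_degree!
  refine ⟨h1, ?_⟩
  rw [Monic, leadingCoeff, h1]
  unfold cubP
  simp [coeff_X, coeff_C]

omit [Field Ω] [Algebra F Ω] [Algebra K Ω] [IsScalarTower K F Ω] in
theorem cubP_eval (x : F) : (cubP W F).eval x = cub W x := by
  simp [cubP, cub]

theorem cubP_aeval (x : Ω) : aeval x (cubP W F) = cub W x := by
  simp [cubP, cub, ← IsScalarTower.algebraMap_apply K F Ω]

include hnr

omit [Field Ω] [Algebra F Ω] [Algebra K Ω] [IsScalarTower K F Ω] in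
theorem cubP_irr : Irreducible (cubP W F) := by
  obtain ⟨h1, h3⟩ := cubP_deg (W := W) (F := F)
  rw [h3.irreducible_iff_roots_eq_zero_of_degree_le_three (by rw [h1]; norm_num) (by rw [h1])]
  rw [Multiset.eq_zero_iff_forall_notMem]
  intro x hx
  rw [mem_roots h3.ne_zero, IsRoot.def, cubP_eval] at hx
  exact hnr x hx

include hC

theorem trans_roots [Normal F Ω] (e : Ω) (he : e = a ∨ e = b ∨ e = c) :
    ∃ ρ : Ω ≃ₐ[F] Ω, ρ a = e := by
  have hirr := cubP_irr hnr
  obtain ⟨h1, h3⟩ := cubP_deg (W := W) (F := F)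
  have ra : aeval a (cubP W F) = 0 := by rw [cubP_aeval, hC.root_a]
  have re : aeval e (cubP W F) = 0 := by
    rw [cubP_aeval]
    rcases he with rfl | rfl | rfl
    · exact hC.root_a
    · exact hC.root_b
    · exact hC.root_c
  have m1 := minpoly.eq_of_irreducible_of_monic hirr ra h3
  have m3 := minpoly.eq_of_irreducible_of_monic hirr re h3
  have : IsConjRoot F e a := by
    rw [IsConjRoot, ← m1, ← m3]
  exact this.exists_algEquiv

variable [IsGalois F Ω]

/-- There is no point of order two over `F`. -/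
theorem no_two {R : Pt W Ω} (hR : R + R = 0) (hf : ∀ σ : Ω ≃ₐ[F] Ω, act W (rs K σ) R = R) :
    R = 0 := by
  have key : ∀ e : Ω, (e = a ∨ e = b ∨ e = c) → ∀ hn, R ≠ Point.some e 0 hn := by
    intro e he hn hRe
    have hfix : ∀ σ : Ω ≃ₐ[F] Ω, σ e = e := by
      intro σ
      have h1 := hf σ
      rw [hRe] at h1
      obtain ⟨h4, h5⟩ := act_some W (rs K σ) hn
      rw [h5] at h1
      exact (Point.some.inj h1).1
    obtain ⟨g, hg⟩ : e ∈ Set.range (algebraMap F Ω) := by
      rw [InfiniteGalois.mem_range_algebraMap_iff_fixed]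
      exact hfix
    apply hnr g
    apply (algebraMap F Ω).injective
    have h3 := cub_map W (incl K F Ω) g
    have h4 : (incl K F Ω) g = e := hg
    rw [h4] at h3
    rw [map_zero]
    have h5 : cub W e = 0 := by
      rcases he with rfl | rfl | rfl
      · exact hC.root_a
      · exact hC.root_b
      · exact hC.root_c
    rw [h5] at h3
    exact h3.symm
  rcases torC hC hR with ⟨h1, -⟩ | ⟨hn, h1, -⟩ | ⟨hn, h1, -⟩ | ⟨hn, h1, -⟩
  · exact h1
  · exact absurd h1 (key a (Or.inl rfl) hn)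
  · exact absurd h1 (key b (Or.inr (Or.inl rfl)) hn)
  · exact absurd h1 (key c (Or.inr (Or.inr rfl)) hn)

theorem no_pow (m : ℕ) : ∀ R : Pt W Ω, 2 ^ m • R = 0 →
    (∀ σ : Ω ≃ₐ[F] Ω, act W (rs K σ) R = R) → R = 0 := by
  induction m with
  | zero =>
    intro R h _
    rwa [pow_zero, one_smul] at h
  | succ m ih =>
    intro R h hf
    have h1 : 2 ^ m • (R + R) = 0 := by
      rw [← two_nsmul, smul_smul, ← pow_succ, h]
    have h3 := ih (R + R) h1 (fun σ => by rw [map_add, hf])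
    exact no_two hC hnr h3 hf

end roots

section ext

variable {K F Ω : Type u} [Field K] [Field F] [Field Ω] [Algebra K F] [Algebra F Ω] [Algebra K Ω]
  [IsScalarTower K F Ω] [IsGalois F Ω] [IsGalois K Ω] [IsSepClosed Ω] {W : WeierstrassCurve K}
  {a b c : Ω}
  (hC : IsC (W.baseChange Ω).toAffine a b c) (hnr : ∀ x : F, cub W x ≠ 0)
  (hN : Preserves K F Ω)

include hC

omit [IsGalois F Ω] [IsGalois K Ω] [IsSepClosed Ω] [Algebra K F] [Field F] [Algebra F Ω]
  [IsScalarTower K F Ω] in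
/-- An automorphism which fixes the roots fixes the points of order two. -/
theorem fix_two {φ : Ω →ₐ[K] Ω} (ha : φ a = a) (hb : φ b = b) {T : Pt W Ω} (hT : T + T = 0) :
    act W φ T = T := by
  refine sC_ext hC ((two_act W _ _).2 hT) hT ?_ ?_
  · have := sC_act' W φ a T
    rwa [ha] at this
  · have := sC_act' W φ b T
    rwa [hb] at this

include hnr hN

/-- The extension of the cocycle. -/
theorem ext_coc {f : (Ω ≃ₐ[F] Ω) → Pt W Ω} (hf : IsCoc W f) (hf2 : ∀ σ, f σ + f σ = 0)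
    (hi : InvOne W f) : ∃ g : (Ω ≃ₐ[K] Ω) → Pt W Ω, IsLocallyConstant g ∧
      (∀ σ τ, g (σ * τ) = g σ + act W (ak σ) (g τ)) ∧ (∀ τ, g τ + g τ = 0) ∧
      ∀ σ : Ω ≃ₐ[F] Ω, g (σ.restrictScalars K) = f σ := by
  -- the relation
  set Rel : (Ω ≃ₐ[K] Ω) → Pt W Ω → Prop := fun τ R => R + R = 0 ∧
    ∀ σ σ' : Ω ≃ₐ[F] Ω, (∀ x, τ (σ' x) = σ (τ x)) →
      act W (ak τ) (f σ') - f σ = act W (rs K σ) R - R with hRel
  have ex : ∀ τ, ∃ R, Rel τ R := by
    intro τ
    obtain ⟨R, ⟨m, hm⟩, hrel⟩ := hi τ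
    refine ⟨R, ?_, hrel⟩
    refine no_pow hC hnr m (R + R) ?_ ?_
    · rw [← two_nsmul, smul_comm, hm, smul_zero]
    · intro σ
      obtain ⟨σ', hσ'⟩ := exists_conj hN τ σ
      have h1 := hrel σ σ' hσ'
      have h3 : act W (ak τ) (f σ') + act W (ak τ) (f σ') = 0 := (two_act _ _ _).2 (hf2 σ')
      have h4 : (act W (rs K σ) R - R) + (act W (rs K σ) R - R) = 0 := by
        rw [← h1, sub_add_sub_comm, h3, hf2, sub_zero]
      rw [sub_add_sub_comm, ← map_add] at h4
      exact sub_eq_zero.1 h4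
  have uniq : ∀ τ R R', Rel τ R → Rel τ R' → R = R' := by
    rintro τ R R' ⟨h1, h3⟩ ⟨h4, h5⟩
    have : R - R' = 0 := by
      refine no_two hC hnr ?_ ?_
      · rw [sub_add_sub_comm, h1, h4, sub_zero]
      · intro σ
        obtain ⟨σ', hσ'⟩ := exists_conj hN τ σ
        have h6 := (h3 σ σ' hσ').symm.trans (h5 σ σ' hσ')
        rw [map_sub]
        have h7 : act W (rs K σ) R - act W (rs K σ) R' - (R - R') =
          (act W (rs K σ) R - R) - (act W (rs K σ) R' - R') := by abel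
        rw [← sub_eq_zero, h7, h6, sub_self]
    exact sub_eq_zero.1 this
  choose g hg using ex
  have hgmul : ∀ σ τ, g (σ * τ) = g σ + act W (ak σ) (g τ) := by
    intro τ1 τ2
    refine uniq (τ1 * τ2) _ _ (hg _) ⟨?_, fun σ σ'' h => ?_⟩
    · have h1 := (hg τ1).1
      have h3 : act W (ak τ1) (g τ2) + act W (ak τ1) (g τ2) = 0 :=
        (two_act _ _ _).2 (hg τ2).1
      rw [add_add_add_comm, h1, h3, add_zero]
    · obtain ⟨σ', hσ'⟩ := exists_conj hN τ1 σ
      have h1 : ∀ x, τ2 (σ'' x) = σ' (τ2 x) := by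
        intro x
        apply τ1.injective
        rw [hσ']
        exact h x
      have e1 := (hg τ2).2 σ' σ'' h1
      have e2 := (hg τ1).2 σ σ' hσ'
      have e3 : act W (ak (τ1 * τ2)) (f σ'') = act W (ak τ1) (act W (ak τ2) (f σ'')) := by
        rw [act_act]; rfl
      have e4 : act W (ak τ2) (f σ'') = f σ' + (act W (rs K σ') (g τ2) - g τ2) := by
        rw [← e1]; abel
      have e5 : act W (ak τ1) (f σ') = f σ + (act W (rs K σ) (g τ1) - g τ1) := by
        rw [← e2]; abel
      have e6 : act W (ak τ1) (act W (rs K σ') (g τ2)) =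
          act W (rs K σ) (act W (ak τ1) (g τ2)) := by
        have h5 : (ak τ1).comp (rs K σ') = (rs K σ).comp (ak τ1) := AlgHom.ext fun x => hσ' x
        rw [act_act, act_act, h5]
      rw [e3, e4, map_add, map_sub, e5, e6, map_add]
      abel
  have hgF : ∀ σ : Ω ≃ₐ[F] Ω, g (σ.restrictScalars K) = f σ := by
    intro σ0
    refine uniq _ _ _ (hg _) ⟨hf2 σ0, fun σ σ' h => ?_⟩
    have h1 : σ0 * σ' = σ * σ0 := AlgEquiv.ext fun x => h x
    have h3 := hf.mul σ0 σ'
    rw [h1, hf.mul] at h3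
    have h4 : act W (ak (σ0.restrictScalars K)) (f σ') = act W (rs K σ0) (f σ') := rfl
    rw [h4]
    have h5 : act W (rs K σ0) (f σ') = f σ + act W (rs K σ) (f σ0) - f σ0 := by
      rw [h3]; abel
    rw [h5]; abel
  refine ⟨g, ?_, hgmul, fun τ => (hg τ).1, hgF⟩
  -- continuity
  have f1 : f 1 = 0 := by
    have := hf.mul 1 1
    rw [mul_one] at this
    have e : act W (rs K (1 : Ω ≃ₐ[F] Ω)) (f 1) = f 1 := by
      have h1 : rs K (1 : Ω ≃ₐ[F] Ω) = AlgHom.id K Ω := AlgHom.ext fun x => rfl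
      rw [h1]
      rcases f 1 with _ | ⟨x, y, h⟩
      · exact act_zero _ _
      · obtain ⟨h4, h5⟩ := act_some W (AlgHom.id K Ω) h
        rw [h5]
        rfl
    rw [e] at this
    exact left_eq_add.1 this
  have hopen : {σ : Ω ≃ₐ[F] Ω | f σ = 0} ∈ nhds (1 : Ω ≃ₐ[F] Ω) :=
    (hf.lc.isOpen_fiber 0).mem_nhds f1
  obtain ⟨E, hE, hEs⟩ := (krullTopology_mem_nhds_one_iff F Ω _).1 hopen
  haveI : Algebra.IsSeparable F E := inferInstance
  obtain ⟨α, hα⟩ := Field.exists_primitive_element F E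
  have hgen : ∀ ρ : Ω ≃ₐ[F] Ω, ρ (α : Ω) = α → f ρ = 0 := by
    intro ρ hρ
    apply hEs
    show ρ ∈ E.fixingSubgroup
    rw [IntermediateField.mem_fixingSubgroup_iff]
    intro x hx
    have key : (ρ.toAlgHom.comp E.val) = E.val := by
      refine AlgHom.ext fun y => ?_
      have hy : y ∈ (⊤ : IntermediateField F E) := trivial
      rw [← hα] at hy
      refine IntermediateField.adjoin_induction F
        (p := fun y _ => (ρ.toAlgHom.comp E.val) y = E.val y) ?_ ?_ ?_ ?_ ?_ hy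
      · intro y hy
        rw [Set.mem_singleton_iff] at hy
        subst hy
        exact hρ
      · intro y
        rw [AlgHom.commutes, AlgHom.commutes]
      · intro x y _ _ hx hy
        rw [map_add, map_add, hx, hy]
      · intro x _ hx
        rw [map_inv₀, map_inv₀, hx]
      · intro x y _ _ hx hy
        rw [map_mul, map_mul, hx, hy]
    exact DFunLike.congr_fun key ⟨x, hx⟩
  -- the open subgroup
  set S : Finset Ω := ((minpoly K (α : Ω)).aroots Ω).toFinset with hS
  have hαint : IsIntegral K (α : Ω) := Algebra.IsIntegral.isIntegral _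
  have hSmem : ∀ σ : Ω ≃ₐ[F] Ω, σ (α : Ω) ∈ S := by
    intro σ
    rw [hS, Multiset.mem_toFinset, mem_aroots]
    refine ⟨minpoly.ne_zero hαint, ?_⟩
    have h1 : aeval (rs K σ (α : Ω)) (minpoly K (α : Ω)) = 0 := by
      rw [aeval_algHom_apply, minpoly.aeval, map_zero]
    exact h1
  set S' : Finset Ω := insert a (insert b S) with hS'
  have hUopen : IsOpen (⋂ x ∈ S', (MulAction.stabilizer (Ω ≃ₐ[K] Ω) x : Set (Ω ≃ₐ[K] Ω))) :=
    isOpen_biInter_finset fun x _ => stabilizer_isOpen_of_isIntegral (K := K) x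
  set U := ⋂ x ∈ S', (MulAction.stabilizer (Ω ≃ₐ[K] Ω) x : Set (Ω ≃ₐ[K] Ω)) with hU
  have hUmem : ∀ τ ∈ U, ∀ x ∈ S', τ x = x := by
    intro τ hτ x hx
    rw [hU, Set.mem_iInter₂] at hτ
    exact hτ x hx
  have hU0 : ∀ τ ∈ U, g τ = 0 := by
    intro τ hτ
    have hfx := hUmem τ hτ
    refine uniq τ _ _ (hg τ) ⟨add_zero 0, fun σ σ' h => ?_⟩
    rw [map_zero, sub_zero]
    have h1 : act W (ak τ) (f σ') = f σ' :=
      fix_two hC (hfx a (by simp [hS'])) (hfx b (by simp [hS'])) (hf2 σ')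
    have h3 : σ' (α : Ω) = σ (α : Ω) := by
      have h4 : τ (σ' (α : Ω)) = σ' (α : Ω) := hfx _ (by
        rw [hS', Finset.mem_insert, Finset.mem_insert]
        exact Or.inr (Or.inr (hSmem σ')))
      have h5 : τ (α : Ω) = α := by
        have := hSmem 1
        exact hfx _ (by
          rw [hS', Finset.mem_insert, Finset.mem_insert]
          exact Or.inr (Or.inr this))
      have h6 := h (α : Ω)
      rw [h4, h5] at h6
      exact h6
    have h4 : f (σ⁻¹ * σ') = 0 := hgen _ (by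
      rw [AlgEquiv.mul_apply, h3, ← AlgEquiv.mul_apply, inv_mul_cancel]
      rfl)
    have h5 := hf.mul σ (σ⁻¹ * σ')
    rw [h4, map_zero, add_zero] at h5
    have h6 : σ * (σ⁻¹ * σ') = σ' := by group
    rw [h6] at h5
    rw [h1, h5, sub_self]
  rw [IsLocallyConstant.iff_exists_open]
  intro τ
  refine ⟨(fun x => τ⁻¹ * x) ⁻¹' U, hUopen.preimage (continuous_const.mul continuous_id), ?_, ?_⟩
  · show τ⁻¹ * τ ∈ U
    rw [inv_mul_cancel, hU, Set.mem_iInter₂]
    intro x _
    exact (MulAction.stabilizer (Ω ≃ₐ[K] Ω) x).one_mem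
  · intro τ' hτ'
    have h1 : τ' = τ * (τ⁻¹ * τ') := by group
    rw [h1, hgmul, hU0 _ hτ', map_zero, add_zero]

end ext

end Pool.Agent.TH115.GD
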