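import Pool.Agent.TH115.TC.ParT2
import Pool.Agent.TH115.TC.Ext

/-!
Parity of the valuations for quadratic twists: the primes which divide the twist.
-/

set_option autoImplicit false
set_option linter.all false

open Polynomial IsDedekindDomain WeierstrassCurve WeierstrassCurve.Affine WithZero
open scoped Classical

namespace Pool.Agent.TH115.GD

section parity

variable {K L E : Type} [Field K] [Field L] [Field E] [Algebra K L] [Algebra K E]
  (wE : Valuation E (WithZero (Multiplicative ℤ))) (j : L →+* E)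
  (hjK : ∀ x : K, j (algebraMap K L x) = algebraMap K E x)

include hjK in
theorem parTw {a b c d : K} (h2 : wE (algebraMap K E a) ≤ 1) (h4 : wE (algebraMap K E b) ≤ 1)
    (hd : wE (algebraMap K E d) = exp (-1 : ℤ)) {θ : E} (hθ : cub (crvC a b c) θ = 0)
    (hθ1 : wE θ ≤ 1) (hsep : wE (cub' (crvC a b c) θ) = 1) {x y : L}
    (hxy : y ^ 2 = cub (crvC (d * a) (d ^ 2 * b) (d ^ 3 * c)) x)
    (hcase : wE (j x / algebraMap K E d) ≤ 1 → wE (j x / algebraMap K E d - θ) < 1) {D : E}
    (hD : (j x = algebraMap K E d * θ ∧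
        D = cub' (crvC (d * a) (d ^ 2 * b) (d ^ 3 * c)) (algebraMap K E d * θ)) ∨
      (j x ≠ algebraMap K E d * θ ∧ D = j x - algebraMap K E d * θ)) : IsSquare (wE D) := by
  have wn : ∀ n : ℕ, wE (n : E) ≤ 1 := fun n => by
    induction n with
    | zero => rw [Nat.cast_zero, map_zero]; exact zero_le
    | succ n ih =>
      rw [Nat.cast_succ]
      exact (Valuation.map_add _ _ _).trans (max_le ih (by rw [map_one]))
  set δ := algebraMap K E d with hδ
  have hδ0 : δ ≠ 0 := by
    intro h0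
    rw [h0, map_zero] at hd
    exact exp_ne_zero hd.symm
  set X := j x / δ with hX
  have hjx : j x = δ * X := by rw [hX, mul_div_cancel₀ _ hδ0]
  set q := X ^ 2 + (algebraMap K E a + θ) * X + (θ ^ 2 + algebraMap K E a * θ +
    algebraMap K E b) with hq
  have hθ' : θ ^ 3 + algebraMap K E a * θ ^ 2 + algebraMap K E b * θ + algebraMap K E c = 0 := hθ
  have hfac : (j y) ^ 2 = δ ^ 3 * ((X - θ) * q) := by
    have tw1 : cub (crvC (d * a) (d ^ 2 * b) (d ^ 3 * c)) (δ * X) = δ ^ 3 * cub (crvC a b c) X :=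
      cub_tw (L := E) a b c d X
    rw [← map_pow, hxy, ← cub_j _ j hjK, hjx, tw1]
    have e : cub (crvC a b c) X = X ^ 3 + algebraMap K E a * X ^ 2 + algebraMap K E b * X +
      algebraMap K E c := rfl
    rw [e, hq]
    linear_combination δ ^ 3 * hθ'
  rcases hD with ⟨h1, rfl⟩ | ⟨h1, rfl⟩
  · have tw3 : cub' (crvC (d * a) (d ^ 2 * b) (d ^ 3 * c)) (δ * θ) = δ ^ 2 * cub' (crvC a b c) θ :=
      cub'_tw (L := E) a b c d θ
    rw [tw3, map_mul, map_pow, hsep, mul_one, pow_two]
    exact ⟨_, rfl⟩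
  · have hne : X ≠ θ := fun h => h1 (by rw [hjx, h])
    have e1 : j x - δ * θ = δ * (X - θ) := by rw [hjx]; ring
    rw [e1, map_mul, hd]
    have h5 := congrArg wE hfac
    rw [map_pow, map_mul, map_mul, map_pow, hd] at h5
    rcases le_or_gt (wE X) 1 with hX1 | hX1
    · have h6 := hcase hX1
      have hqe : q = cub' (crvC a b c) θ + (X - θ) * (X + 2 * θ + algebraMap K E a) := by
        have e : cub' (crvC a b c) θ = 3 * θ ^ 2 + 2 * algebraMap K E a * θ + algebraMap K E b := rfl
        rw [e, hq]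
        ring
      have h7 : wE ((X - θ) * (X + 2 * θ + algebraMap K E a)) < wE (cub' (crvC a b c) θ) := by
        rw [hsep, map_mul]
        refine lt_of_le_of_lt (mul_le_of_le_one_right' ?_) h6
        refine (Valuation.map_add _ _ _).trans (max_le ((Valuation.map_add _ _ _).trans
          (max_le hX1 ?_)) h2)
        rw [map_mul]
        exact mul_le_one' (by exact_mod_cast wn 2) hθ1
      have h8 : wE q = 1 := by
        rw [hqe, Valuation.map_add_eq_of_lt_left wE h7, hsep]
      rw [h8, mul_one] at h5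
      refine ⟨wE (j y) * exp (1 : ℤ), ?_⟩
      have e3 : wE (j y) * exp (1 : ℤ) * (wE (j y) * exp (1 : ℤ)) =
          wE (j y) ^ 2 * (exp (1 : ℤ) * exp (1 : ℤ)) := by
        rw [pow_two]; exact mul_mul_mul_comm _ _ _ _
      rw [e3, h5, ← exp_nsmul, ← exp_add, mul_right_comm, ← exp_add]
      congr 1
    · have e3 : wE (X - θ) = wE X :=
        Valuation.map_sub_eq_of_lt_left wE (lt_of_le_of_lt hθ1 hX1)
      have hX0 : wE X ≠ 0 := fun h => by rw [h] at hX1; exact absurd hX1 (by simp)
      have hθ2 : wE (θ ^ 2) ≤ 1 := by rw [map_pow]; exact pow_le_one₀ zero_le hθ1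
      have hp1 : wE (algebraMap K E a + θ) ≤ 1 := (Valuation.map_add _ _ _).trans (max_le h2 hθ1)
      have hp2 : wE (θ ^ 2 + algebraMap K E a * θ + algebraMap K E b) ≤ 1 := by
        refine (Valuation.map_add _ _ _).trans (max_le ((Valuation.map_add _ _ _).trans
          (max_le hθ2 ?_)) h4)
        rw [map_mul]
        exact mul_le_one' h2 hθ1
      have e4 : wE q = wE X ^ 2 := by
        have h1 : wE ((algebraMap K E a + θ) * X + (θ ^ 2 + algebraMap K E a * θ +
            algebraMap K E b)) < wE (X ^ 2) := by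
          rw [map_pow]
          refine lt_of_le_of_lt (Valuation.map_add _ _ _) (max_lt ?_ ?_)
          · rw [map_mul, pow_two]
            refine lt_of_le_of_lt (mul_le_mul_left hp1 (wE X)) ?_
            rw [one_mul]
            exact lt_mul_of_one_lt_left (zero_lt_iff.2 hX0) hX1
          · refine lt_of_le_of_lt hp2 ?_
            rw [pow_two]
            exact lt_of_lt_of_le hX1 (le_mul_of_one_le_left' hX1.le)
        rw [hq, add_assoc, Valuation.map_add_eq_of_lt_left wE h1, map_pow]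
      rw [e3, e4] at h5
      rw [e3]
      refine ⟨wE (j y) * exp (1 : ℤ) / wE X, ?_⟩
      have e6 : wE (j y) * exp (1 : ℤ) / wE X * (wE (j y) * exp (1 : ℤ) / wE X) =
          wE (j y) ^ 2 * (exp (1 : ℤ) * exp (1 : ℤ)) / wE X ^ 2 := by
        rw [div_mul_div_comm, pow_two, pow_two]
        congr 1
        exact mul_mul_mul_comm _ _ _ _
      rw [e6, h5, eq_div_iff (pow_ne_zero 2 hX0), ← exp_nsmul, ← exp_add]
      have e7 : exp ((3 : ℕ) • (-1 : ℤ)) * (wE X * wE X ^ 2) * exp ((1 : ℤ) + 1) =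
          (exp ((3 : ℕ) • (-1 : ℤ)) * exp ((1 : ℤ) + 1)) * (wE X * wE X ^ 2) := by
        exact mul_right_comm _ _ _
      rw [e7, ← exp_add, mul_assoc]
      congr 1

end parity

section parD

variable {k k' K F M B : Type} [Field k] [Field k'] [Algebra k k'] [Field K] [Algebra k[X] K]
  [Field F] [Algebra k'[X] F] [IsFractionRing k'[X] F] [Algebra K F]
  [Field M] [Algebra F M] [Algebra K M] [IsScalarTower K F M] [Algebra M (Sep F)]
  [IsScalarTower F M (Sep F)]
  [CommRing B] [IsDedekindDomain B] [Algebra B M] [IsFractionRing B M] [Algebra k'[X] B]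
  [Algebra.IsIntegral k'[X] B] [Algebra k'[X] M] [IsScalarTower k'[X] F M]
  [IsScalarTower k'[X] B M] [Module.IsTorsionFree k'[X] B]

/-- The parity at one of the primes over a prime which divides the twist. -/
theorem parD (hKF : ∀ p : k[X], algebraMap K F (algebraMap k[X] K p) =
      algebraMap k'[X] F (p.map (algebraMap k k'))) {a2 a4 a6 D : k[X]}
    {a b c : Sep F} {θ z : M} {θB : B} (hθB : algebraMap B M θB = θ)
    (hθ : algebraMap M (Sep F) (algebraMap K M (algebraMap k[X] K D) * θ) = a)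
    (hC : IsC ((crvC (algebraMap k[X] K (D * a2)) (algebraMap k[X] K (D ^ 2 * a4))
      (algebraMap k[X] K (D ^ 3 * a6))).baseChange (Sep F)).toAffine a b c)
    (hnr : ∀ x : F, cub (crvC (algebraMap k[X] K (D * a2)) (algebraMap k[X] K (D ^ 2 * a4))
      (algebraMap k[X] K (D ^ 3 * a6))) x ≠ 0)
    (hθ0 : cub (crvC (algebraMap k[X] K a2) (algebraMap k[X] K a4) (algebraMap k[X] K a6)) θ = 0)
    {f : (Sep F ≃ₐ[F] Sep F) → Pt (crvC (algebraMap k[X] K (D * a2))
      (algebraMap k[X] K (D ^ 2 * a4)) (algebraMap k[X] K (D ^ 3 * a6))) (Sep F)}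
    (hf : IsCoc _ f) (hf2 : ∀ σ, f σ + f σ = 0)
    (hloc : LocallyTrivial k' _ f) {t : Sep F} (ht : t ≠ 0)
    (hz : t ^ 2 = algebraMap M (Sep F) z) (hk : ∀ σ : Sep F ≃ₐ[F] Sep F, σ a = a →
      σ t = sC a (f σ) * t) (v : HeightOneSpectrum k'[X])
    (hD : ∀ 𝔓 : HeightOneSpectrum B, 𝔓.under k'[X] = v →
      𝔓.valuation M (algebraMap K M (algebraMap k[X] K D)) = exp (-1 : ℤ) ∧
      𝔓.valuation M (cub' (crvC (algebraMap k[X] K a2) (algebraMap k[X] K a4)
        (algebraMap k[X] K a6)) θ) = 1) :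
    ∃ 𝔓 : HeightOneSpectrum B, 𝔓.under k'[X] = v ∧ IsSquare (𝔓.valuation M z) := by
  set W := crvC (algebraMap k[X] K (D * a2)) (algebraMap k[X] K (D ^ 2 * a4))
      (algebraMap k[X] K (D ^ 3 * a6)) with hW
  set W1 := crvC (algebraMap k[X] K a2) (algebraMap k[X] K a4) (algebraMap k[X] K a6) with hW1
  have eW : W = crvC (algebraMap k[X] K D * algebraMap k[X] K a2)
      (algebraMap k[X] K D ^ 2 * algebraMap k[X] K a4)
      (algebraMap k[X] K D ^ 3 * algebraMap k[X] K a6) := by
    rw [hW, map_mul, map_mul, map_mul, map_pow, map_pow]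
  obtain ⟨ι, P0, Q, hPt⟩ := exists_locPt (L := Comp k'[X] F v) (Ω' := Sep (Comp k'[X] F v)) W hf hf2
    (hloc.1 v)
  let vL : Valuation (Comp k'[X] F v) (WithZero (Multiplicative ℤ)) :=
    (Valued.v : Valuation (v.adicCompletion F) (WithZero (Multiplicative ℤ)))
  set dL : Comp k'[X] F v := algebraMap K (Comp k'[X] F v) (algebraMap k[X] K D) with hdL
  -- the analysis at a prime
  have main : ∀ 𝔓 : HeightOneSpectrum B, 𝔓.under k'[X] = v →
      (∀ (x y : Comp k'[X] F v) (h : (W.baseChange (Comp k'[X] F v)).toAffine.Nonsingular x y),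
        Q = Point.some x y h → vL (x / dL) ≤ 1 → vL (cub W1 (x / dL)) < 1 →
        ∃ p : k'[X], vL (x / dL - algebraMap F (Comp k'[X] F v)
          (algebraMap k'[X] F p)) < 1 ∧ θB - algebraMap k'[X] B p ∈ 𝔓.asIdeal) →
      IsSquare (𝔓.valuation M z) := by
    rintro 𝔓 rfl hcond
    obtain ⟨hD1, hD2⟩ := hD 𝔓 rfl
    haveI hlo : 𝔓.asIdeal.LiesOver (𝔓.under k'[X]).asIdeal := ⟨rfl⟩
    have hval : ∀ x : F, (𝔓.under k'[X]).valuation F x ^
        (𝔓.under k'[X]).asIdeal.ramificationIdx' 𝔓.asIdeal =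
        𝔓.valuation M (algebraMap F M x) := fun x =>
      HeightOneSpectrum.valuation_liesOver (A := k'[X]) M (𝔓.under k'[X]) 𝔓 x
    have he : (𝔓.under k'[X]).asIdeal.ramificationIdx' 𝔓.asIdeal ≠ 0 :=
      Ideal.IsDedekindDomain.ramificationIdx'_ne_zero_of_liesOver 𝔓.asIdeal (𝔓.under k'[X]).ne_bot
    obtain ⟨j, hj1, hj2, hj3⟩ := exists_compl_map (𝔓.under k'[X]) 𝔓 (algebraMap F M)
      (fun x hx => by rw [← hval]; exact pow_le_one₀ zero_le hx)
      (fun x hx => by rw [← hval]; exact pow_lt_one₀ zero_le hx he)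
    haveI : IsScalarTower K F (Comp B M 𝔓) := IsScalarTower.of_algebraMap_eq fun x => by
      show algebraMap M (Comp B M 𝔓) (algebraMap K M x) =
        algebraMap M (Comp B M 𝔓) (algebraMap F M (algebraMap K F x))
      rw [← IsScalarTower.algebraMap_apply K F M]
    let j' : Comp k'[X] F (𝔓.under k'[X]) →+* Comp B M 𝔓 := j
    have hj' : ∀ x : F, j' (algebraMap F (Comp k'[X] F (𝔓.under k'[X])) x) =
        algebraMap F (Comp B M 𝔓) x := fun x => hj1 x
    have hjK : ∀ x : K, j' (algebraMap K (Comp k'[X] F (𝔓.under k'[X])) x) =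
        algebraMap K (Comp B M 𝔓) x := fun x => by
      rw [IsScalarTower.algebraMap_apply K F (Comp k'[X] F (𝔓.under k'[X])), hj',
        ← IsScalarTower.algebraMap_apply K F (Comp B M 𝔓)]
    obtain ⟨g, D0, hg, hzD, hcase⟩ := locQ (K := K) (F := F) (Ω := Sep F)
      (L := Comp k'[X] F (𝔓.under k'[X])) (Ω' := Sep (Comp k'[X] F (𝔓.under k'[X])))
      (E := Comp B M 𝔓) (M := M) W (Sep (Comp B M 𝔓)) hC hθ j' hj' hf hf2 hPt ht hz hk
    let wE : Valuation (Comp B M 𝔓) (WithZero (Multiplicative ℤ)) :=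
      (Valued.v : Valuation (𝔓.adicCompletion M) (WithZero (Multiplicative ℤ)))
    have wz : ∀ x : M, wE (algebraMap M (Comp B M 𝔓) x) = 𝔓.valuation M x := fun x =>
      HeightOneSpectrum.valuedAdicCompletion_eq_valuation' 𝔓 x
    rw [← wz]
    refine isSquare_mul_sq wE hzD ?_
    rcases hcase with ⟨-, rfl⟩ | ⟨x, y, hns, hQ, hxy, hcase⟩
    · rw [map_one]; exact ⟨1, (mul_one 1).symm⟩
    have ed : algebraMap K (Comp B M 𝔓) (algebraMap k[X] K D) =
        algebraMap M (Comp B M 𝔓) (algebraMap K M (algebraMap k[X] K D)) := rfl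
    have hwd : wE (algebraMap K (Comp B M 𝔓) (algebraMap k[X] K D)) = exp (-1 : ℤ) := by
      rw [ed, wz, hD1]
    have eθ : algebraMap M (Comp B M 𝔓) (algebraMap K M (algebraMap k[X] K D) * θ) =
        algebraMap K (Comp B M 𝔓) (algebraMap k[X] K D) * algebraMap M (Comp B M 𝔓) θ := by
      rw [map_mul, ed]
    rw [eθ] at hcase
    have eKM : ∀ p : k[X], algebraMap K M (algebraMap k[X] K p) =
        algebraMap B M (algebraMap k'[X] B (p.map (algebraMap k k'))) := fun p => by
      rw [IsScalarTower.algebraMap_apply K F M, hKF, ← IsScalarTower.algebraMap_apply k'[X] F M,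
        IsScalarTower.algebraMap_apply k'[X] B M]
    have v1 : ∀ p : k[X], wE (algebraMap K (Comp B M 𝔓) (algebraMap k[X] K p)) ≤ 1 := fun p => by
      have e : algebraMap K (Comp B M 𝔓) (algebraMap k[X] K p) =
        algebraMap M (Comp B M 𝔓) (algebraMap K M (algebraMap k[X] K p)) := rfl
      rw [e, wz, eKM]; exact 𝔓.valuation_le_one _
    have hθ1 : wE (algebraMap M (Comp B M 𝔓) θ) ≤ 1 := by
      rw [wz, ← hθB]; exact 𝔓.valuation_le_one _
    have hcE : cub W1 (algebraMap M (Comp B M 𝔓) θ) = 0 := by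
      have h1 : cub W1 (algebraMap M (Comp B M 𝔓) θ) = algebraMap M (Comp B M 𝔓) (cub W1 θ) := by
        simp only [cub, map_add, map_mul, map_pow]
        rfl
      rw [h1, hθ0, map_zero]
    have hcE' : wE (cub' W1 (algebraMap M (Comp B M 𝔓) θ)) = 1 := by
      have h1 : cub' W1 (algebraMap M (Comp B M 𝔓) θ) =
          algebraMap M (Comp B M 𝔓) (cub' W1 θ) := by
        simp only [cub', map_add, map_mul, map_pow, map_ofNat]
        rfl
      rw [h1, wz, hD2]
    have hd0 : algebraMap K (Comp B M 𝔓) (algebraMap k[X] K D) ≠ 0 := by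
      intro h0
      rw [h0, map_zero] at hwd
      exact exp_ne_zero hwd.symm
    have hdL0 : dL ≠ 0 := by
      intro h0
      apply hd0
      rw [← hjK]
      show j' dL = 0
      rw [h0, map_zero]
    have exd : j' x / algebraMap K (Comp B M 𝔓) (algebraMap k[X] K D) = j' (x / dL) := by
      rw [map_div₀, hdL, hjK]
    rw [eW] at hxy hcase
    refine parTw wE j' hjK (v1 a2) (v1 a4) hwd hcE hθ1 hcE' hxy ?_ hcase
    intro hX1
    rw [exd] at hX1 ⊢
    have hx1 : vL (x / dL) ≤ 1 := le_of_j vL wE j' hj3 hX1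
    have hcub : vL (cub W1 (x / dL)) < 1 := by
      have hle : vL (cub W1 (x / dL)) ≤ 1 := by
        apply le_of_j vL wE j' hj3
        rw [← cub_j W1 j' hjK]
        have e : cub W1 (j' (x / dL)) = j' (x / dL) ^ 3 +
          algebraMap K (Comp B M 𝔓) (algebraMap k[X] K a2) * j' (x / dL) ^ 2 +
          algebraMap K (Comp B M 𝔓) (algebraMap k[X] K a4) * j' (x / dL) +
          algebraMap K (Comp B M 𝔓) (algebraMap k[X] K a6) := rfl
        rw [e]
        refine (Valuation.map_add _ _ _).trans (max_le ((Valuation.map_add _ _ _).trans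
          (max_le ((Valuation.map_add _ _ _).trans (max_le ?_ ?_)) ?_)) (v1 a6))
        · rw [map_pow]; exact pow_le_one₀ zero_le hX1
        · rw [map_mul, map_pow]; exact mul_le_one' (v1 a2) (pow_le_one₀ zero_le hX1)
        · rw [map_mul]; exact mul_le_one' (v1 a4) hX1
      rcases hle.lt_or_eq with h1 | h1
      · exact h1
      · exfalso
        have hw : wE (j' (cub W1 (x / dL))) = 1 := by
          refine le_antisymm (hj2 _ h1.le) ?_
          have h3 : vL (cub W1 (x / dL))⁻¹ ≤ 1 := by rw [map_inv₀, h1, inv_one]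
          have h5 := hj2 _ h3
          have h5' : wE (j' (cub W1 (x / dL))⁻¹) ≤ 1 := h5
          rw [map_inv₀, map_inv₀] at h5'
          have hne : wE (j' (cub W1 (x / dL))) ≠ 0 := by
            rw [Valuation.ne_zero_iff, _root_.map_ne_zero]
            intro h0
            rw [h0, map_zero] at h1
            exact zero_ne_one h1
          exact (inv_le_one₀ (zero_lt_iff.2 hne)).1 h5'
        have h3 : y ^ 2 = dL ^ 3 * cub W1 (x / dL) := by
          rw [hxy]
          have e := cub_tw (L := Comp k'[X] F (𝔓.under k'[X])) (algebraMap k[X] K a2)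
            (algebraMap k[X] K a4) (algebraMap k[X] K a6) (algebraMap k[X] K D) (x / dL)
          rw [← hdL, mul_div_cancel₀ x hdL0] at e
          exact e
        have h5 := congrArg (fun s => wE (j' s)) h3
        simp only [map_pow, map_mul] at h5
        rw [hw, mul_one, hdL, hjK, hwd] at h5
        have hy0 : wE (j' y) ≠ 0 := by
          intro h0
          rw [h0, zero_pow two_ne_zero] at h5
          exact pow_ne_zero 3 exp_ne_zero h5.symm
        rw [← exp_log hy0, ← exp_nsmul, ← exp_nsmul, exp_inj] at h5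
        simp only [nsmul_eq_mul] at h5
        push_cast at h5
        omega
    obtain ⟨p, hp1, hp2⟩ := hcond x y hns hQ hx1 hcub
    have e1 : j' (x / dL) - algebraMap M (Comp B M 𝔓) θ =
        j' (x / dL - algebraMap F (Comp k'[X] F (𝔓.under k'[X])) (algebraMap k'[X] F p)) -
        algebraMap M (Comp B M 𝔓) (algebraMap B M (θB - algebraMap k'[X] B p)) := by
      rw [map_sub j', hj', map_sub (algebraMap B M), map_sub (algebraMap M (Comp B M 𝔓)), hθB,
        ← IsScalarTower.algebraMap_apply k'[X] B M, IsScalarTower.algebraMap_apply k'[X] F M]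
      have e3 : algebraMap F (Comp B M 𝔓) (algebraMap k'[X] F p) =
          algebraMap M (Comp B M 𝔓) (algebraMap F M (algebraMap k'[X] F p)) := rfl
      rw [e3]
      ring
    rw [e1]
    refine lt_of_le_of_lt (Valuation.map_sub _ _ _) (max_lt ?_ ?_)
    · exact hj3 _ hp1
    · rw [wz, 𝔓.valuation_of_algebraMap, HeightOneSpectrum.intValuation_lt_one_iff_mem]
      exact hp2
  by_cases hsp : ∃ (x y : Comp k'[X] F v)
      (h : (W.baseChange (Comp k'[X] F v)).toAffine.Nonsingular x y),
        Q = Point.some x y h ∧ vL (x / dL) ≤ 1 ∧ vL (cub W1 (x / dL)) < 1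
  · obtain ⟨x, y, hns, hQ, hx1, hx2⟩ := hsp
    obtain ⟨p, hp⟩ : ∃ p : k'[X], vL (x / dL - algebraMap F (Comp k'[X] F v)
        (algebraMap k'[X] F p)) ≤ exp (-2 : ℤ) := by
      have hx' : (Valued.v (R := v.adicCompletion F) (Γ₀ := WithZero (Multiplicative ℤ)))
        (x / dL) ≤ 1 := hx1
      obtain ⟨p, hp⟩ := approx v (x / dL) hx'
      exact ⟨p, hp⟩
    have two : exp (-2 : ℤ) < (1 : WithZero (Multiplicative ℤ)) := by
      rw [← exp_zero, exp_lt_exp]; norm_num
    have hp1 := lt_of_le_of_lt hp two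
    have vx : ∀ x : F, vL (algebraMap F (Comp k'[X] F v) x) = v.valuation F x := fun x =>
      HeightOneSpectrum.valuedAdicCompletion_eq_valuation' v x
    have vi : ∀ p : k'[X], vL (algebraMap F (Comp k'[X] F v) (algebraMap k'[X] F p)) =
        v.intValuation p := fun p => by
      rw [vx, v.valuation_of_algebraMap]
    have eK : ∀ p : k[X], algebraMap K (Comp k'[X] F v) (algebraMap k[X] K p) =
        algebraMap F (Comp k'[X] F v) (algebraMap k'[X] F (p.map (algebraMap k k'))) := fun p => by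
      rw [IsScalarTower.algebraMap_apply K F (Comp k'[X] F v), hKF]
    have vi1 : ∀ p : k[X], vL (algebraMap K (Comp k'[X] F v) (algebraMap k[X] K p)) ≤ 1 :=
      fun p => by rw [eK, vi]; exact v.intValuation_le_one _
    set s := x / dL with hs
    set y' := algebraMap F (Comp k'[X] F v) (algebraMap k'[X] F p) with hy'
    have wy : vL y' ≤ 1 := by rw [hy', vi]; exact v.intValuation_le_one _
    set fp : k'[X] := p ^ 3 + a2.map (algebraMap k k') * p ^ 2 + a4.map (algebraMap k k') * p +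
      a6.map (algebraMap k k') with hfp
    have ad : ∀ {s t : (Comp k'[X] F v)}, vL s ≤ 1 → vL t ≤ 1 → vL (s + t) ≤ 1 := fun hs ht =>
      (Valuation.map_add _ _ _).trans (max_le hs ht)
    have mu : ∀ {s t : (Comp k'[X] F v)}, vL s ≤ 1 → vL t ≤ 1 → vL (s * t) ≤ 1 := fun hs ht => by
      rw [map_mul]; exact mul_le_one' hs ht
    have c1 : vL (cub W1 y') < 1 := by
      have e : cub W1 y' = cub W1 s - (s - y') * (s * s + s * y' + y' * y' +
          algebraMap K (Comp k'[X] F v) (algebraMap k[X] K a2) * (s + y') +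
          algebraMap K (Comp k'[X] F v) (algebraMap k[X] K a4)) := by
        simp only [cub, hW1, crvC]
        ring
      rw [e]
      refine lt_of_le_of_lt (Valuation.map_sub _ _ _) (max_lt hx2 ?_)
      rw [map_mul]
      refine lt_of_le_of_lt (mul_le_of_le_one_right' ?_) hp1
      exact ad (ad (ad (ad (mu hx1 hx1) (mu hx1 wy)) (mu wy wy)) (mu (vi1 a2) (ad hx1 wy)))
        (vi1 a4)
    have e1 : cub W1 y' = algebraMap F (Comp k'[X] F v) (algebraMap k'[X] F fp) := by
      simp only [cub, hW1, crvC, hfp, map_add, map_mul, map_pow, ← eK]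
      rfl
    have hfv : fp ∈ v.asIdeal := by
      rw [e1, vi] at c1
      rwa [HeightOneSpectrum.intValuation_lt_one_iff_mem] at c1
    -- the roots
    set dΩ : Sep F := algebraMap K (Sep F) (algebraMap k[X] K D) with hdΩ
    have hdM : algebraMap M (Sep F) (algebraMap K M (algebraMap k[X] K D)) = dΩ := by
      rw [IsScalarTower.algebraMap_apply K F M, ← IsScalarTower.algebraMap_apply F M (Sep F),
        ← IsScalarTower.algebraMap_apply K F (Sep F)]
    have hD0 : algebraMap k[X] K D ≠ 0 := by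
      intro h0
      obtain ⟨𝔓, h𝔓⟩ := exists_over (B := B) v
      have := (hD 𝔓 h𝔓).1
      rw [h0, map_zero, map_zero] at this
      exact exp_ne_zero this.symm
    have hdΩ0 : dΩ ≠ 0 := (_root_.map_ne_zero _).2 hD0
    have hda : dΩ * algebraMap M (Sep F) θ = a := by rw [← hdM, ← map_mul, hθ]
    have htr := fun e he => trans_roots (F := F) hC hnr e he
    have hρd : ∀ ρ : Sep F ≃ₐ[F] Sep F, ρ dΩ = dΩ := by
      intro ρ
      rw [hdΩ, IsScalarTower.algebraMap_apply K F (Sep F)]
      exact ρ.commutes _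
    obtain ⟨𝔓, h𝔓1, h𝔓2⟩ := exists_special (M := M) (B := B) (a1 := a / dΩ) (e1 := a / dΩ)
      (e2 := b / dΩ) (e3 := c / dΩ) (θ := θB) (by
        rw [hθB, ← hda, mul_div_cancel_left₀ _ hdΩ0]) (by
        rintro e (rfl | rfl | rfl)
        · exact ⟨AlgEquiv.refl, rfl⟩
        · obtain ⟨ρ, hρ⟩ := htr b (Or.inr (Or.inl rfl))
          exact ⟨ρ, by rw [map_div₀, hρ, hρd]⟩
        · obtain ⟨ρ, hρ⟩ := htr c (Or.inr (Or.inr rfl))
          exact ⟨ρ, by rw [map_div₀, hρ, hρd]⟩) v (p := p) (fp := fp) (by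
        set PΩ := algebraMap F (Sep F) (algebraMap k'[X] F p) with hPΩ
        have h1 : cub W (dΩ * PΩ) = (dΩ * PΩ - a) * (dΩ * PΩ - b) * (dΩ * PΩ - c) :=
          hC.cub_eq _
        have h3 : cub W (dΩ * PΩ) = dΩ ^ 3 * cub W1 PΩ := by
          rw [eW]
          exact cub_tw (L := Sep F) (algebraMap k[X] K a2)
            (algebraMap k[X] K a4) (algebraMap k[X] K a6) (algebraMap k[X] K D) PΩ
        have eKΩ : ∀ p : k[X], algebraMap K (Sep F) (algebraMap k[X] K p) =
            algebraMap F (Sep F) (algebraMap k'[X] F (p.map (algebraMap k k'))) := fun p => by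
          rw [IsScalarTower.algebraMap_apply K F (Sep F), hKF]
        have h5 : cub W1 PΩ = algebraMap F (Sep F) (algebraMap k'[X] F fp) := by
          simp only [cub, hW1, crvC, hfp, map_add, map_mul, map_pow, ← eKΩ]
          rfl
        rw [← h5]
        rw [h3] at h1
        have h7 : dΩ ^ 3 ≠ 0 := pow_ne_zero 3 hdΩ0
        apply mul_left_cancel₀ h7
        rw [h1]
        field_simp) hfv
    refine ⟨𝔓, h𝔓1, main 𝔓 h𝔓1 fun x1 y1 hns1 hQ1 _ _ => ?_⟩
    rw [hQ] at hQ1
    obtain ⟨rfl, rfl⟩ := (Point.some.injEq _ _ _ _ _ _).mp hQ1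
    exact ⟨p, hp1, h𝔓2⟩
  · obtain ⟨𝔓, h𝔓⟩ := exists_over (B := B) v
    refine ⟨𝔓, h𝔓, main 𝔓 h𝔓 fun x y hns hQ h1 h3 => ?_⟩
    exact absurd ⟨x, y, hns, hQ, h1, h3⟩ hsp

end parD

end Pool.Agent.TH115.GD
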