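import Pool.Agent.TH115.TC.Crit
import Pool.Agent.TH115.TC.ParT3

/-!
The criterion for quadratic twists.
-/

set_option autoImplicit false
set_option linter.all false

open Polynomial IsDedekindDomain WeierstrassCurve WeierstrassCurve.Affine WithZero
open scoped Classical

namespace Pool.Agent.TH115.GD

section crit

variable {k k' K F N M R B : Type} [Field k] [Field k'] [Algebra k k'] [Field K] [Algebra k[X] K]
  [Field F] [Algebra k'[X] F] [IsFractionRing k'[X] F] [Algebra K F]
  [Field N] [Algebra K N] [Algebra N (Sep F)] [IsScalarTower K N (Sep F)]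
  [Field M] [Algebra F M] [Algebra K M] [IsScalarTower K F M] [Algebra M (Sep F)]
  [IsScalarTower F M (Sep F)]
  [Algebra N M] [IsScalarTower N M (Sep F)]
  [Algebra k N] [Algebra k' M] [Algebra k M] [IsScalarTower k k' M] [IsScalarTower k N M]
  [CommRing R] [IsDedekindDomain R] [Algebra R N] [IsFractionRing R N]
  [CommRing B] [IsDedekindDomain B] [Algebra B M] [IsFractionRing B M]
  [Algebra R B] [Algebra R M] [IsScalarTower R N M] [IsScalarTower R B M]
  [Algebra.IsIntegral R B] [Module.IsTorsionFree R B] [Algebra k' B] [IsScalarTower k' B M]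
  [Algebra k'[X] B] [Algebra.IsIntegral k'[X] B] [Algebra k'[X] M] [IsScalarTower k'[X] F M]
  [IsScalarTower k'[X] B M] [Module.IsTorsionFree k'[X] B]

variable (B)

include B

/-- The first layer of a Tate class of the twist is given by an element of `N` with even
valuations. -/
theorem layerT (hT : IsTower k k' K F) {a2 a4 a6 D : k[X]} (hS : SmoothC a2 a4 a6)
    (hnr : ∀ x : F, cub (crvC (algebraMap k[X] K (D * a2)) (algebraMap k[X] K (D ^ 2 * a4))
      (algebraMap k[X] K (D ^ 3 * a6))) x ≠ 0)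
    {a b c : Sep F} (hC : IsC ((crvC (algebraMap k[X] K (D * a2)) (algebraMap k[X] K (D ^ 2 * a4))
      (algebraMap k[X] K (D ^ 3 * a6))).baseChange (Sep F)).toAffine a b c)
    {θ : N} (hθ0 : cub (crvC (algebraMap k[X] K a2) (algebraMap k[X] K a4)
      (algebraMap k[X] K a6)) θ = 0)
    (hθ : algebraMap N (Sep F) (algebraMap K N (algebraMap k[X] K D) * θ) = a)
    (hNtop : IntermediateField.adjoin K {algebraMap K N (algebraMap k[X] K D) * θ} = ⊤)
    (htop : IntermediateField.adjoin N (Set.range (algebraMap k' M)) = ⊤)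
    {θR DR : R} (hθR : algebraMap R N θR = θ)
    (hDR : algebraMap R N DR = algebraMap K N (algebraMap k[X] K D))
    (hD : ∀ P : HeightOneSpectrum R, DR ∈ P.asIdeal → P.intValuation DR = exp (-1 : ℤ) ∧
      P.valuation N (cub' (crvC (algebraMap k[X] K a2) (algebraMap k[X] K a4)
      (algebraMap k[X] K a6)) θ) = 1 ∧
      ∀ 𝔓 𝔓' : HeightOneSpectrum B, 𝔓.under R = P → 𝔓'.under k'[X] = 𝔓.under k'[X] →
        𝔓'.under R = P)
    {e : ℕ → (Sep F ≃ₐ[F] Sep F) → Pt (crvC (algebraMap k[X] K (D * a2)) (algebraMap k[X] K (D ^ 2 * a4))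
      (algebraMap k[X] K (D ^ 3 * a6))) (Sep F)} (he : IsTateClass k' _ e)
    :
    ∃ (t : Sep F) (z : N), t ≠ 0 ∧ z ≠ 0 ∧ t ^ 2 = algebraMap N (Sep F) z ∧
      (∀ σ : Sep F ≃ₐ[F] Sep F, σ a = a → σ t = sC a (e 1 σ) * t) ∧
      ∀ v : HeightOneSpectrum R, IsSquare (v.valuation N z) := by
  haveI := hT.sep
  haveI := hT.fracK
  haveI : IsGalois k k' := inferInstance
  have hKF := hT.map
  haveI : IsSepClosure K (Sep F) := sepKΩ hKF
  haveI : Algebra.IsSeparable K (Sep F) := IsSepClosure.separable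
  haveI : IsGalois K (Sep F) := inferInstance
  have hf2 : ∀ σ, e 1 σ + e 1 σ = 0 := fun σ => by
    rw [← two_nsmul, he.tc.two 0 σ, he.tc.zero]
  obtain ⟨g, hg, hmul, hg2, hgF⟩ := ext_coc hC hnr (preserves hKF) (he.tc.coc 1) hf2 (inv_one he)
  obtain ⟨t, z, ht, hz, hk⟩ := kummerN hC hθ hNtop hg hmul hg2
  have hz0 : z ≠ 0 := by
    rintro rfl
    rw [map_zero] at hz
    exact pow_ne_zero 2 ht hz
  have hkF : ∀ σ : Sep F ≃ₐ[F] Sep F, σ a = a → σ t = sC a (e 1 σ) * t := by
    intro σ hσ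
    have h1 := hk (σ.restrictScalars K) hσ
    rw [hgF] at h1
    exact h1
  have hKM : ∀ x : K, algebraMap N M (algebraMap K N x) = algebraMap K M x := by
    intro x
    apply (algebraMap M (Sep F)).injective
    rw [← IsScalarTower.algebraMap_apply N M (Sep F), ← IsScalarTower.algebraMap_apply K N (Sep F),
      IsScalarTower.algebraMap_apply K F M, ← IsScalarTower.algebraMap_apply F M (Sep F),
      ← IsScalarTower.algebraMap_apply K F (Sep F)]
  have hzM : t ^ 2 = algebraMap M (Sep F) (algebraMap N M z) := by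
    rw [← IsScalarTower.algebraMap_apply N M (Sep F), hz]
  have hθM : algebraMap M (Sep F) (algebraMap K M (algebraMap k[X] K D) * algebraMap N M θ) =
      a := by
    rw [← hKM, ← map_mul, ← IsScalarTower.algebraMap_apply N M (Sep F), hθ]
  refine ⟨t, z, ht, hz0, hz, hkF, fun P => ?_⟩
  obtain ⟨𝔓0, h𝔓0⟩ := exists_over (B := B) P
  by_cases hDP : DR ∈ P.asIdeal
  · obtain ⟨hD1, hD2, hD3⟩ := hD P hDP
    have hvalP : ∀ 𝔓 : HeightOneSpectrum B, 𝔓.under k'[X] = 𝔓0.under k'[X] → ∀ x : N,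
        𝔓.valuation M (algebraMap N M x) = P.valuation N x := by
      intro 𝔓 h𝔓 x
      have h1 := hD3 𝔓0 𝔓 h𝔓0 h𝔓
      rw [val_unram k (R := R) htop 𝔓 x, h1]
    have hcubM : cub (crvC (algebraMap k[X] K a2) (algebraMap k[X] K a4)
      (algebraMap k[X] K a6)) (algebraMap N M θ) = 0 := by
      have h1 : cub (crvC (algebraMap k[X] K a2) (algebraMap k[X] K a4)
      (algebraMap k[X] K a6)) (algebraMap N M θ) = algebraMap N M (cub (crvC (algebraMap k[X] K a2) (algebraMap k[X] K a4)
      (algebraMap k[X] K a6)) θ) := by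
        simp only [cub, map_add, map_mul, map_pow, hKM]
      rw [h1, hθ0, map_zero]
    have hcubM' : cub' (crvC (algebraMap k[X] K a2) (algebraMap k[X] K a4)
      (algebraMap k[X] K a6)) (algebraMap N M θ) = algebraMap N M (cub' (crvC (algebraMap k[X] K a2) (algebraMap k[X] K a4)
      (algebraMap k[X] K a6)) θ) := by
      simp only [cub', map_add, map_mul, map_pow, hKM, map_ofNat]
    obtain ⟨𝔓, h𝔓, hsq⟩ := parD (B := B) hKF (a2 := a2) (a4 := a4) (a6 := a6) (D := D)
      (θ := algebraMap N M θ) (θB := algebraMap R B θR) (by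
        rw [← IsScalarTower.algebraMap_apply R B M, IsScalarTower.algebraMap_apply R N M, hθR])
      hθM hC hnr hcubM (he.tc.coc 1) hf2 (he.loc 1) ht hzM hkF (𝔓0.under k'[X])
      (fun 𝔓 h𝔓 => ⟨by
        rw [← hKM, hvalP 𝔓 h𝔓, ← hDR, P.valuation_of_algebraMap, hD1], by
        rw [hcubM', hvalP 𝔓 h𝔓, hD2]⟩)
    rw [← hvalP 𝔓 h𝔓]
    exact hsq
  · rw [← h𝔓0, ← val_unram k (R := R) htop 𝔓0]
    refine parM' hKF hθM hC (he.tc.coc 1) hf2 (he.loc 1) ht hzM hkF 𝔓0 ?_
    refine locSm_tw hKF hS _ ?_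
    intro h1
    apply hDP
    rw [← h𝔓0]
    show algebraMap R B DR ∈ 𝔓0.asIdeal
    have h3 : algebraMap R B DR = algebraMap k'[X] B (D.map (algebraMap k k')) := by
      apply IsFractionRing.injective B M
      rw [← IsScalarTower.algebraMap_apply R B M, IsScalarTower.algebraMap_apply R N M, hDR, hKM,
        IsScalarTower.algebraMap_apply K F M, hKF, ← IsScalarTower.algebraMap_apply k'[X] F M,
        IsScalarTower.algebraMap_apply k'[X] B M]
    rw [h3]
    exact h1

end crit

end Pool.Agent.TH115.GD
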