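import Pool.Agent.TH115.TC.CritT

/-!
The criterion for quadratic twists.
-/

set_option autoImplicit false
set_option linter.all false

open Polynomial IsDedekindDomain WeierstrassCurve WeierstrassCurve.Affine WithZero
open scoped Classical

namespace Pool.Agent.TH115.GD

section crit

variable {k k' K F N : Type} [Field k] [Field k'] [Algebra k k'] [Field K] [Algebra k[X] K]
  [Field F] [Algebra k'[X] F] [IsFractionRing k'[X] F] [Algebra K F]
  [Field N] [Algebra K N] [Algebra N (Sep F)] [IsScalarTower K N (Sep F)] [Algebra k N]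

/-- **The criterion** for the Tate conjecture at 2, with the fields and rings as parameters. -/
theorem critL (hT : IsTower k k' K F) (h2 : (2 : k) ≠ 0) {a2 a4 a6 : k[X]}
    (hΔ : (crvC (algebraMap k[X] K a2) (algebraMap k[X] K a4) (algebraMap k[X] K a6)).Δ ≠ 0)
    (hnr : ∀ x : F, cub (crvC (algebraMap k[X] K a2) (algebraMap k[X] K a4)
      (algebraMap k[X] K a6)) x ≠ 0)
    {a b c : Sep F} (hC : IsC ((crvC (algebraMap k[X] K a2) (algebraMap k[X] K a4)
      (algebraMap k[X] K a6)).baseChange (Sep F)).toAffine a b c)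
    {θ : N} (hθ : algebraMap N (Sep F) θ = a) (hNtop : IntermediateField.adjoin K {θ} = ⊤)
    (hkN : ∀ x : k, algebraMap N (Sep F) (algebraMap k N x) =
      algebraMap F (Sep F) (algebraMap k'[X] F (C (algebraMap k k' x))))
    {Ev : N → Prop} (hlay : ∀ e : ℕ → (Sep F ≃ₐ[F] Sep F) → Pt (crvC (algebraMap k[X] K a2)
      (algebraMap k[X] K a4) (algebraMap k[X] K a6)) (Sep F), IsTateClass k' _ e →
      ∃ (t : Sep F) (z : N), t ≠ 0 ∧ z ≠ 0 ∧ t ^ 2 = algebraMap N (Sep F) z ∧
      (∀ σ : Sep F ≃ₐ[F] Sep F, σ a = a → σ t = sC a (e 1 σ) * t) ∧ Ev z)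
    (hpts : ∀ z : N, z ≠ 0 → Ev z →
      ∃ (u : k) (g : N), u ≠ 0 ∧ g ≠ 0 ∧ (z = algebraMap k N u * g ^ 2 ∨
        ∃ x y : K, y ^ 2 = cub (crvC (algebraMap k[X] K a2) (algebraMap k[X] K a4)
          (algebraMap k[X] K a6)) x ∧ z = algebraMap k N u * g ^ 2 * (algebraMap K N x - θ))) :
    TateAtTwo (F := F) k' (crvC (algebraMap k[X] K a2) (algebraMap k[X] K a4)
      (algebraMap k[X] K a6)) := by
  haveI := hT.sep
  haveI := hT.fracK
  haveI : IsSepClosed k' := IsSepClosure.sep_closed k
  haveI : IsGalois k k' := inferInstance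
  have hKF := hT.map
  haveI : IsSepClosure K (Sep F) := sepKΩ hKF
  haveI : Algebra.IsSeparable K (Sep F) := IsSepClosure.separable
  haveI : IsGalois K (Sep F) := inferInstance
  set W := crvC (algebraMap k[X] K a2) (algebraMap k[X] K a4) (algebraMap k[X] K a6) with hW
  have hdiv : ∀ X : Pt W (Sep F), ∃ Y, Y + Y = X := fun X => halveC hC X
  refine tate_of_half hdiv fun e he => ?_
  have hf2 : ∀ σ, e 1 σ + e 1 σ = 0 := fun σ => by
    rw [← two_nsmul, he.tc.two 0 σ, he.tc.zero]
  have hcoc := he.tc.coc 1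
  obtain ⟨t, z, ht, hz0, hz, hk, hev⟩ := hlay e he
  obtain ⟨u, g, hu, hg, hcase⟩ := hpts z hz0 hev
  obtain ⟨s, hs⟩ := const_sqrt (k := k) (k' := k') h2 u
  have htr := fun x hx => trans_roots (F := F) hC hnr x hx
  -- the part `s g` is fixed by the automorphisms which fix `a`
  set m : Sep F := algebraMap F (Sep F) (algebraMap k'[X] F (C s)) * algebraMap N (Sep F) g with hm
  have hm2 : m ^ 2 = algebraMap N (Sep F) (algebraMap k N u * g ^ 2) := by
    rw [hm, mul_pow, ← map_pow, ← map_pow, ← C_pow, hs, map_mul, hkN, map_pow]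
  have hfixN : ∀ σ : Sep F ≃ₐ[F] Sep F, σ a = a → ∀ y : N,
      σ (algebraMap N (Sep F) y) = algebraMap N (Sep F) y := by
    intro σ hσ y
    obtain ⟨τ', hτ'⟩ := lift_fix hNtop (σ.restrictScalars K) (by rw [hθ]; exact hσ)
    have h1 := hτ' (algebraMap N (Sep F) y)
    rw [τ'.commutes] at h1
    exact h1.symm
  have hmfix : ∀ σ : Sep F ≃ₐ[F] Sep F, σ a = a → σ m = m := by
    intro σ hσ
    rw [hm, map_mul, σ.commutes, hfixN σ hσ]
  have h11 : (1 : Sep F) ≠ 0 := one_ne_zero
  rcases hcase with hz1 | ⟨x, y, hxy, hz1⟩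
  · -- the class of a point of order two
    have htm : t ^ 2 = m ^ 2 := by rw [hz, hz1, hm2]
    have hs1 : ∀ σ : Sep F ≃ₐ[F] Sep F, σ a = a → sC a (e 1 σ) = 1 := by
      intro σ hσ
      have h1 := hk σ hσ
      have h3 : σ t = t := by
        rcases sq_eq_sq_iff_eq_or_eq_neg.1 htm with h | h
        · rw [h, hmfix σ hσ]
        · rw [h, map_neg, hmfix σ hσ]
      rw [h3] at h1
      have h4 : (sC a (e 1 σ) - 1) * t = 0 := by linear_combination -h1
      rcases mul_eq_zero.1 h4 with h5 | h5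
      · exact sub_eq_zero.1 h5
      · exact absurd h5 ht
    obtain ⟨R', hR', hR''⟩ := cob1 hC htr hcoc.mul hf2 hs1
    exact ⟨0, R', by rw [hR', map_zero], hR''⟩
  · -- the class of the point `(x, y)`
    have hWe : W.toAffine.Equation x y := by
      rw [Affine.equation_iff]
      show y ^ 2 + 0 * x * y + 0 * y = x ^ 3 + W.a₂ * x ^ 2 + W.a₄ * x + W.a₆
      have h1 : y ^ 2 = x ^ 3 + W.a₂ * x ^ 2 + W.a₄ * x + W.a₆ := hxy
      rw [h1]; ring
    have hbc : (W.baseChange K) = W := by
      rw [WeierstrassCurve.baseChange, Algebra.algebraMap_self]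
      exact WeierstrassCurve.map_id W
    have hns : (W.baseChange K).toAffine.Nonsingular x y := by
      rw [hbc]
      exact (W.toAffine.equation_iff_nonsingular_of_Δ_ne_zero hΔ).1 hWe
    let P : Pt W K := Point.some x y hns
    obtain ⟨H, hH⟩ := halveC hC (act W (incl K K (Sep F)) P)
    have PK : ∀ φ : Sep F →ₐ[K] Sep F, act W φ (act W (incl K K (Sep F)) P) =
        act W (incl K K (Sep F)) P := by
      intro φ
      have h1 : φ.comp (incl K K (Sep F)) = incl K K (Sep F) := AlgHom.ext fun x => φ.commutes x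
      rw [act_act, h1]
    have hd2 : ∀ σ : Sep F ≃ₐ[F] Sep F,
        (act W (rs K σ) H - H) + (act W (rs K σ) H - H) = 0 := by
      intro σ
      rw [sub_add_sub_comm, ← map_add, hH, PK, sub_self]
    -- the value at `P`
    have hPx : dc a b c (act W (incl K K (Sep F)) P) =
        algebraMap N (Sep F) (algebraMap K N x - θ) := by
      obtain ⟨h4, h5⟩ := act_some W (incl K K (Sep F)) hns
      rw [h5]
      have hxa : (incl K K (Sep F)) x ≠ a := by
        intro h6
        apply hnr (algebraMap K F x)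
        apply (algebraMap F (Sep F)).injective
        have h7 := cub_map W (incl K F (Sep F)) (algebraMap K F x)
        have h8 : (incl K F (Sep F)) (algebraMap K F x) = a := by
          rw [← h6]
          exact (IsScalarTower.algebraMap_apply K F (Sep F) x).symm
        rw [h8, hC.root_a] at h7
        rw [map_zero]
        exact h7.symm
      simp only [dc, if_neg hxa]
      rw [map_sub, hθ, ← IsScalarTower.algebraMap_apply K N (Sep F)]
      rfl
    have hH2 : hc a b c H ^ 2 = algebraMap N (Sep F) (algebraMap K N x - θ) := by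
      rw [hc_sq hC, hH, hPx]
    have htm : t ^ 2 = (m * hc a b c H) ^ 2 := by
      rw [hz, hz1, mul_pow, hm2, hH2, ← map_mul]
    have hhc := hc_ne hC H
    have hs1 : ∀ σ : Sep F ≃ₐ[F] Sep F, σ a = a →
        sC a (e 1 σ - (act W (rs K σ) H - H)) = 1 := by
      intro σ hσ
      have h1 := hk σ hσ
      have h6 : σ (hc a b c H) = sC a (act W (rs K σ) H - H) * hc a b c H :=
        hc_sign hC (φ := rs K σ) hσ (hd2 σ)
      have h3 : σ t = sC a (act W (rs K σ) H - H) * t := by
        rcases sq_eq_sq_iff_eq_or_eq_neg.1 htm with h | h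
        · rw [h, map_mul, hmfix σ hσ, h6]; ring
        · rw [h, map_neg, map_mul, hmfix σ hσ, h6]; ring
      rw [h3] at h1
      have h4 : (sC a (act W (rs K σ) H - H) - sC a (e 1 σ)) * t = 0 := by linear_combination h1
      have h5 : sC a (act W (rs K σ) H - H) = sC a (e 1 σ) := by
        rcases mul_eq_zero.1 h4 with h5 | h5
        · exact sub_eq_zero.1 h5
        · exact absurd h5 ht
      have hneg := neg_eq_of_add_eq_zero_left (hd2 σ)
      rw [sub_eq_add_neg, hneg, sC_add hC (hf2 σ) (hd2 σ), h5, sC_mul_self]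
    have hcoc' : IsCoc W (fun σ => e 1 σ - (act W (rs K σ) H - H)) :=
      hcoc.sub W (cob_isCoc W H)
    have hf2' : ∀ σ, (e 1 σ - (act W (rs K σ) H - H)) + (e 1 σ - (act W (rs K σ) H - H)) = 0 := by
      intro σ
      rw [sub_add_sub_comm, hf2, hd2, sub_zero]
    obtain ⟨R', hR', hR''⟩ := cob1 hC htr hcoc'.mul hf2' hs1
    refine ⟨P, H + R', ?_, fun σ => ?_⟩
    · rw [add_add_add_comm, hH, hR', add_zero]
    · have h1 := hR'' σ
      rw [sub_eq_iff_eq_add] at h1
      rw [h1, map_add]
      abel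

end crit

end Pool.Agent.TH115.GD
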