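import Pool.Agent.TH115.TC.CritT2

/-!
The criterion for quadratic twists.
-/

set_option autoImplicit false
set_option linter.all false

open Polynomial IsDedekindDomain WeierstrassCurve WeierstrassCurve.Affine WithZero
open scoped Classical

namespace Pool.Agent.TH115.GD

section critN

variable {k k' K F N : Type} [Field k] [Field k'] [Algebra k k'] [Field K] [Algebra k[X] K]
  [Field F] [Algebra k'[X] F] [IsFractionRing k'[X] F] [Algebra K F]
  [Field N] [Algebra K N] [Algebra k[X] N] [IsScalarTower k[X] K N]
  {R : Type} [CommRing R] [IsDedekindDomain R] [Algebra R N] [IsFractionRing R N]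
  [Algebra k[X] R] [IsScalarTower k[X] R N] [Algebra.IsIntegral k[X] R]

/-- The condition on the twist. -/
def TwistOK (R : Type) [CommRing R] [IsDedekindDomain R] [Algebra k[X] R] [Algebra R N]
    [IsFractionRing R N] (D : k[X]) (δ : N) : Prop :=
  ∀ P : HeightOneSpectrum R, algebraMap k[X] R D ∈ P.asIdeal →
    P.intValuation (algebraMap k[X] R D) = exp (-1 : ℤ) ∧ P.valuation N δ = 1 ∧
    ∀ P' : HeightOneSpectrum R, P'.asIdeal.comap (algebraMap k[X] R) =
      P.asIdeal.comap (algebraMap k[X] R) → P' = P

/-- The criterion with a fixed embedding of `N` in the separable closure. -/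
theorem critNT [Algebra N (Sep F)] [IsScalarTower K N (Sep F)]
    (hT : IsTower k k' K F) (h2 : (2 : k) ≠ 0) {a2 a4 a6 D : k[X]}
    (hS : SmoothC a2 a4 a6) (hD0 : D ≠ 0)
    (hΔ : (crvC (algebraMap k[X] K (D * a2)) (algebraMap k[X] K (D ^ 2 * a4))
      (algebraMap k[X] K (D ^ 3 * a6))).Δ ≠ 0)
    (hnr : ∀ x : F, cub (crvC (algebraMap k[X] K (D * a2)) (algebraMap k[X] K (D ^ 2 * a4))
      (algebraMap k[X] K (D ^ 3 * a6))) x ≠ 0) {θ : N}
    (hθ : cub (crvC (algebraMap k[X] K a2) (algebraMap k[X] K a4)
      (algebraMap k[X] K a6)) θ = 0) (hNtop' : IntermediateField.adjoin K {θ} = ⊤)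
    (hD : TwistOK R D (cub' (crvC (algebraMap k[X] K a2) (algebraMap k[X] K a4)
      (algebraMap k[X] K a6)) θ))
    (hpts : ∀ z : N, z ≠ 0 → (∀ v : HeightOneSpectrum R,
        IsSquare (v.valuation N z)) →
      ∃ (u : k) (g : N), u ≠ 0 ∧ g ≠ 0 ∧ (z = algebraMap k[X] N (C u) * g ^ 2 ∨
        ∃ x y : K, y ^ 2 = cub (crvC (algebraMap k[X] K (D * a2)) (algebraMap k[X] K (D ^ 2 * a4))
      (algebraMap k[X] K (D ^ 3 * a6))) x ∧
          z = algebraMap k[X] N (C u) * g ^ 2 *
            (algebraMap K N x - algebraMap K N (algebraMap k[X] K D) * θ))) :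
    TateAtTwo (F := F) k' (crvC (algebraMap k[X] K (D * a2)) (algebraMap k[X] K (D ^ 2 * a4))
      (algebraMap k[X] K (D ^ 3 * a6))) := by
  haveI := hT.sep
  haveI := hT.fracK
  haveI : IsGalois k k' := inferInstance
  have hKF := hT.map
  haveI : IsSepClosure K (Sep F) := sepKΩ hKF
  haveI : Algebra.IsSeparable K (Sep F) := IsSepClosure.separable
  haveI : IsGalois K (Sep F) := inferInstance
  have h2K : (2 : K) ≠ 0 := tt h2
  set W := (crvC (algebraMap k[X] K (D * a2)) (algebraMap k[X] K (D ^ 2 * a4))
      (algebraMap k[X] K (D ^ 3 * a6))) with hW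
  set W1 := (crvC (algebraMap k[X] K a2) (algebraMap k[X] K a4)
      (algebraMap k[X] K a6)) with hW1
  have eW : W = crvC (algebraMap k[X] K D * algebraMap k[X] K a2)
      (algebraMap k[X] K D ^ 2 * algebraMap k[X] K a4)
      (algebraMap k[X] K D ^ 3 * algebraMap k[X] K a6) := by
    rw [hW, map_mul, map_mul, map_mul, map_pow, map_pow]
  set d : N := algebraMap K N (algebraMap k[X] K D) with hd
  have hdK : algebraMap k[X] K D ≠ 0 := by
    rw [Ne, map_eq_zero_iff _ (IsFractionRing.injective k[X] K)]
    exact hD0
  have hd0 : d ≠ 0 := (_root_.map_ne_zero _).2 hdK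
  have hNtop : IntermediateField.adjoin K {d * θ} = ⊤ := by
    rw [eq_top_iff, ← hNtop', IntermediateField.adjoin_le_iff, Set.singleton_subset_iff]
    have h1 : θ = algebraMap K N (algebraMap k[X] K D)⁻¹ * (d * θ) := by
      rw [map_inv₀, ← hd, inv_mul_cancel_left₀ hd0]
    have h3 := mul_mem (IntermediateField.algebraMap_mem (IntermediateField.adjoin K {d * θ})
      (algebraMap k[X] K D)⁻¹) (IntermediateField.mem_adjoin_simple_self K (d * θ))
    rw [← h1] at h3
    exact h3
  set a : Sep F := algebraMap N (Sep F) (d * θ) with ha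
  have hcubN : cub W (d * θ) = 0 := by
    rw [eW]
    have e := cub_tw (L := N) (algebraMap k[X] K a2) (algebraMap k[X] K a4)
      (algebraMap k[X] K a6) (algebraMap k[X] K D) θ
    rw [hW1] at hθ
    rw [← hd, hθ, mul_zero] at e
    exact e
  have hcuba : cub W a = 0 := by
    have h1 := cub_map W (IsScalarTower.toAlgHom K N (Sep F)) (d * θ)
    rw [hcubN, map_zero] at h1
    exact h1
  obtain ⟨b, c, hC⟩ := exists_isC (W := W) rfl rfl hΔ h2K hcuba
  have hKN : ∀ x : K, algebraMap N (Sep F) (algebraMap K N x) =
      algebraMap F (Sep F) (algebraMap K F x) := fun x => by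
    rw [← IsScalarTower.algebraMap_apply K N (Sep F), ← IsScalarTower.algebraMap_apply K F (Sep F)]
  -- the field `M`
  let S : IntermediateField F (Sep F) := IntermediateField.adjoin F {a}
  haveI : FiniteDimensional F S := IntermediateField.adjoin.finiteDimensional
    (Algebra.IsIntegral.isIntegral (R := F) a)
  haveI : Algebra.IsSeparable F S := inferInstance
  have hmem : ∀ x : N, algebraMap N (Sep F) x ∈ S := by
    intro x
    have hx : x ∈ (⊤ : IntermediateField K N) := trivial
    rw [← hNtop] at hx
    refine IntermediateField.adjoin_induction K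
      (p := fun x _ => algebraMap N (Sep F) x ∈ S) ?_ ?_ ?_ ?_ ?_ hx
    · intro y hy
      rw [Set.mem_singleton_iff] at hy
      subst hy
      exact IntermediateField.mem_adjoin_simple_self F a
    · intro y
      rw [hKN]
      exact S.algebraMap_mem _
    · intro x y _ _ hx hy
      rw [map_add]; exact add_mem hx hy
    · intro x _ hx
      rw [map_inv₀]; exact inv_mem hx
    · intro x y _ _ hx hy
      rw [map_mul]; exact mul_mem hx hy
  let M : Type := S
  letI : Algebra N M := ((algebraMap N (Sep F)).codRestrict S hmem).toAlgebra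
  haveI : IsScalarTower N M (Sep F) := IsScalarTower.of_algebraMap_eq fun x => rfl
  haveI : IsScalarTower K F M := IsScalarTower.of_algebraMap_eq fun x => Subtype.ext
    (IsScalarTower.algebraMap_apply K F (Sep F) x)
  letI : Algebra k N := ((algebraMap k[X] N).comp C).toAlgebra
  letI : Algebra k' M := ((algebraMap F M).comp ((algebraMap k'[X] F).comp C)).toAlgebra
  letI : Algebra k M := ((algebraMap k' M).comp (algebraMap k k')).toAlgebra
  haveI : IsScalarTower k k' M := IsScalarTower.of_algebraMap_eq fun x => rfl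
  have hkX : ∀ p : k[X], algebraMap N (Sep F) (algebraMap k[X] N p) =
      algebraMap F (Sep F) (algebraMap k'[X] F (p.map (algebraMap k k'))) := by
    intro p
    rw [IsScalarTower.algebraMap_apply k[X] K N, hKN, hKF]
  have hkN : ∀ x : k, algebraMap N (Sep F) (algebraMap k N x) =
      algebraMap F (Sep F) (algebraMap k'[X] F (C (algebraMap k k' x))) := by
    intro x
    have := hkX (C x)
    rwa [map_C] at this
  haveI : IsScalarTower k N M := IsScalarTower.of_algebraMap_eq fun x => Subtype.ext (hkN x).symm
  letI : Algebra k'[X] M := ((algebraMap F M).comp (algebraMap k'[X] F)).toAlgebra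
  haveI : IsScalarTower k'[X] F M := IsScalarTower.of_algebraMap_eq fun x => rfl
  -- the ring `R`
  haveI : FiniteDimensional K N := by
    have hint : IsIntegral K (d * θ) := by
      have h1 : IsIntegral K a := Algebra.IsIntegral.isIntegral a
      exact (isIntegral_algebraMap_iff (algebraMap N (Sep F)).injective).1 h1
    haveI := IntermediateField.adjoin.finiteDimensional hint
    rw [hNtop] at this
    exact (IntermediateField.topEquiv (F := K) (E := N)).toLinearEquiv.finiteDimensional
  haveI : Algebra.IsSeparable K N := Algebra.isSeparable_tower_bot_of_isSeparable K N (Sep F)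
  haveI : IsDedekindDomain (integralClosure k'[X] M) := integralClosure.isDedekindDomain k'[X] F M
  haveI : IsFractionRing (integralClosure k'[X] M) M :=
    integralClosure.isFractionRing_of_finite_extension F M
  letI : Algebra R M := ((algebraMap N M).comp (algebraMap R N)).toAlgebra
  haveI : IsScalarTower R N M := IsScalarTower.of_algebraMap_eq fun x => rfl
  have hRB : ∀ r : R, algebraMap N M (algebraMap R N r) ∈ integralClosure k'[X] M := by
    intro r
    have h1 : IsIntegral k[X] (algebraMap R N r) :=
      (Algebra.IsIntegral.isIntegral (R := k[X]) r).algebraMap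
    exact IsIntegral.map_of_comp_eq (mapRingHom (algebraMap k k')) (algebraMap N M) (by
      ext p
      · exact (hkX (C p)).symm
      · exact (hkX X).symm) h1
  letI : Algebra R (integralClosure k'[X] M) :=
    (((algebraMap N M).comp (algebraMap R N)).codRestrict
      (integralClosure k'[X] M) hRB).toAlgebra
  haveI : IsScalarTower R (integralClosure k'[X] M) M :=
    IsScalarTower.of_algebraMap_eq fun x => rfl
  letI : Algebra k' (integralClosure k'[X] M) :=
    ((algebraMap k'[X] (integralClosure k'[X] M)).comp C).toAlgebra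
  haveI : IsScalarTower k' (integralClosure k'[X] M) M :=
    IsScalarTower.of_algebraMap_eq fun x => rfl
  haveI : Algebra.IsIntegral R (integralClosure k'[X] M) := by
    have h1 : (mapRingHom (algebraMap k k')).IsIntegral := poly_integral
    have h3 : (algebraMap k'[X] (integralClosure k'[X] M)).IsIntegral := fun x =>
      Algebra.IsIntegral.isIntegral (R := k'[X]) x
    have h4 := RingHom.IsIntegral.trans _ _ h1 h3
    have h5 : (algebraMap k'[X] (integralClosure k'[X] M)).comp (mapRingHom (algebraMap k k')) =
        (algebraMap R (integralClosure k'[X] M)).comp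
          (algebraMap k[X] R) := by
      apply RingHom.ext
      intro p
      apply Subtype.ext
      apply Subtype.ext
      show algebraMap F (Sep F) (algebraMap k'[X] F (p.map (algebraMap k k'))) =
        algebraMap N (Sep F) (algebraMap R N (algebraMap k[X] R p))
      rw [← IsScalarTower.algebraMap_apply k[X] R N]
      exact (hkX p).symm
    rw [h5] at h4
    exact ⟨RingHom.IsIntegral.tower_top _ _ h4⟩
  haveI : Module.IsTorsionFree R (integralClosure k'[X] M) := by
    rw [Module.isTorsionFree_iff_algebraMap_injective]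
    intro x y h
    have h1 := congrArg (algebraMap (integralClosure k'[X] M) M) h
    rw [← IsScalarTower.algebraMap_apply R (integralClosure k'[X] M) M,
      ← IsScalarTower.algebraMap_apply R (integralClosure k'[X] M) M] at h1
    exact IsFractionRing.injective R N ((algebraMap N M).injective h1)
  haveI : Module.IsTorsionFree k'[X] (integralClosure k'[X] M) := by
    rw [Module.isTorsionFree_iff_algebraMap_injective]
    intro x y h
    have h1 := congrArg (algebraMap (integralClosure k'[X] M) M) h
    apply IsFractionRing.injective k'[X] F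
    exact (algebraMap F M).injective h1
  -- `M` is generated by the constants
  have htop : IntermediateField.adjoin N (Set.range (algebraMap k' M)) = ⊤ := by
    set T : IntermediateField N M := IntermediateField.adjoin N (Set.range (algebraMap k' M)) with hT'
    have hpoly : ∀ p : k'[X], algebraMap F M (algebraMap k'[X] F p) ∈ T := by
      intro p
      induction p using Polynomial.induction_on' with
      | add p q hp hq => rw [map_add, map_add]; exact add_mem hp hq
      | monomial n c =>
        rw [← C_mul_X_pow_eq_monomial, map_mul, map_mul, map_pow, map_pow]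
        refine mul_mem (IntermediateField.subset_adjoin N _ ⟨c, rfl⟩) (pow_mem ?_ n)
        have h1 : algebraMap F M (algebraMap k'[X] F X) = algebraMap N M (algebraMap k[X] N X) := by
          apply Subtype.ext
          have := hkX X
          rw [map_X] at this
          exact this.symm
        rw [h1]
        exact T.algebraMap_mem _
    have hF : ∀ x : F, algebraMap F M x ∈ T := by
      intro x
      obtain ⟨n, d, hd, rfl⟩ := IsFractionRing.div_surjective (A := k'[X]) x
      rw [map_div₀]
      exact div_mem (hpoly n) (hpoly d)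
    rw [eq_top_iff]
    rintro ⟨x, hx⟩ -
    refine IntermediateField.adjoin_induction F
      (p := fun x hx => (⟨x, hx⟩ : M) ∈ T) ?_ ?_ ?_ ?_ ?_ hx
    · intro y hy
      rw [Set.mem_singleton_iff] at hy
      subst hy
      exact T.algebraMap_mem (d * θ)
    · intro y
      exact hF y
    · intro x y _ _ hx hy
      exact add_mem hx hy
    · intro x _ hx
      exact inv_mem hx
    · intro x y _ _ hx hy
      exact mul_mem hx hy
  -- the elements of `R`
  have hθint : IsIntegral k[X] θ := by
    refine ⟨X ^ 3 + C a2 * X ^ 2 + C a4 * X + C a6, by monicity!, ?_⟩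
    have e : cub W1 θ = θ ^ 3 + algebraMap K N (algebraMap k[X] K a2) * θ ^ 2 +
      algebraMap K N (algebraMap k[X] K a4) * θ + algebraMap K N (algebraMap k[X] K a6) := rfl
    rw [e, ← IsScalarTower.algebraMap_apply k[X] K N, ← IsScalarTower.algebraMap_apply k[X] K N,
      ← IsScalarTower.algebraMap_apply k[X] K N] at hθ
    simp only [eval₂_add, eval₂_mul, eval₂_pow, eval₂_X, eval₂_C]
    exact hθ
  obtain ⟨θR, hθR⟩ := (IsIntegrallyClosed.isIntegral_iff (R := R) (K := N)).1
    (hθint.tower_top (A := R))
  have hDR : algebraMap R N (algebraMap k[X] R D) = d := by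
    rw [← IsScalarTower.algebraMap_apply k[X] R N, hd, IsScalarTower.algebraMap_apply k[X] K N]
  have hcomm : ∀ p : k[X], algebraMap R (integralClosure k'[X] M) (algebraMap k[X] R p) =
      algebraMap k'[X] (integralClosure k'[X] M) (p.map (algebraMap k k')) := by
    intro p
    apply Subtype.ext
    apply Subtype.ext
    show algebraMap N (Sep F) (algebraMap R N (algebraMap k[X] R p)) =
      algebraMap F (Sep F) (algebraMap k'[X] F (p.map (algebraMap k k')))
    rw [← IsScalarTower.algebraMap_apply k[X] R N]
    exact hkX p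
  refine critL hT h2 hΔ hnr hC (θ := d * θ) rfl hNtop hkN
    (Ev := fun z => ∀ v : HeightOneSpectrum R, IsSquare (v.valuation N z)) ?_ hpts
  intro e he
  refine layerT (M := M) (R := R) (integralClosure k'[X] M) hT hS hnr hC hθ rfl hNtop htop hθR hDR
    ?_ he
  intro P hP
  obtain ⟨hD1, hD2, hD3⟩ := hD P hP
  refine ⟨hD1, hD2, ?_⟩
  intro 𝔓 𝔓' h𝔓 h𝔓'
  apply hD3
  rw [← h𝔓]
  have h1 : ∀ 𝔔 : HeightOneSpectrum (integralClosure k'[X] M),
      (𝔔.under R).asIdeal.comap (algebraMap k[X] R) =
      (𝔔.under k'[X]).asIdeal.comap (mapRingHom (algebraMap k k')) := by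
    intro 𝔔
    ext p
    show algebraMap R (integralClosure k'[X] M) (algebraMap k[X] R p) ∈ 𝔔.asIdeal ↔
      algebraMap k'[X] (integralClosure k'[X] M) (p.map (algebraMap k k')) ∈ 𝔔.asIdeal
    rw [hcomm]
  rw [h1, h1, h𝔓']

end critN

section main

variable {k k' K F N : Type} [Field k] [Field k'] [Algebra k k'] [Field K] [Algebra k[X] K]
  [Field F] [Algebra k'[X] F] [IsFractionRing k'[X] F] [Algebra K F]
  [Field N] [Algebra K N] [Algebra k[X] N] [IsScalarTower k[X] K N]

/-- **The criterion** for twists. -/
theorem mainT {R : Type} [CommRing R] [IsDedekindDomain R] [Algebra R N] [IsFractionRing R N]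
    [Algebra k[X] R] [IsScalarTower k[X] R N] [Algebra.IsIntegral k[X] R]
    (hT : IsTower k k' K F) (h2 : (2 : k) ≠ 0) {a2 a4 a6 D : k[X]}
    (hS : SmoothC a2 a4 a6) (hD0 : D ≠ 0)
    (hΔ1 : (crvC (algebraMap k[X] K a2) (algebraMap k[X] K a4)
      (algebraMap k[X] K a6)).Δ ≠ 0)
    (hΔ : (crvC (algebraMap k[X] K (D * a2)) (algebraMap k[X] K (D ^ 2 * a4))
      (algebraMap k[X] K (D ^ 3 * a6))).Δ ≠ 0)
    (hnr : ∀ x : F, cub (crvC (algebraMap k[X] K (D * a2)) (algebraMap k[X] K (D ^ 2 * a4))
      (algebraMap k[X] K (D ^ 3 * a6))) x ≠ 0) {θ : N}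
    (hθ : cub (crvC (algebraMap k[X] K a2) (algebraMap k[X] K a4)
      (algebraMap k[X] K a6)) θ = 0) (hNtop' : IntermediateField.adjoin K {θ} = ⊤)
    (hD : TwistOK R D (cub' (crvC (algebraMap k[X] K a2) (algebraMap k[X] K a4)
      (algebraMap k[X] K a6)) θ))
    (hpts : ∀ z : N, z ≠ 0 → (∀ v : HeightOneSpectrum R,
        IsSquare (v.valuation N z)) →
      ∃ (u : k) (g : N), u ≠ 0 ∧ g ≠ 0 ∧ (z = algebraMap k[X] N (C u) * g ^ 2 ∨
        ∃ x y : K, y ^ 2 = cub (crvC (algebraMap k[X] K (D * a2)) (algebraMap k[X] K (D ^ 2 * a4))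
      (algebraMap k[X] K (D ^ 3 * a6))) x ∧
          z = algebraMap k[X] N (C u) * g ^ 2 *
            (algebraMap K N x - algebraMap K N (algebraMap k[X] K D) * θ))) :
    TateAtTwo (F := F) k' (crvC (algebraMap k[X] K (D * a2)) (algebraMap k[X] K (D ^ 2 * a4))
      (algebraMap k[X] K (D ^ 3 * a6))) := by
  haveI := hT.sep
  haveI := hT.fracK
  haveI : IsSepClosure K (Sep F) := sepKΩ hT.map
  obtain ⟨-, hsep⟩ := sepN (N := N) rfl rfl hΔ1 hθ hNtop'
  let i : N →ₐ[K] Sep F := IsSepClosed.lift
  letI : Algebra N (Sep F) := i.toRingHom.toAlgebra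
  haveI : IsScalarTower K N (Sep F) := IsScalarTower.of_algebraMap_eq fun x => (i.commutes x).symm
  exact critNT (R := R) hT h2 hS hD0 hΔ hnr hθ hNtop' hD hpts

end main

end Pool.Agent.TH115.GD
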