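import Pool.Agent.TH115.TC.GenC
import Pool.Agent.TH115.TC.CritT2

/-!
The number of generators of the fixed classes: counting.
-/

set_option autoImplicit false
set_option linter.all false

open Polynomial IsDedekindDomain WeierstrassCurve WeierstrassCurve.Affine WithZero
open scoped Classical

namespace Pool.Agent.TH115.GD

section count

variable {k' K F : Type} [Field k'] [Field K] [Field F] [Algebra K F] [Algebra k'[X] F]
  [IsFractionRing k'[X] F] {W : WeierstrassCurve K} {a b c : Sep F}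

/-- The bound by the number of sign functions. -/
theorem gen_of_sign (hC : IsC (W.baseChange (Sep F)).toAffine a b c)
    (htr : ∀ e : Sep F, (e = a ∨ e = b ∨ e = c) → ∃ ρ : Sep F ≃ₐ[F] Sep F, ρ a = e)
    {ι : Type} [Fintype ι] {d : ℕ} (hd : Fintype.card ι ≤ 2 ^ d)
    (S : ι → (Sep F ≃ₐ[F] Sep F) → Sep F)
    (hS : ∀ e : ℕ → (Sep F ≃ₐ[F] Sep F) → Pt W (Sep F), IsTateClass k' W e →
      ∃ i, ∀ σ : Sep F ≃ₐ[F] Sep F, σ a = a → sC a (e 1 σ) = S i σ) :
    GeneratedBy (F := F) k' W d := by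
  have hdiv : ∀ X : Pt W (Sep F), ∃ Y, Y + Y = X := fun X => halveC hC X
  refine gen_of_indep hdiv ?_
  intro m e he hi
  let zz : (Fin m → Fin 2) → Fin m → ℤ := fun x i => ((x i : ℕ) : ℤ)
  have hcl : ∀ x : Fin m → Fin 2, IsTateClass k' W (comb e (zz x)) :=
    fun x => IsTateClass.comb he (zz x)
  choose Ψ hΨ using fun x : Fin m → Fin 2 => hS _ (hcl x)
  have hΨinj : Function.Injective Ψ := by
    intro x x' h
    by_contra hne
    obtain ⟨j, hj⟩ := Function.ne_iff.1 hne
    have hx2 : ∀ (y : Fin m → Fin 2) σ, comb e (zz y) 1 σ + comb e (zz y) 1 σ = 0 :=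
      fun y σ => by rw [← two_nsmul, (hcl y).tc.two 0 σ, (hcl y).tc.zero]
    have hcomb : ∀ σ, comb e (zz x) 1 σ + comb e (zz x') 1 σ =
        comb e (fun i => zz x i + zz x' i) 1 σ := by
      intro σ
      show ∑ i, zz x i • e i 1 σ + ∑ i, zz x' i • e i 1 σ =
        ∑ i, (zz x i + zz x' i) • e i 1 σ
      rw [← Finset.sum_add_distrib]
      exact Finset.sum_congr rfl fun i _ => (add_smul _ _ _).symm
    have hodd : ∃ i, Odd (zz x i + zz x' i) := by
      refine ⟨j, ?_⟩
      show Odd (((x j : ℕ) : ℤ) + ((x' j : ℕ) : ℤ))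
      have : ∀ u v : Fin 2, u ≠ v → Odd (((u : ℕ) : ℤ) + ((v : ℕ) : ℤ)) := by decide
      exact this _ _ hj
    have hcl' := IsTateClass.comb he (fun i => zz x i + zz x' i)
    have h2' : ∀ σ, comb e (fun i => zz x i + zz x' i) 1 σ +
        comb e (fun i => zz x i + zz x' i) 1 σ = 0 :=
      fun σ => by rw [← two_nsmul, hcl'.tc.two 0 σ, hcl'.tc.zero]
    refine hi _ hodd ?_
    refine cob1 hC htr (hcl'.tc.coc 1).mul h2' ?_
    intro σ hσ
    rw [← hcomb, sC_add hC (hx2 x σ) (hx2 x' σ), hΨ x σ hσ, hΨ x' σ hσ, h, ← hΨ x' σ hσ,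
      sC_mul_self]
  have hcard := Fintype.card_le_of_injective Ψ hΨinj
  rw [Fintype.card_fun, Fintype.card_fin, Fintype.card_fin] at hcard
  exact (Nat.pow_le_pow_iff_right (by norm_num : 1 < 2)).1 (hcard.trans hd)

end count

section crit

variable {k k' K F N : Type} [Field k] [Field k'] [Algebra k k'] [Field K] [Algebra k[X] K]
  [Field F] [Algebra k'[X] F] [IsFractionRing k'[X] F] [Algebra K F]
  [Field N] [Algebra K N] [Algebra k N] [Algebra N (Sep F)] [IsScalarTower K N (Sep F)]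

/-- **The bound** for the number of generators, with the fields and rings as parameters. -/
theorem genL (hT : IsTower k k' K F) (h2 : (2 : k) ≠ 0) {a2 a4 a6 : k[X]}
    (hΔ : (crvC (algebraMap k[X] K a2) (algebraMap k[X] K a4) (algebraMap k[X] K a6)).Δ ≠ 0)
    (hnr : ∀ x : F, cub (crvC (algebraMap k[X] K a2) (algebraMap k[X] K a4)
      (algebraMap k[X] K a6)) x ≠ 0)
    {a b c : Sep F} (hC : IsC ((crvC (algebraMap k[X] K a2) (algebraMap k[X] K a4)
      (algebraMap k[X] K a6)).baseChange (Sep F)).toAffine a b c)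
    {θ : N} (hθ : algebraMap N (Sep F) θ = a) (hNtop : IntermediateField.adjoin K {θ} = ⊤)
    (hkN : ∀ x : k, algebraMap N (Sep F) (algebraMap k N x) =
      algebraMap F (Sep F) (algebraMap k'[X] F (C (algebraMap k k' x))))
    {Ev : N → Prop} (hlay : ∀ e : ℕ → (Sep F ≃ₐ[F] Sep F) → Pt (crvC (algebraMap k[X] K a2)
      (algebraMap k[X] K a4) (algebraMap k[X] K a6)) (Sep F), IsTateClass k' _ e →
      ∃ (t : Sep F) (z : N), t ≠ 0 ∧ z ≠ 0 ∧ t ^ 2 = algebraMap N (Sep F) z ∧
      (∀ σ : Sep F ≃ₐ[F] Sep F, σ a = a → σ t = sC a (e 1 σ) * t) ∧ Ev z)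
    {S : Finset N} {d : ℕ} (hd : S.card ≤ 2 ^ d)
    (hpts : ∀ z : N, z ≠ 0 → Ev z →
      ∃ w ∈ S, ∃ (u : k) (g : N), u ≠ 0 ∧ g ≠ 0 ∧ z = algebraMap k N u * g ^ 2 * w) :
    GeneratedBy (F := F) k' (crvC (algebraMap k[X] K a2) (algebraMap k[X] K a4)
      (algebraMap k[X] K a6)) d := by
  haveI := hT.sep
  haveI := hT.fracK
  haveI : IsSepClosed k' := IsSepClosure.sep_closed k
  haveI : IsGalois k k' := inferInstance
  have hKF := hT.map
  haveI : IsSepClosure K (Sep F) := sepKΩ hKF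
  haveI : Algebra.IsSeparable K (Sep F) := IsSepClosure.separable
  haveI : IsGalois K (Sep F) := inferInstance
  set W := crvC (algebraMap k[X] K a2) (algebraMap k[X] K a4) (algebraMap k[X] K a6) with hW
  have htr := fun x hx => trans_roots (F := F) hC hnr x hx
  have h2S : (2 : Sep F) ≠ 0 := hC.two
  haveI : NeZero ((2 : ℕ) : Sep F) := ⟨by exact_mod_cast h2S⟩
  have hroot : ∀ w : N, ∃ r : Sep F, r ^ 2 = algebraMap N (Sep F) w := fun w =>
    IsSepClosed.exists_pow_nat_eq _ 2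
  choose r hr using hroot
  refine gen_of_sign hC htr (ι := S) (by rw [Fintype.card_coe]; exact hd)
    (fun i σ => σ (r i.1) / r i.1) ?_
  intro e he
  obtain ⟨t, z, ht, hz0, hz, hk, hev⟩ := hlay e he
  obtain ⟨w, hw, u, g, hu, hg, hz1⟩ := hpts z hz0 hev
  refine ⟨⟨w, hw⟩, fun σ hσ => ?_⟩
  obtain ⟨s, hs⟩ := const_sqrt (k := k) (k' := k') h2 u
  set m : Sep F := algebraMap F (Sep F) (algebraMap k'[X] F (C s)) * algebraMap N (Sep F) g with hm
  have hm2 : m ^ 2 = algebraMap N (Sep F) (algebraMap k N u * g ^ 2) := by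
    rw [hm, mul_pow, ← map_pow, ← map_pow, ← C_pow, hs, map_mul, hkN, map_pow]
  have hfixN : ∀ y : N, σ (algebraMap N (Sep F) y) = algebraMap N (Sep F) y := by
    intro y
    obtain ⟨τ', hτ'⟩ := lift_fix hNtop (σ.restrictScalars K) (by rw [hθ]; exact hσ)
    have h1 := hτ' (algebraMap N (Sep F) y)
    rw [τ'.commutes] at h1
    exact h1.symm
  have hmfix : σ m = m := by
    rw [hm, map_mul, σ.commutes, hfixN]
  have hw0 : w ≠ 0 := by
    rintro rfl
    rw [mul_zero] at hz1
    exact hz0 hz1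
  have hrw : r w ≠ 0 := by
    intro h0
    have := hr w
    rw [h0, zero_pow two_ne_zero] at this
    exact hw0 ((map_eq_zero_iff _ (algebraMap N (Sep F)).injective).1 this.symm)
  have htm : t ^ 2 = (m * r w) ^ 2 := by
    rw [hz, hz1, mul_pow, hm2, hr, ← map_mul]
  have h1 := hk σ hσ
  have h3 : σ t = (σ (r w) / r w) * t := by
    rcases sq_eq_sq_iff_eq_or_eq_neg.1 htm with h | h
    · rw [h, map_mul, hmfix]
      field_simp
    · rw [h, map_neg, map_mul, hmfix]
      field_simp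
  rw [h3] at h1
  exact (mul_right_cancel₀ ht h1).symm

end crit

end Pool.Agent.TH115.GD
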