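import Pool.Agent.TH115.ID.Basic

/-!
Translation of the x-coordinate: curves `y ^ 2 = f(x)` with a cubic polynomial `f` which splits.
-/

set_option autoImplicit false
set_option linter.all false

open WeierstrassCurve WeierstrassCurve.Affine
open scoped Classical

namespace Pool.Agent.TH115.GD

section shift

variable {F : Type*} [Field F]

/-- The curve translated by `e`. -/
def shc (W : Affine F) (e : F) : Affine F :=
  ⟨0, W.a₂ + 3 * e, 0, W.a₄ + 2 * W.a₂ * e + 3 * e ^ 2, W.a₆ + W.a₄ * e + W.a₂ * e ^ 2 + e ^ 3⟩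

variable {W : Affine F} (h1 : W.a₁ = 0) (h3 : W.a₃ = 0) (e : F)

include h1 h3

theorem shc_equation {x y : F} : (shc W e).Equation (x - e) y ↔ W.Equation x y := by
  rw [Affine.equation_iff, Affine.equation_iff, h1, h3]
  simp only [shc]
  constructor <;> intro h <;> linear_combination h

theorem shc_nonsingular {x y : F} : (shc W e).Nonsingular (x - e) y ↔ W.Nonsingular x y := by
  rw [Affine.nonsingular_iff, Affine.nonsingular_iff, shc_equation h1 h3, h1, h3]
  simp only [shc]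
  have e1 : (0 * y = 3 * (x - e) ^ 2 + 2 * (W.a₂ + 3 * e) * (x - e) +
      (W.a₄ + 2 * W.a₂ * e + 3 * e ^ 2)) ↔ 0 * y = 3 * x ^ 2 + 2 * W.a₂ * x + W.a₄ := by
    constructor <;> intro h <;> linear_combination h
  have e2 : y = -y - 0 * (x - e) - 0 ↔ y = -y - 0 * x - 0 := by
    constructor <;> intro h <;> linear_combination h
  rw [Ne, Ne, Ne, Ne, e1, e2]

/-- Translation of points. -/
def sh : W.Point → (shc W e).Point
  | .zero => .zero
  | .some x y h => .some (x - e) y ((shc_nonsingular h1 h3 e).2 h)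

omit h1 h3 in
theorem sh_negY (h1 : W.a₁ = 0) (h3 : W.a₃ = 0) (x y : F) :
    (shc W e).negY (x - e) y = W.negY x y := by
  simp [Affine.negY, h1, h3, shc]

theorem sh_slope (x₁ x₂ y₁ y₂ : F) :
    (shc W e).slope (x₁ - e) (x₂ - e) y₁ y₂ = W.slope x₁ x₂ y₁ y₂ := by
  unfold Affine.slope
  simp only [sh_negY e h1 h3, sub_left_inj]
  split_ifs with c1 c2
  · rfl
  · rw [h1]
    congr 1
    simp only [shc]
    ring
  · congr 1
    ring

theorem sh_addX (x₁ x₂ l : F) :
    (shc W e).addX (x₁ - e) (x₂ - e) l = W.addX x₁ x₂ l - e := by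
  simp only [Affine.addX, h1]
  simp only [shc]
  ring

theorem sh_addY (x₁ x₂ y₁ l : F) :
    (shc W e).addY (x₁ - e) (x₂ - e) y₁ l = W.addY x₁ x₂ y₁ l := by
  simp only [Affine.addY, Affine.negAddY, sh_addX h1 h3, sh_negY e h1 h3]
  congr 2
  ring

theorem sh_add (P Q : W.Point) : sh h1 h3 e (P + Q) = sh h1 h3 e P + sh h1 h3 e Q := by
  rcases P with _ | ⟨x₁, y₁, hP⟩
  · rw [← Point.zero_def, zero_add]
    show _ = (0 : (shc W e).Point) + _
    rw [zero_add]
  rcases Q with _ | ⟨x₂, y₂, hQ⟩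
  · rw [← Point.zero_def, add_zero]
    show _ = _ + (0 : (shc W e).Point)
    rw [add_zero]
  by_cases hxy : x₁ = x₂ ∧ y₁ = W.negY x₂ y₂
  · rw [Point.add_of_Y_eq hxy.1 hxy.2]
    show (0 : (shc W e).Point) = Point.some (x₁ - e) y₁ _ + Point.some (x₂ - e) y₂ _
    rw [Point.add_of_Y_eq (by rw [hxy.1]) (by rw [sh_negY e h1 h3]; exact hxy.2)]
  · have hxy' : ¬ (x₁ - e = x₂ - e ∧ y₁ = (shc W e).negY (x₂ - e) y₂) := by
      rw [sub_left_inj, sh_negY e h1 h3]
      exact hxy
    rw [Point.add_some hxy]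
    show Point.some _ _ _ = Point.some (x₁ - e) y₁ _ + Point.some (x₂ - e) y₂ _
    rw [Point.add_some hxy']
    simp only [sh_slope h1 h3, sh_addX h1 h3, sh_addY h1 h3]

theorem sh_zero : sh h1 h3 e (0 : W.Point) = 0 := rfl

theorem sh_inj {P Q : W.Point} (h : sh h1 h3 e P = sh h1 h3 e Q) : P = Q := by
  rcases P with _ | ⟨x₁, y₁, hP⟩ <;> rcases Q with _ | ⟨x₂, y₂, hQ⟩
  · rfl
  · exact absurd h.symm (Point.some_ne_zero _)
  · exact absurd h (Point.some_ne_zero _)
  · have h' := Point.some.inj h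
    have e1 : x₁ = x₂ := by linear_combination h'.1
    have e2 : y₁ = y₂ := h'.2
    subst e1
    subst e2
    rfl

theorem sh_surj (Q : (shc W e).Point) : ∃ P, sh h1 h3 e P = Q := by
  rcases Q with _ | ⟨x, y, hQ⟩
  · exact ⟨0, rfl⟩
  · have h' : W.Nonsingular (x + e) y := by
      rw [← shc_nonsingular h1 h3 e, add_sub_cancel_right]
      exact hQ
    refine ⟨Point.some (x + e) y h', ?_⟩
    show Point.some (x + e - e) y _ = _
    simp only [add_sub_cancel_right]

theorem sh_two (P : W.Point) : sh h1 h3 e P + sh h1 h3 e P = 0 ↔ P + P = 0 := by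
  rw [← sh_add, ← sh_zero h1 h3 e]
  exact ⟨fun h => sh_inj h1 h3 e h, fun h => by rw [h]⟩

end shift

/-- The cubic polynomial of `W` has the roots `a`, `b`, `c`. -/
structure IsC {F : Type*} [Field F] (W : Affine F) (a b c : F) : Prop where
  a1 : W.a₁ = 0
  a3 : W.a₃ = 0
  a2 : W.a₂ = -(a + b + c)
  a4 : W.a₄ = a * b + a * c + b * c
  a6 : W.a₆ = -(a * b * c)
  two : (2 : F) ≠ 0
  ab : a ≠ b
  ac : a ≠ c
  bc : b ≠ c

section cub

variable {F : Type*} [Field F] {W : Affine F} {a b c : F} (h : IsC W a b c)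

include h

theorem IsC.swap : IsC W a c b :=
  ⟨h.a1, h.a3, by rw [h.a2]; ring, by rw [h.a4]; ring, by rw [h.a6]; ring, h.two, h.ac, h.ab,
    h.bc.symm⟩

theorem IsC.rot : IsC W b c a :=
  ⟨h.a1, h.a3, by rw [h.a2]; ring, by rw [h.a4]; ring, by rw [h.a6]; ring, h.two, h.bc, h.ab.symm,
    h.ac.symm⟩

theorem IsC.isE : IsE (shc W a) (b - a) (c - a) := by
  refine ⟨rfl, ?_, rfl, ?_, ?_, h.two, sub_ne_zero.2 h.ab.symm, sub_ne_zero.2 h.ac.symm,
    fun h' => h.bc (by linear_combination h')⟩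
  · show W.a₂ + 3 * a = _
    rw [h.a2]; ring
  · show W.a₄ + 2 * W.a₂ * a + 3 * a ^ 2 = _
    rw [h.a2, h.a4]; ring
  · show W.a₆ + W.a₄ * a + W.a₂ * a ^ 2 + a ^ 3 = _
    rw [h.a2, h.a4, h.a6]; ring

theorem IsC.eqn {x y : F} (hP : W.Nonsingular x y) : y ^ 2 = (x - a) * (x - b) * (x - c) := by
  have h1 := hP.1
  rw [Affine.equation_iff, h.a1, h.a2, h.a3, h.a4, h.a6] at h1
  linear_combination h1

omit h in
/-- The sign at the root `a`. -/
noncomputable def sC (a : F) : W.Point → F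
  | .zero => 1
  | .some x _ _ => if x = a then 1 else -1

omit h in
/-- Representative of `x(Q) - a` modulo squares. -/
noncomputable def dc (a b c : F) : W.Point → F
  | .zero => 1
  | .some x _ _ => if x = a then (b - a) * (c - a) else x - a

omit h in
/-- The square root of `x(2 P) - a`. -/
noncomputable def hc (a b c : F) (P : W.Point) : F :=
  if P + P = 0 then 1 else if rt a ((b - a) * (c - a)) P = 0 then
    rt b ((b - a) * (b - c)) P * rt c ((c - a) * (c - b)) P
  else rt a ((b - a) * (c - a)) P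

omit h in
theorem hc_swap (P : W.Point) : hc a b c P = hc a c b P := by
  unfold hc
  rw [mul_comm (b - a) (c - a), mul_comm (rt b _ P)]

theorem sC_eq (P : W.Point) : sC a P = s0 (sh h.a1 h.a3 a P) := by
  rcases P with _ | ⟨x, y, hP⟩
  · rfl
  · simp only [sC, s0, sh, sub_eq_zero]

theorem sC_eq1 (P : W.Point) : sC b P = s1 (b - a) (sh h.a1 h.a3 a P) := by
  rcases P with _ | ⟨x, y, hP⟩
  · rfl
  · simp only [sC, s1, sh, sub_left_inj]

theorem dc_eq (P : W.Point) : dc a b c P = d0 (b - a) (c - a) (sh h.a1 h.a3 a P) := by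
  rcases P with _ | ⟨x, y, hP⟩
  · rfl
  · simp only [dc, d0, sh, sub_eq_zero]

theorem hc_eq (P : W.Point) : hc a b c P = h0 (b - a) (c - a) (sh h.a1 h.a3 a P) := by
  unfold hc h0
  simp only [sh_two]
  have e0 : r0 (b - a) (c - a) (sh h.a1 h.a3 a P) = rt a ((b - a) * (c - a)) P := by
    rcases P with _ | ⟨x, y, hP⟩
    · rfl
    · simp only [r0, rt, sh, sub_zero]
  have e1 : r1 (b - a) (c - a) (sh h.a1 h.a3 a P) = rt b ((b - a) * (b - c)) P := by
    rcases P with _ | ⟨x, y, hP⟩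
    · rfl
    · simp only [r1, rt, sh]
      congr 1
      ring
  have e2 : rg (b - a) (c - a) (sh h.a1 h.a3 a P) = rt c ((c - a) * (c - b)) P := by
    rcases P with _ | ⟨x, y, hP⟩
    · rfl
    · simp only [rg, rt, sh]
      congr 1
      ring
  rw [e0, e1, e2]

theorem hc_sq (P : W.Point) : hc a b c P ^ 2 = dc a b c (P + P) := by
  rw [hc_eq h, h0_sq h.isE, dc_eq h, sh_add]

theorem dc_ne (P : W.Point) : dc a b c P ≠ 0 := by
  rw [dc_eq h]
  exact d0_ne h.isE _

theorem hc_ne (P : W.Point) : hc a b c P ≠ 0 := by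
  rw [hc_eq h]
  exact h0_ne h.isE _

omit h in
theorem sC_sq (P : W.Point) : sC a P = 1 ∨ sC a P = -1 := by
  rcases P with _ | ⟨x, y, hxy⟩
  · left; rfl
  · simp only [sC]; split_ifs <;> simp

omit h in
theorem sC_mul_self (P : W.Point) : sC a P * sC a P = 1 := by
  rcases sC_sq (a := a) P with h | h <;> rw [h] <;> ring

omit h in
theorem sC_ne (P : W.Point) : sC a P ≠ 0 := by
  rcases sC_sq (a := a) P with h | h <;> rw [h] <;> simp

omit h in
theorem sC_zero : sC a (0 : W.Point) = 1 := rfl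

theorem hc_translate {P T : W.Point} (hT : T + T = 0) (hPT : P + P = 0 → sC a T = 1) :
    hc a b c (P + T) = sC a T * hc a b c P := by
  rw [hc_eq h, hc_eq h, sh_add, sC_eq h]
  apply h0_translate h.isE ((sh_two h.a1 h.a3 a T).2 hT)
  intro h'
  rw [← sC_eq h]
  exact hPT ((sh_two h.a1 h.a3 a P).1 h')

theorem sC_add [IsSepClosed F] {S T : W.Point} (hS : S + S = 0) (hT : T + T = 0) :
    sC a (S + T) = sC a S * sC a T := by
  rw [sC_eq h, sC_eq h, sC_eq h, sh_add]
  exact (s_addA h.isE ((sh_two h.a1 h.a3 a S).2 hS) ((sh_two h.a1 h.a3 a T).2 hT)).1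

/-- The signs determine a point of order two. -/
theorem sC_ext {S T : W.Point} (hS : S + S = 0) (hT : T + T = 0)
    (e0 : sC a S = sC a T) (e1 : sC b S = sC b T) : S = T := by
  apply sh_inj h.a1 h.a3 a
  apply tor_ext h.isE ((sh_two h.a1 h.a3 a S).2 hS) ((sh_two h.a1 h.a3 a T).2 hT)
  · rw [← sC_eq h, ← sC_eq h, e0]
  · rw [← sC_eq1 h, ← sC_eq1 h, e1]

/-- The points of order two and their signs. -/
theorem torC {P : W.Point} (hP : P + P = 0) :
    (P = 0 ∧ sC a P = 1 ∧ sC b P = 1 ∧ sC c P = 1) ∨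
      (∃ hn, P = Point.some a 0 hn ∧ sC a P = 1 ∧ sC b P = -1 ∧ sC c P = -1) ∨
      (∃ hn, P = Point.some b 0 hn ∧ sC a P = -1 ∧ sC b P = 1 ∧ sC c P = -1) ∨
      (∃ hn, P = Point.some c 0 hn ∧ sC a P = -1 ∧ sC b P = -1 ∧ sC c P = 1) := by
  rcases P with _ | ⟨x, y, hxy⟩
  · left; exact ⟨rfl, rfl, rfl, rfl⟩
  · right
    have h2 := (sh_two h.a1 h.a3 a (Point.some x y hxy)).2 hP
    have hy : y = 0 := (add_self_eq_zero_iff h.isE _).1 h2
    subst hy
    have h4 := h.eqn hxy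
    have h5 : (x - a) * (x - b) * (x - c) = 0 := by rw [← h4]; ring
    rcases mul_eq_zero.1 h5 with h6 | h6
    · rcases mul_eq_zero.1 h6 with h7 | h7
      · obtain rfl : x = a := sub_eq_zero.1 h7
        left; exact ⟨hxy, rfl, by simp [sC], by simp [sC, h.ab], by simp [sC, h.ac]⟩
      · obtain rfl : x = b := sub_eq_zero.1 h7
        right; left; exact ⟨hxy, rfl, by simp [sC, h.ab.symm], by simp [sC], by simp [sC, h.bc]⟩
    · obtain rfl : x = c := sub_eq_zero.1 h6
      right; right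
      exact ⟨hxy, rfl, by simp [sC, h.ac.symm], by simp [sC, h.bc.symm], by simp [sC]⟩

theorem nonsC : W.Nonsingular a 0 ∧ W.Nonsingular b 0 ∧ W.Nonsingular c 0 := by
  have key : ∀ {a b c : F}, IsC W a b c → W.Nonsingular a 0 := by
    intro a b c h
    rw [← shc_nonsingular h.a1 h.a3 a, h.isE.nonsingular]
    ring
  exact ⟨key h, key h.rot, key h.rot.rot⟩

/-- The points of order two with given signs. -/
theorem exists_tor {u v w : F} (hu : u = 1 ∨ u = -1) (hv : v = 1 ∨ v = -1) (hw : w = 1 ∨ w = -1)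
    (hp : u * v * w = 1) :
    ∃ P : W.Point, P + P = 0 ∧ sC a P = u ∧ sC b P = v ∧ sC c P = w := by
  obtain ⟨na, nb, nc⟩ := nonsC h
  have h11 : (1 : F) ≠ -1 := fun h' => h.two (by linear_combination h')
  have t2 : ∀ {x : F} (hx : W.Nonsingular x 0), Point.some x 0 hx + Point.some x 0 hx = 0 := by
    intro x hx
    rw [← sh_two h.a1 h.a3 a]
    exact (add_self_eq_zero_iff h.isE _).2 rfl
  rcases hu with rfl | rfl <;> rcases hv with rfl | rfl <;> rcases hw with rfl | rfl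
  · exact ⟨0, add_zero 0, rfl, rfl, rfl⟩
  · exact absurd (by linear_combination -hp) h11
  · exact absurd (by linear_combination -hp) h11
  · exact ⟨_, t2 na, by simp [sC], by simp [sC, h.ab], by simp [sC, h.ac]⟩
  · exact absurd (by linear_combination -hp) h11
  · exact ⟨_, t2 nb, by simp [sC, h.ab.symm], by simp [sC], by simp [sC, h.bc]⟩
  · exact ⟨_, t2 nc, by simp [sC, h.ac.symm], by simp [sC, h.bc.symm], by simp [sC]⟩
  · exact absurd (by linear_combination -hp) h11

theorem sC_prod {P : W.Point} (hP : P + P = 0) : sC a P * sC b P * sC c P = 1 := by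
  rcases torC h hP with ⟨-, e1, e2, e3⟩ | ⟨_, -, e1, e2, e3⟩ | ⟨_, -, e1, e2, e3⟩ | ⟨_, -, e1, e2, e3⟩ <;>
    rw [e1, e2, e3] <;> ring

theorem halveC [IsSepClosed F] (Q : W.Point) : ∃ P : W.Point, P + P = Q := by
  obtain ⟨P', hP'⟩ := halve_sep h.isE (sh h.a1 h.a3 a Q)
  obtain ⟨P, rfl⟩ := sh_surj h.a1 h.a3 a P'
  exact ⟨P, sh_inj h.a1 h.a3 a (by rw [sh_add]; exact hP')⟩

end cub

universe u

section action

variable {K Ω Ω' : Type u} [Field K] [Field Ω] [Field Ω'] [Algebra K Ω] [Algebra K Ω']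

theorem sC_act (W : WeierstrassCurve K) (φ : Ω →ₐ[K] Ω') (a : Ω) (P : Pt W Ω) :
    sC (φ a) (act W φ P) = φ (sC a P) := by
  rcases P with _ | ⟨x, y, hxy⟩
  · rw [act_zero]; simp [sC]
  · obtain ⟨h, hh⟩ := act_some W φ hxy
    rw [hh]
    have : φ x = φ a ↔ x = a := φ.injective.eq_iff
    simp only [sC, this]
    split_ifs <;> simp

theorem sC_act' (W : WeierstrassCurve K) (φ : Ω →ₐ[K] Ω) (a : Ω) (P : Pt W Ω) :
    sC (φ a) (act W φ P) = sC a P := by
  rw [sC_act]
  rcases sC_sq (a := a) P with h | h <;> rw [h] <;> simp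

theorem dc_act (W : WeierstrassCurve K) (φ : Ω →ₐ[K] Ω') (a b c : Ω) (P : Pt W Ω) :
    dc (φ a) (φ b) (φ c) (act W φ P) = φ (dc a b c P) := by
  rcases P with _ | ⟨x, y, hxy⟩
  · rw [act_zero]; simp [dc]
  · obtain ⟨h, hh⟩ := act_some W φ hxy
    rw [hh]
    have : φ x = φ a ↔ x = a := φ.injective.eq_iff
    simp only [dc, this]
    split_ifs <;> simp

theorem hc_act (W : WeierstrassCurve K) (φ : Ω →ₐ[K] Ω') (a b c : Ω) (P : Pt W Ω) :
    hc (φ a) (φ b) (φ c) (act W φ P) = φ (hc a b c P) := by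
  unfold hc
  have e : ∀ (x y z w : Ω), (φ x - φ y) * (φ z - φ w) = φ ((x - y) * (z - w)) := by
    intro x y z w
    rw [map_mul, map_sub, map_sub]
  rw [e, e, e, rt_act, rt_act, rt_act]
  simp only [two_act, map_eq_zero]
  split_ifs <;> simp

end action

end Pool.Agent.TH115.GD
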