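import Pool.Agent.TH115.GD.Des
import Pool.Agent.TH115.TC.Shift

/-!
Local triviality does not depend on the embedding, and can be transferred to extensions of the
completion.
-/

set_option autoImplicit false
set_option linter.all false

open WeierstrassCurve WeierstrassCurve.Affine
open scoped Classical

namespace Pool.Agent.TH115.GD

universe u

section emb

variable {F Ω Ω' : Type u} [Field F] [Field Ω] [Field Ω'] [Algebra F Ω] [Algebra F Ω']
  [Normal F Ω]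

/-- Two embeddings differ by an automorphism. -/
theorem exists_aut (l c : Ω →ₐ[F] Ω') : ∃ ρ : Ω ≃ₐ[F] Ω, ∀ x, c x = l (ρ x) := by
  letI : Algebra Ω Ω' := l.toRingHom.toAlgebra
  haveI : IsScalarTower F Ω Ω' := IsScalarTower.of_algebraMap_eq fun x => (l.commutes x).symm
  refine ⟨AlgHom.restrictNormal' c Ω, fun x => ?_⟩
  exact (c.restrictNormal_commutes Ω x).symm

end emb

section transfer

variable {K F Ω L Ω' E Ω'' : Type u} [Field K] [Field F] [Field Ω] [Field L] [Field Ω'] [Field E]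
  [Field Ω''] [Algebra K F] [Algebra F Ω] [Algebra K Ω] [IsScalarTower K F Ω] [IsGalois F Ω]
  [Algebra K L] [Algebra F L] [IsScalarTower K F L]
  [Algebra L Ω'] [Algebra K Ω'] [Algebra F Ω'] [IsScalarTower K L Ω'] [IsScalarTower F L Ω']
  [IsScalarTower K F Ω'] [IsGalois L Ω']
  [Algebra K E] [Algebra E Ω''] [Algebra K Ω''] [Algebra F Ω''] [Algebra F E]
  [IsScalarTower K E Ω''] [IsScalarTower K F Ω''] [IsScalarTower F E Ω'']
  (W : WeierstrassCurve K)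

theorem transfer {f : (Ω ≃ₐ[F] Ω) → Pt W Ω} (hf : IsCoc W f) (hf2 : ∀ σ, f σ + f σ = 0)
    (hloc : LocTriv W L Ω' f) (κ : Ω' →ₐ[F] Ω'')
    (hκ : ∀ τ : Ω'' ≃ₐ[E] Ω'', ∃ τ' : Ω' ≃ₐ[L] Ω', ∀ x, τ (κ x) = κ (τ' x))
    (c : Ω →ₐ[F] Ω'') :
    ∃ (P : Pt W Ω'') (Q : Pt W L), P + P = act W ((κ.restrictScalars K).comp (incl K L Ω')) Q ∧
      ∀ (τ : Ω'' ≃ₐ[E] Ω'') (σ : Ω ≃ₐ[F] Ω), (∀ x, τ (c x) = c (σ x)) →
        act W (c.restrictScalars K) (f σ) = act W (rs K τ) P - P := by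
  obtain ⟨ι, P0, hP⟩ := hloc
  choose res hres using exists_restrict (F := F) (Ω := Ω) (L := L) (Ω' := Ω') ι
  set ι' : Ω →ₐ[K] Ω' := ι.restrictScalars K with hι'
  set κ' : Ω' →ₐ[K] Ω'' := κ.restrictScalars K with hκ'
  obtain ⟨ρ, hρ⟩ := exists_aut (κ.comp ι) c
  have hT : ∀ τ : Ω' ≃ₐ[L] Ω', act W ι' (f (res τ)) = act W (rs K τ) P0 - P0 :=
    fun τ => hP τ (res τ) (hres τ)
  have hPP : ∀ τ : Ω' ≃ₐ[L] Ω', act W (rs K τ) (P0 + P0) = P0 + P0 := by
    intro τ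
    have h1 : act W (rs K τ) P0 = P0 + act W ι' (f (res τ)) := by rw [hT]; abel
    rw [map_add, h1, add_add_add_comm, (two_act W ι' _).2 (hf2 _), add_zero]
  obtain ⟨Q, hQ⟩ := fixed_point (K := K) (F := L) W (P0 + P0) hPP
  refine ⟨act W κ' P0 + act W (κ'.comp ι') (f ρ), Q, ?_, fun τ σ h => ?_⟩
  · rw [add_add_add_comm, (two_act W _ _).2 (hf2 ρ), add_zero, ← map_add, ← hQ, act_act]
  · obtain ⟨τ', hτ'⟩ := hκ τ
    -- `res τ' = ρ σ ρ⁻¹`
    have hconj : ∀ x, τ' (ι x) = ι ((ρ * σ * ρ⁻¹) x) := by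
      intro x
      apply κ.injective
      show κ (τ' (ι x)) = κ (ι ((ρ * σ * ρ⁻¹) x))
      rw [← hτ']
      have e1 : κ (ι x) = c (ρ⁻¹ x) := by
        rw [hρ, ← AlgEquiv.mul_apply, mul_inv_cancel]; rfl
      rw [e1, h, hρ]
      rfl
    have h1 := hP τ' _ hconj
    have h2 : f (ρ * σ * ρ⁻¹ * ρ) = f (ρ * σ * ρ⁻¹) + act W (rs K (ρ * σ * ρ⁻¹)) (f ρ) :=
      hf.mul _ _
    have h3 : ρ * σ * ρ⁻¹ * ρ = ρ * σ := by group
    rw [h3, hf.mul] at h2
    have h4 : act W (rs K ρ) (f σ) = f (ρ * σ * ρ⁻¹) + act W (rs K (ρ * σ * ρ⁻¹)) (f ρ) - f ρ := by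
      rw [← h2]; abel
    have ec : act W (c.restrictScalars K) (f σ) = act W (κ'.comp ι') (act W (rs K ρ) (f σ)) := by
      have e6 : (κ'.comp ι').comp (rs K ρ) = c.restrictScalars K := AlgHom.ext fun x => (hρ x).symm
      rw [act_act, e6]
    have e5 : act W (κ'.comp ι') (f (ρ * σ * ρ⁻¹)) = act W (rs K τ) (act W κ' P0) - act W κ' P0 := by
      have e6 : (κ').comp (rs K τ') = (rs K τ).comp κ' := AlgHom.ext fun x => (hτ' x).symm
      rw [← act_act, h1, map_sub, act_act, act_act, e6]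
    have e7 : act W (κ'.comp ι') (act W (rs K (ρ * σ * ρ⁻¹)) (f ρ)) =
        act W (rs K τ) (act W (κ'.comp ι') (f ρ)) := by
      have e8 : (κ'.comp ι').comp (rs K (ρ * σ * ρ⁻¹)) = (rs K τ).comp (κ'.comp ι') := by
        refine AlgHom.ext fun x => ?_
        show κ (ι ((ρ * σ * ρ⁻¹) x)) = τ (κ (ι x))
        rw [hτ', hconj]
      rw [act_act, act_act, e8]
    rw [ec, h4, map_sub, map_add, e5, e7, map_add]
    abel

end transfer

end Pool.Agent.TH115.GD
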