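import Pool.Agent.TH115.TC.InertR

/-!
Elements with even valuations, and the class group.
-/

set_option autoImplicit false
set_option linter.all false

open Polynomial IsDedekindDomain WithZero
open scoped Classical nonZeroDivisors

namespace Pool.Agent.TH115.GD

section even

variable {R N : Type} [CommRing R] [IsDedekindDomain R] [Field N] [Algebra R N]
  [IsFractionRing R N]

omit [Field N] [Algebra R N] [IsFractionRing R N] in
theorem ideal_sq {r : R} (hr : r ≠ 0)
    (hev : ∀ v : HeightOneSpectrum R, IsSquare (v.intValuation r)) :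
    ∃ J : Ideal R, J ≠ ⊥ ∧ Ideal.span {r} = J ^ 2 := by
  have hI : Ideal.span {r} ≠ (⊥ : Ideal R) := by
    rw [Ne, Ideal.span_singleton_eq_bot]
    exact hr
  obtain ⟨b, hb⟩ := Associates.is_pow_of_dvd_count (a := Associates.mk (Ideal.span {r})) (k := 2)
    (Associates.mk_ne_zero.2 hI) (by
      intro p hp
      obtain ⟨p, rfl⟩ := Associates.mk_surjective p
      have hp' : Irreducible p := Associates.irreducible_mk.1 hp
      let v : HeightOneSpectrum R := ⟨p, Ideal.isPrime_of_prime hp'.prime, hp'.ne_zero⟩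
      have h1 := hev v
      rw [v.intValuation_if_neg hr, isSquare_exp] at h1
      have h3 : Even (((Associates.mk v.asIdeal).count
          (Associates.mk (Ideal.span {r} : Ideal R)).factors : ℕ) : ℤ) := even_neg.1 h1
      exact even_iff_two_dvd.1 (by exact_mod_cast h3))
  obtain ⟨J, rfl⟩ := Associates.mk_surjective b
  rw [← Associates.mk_pow, Associates.mk_eq_mk_iff_associated, associated_iff_eq] at hb
  refine ⟨J, ?_, hb⟩
  rintro rfl
  apply hI
  rw [hb, Ideal.bot_pow two_ne_zero]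

/-- The class of an element with even valuations. -/
def ClsOf (z : N) (c : ClassGroup R) : Prop :=
  ∃ (r b : R) (J : Ideal R) (hJ : J ∈ (Ideal R)⁰), r ≠ 0 ∧ b ≠ 0 ∧
    z * algebraMap R N b ^ 2 = algebraMap R N r ∧ Ideal.span {r} = J ^ 2 ∧
    ClassGroup.mk0 ⟨J, hJ⟩ = c

theorem exists_cls {z : N} (hz : z ≠ 0)
    (hev : ∀ v : HeightOneSpectrum R, IsSquare (v.valuation N z)) :
    ∃ c : ClassGroup R, ClsOf z c ∧ c ^ 2 = 1 := by
  obtain ⟨a, b, hb, rfl⟩ := IsFractionRing.div_surjective (A := R) z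
  have hb0 : b ≠ 0 := nonZeroDivisors.ne_zero hb
  have hbN : algebraMap R N b ≠ 0 := by
    rw [Ne, map_eq_zero_iff _ (IsFractionRing.injective R N)]
    exact hb0
  have ha0 : a ≠ 0 := by
    rintro rfl
    rw [map_zero, zero_div] at hz
    exact hz rfl
  have hr : a * b ≠ 0 := mul_ne_zero ha0 hb0
  have e : algebraMap R N a / algebraMap R N b * algebraMap R N b ^ 2 =
      algebraMap R N (a * b) := by
    rw [map_mul]
    field_simp
  obtain ⟨J, hJ, hJ2⟩ := ideal_sq hr (by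
    intro v
    have h1 : v.valuation N (algebraMap R N (a * b)) = v.intValuation (a * b) :=
      v.valuation_of_algebraMap _
    rw [← h1, ← e, map_mul, map_pow, pow_two]
    exact (hev v).mul ⟨_, rfl⟩)
  have hJm : J ∈ (Ideal R)⁰ := mem_nonZeroDivisors_of_ne_zero hJ
  refine ⟨ClassGroup.mk0 ⟨J, hJm⟩, ⟨a * b, b, J, hJm, hr, hb0, e, hJ2, rfl⟩, ?_⟩
  rw [← map_pow]
  have h1 : (⟨J, hJm⟩ : (Ideal R)⁰) ^ 2 = ⟨J ^ 2, pow_mem hJm 2⟩ := rfl
  rw [h1, ClassGroup.mk0_eq_one_iff, ← hJ2]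
  exact ⟨⟨a * b, rfl⟩⟩

theorem cls_eq {z z' : N} {c : ClassGroup R} (h : ClsOf z c) (h' : ClsOf z' c) :
    ∃ (ε : Rˣ) (g : N), g ≠ 0 ∧ z = algebraMap R N ε * g ^ 2 * z' := by
  obtain ⟨r, b, J, hJ, hr, hb, hz, hJ2, hc⟩ := h
  obtain ⟨r', b', J', hJ', hr', hb', hz', hJ2', hc'⟩ := h'
  obtain ⟨x, y, hx, hy, hxy⟩ := ClassGroup.mk0_eq_mk0_iff.1 (hc.trans hc'.symm)
  have h1 : Ideal.span {x ^ 2 * r} = Ideal.span {y ^ 2 * r'} := by
    rw [← Ideal.span_singleton_mul_span_singleton, ← Ideal.span_singleton_mul_span_singleton,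
      ← Ideal.span_singleton_pow, ← Ideal.span_singleton_pow, hJ2, hJ2', ← mul_pow, ← mul_pow]
    have h3 : Ideal.span {x} * J = Ideal.span {y} * J' := hxy
    rw [h3]
  rw [Ideal.span_singleton_eq_span_singleton] at h1
  obtain ⟨ε, hε⟩ := h1.symm
  have inj := IsFractionRing.injective R N
  have hxN : algebraMap R N x ≠ 0 := by rw [Ne, map_eq_zero_iff _ inj]; exact hx
  have hyN : algebraMap R N y ≠ 0 := by rw [Ne, map_eq_zero_iff _ inj]; exact hy
  have hbN : algebraMap R N b ≠ 0 := by rw [Ne, map_eq_zero_iff _ inj]; exact hb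
  have hbN' : algebraMap R N b' ≠ 0 := by rw [Ne, map_eq_zero_iff _ inj]; exact hb'
  refine ⟨ε, algebraMap R N y * algebraMap R N b' / (algebraMap R N x * algebraMap R N b),
    div_ne_zero (mul_ne_zero hyN hbN') (mul_ne_zero hxN hbN), ?_⟩
  have h5 := congrArg (algebraMap R N) hε
  simp only [map_mul, map_pow] at h5
  rw [← hz, ← hz'] at h5
  field_simp
  linear_combination -h5

variable {k : Type} [Field k] [Algebra k[X] R] [Algebra k[X] N] [IsScalarTower k[X] R N]

/-- Representatives of the elements with even valuations. -/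
theorem reps [Finite {c : ClassGroup R // c ^ 2 = 1}] {U : Finset Rˣ}
    (hU : ∀ ε : Rˣ, ∃ η ∈ U, ∃ (u : k) (v : Rˣ), (ε : R) = algebraMap k[X] R (C u) * v ^ 2 * η) :
    ∃ S : Finset N, S.card ≤ Nat.card {c : ClassGroup R // c ^ 2 = 1} * U.card ∧
      ∀ z : N, z ≠ 0 → (∀ v : HeightOneSpectrum R, IsSquare (v.valuation N z)) →
      ∃ w ∈ S, ∃ (u : k) (g : N), u ≠ 0 ∧ g ≠ 0 ∧ z = algebraMap k[X] N (C u) * g ^ 2 * w := by
  haveI := Fintype.ofFinite {c : ClassGroup R // c ^ 2 = 1}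
  let Z : {c : ClassGroup R // c ^ 2 = 1} → N := fun c =>
    if h : ∃ z : N, ClsOf z c.1 then h.choose else 1
  have hZ : ∀ (c : {c : ClassGroup R // c ^ 2 = 1}), (∃ z : N, ClsOf z c.1) → ClsOf (Z c) c.1 := by
    intro c h
    have e : Z c = h.choose := dif_pos h
    rw [e]
    exact h.choose_spec
  refine ⟨(Finset.univ ×ˢ U).image (fun p => algebraMap R N p.2 * Z p.1), ?_, ?_⟩
  · refine Finset.card_image_le.trans ?_
    rw [Finset.card_product, Finset.card_univ, Nat.card_eq_fintype_card]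
  · intro z hz hev
    obtain ⟨c, hc, hc2⟩ := exists_cls hz hev
    obtain ⟨ε, g, hg, e⟩ := cls_eq hc (hZ ⟨c, hc2⟩ ⟨z, hc⟩)
    obtain ⟨η, hη, u, v, hε⟩ := hU ε
    refine ⟨algebraMap R N η * Z ⟨c, hc2⟩, Finset.mem_image.2 ⟨(⟨c, hc2⟩, η),
      Finset.mem_product.2 ⟨Finset.mem_univ _, hη⟩, rfl⟩, u, algebraMap R N v * g, ?_, ?_, ?_⟩
    · rintro rfl
      rw [C_0, map_zero, zero_mul, zero_mul] at hε
      exact ε.ne_zero hε
    · refine mul_ne_zero ?_ hg
      rw [Ne, map_eq_zero_iff _ (IsFractionRing.injective R N)]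
      exact v.ne_zero
    · rw [e, hε]
      simp only [map_mul, map_pow, ← IsScalarTower.algebraMap_apply k[X] R N]
      ring

end even

end Pool.Agent.TH115.GD
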