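import Pool.Agent.TH115.TC.Tower5

/-!
All levels of the tower.
-/

set_option autoImplicit false
set_option linter.all false

open Polynomial IsDedekindDomain WithZero
open scoped Classical

namespace Pool.Agent.TH115.GD

section adj

variable {k L : Type} [Field k] [Field L] [Algebra k L]

theorem adjoin_self (θ τ : L) (hθ : θ ∈ IntermediateField.adjoin k {θ, τ})
    (hτ : τ ∈ IntermediateField.adjoin k {θ, τ}) :
    IntermediateField.adjoin k
      ({⟨θ, hθ⟩, ⟨τ, hτ⟩} : Set (IntermediateField.adjoin k ({θ, τ} : Set L))) = ⊤ := by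
  set S := IntermediateField.adjoin k ({θ, τ} : Set L) with hS
  set T := IntermediateField.adjoin k ({⟨θ, hθ⟩, ⟨τ, hτ⟩} : Set S) with hT
  have h1 : S ≤ T.map S.val := by
    refine (IntermediateField.adjoin_le_iff (F := k) (S := ({θ, τ} : Set L))).2 ?_
    intro x hx
    rcases hx with rfl | hx
    · exact ⟨⟨x, hθ⟩, IntermediateField.subset_adjoin k _ (Or.inl rfl), rfl⟩
    · rw [Set.mem_singleton_iff] at hx
      subst hx
      exact ⟨⟨x, hτ⟩, IntermediateField.subset_adjoin k _ (Or.inr rfl), rfl⟩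
  rw [eq_top_iff]
  intro x _
  obtain ⟨y, hy, e⟩ := h1 x.2
  have : y = x := Subtype.ext e
  rw [← this]
  exact hy

end adj

theorem lev_all {k : Type} [Field k] (h2 : (2 : k) ≠ 0) {s : k} (hs0 : s ≠ 0) {g : k[X]} (hmon : g.Monic)
    (hdeg : g.natDegree = 3) (hsep : g.Separable) : ∀ (l : List (k × k)), (∀ p ∈ l, p.1 ≠ 0) →
    (∀ γ ∈ crit l, Good g (s * γ ^ 2)) → ∀ (L : Type) [Field L] [Algebra k L] (θ t : L),
    Transcendental k θ → IntermediateField.adjoin k {θ, t} = ⊤ →
    algebraMap k L s * (aeval t (cq l)) ^ 2 = -aeval θ g →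
    ∃ (R : Type) (_ : CommRing R) (_ : IsDedekindDomain R) (_ : Algebra k R) (_ : Algebra R L)
      (_ : IsFractionRing R L) (_ : IsScalarTower k R L) (θ' t' : R), Lev s g (cq l) θ t R θ' t' := by
  intro l
  induction l with
  | nil =>
    intro _ _ L _ _ θ t hθ htop ht
    have e : aeval t (cq ([] : List (k × k))) = t := aeval_X t
    rw [e] at ht
    exact lev_base h2 hs0 hmon hdeg hsep hθ htop ht
  | cons p l ih =>
    intro hl hgood L _ _ θ t hθ htop ht
    have hp1 : p.1 ≠ 0 := hl p (List.mem_cons_self)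
    set τ : L := algebraMap k L p.1 * t ^ 2 + algebraMap k L p.2 with hτ
    have hθm : θ ∈ IntermediateField.adjoin k ({θ, τ} : Set L) :=
      IntermediateField.subset_adjoin k _ (Or.inl rfl)
    have hτm : τ ∈ IntermediateField.adjoin k ({θ, τ} : Set L) :=
      IntermediateField.subset_adjoin k _ (Or.inr rfl)
    have haev : ∀ x : L, aeval x (cq (p :: l)) =
        aeval (algebraMap k L p.1 * x ^ 2 + algebraMap k L p.2) (cq l) := by
      intro x
      show aeval x ((cq l).comp (C p.1 * X ^ 2 + C p.2)) = _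
      rw [aeval_comp]
      simp
    let L' := IntermediateField.adjoin k ({θ, τ} : Set L)
    have hθ' : Transcendental k (⟨θ, hθm⟩ : L') := by
      intro h
      exact hθ (h.algebraMap (A := L))
    obtain ⟨R', i1, i2, i3, i4, i5, i6, θR, τR, hL⟩ := ih (fun q hq => hl q (List.mem_cons_of_mem _ hq))
      (fun γ hγ => hgood γ (List.mem_cons_of_mem _ hγ)) L' ⟨θ, hθm⟩ ⟨τ, hτm⟩ hθ'
      (adjoin_self θ τ hθm hτm) (by
        apply (algebraMap L' L).injective
        rw [map_mul, map_pow, map_neg, ← aeval_algebraMap_apply, ← aeval_algebraMap_apply]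
        show algebraMap k L s * (aeval τ (cq l)) ^ 2 = -aeval θ g
        rw [← ht, haev])
    exact lev_step h2 hdeg hL hp1 (hgood _ List.mem_cons_self)
      (top_of_top (k := k) (L' := L') htop (θ' := ⟨θ, hθm⟩) rfl) rfl

end Pool.Agent.TH115.GD
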