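import Pool.Agent.TH115.TC.Crit
import Pool.Agent.TH115.TC.Tower6

/-!
The family `y ^ 2 = g(x) + h(t) ^ 2`: smoothness, discriminant, no points of order two.
-/

set_option autoImplicit false
set_option linter.all false

open Polynomial IsDedekindDomain WithZero
open scoped Classical

namespace Pool.Agent.TH115.GD

section defs

variable {k : Type} [Field k]

/-- The cubic polynomial `x ^ 3 + b2 x ^ 2 + b1 x + b0`. -/
noncomputable def cb (b2 b1 b0 : k) : k[X] := X ^ 3 + C b2 * X ^ 2 + C b1 * X + C b0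

theorem cb_deg (b2 b1 b0 : k) : (cb b2 b1 b0).natDegree = 3 ∧ (cb b2 b1 b0).Monic := by
  have h1 : (cb b2 b1 b0).natDegree = 3 := by
    unfold cb
    compute_degree!
  refine ⟨h1, ?_⟩
  rw [Monic, leadingCoeff, h1]
  unfold cb
  simp [coeff_X, coeff_C]

theorem cb_add (b2 b1 b0 c : k) : cb b2 b1 b0 + C c = cb b2 b1 (b0 + c) := by
  unfold cb
  rw [C_add]; ring

theorem cb_der (b2 b1 b0 : k) : derivative (cb b2 b1 b0) = 3 * X ^ 2 + 2 * C b2 * X + C b1 := by
  unfold cb
  simp only [derivative_add, derivative_mul, derivative_pow, derivative_X, derivative_C]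
  push_cast
  simp only [map_ofNat]
  ring

theorem cq_cons (p : k × k) (l : List (k × k)) :
    cq (p :: l) = (cq l).comp (C p.1 * X ^ 2 + C p.2) := rfl

theorem cq_deg : ∀ l : List (k × k), (∀ p ∈ l, p.1 ≠ 0) → (cq l).natDegree = 2 ^ l.length := by
  intro l
  induction l with
  | nil => intro _; exact natDegree_X
  | cons p l ih =>
    intro hl
    have hp : p.1 ≠ 0 := hl p List.mem_cons_self
    rw [cq_cons, natDegree_comp, ih (fun q hq => hl q (List.mem_cons_of_mem _ hq))]
    have h1 : (C p.1 * X ^ 2 + C p.2 : k[X]).natDegree = 2 := by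
      rw [natDegree_add_C, natDegree_C_mul_X_pow 2 _ hp]
    rw [h1, List.length_cons, pow_succ]

theorem cq_zero (l : List (k × k)) : (cq l).eval 0 = 0 ∨ (cq l).eval 0 ∈ crit l := by
  cases l with
  | nil => left; exact eval_X
  | cons p l =>
    right
    have e : (cq (p :: l)).eval 0 = (cq l).eval p.2 := by
      rw [cq_cons, eval_comp]
      simp
    rw [e]
    exact List.mem_cons_self

theorem crit_val {κ : Type} [Field κ] [Algebra k κ] (h2 : (2 : κ) ≠ 0) :
    ∀ l : List (k × k), (∀ p ∈ l, p.1 ≠ 0) → ∀ t : κ, aeval t (derivative (cq l)) = 0 →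
      ∃ γ ∈ crit l, aeval t (cq l) = algebraMap k κ γ := by
  intro l
  induction l with
  | nil =>
    intro _ t h
    have h1 : derivative (cq ([] : List (k × k))) = 1 := derivative_X
    rw [h1, map_one] at h
    exact absurd h one_ne_zero
  | cons p l ih =>
    intro hl t h
    have hp : p.1 ≠ 0 := hl p List.mem_cons_self
    have ha : algebraMap k κ p.1 ≠ 0 := (_root_.map_ne_zero _).2 hp
    have e : aeval t (cq (p :: l)) =
        aeval (algebraMap k κ p.1 * t ^ 2 + algebraMap k κ p.2) (cq l) := by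
      rw [cq_cons, aeval_comp]
      simp
    have ed : aeval t (derivative (cq (p :: l))) = (2 * algebraMap k κ p.1 * t) *
        aeval (algebraMap k κ p.1 * t ^ 2 + algebraMap k κ p.2) (derivative (cq l)) := by
      rw [cq_cons, derivative_comp, map_mul, aeval_comp]
      simp only [derivative_add, derivative_mul, derivative_pow, derivative_X, derivative_C,
        map_add, map_mul, map_pow, aeval_C, aeval_X, map_zero, map_one]
      simp
      left
      rw [map_ofNat]
      ring
    rw [ed] at h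
    rcases mul_eq_zero.1 h with h1 | h1
    · have ht : t = 0 := by
        rcases mul_eq_zero.1 h1 with h3 | h3
        · exact absurd h3 (mul_ne_zero h2 ha)
        · exact h3
      refine ⟨(cq l).eval p.2, List.mem_cons_self, ?_⟩
      rw [e, ht]
      simp only [ne_eq, OfNat.ofNat_ne_zero, not_false_eq_true, zero_pow, mul_zero, zero_add]
      rw [aeval_algebraMap_apply]
      congr 1
    · obtain ⟨γ, hγ, h3⟩ := ih (fun q hq => hl q (List.mem_cons_of_mem _ hq)) _ h1
      exact ⟨γ, List.mem_cons_of_mem _ hγ, by rw [e, h3]⟩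

theorem disc_of_sep {a b c : k} (hs : (cb a b c).Separable) :
    a ^ 2 * b ^ 2 - 4 * b ^ 3 - 4 * a ^ 3 * c - 27 * c ^ 2 + 18 * a * b * c ≠ 0 := by
  let P : Cubic k := ⟨1, a, b, c⟩
  have hP : P.toPoly = cb a b c := by
    show C 1 * X ^ 3 + C a * X ^ 2 + C b * X + C c = _
    rw [C_1, one_mul]
    rfl
  have ha : P.a ≠ 0 := one_ne_zero
  have hsp : (P.toPoly.map (algebraMap k (AlgebraicClosure k))).Splits :=
    IsAlgClosed.splits _
  have h1 : (Cubic.map (algebraMap k (AlgebraicClosure k)) P).roots.Nodup := by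
    rw [Cubic.map_roots, hP]
    exact nodup_roots (hs.map)
  have h3 := (Cubic.discr_ne_zero_iff_roots_nodup ha hsp).2 h1
  have h4 : P.discr = a ^ 2 * b ^ 2 - 4 * b ^ 3 - 4 * a ^ 3 * c - 27 * c ^ 2 + 18 * a * b * c := by
    show a ^ 2 * b ^ 2 - 4 * 1 * b ^ 3 - 4 * a ^ 3 * c - 27 * 1 ^ 2 * c ^ 2 + 18 * 1 * a * b * c = _
    ring
  rwa [h4] at h3

end defs

section fam

variable {k : Type} [Field k] {b2 b1 b0 s : k} {l : List (k × k)}

theorem sep_zero (hsep : (cb b2 b1 b0).Separable)
    (hgood : ∀ γ ∈ crit l, Good (cb b2 b1 b0) (s * γ ^ 2)) :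
    (cb b2 b1 (b0 + s * ((cq l).eval 0) ^ 2)).Separable := by
  rcases cq_zero l with h | h
  · rw [h, zero_pow two_ne_zero, mul_zero, add_zero]; exact hsep
  · have := (hgood _ h).2.1
    rwa [cb_add] at this

theorem disc_fam {K : Type} [Field K] [Algebra k[X] K] [IsFractionRing k[X] K] (h2 : (2 : k) ≠ 0)
    (hsep : (cb b2 b1 b0).Separable)
    (hgood : ∀ γ ∈ crit l, Good (cb b2 b1 b0) (s * γ ^ 2)) :
    (crvC (algebraMap k[X] K (C b2)) (algebraMap k[X] K (C b1))
      (algebraMap k[X] K (C b0 + C s * cq l ^ 2))).Δ ≠ 0 := by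
  rw [crvC_disc]
  have h1 := disc_of_sep (sep_zero hsep hgood)
  set D : k[X] := 16 * ((C b2) ^ 2 * (C b1) ^ 2 - 4 * (C b1) ^ 3 -
    4 * (C b2) ^ 3 * (C b0 + C s * cq l ^ 2)
    - 27 * (C b0 + C s * cq l ^ 2) ^ 2 + 18 * C b2 * C b1 * (C b0 + C s * cq l ^ 2)) with hD
  have hD0 : D ≠ 0 := by
    intro h0
    have h3 := congrArg (eval 0) h0
    rw [hD] at h3
    simp only [eval_mul, eval_add, eval_sub, eval_pow, eval_C, eval_ofNat, eval_zero] at h3
    rcases mul_eq_zero.1 h3 with h4 | h4
    · have h5 : (16 : k) = 2 ^ 4 := by norm_num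
      rw [h5] at h4
      exact pow_ne_zero 4 h2 h4
    · exact h1 h4
  have e : algebraMap k[X] K D ≠ 0 := by
    rw [Ne, map_eq_zero_iff _ (IsFractionRing.injective k[X] K)]
    exact hD0
  rw [hD] at e
  simp only [map_mul, map_sub, map_add, map_pow, map_ofNat] at e
  simp only [map_add, map_pow, map_mul]
  exact e

theorem smooth_fam (h2 : (2 : k) ≠ 0) (hsep : (cb b2 b1 b0).Separable)
    (hs0 : s ≠ 0)
    (hl : ∀ p ∈ l, p.1 ≠ 0) (hgood : ∀ γ ∈ crit l, Good (cb b2 b1 b0) (s * γ ^ 2)) :
    SmoothC (C b2) (C b1) (C b0 + C s * cq l ^ 2) := by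
  set f : k[X][X] := X ^ 3 + C (C b2) * X ^ 2 + C (C b1) * X + C (C b0 + C s * cq l ^ 2) with hf
  set fx : k[X][X] := 3 * X ^ 2 + 2 * C (C b2) * X + C (C b1) with hfx
  set ft : k[X][X] := C (derivative (C b2)) * X ^ 2 + C (derivative (C b1)) * X +
    C (derivative (C b0 + C s * cq l ^ 2)) with hft
  have hft' : ft = C (C s * derivative (cq l ^ 2)) := by
    rw [hft]
    simp
  have key : Ideal.span ({f, fx, ft} : Set k[X][X]) = ⊤ := by
    by_contra hne
    obtain ⟨m, hm, hle⟩ := Ideal.exists_le_maximal _ hne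
    haveI := hm
    letI : Field (k[X][X] ⧸ m) := Ideal.Quotient.field m
    let φ : k[X][X] →+* (k[X][X] ⧸ m) := Ideal.Quotient.mk m
    letI : Algebra k (k[X][X] ⧸ m) := (φ.comp ((C : k[X] →+* k[X][X]).comp C)).toAlgebra
    have hz : ∀ p ∈ ({f, fx, ft} : Set k[X][X]), φ p = 0 := fun p hp =>
      Ideal.Quotient.eq_zero_iff_mem.2 (hle (Ideal.subset_span hp))
    have hf0 := hz f (by simp)
    have hfx0 := hz fx (by simp)
    have hft0 := hz ft (by simp)
    have hCt : ∀ p : k[X], φ (C p) = aeval (φ (C X)) p := by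
      intro p
      rw [aeval_def, eval₂_eq_sum_range]
      conv_lhs => rw [p.as_sum_range_C_mul_X_pow]
      simp only [map_sum, map_mul, map_pow]
      rfl
    have hk : ∀ c : k, φ (C (C c)) = algebraMap k (k[X][X] ⧸ m) c := fun c => rfl
    set x := φ X with hx
    set t := φ (C X) with ht
    have hgx : aeval x (cb b2 b1 b0) +
        algebraMap k (k[X][X] ⧸ m) s * (aeval t (cq l)) ^ 2 = 0 := by
      rw [hf] at hf0
      rw [← hf0]
      simp only [cb, map_add, map_mul, map_pow, aeval_C, aeval_X, hk, hCt]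
      ring
    have hgx' : aeval x (derivative (cb b2 b1 b0)) = 0 := by
      rw [hfx] at hfx0
      rw [← hfx0, cb_der]
      simp only [map_add, map_mul, map_pow, aeval_C, aeval_X, hk, map_ofNat]
      rfl
    have h2κ : (2 : k[X][X] ⧸ m) ≠ 0 := by
      have h3 : algebraMap k (k[X][X] ⧸ m) 2 ≠ 0 := (_root_.map_ne_zero _).2 h2
      rwa [map_ofNat] at h3
    have hprod : aeval t (cq l) = 0 ∨ aeval t (derivative (cq l)) = 0 := by
      rw [hft', hCt, map_mul, aeval_C] at hft0
      have e : derivative (cq l ^ 2) = 2 * (cq l * derivative (cq l)) := by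
        rw [derivative_pow]
        push_cast
        simp only [map_ofNat]
        ring
      rw [e, map_mul, map_mul, map_ofNat] at hft0
      rcases mul_eq_zero.1 ((mul_eq_zero.1 hft0).resolve_left ((_root_.map_ne_zero _).2 hs0))
        with h3 | h3
      · exact absurd h3 h2κ
      · exact mul_eq_zero.1 h3
    have hsepx : ∀ G : k[X], G.Separable → aeval x G = 0 → aeval x (derivative G) = 0 → False := by
      rintro G ⟨u, v, e⟩ h3 h4
      have e' := congrArg (aeval x) e
      rw [map_add, map_mul, map_mul, h3, h4, mul_zero, mul_zero, add_zero, map_one] at e'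
      exact zero_ne_one e'
    rcases hprod with h3 | h3
    · rw [h3, zero_pow two_ne_zero, mul_zero, add_zero] at hgx
      exact hsepx _ hsep hgx hgx'
    · obtain ⟨γ, hγ, h4⟩ := crit_val h2κ l hl t h3
      refine hsepx _ (hgood γ hγ).2.1 ?_ ?_
      · rw [map_add, aeval_C, map_mul, map_pow, ← h4]
        exact hgx
      · rw [derivative_add, derivative_C, add_zero]
        exact hgx'
  have h1 : (1 : k[X][X]) ∈ Ideal.span ({f, fx, ft} : Set k[X][X]) := by rw [key]; trivial
  obtain ⟨U, V, T, e⟩ := Submodule.mem_span_triple.1 h1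
  exact ⟨U, V, T, e⟩

end fam

end Pool.Agent.TH115.GD
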