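import Pool.Agent.TH115.TC.FamA

/-!
The Tate conjecture at 2 for the family `y ^ 2 = g(x) + h(t) ^ 2`.
-/

set_option autoImplicit false
set_option linter.all false

open Polynomial IsDedekindDomain WithZero
open scoped Classical

namespace Pool.Agent.TH115.GD

section int

variable {k R : Type} [Field k] [CommRing R] [Algebra k R] [Algebra k[X] R] [IsScalarTower k k[X] R]
  {b2 b1 b0 s : k}

theorem int_fam {θR tR : R} {h : k[X]} (ht : algebraMap k[X] R X = tR)
    (heqR : algebraMap k R s * (aeval tR h) ^ 2 = -aeval θR (cb b2 b1 b0))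
    (hint : ((aeval θR : k[X] →ₐ[k] R) : k[X] →+* R).IsIntegral) : Algebra.IsIntegral k[X] R := by
  have hCt : ∀ p : k[X], algebraMap k[X] R p = aeval tR p := by
    intro p
    rw [← ht, aeval_algebraMap_apply, aeval_X_left_apply]
  have hθint : IsIntegral k[X] θR := by
    refine ⟨(cb b2 b1 b0).map C + C (C s * h ^ 2), ?_, ?_⟩
    · apply Monic.add_of_left ((cb_deg b2 b1 b0).2.map _)
      have h1 : ((cb b2 b1 b0).map (C : k →+* k[X])).degree = 3 := by
        rw [degree_map, degree_eq_natDegree (cb_deg b2 b1 b0).2.ne_zero, (cb_deg b2 b1 b0).1]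
        rfl
      rw [h1]
      exact lt_of_le_of_lt degree_C_le (by norm_num)
    · rw [eval₂_add, eval₂_C, eval₂_map]
      have e1 : (algebraMap k[X] R).comp C = algebraMap k R := by
        rw [IsScalarTower.algebraMap_eq k k[X] R]
        rfl
      rw [e1, ← aeval_def, hCt, map_mul, aeval_C, map_pow, heqR]
      ring
  haveI : Algebra.IsIntegral k[X] (Algebra.adjoin k[X] ({θR} : Set R)) := by
    refine Algebra.IsIntegral.adjoin (fun x hx => ?_)
    rw [Set.mem_singleton_iff] at hx
    subst hx
    exact hθint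
  refine ⟨fun x => ?_⟩
  have hx : IsIntegral (Algebra.adjoin k[X] ({θR} : Set R)) x := by
    obtain ⟨p, hp, he⟩ := hint x
    have hmem : ∀ q : k[X], ((aeval θR : k[X] →ₐ[k] R) : k[X] →+* R) q ∈
        Algebra.adjoin k[X] ({θR} : Set R) := by
      intro q
      have hθm : θR ∈ Algebra.adjoin k[X] ({θR} : Set R) :=
        Algebra.subset_adjoin (Set.mem_singleton θR)
      have hcm : ∀ c : k, algebraMap k R c ∈ Algebra.adjoin k[X] ({θR} : Set R) := by
        intro c
        rw [IsScalarTower.algebraMap_apply k k[X] R]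
        exact Subalgebra.algebraMap_mem _ _
      have e : ((aeval θR : k[X] →ₐ[k] R) : k[X] →+* R) q =
          ∑ i ∈ Finset.range (q.natDegree + 1), algebraMap k R (q.coeff i) * θR ^ i := by
        show aeval θR q = _
        rw [aeval_def, eval₂_eq_sum_range]
      rw [e]
      exact Subalgebra.sum_mem _ fun i _ => Subalgebra.mul_mem _ (hcm _) (Subalgebra.pow_mem _ hθm i)
    let ψ : k[X] →+* Algebra.adjoin k[X] ({θR} : Set R) :=
      ((aeval θR : k[X] →ₐ[k] R) : k[X] →+* R).codRestrict _ hmem
    refine ⟨p.map ψ, hp.map _, ?_⟩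
    rw [eval₂_map]
    exact he
  exact isIntegral_trans x hx

end int

section fam

variable {k k' K F : Type} [Field k] [Field k'] [Algebra k k'] [Field K] [Algebra k[X] K]
  [Field F] [Algebra k'[X] F] [IsFractionRing k'[X] F] [Algebra K F]
  {b2 b1 b0 s : k} {l : List (k × k)}

/-- The curve `y ^ 2 = x ^ 3 + b2 x ^ 2 + b1 x + b0 + s h(t) ^ 2`. -/
noncomputable def famC (K : Type) [Field K] [Algebra k[X] K] (b2 b1 b0 s : k) (h : k[X]) :
    WeierstrassCurve K :=
  crvC (algebraMap k[X] K (C b2)) (algebraMap k[X] K (C b1))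
    (algebraMap k[X] K (C b0 + C s * h ^ 2))

theorem hnr_fam (hT : IsTower k k' K F) (hs0 : s ≠ 0) (hl : ∀ p ∈ l, p.1 ≠ 0) (x : F) :
    cub (famC K b2 b1 b0 s (cq l)) x ≠ 0 := by
  intro hx
  set φ := algebraMap k k' with hφ
  have hx' : x ^ 3 + algebraMap k'[X] F (C (φ b2)) * x ^ 2 + algebraMap k'[X] F (C (φ b1)) * x +
      algebraMap k'[X] F (C (φ b0) + C (φ s) * ((cq l).map φ) ^ 2) = 0 := by
    have h1 : algebraMap K F (algebraMap k[X] K (C b2)) = algebraMap k'[X] F (C (φ b2)) := by
      rw [hT.map, map_C]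
    have h3 : algebraMap K F (algebraMap k[X] K (C b1)) = algebraMap k'[X] F (C (φ b1)) := by
      rw [hT.map, map_C]
    have h4 : algebraMap K F (algebraMap k[X] K (C b0 + C s * cq l ^ 2)) =
        algebraMap k'[X] F (C (φ b0) + C (φ s) * ((cq l).map φ) ^ 2) := by
      rw [hT.map, Polynomial.map_add, map_C, Polynomial.map_mul, map_C, Polynomial.map_pow]
    rw [← h1, ← h3, ← h4]
    exact hx
  have hint : IsIntegral k'[X] x := by
    refine ⟨X ^ 3 + C (C (φ b2)) * X ^ 2 + C (C (φ b1)) * X +
      C (C (φ b0) + C (φ s) * ((cq l).map φ) ^ 2), ?_, ?_⟩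
    · monicity!
    · simp only [eval₂_add, eval₂_mul, eval₂_pow, eval₂_X, eval₂_C]
      exact hx'
  obtain ⟨y, rfl⟩ := (IsIntegrallyClosed.isIntegral_iff (K := F)).1 hint
  have hφs : φ s ≠ 0 := (_root_.map_ne_zero _).2 hs0
  have hy : (cb (φ b2) (φ b1) (φ b0)).comp y = -(C (φ s) * ((cq l).map φ) ^ 2) := by
    apply IsFractionRing.injective k'[X] F
    have e : (cb (φ b2) (φ b1) (φ b0)).comp y =
        y ^ 3 + C (φ b2) * y ^ 2 + C (φ b1) * y + C (φ b0) := by
      unfold cb
      simp
    rw [e]
    simp only [map_add, map_mul, map_pow, map_neg] at hx' ⊢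
    linear_combination hx'
  have h1 := congrArg natDegree hy
  rw [natDegree_comp, (cb_deg _ _ _).1, natDegree_neg, natDegree_C_mul hφs, natDegree_pow,
    natDegree_map, cq_deg l hl] at h1
  have h3 : 3 ∣ 2 ^ (l.length + 1) := ⟨y.natDegree, by rw [pow_succ]; omega⟩
  have h4 := Nat.Prime.dvd_of_dvd_pow Nat.prime_three h3
  omega

variable {N : Type} [Field N] [Algebra K N] [Algebra k[X] N] [IsScalarTower k[X] K N]

theorem famN (hT : IsTower k k' K F) (h2 : (2 : k) ≠ 0) (hsep : (cb b2 b1 b0).Separable)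
    (hs0 : s ≠ 0) (hor : IsSquare s ∨ ∀ r, (cb b2 b1 b0).eval r ≠ 0)
    (hl : ∀ p ∈ l, p.1 ≠ 0) (hgood : ∀ γ ∈ crit l, Good (cb b2 b1 b0) (s * γ ^ 2)) {θ : N}
    (hθ : cub (famC K b2 b1 b0 s (cq l)) θ = 0) (hNtop : IntermediateField.adjoin K {θ} = ⊤) :
    TateAtTwo (F := F) k' (famC K b2 b1 b0 s (cq l)) := by
  haveI := hT.fracK
  letI : Algebra k N := ((algebraMap k[X] N).comp C).toAlgebra
  have hk : ∀ c : k, algebraMap k N c = algebraMap k[X] N (C c) := fun c => rfl
  set t : N := algebraMap k[X] N X with ht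
  have hinj : Function.Injective (algebraMap k[X] N) := by
    rw [IsScalarTower.algebraMap_eq k[X] K N]
    exact (algebraMap K N).injective.comp (IsFractionRing.injective k[X] K)
  have hCt : ∀ p : k[X], algebraMap k[X] N p = aeval t p := by
    intro p
    have e : algebraMap k[X] N = ((aeval t : k[X] →ₐ[k] N) : k[X] →+* N) := by
      apply Polynomial.ringHom_ext
      · intro c
        rw [← hk]
        exact (aeval_C t c).symm
      · exact (aeval_X t).symm
    rw [e]
    rfl
  have htr : Transcendental k t := by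
    rw [transcendental_iff_injective]
    intro p q hpq
    exact hinj (by rw [hCt, hCt]; exact hpq)
  have heq : algebraMap k N s * (aeval t (cq l)) ^ 2 = -aeval θ (cb b2 b1 b0) := by
    have e : cub (famC K b2 b1 b0 s (cq l)) θ = θ ^ 3 + algebraMap K N (algebraMap k[X] K (C b2)) * θ ^ 2 +
      algebraMap K N (algebraMap k[X] K (C b1)) * θ +
      algebraMap K N (algebraMap k[X] K (C b0 + C s * cq l ^ 2)) := rfl
    rw [e, ← IsScalarTower.algebraMap_apply k[X] K N, ← IsScalarTower.algebraMap_apply k[X] K N,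
      ← IsScalarTower.algebraMap_apply k[X] K N, map_add, map_mul, map_pow, ← hk, ← hk, ← hk, ← hk,
      hCt] at hθ
    unfold cb
    simp only [map_add, map_mul, map_pow, aeval_C, aeval_X]
    linear_combination hθ
  have hθtr : Transcendental k θ := by
    intro hθa
    have h1 : IsAlgebraic k (-aeval θ (cb b2 b1 b0)) := by
      rw [isAlgebraic_iff_isIntegral] at hθa ⊢
      refine IsIntegral.neg ?_
      unfold cb
      simp only [map_add, map_mul, map_pow, aeval_C, aeval_X]
      exact (((hθa.pow 3).add (isIntegral_algebraMap.mul (hθa.pow 2))).add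
        (isIntegral_algebraMap.mul hθa)).add isIntegral_algebraMap
    have e7 : algebraMap k N s * (aeval t (cq l)) ^ 2 = aeval t (C s * cq l ^ 2) := by
      rw [map_mul, map_pow, aeval_C]
    rw [← heq, e7] at h1
    refine htr.aeval (C s * cq l ^ 2) ?_ ?_ h1
    · rw [natDegree_C_mul hs0, natDegree_pow, cq_deg l hl]
      positivity
    · apply mem_nonZeroDivisors_of_ne_zero
      rw [Ne, leadingCoeff_eq_zero]
      intro h0
      have h3 : (C s * cq l ^ 2).natDegree = 0 := by rw [h0, natDegree_zero]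
      rw [natDegree_C_mul hs0, natDegree_pow, cq_deg l hl] at h3
      have : 0 < 2 * 2 ^ l.length := by positivity
      omega
  have htop : IntermediateField.adjoin k ({θ, t} : Set N) = ⊤ := by
    set T := IntermediateField.adjoin k ({θ, t} : Set N) with hTdef
    have hθT : θ ∈ T := IntermediateField.subset_adjoin k _ (Or.inl rfl)
    have htT : t ∈ T := IntermediateField.subset_adjoin k _ (Or.inr rfl)
    have hp : ∀ p : k[X], algebraMap k[X] N p ∈ T := by
      intro p
      rw [hCt, aeval_def, eval₂_eq_sum_range]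
      exact sum_mem fun i _ => mul_mem (T.algebraMap_mem _) (pow_mem htT i)
    rw [eq_top_iff]
    intro x _
    have hx : x ∈ IntermediateField.adjoin K {θ} := by rw [hNtop]; trivial
    refine IntermediateField.adjoin_induction K (p := fun x _ => x ∈ T) ?_ ?_ ?_ ?_ ?_ hx
    · intro y hy
      rw [Set.mem_singleton_iff] at hy
      subst hy
      exact hθT
    · intro y
      obtain ⟨n, d, hd, rfl⟩ := IsFractionRing.div_surjective (A := k[X]) y
      rw [map_div₀, ← IsScalarTower.algebraMap_apply k[X] K N,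
        ← IsScalarTower.algebraMap_apply k[X] K N]
      exact div_mem (hp n) (hp d)
    · intro x y _ _ hx hy
      exact add_mem hx hy
    · intro x _ hx
      exact inv_mem hx
    · intro x y _ _ hx hy
      exact mul_mem hx hy
  obtain ⟨R, i1, i2, i3, i4, i5, i6, θR, tR, hL⟩ := lev_all h2 hs0 (cb_deg b2 b1 b0).2
    (cb_deg b2 b1 b0).1 hsep l hl hgood N θ t hθtr htop heq
  letI : Algebra k[X] R := ((aeval tR : k[X] →ₐ[k] R) : k[X] →+* R).toAlgebra
  haveI : IsScalarTower k[X] R N := IsScalarTower.of_algebraMap_eq fun p => by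
    show _ = algebraMap R N (aeval tR p)
    rw [← aeval_algebraMap_apply, hL.ht, hCt]
  haveI : IsScalarTower k k[X] R := IsScalarTower.of_algebraMap_eq fun c => by
    show _ = aeval tR (C c)
    rw [aeval_C]
  haveI : Algebra.IsIntegral k[X] R := by
    have heqR : algebraMap k R s * (aeval tR (cq l)) ^ 2 = -aeval θR (cb b2 b1 b0) := by
      apply IsFractionRing.injective R N
      rw [map_mul, map_pow, map_neg, ← IsScalarTower.algebraMap_apply k R N,
        ← aeval_algebraMap_apply, ← aeval_algebraMap_apply, hL.ht, hL.hθ, heq]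
    exact int_fam (aeval_X tR) heqR hL.int
  refine mainC (R := R) hT h2 (smooth_fam h2 hsep hs0 hl hgood) (disc_fam h2 hsep hgood)
    (hnr_fam hT hs0 hl) hθ hNtop ?_
  intro z hz hev
  obtain ⟨c, A, w, hc, hA, hw, e⟩ := hL.even z hz hev
  rcases hA with rfl | ⟨r, hr, rfl⟩
  · refine ⟨c, w, hc, hw, Or.inl ?_⟩
    rw [e, map_one, mul_one, hk]
  · obtain ⟨s1, hs1⟩ := hor.resolve_right fun h => h r hr
    refine ⟨-c, w, neg_ne_zero.2 hc, hw, Or.inr ⟨algebraMap k[X] K (C r),
      algebraMap k[X] K (C s1 * cq l), ?_, ?_⟩⟩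
    · have h1 : cub (crvC (algebraMap k[X] K (C b2)) (algebraMap k[X] K (C b1))
          (algebraMap k[X] K (C b0 + C s * cq l ^ 2))) (algebraMap k[X] K (C r)) =
          algebraMap k[X] K (C ((cb b2 b1 b0).eval r) + C s * cq l ^ 2) := by
        have e1 : ∀ a b c x : K, cub (crvC a b c) x = x ^ 3 + a * x ^ 2 + b * x + c :=
          fun a b c x => rfl
        rw [e1]
        unfold cb
        simp only [eval_add, eval_mul, eval_pow, eval_X, eval_C, map_add, map_mul, map_pow]
        ring
      rw [h1, hr, C_0, zero_add, hs1, C_mul]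
      simp only [map_mul, map_pow]
      ring
    · rw [e, ← IsScalarTower.algebraMap_apply k[X] K N, ← hk, ← hk, map_neg, map_sub, aeval_X,
        aeval_C]
      ring

end fam

end Pool.Agent.TH115.GD
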