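import Pool.Agent.TH115.GD.Gen
import Pool.Agent.TH115.ID.Step

/-!
The number of generators of the fixed classes: the general step.
-/

set_option autoImplicit false
set_option linter.all false

open Polynomial IsDedekindDomain WeierstrassCurve WeierstrassCurve.Affine
open scoped Classical

namespace Pool.Agent.TH115.GD

section gen

variable {k' K F : Type} [Field k'] [Field K] [Field F] [Algebra K F] [Algebra k'[X] F]
  [IsFractionRing k'[X] F] {W : WeierstrassCurve K}

/-- The coboundary of a point of order two. -/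
def Cob2 (f : (Sep F ≃ₐ[F] Sep F) → Pt W (Sep F)) : Prop :=
  ∃ H : Pt W (Sep F), H + H = 0 ∧ ∀ σ, f σ = act W (rs K σ) H - H

/-- Independence modulo two. -/
def Indep2 {m : ℕ} (e : Fin m → ℕ → (Sep F ≃ₐ[F] Sep F) → Pt W (Sep F)) : Prop :=
  ∀ z : Fin m → ℤ, (∃ i, Odd (z i)) → ¬ Cob2 (comb e z 1)

theorem step2 (hdiv : ∀ X : Pt W (Sep F), ∃ Y : Pt W (Sep F), Y + Y = X)
    {c : ℕ → (Sep F ≃ₐ[F] Sep F) → Pt W (Sep F)} (hc : IsTateClass k' W c) (hV : Cob2 (c 1)) :
    ∃ c' : ℕ → (Sep F ≃ₐ[F] Sep F) → Pt W (Sep F), IsTateClass k' W c' ∧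
      ∃ H : ℕ → Pt W (Sep F), (∀ n, 2 ^ n • H n = 0) ∧
        ∀ n σ, c n σ = 2 • c' n σ + (act W (rs K σ) (H n) - H n) := by
  obtain ⟨H, hH, hcH⟩ := hV
  obtain ⟨G, G0, G1, GS⟩ := halves (P := (0 : Pt W K)) hdiv (H := H) (by rw [hH, map_zero])
  have G0' : G 0 = 0 := by rw [G0, map_zero]
  refine ⟨_, div_class hc G0 GS (fun σ => by rw [G1]; exact hcH σ), G, fun n => ?_, fun n σ => ?_⟩
  · induction n with
    | zero => rw [G0', smul_zero]
    | succ n ih => rw [pow_succ, mul_smul, GS, ih]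
  · show c n σ = 2 • (c (n + 1) σ - (act W (rs K σ) (G (n + 1)) - G (n + 1))) +
      (act W (rs K σ) (G n) - G n)
    rw [smul_sub, smul_sub, ← map_nsmul, GS, hc.tc.two]
    abel

/-- The bound for the number of generators. -/
theorem gen_of_indep (hdiv : ∀ X : Pt W (Sep F), ∃ Y : Pt W (Sep F), Y + Y = X) {d : ℕ}
    (hle : ∀ (m : ℕ) (e : Fin m → ℕ → (Sep F ≃ₐ[F] Sep F) → Pt W (Sep F)),
      (∀ i, IsTateClass k' W (e i)) → Indep2 e → m ≤ d) : GeneratedBy (F := F) k' W d := by
  let Good : ℕ → Prop := fun m => ∃ e : Fin m → ℕ → (Sep F ≃ₐ[F] Sep F) → Pt W (Sep F),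
    (∀ i, IsTateClass k' W (e i)) ∧ Indep2 e
  have good0 : Good 0 := ⟨fun i => i.elim0, fun i => i.elim0, fun z ⟨i, _⟩ => i.elim0⟩
  have goodle : ∀ m, Good m → m ≤ d := by
    rintro m ⟨e, he, hi⟩
    exact hle m e he hi
  obtain ⟨m, hm, hm1⟩ : ∃ m, Good m ∧ ¬ Good (m + 1) := by
    by_contra hcon
    push Not at hcon
    have all : ∀ m, Good m := fun m => Nat.rec good0 (fun m ih => hcon m ih) m
    have := goodle _ (all (d + 1))
    omega
  obtain ⟨e, he, hi⟩ := hm
  -- every class is a combination modulo two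
  have key : ∀ c, IsTateClass k' W c → ∃ z : Fin m → ℤ, Cob2 (fun σ => c 1 σ + comb e z 1 σ) := by
    intro c hc
    by_contra hcon
    push Not at hcon
    apply hm1
    refine ⟨Fin.cons c e, fun i => ?_, ?_⟩
    · refine Fin.cases ?_ (fun i => ?_) i
      · exact hc
      · exact he i
    · intro z hz hV
      have hc2 : ∀ σ, c 1 σ + c 1 σ = 0 := fun σ => by
        rw [← two_nsmul, hc.tc.two 0 σ, hc.tc.zero]
      have hsplit : comb (Fin.cons c e) z 1 =
          fun σ => z 0 • c 1 σ + comb e (fun i => z i.succ) 1 σ := by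
        funext σ
        show ∑ i, z i • (Fin.cons c e : Fin (m + 1) → _) i 1 σ = _
        rw [Fin.sum_univ_succ]
        rfl
      have hc2' : ∀ σ, (2 : ℤ) • c 1 σ = 0 := fun σ => by rw [two_zsmul]; exact hc2 σ
      rcases Int.even_or_odd (z 0) with h0 | h0
      · obtain ⟨w, hw⟩ := h0
        have h3 : ∀ σ, z 0 • c 1 σ = 0 := fun σ => by
          rw [hw, ← two_mul, mul_comm, mul_smul, hc2', smul_zero]
        simp only [h3, zero_add] at hsplit
        rw [hsplit] at hV
        obtain ⟨j, hj⟩ := hz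
        refine hi (fun i => z i.succ) ?_ hV
        refine Fin.cases (motive := fun j => Odd (z j) → ∃ i : Fin m, Odd (z i.succ)) ?_ ?_ j hj
        · intro h4
          exfalso
          rw [← Int.not_even_iff_odd] at h4
          exact h4 ⟨w, hw⟩
        · intro i h4
          exact ⟨i, h4⟩
      · obtain ⟨w, hw⟩ := h0
        have h3 : ∀ σ, z 0 • c 1 σ = c 1 σ := fun σ => by
          rw [hw, add_smul, mul_comm, mul_smul, hc2', smul_zero, zero_add, one_smul]
        simp only [h3] at hsplit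
        rw [hsplit] at hV
        exact hcon _ hV
  refine ⟨m, e, goodle m ⟨e, he, hi⟩, he, fun c hc n => ?_⟩
  -- successive approximation
  have approx : ∀ (j : ℕ) (c : ℕ → (Sep F ≃ₐ[F] Sep F) → Pt W (Sep F)),
      IsTateClass k' W c →
      ∃ (z : Fin m → ℤ) (c' : ℕ → (Sep F ≃ₐ[F] Sep F) → Pt W (Sep F)) (R : ℕ → _),
        IsTateClass k' W c' ∧ (∀ n, 2 ^ (n + 1) • R n = 0) ∧
        ∀ n σ, c n σ = comb e z n σ + 2 ^ j • c' n σ + (act W (rs K σ) (R n) - R n) := by
    intro j
    induction j with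
    | zero =>
      intro c hc
      refine ⟨fun _ => 0, c, fun _ => 0, hc, fun n => smul_zero _, fun n σ => ?_⟩
      have : comb e (fun _ => 0) n σ = 0 := by
        show ∑ i, (0 : ℤ) • e i n σ = 0
        simp
      rw [this, map_zero, pow_zero, one_smul]
      abel
    | succ j ih =>
      intro c hc
      obtain ⟨z, c', R, hc', hR, hcc⟩ := ih c hc
      obtain ⟨y, hV⟩ := key c' hc'
      obtain ⟨c'', hc'', H, hH, hstep⟩ := step2 hdiv (hc'.add (IsTateClass.comb he y)) hV
      refine ⟨fun i => z i - 2 ^ j * y i, c'', fun n => R n + 2 ^ j • H n, hc'', fun n => ?_,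
        fun n σ => ?_⟩
      · show 2 ^ (n + 1) • (R n + 2 ^ j • H n) = 0
        rw [smul_add, hR, zero_add, smul_comm, pow_succ', mul_smul, hH, smul_zero, smul_zero]
      · have h3 : c' n σ = 2 • c'' n σ + (act W (rs K σ) (H n) - H n) - comb e y n σ := by
          have := hstep n σ
          have h4 : c' n σ + comb e y n σ = 2 • c'' n σ + (act W (rs K σ) (H n) - H n) := this
          rw [← h4]; abel
        have h5 : comb e (fun i => z i - 2 ^ j * y i) n σ =
            comb e z n σ - 2 ^ j • comb e y n σ := by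
          show ∑ i, (z i - 2 ^ j * y i) • e i n σ = ∑ i, z i • e i n σ -
            2 ^ j • ∑ i, y i • e i n σ
          rw [Finset.smul_sum, ← Finset.sum_sub_distrib]
          refine Finset.sum_congr rfl fun i _ => ?_
          rw [sub_smul, mul_smul, ← natCast_zsmul]
          push_cast
          rfl
        beta_reduce
        rw [hcc n σ, h3, h5, map_add, map_nsmul, smul_sub, smul_add, smul_sub]
        have h6 : 2 ^ j • 2 • c'' n σ = 2 ^ (j + 1) • c'' n σ := by
          rw [← mul_smul, pow_succ]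
        rw [h6]
        generalize 2 ^ j • H n = X1
        generalize 2 ^ j • comb e y n σ = X2
        generalize 2 ^ j • (act W (rs K σ)) (H n) = X3
        abel
  obtain ⟨z, c', R, hc', hR, hcc⟩ := approx n c hc
  have hpow : ∀ (n : ℕ) σ, 2 ^ n • c' n σ = 0 := by
    intro n σ
    induction n with
    | zero => rw [hc'.tc.zero, smul_zero]
    | succ n ih => rw [pow_succ, mul_smul, hc'.tc.two, ih]
  refine ⟨z, R n, hR n, fun σ => ?_⟩
  rw [hcc n σ, hpow, add_zero]
  rfl

end gen

end Pool.Agent.TH115.GD
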