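import Pool.Agent.TH115.TC.HalfMain

/-!
Twists with one prime which is not inert: the Tate conjecture in rank one.
-/

set_option autoImplicit false
set_option linter.all false

open Polynomial IsDedekindDomain WeierstrassCurve WeierstrassCurve.Affine WithZero
open scoped Classical nonZeroDivisors

namespace Pool.Agent.TH115.GD

section res

variable {k : Type} [Field k] {R : Type} [CommRing R] [Algebra k[X] R]

/-- At a prime of degree two the function `θ` is not congruent to a rational function of `t`. -/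
theorem not_cong {a2 a4 a6 π u : k[X]} {θR : R} (hπ : Irreducible π)
    (h : HalfAt a2 a4 a6 π u) (h2 : (2 : k) ≠ 0)
    (hrel : aeval θR (cubX a2 a4 a6) = 0) {P : Ideal R} [hPp : P.IsPrime]
    (hv : ∀ q : k[X], algebraMap k[X] R q ∈ P ↔ π ∣ q)
    (hu : θR - algebraMap k[X] R u ∉ P) {A B : k[X]} (hB : ¬ π ∣ B) :
    algebraMap k[X] R A - algebraMap k[X] R B * θR ∉ P := by
  intro hmem
  obtain ⟨hq, -, -⟩ := half_out hπ h h2 hrel hv hu
  obtain ⟨s, r, hsr⟩ := hπ.coprime_iff_not_dvd.2 hB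
  have hsr' : algebraMap k[X] R s * algebraMap k[X] R π +
      algebraMap k[X] R r * algebraMap k[X] R B = 1 := by
    rw [← map_mul, ← map_mul, ← map_add, hsr, map_one]
  have hw : θR - algebraMap k[X] R (r * A) ∈ P := by
    have e : θR - algebraMap k[X] R (r * A) = algebraMap k[X] R s * θR * algebraMap k[X] R π -
        algebraMap k[X] R r * (algebraMap k[X] R A - algebraMap k[X] R B * θR) := by
      rw [map_mul]
      linear_combination -θR * hsr'
    rw [e]
    exact P.sub_mem (P.mul_mem_left _ ((hv _).2 dvd_rfl)) (P.mul_mem_left _ hmem)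
  apply h.2 (r * A)
  rw [← hv]
  have e : algebraMap k[X] R ((r * A) ^ 2 + (a2 + u) * (r * A) + (u ^ 2 + a2 * u + a4)) =
      aeval θR (quadX a2 a4 u) - (θR - algebraMap k[X] R (r * A)) *
        (θR + algebraMap k[X] R (r * A) + algebraMap k[X] R (a2 + u)) := by
    rw [aeval_quadX]
    simp only [map_add, map_mul, map_pow]
    ring
  rw [e]
  exact P.sub_mem hq (P.mul_mem_right _ hw)

/-- The root modulo `π` is unique. -/
theorem root_uniq {a2 a4 a6 π u u' : k[X]} (hπ : Irreducible π)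
    (h : HalfAt a2 a4 a6 π u) (h' : π ∣ u' ^ 3 + a2 * u' ^ 2 + a4 * u' + a6) : π ∣ u' - u := by
  have e : (u' - u) * (u' ^ 2 + (a2 + u) * u' + (u ^ 2 + a2 * u + a4)) =
      (u' ^ 3 + a2 * u' ^ 2 + a4 * u' + a6) - (u ^ 3 + a2 * u ^ 2 + a4 * u + a6) := by ring
  have h1 : π ∣ (u' - u) * (u' ^ 2 + (a2 + u) * u' + (u ^ 2 + a2 * u + a4)) := by
    rw [e]
    exact dvd_sub h' h.1
  exact (hπ.prime.dvd_or_dvd h1).resolve_right (h.2 u')

end res

section exc

variable {k K N R : Type} [Field k] [Field K] [Algebra k[X] K] [IsFractionRing k[X] K]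
  [Field N] [Algebra K N] [Algebra k[X] N] [IsScalarTower k[X] K N]
  [CommRing R] [IsDedekindDomain R] [Algebra R N] [IsFractionRing R N]
  [Algebra k[X] R] [IsScalarTower k[X] R N] [Algebra.IsIntegral k[X] R]

theorem ker_aeval {a2 a4 a6 : k[X]}
    (hnr : ∀ x : K, cub (crvC (algebraMap k[X] K a2) (algebraMap k[X] K a4)
      (algebraMap k[X] K a6)) x ≠ 0) {θR : R}
    (hθ : cub (crvC (algebraMap k[X] K a2) (algebraMap k[X] K a4)
      (algebraMap k[X] K a6)) (algebraMap R N θR) = 0) {p : k[X][X]} (hp : aeval θR p = 0) :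
    cubX a2 a4 a6 ∣ p := by
  have hint : IsIntegral k[X] θR := Algebra.IsIntegral.isIntegral θR
  haveI : Module.IsTorsionFree k[X] R := by
    rw [Module.isTorsionFree_iff_algebraMap_injective]
    intro x y h
    have h1 := congrArg (algebraMap R N) h
    rw [← IsScalarTower.algebraMap_apply k[X] R N, ← IsScalarTower.algebraMap_apply k[X] R N,
      IsScalarTower.algebraMap_apply k[X] K N, IsScalarTower.algebraMap_apply k[X] K N] at h1
    exact IsFractionRing.injective k[X] K ((algebraMap K N).injective h1)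
  have hmp : minpoly k[X] θR = cubX a2 a4 a6 := by
    have h1 := minpoly.isIntegrallyClosed_eq_field_fractions K N hint
    have h3 : minpoly K (algebraMap R N θR) = cubP (crvC (algebraMap k[X] K a2)
        (algebraMap k[X] K a4) (algebraMap k[X] K a6)) K := by
      refine (minpoly.eq_of_irreducible_of_monic (cubP_irr hnr) ?_ cubP_deg.2).symm
      rw [cubP_aeval]
      exact hθ
    rw [h3] at h1
    apply map_injective (algebraMap k[X] K) (IsFractionRing.injective k[X] K)
    rw [← h1]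
    simp [cubP, cubX, crvC]
  rw [← hmp]
  exact minpoly.isIntegrallyClosed_dvd hint hp

/-- The prime of degree two exists. -/
theorem exists_exc (h2 : (2 : k) ≠ 0) {a2 a4 a6 π u : k[X]} (hπ : Irreducible π)
    (h : HalfAt a2 a4 a6 π u)
    (hΔ : (crvC (algebraMap k[X] K a2) (algebraMap k[X] K a4)
      (algebraMap k[X] K a6)).Δ ≠ 0)
    (hnr : ∀ x : K, cub (crvC (algebraMap k[X] K a2) (algebraMap k[X] K a4)
      (algebraMap k[X] K a6)) x ≠ 0) {θR : R}
    (hθ : cub (crvC (algebraMap k[X] K a2) (algebraMap k[X] K a4)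
      (algebraMap k[X] K a6)) (algebraMap R N θR) = 0)
    (hNtop : IntermediateField.adjoin K {algebraMap R N θR} = ⊤)
    (hinj : Function.Injective (algebraMap k[X] R)) :
    ∃ P : HeightOneSpectrum R, algebraMap k[X] R π ∈ P.asIdeal ∧
      θR - algebraMap k[X] R u ∉ P.asIdeal := by
  haveI : Fact (Irreducible π) := ⟨hπ⟩
  have hcond := cond_der (R := R) hΔ hnr hθ hNtop
  have hprop : Ideal.span {algebraMap k[X] R π, aeval θR (quadX a2 a4 u)} ≠ ⊤ := by
    intro htop
    have h1 : (1 : R) ∈ Ideal.span {algebraMap k[X] R π, aeval θR (quadX a2 a4 u)} := by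
      rw [htop]; trivial
    obtain ⟨r, s, hrs⟩ := Ideal.mem_span_pair.1 h1
    obtain ⟨p1, hp1⟩ := hcond r
    obtain ⟨p2, hp2⟩ := hcond s
    have h3 : aeval θR (derivative (cubX a2 a4 a6) - p1 * C π - p2 * quadX a2 a4 u) = 0 := by
      rw [map_sub, map_sub, map_mul, map_mul, aeval_C, ← hp1, ← hp2]
      linear_combination -(aeval θR (derivative (cubX a2 a4 a6))) * hrs
    obtain ⟨s', hs'⟩ := ker_aeval hnr hθ h3
    have e1 : cubX a2 a4 a6 = (X - C u) * quadX a2 a4 u +
        C (u ^ 3 + a2 * u ^ 2 + a4 * u + a6) := by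
      simp only [cubX, quadX, C_add, C_mul, C_pow]
      ring
    have e3 : derivative (cubX a2 a4 a6) = quadX a2 a4 u + (X - C u) * (C 2 * X + C (a2 + u)) := by
      rw [cubX_der]
      simp only [quadX, C_add, C_mul, C_pow, map_ofNat]
      ring
    have hroot : AdjoinRoot.mk π (u ^ 3 + a2 * u ^ 2 + a4 * u + a6) = 0 :=
      AdjoinRoot.mk_eq_zero.2 h.1
    have hπ0 : AdjoinRoot.mk π π = 0 := AdjoinRoot.mk_self
    have h5 := congrArg (Polynomial.map (AdjoinRoot.mk π)) hs'
    rw [e3, e1] at h5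
    simp only [Polynomial.map_sub, Polynomial.map_add, Polynomial.map_mul, map_C, map_X, hroot,
      hπ0, C_0, mul_zero, sub_zero, add_zero] at h5
    set q := (quadX a2 a4 u).map (AdjoinRoot.mk π) with hq
    have hqirr : Irreducible q := quadX_irr h
    have hqd : q.natDegree = 2 := by
      rw [hq, (quadX_deg a2 a4 u).2.natDegree_map, (quadX_deg a2 a4 u).1]
    have hdvd : q ∣ (X - C (AdjoinRoot.mk π u)) *
        (C (AdjoinRoot.mk π 2) * X + (C (AdjoinRoot.mk π a2) + C (AdjoinRoot.mk π u))) := by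
      refine ⟨(X - C (AdjoinRoot.mk π u)) * s'.map (AdjoinRoot.mk π) - 1 +
        p2.map (AdjoinRoot.mk π), ?_⟩
      have h7 := h5
      simp only [map_add, C_add] at h7 ⊢
      linear_combination h7
    have h2' : AdjoinRoot.mk π 2 ≠ 0 := by
      rw [Ne, AdjoinRoot.mk_eq_zero]
      intro h8
      have h4 : IsUnit (2 : k[X]) := by
        have h1 : IsUnit (2 : k) := isUnit_iff_ne_zero.2 h2
        have h3 := h1.map (C : k →+* k[X])
        rwa [map_ofNat] at h3
      exact hπ.not_isUnit (isUnit_of_dvd_unit h8 h4)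
    rcases hqirr.prime.dvd_or_dvd hdvd with h8 | h8
    · have h9 := natDegree_le_of_dvd h8 (X_sub_C_ne_zero _)
      rw [hqd, natDegree_X_sub_C] at h9
      omega
    · have h10 : (C (AdjoinRoot.mk π 2) * X + (C (AdjoinRoot.mk π a2) + C (AdjoinRoot.mk π u)) :
          (AdjoinRoot π)[X]) = C (AdjoinRoot.mk π 2) * X + C (AdjoinRoot.mk π a2 +
            AdjoinRoot.mk π u) := by rw [C_add]
      rw [h10] at h8
      have h11 : (C (AdjoinRoot.mk π 2) * X + C (AdjoinRoot.mk π a2 +
            AdjoinRoot.mk π u)).natDegree = 1 := natDegree_linear h2'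
      have h12 : (C (AdjoinRoot.mk π 2) * X + C (AdjoinRoot.mk π a2 +
            AdjoinRoot.mk π u)) ≠ 0 := by
        intro h0
        rw [h0, natDegree_zero] at h11
        omega
      have h9 := natDegree_le_of_dvd h8 h12
      rw [hqd, h11] at h9
      omega
  obtain ⟨m, hm, hle⟩ := Ideal.exists_le_maximal _ hprop
  have hπm : algebraMap k[X] R π ∈ m := hle (Ideal.subset_span (Or.inl rfl))
  have hqm : aeval θR (quadX a2 a4 u) ∈ m := hle (Ideal.subset_span (Or.inr rfl))
  let P : HeightOneSpectrum R := ⟨m, hm.isPrime, fun h0 => by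
    rw [h0] at hπm
    exact hπ.ne_zero ((map_eq_zero_iff _ hinj).1 hπm)⟩
  refine ⟨P, hπm, fun hu => ?_⟩
  have hu' : θR - algebraMap k[X] R u ∈ m := hu
  have h1 : algebraMap k[X] R (3 * u ^ 2 + 2 * a2 * u + a4) ∈ m := by
    have e : algebraMap k[X] R (3 * u ^ 2 + 2 * a2 * u + a4) = aeval θR (quadX a2 a4 u) -
        (θR - algebraMap k[X] R u) * (θR + algebraMap k[X] R u + algebraMap k[X] R (a2 + u)) := by
      rw [aeval_quadX]
      simp only [map_add, map_mul, map_pow, map_ofNat]
      ring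
    rw [e]
    exact m.sub_mem hqm (m.mul_mem_right _ hu')
  obtain ⟨s, r, hsr⟩ := hπ.coprime_iff_not_dvd.2 (half_der h)
  apply hm.ne_top
  rw [Ideal.eq_top_iff_one, ← map_one (algebraMap k[X] R), ← hsr, map_add, map_mul, map_mul]
  exact m.add_mem (m.mul_mem_left _ hπm) (m.mul_mem_left _ h1)

end exc

section main

variable {k k' K F N R : Type} [Field k] [Field k'] [Algebra k k'] [Field K] [Algebra k[X] K]
  [Field F] [Algebra k'[X] F] [IsFractionRing k'[X] F] [Algebra K F]
  [Field N] [Algebra K N] [Algebra k[X] N] [IsScalarTower k[X] K N]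
  [CommRing R] [IsDedekindDomain R] [Algebra R N] [IsFractionRing R N]
  [Algebra k[X] R] [IsScalarTower k[X] R N] [Algebra.IsIntegral k[X] R]

/-- No points of order two. -/
theorem two_tors {W : WeierstrassCurve K} (h2 : (2 : K) ≠ 0) (h1 : W.a₁ = 0) (h3 : W.a₃ = 0)
    (hnr : ∀ x : K, cub W x ≠ 0) {T : Pt W K} (hT : T + T = 0) : T = 0 := by
  rcases T with _ | ⟨x, y, hns⟩
  · rfl
  · exfalso
    have hbc : (W.baseChange K) = W := by
      rw [WeierstrassCurve.baseChange, Algebra.algebraMap_self]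
      exact WeierstrassCurve.map_id W
    have hneg := eq_neg_of_add_eq_zero_left hT
    rw [Point.neg_some] at hneg
    obtain ⟨-, hy⟩ := (Point.some.injEq _ _ _ _ _ _).mp hneg
    have hy0 : y = 0 := by
      have e : (W.baseChange K).toAffine.negY x y = -y := by
        rw [hbc]
        simp [Affine.negY, h1, h3]
      rw [e] at hy
      have h5 : (2 : K) * y = 0 := by linear_combination hy
      exact (mul_eq_zero.1 h5).resolve_left h2
    have heq := hns.1
    rw [hbc] at heq
    rw [Affine.equation_iff, h1, h3, hy0] at heq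
    apply hnr x
    show x ^ 3 + W.a₂ * x ^ 2 + W.a₄ * x + W.a₆ = 0
    linear_combination -heq

/-- Twists with one prime which is not inert. -/
theorem half_tate (hT : IsTower k k' K F) (h2 : (2 : k) ≠ 0) {a2 a4 a6 : k[X]}
    (hS : SmoothC a2 a4 a6) (hΔ : (twist K a2 a4 a6 1).Δ ≠ 0)
    (hnr : ∀ x : F, cub (twist K a2 a4 a6 1) x ≠ 0) {θ : N}
    (hθ : cub (twist K a2 a4 a6 1) θ = 0) (hN : IntermediateField.adjoin K {θ} = ⊤)
    (hcl : ∀ c : ClassGroup R, c ^ 2 = 1 → c = 1)
    (hU : ∀ ε : Rˣ, ∃ (u : k) (v : Rˣ), (ε : R) = algebraMap k[X] R (C u) * v ^ 2)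
    {D π₀ u₀ : k[X]} (hD : Squarefree D) (hπ₀ : Irreducible π₀) (hπD : π₀ ∣ D)
    (hH : HalfAt a2 a4 a6 π₀ u₀)
    (hin : ∀ π : k[X], Irreducible π → π ∣ D → InertAt a2 a4 a6 π ∨ Associated π₀ π)
    {x y : K} (hxy : y ^ 2 = cub (twist K a2 a4 a6 D) x) {A B : k[X]} (hB : ¬ π₀ ∣ B)
    (hx : x * algebraMap k[X] K B = algebraMap k[X] K (D * A)) :
    TateAtTwo (F := F) k' (twist K a2 a4 a6 D) ∧
      ∃ Q : Pt (twist K a2 a4 a6 D) K, ∀ n : ℕ, n ≠ 0 → n • Q ≠ 0 := by
  haveI := hT.sep
  haveI := hT.fracK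
  haveI : IsGalois k k' := inferInstance
  haveI : IsSepClosure K (Sep F) := sepKΩ hT.map
  haveI : Algebra.IsSeparable K (Sep F) := IsSepClosure.separable
  haveI : IsGalois K (Sep F) := inferInstance
  have h2K : (2 : K) ≠ 0 := tt h2
  have hnrD := twist_nr hT hD.ne_zero hnr
  have hΔD := twist_disc hD.ne_zero hΔ
  have hD0 := hD.ne_zero
  rw [twist_one] at hΔ hθ
  have hnrK : ∀ x : K, cub (crvC (algebraMap k[X] K a2) (algebraMap k[X] K a4)
      (algebraMap k[X] K a6)) x ≠ 0 := by
    intro x hx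
    have h1 := cub_map (crvC (algebraMap k[X] K a2) (algebraMap k[X] K a4)
      (algebraMap k[X] K a6)) (Algebra.ofId K F) x
    rw [hx, map_zero] at h1
    rw [twist_one] at hnr
    exact hnr _ h1
  have hnrDK : ∀ x : K, cub (twist K a2 a4 a6 D) x ≠ 0 := by
    intro x hx
    have h1 := cub_map (twist K a2 a4 a6 D) (Algebra.ofId K F) x
    rw [hx, map_zero] at h1
    exact hnrD _ h1
  obtain ⟨-, hsep⟩ := sepN (N := N) rfl rfl hΔ hθ hN
  let i : N →ₐ[K] Sep F := IsSepClosed.lift
  letI : Algebra N (Sep F) := i.toRingHom.toAlgebra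
  haveI : IsScalarTower K N (Sep F) := IsScalarTower.of_algebraMap_eq fun x => (i.commutes x).symm
  haveI : IsGalois N (Sep F) := IsGalois.tower_top_of_isGalois K N (Sep F)
  have hθint : IsIntegral k[X] θ := by
    refine ⟨X ^ 3 + C a2 * X ^ 2 + C a4 * X + C a6, by monicity!, ?_⟩
    have e : cub (crvC (algebraMap k[X] K a2) (algebraMap k[X] K a4)
      (algebraMap k[X] K a6)) θ = θ ^ 3 + algebraMap K N (algebraMap k[X] K a2) * θ ^ 2 +
      algebraMap K N (algebraMap k[X] K a4) * θ + algebraMap K N (algebraMap k[X] K a6) := rfl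
    rw [e, ← IsScalarTower.algebraMap_apply k[X] K N, ← IsScalarTower.algebraMap_apply k[X] K N,
      ← IsScalarTower.algebraMap_apply k[X] K N] at hθ
    simp only [eval₂_add, eval₂_mul, eval₂_pow, eval₂_X, eval₂_C]
    exact hθ
  obtain ⟨θR, hθR⟩ := (IsIntegrallyClosed.isIntegral_iff (R := R) (K := N)).1
    (hθint.tower_top (A := R))
  subst hθR
  have hinj : Function.Injective (algebraMap k[X] R) := by
    intro x y h
    have h1 := congrArg (algebraMap R N) h
    rw [← IsScalarTower.algebraMap_apply k[X] R N, ← IsScalarTower.algebraMap_apply k[X] R N,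
      IsScalarTower.algebraMap_apply k[X] K N, IsScalarTower.algebraMap_apply k[X] K N] at h1
    exact IsFractionRing.injective k[X] K ((algebraMap K N).injective h1)
  have hcond := cond_der (R := R) hΔ hnrK hθ hN
  have hrel : aeval θR (cubX a2 a4 a6) = 0 := by
    apply IsFractionRing.injective R N
    rw [map_zero, ← aeval_algebraMap_apply, ← hθ]
    simp only [cubX, cub, crvC, map_add, map_mul, map_pow, aeval_C, aeval_X]
    rw [IsScalarTower.algebraMap_apply k[X] K N, IsScalarTower.algebraMap_apply k[X] K N,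
      IsScalarTower.algebraMap_apply k[X] K N]
  have hin' : ∀ π : k[X], Irreducible π → π ∣ D →
      InertAt a2 a4 a6 π ∨ ∃ u, HalfAt a2 a4 a6 π u := by
    intro π hπ hπ'
    rcases hin π hπ hπ' with h | h
    · exact Or.inl h
    · exact Or.inr ⟨u₀, h.dvd_iff_dvd_left.1 hH.1, fun w hw => hH.2 w (h.dvd_iff_dvd_left.2 hw)⟩
  have hok := half_ok (R := R) h2 hΔ hnrK hθ hN hD hin'
  -- the exceptional prime
  have hexc : ∀ P : HeightOneSpectrum R, ¬ ParOK a2 a4 a6 D θR P →
      (∀ q : k[X], algebraMap k[X] R q ∈ P.asIdeal ↔ π₀ ∣ q) ∧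
      θR - algebraMap k[X] R u₀ ∉ P.asIdeal ∧
      P.intValuation (algebraMap k[X] R D) = exp (-1 : ℤ) := by
    intro P hP
    have hDP : algebraMap k[X] R D ∈ P.asIdeal := by
      by_contra h
      exact hP (Or.inl h)
    obtain ⟨hv1, -, π, hπ, hπ', hv, h3⟩ := hok P hDP
    obtain ⟨u, hu, hu'⟩ := h3.resolve_left hP
    have hass : Associated π₀ π := by
      rcases hin π hπ hπ' with h | h
      · exact absurd hu.1 (h.1 u)
      · exact h
    have hv0 : ∀ q : k[X], algebraMap k[X] R q ∈ P.asIdeal ↔ π₀ ∣ q := fun q => by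
      rw [hv, hass.dvd_iff_dvd_left]
    refine ⟨hv0, fun h => hu' ?_, hv1⟩
    have h5 : π₀ ∣ u - u₀ := root_uniq hπ₀ hH (hass.dvd_iff_dvd_left.2 hu.1)
    have e : θR - algebraMap k[X] R u = (θR - algebraMap k[X] R u₀) -
        algebraMap k[X] R (u - u₀) := by rw [map_sub]; ring
    rw [e]
    exact P.asIdeal.sub_mem h ((hv0 _).2 h5)
  have huniq : ∀ P P' : HeightOneSpectrum R, ¬ ParOK a2 a4 a6 D θR P →
      ¬ ParOK a2 a4 a6 D θR P' → P = P' := by
    intro P P' hP hP'
    obtain ⟨h1, h3, -⟩ := hexc P hP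
    obtain ⟨h4, h5, -⟩ := hexc P' hP'
    exact half_uniq h2 hπ₀ hH hrel hcond h1 h4 h3 h5
  -- the valuation of the point
  set zQ : N := algebraMap K N x - algebraMap K N (algebraMap k[X] K D) * algebraMap R N θR
    with hzQ
  have hB0 : B ≠ 0 := by rintro rfl; exact hB (dvd_zero _)
  have hvQ : ∀ P : HeightOneSpectrum R, (∀ q : k[X], algebraMap k[X] R q ∈ P.asIdeal ↔ π₀ ∣ q) →
      θR - algebraMap k[X] R u₀ ∉ P.asIdeal →
      P.intValuation (algebraMap k[X] R D) = exp (-1 : ℤ) → ¬ IsSquare (P.valuation N zQ) := by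
    intro P hv hu hvD
    haveI := P.isPrime
    have e : zQ * algebraMap R N (algebraMap k[X] R B) =
        algebraMap R N (algebraMap k[X] R D *
          (algebraMap k[X] R A - algebraMap k[X] R B * θR)) := by
      have h1 := congrArg (algebraMap K N) hx
      rw [map_mul, ← IsScalarTower.algebraMap_apply k[X] K N,
        ← IsScalarTower.algebraMap_apply k[X] K N] at h1
      simp only [hzQ, map_mul, map_sub, ← IsScalarTower.algebraMap_apply k[X] R N,
        ← IsScalarTower.algebraMap_apply k[X] K N] at h1 ⊢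
      linear_combination h1
    have h3 := congrArg (P.valuation N) e
    rw [map_mul, P.valuation_of_algebraMap, P.valuation_of_algebraMap, map_mul, hvD,
      (P.intValuation_eq_one_iff).2 (fun h => hB ((hv _).1 h)),
      (P.intValuation_eq_one_iff).2 (not_cong hπ₀ hH h2 hrel hv hu hB), mul_one, mul_one] at h3
    rw [h3]
    exact not_sq_one
  -- an exceptional prime exists
  refine critH_cps (R := R) (θR := θR) hT h2 hS hD0 hΔD hnrD hθ hN rfl
    (fun P hP => ⟨(hok P hP).1, (hok P hP).2.1⟩) ?_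
  intro iN a b c hC0 hθa hNtop hkN hkX hlay
  have hC : IsC ((twist K a2 a4 a6 D).baseChange (Sep F)).toAffine a b c := hC0
  have hdiv : ∀ X : Pt (twist K a2 a4 a6 D) (Sep F), ∃ Y, Y + Y = X := fun X => halveC hC X
  -- the point
  have hWe : (twist K a2 a4 a6 D).toAffine.Equation x y := by
    rw [Affine.equation_iff]
    show y ^ 2 + 0 * x * y + 0 * y = x ^ 3 + (twist K a2 a4 a6 D).a₂ * x ^ 2 +
      (twist K a2 a4 a6 D).a₄ * x + (twist K a2 a4 a6 D).a₆
    have h1 : y ^ 2 = x ^ 3 + (twist K a2 a4 a6 D).a₂ * x ^ 2 +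
      (twist K a2 a4 a6 D).a₄ * x + (twist K a2 a4 a6 D).a₆ := hxy
    rw [h1]; ring
  have hbc : ((twist K a2 a4 a6 D).baseChange K) = twist K a2 a4 a6 D := by
    rw [WeierstrassCurve.baseChange, Algebra.algebraMap_self]
    exact WeierstrassCurve.map_id _
  have hns : ((twist K a2 a4 a6 D).baseChange K).toAffine.Nonsingular x y := by
    rw [hbc]
    exact ((twist K a2 a4 a6 D).toAffine.equation_iff_nonsingular_of_Δ_ne_zero hΔD).1 hWe
  let Q : Pt (twist K a2 a4 a6 D) K := Point.some x y hns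
  have PK : ∀ φ : Sep F →ₐ[K] Sep F, act (twist K a2 a4 a6 D) φ
      (act (twist K a2 a4 a6 D) (incl K K (Sep F)) Q) =
      act (twist K a2 a4 a6 D) (incl K K (Sep F)) Q := by
    intro φ
    have h1 : φ.comp (incl K K (Sep F)) = incl K K (Sep F) := AlgHom.ext fun x => φ.commutes x
    rw [act_act, h1]
  have hQx : dc a b c (act (twist K a2 a4 a6 D) (incl K K (Sep F)) Q) =
      algebraMap N (Sep F) zQ := by
    obtain ⟨h4, h5⟩ := act_some (twist K a2 a4 a6 D) (incl K K (Sep F)) hns
    rw [h5]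
    have hxa : (incl K K (Sep F)) x ≠ a := by
      intro h6
      apply hnrD (algebraMap K F x)
      apply (algebraMap F (Sep F)).injective
      have h7 := cub_map (twist K a2 a4 a6 D) (incl K F (Sep F)) (algebraMap K F x)
      have h8 : (incl K F (Sep F)) (algebraMap K F x) = a := by
        rw [← h6]
        exact (IsScalarTower.algebraMap_apply K F (Sep F) x).symm
      rw [h8, hC.root_a] at h7
      rw [map_zero]
      exact h7.symm
    simp only [dc, if_neg hxa]
    rw [hzQ, map_sub, hθa, ← IsScalarTower.algebraMap_apply K N (Sep F)]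
    rfl
  obtain ⟨H, hH2⟩ := halveC hC (act (twist K a2 a4 a6 D) (incl K K (Sep F)) Q)
  have hhc := hc_ne hC H
  have hhc2 : hc a b c H ^ 2 = algebraMap N (Sep F) zQ := by
    rw [hc_sq hC, hH2, hQx]
  have hzQ0 : zQ ≠ 0 := by
    intro h0
    rw [h0, map_zero] at hhc2
    exact pow_ne_zero 2 hhc hhc2
  obtain ⟨G, G0, G1, GS⟩ := halves hdiv hH2
  have heQ := pt_class (k' := k') G0 GS
  have hd2 : ∀ σ : Sep F ≃ₐ[F] Sep F,
      (act (twist K a2 a4 a6 D) (rs K σ) H - H) +
        (act (twist K a2 a4 a6 D) (rs K σ) H - H) = 0 := by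
    intro σ
    rw [sub_add_sub_comm, ← map_add, hH2, PK, sub_self]
  have hkQ : ∀ σ : Sep F ≃ₐ[F] Sep F, σ a = a →
      σ (hc a b c H) = sC a (act (twist K a2 a4 a6 D) (rs K σ) H - H) * hc a b c H :=
    fun σ hσ => hc_sign hC (φ := rs K σ) hσ (hd2 σ)
  refine ⟨tate_of_half hdiv fun e he => ?_, Q, ?_⟩
  · -- the first layer
    have hf2 : ∀ σ, e 1 σ + e 1 σ = 0 := fun σ => by
      rw [← two_nsmul, he.tc.two 0 σ, he.tc.zero]
    obtain ⟨⟨t, z, ht, hz, hk⟩, hpar⟩ := hlay e he
    have hz0 : z ≠ 0 := by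
      rintro rfl
      rw [map_zero] at hz
      exact pow_ne_zero 2 ht hz
    by_cases hall : ∀ P : HeightOneSpectrum R, IsSquare (P.valuation N z)
    · obtain ⟨u, g, hu, hg, e1⟩ := even_triv hcl hU hz0 hall
      obtain ⟨R', hR', hR''⟩ := cobL hT h2 hnrD hC hθa hNtop hkN (he.tc.coc 1) hf2 ht hk
        (u := u) (g := g) (by rw [hz, e1, hkX])
      exact ⟨0, R', by rw [hR', map_zero], hR''⟩
    · push Not at hall
      obtain ⟨P0, hP0⟩ := hall
      have hP0' : ¬ ParOK a2 a4 a6 D θR P0 := fun h => hP0 (hpar t z ht hz hk P0 h)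
      have headd := he.add heQ
      obtain ⟨-, hpar'⟩ := hlay _ headd
      have hf2' : ∀ σ, (e 1 σ + (act (twist K a2 a4 a6 D) (rs K σ) (G 1) - G 1)) +
          (e 1 σ + (act (twist K a2 a4 a6 D) (rs K σ) (G 1) - G 1)) = 0 := by
        intro σ
        rw [add_add_add_comm, hf2, G1, hd2, add_zero]
      have hk' : ∀ σ : Sep F ≃ₐ[F] Sep F, σ a = a → σ (t * hc a b c H) =
          sC a (e 1 σ + (act (twist K a2 a4 a6 D) (rs K σ) (G 1) - G 1)) *
            (t * hc a b c H) := by
        intro σ hσ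
        rw [map_mul, hk σ hσ, hkQ σ hσ, G1, sC_add hC (hf2 σ) (hd2 σ)]
        exact mul_mul_mul_comm _ _ _ _
      have ht' : t * hc a b c H ≠ 0 := mul_ne_zero ht hhc
      have hzz : (t * hc a b c H) ^ 2 = algebraMap N (Sep F) (z * zQ) := by
        rw [mul_pow, hz, hhc2, map_mul]
      have hall' : ∀ P : HeightOneSpectrum R, IsSquare (P.valuation N (z * zQ)) := by
        intro P
        by_cases hP : ParOK a2 a4 a6 D θR P
        · exact hpar' _ _ ht' hzz hk' P hP
        · have hPP : P = P0 := huniq P P0 hP hP0'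
          obtain ⟨h3, h4, h5⟩ := hexc P0 hP0'
          rw [hPP, map_mul]
          exact wz_mul hP0 (hvQ P0 h3 h4 h5)
      obtain ⟨u, g, hu, hg, e1⟩ := even_triv hcl hU (mul_ne_zero hz0 hzQ0) hall'
      obtain ⟨R', hR', hR''⟩ := cobL hT h2 hnrD hC hθa hNtop hkN (headd.tc.coc 1) hf2' ht' hk'
        (u := u) (g := g) (by rw [hzz, e1, hkX])
      refine ⟨-Q, R' - H, ?_, fun σ => ?_⟩
      · rw [sub_add_sub_comm, hR', hH2, map_neg, zero_sub]
      · have h1 := hR'' σ
        rw [G1] at h1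
        rw [map_sub]
        have h5 : e 1 σ = (e 1 σ + (act (twist K a2 a4 a6 D) (rs K σ) H - H)) -
          (act (twist K a2 a4 a6 D) (rs K σ) H - H) := by abel
        rw [h5, h1]
        abel
  · -- the point is not divisible by two
    obtain ⟨P, hπP, huP⟩ := exists_exc (R := R) h2 hπ₀ hH hΔ hnrK hθ hN hinj
    haveI := P.isPrime
    have hvP : ∀ q : k[X], algebraMap k[X] R q ∈ P.asIdeal ↔ π₀ ∣ q := by
      intro q
      constructor
      · intro hq
        by_contra hnd
        obtain ⟨s, r, hsr⟩ := hπ₀.coprime_iff_not_dvd.2 hnd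
        apply P.isPrime.ne_top
        rw [Ideal.eq_top_iff_one, ← map_one (algebraMap k[X] R), ← hsr, map_add, map_mul, map_mul]
        exact P.asIdeal.add_mem (P.asIdeal.mul_mem_left _ hπP) (P.asIdeal.mul_mem_left _ hq)
      · rintro ⟨s, rfl⟩
        rw [map_mul]
        exact P.asIdeal.mul_mem_right _ hπP
    have hnsq := hvQ P hvP huP (hok P ((hvP D).2 hπD)).1
    have hnodiv : ∀ Q' : Pt (twist K a2 a4 a6 D) K, Q' + Q' ≠ Q := by
      intro Q' hQ'
      set H' := act (twist K a2 a4 a6 D) (incl K K (Sep F)) Q' with hH'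
      have hH'2 : H' + H' = act (twist K a2 a4 a6 D) (incl K K (Sep F)) Q := by
        rw [hH', ← map_add, hQ']
      have hsq : hc a b c H' ^ 2 = algebraMap N (Sep F) zQ := by
        rw [hc_sq hC, hH'2, hQx]
      have PK' : ∀ φ : Sep F →ₐ[K] Sep F, act (twist K a2 a4 a6 D) φ H' = H' := by
        intro φ
        have h1 : φ.comp (incl K K (Sep F)) = incl K K (Sep F) :=
          AlgHom.ext fun x => φ.commutes x
        rw [hH', act_act, h1]
      obtain ⟨c', hc', e'⟩ := kummerN_unique (W := twist K a2 a4 a6 D) (N := N) hC hθa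
        (g := fun _ => 0) (t := hc a b c H') (u := 1) (hc_ne hC H') one_ne_zero (by
          intro τ hτ
          have h1 := hc_sign hC (φ := ak τ) hτ (H := H') (by rw [PK']; abel)
          rw [PK', sub_self] at h1
          exact h1) (by
          intro τ hτ
          rw [map_one]
          show (1 : Sep F) = sC a (0 : Pt (twist K a2 a4 a6 D) (Sep F)) * 1
          rw [mul_one]
          rfl)
      rw [mul_one] at e'
      rw [e', ← map_pow] at hsq
      have h5 : zQ = c' * c' := by
        rw [← (algebraMap N (Sep F)).injective hsq, pow_two]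
      apply hnsq
      rw [h5, map_mul]
      exact ⟨_, rfl⟩
    intro n hn hnQ
    have hfin : IsOfFinAddOrder Q := isOfFinAddOrder_iff_nsmul_eq_zero.2
      ⟨n, Nat.pos_of_ne_zero hn, hnQ⟩
    have hpos := hfin.addOrderOf_pos
    have hord := addOrderOf_nsmul_eq_zero Q
    rcases Nat.even_or_odd' (addOrderOf Q) with ⟨j, hj | hj⟩
    · have h1 : j • Q + j • Q = 0 := by
        rw [← add_nsmul, ← two_mul, ← hj, hord]
      have h3 := two_tors h2K rfl rfl hnrDK h1
      have h5 := addOrderOf_dvd_of_nsmul_eq_zero h3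
      have h6 := Nat.le_of_dvd (by omega) h5
      omega
    · apply hnodiv (-(j • Q))
      have h1 : (2 * j + 1) • Q = 0 := by rw [← hj, hord]
      rw [add_nsmul, one_nsmul, two_mul, add_nsmul] at h1
      have h3 : Q = -(j • Q + j • Q) := by
        rw [eq_neg_iff_add_eq_zero, add_comm]
        exact h1
      rw [← neg_add]
      exact h3.symm

end main

end Pool.Agent.TH115.GD
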