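import Pool.Agent.TH115.TC.HalfMain2

/-!
Twists with several primes which are not inert: the exceptional primes.
-/

set_option autoImplicit false
set_option linter.all false

open Polynomial IsDedekindDomain WeierstrassCurve WeierstrassCurve.Affine WithZero
open scoped Classical nonZeroDivisors

namespace Pool.Agent.TH115.GD

section ex

variable {k : Type} [Field k] {R : Type} [CommRing R] [IsDedekindDomain R] [Algebra k[X] R]

/-- `P` is the prime of residue degree two over `π ∈ H`. -/
def ExcP (a2 a4 a6 D : k[X]) (H : Finset k[X]) (θR : R) (π : k[X])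
    (P : HeightOneSpectrum R) : Prop :=
  π ∈ H ∧ (∀ q : k[X], algebraMap k[X] R q ∈ P.asIdeal ↔ π ∣ q) ∧
    P.intValuation (algebraMap k[X] R D) = exp (-1 : ℤ) ∧
    ∃ u, HalfAt a2 a4 a6 π u ∧ θR - algebraMap k[X] R u ∉ P.asIdeal

theorem exc_uniq (h2 : (2 : k) ≠ 0) {a2 a4 a6 D π : k[X]} {H : Finset k[X]} {θR : R}
    (hπ : Irreducible π) (hrel : aeval θR (cubX a2 a4 a6) = 0)
    (hcond : ∀ x : R, ∃ p : k[X][X], aeval θR (derivative (cubX a2 a4 a6)) * x = aeval θR p)
    {P P' : HeightOneSpectrum R} (hP : ExcP a2 a4 a6 D H θR π P)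
    (hP' : ExcP a2 a4 a6 D H θR π P') : P = P' := by
  obtain ⟨-, hv, -, u, hu, hu'⟩ := hP
  obtain ⟨-, hv', -, w, hw, hw'⟩ := hP'
  refine half_uniq h2 hπ hu hrel hcond hv hv' hu' fun h => hw' ?_
  have h5 : π ∣ w - u := root_uniq hπ hu hw.1
  have e : θR - algebraMap k[X] R w = (θR - algebraMap k[X] R u) -
      algebraMap k[X] R (w - u) := by rw [map_sub]; ring
  rw [e]
  exact P'.asIdeal.sub_mem h ((hv' _).2 h5)

end ex

section val

variable {k K N R : Type} [Field k] [Field K] [Algebra k[X] K] [IsFractionRing k[X] K]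
  [Field N] [Algebra K N] [Algebra k[X] N] [IsScalarTower k[X] K N]
  [CommRing R] [IsDedekindDomain R] [Algebra R N] [IsFractionRing R N]
  [Algebra k[X] R] [IsScalarTower k[X] R N] [Algebra.IsIntegral k[X] R]

theorem par_pt (h2 : (2 : k) ≠ 0) {a2 a4 a6 D π : k[X]} {H : Finset k[X]} {θR : R}
    (hπ : Irreducible π) (hD : Squarefree D) (hπD : π ∣ D)
    (hrel : aeval θR (cubX a2 a4 a6) = 0)
    {P : HeightOneSpectrum R} (hP : ExcP a2 a4 a6 D H θR π P) {x y : K}
    (hxy : y ^ 2 = cub (twist K a2 a4 a6 D) x) {A B : k[X]} (hAB : IsCoprime A B)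
    (hx : x * algebraMap k[X] K B = algebraMap k[X] K A) :
    IsSquare (P.valuation N (algebraMap K N x -
      algebraMap K N (algebraMap k[X] K D) * algebraMap R N θR)) ↔ ¬ π ∣ A := by
  haveI := P.isPrime
  obtain ⟨-, hv, hvD, u, hH, hu⟩ := hP
  have h1 := congrArg (algebraMap K N) hx
  rw [map_mul, ← IsScalarTower.algebraMap_apply k[X] K N,
    ← IsScalarTower.algebraMap_apply k[X] K N] at h1
  constructor
  · rintro hsq ⟨A', rfl⟩
    have hB : ¬ π ∣ B := by
      intro hB
      exact hπ.not_isUnit (hAB.isUnit_of_dvd' (dvd_mul_right _ _) hB)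
    obtain ⟨D', rfl⟩ := hπD
    have hD' : ¬ π ∣ D' := by
      rintro ⟨q, rfl⟩
      exact hπ.not_isUnit (hD π ⟨q, by ring⟩)
    have hBD : ¬ π ∣ B * D' := fun h => (hπ.prime.dvd_or_dvd h).elim hB hD'
    have hvπ : P.intValuation (algebraMap k[X] R π) = exp (-1 : ℤ) := by
      rw [map_mul, map_mul, (P.intValuation_eq_one_iff).2 (fun h => hD' ((hv _).1 h)),
        mul_one] at hvD
      exact hvD
    have e : (algebraMap K N x - algebraMap K N (algebraMap k[X] K (π * D')) *
        algebraMap R N θR) * algebraMap R N (algebraMap k[X] R B) =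
        algebraMap R N (algebraMap k[X] R π *
          (algebraMap k[X] R A' - algebraMap k[X] R (B * D') * θR)) := by
      simp only [map_mul, map_sub, ← IsScalarTower.algebraMap_apply k[X] R N,
        ← IsScalarTower.algebraMap_apply k[X] K N] at h1 ⊢
      linear_combination h1
    have h3 := congrArg (P.valuation N) e
    rw [map_mul (P.valuation N), P.valuation_of_algebraMap, P.valuation_of_algebraMap,
      map_mul P.intValuation, hvπ,
      (P.intValuation_eq_one_iff).2 (fun h => hB ((hv _).1 h)),
      (P.intValuation_eq_one_iff).2 (not_cong hπ hH h2 hrel hv hu hBD), mul_one, mul_one] at h3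
    rw [h3] at hsq
    exact not_sq_one hsq
  · intro hA
    set V := P.valuation N with hV
    set xN := algebraMap K N x with hxN
    set dN := algebraMap K N (algebraMap k[X] K D) with hdN
    have hvA : V (algebraMap k[X] N A) = 1 := by
      rw [IsScalarTower.algebraMap_apply k[X] R N, hV, P.valuation_of_algebraMap,
        P.intValuation_eq_one_iff]
      exact fun h => hA ((hv _).1 h)
    have hint : ∀ q : k[X], V (algebraMap k[X] N q) ≤ 1 := by
      intro q
      rw [IsScalarTower.algebraMap_apply k[X] R N, hV, P.valuation_of_algebraMap]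
      exact P.intValuation_le_one _
    have hvd : V dN < 1 := by
      rw [hdN, ← IsScalarTower.algebraMap_apply k[X] K N,
        IsScalarTower.algebraMap_apply k[X] R N, hV, P.valuation_of_algebraMap, hvD,
        ← exp_zero, exp_lt_exp]
      norm_num
    have hx1 : V xN * V (algebraMap k[X] N B) = 1 := by
      rw [← map_mul, h1, hvA]
    have hx0 : V xN ≠ 0 := left_ne_zero_of_mul (by rw [hx1]; exact one_ne_zero)
    have hxge : 1 ≤ V xN := by
      rw [← hx1]
      exact mul_le_of_le_one_right' (hint B)
    have hxinv : V xN⁻¹ ≤ 1 := by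
      rw [map_inv₀]
      exact inv_le_one_of_one_le₀ hxge
    have hxN0 : xN ≠ 0 := by
      intro h0
      rw [h0, map_zero] at hx0
      exact hx0 rfl
    have hθ1 : V (dN * algebraMap R N θR) < V xN := by
      refine lt_of_lt_of_le ?_ hxge
      rw [map_mul]
      refine lt_of_le_of_lt (mul_le_of_le_one_right' ?_) hvd
      rw [hV, P.valuation_of_algebraMap]
      exact P.intValuation_le_one _
    have hz : V (xN - dN * algebraMap R N θR) = V xN := Valuation.map_sub_eq_of_lt_left _ hθ1
    rw [hz]
    -- the equation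
    have hy := congrArg (algebraMap K N) hxy
    set s : N := dN * (algebraMap k[X] N a2 + dN * algebraMap k[X] N a4 * xN⁻¹ +
      dN ^ 2 * algebraMap k[X] N a6 * (xN⁻¹) ^ 2) with hs
    have hvs : V s < V xN := by
      refine lt_of_lt_of_le ?_ hxge
      rw [hs, map_mul]
      refine lt_of_le_of_lt (mul_le_of_le_one_right' ?_) hvd
      refine Valuation.map_add_le _ (Valuation.map_add_le _ (hint _) ?_) ?_
      · rw [map_mul, map_mul]
        exact mul_le_one' (mul_le_one' hvd.le (hint _)) hxinv
      · rw [map_mul, map_mul, map_pow, map_pow]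
        exact mul_le_one' (mul_le_one' (pow_le_one' hvd.le 2) (hint _)) (pow_le_one' hxinv 2)
    have e : (algebraMap K N y / xN) ^ 2 = xN + s := by
      have e1 : algebraMap K N (cub (twist K a2 a4 a6 D) x) = xN ^ 3 +
          dN * algebraMap k[X] N a2 * xN ^ 2 + dN ^ 2 * algebraMap k[X] N a4 * xN +
          dN ^ 3 * algebraMap k[X] N a6 := by
        rw [twist_eq]
        simp only [cub, crvC, map_add, map_mul, map_pow, Algebra.algebraMap_self, RingHom.id_apply]
        rw [hdN, hxN, IsScalarTower.algebraMap_apply k[X] K N a2,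
          IsScalarTower.algebraMap_apply k[X] K N a4, IsScalarTower.algebraMap_apply k[X] K N a6]
      rw [map_pow, e1] at hy
      rw [div_pow, hy, hs]
      field_simp
      ring
    have h5 : V (xN + s) = V xN := Valuation.map_add_eq_of_lt_left _ hvs
    rw [← h5, ← e, map_pow, pow_two]
    exact ⟨_, rfl⟩

end val

end Pool.Agent.TH115.GD
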