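import Pool.Agent.TH115.TC.LayH

/-!
Primes with one root: the ring `R`.
-/

set_option autoImplicit false
set_option linter.all false

open Polynomial IsDedekindDomain WithZero
open scoped Classical

namespace Pool.Agent.TH115.GD

section defs

variable {k : Type} [Field k]

/-- Modulo `π` the polynomial `x ^ 3 + a2 x ^ 2 + a4 x + a6` is the product of `x - u` and an
irreducible quadratic polynomial. -/
def HalfAt (a2 a4 a6 π u : k[X]) : Prop :=
  π ∣ u ^ 3 + a2 * u ^ 2 + a4 * u + a6 ∧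
    ∀ w : k[X], ¬ π ∣ w ^ 2 + (a2 + u) * w + (u ^ 2 + a2 * u + a4)

/-- The quadratic cofactor: `f(x) - f(u) = (x - u) (x ^ 2 + (a2 + u) x + u ^ 2 + a2 u + a4)`. -/
noncomputable def quadX (a2 a4 u : k[X]) : k[X][X] :=
  X ^ 2 + C (a2 + u) * X + C (u ^ 2 + a2 * u + a4)

theorem quadX_deg (a2 a4 u : k[X]) : (quadX a2 a4 u).natDegree = 2 ∧ (quadX a2 a4 u).Monic := by
  have h1 : (quadX a2 a4 u).natDegree = 2 := by
    unfold quadX
    compute_degree!
  refine ⟨h1, ?_⟩
  unfold quadX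
  monicity!

theorem quadX_irr {a2 a4 a6 π u : k[X]} [Fact (Irreducible π)] (h : HalfAt a2 a4 a6 π u) :
    Irreducible ((quadX a2 a4 u).map (AdjoinRoot.mk π)) := by
  obtain ⟨h1, h3⟩ := quadX_deg a2 a4 u
  refine irreducible_of_degree_le_three_of_not_isRoot (by rw [h3.natDegree_map, h1]; decide) ?_
  intro x hx
  obtain ⟨w, rfl⟩ := AdjoinRoot.mk_surjective x
  apply h.2 w
  rw [← AdjoinRoot.mk_eq_zero]
  rw [IsRoot.def, eval_map, eval₂_at_apply] at hx
  rw [← hx]
  congr 1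
  simp [quadX]

theorem half_der {a2 a4 a6 π u : k[X]} (h : HalfAt a2 a4 a6 π u) :
    ¬ π ∣ 3 * u ^ 2 + 2 * a2 * u + a4 := by
  have h1 := h.2 u
  have e : u ^ 2 + (a2 + u) * u + (u ^ 2 + a2 * u + a4) = 3 * u ^ 2 + 2 * a2 * u + a4 := by ring
  rwa [e] at h1

theorem half_disc (h2 : (2 : k) ≠ 0) {a2 a4 a6 π u : k[X]} (h : HalfAt a2 a4 a6 π u) :
    ¬ π ∣ (a2 + u) ^ 2 - 4 * (u ^ 2 + a2 * u + a4) := by
  intro h1
  apply h.2 (-(C (2⁻¹) * (a2 + u)))
  have e2 : (C (2⁻¹ : k) : k[X]) * 2 = 1 := by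
    have : (C (2 : k) : k[X]) = 2 := C_ofNat 2
    rw [← this, ← C_mul, inv_mul_cancel₀ h2, C_1]
  have e : (-(C (2⁻¹) * (a2 + u))) ^ 2 + (a2 + u) * (-(C (2⁻¹) * (a2 + u))) +
      (u ^ 2 + a2 * u + a4) =
      -(C (2⁻¹) ^ 2) * ((a2 + u) ^ 2 - 4 * (u ^ 2 + a2 * u + a4)) := by
    linear_combination (C (2⁻¹) * (a2 + u) ^ 2 - (u ^ 2 + a2 * u + a4) * (C (2⁻¹) * 2 + 1)) * e2
  rw [e]
  exact dvd_mul_of_dvd_right h1 _

end defs

section unif

variable {R : Type} [CommRing R] [IsDedekindDomain R]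

theorem unif {P : HeightOneSpectrum R} {y π : R} (hy : y ∉ P.asIdeal) (hπ : π ∈ P.asIdeal)
    (h : ∀ x ∈ P.asIdeal, π ∣ y * x) : P.intValuation π = exp (-1 : ℤ) := by
  obtain ⟨x, hx⟩ := P.intValuation_exists_uniformizer
  have hxP : x ∈ P.asIdeal := by
    rw [← P.intValuation_lt_one_iff_mem, hx, ← exp_zero, exp_lt_exp]
    norm_num
  obtain ⟨s, hs⟩ := h x hxP
  have h1 := congrArg P.intValuation hs
  rw [map_mul, map_mul, (P.intValuation_eq_one_iff).2 hy, one_mul, hx] at h1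
  have h3 : P.intValuation π < 1 := (P.intValuation_lt_one_iff_mem π).2 hπ
  have h5 : exp (-1 : ℤ) ≤ P.intValuation π := by
    rw [h1]
    exact mul_le_of_le_one_right' (P.intValuation_le_one s)
  have hπ0 : P.intValuation π ≠ 0 := by
    intro h0
    rw [h0] at h5
    exact absurd h5 (by simp)
  rw [← exp_log hπ0] at h3 h5 ⊢
  rw [← exp_zero, exp_lt_exp] at h3
  rw [exp_le_exp] at h5
  congr 1
  omega

end unif

section half

variable {k : Type} [Field k] {R : Type} [CommRing R] [Algebra k[X] R]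

theorem aeval_quadX (a2 a4 u : k[X]) (θR : R) : aeval θR (quadX a2 a4 u) =
    θR ^ 2 + algebraMap k[X] R (a2 + u) * θR + algebraMap k[X] R (u ^ 2 + a2 * u + a4) := by
  simp [quadX]

theorem aeval_derX (a2 a4 a6 : k[X]) (θR : R) : aeval θR (derivative (cubX a2 a4 a6)) =
    3 * θR ^ 2 + 2 * algebraMap k[X] R a2 * θR + algebraMap k[X] R a4 := by
  rw [cubX_der]
  simp only [map_add, map_mul, map_pow, aeval_C, aeval_X, map_ofNat]

theorem quad_mul {a2 a4 a6 u : k[X]} {θR : R} (hrel : aeval θR (cubX a2 a4 a6) = 0) :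
    (θR - algebraMap k[X] R u) * aeval θR (quadX a2 a4 u) =
      -algebraMap k[X] R (u ^ 3 + a2 * u ^ 2 + a4 * u + a6) := by
  rw [aeval_quadX]
  simp only [cubX, map_add, map_mul, map_pow, aeval_C, aeval_X] at hrel ⊢
  linear_combination hrel

/-- Outside of the root. -/
theorem half_out {a2 a4 a6 π u : k[X]} {θR : R} (hπ : Irreducible π)
    (h : HalfAt a2 a4 a6 π u) (h2 : (2 : k) ≠ 0)
    (hrel : aeval θR (cubX a2 a4 a6) = 0) {P : Ideal R} [hPp : P.IsPrime]
    (hv : ∀ q : k[X], algebraMap k[X] R q ∈ P ↔ π ∣ q)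
    (hu : θR - algebraMap k[X] R u ∉ P) :
    aeval θR (quadX a2 a4 u) ∈ P ∧ aeval θR (derivative (cubX a2 a4 a6)) ∉ P ∧
    ∀ p : k[X][X], aeval θR p ∈ P → ∃ a b : R,
      aeval θR p = aeval θR (quadX a2 a4 u) * a + algebraMap k[X] R π * b := by
  haveI : Fact (Irreducible π) := ⟨hπ⟩
  have hq : aeval θR (quadX a2 a4 u) ∈ P := by
    have h1 : (θR - algebraMap k[X] R u) * aeval θR (quadX a2 a4 u) ∈ P := by
      rw [quad_mul hrel]
      exact P.neg_mem ((hv _).2 h.1)
    exact (hPp.mem_or_mem h1).resolve_left hu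
  refine ⟨hq, ?_, ?_⟩
  · intro hd
    have e1 : aeval θR (derivative (cubX a2 a4 a6)) = aeval θR (quadX a2 a4 u) +
        (θR - algebraMap k[X] R u) * (2 * θR + algebraMap k[X] R (a2 + u)) := by
      rw [aeval_derX, aeval_quadX]
      simp only [map_add, map_mul, map_pow]
      ring
    have h3 : (θR - algebraMap k[X] R u) * (2 * θR + algebraMap k[X] R (a2 + u)) ∈ P := by
      have := P.sub_mem hd hq
      rwa [e1, add_sub_cancel_left] at this
    have h4 := (hPp.mem_or_mem h3).resolve_left hu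
    have h5 : algebraMap k[X] R ((a2 + u) ^ 2 - 4 * (u ^ 2 + a2 * u + a4)) ∈ P := by
      have e : algebraMap k[X] R ((a2 + u) ^ 2 - 4 * (u ^ 2 + a2 * u + a4)) =
          (2 * θR + algebraMap k[X] R (a2 + u)) * (2 * θR + algebraMap k[X] R (a2 + u)) -
            4 * aeval θR (quadX a2 a4 u) := by
        rw [aeval_quadX]
        simp only [map_add, map_mul, map_pow, map_sub, map_ofNat]
        ring
      rw [e]
      exact P.sub_mem (P.mul_mem_left _ h4) (P.mul_mem_left _ hq)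
    exact half_disc h2 h ((hv _).1 h5)
  · intro p hp
    have hirr := quadX_irr h
    have hms := map_surjective (AdjoinRoot.mk π) (AdjoinRoot.mk_surjective)
    have hd : (quadX a2 a4 u).map (AdjoinRoot.mk π) ∣ p.map (AdjoinRoot.mk π) := by
      by_contra hnd
      obtain ⟨a, b, hab⟩ := hirr.coprime_iff_not_dvd.2 hnd
      obtain ⟨A, rfl⟩ := hms a
      obtain ⟨B, rfl⟩ := hms b
      obtain ⟨r, hr⟩ := red_ker (π := π) (p := A * quadX a2 a4 u + B * p - 1) (by
        rw [Polynomial.map_sub, Polynomial.map_add, Polynomial.map_mul, Polynomial.map_mul,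
          Polynomial.map_one]
        exact sub_eq_zero.2 hab)
      have h5 := congrArg (aeval θR) hr
      rw [map_sub, map_add, map_mul, map_mul, map_one, map_mul, aeval_C] at h5
      apply hPp.ne_top
      rw [Ideal.eq_top_iff_one]
      have h6 : (1 : R) = aeval θR A * aeval θR (quadX a2 a4 u) + aeval θR B * aeval θR p -
          algebraMap k[X] R π * aeval θR r := by
        rw [← h5]; ring
      rw [h6]
      exact P.sub_mem (P.add_mem (P.mul_mem_left _ hq) (P.mul_mem_left _ hp))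
        (P.mul_mem_right _ ((hv _).2 dvd_rfl))
    obtain ⟨q, hq'⟩ := hd
    obtain ⟨Q, rfl⟩ := hms q
    obtain ⟨r, hr⟩ := red_ker (π := π) (p := p - quadX a2 a4 u * Q) (by
      rw [Polynomial.map_sub, Polynomial.map_mul]
      exact sub_eq_zero.2 hq')
    refine ⟨aeval θR Q, aeval θR r, ?_⟩
    have h5 := congrArg (aeval θR) hr
    rw [map_sub, map_mul, map_mul, aeval_C] at h5
    linear_combination h5

/-- At the root. -/
theorem half_in {a2 a4 a6 π u : k[X]} {θR : R}
    (h : HalfAt a2 a4 a6 π u)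
    (hrel : aeval θR (cubX a2 a4 a6) = 0) {P : Ideal R} [hPp : P.IsPrime]
    (hv : ∀ q : k[X], algebraMap k[X] R q ∈ P ↔ π ∣ q)
    (hu : θR - algebraMap k[X] R u ∈ P) :
    aeval θR (quadX a2 a4 u) ∉ P ∧ aeval θR (derivative (cubX a2 a4 a6)) ∉ P ∧
    ∀ p : k[X][X], aeval θR p ∈ P →
      algebraMap k[X] R π ∣ aeval θR (quadX a2 a4 u) * aeval θR p := by
  have hcong : ∀ p : k[X][X], ∃ s : R, aeval θR p =
      algebraMap k[X] R (p.eval u) + (θR - algebraMap k[X] R u) * s := by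
    intro p
    obtain ⟨s, hs⟩ := X_sub_C_dvd_sub_C_eval (p := p) (a := u)
    refine ⟨aeval θR s, ?_⟩
    have h5 := congrArg (aeval θR) hs
    rw [map_sub, map_mul, map_sub, aeval_X, aeval_C, aeval_C] at h5
    linear_combination h5
  have hmem : ∀ p : k[X][X], aeval θR p ∈ P → π ∣ p.eval u := by
    intro p hp
    obtain ⟨s, hs⟩ := hcong p
    rw [← hv]
    have e : algebraMap k[X] R (p.eval u) = aeval θR p - (θR - algebraMap k[X] R u) * s := by
      rw [hs]; ring
    rw [e]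
    exact P.sub_mem hp (P.mul_mem_right _ hu)
  refine ⟨?_, ?_, ?_⟩
  · intro h1
    have h3 := hmem _ h1
    apply h.2 u
    have e : (quadX a2 a4 u).eval u = u ^ 2 + (a2 + u) * u + (u ^ 2 + a2 * u + a4) := by
      simp [quadX]
    rwa [e] at h3
  · intro h1
    have h3 := hmem _ h1
    apply half_der h
    have e : (derivative (cubX a2 a4 a6)).eval u = 3 * u ^ 2 + 2 * a2 * u + a4 := by
      rw [cubX_der]
      simp
    rwa [e] at h3
  · intro p hp
    obtain ⟨s, hs⟩ := hcong p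
    obtain ⟨c, hc⟩ := hmem p hp
    obtain ⟨d, hd⟩ := h.1
    have hq := quad_mul (u := u) hrel
    rw [hd, map_mul] at hq
    refine ⟨aeval θR (quadX a2 a4 u) * algebraMap k[X] R c - algebraMap k[X] R d * s, ?_⟩
    rw [hs, hc, map_mul]
    linear_combination s * hq

end half

end Pool.Agent.TH115.GD
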