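import Pool.Agent.TH115.TC.HalfR
import Pool.Agent.TH115.TC.CritH

/-!
Primes with one root: the conditions on the twist.
-/

set_option autoImplicit false
set_option linter.all false

open Polynomial IsDedekindDomain WithZero
open scoped Classical

namespace Pool.Agent.TH115.GD

section uniq

variable {k : Type} [Field k] {R : Type} [CommRing R] [IsDedekindDomain R] [Algebra k[X] R]

theorem half_uniq (h2 : (2 : k) ≠ 0) {a2 a4 a6 π u : k[X]} {θR : R} (hπ : Irreducible π)
    (h : HalfAt a2 a4 a6 π u) (hrel : aeval θR (cubX a2 a4 a6) = 0)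
    (hcond : ∀ x : R, ∃ p : k[X][X], aeval θR (derivative (cubX a2 a4 a6)) * x = aeval θR p)
    {P P' : HeightOneSpectrum R}
    (hv : ∀ q : k[X], algebraMap k[X] R q ∈ P.asIdeal ↔ π ∣ q)
    (hv' : ∀ q : k[X], algebraMap k[X] R q ∈ P'.asIdeal ↔ π ∣ q)
    (hu : θR - algebraMap k[X] R u ∉ P.asIdeal) (hu' : θR - algebraMap k[X] R u ∉ P'.asIdeal) :
    P = P' := by
  haveI := P.isPrime
  haveI := P'.isPrime
  obtain ⟨-, -, h3⟩ := half_out hπ h h2 hrel hv hu
  obtain ⟨h4, h5, -⟩ := half_out hπ h h2 hrel hv' hu'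
  have hle : P.asIdeal ≤ P'.asIdeal := by
    intro x hx
    obtain ⟨p, hp⟩ := hcond x
    obtain ⟨a, b, hab⟩ := h3 p (by rw [← hp]; exact P.asIdeal.mul_mem_left _ hx)
    have h6 : aeval θR (derivative (cubX a2 a4 a6)) * x ∈ P'.asIdeal := by
      rw [hp, hab]
      exact P'.asIdeal.add_mem (P'.asIdeal.mul_mem_right _ h4)
        (P'.asIdeal.mul_mem_right _ ((hv' _).2 dvd_rfl))
    exact (P'.isPrime.mem_or_mem h6).resolve_left h5
  apply HeightOneSpectrum.ext
  exact P.isMaximal.eq_of_le P'.isPrime.ne_top hle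

end uniq

section twist

variable {k K N R : Type} [Field k] [Field K] [Algebra k[X] K] [IsFractionRing k[X] K]
  [Field N] [Algebra K N] [Algebra k[X] N] [IsScalarTower k[X] K N]
  [CommRing R] [IsDedekindDomain R] [Algebra R N] [IsFractionRing R N]
  [Algebra k[X] R] [IsScalarTower k[X] R N] [Algebra.IsIntegral k[X] R]

/-- The primes which divide the twist. -/
theorem half_ok (h2 : (2 : k) ≠ 0) {a2 a4 a6 D : k[X]}
    (hΔ : (crvC (algebraMap k[X] K a2) (algebraMap k[X] K a4)
      (algebraMap k[X] K a6)).Δ ≠ 0)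
    (hnr : ∀ x : K, cub (crvC (algebraMap k[X] K a2) (algebraMap k[X] K a4)
      (algebraMap k[X] K a6)) x ≠ 0) {θR : R}
    (hθ : cub (crvC (algebraMap k[X] K a2) (algebraMap k[X] K a4)
      (algebraMap k[X] K a6)) (algebraMap R N θR) = 0)
    (hNtop : IntermediateField.adjoin K {algebraMap R N θR} = ⊤) (hD : Squarefree D)
    (hin : ∀ π : k[X], Irreducible π → π ∣ D → InertAt a2 a4 a6 π ∨ ∃ u, HalfAt a2 a4 a6 π u)
    (P : HeightOneSpectrum R) (hP : algebraMap k[X] R D ∈ P.asIdeal) :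
    P.intValuation (algebraMap k[X] R D) = exp (-1 : ℤ) ∧
      P.valuation N (cub' (crvC (algebraMap k[X] K a2) (algebraMap k[X] K a4)
      (algebraMap k[X] K a6)) (algebraMap R N θR)) = 1 ∧
      ∃ π : k[X], Irreducible π ∧ π ∣ D ∧
        (∀ q : k[X], algebraMap k[X] R q ∈ P.asIdeal ↔ π ∣ q) ∧
        (ParOK a2 a4 a6 D θR P ∨ ∃ u, HalfAt a2 a4 a6 π u ∧
          θR - algebraMap k[X] R u ∉ P.asIdeal) := by
  have hinj : Function.Injective (algebraMap k[X] R) := by
    intro x y h
    have h1 := congrArg (algebraMap R N) h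
    rw [← IsScalarTower.algebraMap_apply k[X] R N, ← IsScalarTower.algebraMap_apply k[X] R N,
      IsScalarTower.algebraMap_apply k[X] K N, IsScalarTower.algebraMap_apply k[X] K N] at h1
    exact IsFractionRing.injective k[X] K ((algebraMap K N).injective h1)
  have hcond := cond_der (R := R) hΔ hnr hθ hNtop
  have hrel : aeval θR (cubX a2 a4 a6) = 0 := by
    apply IsFractionRing.injective R N
    rw [map_zero, ← aeval_algebraMap_apply, ← hθ]
    simp only [cubX, cub, crvC, map_add, map_mul, map_pow, aeval_C, aeval_X]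
    rw [IsScalarTower.algebraMap_apply k[X] K N, IsScalarTower.algebraMap_apply k[X] K N,
      IsScalarTower.algebraMap_apply k[X] K N]
  obtain ⟨hf3, hfm⟩ := cubX_deg a2 a4 a6
  have hPtop : P.asIdeal ≠ ⊤ := P.isPrime.ne_top
  haveI := P.isPrime
  have hD0 : D ≠ 0 := hD.ne_zero
  let v : HeightOneSpectrum k[X] := ⟨P.asIdeal.comap (algebraMap k[X] R), Ideal.comap_isPrime _ _,
    fun h => hD0 (by
      have h1 : D ∈ P.asIdeal.comap (algebraMap k[X] R) := hP
      rw [h] at h1
      exact h1)⟩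
  obtain ⟨π, hπ, hv⟩ := exists_gen v
  haveI : Fact (Irreducible π) := ⟨hπ⟩
  have hvm : ∀ p : k[X], algebraMap k[X] R p ∈ P.asIdeal ↔ π ∣ p := fun p => hv p
  have hπD : π ∣ D := (hvm D).1 hP
  have hπP : algebraMap k[X] R π ∈ P.asIdeal := (hvm π).2 dvd_rfl
  -- the valuation of `π` and the derivative
  have key : P.intValuation (algebraMap k[X] R π) = exp (-1 : ℤ) ∧
      aeval θR (derivative (cubX a2 a4 a6)) ∉ P.asIdeal ∧
      (ParOK a2 a4 a6 D θR P ∨ ∃ u, HalfAt a2 a4 a6 π u ∧
          θR - algebraMap k[X] R u ∉ P.asIdeal) := by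
    rcases hin π hπ hπD with hI | ⟨u, hH⟩
    · obtain ⟨hPs, hPd⟩ := inertR_eq hfm hf3 (cubX_irr hI) hπ (cubX_der_ne h2 hπ hI) hrel hcond
        hPtop hπP
      refine ⟨P.intValuation_singleton ?_ hPs, hPd, Or.inl (Or.inr (Or.inl ?_))⟩
      · rw [Ne, map_eq_zero_iff _ hinj]
        exact hπ.ne_zero
      · intro P' hP'
        have h1 : algebraMap k[X] R π ∈ P'.asIdeal := by
          have h2 : π ∈ P'.asIdeal.comap (algebraMap k[X] R) := by
            rw [hP']
            exact (hvm π).2 dvd_rfl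
          exact h2
        obtain ⟨h3', -⟩ := inertR_eq hfm hf3 (cubX_irr hI) hπ (cubX_der_ne h2 hπ hI) hrel hcond
          P'.isPrime.ne_top h1
        apply HeightOneSpectrum.ext
        rw [h3', hPs]
    · by_cases hu : θR - algebraMap k[X] R u ∈ P.asIdeal
      · obtain ⟨h3, h4, h5⟩ := half_in hH hrel hvm hu
        refine ⟨unif (y := aeval θR (quadX a2 a4 u) * aeval θR (derivative (cubX a2 a4 a6)))
          (fun h => (P.isPrime.mem_or_mem h).elim h3 h4) hπP ?_, h4,
          Or.inl (Or.inr (Or.inr ⟨u, hu, (hvm _).2 hH.1, fun h => half_der hH ((hvm _).1 h),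
            fun h => half_disc h2 hH ((hvm _).1 h), ?_⟩))⟩
        · intro x hx
          obtain ⟨p, hp⟩ := hcond x
          rw [mul_assoc, hp]
          exact h5 p (by rw [← hp]; exact P.asIdeal.mul_mem_left _ hx)
        · intro P' P'' hP' hP'' hu' hu''
          have hc : ∀ Q : HeightOneSpectrum R, Q.asIdeal.comap (algebraMap k[X] R) =
              P.asIdeal.comap (algebraMap k[X] R) →
              ∀ q : k[X], algebraMap k[X] R q ∈ Q.asIdeal ↔ π ∣ q := by
            intro Q hQ q
            rw [← hvm, ← Ideal.mem_comap, hQ, Ideal.mem_comap]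
          exact half_uniq h2 hπ hH hrel hcond (hc _ hP') (hc _ hP'') hu' hu''
      · obtain ⟨h3, h4, h5⟩ := half_out hπ hH h2 hrel hvm hu
        refine ⟨unif (y := (θR - algebraMap k[X] R u) * aeval θR (derivative (cubX a2 a4 a6)))
          (fun h => (P.isPrime.mem_or_mem h).elim hu h4) hπP ?_, h4, Or.inr ⟨u, hH, hu⟩⟩
        intro x hx
        obtain ⟨p, hp⟩ := hcond x
        obtain ⟨a, b, hab⟩ := h5 p (by rw [← hp]; exact P.asIdeal.mul_mem_left _ hx)
        obtain ⟨d, hd⟩ := hH.1
        have hq := quad_mul (u := u) hrel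
        rw [hd, map_mul] at hq
        refine ⟨-(algebraMap k[X] R d * a) + (θR - algebraMap k[X] R u) * b, ?_⟩
        rw [mul_assoc, hp, hab]
        linear_combination a * hq
  obtain ⟨k1, k2, k3⟩ := key
  refine ⟨?_, ?_, π, hπ, hπD, hvm, k3⟩
  · obtain ⟨D', hD'⟩ := hπD
    have h1 : ¬ π ∣ D' := by
      rintro ⟨q, rfl⟩
      exact hπ.not_isUnit (hD π ⟨q, by rw [hD']; ring⟩)
    rw [← hvm] at h1
    rw [hD', map_mul, map_mul, (P.intValuation_eq_one_iff).2 h1, mul_one]
    exact k1
  · have e : cub' (crvC (algebraMap k[X] K a2) (algebraMap k[X] K a4)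
      (algebraMap k[X] K a6)) (algebraMap R N θR) =
        algebraMap R N (aeval θR (derivative (cubX a2 a4 a6))) := by
      rw [← aeval_algebraMap_apply, cubX_der]
      simp only [cub', crvC, map_add, map_mul, map_pow, aeval_C, aeval_X, map_ofNat]
      rw [IsScalarTower.algebraMap_apply k[X] K N, IsScalarTower.algebraMap_apply k[X] K N]
    rw [e, P.valuation_of_algebraMap, P.intValuation_eq_one_iff]
    exact k2

end twist

end Pool.Agent.TH115.GD
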