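import Pool.Agent.TH115.TC.TowerG2
import Pool.Agent.TH115.TC.CritT3

/-!
Inert primes.
-/

set_option autoImplicit false
set_option linter.all false

open Polynomial IsDedekindDomain WithZero
open scoped Classical

namespace Pool.Agent.TH115.GD

section inert

variable {k : Type} [Field k]

/-- The kernel of the reduction. -/
theorem red_ker {π : k[X]} {p : k[X][X]} (h : p.map (AdjoinRoot.mk π) = 0) :
    ∃ r : k[X][X], p = C π * r := by
  have h1 : C π ∣ p := by
    rw [C_dvd_iff_dvd_coeff]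
    intro i
    rw [← AdjoinRoot.mk_eq_zero, ← coeff_map, h, coeff_zero]
  exact h1

/-- The reduction of `g(x) + H(t)` modulo `π`. -/
noncomputable def redF (g H π : k[X]) : (AdjoinRoot π)[X] :=
  (g.map C + C H).map (AdjoinRoot.mk π)

theorem redF_deg {g H π : k[X]} [Fact (Irreducible π)] (hg : g.Monic) (h3 : g.natDegree = 3) :
    (redF g H π).Monic ∧ (redF g H π).natDegree = 3 := by
  have h1 : (g.map (C : k →+* k[X]) + C H).Monic := by
    apply Monic.add_of_left (hg.map _)
    rw [degree_map, degree_eq_natDegree hg.ne_zero, h3]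
    exact lt_of_le_of_lt degree_C_le (by norm_num)
  have h4 : (g.map (C : k →+* k[X]) + C H).natDegree = 3 := by
    rw [natDegree_add_C, hg.natDegree_map, h3]
  exact ⟨h1.map _, by rw [redF, h1.natDegree_map, h4]⟩

theorem redF_irr {g H π : k[X]} [Fact (Irreducible π)] (hg : g.Monic) (h3 : g.natDegree = 3)
    (hno : ∀ u : k[X], ¬ π ∣ g.comp u + H) : Irreducible (redF g H π) := by
  obtain ⟨h1, h4⟩ := redF_deg (H := H) (π := π) hg h3
  refine irreducible_of_degree_le_three_of_not_isRoot (by rw [h4]; decide) ?_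
  intro x hx
  obtain ⟨u, rfl⟩ := AdjoinRoot.mk_surjective x
  apply hno u
  rw [← AdjoinRoot.mk_eq_zero]
  rw [IsRoot.def, redF, eval_map, eval₂_at_apply] at hx
  rw [← hx]
  congr 1
  rw [eval_add, eval_C, eval_map]
  rfl

variable {R : Type} [CommRing R] [Algebra k R]

/-- The ideals above an inert prime. -/
theorem inert_key {g H π : k[X]} {θR tR : R} (hg : g.Monic) (h3 : g.natDegree = 3)
    (hπ : Irreducible π) (hno : ∀ u : k[X], ¬ π ∣ g.comp u + H)
    (hrel : aeval θR g + aeval tR H = 0) {P : Ideal R} (hP : P ≠ ⊤) (hπP : aeval tR π ∈ P)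
    (p : k[X][X]) (hp : eval₂ ((aeval tR : k[X] →ₐ[k] R) : k[X] →+* R) θR p ∈ P) :
    (∃ r : R, eval₂ ((aeval tR : k[X] →ₐ[k] R) : k[X] →+* R) θR p = aeval tR π * r) ∧
      redF g H π ∣ p.map (AdjoinRoot.mk π) := by
  haveI : Fact (Irreducible π) := ⟨hπ⟩
  have hirr := redF_irr hg h3 hno
  set φ : k[X] →+* R := ((aeval tR : k[X] →ₐ[k] R) : k[X] →+* R) with hφ
  have hφC : φ.comp C = algebraMap k R := by
    apply RingHom.ext
    intro c
    exact aeval_C tR c
  have hf : eval₂ φ θR (g.map C + C H) = 0 := by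
    rw [eval₂_add, eval₂_C, eval₂_map, hφC, ← aeval_def]
    exact hrel
  have hms := map_surjective (AdjoinRoot.mk π) (AdjoinRoot.mk_surjective)
  have hd : redF g H π ∣ p.map (AdjoinRoot.mk π) := by
    by_contra hnd
    obtain ⟨a, b, hab⟩ := hirr.coprime_iff_not_dvd.2 hnd
    obtain ⟨A, rfl⟩ := hms a
    obtain ⟨B, rfl⟩ := hms b
    obtain ⟨r, hr⟩ := red_ker (π := π) (p := A * (g.map C + C H) + B * p - 1) (by
      rw [Polynomial.map_sub, Polynomial.map_add, Polynomial.map_mul, Polynomial.map_mul,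
        Polynomial.map_one]
      exact sub_eq_zero.2 hab)
    have h5 := congrArg (eval₂ φ θR) hr
    rw [eval₂_sub, eval₂_add, eval₂_mul, eval₂_mul, hf, mul_zero, zero_add, eval₂_one, eval₂_mul,
      eval₂_C] at h5
    apply hP
    rw [Ideal.eq_top_iff_one]
    have h6 : (1 : R) = eval₂ φ θR B * eval₂ φ θR p - φ π * eval₂ φ θR r := by
      rw [← h5]; ring
    rw [h6]
    exact P.sub_mem (P.mul_mem_left _ hp) (P.mul_mem_right _ hπP)
  refine ⟨?_, hd⟩
  obtain ⟨q, hq⟩ := hd
  obtain ⟨Q, rfl⟩ := hms q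
  obtain ⟨r, hr⟩ := red_ker (π := π) (p := p - (g.map C + C H) * Q) (by
    rw [Polynomial.map_sub, Polynomial.map_mul]
    exact sub_eq_zero.2 hq)
  refine ⟨eval₂ φ θR r, ?_⟩
  have h5 := congrArg (eval₂ φ θR) hr
  rw [eval₂_sub, eval₂_mul, hf, zero_mul, sub_zero, eval₂_mul, eval₂_C] at h5
  exact h5

/-- The maximal ideal above an inert prime. -/
theorem inert_eq {g H π : k[X]} {θR tR : R} (hg : g.Monic) (h3 : g.natDegree = 3)
    (hgen : ∀ x : R, ∃ p : k[X][X], x = eval₂ ((aeval tR : k[X] →ₐ[k] R) : k[X] →+* R) θR p)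
    (hπ : Irreducible π) (hno : ∀ u : k[X], ¬ π ∣ g.comp u + H)
    (hrel : aeval θR g + aeval tR H = 0) {P : Ideal R} (hP : P ≠ ⊤) (hπP : aeval tR π ∈ P) :
    P = Ideal.span {aeval tR π} := by
  apply le_antisymm
  · intro x hx
    obtain ⟨p, rfl⟩ := hgen x
    obtain ⟨⟨r, hr⟩, -⟩ := inert_key hg h3 hπ hno hrel hP hπP p hx
    rw [hr, Ideal.mem_span_singleton]
    exact dvd_mul_right _ _
  · rw [Ideal.span_singleton_le_iff_mem]
    exact hπP

/-- Polynomials of small degree in `θ`. -/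
theorem inert_small {g H π e : k[X]} {θR tR : R} (hg : g.Monic) (h3 : g.natDegree = 3)
    (hπ : Irreducible π) (hno : ∀ u : k[X], ¬ π ∣ g.comp u + H)
    (hrel : aeval θR g + aeval tR H = 0) {P : Ideal R} (hP : P ≠ ⊤) (hπP : aeval tR π ∈ P)
    (he : e ≠ 0) (hdeg : e.natDegree < 3) : aeval θR e ∉ P := by
  haveI : Fact (Irreducible π) := ⟨hπ⟩
  intro hmem
  have hφC : ((aeval tR : k[X] →ₐ[k] R) : k[X] →+* R).comp C = algebraMap k R := by
    apply RingHom.ext
    intro c
    exact aeval_C tR c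
  have h1 : eval₂ ((aeval tR : k[X] →ₐ[k] R) : k[X] →+* R) θR (e.map C) = aeval θR e := by
    rw [eval₂_map, hφC, ← aeval_def]
  rw [← h1] at hmem
  obtain ⟨-, hd⟩ := inert_key hg h3 hπ hno hrel hP hπP _ hmem
  have h4 : (e.map (C : k →+* k[X])).map (AdjoinRoot.mk π) = e.map (AdjoinRoot.of π) := by
    rw [Polynomial.map_map]
    rfl
  rw [h4] at hd
  have h5 : e.map (AdjoinRoot.of π) ≠ 0 := (Polynomial.map_ne_zero_iff (AdjoinRoot.of π).injective).2 he
  have h6 := natDegree_le_of_dvd hd h5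
  rw [(redF_deg hg h3).2, natDegree_map] at h6
  omega

end inert

section twist

variable {k : Type} [Field k] {N : Type} [Field N]
  {R : Type} [CommRing R] [IsDedekindDomain R] [Algebra k R] [Algebra R N] [IsFractionRing R N]
  [Algebra k[X] R]

/-- The condition on the twist. -/
theorem twist_ok {g H D : k[X]} {θR tR : R} (hg : g.Monic) (h3 : g.natDegree = 3)
    (hgen : ∀ x : R, ∃ p : k[X][X], x = eval₂ ((aeval tR : k[X] →ₐ[k] R) : k[X] →+* R) θR p)
    (hrel : aeval θR g + aeval tR H = 0) (hX : ∀ p : k[X], algebraMap k[X] R p = aeval tR p)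
    (hinj : Function.Injective (algebraMap k[X] R))
    (hder : derivative g ≠ 0) (hD : Squarefree D)
    (hin : ∀ π : k[X], Irreducible π → π ∣ D → ∀ u : k[X], ¬ π ∣ g.comp u + H) {δ : N}
    (hδ : δ = algebraMap R N (aeval θR (derivative g))) : TwistOK R D δ := by
  intro P hP
  have hPtop : P.asIdeal ≠ ⊤ := P.isPrime.ne_top
  have hD0 : D ≠ 0 := hD.ne_zero
  -- an irreducible factor of `D` in `P`
  let v : HeightOneSpectrum k[X] := ⟨P.asIdeal.comap (algebraMap k[X] R), Ideal.comap_isPrime _ _,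
    fun h => hD0 (by
      have h1 : D ∈ P.asIdeal.comap (algebraMap k[X] R) := hP
      rw [h] at h1
      exact h1)⟩
  obtain ⟨π, hπ, hv⟩ := exists_gen v
  have hvm : ∀ p : k[X], algebraMap k[X] R p ∈ P.asIdeal ↔ π ∣ p := fun p => hv p
  have hπD : π ∣ D := (hvm D).1 hP
  have hπP : aeval tR π ∈ P.asIdeal := by
    rw [← hX]
    exact (hvm π).2 dvd_rfl
  have hno := hin π hπ hπD
  have hPs := inert_eq hg h3 hgen hπ hno hrel hPtop hπP
  refine ⟨?_, ?_, ?_⟩
  · obtain ⟨D', hD'⟩ := hπD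
    have h1 : ¬ π ∣ D' := by
      rintro ⟨q, rfl⟩
      exact hπ.not_isUnit (hD π ⟨q, by rw [hD']; ring⟩)
    rw [← hvm] at h1
    rw [hD', map_mul, map_mul, (P.intValuation_eq_one_iff).2 h1, mul_one]
    apply P.intValuation_singleton
    · rw [Ne, map_eq_zero_iff _ hinj]
      exact hπ.ne_zero
    · rw [hX]
      exact hPs
  · rw [hδ, P.valuation_of_algebraMap, P.intValuation_eq_one_iff]
    apply inert_small hg h3 hπ hno hrel hPtop hπP hder
    have := natDegree_derivative_le g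
    omega
  · intro P' hP'
    have h1 : aeval tR π ∈ P'.asIdeal := by
      have h2 : π ∈ P'.asIdeal.comap (algebraMap k[X] R) := by
        rw [hP']
        exact (hvm π).2 dvd_rfl
      rw [← hX]
      exact h2
    have h3' := inert_eq hg h3 hgen hπ hno hrel P'.isPrime.ne_top h1
    apply HeightOneSpectrum.ext
    rw [h3', hPs]

end twist

end Pool.Agent.TH115.GD
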