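import Pool.Agent.TH115.TC.Inert
import Pool.Agent.TH115.TC.CritT4

/-!
Inert primes: the general case.
-/

set_option autoImplicit false
set_option linter.all false

open Polynomial IsDedekindDomain WithZero
open scoped Classical

namespace Pool.Agent.TH115.GD

section defs

variable {k : Type} [Field k]

/-- The cubic polynomial `x ^ 3 + a2 x ^ 2 + a4 x + a6` over `k[t]`. -/
noncomputable def cubX (a2 a4 a6 : k[X]) : k[X][X] := X ^ 3 + C a2 * X ^ 2 + C a4 * X + C a6

theorem cubX_deg (a2 a4 a6 : k[X]) : (cubX a2 a4 a6).natDegree = 3 ∧ (cubX a2 a4 a6).Monic := by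
  have h1 : (cubX a2 a4 a6).natDegree = 3 := by
    unfold cubX
    compute_degree!
  refine ⟨h1, ?_⟩
  rw [Monic, leadingCoeff, h1]
  unfold cubX
  simp [coeff_X, coeff_C]

theorem cubX_der (a2 a4 a6 : k[X]) : derivative (cubX a2 a4 a6) =
    C 3 * X ^ 2 + C (2 * a2) * X + C a4 := by
  unfold cubX
  simp only [derivative_add, derivative_mul, derivative_pow, derivative_X, derivative_C]
  push_cast
  simp only [map_ofNat, C_mul]
  ring

/-- The polynomial `x ^ 3 + a2 x ^ 2 + a4 x + a6` has no root modulo `π`, and its derivative is not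
zero modulo `π`. -/
def InertAt (a2 a4 a6 π : k[X]) : Prop :=
  (∀ u : k[X], ¬ π ∣ u ^ 3 + a2 * u ^ 2 + a4 * u + a6) ∧ ¬ (π ∣ 3 ∧ π ∣ a2 ∧ π ∣ a4)

theorem cubX_irr {a2 a4 a6 π : k[X]} [Fact (Irreducible π)] (h : InertAt a2 a4 a6 π) :
    Irreducible ((cubX a2 a4 a6).map (AdjoinRoot.mk π)) := by
  obtain ⟨h1, h3⟩ := cubX_deg a2 a4 a6
  refine irreducible_of_degree_le_three_of_not_isRoot (by rw [h3.natDegree_map, h1]; decide) ?_
  intro x hx
  obtain ⟨u, rfl⟩ := AdjoinRoot.mk_surjective x
  apply h.1 u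
  rw [← AdjoinRoot.mk_eq_zero]
  rw [IsRoot.def, eval_map, eval₂_at_apply] at hx
  rw [← hx]
  congr 1
  simp [cubX]

theorem quad_coeff' {A : Type} [CommRing A] {a b c : A} (h : (C a * X ^ 2 + C b * X + C c : A[X]) = 0) :
    a = 0 ∧ b = 0 ∧ c = 0 := by
  have c2 := congrArg (fun p : A[X] => p.coeff 2) h
  have c1 := congrArg (fun p : A[X] => p.coeff 1) h
  have c0 := congrArg (fun p : A[X] => p.coeff 0) h
  simp [coeff_X, coeff_C] at c2 c1 c0
  exact ⟨c2, c1, c0⟩

theorem cubX_der_ne (h2 : (2 : k) ≠ 0) {a2 a4 a6 π : k[X]} (hπ : Irreducible π)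
    (h : InertAt a2 a4 a6 π) : (derivative (cubX a2 a4 a6)).map (AdjoinRoot.mk π) ≠ 0 := by
  intro h0
  rw [cubX_der] at h0
  simp only [Polynomial.map_add, Polynomial.map_mul, Polynomial.map_pow, map_C, map_X] at h0
  obtain ⟨c2, c1, c0⟩ := quad_coeff' h0
  rw [AdjoinRoot.mk_eq_zero] at c2 c1 c0
  refine h.2 ⟨c2, ?_, c0⟩
  rcases hπ.prime.dvd_or_dvd c1 with h3 | h3
  · exfalso
    have h4 : IsUnit (2 : k[X]) := by
      have h1 : IsUnit (2 : k) := isUnit_iff_ne_zero.2 h2
      have h3 := h1.map (C : k →+* k[X])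
      rwa [map_ofNat] at h3
    exact hπ.not_isUnit (isUnit_of_dvd_unit h3 h4)
  · exact h3

end defs

section inert

variable {k : Type} [Field k] {R : Type} [CommRing R] [Algebra k[X] R]

theorem inertR_key {f : k[X][X]} {π : k[X]} {θR : R}
    (hirr : Irreducible (f.map (AdjoinRoot.mk π))) (hπ : Irreducible π)
    (hrel : aeval θR f = 0) {P : Ideal R} (hP : P ≠ ⊤) (hπP : algebraMap k[X] R π ∈ P)
    (p : k[X][X]) (hp : aeval θR p ∈ P) :
    ∃ r : R, aeval θR p = algebraMap k[X] R π * r := by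
  haveI : Fact (Irreducible π) := ⟨hπ⟩
  have hms := map_surjective (AdjoinRoot.mk π) (AdjoinRoot.mk_surjective)
  have hd : f.map (AdjoinRoot.mk π) ∣ p.map (AdjoinRoot.mk π) := by
    by_contra hnd
    obtain ⟨a, b, hab⟩ := hirr.coprime_iff_not_dvd.2 hnd
    obtain ⟨A, rfl⟩ := hms a
    obtain ⟨B, rfl⟩ := hms b
    obtain ⟨r, hr⟩ := red_ker (π := π) (p := A * f + B * p - 1) (by
      rw [Polynomial.map_sub, Polynomial.map_add, Polynomial.map_mul, Polynomial.map_mul,
        Polynomial.map_one]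
      exact sub_eq_zero.2 hab)
    have h5 := congrArg (aeval θR) hr
    rw [map_sub, map_add, map_mul, map_mul, hrel, mul_zero, zero_add, map_one, map_mul,
      aeval_C] at h5
    apply hP
    rw [Ideal.eq_top_iff_one]
    have h6 : (1 : R) = aeval θR B * aeval θR p - algebraMap k[X] R π * aeval θR r := by
      rw [← h5]; ring
    rw [h6]
    exact P.sub_mem (P.mul_mem_left _ hp) (P.mul_mem_right _ hπP)
  obtain ⟨q, hq⟩ := hd
  obtain ⟨Q, rfl⟩ := hms q
  obtain ⟨r, hr⟩ := red_ker (π := π) (p := p - f * Q) (by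
    rw [Polynomial.map_sub, Polynomial.map_mul]
    exact sub_eq_zero.2 hq)
  refine ⟨aeval θR r, ?_⟩
  have h5 := congrArg (aeval θR) hr
  rw [map_sub, map_mul, hrel, zero_mul, sub_zero, map_mul, aeval_C] at h5
  exact h5

/-- The maximal ideal above an inert prime. -/
theorem inertR_eq {f : k[X][X]} {π : k[X]} {θR : R} (hf : f.Monic) (h3 : f.natDegree = 3)
    (hirr : Irreducible (f.map (AdjoinRoot.mk π))) (hπ : Irreducible π)
    (hder : (derivative f).map (AdjoinRoot.mk π) ≠ 0)
    (hrel : aeval θR f = 0)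
    (hcond : ∀ x : R, ∃ p : k[X][X], aeval θR (derivative f) * x = aeval θR p)
    {P : Ideal R} (hP : P ≠ ⊤) (hπP : algebraMap k[X] R π ∈ P) :
    P = Ideal.span {algebraMap k[X] R π} ∧ aeval θR (derivative f) ∉ P := by
  haveI : Fact (Irreducible π) := ⟨hπ⟩
  have hms := map_surjective (AdjoinRoot.mk π) (AdjoinRoot.mk_surjective)
  obtain ⟨B, r, hB⟩ : ∃ B r : k[X][X], aeval θR B * aeval θR (derivative f) =
      1 + algebraMap k[X] R π * aeval θR r := by
    have hnd : ¬ f.map (AdjoinRoot.mk π) ∣ (derivative f).map (AdjoinRoot.mk π) := by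
      intro hd
      have h5 := natDegree_le_of_dvd hd hder
      have h6 := natDegree_derivative_le f
      have h7 : ((derivative f).map (AdjoinRoot.mk π)).natDegree ≤ (derivative f).natDegree :=
        natDegree_map_le
      rw [hf.natDegree_map, h3] at h5
      omega
    obtain ⟨a, b, hab⟩ := hirr.coprime_iff_not_dvd.2 hnd
    obtain ⟨A, rfl⟩ := hms a
    obtain ⟨B, rfl⟩ := hms b
    obtain ⟨r, hr⟩ := red_ker (π := π) (p := A * f + B * derivative f - 1) (by
      rw [Polynomial.map_sub, Polynomial.map_add, Polynomial.map_mul, Polynomial.map_mul,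
        Polynomial.map_one]
      exact sub_eq_zero.2 hab)
    refine ⟨B, r, ?_⟩
    have h5 := congrArg (aeval θR) hr
    rw [map_sub, map_add, map_mul, map_mul, hrel, mul_zero, zero_add, map_one, map_mul,
      aeval_C] at h5
    rw [← h5]; ring
  refine ⟨?_, ?_⟩
  · apply le_antisymm
    · intro x hx
      obtain ⟨p, hp⟩ := hcond x
      obtain ⟨s, hs⟩ := inertR_key hirr hπ hrel hP hπP p (by
        rw [← hp]; exact P.mul_mem_left _ hx)
      rw [Ideal.mem_span_singleton]
      refine ⟨aeval θR B * s - aeval θR r * x, ?_⟩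
      have h5 : x = aeval θR B * (aeval θR (derivative f) * x) -
          algebraMap k[X] R π * aeval θR r * x := by
        linear_combination -x * hB
      rw [hp, hs] at h5
      rw [h5]
      have h7 : x = aeval θR B * (algebraMap k[X] R π * s) -
          algebraMap k[X] R π * aeval θR r * x := h5
      linear_combination (-(algebraMap k[X] R π * aeval θR r)) * h7
    · rw [Ideal.span_singleton_le_iff_mem]
      exact hπP
  · intro hmem
    apply hP
    rw [Ideal.eq_top_iff_one]
    have h6 : (1 : R) = aeval θR B * aeval θR (derivative f) -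
        algebraMap k[X] R π * aeval θR r := by
      rw [hB]; ring
    rw [h6]
    exact P.sub_mem (P.mul_mem_left _ hmem) (P.mul_mem_right _ hπP)

end inert

section twist

variable {k K N R : Type} [Field k] [Field K] [Algebra k[X] K] [IsFractionRing k[X] K]
  [Field N] [Algebra K N] [Algebra k[X] N] [IsScalarTower k[X] K N]
  [CommRing R] [IsDedekindDomain R] [Algebra R N] [IsFractionRing R N]
  [Algebra k[X] R] [IsScalarTower k[X] R N] [Algebra.IsIntegral k[X] R]

omit [Algebra k[X] K] [IsFractionRing k[X] K] [Algebra K N] [Algebra k[X] N]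
  [IsScalarTower k[X] K N] [IsDedekindDomain R] [Algebra R N] [IsFractionRing R N]
  [Algebra k[X] R] [IsScalarTower k[X] R N] [Algebra.IsIntegral k[X] R] in
theorem mem_of_mul_eq {I J : Ideal R} {y : R} (h : I * J = Ideal.span {y}) : y ∈ I := by
  have h4 : y ∈ I * J := by
    rw [h]
    exact Ideal.mem_span_singleton_self _
  have h5 : I * J ≤ I := Ideal.mul_le_left
  exact h5 h4

/-- The conductor of `k[t][θ]` contains `f'(θ)`. -/
theorem cond_der {a2 a4 a6 : k[X]} (hΔ : (crvC (algebraMap k[X] K a2) (algebraMap k[X] K a4)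
      (algebraMap k[X] K a6)).Δ ≠ 0)
    (hnr : ∀ x : K, cub (crvC (algebraMap k[X] K a2) (algebraMap k[X] K a4)
      (algebraMap k[X] K a6)) x ≠ 0) {θR : R}
    (hθ : cub (crvC (algebraMap k[X] K a2) (algebraMap k[X] K a4)
      (algebraMap k[X] K a6)) (algebraMap R N θR) = 0)
    (hNtop : IntermediateField.adjoin K {algebraMap R N θR} = ⊤) (x : R) :
    ∃ p : k[X][X], aeval θR (derivative (cubX a2 a4 a6)) * x = aeval θR p := by
  obtain ⟨hfin, hsep⟩ := sepN (N := N) rfl rfl hΔ hθ hNtop
  haveI := hfin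
  haveI := hsep
  haveI : IsIntegralClosure R k[X] N := inferInstance
  haveI : Module.IsTorsionFree k[X] R := by
    rw [Module.isTorsionFree_iff_algebraMap_injective]
    intro x y h
    have h1 := congrArg (algebraMap R N) h
    rw [← IsScalarTower.algebraMap_apply k[X] R N, ← IsScalarTower.algebraMap_apply k[X] R N,
      IsScalarTower.algebraMap_apply k[X] K N, IsScalarTower.algebraMap_apply k[X] K N] at h1
    exact IsFractionRing.injective k[X] K ((algebraMap K N).injective h1)
  have hint : IsIntegral k[X] θR := Algebra.IsIntegral.isIntegral θR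
  have hmp : minpoly k[X] θR = cubX a2 a4 a6 := by
    have h1 := minpoly.isIntegrallyClosed_eq_field_fractions K N hint
    have h3 : minpoly K (algebraMap R N θR) = cubP (crvC (algebraMap k[X] K a2)
        (algebraMap k[X] K a4) (algebraMap k[X] K a6)) K := by
      refine (minpoly.eq_of_irreducible_of_monic (cubP_irr hnr) ?_ cubP_deg.2).symm
      rw [cubP_aeval]
      exact hθ
    rw [h3] at h1
    apply map_injective (algebraMap k[X] K) (IsFractionRing.injective k[X] K)
    rw [← h1]
    simp [cubP, cubX, crvC]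
  have hadj : Algebra.adjoin K {algebraMap R N θR} = ⊤ := by
    have h1 : IsAlgebraic K (algebraMap R N θR) := Algebra.IsAlgebraic.isAlgebraic _
    rw [← IntermediateField.adjoin_simple_toSubalgebra_of_isAlgebraic h1, hNtop,
      IntermediateField.top_toSubalgebra]
  have h1 := conductor_mul_differentIdeal k[X] K N θR hadj
  rw [hmp] at h1
  have h3 : aeval θR (derivative (cubX a2 a4 a6)) ∈ conductor k[X] θR := mem_of_mul_eq h1
  have h5 : aeval θR (derivative (cubX a2 a4 a6)) * x ∈ Algebra.adjoin k[X] {θR} :=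
    mem_conductor_iff.1 h3 x
  clear h1 h3 hmp
  rw [Algebra.adjoin_singleton_eq_range_aeval] at h5
  obtain ⟨p, hp⟩ := h5
  exact ⟨p, hp.symm⟩

/-- The condition on the twist. -/
theorem twist_okR (h2 : (2 : k) ≠ 0) {a2 a4 a6 D : k[X]}
    (hΔ : (crvC (algebraMap k[X] K a2) (algebraMap k[X] K a4)
      (algebraMap k[X] K a6)).Δ ≠ 0)
    (hnr : ∀ x : K, cub (crvC (algebraMap k[X] K a2) (algebraMap k[X] K a4)
      (algebraMap k[X] K a6)) x ≠ 0) {θ : N}
    (hθ : cub (crvC (algebraMap k[X] K a2) (algebraMap k[X] K a4)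
      (algebraMap k[X] K a6)) θ = 0)
    (hNtop : IntermediateField.adjoin K {θ} = ⊤) (hD : Squarefree D)
    (hin : ∀ π : k[X], Irreducible π → π ∣ D → InertAt a2 a4 a6 π) :
    TwistOK R D (cub' (crvC (algebraMap k[X] K a2) (algebraMap k[X] K a4)
      (algebraMap k[X] K a6)) θ) := by
  have hinj : Function.Injective (algebraMap k[X] R) := by
    intro x y h
    have h1 := congrArg (algebraMap R N) h
    rw [← IsScalarTower.algebraMap_apply k[X] R N, ← IsScalarTower.algebraMap_apply k[X] R N,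
      IsScalarTower.algebraMap_apply k[X] K N, IsScalarTower.algebraMap_apply k[X] K N] at h1
    exact IsFractionRing.injective k[X] K ((algebraMap K N).injective h1)
  have hθint : IsIntegral k[X] θ := by
    refine ⟨X ^ 3 + C a2 * X ^ 2 + C a4 * X + C a6, by monicity!, ?_⟩
    have e : cub (crvC (algebraMap k[X] K a2) (algebraMap k[X] K a4)
      (algebraMap k[X] K a6)) θ = θ ^ 3 + algebraMap K N (algebraMap k[X] K a2) * θ ^ 2 +
      algebraMap K N (algebraMap k[X] K a4) * θ + algebraMap K N (algebraMap k[X] K a6) := rfl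
    rw [e, ← IsScalarTower.algebraMap_apply k[X] K N, ← IsScalarTower.algebraMap_apply k[X] K N,
      ← IsScalarTower.algebraMap_apply k[X] K N] at hθ
    simp only [eval₂_add, eval₂_mul, eval₂_pow, eval₂_X, eval₂_C]
    exact hθ
  obtain ⟨θR, hθR⟩ := (IsIntegrallyClosed.isIntegral_iff (R := R) (K := N)).1
    (hθint.tower_top (A := R))
  subst hθR
  have hcond := cond_der (R := R) hΔ hnr hθ hNtop
  have hrel : aeval θR (cubX a2 a4 a6) = 0 := by
    apply IsFractionRing.injective R N
    rw [map_zero, ← aeval_algebraMap_apply, ← hθ]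
    simp only [cubX, cub, crvC, map_add, map_mul, map_pow, aeval_C, aeval_X]
    rw [IsScalarTower.algebraMap_apply k[X] K N, IsScalarTower.algebraMap_apply k[X] K N,
      IsScalarTower.algebraMap_apply k[X] K N]
  obtain ⟨hf3, hfm⟩ := cubX_deg a2 a4 a6
  intro P hP
  have hPtop : P.asIdeal ≠ ⊤ := P.isPrime.ne_top
  have hD0 : D ≠ 0 := hD.ne_zero
  let v : HeightOneSpectrum k[X] := ⟨P.asIdeal.comap (algebraMap k[X] R), Ideal.comap_isPrime _ _,
    fun h => hD0 (by
      have h1 : D ∈ P.asIdeal.comap (algebraMap k[X] R) := hP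
      rw [h] at h1
      exact h1)⟩
  obtain ⟨π, hπ, hv⟩ := exists_gen v
  haveI : Fact (Irreducible π) := ⟨hπ⟩
  have hvm : ∀ p : k[X], algebraMap k[X] R p ∈ P.asIdeal ↔ π ∣ p := fun p => hv p
  have hπD : π ∣ D := (hvm D).1 hP
  have hπP : algebraMap k[X] R π ∈ P.asIdeal := (hvm π).2 dvd_rfl
  have hI := hin π hπ hπD
  obtain ⟨hPs, hPd⟩ := inertR_eq hfm hf3 (cubX_irr hI) hπ (cubX_der_ne h2 hπ hI) hrel hcond hPtop hπP
  refine ⟨?_, ?_, ?_⟩
  · obtain ⟨D', hD'⟩ := hπD
    have h1 : ¬ π ∣ D' := by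
      rintro ⟨q, rfl⟩
      exact hπ.not_isUnit (hD π ⟨q, by rw [hD']; ring⟩)
    rw [← hvm] at h1
    rw [hD', map_mul, map_mul, (P.intValuation_eq_one_iff).2 h1, mul_one]
    apply P.intValuation_singleton
    · rw [Ne, map_eq_zero_iff _ hinj]
      exact hπ.ne_zero
    · exact hPs
  · have e : cub' (crvC (algebraMap k[X] K a2) (algebraMap k[X] K a4)
      (algebraMap k[X] K a6)) (algebraMap R N θR) =
        algebraMap R N (aeval θR (derivative (cubX a2 a4 a6))) := by
      rw [← aeval_algebraMap_apply, cubX_der]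
      simp only [cub', crvC, map_add, map_mul, map_pow, aeval_C, aeval_X, map_ofNat]
      rw [IsScalarTower.algebraMap_apply k[X] K N, IsScalarTower.algebraMap_apply k[X] K N]
    rw [e, P.valuation_of_algebraMap, P.intValuation_eq_one_iff]
    exact hPd
  · intro P' hP'
    have h1 : algebraMap k[X] R π ∈ P'.asIdeal := by
      have h2 : π ∈ P'.asIdeal.comap (algebraMap k[X] R) := by
        rw [hP']
        exact (hvm π).2 dvd_rfl
      exact h2
    obtain ⟨h3', -⟩ := inertR_eq hfm hf3 (cubX_irr hI) hπ (cubX_der_ne h2 hπ hI) hrel hcond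
      P'.isPrime.ne_top h1
    apply HeightOneSpectrum.ext
    rw [h3', hPs]

end twist

end Pool.Agent.TH115.GD
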