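import Pool.Agent.TH115.TC.Ext

/-!
The Kummer generator over the cubic field.
-/

set_option autoImplicit false
set_option linter.all false

open WeierstrassCurve WeierstrassCurve.Affine Polynomial
open scoped Classical

namespace Pool.Agent.TH115.GD

open Pool.Agent.W309.TD (locConst_apply exists_root compare)

universe u

section kummer

variable {K N Ω : Type u} [Field K] [Field N] [Field Ω] [Algebra K N] [Algebra N Ω] [Algebra K Ω]
  [IsScalarTower K N Ω]

/-- Automorphisms which fix a generator. -/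
theorem lift_fix {θ : N} (htop : IntermediateField.adjoin K {θ} = ⊤) (τ : Ω ≃ₐ[K] Ω)
    (hτ : τ (algebraMap N Ω θ) = algebraMap N Ω θ) : ∃ τ' : Ω ≃ₐ[N] Ω, ∀ x, τ' x = τ x := by
  have key : ∀ y : N, τ (algebraMap N Ω y) = algebraMap N Ω y := by
    intro y
    have hy : y ∈ (⊤ : IntermediateField K N) := trivial
    rw [← htop] at hy
    refine IntermediateField.adjoin_induction K
      (p := fun y _ => τ (algebraMap N Ω y) = algebraMap N Ω y) ?_ ?_ ?_ ?_ ?_ hy
    · intro y hy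
      rw [Set.mem_singleton_iff] at hy
      subst hy
      exact hτ
    · intro y
      rw [← IsScalarTower.algebraMap_apply K N Ω, τ.commutes]
    · intro x y _ _ hx hy
      rw [map_add, map_add, hx, hy]
    · intro x _ hx
      rw [map_inv₀, map_inv₀, hx]
    · intro x y _ _ hx hy
      rw [map_mul, map_mul, hx, hy]
  exact ⟨AlgEquiv.ofRingEquiv (f := τ.toRingEquiv) key, fun x => rfl⟩

variable [IsGalois K Ω] [IsSepClosed Ω] {W : WeierstrassCurve K} {a b c : Ω}
  (hC : IsC (W.baseChange Ω).toAffine a b c)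

include hC

/-- The Kummer generator. -/
theorem kummerN {θ : N} (hθ : algebraMap N Ω θ = a)
    (htop : IntermediateField.adjoin K {θ} = ⊤) {g : (Ω ≃ₐ[K] Ω) → Pt W Ω}
    (hg : IsLocallyConstant g) (hmul : ∀ σ τ, g (σ * τ) = g σ + act W (ak σ) (g τ))
    (hg2 : ∀ τ, g τ + g τ = 0) :
    ∃ (t : Ω) (z : N), t ≠ 0 ∧ t ^ 2 = algebraMap N Ω z ∧
      ∀ τ : Ω ≃ₐ[K] Ω, τ a = a → τ t = sC a (g τ) * t := by
  haveI : IsGalois N Ω := IsGalois.tower_top_of_isGalois K N Ω
  have hfix : ∀ τ : Ω ≃ₐ[N] Ω, (τ.restrictScalars K) a = a := by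
    intro τ
    rw [← hθ]
    exact τ.commutes θ
  obtain ⟨t, z, ht, hz, hk⟩ := exists_root (K := N) (Ω := Ω) hC.two
    (fun τ => sC a (g (AlgEquiv.restrictScalarsHom K τ))) (fun τ => sC_sq _) (fun σ τ => by
      show sC a (g (AlgEquiv.restrictScalarsHom K (σ * τ))) = _
      rw [map_mul, hmul, sC_add hC (hg2 _) ((two_act W _ _).2 (hg2 _))]
      congr 1
      have h1 := sC_act' W (ak (σ.restrictScalars K)) a (g (AlgEquiv.restrictScalarsHom K τ))
      have h3 : (ak (σ.restrictScalars K)) a = a := hfix σ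
      rw [h3] at h1
      exact h1) (by
      have h1 : IsLocallyConstant (g ∘ (AlgEquiv.restrictScalarsHom K : (Ω ≃ₐ[N] Ω) →* _)) :=
        hg.comp_continuous (cont_rs (F := K) (M := N) (Ω := Ω))
      exact h1.comp (sC a))
  refine ⟨t, z, ht, hz, fun τ hτ => ?_⟩
  obtain ⟨τ', hτ'⟩ := lift_fix htop τ (by rw [hθ]; exact hτ)
  have h1 := hk τ'
  have h3 : AlgEquiv.restrictScalarsHom K τ' = τ := AlgEquiv.ext fun x => hτ' x
  rw [h3, hτ'] at h1
  exact h1

omit [IsSepClosed Ω] in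
/-- The generator is determined by the sign up to an element of `N`. -/
theorem kummerN_unique [IsGalois N Ω] {θ : N} (hθ : algebraMap N Ω θ = a)
    {g : (Ω ≃ₐ[K] Ω) → Pt W Ω} {t u : Ω} (ht : t ≠ 0) (hu : u ≠ 0)
    (h1 : ∀ τ : Ω ≃ₐ[K] Ω, τ a = a → τ t = sC a (g τ) * t)
    (h3 : ∀ τ : Ω ≃ₐ[K] Ω, τ a = a → τ u = sC a (g τ) * u) :
    ∃ c : N, c ≠ 0 ∧ t = algebraMap N Ω c * u := by
  have hfix : ∀ τ : Ω ≃ₐ[N] Ω, (τ.restrictScalars K) a = a := by
    intro τ
    rw [← hθ]
    exact τ.commutes θ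
  exact compare (K := N) ht hu (fun τ => sC a (g (τ.restrictScalars K))) (fun τ => sC_ne _)
    (fun τ => h1 _ (hfix τ)) (fun τ => h3 _ (hfix τ))

end kummer

end Pool.Agent.TH115.GD
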