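import Pool.Agent.TH115.TC.ParH2

/-!
The parities of the valuations of the generator of the first layer.
-/

set_option autoImplicit false
set_option linter.all false

open Polynomial IsDedekindDomain WeierstrassCurve WeierstrassCurve.Affine WithZero
open scoped Classical

namespace Pool.Agent.TH115.GD

section defs

variable {k : Type} [Field k] {R : Type} [CommRing R] [IsDedekindDomain R] [Algebra k[X] R]

/-- There is only one prime over the prime of `k[t]` under `P`. -/
def InertP (P : HeightOneSpectrum R) : Prop :=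
  ∀ P' : HeightOneSpectrum R, P'.asIdeal.comap (algebraMap k[X] R) =
    P.asIdeal.comap (algebraMap k[X] R) → P' = P

/-- `θ` is congruent to `u` modulo `P`, and there is only one other prime over the prime of `k[t]`
under `P`. -/
def HalfP (a2 a4 a6 : k[X]) (θR : R) (P : HeightOneSpectrum R) : Prop :=
  ∃ u : k[X], θR - algebraMap k[X] R u ∈ P.asIdeal ∧
    algebraMap k[X] R (fval a2 a4 a6 u) ∈ P.asIdeal ∧
    algebraMap k[X] R (3 * u ^ 2 + 2 * a2 * u + a4) ∉ P.asIdeal ∧
    algebraMap k[X] R ((a2 + u) ^ 2 - 4 * (u ^ 2 + a2 * u + a4)) ∉ P.asIdeal ∧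
    ∀ P' P'' : HeightOneSpectrum R, P'.asIdeal.comap (algebraMap k[X] R) =
      P.asIdeal.comap (algebraMap k[X] R) → P''.asIdeal.comap (algebraMap k[X] R) =
      P.asIdeal.comap (algebraMap k[X] R) → θR - algebraMap k[X] R u ∉ P'.asIdeal →
      θR - algebraMap k[X] R u ∉ P''.asIdeal → P' = P''

/-- The places at which the generator has an even valuation. -/
def ParOK (a2 a4 a6 D : k[X]) (θR : R) (P : HeightOneSpectrum R) : Prop :=
  algebraMap k[X] R D ∉ P.asIdeal ∨ InertP (k := k) P ∨ HalfP a2 a4 a6 θR P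

end defs

section crit

variable {k k' K F N M R B : Type} [Field k] [Field k'] [Algebra k k'] [Field K] [Algebra k[X] K]
  [Field F] [Algebra k'[X] F] [IsFractionRing k'[X] F] [Algebra K F]
  [Field N] [Algebra K N] [Algebra N (Sep F)] [IsScalarTower K N (Sep F)]
  [Field M] [Algebra F M] [Algebra K M] [IsScalarTower K F M] [Algebra M (Sep F)]
  [IsScalarTower F M (Sep F)]
  [Algebra N M] [IsScalarTower N M (Sep F)]
  [Algebra k N] [Algebra k' M] [Algebra k M] [IsScalarTower k k' M] [IsScalarTower k N M]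
  [CommRing R] [IsDedekindDomain R] [Algebra R N] [IsFractionRing R N]
  [CommRing B] [IsDedekindDomain B] [Algebra B M] [IsFractionRing B M]
  [Algebra R B] [Algebra R M] [IsScalarTower R N M] [IsScalarTower R B M]
  [Algebra.IsIntegral R B] [Module.IsTorsionFree R B] [Algebra k' B] [IsScalarTower k' B M]
  [Algebra k'[X] B] [Algebra.IsIntegral k'[X] B] [Algebra k'[X] M] [IsScalarTower k'[X] F M]
  [IsScalarTower k'[X] B M] [Module.IsTorsionFree k'[X] B]
  [Algebra k[X] N] [IsScalarTower k[X] K N] [Algebra k[X] R] [IsScalarTower k[X] R N]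

/-- The first layer of a Tate class is given by an element of `N`. -/
theorem layerE (hT : IsTower k k' K F) {W : WeierstrassCurve K}
    (hnr : ∀ x : F, cub W x ≠ 0)
    {a b c : Sep F} (hC : IsC (W.baseChange (Sep F)).toAffine a b c)
    {θ : N} (hθ : algebraMap N (Sep F) θ = a)
    (hNtop : IntermediateField.adjoin K {θ} = ⊤)
    {e : ℕ → (Sep F ≃ₐ[F] Sep F) → Pt W (Sep F)} (he : IsTateClass k' _ e) :
    ∃ (t : Sep F) (z : N), t ≠ 0 ∧ t ^ 2 = algebraMap N (Sep F) z ∧
      (∀ σ : Sep F ≃ₐ[F] Sep F, σ a = a → σ t = sC a (e 1 σ) * t) := by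
  haveI := hT.sep
  haveI := hT.fracK
  haveI : IsGalois k k' := inferInstance
  have hKF := hT.map
  haveI : IsSepClosure K (Sep F) := sepKΩ hKF
  haveI : Algebra.IsSeparable K (Sep F) := IsSepClosure.separable
  haveI : IsGalois K (Sep F) := inferInstance
  have hf2 : ∀ σ, e 1 σ + e 1 σ = 0 := fun σ => by
    rw [← two_nsmul, he.tc.two 0 σ, he.tc.zero]
  obtain ⟨g, hg, hmul, hg2, hgF⟩ := ext_coc hC hnr (preserves hKF) (he.tc.coc 1) hf2 (inv_one he)
  obtain ⟨t, z, ht, hz, hk⟩ := kummerN hC hθ hNtop hg hmul hg2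
  refine ⟨t, z, ht, hz, fun σ hσ => ?_⟩
  have h1 := hk (σ.restrictScalars K) hσ
  rw [hgF] at h1
  exact h1

variable (B)

include B

/-- The parities of the valuations of the generator. -/
theorem layerP (hT : IsTower k k' K F) {a2 a4 a6 D : k[X]} (hS : SmoothC a2 a4 a6)
    (hnr : ∀ x : F, cub (crvC (algebraMap k[X] K (D * a2)) (algebraMap k[X] K (D ^ 2 * a4))
      (algebraMap k[X] K (D ^ 3 * a6))) x ≠ 0)
    {a b c : Sep F} (hC : IsC ((crvC (algebraMap k[X] K (D * a2)) (algebraMap k[X] K (D ^ 2 * a4))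
      (algebraMap k[X] K (D ^ 3 * a6))).baseChange (Sep F)).toAffine a b c)
    {θ : N} (hθ0 : cub (crvC (algebraMap k[X] K a2) (algebraMap k[X] K a4)
      (algebraMap k[X] K a6)) θ = 0)
    (hθ : algebraMap N (Sep F) (algebraMap K N (algebraMap k[X] K D) * θ) = a)
    (htop : IntermediateField.adjoin N (Set.range (algebraMap k' M)) = ⊤)
    {θR : R} (hθR : algebraMap R N θR = θ) (hD0 : D ≠ 0)
    (hXB : ∀ p : k[X], algebraMap R B (algebraMap k[X] R p) =
      algebraMap k'[X] B (p.map (algebraMap k k')))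
    (hD : ∀ P : HeightOneSpectrum R, algebraMap k[X] R D ∈ P.asIdeal →
      P.intValuation (algebraMap k[X] R D) = exp (-1 : ℤ) ∧
      P.valuation N (cub' (crvC (algebraMap k[X] K a2) (algebraMap k[X] K a4)
      (algebraMap k[X] K a6)) θ) = 1)
    {e : ℕ → (Sep F ≃ₐ[F] Sep F) → Pt (crvC (algebraMap k[X] K (D * a2)) (algebraMap k[X] K (D ^ 2 * a4))
      (algebraMap k[X] K (D ^ 3 * a6))) (Sep F)} (he : IsTateClass k' _ e)
    {t : Sep F} {z : N} (ht : t ≠ 0) (hz : t ^ 2 = algebraMap N (Sep F) z)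
    (hkF : ∀ σ : Sep F ≃ₐ[F] Sep F, σ a = a → σ t = sC a (e 1 σ) * t)
    (P : HeightOneSpectrum R) (hP : ParOK a2 a4 a6 D θR P) : IsSquare (P.valuation N z) := by
  haveI := hT.sep
  haveI := hT.fracK
  haveI : IsGalois k k' := inferInstance
  have hKF := hT.map
  have hDR : algebraMap R N (algebraMap k[X] R D) = algebraMap K N (algebraMap k[X] K D) := by
    rw [← IsScalarTower.algebraMap_apply k[X] R N, IsScalarTower.algebraMap_apply k[X] K N]
  have hf2 : ∀ σ, e 1 σ + e 1 σ = 0 := fun σ => by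
    rw [← two_nsmul, he.tc.two 0 σ, he.tc.zero]
  have hKM : ∀ x : K, algebraMap N M (algebraMap K N x) = algebraMap K M x := by
    intro x
    apply (algebraMap M (Sep F)).injective
    rw [← IsScalarTower.algebraMap_apply N M (Sep F), ← IsScalarTower.algebraMap_apply K N (Sep F),
      IsScalarTower.algebraMap_apply K F M, ← IsScalarTower.algebraMap_apply F M (Sep F),
      ← IsScalarTower.algebraMap_apply K F (Sep F)]
  have hzM : t ^ 2 = algebraMap M (Sep F) (algebraMap N M z) := by
    rw [← IsScalarTower.algebraMap_apply N M (Sep F), hz]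
  have hθM : algebraMap M (Sep F) (algebraMap K M (algebraMap k[X] K D) * algebraMap N M θ) =
      a := by
    rw [← hKM, ← map_mul, ← IsScalarTower.algebraMap_apply N M (Sep F), hθ]
  obtain ⟨𝔓0, h𝔓0⟩ := exists_over (B := B) P
  have hvalP : ∀ (𝔓 : HeightOneSpectrum B) (x : N),
      𝔓.valuation M (algebraMap N M x) = (𝔓.under R).valuation N x := fun 𝔓 x =>
    val_unram k (R := R) htop 𝔓 x
  by_cases hDP : algebraMap k[X] R D ∈ P.asIdeal
  · have hP' := hP.resolve_left (not_not.2 hDP)
    have hDK : algebraMap k[X] K D ≠ 0 := by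
      rw [Ne, map_eq_zero_iff _ (IsFractionRing.injective k[X] K)]
      exact hD0
    have hcubM : cub (crvC (algebraMap k[X] K a2) (algebraMap k[X] K a4)
      (algebraMap k[X] K a6)) (algebraMap N M θ) = 0 := by
      have h1 : cub (crvC (algebraMap k[X] K a2) (algebraMap k[X] K a4)
      (algebraMap k[X] K a6)) (algebraMap N M θ) = algebraMap N M (cub (crvC (algebraMap k[X] K a2) (algebraMap k[X] K a4)
      (algebraMap k[X] K a6)) θ) := by
        simp only [cub, map_add, map_mul, map_pow, hKM]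
      rw [h1, hθ0, map_zero]
    have hcubM' : cub' (crvC (algebraMap k[X] K a2) (algebraMap k[X] K a4)
      (algebraMap k[X] K a6)) (algebraMap N M θ) = algebraMap N M (cub' (crvC (algebraMap k[X] K a2) (algebraMap k[X] K a4)
      (algebraMap k[X] K a6)) θ) := by
      simp only [cub', map_add, map_mul, map_pow, hKM, map_ofNat]
    have hθB : algebraMap B M (algebraMap R B θR) = algebraMap N M θ := by
      rw [← IsScalarTower.algebraMap_apply R B M, IsScalarTower.algebraMap_apply R N M, hθR]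
    -- the primes over `v`
    have hmem : ∀ (𝔓 : HeightOneSpectrum B) (q : k[X]),
        algebraMap k[X] R q ∈ (𝔓.under R).asIdeal ↔
          q.map (algebraMap k k') ∈ (𝔓.under k'[X]).asIdeal := by
      intro 𝔓 q
      show algebraMap R B (algebraMap k[X] R q) ∈ 𝔓.asIdeal ↔
        algebraMap k'[X] B (q.map (algebraMap k k')) ∈ 𝔓.asIdeal
      rw [hXB]
    have hcomap : ∀ 𝔓 : HeightOneSpectrum B, 𝔓.under k'[X] = 𝔓0.under k'[X] →
        (𝔓.under R).asIdeal.comap (algebraMap k[X] R) =
        P.asIdeal.comap (algebraMap k[X] R) := by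
      intro 𝔓 h𝔓
      ext q
      rw [← h𝔓0, Ideal.mem_comap, Ideal.mem_comap, hmem, hmem, h𝔓]
    have hDq : ∀ 𝔓 : HeightOneSpectrum B, 𝔓.under k'[X] = 𝔓0.under k'[X] →
        algebraMap k[X] R D ∈ (𝔓.under R).asIdeal := by
      intro 𝔓 h𝔓
      rw [hmem, h𝔓, ← hmem, h𝔓0]
      exact hDP
    have hpat := parD2 (B := B) hKF (a2 := a2) (a4 := a4) (a6 := a6) (D := D)
      (θ := algebraMap N M θ) (θB := algebraMap R B θR) hθB
      hθM hC hnr hcubM (he.tc.coc 1) hf2 (he.loc 1) ht hzM hkF (𝔓0.under k'[X])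
      (fun 𝔓 h𝔓 => by
        obtain ⟨hD1, hD2⟩ := hD (𝔓.under R) (hDq 𝔓 h𝔓)
        exact ⟨by rw [← hKM, hvalP, ← hDR, HeightOneSpectrum.valuation_of_algebraMap, hD1],
          by rw [hcubM', hvalP, hD2]⟩)
    have hloc : LocPat (𝔓0.under k'[X]) (algebraMap R B θR) (a2.map (algebraMap k k'))
        (a4.map (algebraMap k k')) (a6.map (algebraMap k k'))
        (fun 𝔓 => IsSquare ((𝔓.under R).valuation N z)) := by
      rcases hpat with h | ⟨p, hp, h⟩
      · left
        intro 𝔓 h𝔓
        have := h 𝔓 h𝔓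
        rwa [hvalP] at this
      · right
        refine ⟨p, hp, fun 𝔓 h𝔓 => ?_⟩
        have := h 𝔓 h𝔓
        rwa [hvalP] at this
    have hspec : ∀ p : k'[X], fval (a2.map (algebraMap k k')) (a4.map (algebraMap k k'))
        (a6.map (algebraMap k k')) p ∈ (𝔓0.under k'[X]).asIdeal →
        ∃ 𝔓 : HeightOneSpectrum B, 𝔓.under k'[X] = 𝔓0.under k'[X] ∧
          algebraMap R B θR - algebraMap k'[X] B p ∈ 𝔓.asIdeal := fun p hp =>
      specialD hKF hθB hθM hC hnr hDK _ hp
    have hθu : ∀ (𝔓 : HeightOneSpectrum B) (u : k[X]),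
        θR - algebraMap k[X] R u ∈ (𝔓.under R).asIdeal ↔
        algebraMap R B θR - algebraMap k'[X] B (u.map (algebraMap k k')) ∈ 𝔓.asIdeal := by
      intro 𝔓 u
      show algebraMap R B (θR - algebraMap k[X] R u) ∈ 𝔓.asIdeal ↔ _
      rw [map_sub, hXB]
    rcases hP' with hI | ⟨u, hu1, hu2, hu3, hu4, hu5⟩
    · have h1 := inert_even (R := R) (Pr := fun P => IsSquare (P.valuation N z)) (𝔓1 := 𝔓0) hloc hspec rfl (fun 𝔓 h𝔓 => by
        rw [h𝔓0]
        exact hI _ (hcomap 𝔓 h𝔓))
      rwa [h𝔓0] at h1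
    · have h1 := half_even (R := R) (Pr := fun P => IsSquare (P.valuation N z)) (𝔓1 := 𝔓0) (u := u.map (algebraMap k k')) hloc hspec rfl
        (by rw [← hθu, h𝔓0]; exact hu1)
        (by
          have e : fval (a2.map (algebraMap k k')) (a4.map (algebraMap k k'))
            (a6.map (algebraMap k k')) (u.map (algebraMap k k')) =
              (fval a2 a4 a6 u).map (algebraMap k k') := by
            simp [fval]
          rw [e, ← hmem, h𝔓0]
          exact hu2)
        (by
          have e : 3 * (u.map (algebraMap k k')) ^ 2 + 2 * (a2.map (algebraMap k k')) *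
            (u.map (algebraMap k k')) + a4.map (algebraMap k k') =
              (3 * u ^ 2 + 2 * a2 * u + a4).map (algebraMap k k') := by
            simp
          rw [e, ← hmem, h𝔓0]
          exact hu3)
        (by
          have e : (a2.map (algebraMap k k') + u.map (algebraMap k k')) ^ 2 -
            4 * ((u.map (algebraMap k k')) ^ 2 + a2.map (algebraMap k k') *
              u.map (algebraMap k k') + a4.map (algebraMap k k')) =
              ((a2 + u) ^ 2 - 4 * (u ^ 2 + a2 * u + a4)).map (algebraMap k k') := by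
            simp
          rw [e, ← hmem, h𝔓0]
          exact hu4)
        (fun 𝔓 𝔓' h𝔓 h𝔓' hn hn' => hu5 _ _ (hcomap 𝔓 h𝔓) (hcomap 𝔓' h𝔓')
          (by rw [hθu]; exact hn) (by rw [hθu]; exact hn'))
      rwa [h𝔓0] at h1
  · rw [← h𝔓0, ← hvalP 𝔓0]
    refine parM' hKF hθM hC (he.tc.coc 1) hf2 (he.loc 1) ht hzM hkF 𝔓0 ?_
    refine locSm_tw hKF hS _ ?_
    intro h1
    apply hDP
    rw [← h𝔓0]
    show algebraMap R B (algebraMap k[X] R D) ∈ 𝔓0.asIdeal
    rw [hXB]
    exact h1

end crit

end Pool.Agent.TH115.GD
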