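import Pool.Agent.TH115.TC.Emb

/-!
The local condition for the Kummer generator over the cubic field.
-/

set_option autoImplicit false
set_option linter.all false

open WeierstrassCurve WeierstrassCurve.Affine
open scoped Classical

namespace Pool.Agent.TH115.GD

open Pool.Agent.W309.TD (locConst_apply exists_root compare)

universe u

section roots

variable {K Ω Ω' : Type u} [Field K] [Field Ω] [Field Ω'] [Algebra K Ω] [Algebra K Ω']
  {W : WeierstrassCurve K} {a b c : Ω} (h : IsC (W.baseChange Ω).toAffine a b c)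

/-- The value of the cubic polynomial of `W`. -/
def cub (W : WeierstrassCurve K) {L : Type*} [Field L] [Algebra K L] (x : L) : L :=
  x ^ 3 + algebraMap K L W.a₂ * x ^ 2 + algebraMap K L W.a₄ * x + algebraMap K L W.a₆

/-- The value of the derivative of the cubic polynomial of `W`. -/
def cub' (W : WeierstrassCurve K) {L : Type*} [Field L] [Algebra K L] (x : L) : L :=
  3 * x ^ 2 + 2 * algebraMap K L W.a₂ * x + algebraMap K L W.a₄

theorem cub_map (W : WeierstrassCurve K) (φ : Ω →ₐ[K] Ω') (x : Ω) : cub W (φ x) = φ (cub W x) := by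
  simp only [cub, map_add, map_mul, map_pow, φ.commutes]

theorem cub'_map (W : WeierstrassCurve K) (φ : Ω →ₐ[K] Ω') (x : Ω) :
    cub' W (φ x) = φ (cub' W x) := by
  simp only [cub', map_add, map_mul, map_pow, φ.commutes, map_ofNat]

include h

theorem IsC.e2 : algebraMap K Ω W.a₂ = -(a + b + c) := h.a2

theorem IsC.e4 : algebraMap K Ω W.a₄ = a * b + a * c + b * c := h.a4

theorem IsC.e6 : algebraMap K Ω W.a₆ = -(a * b * c) := h.a6

theorem IsC.cub_eq (x : Ω) : cub W x = (x - a) * (x - b) * (x - c) := by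
  unfold cub
  rw [h.e2, h.e4, h.e6]
  ring

theorem IsC.cub'_eq : cub' W a = (b - a) * (c - a) := by
  unfold cub'
  rw [h.e2, h.e4]
  ring

theorem IsC.root {x : Ω} (hx : cub W x = 0) : x = a ∨ x = b ∨ x = c := by
  rw [h.cub_eq] at hx
  rcases mul_eq_zero.1 hx with h1 | h1
  · rcases mul_eq_zero.1 h1 with h3 | h3
    · exact Or.inl (sub_eq_zero.1 h3)
    · exact Or.inr (Or.inl (sub_eq_zero.1 h3))
  · exact Or.inr (Or.inr (sub_eq_zero.1 h1))

theorem IsC.root_a : cub W a = 0 := by rw [h.cub_eq]; ring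

theorem IsC.root_b : cub W b = 0 := by rw [h.cub_eq]; ring

theorem IsC.root_c : cub W c = 0 := by rw [h.cub_eq]; ring

theorem IsC.perm1 (φ : Ω →ₐ[K] Ω) (h1 : φ a = a) : (φ b = b ∧ φ c = c) ∨ (φ b = c ∧ φ c = b) := by
  have hb := h.root (x := φ b) (by rw [cub_map, h.root_b, map_zero])
  have hc := h.root (x := φ c) (by rw [cub_map, h.root_c, map_zero])
  have inj : ∀ {x y : Ω}, φ x = φ y → x = y := fun h => φ.injective h
  rcases hb with h3 | h3 | h3
  · exact absurd (inj (h3.trans h1.symm)).symm h.ab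
  · rcases hc with h4 | h4 | h4
    · exact absurd (inj (h4.trans h1.symm)).symm h.ac
    · exact absurd (inj (h4.trans h3.symm)).symm h.bc
    · exact Or.inl ⟨h3, h4⟩
  · rcases hc with h4 | h4 | h4
    · exact absurd (inj (h4.trans h1.symm)).symm h.ac
    · exact Or.inr ⟨h3, h4⟩
    · exact absurd (inj (h4.trans h3.symm)).symm h.bc

theorem IsC.map (φ : Ω →ₐ[K] Ω') : IsC (W.baseChange Ω').toAffine (φ a) (φ b) (φ c) := by
  have e : ∀ x : K, algebraMap K Ω' x = φ (algebraMap K Ω x) := fun x => (φ.commutes x).symm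
  have a1 : W.a₁ = 0 := (algebraMap K Ω).injective (by rw [map_zero]; exact h.a1)
  have a3 : W.a₃ = 0 := (algebraMap K Ω).injective (by rw [map_zero]; exact h.a3)
  refine ⟨?_, ?_, ?_, ?_, ?_, ?_, fun h' => h.ab (φ.injective h'), fun h' => h.ac (φ.injective h'),
    fun h' => h.bc (φ.injective h')⟩
  · show algebraMap K Ω' W.a₁ = 0
    rw [a1, map_zero]
  · show algebraMap K Ω' W.a₃ = 0
    rw [a3, map_zero]
  · show algebraMap K Ω' W.a₂ = _
    rw [e, h.e2]; simp
  · show algebraMap K Ω' W.a₄ = _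
    rw [e, h.e4]; simp
  · show algebraMap K Ω' W.a₆ = _
    rw [e, h.e6]; simp
  · rw [← map_ofNat φ 2]
    exact (map_ne_zero _).2 h.two

theorem IsC.eqnL {L : Type u} [Field L] [Algebra K L] {x y : L}
    (hP : (W.baseChange L).toAffine.Nonsingular x y) : y ^ 2 = cub W x := by
  have a1 : W.a₁ = 0 := (algebraMap K Ω).injective (by rw [map_zero]; exact h.a1)
  have a3 : W.a₃ = 0 := (algebraMap K Ω).injective (by rw [map_zero]; exact h.a3)
  have h1 := hP.1
  rw [Affine.equation_iff] at h1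
  have e1 : (W.baseChange L).toAffine.a₁ = 0 := by
    show algebraMap K L W.a₁ = 0
    rw [a1, map_zero]
  have e3 : (W.baseChange L).toAffine.a₃ = 0 := by
    show algebraMap K L W.a₃ = 0
    rw [a3, map_zero]
  have e2 : (W.baseChange L).toAffine.a₂ = algebraMap K L W.a₂ := rfl
  have e4 : (W.baseChange L).toAffine.a₄ = algebraMap K L W.a₄ := rfl
  have e6 : (W.baseChange L).toAffine.a₆ = algebraMap K L W.a₆ := rfl
  rw [e1, e2, e3, e4, e6] at h1
  unfold cub
  linear_combination h1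

end roots

section kappa

variable {F L Ω' E Ω'' : Type u} [Field F] [Field L] [Field Ω'] [Field E] [Field Ω'']
  [Algebra F L] [Algebra L Ω'] [Algebra F Ω'] [IsScalarTower F L Ω'] [IsGalois L Ω']
  [Algebra F E] [Algebra E Ω''] [Algebra F Ω''] [IsScalarTower F E Ω''] [IsGalois E Ω'']
  [IsSepClosed Ω'']

theorem exists_kappa (j : L →+* E) (hj : ∀ x : F, j (algebraMap F L x) = algebraMap F E x) :
    ∃ κ : Ω' →ₐ[F] Ω'', (∀ y : L, κ (algebraMap L Ω' y) = algebraMap E Ω'' (j y)) ∧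
      ∀ τ : Ω'' ≃ₐ[E] Ω'', ∃ τ' : Ω' ≃ₐ[L] Ω', ∀ x, τ (κ x) = κ (τ' x) := by
  letI : Algebra L E := j.toAlgebra
  letI : Algebra L Ω'' := ((algebraMap E Ω'').comp j).toAlgebra
  haveI : IsScalarTower L E Ω'' := IsScalarTower.of_algebraMap_eq fun x => rfl
  let κ0 : Ω' →ₐ[L] Ω'' := IsSepClosed.lift
  refine ⟨{ κ0.toRingHom with commutes' := fun x => ?_ }, fun y => κ0.commutes y, fun τ => ?_⟩
  · show κ0 (algebraMap F Ω' x) = _
    rw [IsScalarTower.algebraMap_apply F L Ω', κ0.commutes]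
    show algebraMap E Ω'' (j _) = _
    rw [hj, ← IsScalarTower.algebraMap_apply F E Ω'']
  · obtain ⟨τ', h⟩ := exists_restrict (F := L) (Ω := Ω') (L := E) (Ω' := Ω'') κ0 τ
    exact ⟨τ', h⟩

end kappa

section locC

variable {K F Ω L Ω' E M : Type u} [Field K] [Field F] [Field Ω] [Field L] [Field Ω'] [Field E]
  [Field M] [Algebra K F] [Algebra F Ω] [Algebra K Ω] [IsScalarTower K F Ω]
  [IsGalois F Ω]
  [Algebra K L] [Algebra F L] [IsScalarTower K F L]
  [Algebra L Ω'] [Algebra K Ω'] [Algebra F Ω'] [IsScalarTower K L Ω'] [IsScalarTower F L Ω']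
  [IsScalarTower K F Ω'] [IsGalois L Ω']
  [Algebra K E] [Algebra F E] [IsScalarTower K F E]
  [Algebra F M] [Algebra M Ω] [IsScalarTower F M Ω] [Algebra M E] [IsScalarTower F M E]
  (W : WeierstrassCurve K)

/-- The local condition. -/
def LocC (W : WeierstrassCurve K) (j : L →+* E) (θ : M) (z : M) : Prop :=
  ∃ g D : E, g ≠ 0 ∧ algebraMap M E z = g ^ 2 * D ∧ (D = 1 ∨ ∃ x y : L, y ^ 2 = cub W x ∧
    ((j x = algebraMap M E θ ∧ D = cub' W (algebraMap M E θ)) ∨
      (j x ≠ algebraMap M E θ ∧ D = j x - algebraMap M E θ)))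

theorem locC (Ω'' : Type u) [Field Ω''] [Algebra E Ω''] [Algebra K Ω''] [Algebra F Ω'']
    [IsScalarTower K E Ω''] [IsScalarTower K F Ω''] [IsScalarTower F E Ω''] [IsGalois E Ω'']
    [IsSepClosed Ω''] {a b c : Ω} {θ : M} (hC : IsC (W.baseChange Ω).toAffine a b c)
    (hθ : algebraMap M Ω θ = a) (j : L →+* E)
    (hj : ∀ x : F, j (algebraMap F L x) = algebraMap F E x)
    {f : (Ω ≃ₐ[F] Ω) → Pt W Ω} (hf : IsCoc W f) (hf2 : ∀ σ, f σ + f σ = 0)
    (hloc : LocTriv W L Ω' f) {t : Ω} {z : M} (ht : t ≠ 0) (hz : t ^ 2 = algebraMap M Ω z)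
    (hk : ∀ σ : Ω ≃ₐ[F] Ω, σ a = a → σ t = sC a (f σ) * t) :
    LocC W j θ z := by
  obtain ⟨κ, hκ1, hκ2⟩ := exists_kappa (F := F) (L := L) (Ω' := Ω') (E := E) (Ω'' := Ω'') j hj
  -- the embedding
  obtain ⟨i, hi⟩ : ∃ i : Ω →ₐ[F] Ω'', ∀ m : M, i (algebraMap M Ω m) =
      algebraMap E Ω'' (algebraMap M E m) := by
    letI : Algebra M Ω'' := ((algebraMap E Ω'').comp (algebraMap M E)).toAlgebra
    haveI : Algebra.IsSeparable M Ω := Algebra.isSeparable_tower_top_of_isSeparable F M Ω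
    let i0 : Ω →ₐ[M] Ω'' := IsSepClosed.lift
    refine ⟨{ i0.toRingHom with commutes' := fun x => ?_ }, fun m => i0.commutes m⟩
    show i0 (algebraMap F Ω x) = _
    rw [IsScalarTower.algebraMap_apply F M Ω, i0.commutes]
    show algebraMap E Ω'' (algebraMap M E (algebraMap F M x)) = _
    rw [← IsScalarTower.algebraMap_apply F M E, ← IsScalarTower.algebraMap_apply F E Ω'']
  obtain ⟨P, Q, hPQ, hP⟩ := transfer W hf hf2 hloc κ hκ2 i
  choose res hres using exists_restrict (F := F) (Ω := Ω) (L := E) (Ω' := Ω'') i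
  set i' : Ω →ₐ[K] Ω'' := i.restrictScalars K with hi'
  have hC' := hC.map i'
  have hia : i a = algebraMap E Ω'' (algebraMap M E θ) := by rw [← hθ, hi]
  have hfix : ∀ τ : Ω'' ≃ₐ[E] Ω'', res τ a = a := by
    intro τ
    apply i.injective
    show i (res τ a) = i a
    rw [← hres, hia, τ.commutes]
  have hT : ∀ τ : Ω'' ≃ₐ[E] Ω'', act W i' (f (res τ)) = act W (rs K τ) P - P :=
    fun τ => hP τ (res τ) (hres τ)
  have hTT : ∀ τ : Ω'' ≃ₐ[E] Ω'', (act W (rs K τ) P - P) + (act W (rs K τ) P - P) = 0 := by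
    intro τ
    rw [← hT]
    exact (two_act W i' _).2 (hf2 _)
  have A : ∀ τ : Ω'' ≃ₐ[E] Ω'', τ (i t) = sC (i' a) (act W (rs K τ) P - P) * i t := by
    intro τ
    rw [hres, hk _ (hfix τ), map_mul, ← hT, sC_act]
    rfl
  have B : ∀ τ : Ω'' ≃ₐ[E] Ω'', τ (hc (i' a) (i' b) (i' c) P) =
      sC (i' a) (act W (rs K τ) P - P) * hc (i' a) (i' b) (i' c) P := by
    intro τ
    have e1 : hc ((rs K τ) (i' a)) ((rs K τ) (i' b)) ((rs K τ) (i' c)) (act W (rs K τ) P) =
        (rs K τ) (hc (i' a) (i' b) (i' c) P) := hc_act W (rs K τ) _ _ _ P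
    have ea : (rs K τ) (i' a) = i' a := by
      show τ (i a) = i a
      rw [hres, hfix]
    have e3 : hc ((rs K τ) (i' a)) ((rs K τ) (i' b)) ((rs K τ) (i' c)) (act W (rs K τ) P) =
        hc (i' a) (i' b) (i' c) (act W (rs K τ) P) := by
      rw [ea]
      rcases hC'.perm1 (rs K τ) ea with ⟨h1, h3⟩ | ⟨h1, h3⟩
      · rw [h1, h3]
      · rw [h1, h3, hc_swap]
    rw [e3] at e1
    have e4 : act W (rs K τ) P = P + (act W (rs K τ) P - P) := by abel
    rw [e4, hc_translate hC' (hTT τ)] at e1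
    · rw [e4] at e1
      simp only [add_sub_cancel_left] at e1
      exact e1.symm
    · intro hP0
      have h5 : act W (rs K τ) P - P = act W (rs K τ) P + P := by
        rw [sub_eq_add_neg, neg_eq_of_add_eq_zero_left hP0]
      have h6 : act W (rs K τ) P + act W (rs K τ) P = 0 := (two_act W _ _).2 hP0
      rw [h5, sC_add hC' h6 hP0]
      have h7 : sC (i' a) (act W (rs K τ) P) = sC (i' a) P := by
        have := sC_act' W (rs K τ) (i' a) P
        rwa [ea] at this
      rw [h7, sC_mul_self]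
  have hne := hc_ne hC' P
  obtain ⟨g, hg, q⟩ := compare (K := E) ((map_ne_zero i).2 ht) hne _ (fun τ => sC_ne _) A B
  have q2 : algebraMap E Ω'' (algebraMap M E z) = algebraMap E Ω'' g ^ 2 *
      dc (i' a) (i' b) (i' c) (P + P) := by
    rw [← hc_sq hC', ← mul_pow, ← q, ← map_pow, hz, hi]
  have injE := (algebraMap E Ω'').injective
  have ecub' : cub' W (i' a) = algebraMap E Ω'' (cub' W (algebraMap M E θ)) := by
    have : (i' a) = (incl K E Ω'') (algebraMap M E θ) := hia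
    rw [this, cub'_map]
    rfl
  rw [hPQ] at q2
  rcases Q with _ | ⟨x, y, hxy⟩
  · refine ⟨g, 1, hg, injE ?_, Or.inl rfl⟩
    rw [q2, act_zero, mul_one, map_pow]
    simp only [dc, mul_one]
  · obtain ⟨h', hh⟩ := act_some W ((κ.restrictScalars K).comp (incl K L Ω')) hxy
    rw [hh] at q2
    have ex : ((κ.restrictScalars K).comp (incl K L Ω')) x = algebraMap E Ω'' (j x) := hκ1 x
    simp only [dc, ex] at q2
    by_cases hx : j x = algebraMap M E θ
    · have hx' : algebraMap E Ω'' (j x) = i' a := by rw [hx]; exact hia.symm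
      rw [if_pos hx', ← hC'.cub'_eq, ecub'] at q2
      refine ⟨g, cub' W (algebraMap M E θ), hg, injE ?_, Or.inr ⟨x, y, hC.eqnL hxy, Or.inl ⟨hx, rfl⟩⟩⟩
      rw [q2, map_mul, map_pow]
    · have hx' : algebraMap E Ω'' (j x) ≠ i' a := fun h => hx (injE (by rw [h]; exact hia))
      rw [if_neg hx'] at q2
      refine ⟨g, j x - algebraMap M E θ, hg, injE ?_, Or.inr ⟨x, y, hC.eqnL hxy, Or.inr ⟨hx, rfl⟩⟩⟩
      have hia' : i' a = algebraMap E Ω'' (algebraMap M E θ) := hia
      rw [q2, map_mul, map_pow, map_sub, hia']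

end locC

end Pool.Agent.TH115.GD
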