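import Pool.Agent.TH115.TC.ParT2

/-!
Parity of the valuations at the smooth points of the trigonal curve.
-/

set_option autoImplicit false
set_option linter.all false

open Polynomial IsDedekindDomain WeierstrassCurve WeierstrassCurve.Affine WithZero
open scoped Classical

namespace Pool.Agent.TH115.GD

section parity

variable {K L E : Type*} [Field K] [Field L] [Field E] [Algebra K L] [Algebra K E]
  (W : WeierstrassCurve K) (vL : Valuation L (WithZero (Multiplicative ℤ)))
  (wE : Valuation E (WithZero (Multiplicative ℤ))) (j : L →+* E)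
  (hjK : ∀ x : K, j (algebraMap K L x) = algebraMap K E x)
  (hle : ∀ y, vL y ≤ 1 → wE (j y) ≤ 1) (hlt : ∀ y, vL y < 1 → wE (j y) < 1)

include hjK hle hlt in
/-- The parity. -/
theorem parCP (h2 : vL (algebraMap K L W.a₂) ≤ 1) (h4 : vL (algebraMap K L W.a₄) ≤ 1)
    {θ : E} (hsm : ∀ x : L, vL x ≤ 1 → wE (j x - θ) < 1 → vL (cub W x) < 1 →
      vL (cub' W x) < 1 → vL (cub W x) = exp (-1 : ℤ)) (hθ : cub W θ = 0) (hθ1 : wE θ ≤ 1) {x y : L}
    (hxy : y ^ 2 = cub W x) {D : E}
    (hD : (j x = θ ∧ D = cub' W θ) ∨ (j x ≠ θ ∧ D = j x - θ)) : IsSquare (wE D) := by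
  have w2 : wE (algebraMap K E W.a₂) ≤ 1 := by rw [← hjK]; exact hle _ h2
  have w4 : wE (algebraMap K E W.a₄) ≤ 1 := by rw [← hjK]; exact hle _ h4
  have wn : ∀ n : ℕ, wE (n : E) ≤ 1 := fun n => by
    induction n with
    | zero => rw [Nat.cast_zero, map_zero]; exact zero_le
    | succ n ih =>
      rw [Nat.cast_succ]
      exact (Valuation.map_add _ _ _).trans (max_le ih (by rw [map_one]))
  set X := j x with hX
  set q := X ^ 2 + (algebraMap K E W.a₂ + θ) * X + (θ ^ 2 + algebraMap K E W.a₂ * θ +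
    algebraMap K E W.a₄) with hq
  have hfac : (j y) ^ 2 = (X - θ) * q := by
    rw [← map_pow, hxy, ← cub_j W j hjK]
    have hθ' : θ ^ 3 + algebraMap K E W.a₂ * θ ^ 2 + algebraMap K E W.a₄ * θ +
      algebraMap K E W.a₆ = 0 := hθ
    simp only [cub, hq]
    linear_combination hθ'
  have hp1 : wE (algebraMap K E W.a₂ + θ) ≤ 1 := (Valuation.map_add _ _ _).trans (max_le w2 hθ1)
  have hθ2 : wE (θ ^ 2) ≤ 1 := by rw [map_pow]; exact pow_le_one₀ zero_le hθ1
  have hp2 : wE (θ ^ 2 + algebraMap K E W.a₂ * θ + algebraMap K E W.a₄) ≤ 1 := by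
    refine (Valuation.map_add _ _ _).trans (max_le ((Valuation.map_add _ _ _).trans
      (max_le hθ2 ?_)) w4)
    rw [map_mul]
    exact mul_le_one' w2 hθ1
  rcases le_or_gt (wE X) 1 with hX1 | hX1
  · -- integral points
    have hx1 : vL x ≤ 1 := le_of_j vL wE j hlt hX1
    have hq1 : wE q ≤ 1 := by
      refine (Valuation.map_add _ _ _).trans (max_le ((Valuation.map_add _ _ _).trans
        (max_le ?_ ?_)) hp2)
      · rw [map_pow]; exact pow_le_one₀ zero_le hX1
      · rw [map_mul]; exact mul_le_one' hp1 hX1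
    have hXθ : wE (X - θ) ≤ 1 := (Valuation.map_sub _ _ _).trans (max_le hX1 hθ1)
    have key : wE (X - θ) < 1 → wE q = 1 := by
      intro h1
      by_contra h3
      have h3 : wE q < 1 := lt_of_le_of_ne hq1 h3
      have h5 : vL (cub W x) < 1 := by
        apply lt_of_j vL wE j hle hlt
        rw [← hxy, map_pow, hfac, map_mul]
        exact lt_of_le_of_lt (mul_le_of_le_one_right' hq1) h1
      have h6 : vL (cub' W x) < 1 := by
        apply lt_of_j vL wE j hle hlt
        rw [← cub'_j W j hjK]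
        have e : cub' W X = q + (X - θ) * (2 * X + algebraMap K E W.a₂ + θ) := by
          simp only [cub', hq]
          ring
        rw [← hX, e]
        refine lt_of_le_of_lt (Valuation.map_add _ _ _) (max_lt h3 ?_)
        rw [map_mul]
        refine lt_of_le_of_lt (mul_le_of_le_one_right' ?_) h1
        refine (Valuation.map_add _ _ _).trans (max_le ((Valuation.map_add _ _ _).trans
          (max_le ?_ w2)) hθ1)
        rw [map_mul]
        exact mul_le_one' (by exact_mod_cast wn 2) hX1
      have h7 := hsm x hx1 h1 h5 h6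
      rw [← hxy, map_pow, pow_two] at h7
      exact not_sq_exp h7
    rcases hD with ⟨h1, rfl⟩ | ⟨h1, rfl⟩
    · have h3 := key (by rw [h1, sub_self, map_zero]; exact zero_lt_one)
      have e : cub' W θ = q := by
        rw [hq, h1]
        simp only [cub']
        ring
      rw [e, h3]
      exact ⟨1, (mul_one 1).symm⟩
    · rcases hXθ.lt_or_eq with h3 | h3
      · have h5 := congrArg wE hfac
        rw [map_pow, map_mul, key h3, mul_one] at h5
        exact ⟨wE (j y), by rw [← h5, pow_two]⟩
      · rw [h3]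
        exact ⟨1, (mul_one 1).symm⟩
  · -- points which are not integral
    have hX0 : wE X ≠ 0 := fun h => by rw [h] at hX1; exact absurd hX1 (by simp)
    have hne : X ≠ θ := by
      intro h
      rw [h] at hX1
      exact absurd hθ1 (not_le.2 hX1)
    obtain ⟨-, rfl⟩ := hD.resolve_left fun h => hne h.1
    have e1 : wE (X - θ) = wE X :=
      Valuation.map_sub_eq_of_lt_left wE (lt_of_le_of_lt hθ1 hX1)
    have e3 : wE q = wE X ^ 2 := by
      have h1 : wE ((algebraMap K E W.a₂ + θ) * X + (θ ^ 2 + algebraMap K E W.a₂ * θ +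
          algebraMap K E W.a₄)) < wE (X ^ 2) := by
        rw [map_pow]
        refine lt_of_le_of_lt (Valuation.map_add _ _ _) (max_lt ?_ ?_)
        · rw [map_mul, pow_two]
          refine lt_of_le_of_lt (mul_le_mul_left hp1 (wE X)) ?_
          rw [one_mul]
          exact lt_mul_of_one_lt_left (zero_lt_iff.2 hX0) hX1
        · refine lt_of_le_of_lt hp2 ?_
          rw [pow_two]
          exact lt_of_lt_of_le hX1 (le_mul_of_one_le_left' hX1.le)
      rw [hq, add_assoc, Valuation.map_add_eq_of_lt_left wE h1, map_pow]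
    have h5 := congrArg wE hfac
    rw [map_pow, map_mul, e1, e3] at h5
    rw [e1]
    refine ⟨wE (j y) / wE X, ?_⟩
    field_simp
    rw [h5]
    exact pow_succ' _ 2

end parity

section par

variable {k k' K F M B : Type} [Field k] [Field k'] [Algebra k k'] [Field K] [Algebra k[X] K]
  [Field F] [Algebra k'[X] F] [IsFractionRing k'[X] F] [Algebra K F]
  [Field M] [Algebra F M] [Algebra K M] [IsScalarTower K F M] [Algebra M (Sep F)]
  [IsScalarTower F M (Sep F)]
  [CommRing B] [IsDedekindDomain B] [Algebra B M] [IsFractionRing B M] [Algebra k'[X] B]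
  [Algebra.IsIntegral k'[X] B] [Algebra k'[X] M] [IsScalarTower k'[X] F M]
  [IsScalarTower k'[X] B M] [Module.IsTorsionFree k'[X] B]

omit [Algebra K M] [IsScalarTower K F M] [Algebra M (Sep F)]
  [IsScalarTower F M (Sep F)] [Algebra k'[X] M] [IsScalarTower k'[X] F M]
  [IsScalarTower k'[X] B M] in
/-- The curve `x ^ 3 + a2 x ^ 2 + a4 x + a6 = 0` is smooth at the point `𝔓`. -/
def LocSmP (W : WeierstrassCurve K) (𝔓 : HeightOneSpectrum B) (θ : M) : Prop :=
  ∀ (x : Comp k'[X] F (𝔓.under k'[X]))
    (vL : Valuation (Comp k'[X] F (𝔓.under k'[X])) (WithZero (Multiplicative ℤ)))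
    (wE : Valuation (Comp B M 𝔓) (WithZero (Multiplicative ℤ)))
    (j : Comp k'[X] F (𝔓.under k'[X]) →+* Comp B M 𝔓),
    vL = (Valued.v : Valuation ((𝔓.under k'[X]).adicCompletion F) (WithZero (Multiplicative ℤ))) →
    wE = (Valued.v : Valuation (𝔓.adicCompletion M) (WithZero (Multiplicative ℤ))) →
    (∀ x : F, j (algebraMap F _ x) = algebraMap F _ x) → (∀ y, vL y ≤ 1 → wE (j y) ≤ 1) →
    (∀ y, vL y < 1 → wE (j y) < 1) →
    vL x ≤ 1 → wE (j x - algebraMap M _ θ) < 1 → vL (cub W x) < 1 → vL (cub' W x) < 1 →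
      vL (cub W x) = exp (-1 : ℤ)

/-- The valuations of the generator are even. -/
theorem parMP (hKF : ∀ p : k[X], algebraMap K F (algebraMap k[X] K p) =
      algebraMap k'[X] F (p.map (algebraMap k k'))) {a2 a4 a6 : k[X]}
    {a b c : Sep F} {θ z : M} (hθ : algebraMap M (Sep F) θ = a)
    (hC : IsC ((crvC (algebraMap k[X] K a2) (algebraMap k[X] K a4)
      (algebraMap k[X] K a6)).baseChange (Sep F)).toAffine a b c)
    {f : (Sep F ≃ₐ[F] Sep F) → Pt (crvC (algebraMap k[X] K a2) (algebraMap k[X] K a4)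
      (algebraMap k[X] K a6)) (Sep F)} (hf : IsCoc _ f) (hf2 : ∀ σ, f σ + f σ = 0)
    (hloc : LocallyTrivial k' _ f) {t : Sep F} (ht : t ≠ 0)
    (hz : t ^ 2 = algebraMap M (Sep F) z) (hk : ∀ σ : Sep F ≃ₐ[F] Sep F, σ a = a →
      σ t = sC a (f σ) * t) (𝔓 : HeightOneSpectrum B)
    (hsm : LocSmP (k' := k') (F := F) (crvC (algebraMap k[X] K a2) (algebraMap k[X] K a4)
      (algebraMap k[X] K a6)) 𝔓 θ) : IsSquare (𝔓.valuation M z) := by
  set W := crvC (algebraMap k[X] K a2) (algebraMap k[X] K a4) (algebraMap k[X] K a6) with hW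
  let v : HeightOneSpectrum k'[X] := 𝔓.under k'[X]
  haveI hlo : 𝔓.asIdeal.LiesOver v.asIdeal := ⟨rfl⟩
  have hval : ∀ x : F, v.valuation F x ^ v.asIdeal.ramificationIdx' 𝔓.asIdeal =
      𝔓.valuation M (algebraMap F M x) := fun x =>
    HeightOneSpectrum.valuation_liesOver (A := k'[X]) M v 𝔓 x
  have he : v.asIdeal.ramificationIdx' 𝔓.asIdeal ≠ 0 :=
    Ideal.IsDedekindDomain.ramificationIdx'_ne_zero_of_liesOver 𝔓.asIdeal v.ne_bot
  obtain ⟨j, hj1, hj2, hj3⟩ := exists_compl_map v 𝔓 (algebraMap F M)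
    (fun x hx => by rw [← hval]; exact pow_le_one₀ zero_le hx)
    (fun x hx => by rw [← hval]; exact pow_lt_one₀ zero_le hx he)
  let L := Comp k'[X] F v
  let E := Comp B M 𝔓
  haveI : IsScalarTower K F E := IsScalarTower.of_algebraMap_eq fun x => by
    show algebraMap M E (algebraMap K M x) = algebraMap M E (algebraMap F M (algebraMap K F x))
    rw [← IsScalarTower.algebraMap_apply K F M]
  let j' : L →+* E := j
  have hj' : ∀ x : F, j' (algebraMap F L x) = algebraMap F E x := fun x => hj1 x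
  have hjK : ∀ x : K, j' (algebraMap K L x) = algebraMap K E x := fun x => by
    rw [IsScalarTower.algebraMap_apply K F L, hj', ← IsScalarTower.algebraMap_apply K F E]
  obtain ⟨g, D, hg, hzD, hD⟩ := locC (K := K) (F := F) (Ω := Sep F) (L := L) (Ω' := Sep L) (E := E)
    (M := M) W (Sep E) hC hθ j' hj' hf hf2 (hloc.1 v) ht hz hk
  let wE : Valuation E (WithZero (Multiplicative ℤ)) :=
    (Valued.v : Valuation (𝔓.adicCompletion M) (WithZero (Multiplicative ℤ)))
  let vL : Valuation L (WithZero (Multiplicative ℤ)) :=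
    (Valued.v : Valuation (v.adicCompletion F) (WithZero (Multiplicative ℤ)))
  have wz : ∀ x : M, wE (algebraMap M E x) = 𝔓.valuation M x := fun x =>
    HeightOneSpectrum.valuedAdicCompletion_eq_valuation' 𝔓 x
  have vz : ∀ x : F, vL (algebraMap F L x) = v.valuation F x := fun x =>
    HeightOneSpectrum.valuedAdicCompletion_eq_valuation' v x
  rw [← wz]
  refine isSquare_mul_sq wE hzD ?_
  rcases hD with rfl | ⟨x, y, hxy, hcase⟩
  · rw [map_one]; exact ⟨1, (mul_one 1).symm⟩
  -- the integrality of `θ`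
  have hcubM : cub W θ = 0 := by
    apply (algebraMap M (Sep F)).injective
    rw [map_zero]
    have h1 : cub W (algebraMap M (Sep F) θ) = algebraMap M (Sep F) (cub W θ) := by
      simp only [cub, map_add, map_mul, map_pow]
      have e : ∀ x : K, algebraMap M (Sep F) (algebraMap K M x) = algebraMap K (Sep F) x := by
        intro x
        rw [IsScalarTower.algebraMap_apply K F M, ← IsScalarTower.algebraMap_apply F M (Sep F),
          ← IsScalarTower.algebraMap_apply K F (Sep F)]
      rw [e, e, e]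
    rw [← h1, hθ]
    exact hC.root_a
  have hcubE : cub W (algebraMap M E θ) = 0 := by
    have h1 : cub W (algebraMap M E θ) = algebraMap M E (cub W θ) := by
      simp only [cub, map_add, map_mul, map_pow]
      rfl
    rw [h1, hcubM, map_zero]
  have eKM : ∀ p : k[X], algebraMap K M (algebraMap k[X] K p) =
      algebraMap B M (algebraMap k'[X] B (p.map (algebraMap k k'))) := fun p => by
    rw [IsScalarTower.algebraMap_apply K F M, hKF, ← IsScalarTower.algebraMap_apply k'[X] F M,
      IsScalarTower.algebraMap_apply k'[X] B M]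
  have v1 : ∀ p : k[X], 𝔓.valuation M (algebraMap K M (algebraMap k[X] K p)) ≤ 1 := fun p => by
    rw [eKM]; exact 𝔓.valuation_le_one _
  have hθ1 : wE (algebraMap M E θ) ≤ 1 := by
    rw [wz]
    by_contra h1
    rw [not_le] at h1
    have h0 : 𝔓.valuation M θ ≠ 0 := fun h => by rw [h] at h1; exact absurd h1 (by simp)
    have e : θ ^ 3 = -(algebraMap K M W.a₂ * θ ^ 2 + algebraMap K M W.a₄ * θ +
        algebraMap K M W.a₆) := by
      have : θ ^ 3 + algebraMap K M W.a₂ * θ ^ 2 + algebraMap K M W.a₄ * θ +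
        algebraMap K M W.a₆ = 0 := hcubM
      linear_combination this
    have h3 := congrArg (𝔓.valuation M) e
    rw [Valuation.map_neg, map_pow] at h3
    set s := 𝔓.valuation M θ with hs
    have h4 : 𝔓.valuation M (algebraMap K M W.a₂ * θ ^ 2 + algebraMap K M W.a₄ * θ +
        algebraMap K M W.a₆) ≤ s ^ 2 := by
      refine (Valuation.map_add _ _ _).trans (max_le ((Valuation.map_add _ _ _).trans
        (max_le ?_ ?_)) ?_)
      · rw [map_mul, map_pow]
        calc _ ≤ 1 * s ^ 2 := mul_le_mul_left (v1 a2) _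
          _ = s ^ 2 := one_mul _
      · rw [map_mul]
        calc _ ≤ 1 * s := mul_le_mul_left (v1 a4) _
          _ = s := one_mul _
          _ ≤ s ^ 2 := by rw [pow_two]; exact le_mul_of_one_le_left' h1.le
      · refine (v1 a6).trans ?_
        exact one_le_pow₀ h1.le
    rw [← h3] at h4
    have h5 : s ^ 2 < s ^ 3 := by
      rw [pow_succ s 2]
      exact lt_mul_of_one_lt_right (pow_pos (zero_lt_iff.2 h0) 2) h1
    exact absurd h4 (not_le.2 h5)
  have vi1 : ∀ p : k[X], vL (algebraMap K L (algebraMap k[X] K p)) ≤ 1 := fun p => by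
    rw [IsScalarTower.algebraMap_apply K F L, hKF, vz]
    exact v.valuation_le_one _
  exact parCP (K := K) W vL wE j' hjK hj2 hj3 (vi1 a2) (vi1 a4)
    (fun x h1 h0 h3 h4 => hsm x vL wE j' rfl rfl hj' hj2 hj3 h1 h0 h3 h4) hcubE hθ1 hxy hcase

end par

end Pool.Agent.TH115.GD
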