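import Pool.Agent.TH115.TC.LocC
import Pool.Agent.TH115.TC.Compl

/-!
Parity of the valuations of the Kummer generator over the cubic field.
-/

set_option autoImplicit false
set_option linter.all false

open Polynomial IsDedekindDomain WeierstrassCurve WeierstrassCurve.Affine WithZero
open scoped Classical

namespace Pool.Agent.TH115.GD

section parity

variable {K L E : Type*} [Field K] [Field L] [Field E] [Algebra K L] [Algebra K E]
  (W : WeierstrassCurve K) (vL : Valuation L (WithZero (Multiplicative ℤ)))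
  (wE : Valuation E (WithZero (Multiplicative ℤ))) (j : L →+* E)
  (hjK : ∀ x : K, j (algebraMap K L x) = algebraMap K E x)
  (hle : ∀ y, vL y ≤ 1 → wE (j y) ≤ 1) (hlt : ∀ y, vL y < 1 → wE (j y) < 1)

include hlt in
theorem le_of_j {y : L} (h : wE (j y) ≤ 1) : vL y ≤ 1 := by
  by_contra h1
  rw [not_le] at h1
  have hy : vL y ≠ 0 := fun h0 => by rw [h0] at h1; exact absurd h1 (by simp)
  have h3 : vL y⁻¹ < 1 := by
    rw [map_inv₀]
    exact inv_lt_one_of_one_lt₀ h1
  have h4 := hlt _ h3
  rw [map_inv₀, map_inv₀] at h4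
  have hy' : wE (j y) ≠ 0 := by
    rw [Valuation.ne_zero_iff, _root_.map_ne_zero]
    exact (Valuation.ne_zero_iff _).1 hy
  have h5 : 1 < wE (j y) := (inv_lt_one₀ (zero_lt_iff.2 hy')).1 h4
  exact absurd h (not_le.2 h5)

include hle hlt in
theorem lt_of_j {y : L} (h : wE (j y) < 1) : vL y < 1 := by
  have h1 := le_of_j vL wE j hlt h.le
  rcases h1.lt_or_eq with h3 | h3
  · exact h3
  · exfalso
    have h4 : vL y⁻¹ ≤ 1 := by rw [map_inv₀, h3, inv_one]
    have h5 := hle _ h4
    rw [map_inv₀, map_inv₀] at h5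
    have hy' : wE (j y) ≠ 0 := by
      rw [Valuation.ne_zero_iff, _root_.map_ne_zero]
      intro h0
      rw [h0, map_zero] at h3
      exact zero_ne_one h3
    have h6 : 1 ≤ wE (j y) := (inv_le_one₀ (zero_lt_iff.2 hy')).1 h5
    exact absurd h (not_lt.2 h6)

include hjK in
theorem cub_j (x : L) : cub W (j x) = j (cub W x) := by
  simp only [cub, map_add, map_mul, map_pow, hjK]

include hjK in
theorem cub'_j (x : L) : cub' W (j x) = j (cub' W x) := by
  simp only [cub', map_add, map_mul, map_pow, hjK, map_ofNat]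

theorem not_sq_exp {Γ : WithZero (Multiplicative ℤ)} (h : Γ * Γ = exp (-1 : ℤ)) : False := by
  have h0 : Γ ≠ 0 := by
    rintro rfl
    rw [mul_zero] at h
    exact exp_ne_zero h.symm
  have h1 : exp (log Γ) = Γ := exp_log h0
  rw [← h1, ← exp_add, exp_inj] at h
  omega

include hjK hle hlt in
/-- The parity. -/
theorem parC (h2 : vL (algebraMap K L W.a₂) ≤ 1) (h4 : vL (algebraMap K L W.a₄) ≤ 1)
    (hsm : ∀ x : L, vL x ≤ 1 → vL (cub W x) < 1 → vL (cub' W x) < 1 →
      vL (cub W x) = exp (-1 : ℤ)) {θ : E} (hθ : cub W θ = 0) (hθ1 : wE θ ≤ 1) {x y : L}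
    (hxy : y ^ 2 = cub W x) {D : E}
    (hD : (j x = θ ∧ D = cub' W θ) ∨ (j x ≠ θ ∧ D = j x - θ)) : IsSquare (wE D) := by
  have w2 : wE (algebraMap K E W.a₂) ≤ 1 := by rw [← hjK]; exact hle _ h2
  have w4 : wE (algebraMap K E W.a₄) ≤ 1 := by rw [← hjK]; exact hle _ h4
  have wn : ∀ n : ℕ, wE (n : E) ≤ 1 := fun n => by
    induction n with
    | zero => rw [Nat.cast_zero, map_zero]; exact zero_le
    | succ n ih =>
      rw [Nat.cast_succ]
      exact (Valuation.map_add _ _ _).trans (max_le ih (by rw [map_one]))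
  set X := j x with hX
  set q := X ^ 2 + (algebraMap K E W.a₂ + θ) * X + (θ ^ 2 + algebraMap K E W.a₂ * θ +
    algebraMap K E W.a₄) with hq
  have hfac : (j y) ^ 2 = (X - θ) * q := by
    rw [← map_pow, hxy, ← cub_j W j hjK]
    have hθ' : θ ^ 3 + algebraMap K E W.a₂ * θ ^ 2 + algebraMap K E W.a₄ * θ +
      algebraMap K E W.a₆ = 0 := hθ
    simp only [cub, hq]
    linear_combination hθ'
  have hp1 : wE (algebraMap K E W.a₂ + θ) ≤ 1 := (Valuation.map_add _ _ _).trans (max_le w2 hθ1)
  have hθ2 : wE (θ ^ 2) ≤ 1 := by rw [map_pow]; exact pow_le_one₀ zero_le hθ1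
  have hp2 : wE (θ ^ 2 + algebraMap K E W.a₂ * θ + algebraMap K E W.a₄) ≤ 1 := by
    refine (Valuation.map_add _ _ _).trans (max_le ((Valuation.map_add _ _ _).trans
      (max_le hθ2 ?_)) w4)
    rw [map_mul]
    exact mul_le_one' w2 hθ1
  rcases le_or_gt (wE X) 1 with hX1 | hX1
  · -- integral points
    have hx1 : vL x ≤ 1 := le_of_j vL wE j hlt hX1
    have hq1 : wE q ≤ 1 := by
      refine (Valuation.map_add _ _ _).trans (max_le ((Valuation.map_add _ _ _).trans
        (max_le ?_ ?_)) hp2)
      · rw [map_pow]; exact pow_le_one₀ zero_le hX1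
      · rw [map_mul]; exact mul_le_one' hp1 hX1
    have hXθ : wE (X - θ) ≤ 1 := (Valuation.map_sub _ _ _).trans (max_le hX1 hθ1)
    have key : wE (X - θ) < 1 → wE q = 1 := by
      intro h1
      by_contra h3
      have h3 : wE q < 1 := lt_of_le_of_ne hq1 h3
      have h5 : vL (cub W x) < 1 := by
        apply lt_of_j vL wE j hle hlt
        rw [← hxy, map_pow, hfac, map_mul]
        exact lt_of_le_of_lt (mul_le_of_le_one_right' hq1) h1
      have h6 : vL (cub' W x) < 1 := by
        apply lt_of_j vL wE j hle hlt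
        rw [← cub'_j W j hjK]
        have e : cub' W X = q + (X - θ) * (2 * X + algebraMap K E W.a₂ + θ) := by
          simp only [cub', hq]
          ring
        rw [← hX, e]
        refine lt_of_le_of_lt (Valuation.map_add _ _ _) (max_lt h3 ?_)
        rw [map_mul]
        refine lt_of_le_of_lt (mul_le_of_le_one_right' ?_) h1
        refine (Valuation.map_add _ _ _).trans (max_le ((Valuation.map_add _ _ _).trans
          (max_le ?_ w2)) hθ1)
        rw [map_mul]
        exact mul_le_one' (by exact_mod_cast wn 2) hX1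
      have h7 := hsm x hx1 h5 h6
      rw [← hxy, map_pow, pow_two] at h7
      exact not_sq_exp h7
    rcases hD with ⟨h1, rfl⟩ | ⟨h1, rfl⟩
    · have h3 := key (by rw [h1, sub_self, map_zero]; exact zero_lt_one)
      have e : cub' W θ = q := by
        rw [hq, h1]
        simp only [cub']
        ring
      rw [e, h3]
      exact ⟨1, (mul_one 1).symm⟩
    · rcases hXθ.lt_or_eq with h3 | h3
      · have h5 := congrArg wE hfac
        rw [map_pow, map_mul, key h3, mul_one] at h5
        exact ⟨wE (j y), by rw [← h5, pow_two]⟩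
      · rw [h3]
        exact ⟨1, (mul_one 1).symm⟩
  · -- points which are not integral
    have hX0 : wE X ≠ 0 := fun h => by rw [h] at hX1; exact absurd hX1 (by simp)
    have hne : X ≠ θ := by
      intro h
      rw [h] at hX1
      exact absurd hθ1 (not_le.2 hX1)
    obtain ⟨-, rfl⟩ := hD.resolve_left fun h => hne h.1
    have e1 : wE (X - θ) = wE X :=
      Valuation.map_sub_eq_of_lt_left wE (lt_of_le_of_lt hθ1 hX1)
    have e3 : wE q = wE X ^ 2 := by
      have h1 : wE ((algebraMap K E W.a₂ + θ) * X + (θ ^ 2 + algebraMap K E W.a₂ * θ +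
          algebraMap K E W.a₄)) < wE (X ^ 2) := by
        rw [map_pow]
        refine lt_of_le_of_lt (Valuation.map_add _ _ _) (max_lt ?_ ?_)
        · rw [map_mul, pow_two]
          refine lt_of_le_of_lt (mul_le_mul_left hp1 (wE X)) ?_
          rw [one_mul]
          exact lt_mul_of_one_lt_left (zero_lt_iff.2 hX0) hX1
        · refine lt_of_le_of_lt hp2 ?_
          rw [pow_two]
          exact lt_of_lt_of_le hX1 (le_mul_of_one_le_left' hX1.le)
      rw [hq, add_assoc, Valuation.map_add_eq_of_lt_left wE h1, map_pow]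
    have h5 := congrArg wE hfac
    rw [map_pow, map_mul, e1, e3] at h5
    rw [e1]
    refine ⟨wE (j y) / wE X, ?_⟩
    field_simp
    rw [h5]
    exact pow_succ' _ 2

end parity

section smooth

variable {k k' : Type*} [Field k] [Field k'] [Algebra k k'] {a2 a4 a6 : k[X]}

/-- The affine curve `x ^ 3 + a2 x ^ 2 + a4 x + a6 = 0` is smooth (Jacobian criterion). -/
def SmoothC (a2 a4 a6 : k[X]) : Prop :=
  ∃ U V T : k[X][X], U * (X ^ 3 + C a2 * X ^ 2 + C a4 * X + C a6) +
    V * (3 * X ^ 2 + 2 * C a2 * X + C a4) +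
    T * (C (derivative a2) * X ^ 2 + C (derivative a4) * X + C (derivative a6)) = 1

theorem deriv_sq {I : Ideal k'[X]} {p : k'[X]} (h : p ∈ I ^ 2) : derivative p ∈ I := by
  rw [pow_two] at h
  refine Submodule.mul_induction_on h ?_ ?_
  · intro m hm n hn
    rw [derivative_mul]
    exact I.add_mem (I.mul_mem_left _ hn) (I.mul_mem_right _ hm)
  · intro x y hx hy
    rw [derivative_add]
    exact I.add_mem hx hy

/-- Smoothness at the level of polynomials. -/
theorem smooth_poly (h : SmoothC a2 a4 a6) {I : Ideal k'[X]} (hI : I ≠ ⊤) {p : k'[X]}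
    (h1 : p ^ 3 + a2.map (algebraMap k k') * p ^ 2 + a4.map (algebraMap k k') * p +
      a6.map (algebraMap k k') ∈ I ^ 2)
    (h3 : 3 * p ^ 2 + 2 * a2.map (algebraMap k k') * p + a4.map (algebraMap k k') ∈ I) :
    False := by
  obtain ⟨U, V, T, e⟩ := h
  let ψ : k[X][X] →+* k'[X] := eval₂RingHom (mapRingHom (algebraMap k k')) p
  have hX : ψ X = p := eval₂_X _ _
  have hC : ∀ q : k[X], ψ (C q) = q.map (algebraMap k k') := fun q => eval₂_C _ _
  have e' := congrArg ψ e
  simp only [map_add, map_mul, map_pow, hX, hC, map_one, map_ofNat] at e'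
  have hle : I ^ 2 ≤ I := Ideal.pow_le_self two_ne_zero
  have h1' := hle h1
  have hd := deriv_sq h1
  have ed : derivative (p ^ 3 + a2.map (algebraMap k k') * p ^ 2 + a4.map (algebraMap k k') * p +
      a6.map (algebraMap k k')) =
      ((derivative a2).map (algebraMap k k') * p ^ 2 + (derivative a4).map (algebraMap k k') * p +
        (derivative a6).map (algebraMap k k')) +
      (3 * p ^ 2 + 2 * a2.map (algebraMap k k') * p + a4.map (algebraMap k k')) *
        derivative p := by
    simp only [derivative_add, derivative_mul, derivative_pow, derivative_map]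
    push_cast
    simp only [map_ofNat, C_ofNat]
    ring
  rw [ed] at hd
  have h5 : (derivative a2).map (algebraMap k k') * p ^ 2 +
      (derivative a4).map (algebraMap k k') * p + (derivative a6).map (algebraMap k k') ∈ I := by
    have := I.sub_mem hd (I.mul_mem_right (derivative p) h3)
    rwa [add_sub_cancel_right] at this
  apply hI
  rw [Ideal.eq_top_iff_one, ← e']
  exact I.add_mem (I.add_mem (I.mul_mem_left _ h1') (I.mul_mem_left _ h3)) (I.mul_mem_left _ h5)

end smooth

end Pool.Agent.TH115.GD
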