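import Pool.Agent.TH115.TC.ClMain

/-!
Parity of the valuations for quadratic twists: all primes over a prime which divides the twist.
-/

set_option autoImplicit false
set_option linter.all false

open Polynomial IsDedekindDomain WeierstrassCurve WeierstrassCurve.Affine WithZero
open scoped Classical

namespace Pool.Agent.TH115.GD

section parity

variable {K L E : Type} [Field K] [Field L] [Field E] [Algebra K L] [Algebra K E]
  (wE : Valuation E (WithZero (Multiplicative ℤ))) (j : L →+* E)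

theorem not_sq_one : ¬ IsSquare (exp (-1 : ℤ) : WithZero (Multiplicative ℤ)) := by
  rw [isSquare_exp]
  decide

theorem parTwOdd {W : WeierstrassCurve K} {δ θ : E} (hd : wE δ = exp (-1 : ℤ)) {x : L}
    (hx : wE (j x / δ - θ) = 1) {D : E}
    (hD : (j x = δ * θ ∧ D = cub' W (δ * θ)) ∨ (j x ≠ δ * θ ∧ D = j x - δ * θ)) :
    ¬ IsSquare (wE D) := by
  have hδ0 : δ ≠ 0 := by
    intro h0
    rw [h0, map_zero] at hd
    exact exp_ne_zero hd.symm
  rcases hD with ⟨h1, -⟩ | ⟨h1, rfl⟩
  · exfalso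
    rw [h1, mul_div_cancel_left₀ _ hδ0, sub_self, map_zero] at hx
    exact zero_ne_one hx
  · have e1 : j x - δ * θ = δ * (j x / δ - θ) := by
      rw [mul_sub, mul_div_cancel₀ _ hδ0]
    rw [e1, map_mul, hd, hx, mul_one]
    exact not_sq_one

end parity

section parD

variable {k k' K F M B : Type} [Field k] [Field k'] [Algebra k k'] [Field K] [Algebra k[X] K]
  [Field F] [Algebra k'[X] F] [IsFractionRing k'[X] F] [Algebra K F]
  [Field M] [Algebra F M] [Algebra K M] [IsScalarTower K F M] [Algebra M (Sep F)]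
  [IsScalarTower F M (Sep F)]
  [CommRing B] [IsDedekindDomain B] [Algebra B M] [IsFractionRing B M] [Algebra k'[X] B]
  [Algebra.IsIntegral k'[X] B] [Algebra k'[X] M] [IsScalarTower k'[X] F M]
  [IsScalarTower k'[X] B M] [Module.IsTorsionFree k'[X] B]

/-- The parities at the primes over a prime which divides the twist. -/
theorem parD2 (hKF : ∀ p : k[X], algebraMap K F (algebraMap k[X] K p) =
      algebraMap k'[X] F (p.map (algebraMap k k'))) {a2 a4 a6 D : k[X]}
    {a b c : Sep F} {θ z : M} {θB : B} (hθB : algebraMap B M θB = θ)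
    (hθ : algebraMap M (Sep F) (algebraMap K M (algebraMap k[X] K D) * θ) = a)
    (hC : IsC ((crvC (algebraMap k[X] K (D * a2)) (algebraMap k[X] K (D ^ 2 * a4))
      (algebraMap k[X] K (D ^ 3 * a6))).baseChange (Sep F)).toAffine a b c)
    (hnr : ∀ x : F, cub (crvC (algebraMap k[X] K (D * a2)) (algebraMap k[X] K (D ^ 2 * a4))
      (algebraMap k[X] K (D ^ 3 * a6))) x ≠ 0)
    (hθ0 : cub (crvC (algebraMap k[X] K a2) (algebraMap k[X] K a4) (algebraMap k[X] K a6)) θ = 0)
    {f : (Sep F ≃ₐ[F] Sep F) → Pt (crvC (algebraMap k[X] K (D * a2))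
      (algebraMap k[X] K (D ^ 2 * a4)) (algebraMap k[X] K (D ^ 3 * a6))) (Sep F)}
    (hf : IsCoc _ f) (hf2 : ∀ σ, f σ + f σ = 0)
    (hloc : LocallyTrivial k' _ f) {t : Sep F} (ht : t ≠ 0)
    (hz : t ^ 2 = algebraMap M (Sep F) z) (hk : ∀ σ : Sep F ≃ₐ[F] Sep F, σ a = a →
      σ t = sC a (f σ) * t) (v : HeightOneSpectrum k'[X])
    (hD : ∀ 𝔓 : HeightOneSpectrum B, 𝔓.under k'[X] = v →
      𝔓.valuation M (algebraMap K M (algebraMap k[X] K D)) = exp (-1 : ℤ) ∧
      𝔓.valuation M (cub' (crvC (algebraMap k[X] K a2) (algebraMap k[X] K a4)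
        (algebraMap k[X] K a6)) θ) = 1) :
    (∀ 𝔓 : HeightOneSpectrum B, 𝔓.under k'[X] = v → IsSquare (𝔓.valuation M z)) ∨
      ∃ p : k'[X], p ^ 3 + a2.map (algebraMap k k') * p ^ 2 + a4.map (algebraMap k k') * p +
        a6.map (algebraMap k k') ∈ v.asIdeal ∧ ∀ 𝔓 : HeightOneSpectrum B, 𝔓.under k'[X] = v →
        (θB - algebraMap k'[X] B p ∈ 𝔓.asIdeal → IsSquare (𝔓.valuation M z)) ∧
        (θB - algebraMap k'[X] B p ∉ 𝔓.asIdeal → ¬ IsSquare (𝔓.valuation M z)) := by
  set W := crvC (algebraMap k[X] K (D * a2)) (algebraMap k[X] K (D ^ 2 * a4))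
      (algebraMap k[X] K (D ^ 3 * a6)) with hW
  set W1 := crvC (algebraMap k[X] K a2) (algebraMap k[X] K a4) (algebraMap k[X] K a6) with hW1
  have eW : W = crvC (algebraMap k[X] K D * algebraMap k[X] K a2)
      (algebraMap k[X] K D ^ 2 * algebraMap k[X] K a4)
      (algebraMap k[X] K D ^ 3 * algebraMap k[X] K a6) := by
    rw [hW, map_mul, map_mul, map_mul, map_pow, map_pow]
  obtain ⟨ι, P0, Q, hPt⟩ := exists_locPt (L := Comp k'[X] F v) (Ω' := Sep (Comp k'[X] F v)) W hf hf2
    (hloc.1 v)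
  let vL : Valuation (Comp k'[X] F v) (WithZero (Multiplicative ℤ)) :=
    (Valued.v : Valuation (v.adicCompletion F) (WithZero (Multiplicative ℤ)))
  set dL : Comp k'[X] F v := algebraMap K (Comp k'[X] F v) (algebraMap k[X] K D) with hdL
  -- the analysis at a prime
  have main : ∀ 𝔓 : HeightOneSpectrum B, 𝔓.under k'[X] = v →
      (∀ (x y : Comp k'[X] F v) (h : (W.baseChange (Comp k'[X] F v)).toAffine.Nonsingular x y),
        Q = Point.some x y h → vL (x / dL) ≤ 1 → vL (cub W1 (x / dL)) < 1 →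
        ∃ p : k'[X], vL (x / dL - algebraMap F (Comp k'[X] F v)
          (algebraMap k'[X] F p)) < 1 ∧ θB - algebraMap k'[X] B p ∈ 𝔓.asIdeal) →
      IsSquare (𝔓.valuation M z) := by
    rintro 𝔓 rfl hcond
    obtain ⟨hD1, hD2⟩ := hD 𝔓 rfl
    haveI hlo : 𝔓.asIdeal.LiesOver (𝔓.under k'[X]).asIdeal := ⟨rfl⟩
    have hval : ∀ x : F, (𝔓.under k'[X]).valuation F x ^
        (𝔓.under k'[X]).asIdeal.ramificationIdx' 𝔓.asIdeal =
        𝔓.valuation M (algebraMap F M x) := fun x =>
      HeightOneSpectrum.valuation_liesOver (A := k'[X]) M (𝔓.under k'[X]) 𝔓 x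
    have he : (𝔓.under k'[X]).asIdeal.ramificationIdx' 𝔓.asIdeal ≠ 0 :=
      Ideal.IsDedekindDomain.ramificationIdx'_ne_zero_of_liesOver 𝔓.asIdeal (𝔓.under k'[X]).ne_bot
    obtain ⟨j, hj1, hj2, hj3⟩ := exists_compl_map (𝔓.under k'[X]) 𝔓 (algebraMap F M)
      (fun x hx => by rw [← hval]; exact pow_le_one₀ zero_le hx)
      (fun x hx => by rw [← hval]; exact pow_lt_one₀ zero_le hx he)
    haveI : IsScalarTower K F (Comp B M 𝔓) := IsScalarTower.of_algebraMap_eq fun x => by
      show algebraMap M (Comp B M 𝔓) (algebraMap K M x) =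
        algebraMap M (Comp B M 𝔓) (algebraMap F M (algebraMap K F x))
      rw [← IsScalarTower.algebraMap_apply K F M]
    let j' : Comp k'[X] F (𝔓.under k'[X]) →+* Comp B M 𝔓 := j
    have hj' : ∀ x : F, j' (algebraMap F (Comp k'[X] F (𝔓.under k'[X])) x) =
        algebraMap F (Comp B M 𝔓) x := fun x => hj1 x
    have hjK : ∀ x : K, j' (algebraMap K (Comp k'[X] F (𝔓.under k'[X])) x) =
        algebraMap K (Comp B M 𝔓) x := fun x => by
      rw [IsScalarTower.algebraMap_apply K F (Comp k'[X] F (𝔓.under k'[X])), hj',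
        ← IsScalarTower.algebraMap_apply K F (Comp B M 𝔓)]
    obtain ⟨g, D0, hg, hzD, hcase⟩ := locQ (K := K) (F := F) (Ω := Sep F)
      (L := Comp k'[X] F (𝔓.under k'[X])) (Ω' := Sep (Comp k'[X] F (𝔓.under k'[X])))
      (E := Comp B M 𝔓) (M := M) W (Sep (Comp B M 𝔓)) hC hθ j' hj' hf hf2 hPt ht hz hk
    let wE : Valuation (Comp B M 𝔓) (WithZero (Multiplicative ℤ)) :=
      (Valued.v : Valuation (𝔓.adicCompletion M) (WithZero (Multiplicative ℤ)))
    have wz : ∀ x : M, wE (algebraMap M (Comp B M 𝔓) x) = 𝔓.valuation M x := fun x =>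
      HeightOneSpectrum.valuedAdicCompletion_eq_valuation' 𝔓 x
    rw [← wz]
    refine isSquare_mul_sq wE hzD ?_
    rcases hcase with ⟨-, rfl⟩ | ⟨x, y, hns, hQ, hxy, hcase⟩
    · rw [map_one]; exact ⟨1, (mul_one 1).symm⟩
    have ed : algebraMap K (Comp B M 𝔓) (algebraMap k[X] K D) =
        algebraMap M (Comp B M 𝔓) (algebraMap K M (algebraMap k[X] K D)) := rfl
    have hwd : wE (algebraMap K (Comp B M 𝔓) (algebraMap k[X] K D)) = exp (-1 : ℤ) := by
      rw [ed, wz, hD1]
    have eθ : algebraMap M (Comp B M 𝔓) (algebraMap K M (algebraMap k[X] K D) * θ) =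
        algebraMap K (Comp B M 𝔓) (algebraMap k[X] K D) * algebraMap M (Comp B M 𝔓) θ := by
      rw [map_mul, ed]
    rw [eθ] at hcase
    have eKM : ∀ p : k[X], algebraMap K M (algebraMap k[X] K p) =
        algebraMap B M (algebraMap k'[X] B (p.map (algebraMap k k'))) := fun p => by
      rw [IsScalarTower.algebraMap_apply K F M, hKF, ← IsScalarTower.algebraMap_apply k'[X] F M,
        IsScalarTower.algebraMap_apply k'[X] B M]
    have v1 : ∀ p : k[X], wE (algebraMap K (Comp B M 𝔓) (algebraMap k[X] K p)) ≤ 1 := fun p => by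
      have e : algebraMap K (Comp B M 𝔓) (algebraMap k[X] K p) =
        algebraMap M (Comp B M 𝔓) (algebraMap K M (algebraMap k[X] K p)) := rfl
      rw [e, wz, eKM]; exact 𝔓.valuation_le_one _
    have hθ1 : wE (algebraMap M (Comp B M 𝔓) θ) ≤ 1 := by
      rw [wz, ← hθB]; exact 𝔓.valuation_le_one _
    have hcE : cub W1 (algebraMap M (Comp B M 𝔓) θ) = 0 := by
      have h1 : cub W1 (algebraMap M (Comp B M 𝔓) θ) = algebraMap M (Comp B M 𝔓) (cub W1 θ) := by
        simp only [cub, map_add, map_mul, map_pow]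
        rfl
      rw [h1, hθ0, map_zero]
    have hcE' : wE (cub' W1 (algebraMap M (Comp B M 𝔓) θ)) = 1 := by
      have h1 : cub' W1 (algebraMap M (Comp B M 𝔓) θ) =
          algebraMap M (Comp B M 𝔓) (cub' W1 θ) := by
        simp only [cub', map_add, map_mul, map_pow, map_ofNat]
        rfl
      rw [h1, wz, hD2]
    have hd0 : algebraMap K (Comp B M 𝔓) (algebraMap k[X] K D) ≠ 0 := by
      intro h0
      rw [h0, map_zero] at hwd
      exact exp_ne_zero hwd.symm
    have hdL0 : dL ≠ 0 := by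
      intro h0
      apply hd0
      rw [← hjK]
      show j' dL = 0
      rw [h0, map_zero]
    have exd : j' x / algebraMap K (Comp B M 𝔓) (algebraMap k[X] K D) = j' (x / dL) := by
      rw [map_div₀, hdL, hjK]
    rw [eW] at hxy hcase
    refine parTw wE j' hjK (v1 a2) (v1 a4) hwd hcE hθ1 hcE' hxy ?_ hcase
    intro hX1
    rw [exd] at hX1 ⊢
    have hx1 : vL (x / dL) ≤ 1 := le_of_j vL wE j' hj3 hX1
    have hcub : vL (cub W1 (x / dL)) < 1 := by
      have hle : vL (cub W1 (x / dL)) ≤ 1 := by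
        apply le_of_j vL wE j' hj3
        rw [← cub_j W1 j' hjK]
        have e : cub W1 (j' (x / dL)) = j' (x / dL) ^ 3 +
          algebraMap K (Comp B M 𝔓) (algebraMap k[X] K a2) * j' (x / dL) ^ 2 +
          algebraMap K (Comp B M 𝔓) (algebraMap k[X] K a4) * j' (x / dL) +
          algebraMap K (Comp B M 𝔓) (algebraMap k[X] K a6) := rfl
        rw [e]
        refine (Valuation.map_add _ _ _).trans (max_le ((Valuation.map_add _ _ _).trans
          (max_le ((Valuation.map_add _ _ _).trans (max_le ?_ ?_)) ?_)) (v1 a6))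
        · rw [map_pow]; exact pow_le_one₀ zero_le hX1
        · rw [map_mul, map_pow]; exact mul_le_one' (v1 a2) (pow_le_one₀ zero_le hX1)
        · rw [map_mul]; exact mul_le_one' (v1 a4) hX1
      rcases hle.lt_or_eq with h1 | h1
      · exact h1
      · exfalso
        have hw : wE (j' (cub W1 (x / dL))) = 1 := by
          refine le_antisymm (hj2 _ h1.le) ?_
          have h3 : vL (cub W1 (x / dL))⁻¹ ≤ 1 := by rw [map_inv₀, h1, _root_.inv_one]
          have h5 := hj2 _ h3
          have h5' : wE (j' (cub W1 (x / dL))⁻¹) ≤ 1 := h5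
          rw [map_inv₀, map_inv₀] at h5'
          have hne : wE (j' (cub W1 (x / dL))) ≠ 0 := by
            rw [Valuation.ne_zero_iff, _root_.map_ne_zero]
            intro h0
            rw [h0, map_zero] at h1
            exact zero_ne_one h1
          exact (inv_le_one₀ (zero_lt_iff.2 hne)).1 h5'
        have h3 : y ^ 2 = dL ^ 3 * cub W1 (x / dL) := by
          rw [hxy]
          have e := cub_tw (L := Comp k'[X] F (𝔓.under k'[X])) (algebraMap k[X] K a2)
            (algebraMap k[X] K a4) (algebraMap k[X] K a6) (algebraMap k[X] K D) (x / dL)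
          rw [← hdL, mul_div_cancel₀ x hdL0] at e
          exact e
        have h5 := congrArg (fun s => wE (j' s)) h3
        simp only [map_pow, map_mul] at h5
        rw [hw, mul_one, hdL, hjK, hwd] at h5
        have hy0 : wE (j' y) ≠ 0 := by
          intro h0
          rw [h0, zero_pow two_ne_zero] at h5
          exact pow_ne_zero 3 exp_ne_zero h5.symm
        rw [← exp_log hy0, ← exp_nsmul, ← exp_nsmul, exp_inj] at h5
        simp only [nsmul_eq_mul] at h5
        push_cast at h5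
        omega
    obtain ⟨p, hp1, hp2⟩ := hcond x y hns hQ hx1 hcub
    have e1 : j' (x / dL) - algebraMap M (Comp B M 𝔓) θ =
        j' (x / dL - algebraMap F (Comp k'[X] F (𝔓.under k'[X])) (algebraMap k'[X] F p)) -
        algebraMap M (Comp B M 𝔓) (algebraMap B M (θB - algebraMap k'[X] B p)) := by
      rw [map_sub j', hj', map_sub (algebraMap B M), map_sub (algebraMap M (Comp B M 𝔓)), hθB,
        ← IsScalarTower.algebraMap_apply k'[X] B M, IsScalarTower.algebraMap_apply k'[X] F M]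
      have e3 : algebraMap F (Comp B M 𝔓) (algebraMap k'[X] F p) =
          algebraMap M (Comp B M 𝔓) (algebraMap F M (algebraMap k'[X] F p)) := rfl
      rw [e3]
      ring
    rw [e1]
    refine lt_of_le_of_lt (Valuation.map_sub _ _ _) (max_lt ?_ ?_)
    · exact hj3 _ hp1
    · rw [wz, 𝔓.valuation_of_algebraMap, HeightOneSpectrum.intValuation_lt_one_iff_mem]
      exact hp2
  have main' : ∀ 𝔓 : HeightOneSpectrum B, 𝔓.under k'[X] = v →
      ∀ (x y : Comp k'[X] F v) (h : (W.baseChange (Comp k'[X] F v)).toAffine.Nonsingular x y),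
        Q = Point.some x y h → vL (x / dL) ≤ 1 →
        ∀ p : k'[X], vL (x / dL - algebraMap F (Comp k'[X] F v)
          (algebraMap k'[X] F p)) < 1 → θB - algebraMap k'[X] B p ∉ 𝔓.asIdeal →
      ¬ IsSquare (𝔓.valuation M z) := by
    rintro 𝔓 rfl x y hns hQ hx1 p hp1 hp2
    obtain ⟨hD1, hD2⟩ := hD 𝔓 rfl
    haveI hlo : 𝔓.asIdeal.LiesOver (𝔓.under k'[X]).asIdeal := ⟨rfl⟩
    have hval : ∀ x : F, (𝔓.under k'[X]).valuation F x ^
        (𝔓.under k'[X]).asIdeal.ramificationIdx' 𝔓.asIdeal =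
        𝔓.valuation M (algebraMap F M x) := fun x =>
      HeightOneSpectrum.valuation_liesOver (A := k'[X]) M (𝔓.under k'[X]) 𝔓 x
    have he : (𝔓.under k'[X]).asIdeal.ramificationIdx' 𝔓.asIdeal ≠ 0 :=
      Ideal.IsDedekindDomain.ramificationIdx'_ne_zero_of_liesOver 𝔓.asIdeal (𝔓.under k'[X]).ne_bot
    obtain ⟨j, hj1, hj2, hj3⟩ := exists_compl_map (𝔓.under k'[X]) 𝔓 (algebraMap F M)
      (fun x hx => by rw [← hval]; exact pow_le_one₀ zero_le hx)
      (fun x hx => by rw [← hval]; exact pow_lt_one₀ zero_le hx he)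
    haveI : IsScalarTower K F (Comp B M 𝔓) := IsScalarTower.of_algebraMap_eq fun x => by
      show algebraMap M (Comp B M 𝔓) (algebraMap K M x) =
        algebraMap M (Comp B M 𝔓) (algebraMap F M (algebraMap K F x))
      rw [← IsScalarTower.algebraMap_apply K F M]
    let j' : Comp k'[X] F (𝔓.under k'[X]) →+* Comp B M 𝔓 := j
    have hj' : ∀ x : F, j' (algebraMap F (Comp k'[X] F (𝔓.under k'[X])) x) =
        algebraMap F (Comp B M 𝔓) x := fun x => hj1 x
    have hjK : ∀ x : K, j' (algebraMap K (Comp k'[X] F (𝔓.under k'[X])) x) =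
        algebraMap K (Comp B M 𝔓) x := fun x => by
      rw [IsScalarTower.algebraMap_apply K F (Comp k'[X] F (𝔓.under k'[X])), hj',
        ← IsScalarTower.algebraMap_apply K F (Comp B M 𝔓)]
    obtain ⟨g, D0, hg, hzD, hcase⟩ := locQ (K := K) (F := F) (Ω := Sep F)
      (L := Comp k'[X] F (𝔓.under k'[X])) (Ω' := Sep (Comp k'[X] F (𝔓.under k'[X])))
      (E := Comp B M 𝔓) (M := M) W (Sep (Comp B M 𝔓)) hC hθ j' hj' hf hf2 hPt ht hz hk
    let wE : Valuation (Comp B M 𝔓) (WithZero (Multiplicative ℤ)) :=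
      (Valued.v : Valuation (𝔓.adicCompletion M) (WithZero (Multiplicative ℤ)))
    have wz : ∀ x : M, wE (algebraMap M (Comp B M 𝔓) x) = 𝔓.valuation M x := fun x =>
      HeightOneSpectrum.valuedAdicCompletion_eq_valuation' 𝔓 x
    have hg0 : wE g ≠ 0 := by
      rw [Valuation.ne_zero_iff]
      exact hg
    intro hsq
    rw [← wz] at hsq
    have hsq' : IsSquare (wE D0) := by
      have e5 : wE D0 = wE (algebraMap M (Comp B M 𝔓) z) * ((wE g)⁻¹ * (wE g)⁻¹) := by
        have e6 := congrArg wE hzD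
        rw [map_mul, map_pow] at e6
        rw [e6, pow_two, mul_comm (wE g * wE g), mul_assoc, mul_mul_mul_comm,
          mul_inv_cancel₀ hg0, one_mul, mul_one]
      rw [e5]
      exact hsq.mul ⟨_, rfl⟩
    rcases hcase with ⟨hQ0, -⟩ | ⟨x', y', hns', hQ', hxy, hcase⟩
    · rw [hQ] at hQ0
      exact absurd hQ0 (by simp [Point.zero_def])
    rw [hQ] at hQ'
    obtain ⟨rfl, rfl⟩ := (Point.some.injEq _ _ _ _ _ _).mp hQ'
    have ed : algebraMap K (Comp B M 𝔓) (algebraMap k[X] K D) =
        algebraMap M (Comp B M 𝔓) (algebraMap K M (algebraMap k[X] K D)) := rfl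
    have hwd : wE (algebraMap K (Comp B M 𝔓) (algebraMap k[X] K D)) = exp (-1 : ℤ) := by
      rw [ed, wz, hD1]
    have eθ : algebraMap M (Comp B M 𝔓) (algebraMap K M (algebraMap k[X] K D) * θ) =
        algebraMap K (Comp B M 𝔓) (algebraMap k[X] K D) * algebraMap M (Comp B M 𝔓) θ := by
      rw [map_mul, ed]
    rw [eθ] at hcase
    have exd : j' x / algebraMap K (Comp B M 𝔓) (algebraMap k[X] K D) = j' (x / dL) := by
      rw [map_div₀, hdL, hjK]
    refine parTwOdd wE j' hwd ?_ hcase hsq'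
    rw [exd]
    have e1 : j' (x / dL) - algebraMap M (Comp B M 𝔓) θ =
        j' (x / dL - algebraMap F (Comp k'[X] F (𝔓.under k'[X])) (algebraMap k'[X] F p)) -
        algebraMap M (Comp B M 𝔓) (algebraMap B M (θB - algebraMap k'[X] B p)) := by
      rw [map_sub j', hj', map_sub (algebraMap B M), map_sub (algebraMap M (Comp B M 𝔓)), hθB,
        ← IsScalarTower.algebraMap_apply k'[X] B M, IsScalarTower.algebraMap_apply k'[X] F M]
      have e3 : algebraMap F (Comp B M 𝔓) (algebraMap k'[X] F p) =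
          algebraMap M (Comp B M 𝔓) (algebraMap F M (algebraMap k'[X] F p)) := rfl
      rw [e3]
      ring
    have e7 : wE (algebraMap M (Comp B M 𝔓) (algebraMap B M (θB - algebraMap k'[X] B p))) = 1 := by
      rw [wz, 𝔓.valuation_of_algebraMap, HeightOneSpectrum.intValuation_eq_one_iff]
      exact hp2
    have e8 : wE (j' (x / dL - algebraMap F (Comp k'[X] F (𝔓.under k'[X]))
        (algebraMap k'[X] F p))) < 1 := hj3 _ hp1
    rw [e1, Valuation.map_sub_swap, Valuation.map_sub_eq_of_lt_left wE (by rw [e7]; exact e8), e7]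
  by_cases hsp : ∃ (x y : Comp k'[X] F v)
      (h : (W.baseChange (Comp k'[X] F v)).toAffine.Nonsingular x y),
        Q = Point.some x y h ∧ vL (x / dL) ≤ 1 ∧ vL (cub W1 (x / dL)) < 1
  · obtain ⟨x, y, hns, hQ, hx1, hx2⟩ := hsp
    obtain ⟨p, hp⟩ : ∃ p : k'[X], vL (x / dL - algebraMap F (Comp k'[X] F v)
        (algebraMap k'[X] F p)) ≤ exp (-2 : ℤ) := by
      have hx' : (Valued.v (R := v.adicCompletion F) (Γ₀ := WithZero (Multiplicative ℤ)))
        (x / dL) ≤ 1 := hx1
      obtain ⟨p, hp⟩ := approx v (x / dL) hx'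
      exact ⟨p, hp⟩
    have two : exp (-2 : ℤ) < (1 : WithZero (Multiplicative ℤ)) := by
      rw [← exp_zero, exp_lt_exp]; norm_num
    have hp1 := lt_of_le_of_lt hp two
    have vx : ∀ x : F, vL (algebraMap F (Comp k'[X] F v) x) = v.valuation F x := fun x =>
      HeightOneSpectrum.valuedAdicCompletion_eq_valuation' v x
    have vi : ∀ p : k'[X], vL (algebraMap F (Comp k'[X] F v) (algebraMap k'[X] F p)) =
        v.intValuation p := fun p => by
      rw [vx, v.valuation_of_algebraMap]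
    have eK : ∀ p : k[X], algebraMap K (Comp k'[X] F v) (algebraMap k[X] K p) =
        algebraMap F (Comp k'[X] F v) (algebraMap k'[X] F (p.map (algebraMap k k'))) := fun p => by
      rw [IsScalarTower.algebraMap_apply K F (Comp k'[X] F v), hKF]
    have vi1 : ∀ p : k[X], vL (algebraMap K (Comp k'[X] F v) (algebraMap k[X] K p)) ≤ 1 :=
      fun p => by rw [eK, vi]; exact v.intValuation_le_one _
    set s := x / dL with hs
    set y' := algebraMap F (Comp k'[X] F v) (algebraMap k'[X] F p) with hy'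
    have wy : vL y' ≤ 1 := by rw [hy', vi]; exact v.intValuation_le_one _
    set fp : k'[X] := p ^ 3 + a2.map (algebraMap k k') * p ^ 2 + a4.map (algebraMap k k') * p +
      a6.map (algebraMap k k') with hfp
    have ad : ∀ {s t : (Comp k'[X] F v)}, vL s ≤ 1 → vL t ≤ 1 → vL (s + t) ≤ 1 := fun hs ht =>
      (Valuation.map_add _ _ _).trans (max_le hs ht)
    have mu : ∀ {s t : (Comp k'[X] F v)}, vL s ≤ 1 → vL t ≤ 1 → vL (s * t) ≤ 1 := fun hs ht => by
      rw [map_mul]; exact mul_le_one' hs ht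
    have c1 : vL (cub W1 y') < 1 := by
      have e : cub W1 y' = cub W1 s - (s - y') * (s * s + s * y' + y' * y' +
          algebraMap K (Comp k'[X] F v) (algebraMap k[X] K a2) * (s + y') +
          algebraMap K (Comp k'[X] F v) (algebraMap k[X] K a4)) := by
        simp only [cub, hW1, crvC]
        ring
      rw [e]
      refine lt_of_le_of_lt (Valuation.map_sub _ _ _) (max_lt hx2 ?_)
      rw [map_mul]
      refine lt_of_le_of_lt (mul_le_of_le_one_right' ?_) hp1
      exact ad (ad (ad (ad (mu hx1 hx1) (mu hx1 wy)) (mu wy wy)) (mu (vi1 a2) (ad hx1 wy)))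
        (vi1 a4)
    have e1 : cub W1 y' = algebraMap F (Comp k'[X] F v) (algebraMap k'[X] F fp) := by
      simp only [cub, hW1, crvC, hfp, map_add, map_mul, map_pow, ← eK]
      rfl
    have hfv : fp ∈ v.asIdeal := by
      rw [e1, vi] at c1
      rwa [HeightOneSpectrum.intValuation_lt_one_iff_mem] at c1
    refine Or.inr ⟨p, hfv, fun 𝔓 h𝔓 => ⟨fun h𝔓2 => main 𝔓 h𝔓 fun x1 y1 hns1 hQ1 _ _ => ?_,
      fun h𝔓2 => main' 𝔓 h𝔓 x y hns hQ hx1 p hp1 h𝔓2⟩⟩
    rw [hQ] at hQ1
    obtain ⟨rfl, rfl⟩ := (Point.some.injEq _ _ _ _ _ _).mp hQ1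
    exact ⟨p, hp1, h𝔓2⟩
  · left
    intro 𝔓 h𝔓
    refine main 𝔓 h𝔓 fun x y hns hQ h1 h3 => ?_
    exact absurd ⟨x, y, hns, hQ, h1, h3⟩ hsp

end parD

end Pool.Agent.TH115.GD
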