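import Pool.Agent.TH115.TC.ParH

/-!
Parities: from the places of `F` to the places of `N`.
-/

set_option autoImplicit false
set_option linter.all false

open Polynomial IsDedekindDomain WeierstrassCurve WeierstrassCurve.Affine WithZero
open scoped Classical

namespace Pool.Agent.TH115.GD

section ev

variable {A : Type} [CommRing A]

/-- The value of the cubic polynomial. -/
def fval (a2 a4 a6 p : A) : A := p ^ 3 + a2 * p ^ 2 + a4 * p + a6

end ev

section special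

variable {k k' K F M B : Type} [Field k] [Field k'] [Algebra k k'] [Field K] [Algebra k[X] K]
  [Field F] [Algebra k'[X] F] [IsFractionRing k'[X] F] [Algebra K F]
  [Field M] [Algebra F M] [Algebra K M] [IsScalarTower K F M] [Algebra M (Sep F)]
  [IsScalarTower F M (Sep F)]
  [CommRing B] [IsDedekindDomain B] [Algebra B M] [IsFractionRing B M] [Algebra k'[X] B]
  [Algebra.IsIntegral k'[X] B] [Algebra k'[X] M] [IsScalarTower k'[X] F M]
  [IsScalarTower k'[X] B M] [Module.IsTorsionFree k'[X] B]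

/-- Every root modulo `v` is the value of `θ` at a prime over `v`. -/
theorem specialD (hKF : ∀ p : k[X], algebraMap K F (algebraMap k[X] K p) =
      algebraMap k'[X] F (p.map (algebraMap k k'))) {a2 a4 a6 D : k[X]}
    {a b c : Sep F} {θ : M} {θB : B} (hθB : algebraMap B M θB = θ)
    (hθ : algebraMap M (Sep F) (algebraMap K M (algebraMap k[X] K D) * θ) = a)
    (hC : IsC ((crvC (algebraMap k[X] K (D * a2)) (algebraMap k[X] K (D ^ 2 * a4))
      (algebraMap k[X] K (D ^ 3 * a6))).baseChange (Sep F)).toAffine a b c)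
    (hnr : ∀ x : F, cub (crvC (algebraMap k[X] K (D * a2)) (algebraMap k[X] K (D ^ 2 * a4))
      (algebraMap k[X] K (D ^ 3 * a6))) x ≠ 0)
    (hD0 : algebraMap k[X] K D ≠ 0) (v : HeightOneSpectrum k'[X]) {p : k'[X]}
    (hfv : fval (a2.map (algebraMap k k')) (a4.map (algebraMap k k')) (a6.map (algebraMap k k')) p
      ∈ v.asIdeal) :
    ∃ 𝔓 : HeightOneSpectrum B, 𝔓.under k'[X] = v ∧ θB - algebraMap k'[X] B p ∈ 𝔓.asIdeal := by
  set W := crvC (algebraMap k[X] K (D * a2)) (algebraMap k[X] K (D ^ 2 * a4))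
      (algebraMap k[X] K (D ^ 3 * a6)) with hW
  set W1 := crvC (algebraMap k[X] K a2) (algebraMap k[X] K a4) (algebraMap k[X] K a6) with hW1
  have eW : W = crvC (algebraMap k[X] K D * algebraMap k[X] K a2)
      (algebraMap k[X] K D ^ 2 * algebraMap k[X] K a4)
      (algebraMap k[X] K D ^ 3 * algebraMap k[X] K a6) := by
    rw [hW, map_mul, map_mul, map_mul, map_pow, map_pow]
  set fp : k'[X] := p ^ 3 + a2.map (algebraMap k k') * p ^ 2 + a4.map (algebraMap k k') * p +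
    a6.map (algebraMap k k') with hfp
  -- the roots
  set dΩ : Sep F := algebraMap K (Sep F) (algebraMap k[X] K D) with hdΩ
  have hdM : algebraMap M (Sep F) (algebraMap K M (algebraMap k[X] K D)) = dΩ := by
    rw [IsScalarTower.algebraMap_apply K F M, ← IsScalarTower.algebraMap_apply F M (Sep F),
      ← IsScalarTower.algebraMap_apply K F (Sep F)]
  have hdΩ0 : dΩ ≠ 0 := (_root_.map_ne_zero _).2 hD0
  have hda : dΩ * algebraMap M (Sep F) θ = a := by rw [← hdM, ← map_mul, hθ]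
  have htr := fun e he => trans_roots (F := F) hC hnr e he
  have hρd : ∀ ρ : Sep F ≃ₐ[F] Sep F, ρ dΩ = dΩ := by
    intro ρ
    rw [hdΩ, IsScalarTower.algebraMap_apply K F (Sep F)]
    exact ρ.commutes _
  exact exists_special (M := M) (B := B) (a1 := a / dΩ) (e1 := a / dΩ)
    (e2 := b / dΩ) (e3 := c / dΩ) (θ := θB) (by
      rw [hθB, ← hda, mul_div_cancel_left₀ _ hdΩ0]) (by
      rintro e (rfl | rfl | rfl)
      · exact ⟨AlgEquiv.refl, rfl⟩
      · obtain ⟨ρ, hρ⟩ := htr b (Or.inr (Or.inl rfl))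
        exact ⟨ρ, by rw [map_div₀, hρ, hρd]⟩
      · obtain ⟨ρ, hρ⟩ := htr c (Or.inr (Or.inr rfl))
        exact ⟨ρ, by rw [map_div₀, hρ, hρd]⟩) v (p := p) (fp := fp) (by
      set PΩ := algebraMap F (Sep F) (algebraMap k'[X] F p) with hPΩ
      have h1 : cub W (dΩ * PΩ) = (dΩ * PΩ - a) * (dΩ * PΩ - b) * (dΩ * PΩ - c) :=
        hC.cub_eq _
      have h3 : cub W (dΩ * PΩ) = dΩ ^ 3 * cub W1 PΩ := by
        rw [eW]
        exact cub_tw (L := Sep F) (algebraMap k[X] K a2)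
          (algebraMap k[X] K a4) (algebraMap k[X] K a6) (algebraMap k[X] K D) PΩ
      have eKΩ : ∀ p : k[X], algebraMap K (Sep F) (algebraMap k[X] K p) =
          algebraMap F (Sep F) (algebraMap k'[X] F (p.map (algebraMap k k'))) := fun p => by
        rw [IsScalarTower.algebraMap_apply K F (Sep F), hKF]
      have h5 : cub W1 PΩ = algebraMap F (Sep F) (algebraMap k'[X] F fp) := by
        simp only [cub, hW1, crvC, hfp, map_add, map_mul, map_pow, ← eKΩ]
        rfl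
      rw [← h5]
      rw [h3] at h1
      have h7 : dΩ ^ 3 ≠ 0 := pow_ne_zero 3 hdΩ0
      apply mul_left_cancel₀ h7
      rw [h1]
      field_simp) hfv

end special

section half

variable {k' B R : Type} [Field k'] [CommRing B] [IsDedekindDomain B] [Algebra k'[X] B]
  [Algebra.IsIntegral k'[X] B] [Module.IsTorsionFree k'[X] B]
  [CommRing R] [IsDedekindDomain R] [Algebra R B] [Algebra.IsIntegral R B]
  [Module.IsTorsionFree R B]

/-- The local condition at `v`. -/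
def LocPat (v : HeightOneSpectrum k'[X]) (θB : B) (A2 A4 A6 : k'[X])
    (Pr : HeightOneSpectrum B → Prop) : Prop :=
  (∀ 𝔓 : HeightOneSpectrum B, 𝔓.under k'[X] = v → Pr 𝔓) ∨
    ∃ p : k'[X], fval A2 A4 A6 p ∈ v.asIdeal ∧ ∀ 𝔓 : HeightOneSpectrum B, 𝔓.under k'[X] = v →
      (θB - algebraMap k'[X] B p ∈ 𝔓.asIdeal → Pr 𝔓) ∧
      (θB - algebraMap k'[X] B p ∉ 𝔓.asIdeal → ¬ Pr 𝔓)

omit [Algebra.IsIntegral k'[X] B] [Module.IsTorsionFree k'[X] B] in
theorem mem_under [Algebra.IsIntegral k'[X] B] [Module.IsTorsionFree k'[X] B]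
    {v : HeightOneSpectrum k'[X]} {𝔓 : HeightOneSpectrum B} (h : 𝔓.under k'[X] = v) (q : k'[X]) :
    algebraMap k'[X] B q ∈ 𝔓.asIdeal ↔ q ∈ v.asIdeal := by
  rw [← h]
  rfl

/-- At an inert prime. -/
theorem inert_even {v : HeightOneSpectrum k'[X]} {θB : B} {A2 A4 A6 : k'[X]}
    {Pr : HeightOneSpectrum R → Prop} (hloc : LocPat v θB A2 A4 A6 (fun 𝔓 => Pr (𝔓.under R)))
    (hspec : ∀ p : k'[X], fval A2 A4 A6 p ∈ v.asIdeal →
      ∃ 𝔓 : HeightOneSpectrum B, 𝔓.under k'[X] = v ∧ θB - algebraMap k'[X] B p ∈ 𝔓.asIdeal)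
    {𝔓1 : HeightOneSpectrum B} (h1 : 𝔓1.under k'[X] = v)
    (huniq : ∀ 𝔓 : HeightOneSpectrum B, 𝔓.under k'[X] = v → 𝔓.under R = 𝔓1.under R) :
    Pr (𝔓1.under R) := by
  rcases hloc with hall | ⟨p, hp, hpar⟩
  · exact hall 𝔓1 h1
  · obtain ⟨𝔓, h𝔓, h𝔓2⟩ := hspec p hp
    have h3 : Pr (𝔓.under R) := (hpar 𝔓 h𝔓).1 h𝔓2
    rwa [huniq 𝔓 h𝔓] at h3

/-- At the prime of degree one. -/
theorem half_even {v : HeightOneSpectrum k'[X]} {θB : B} {A2 A4 A6 u : k'[X]}
    {Pr : HeightOneSpectrum R → Prop} (hloc : LocPat v θB A2 A4 A6 (fun 𝔓 => Pr (𝔓.under R)))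
    (hspec : ∀ p : k'[X], fval A2 A4 A6 p ∈ v.asIdeal →
      ∃ 𝔓 : HeightOneSpectrum B, 𝔓.under k'[X] = v ∧ θB - algebraMap k'[X] B p ∈ 𝔓.asIdeal)
    {𝔓1 : HeightOneSpectrum B} (h1 : 𝔓1.under k'[X] = v)
    (hu : θB - algebraMap k'[X] B u ∈ 𝔓1.asIdeal) (hfu : fval A2 A4 A6 u ∈ v.asIdeal)
    (hder : 3 * u ^ 2 + 2 * A2 * u + A4 ∉ v.asIdeal)
    (hdisc : (A2 + u) ^ 2 - 4 * (u ^ 2 + A2 * u + A4) ∉ v.asIdeal)
    (huniq : ∀ 𝔓 𝔓' : HeightOneSpectrum B, 𝔓.under k'[X] = v → 𝔓'.under k'[X] = v →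
      θB - algebraMap k'[X] B u ∉ 𝔓.asIdeal → θB - algebraMap k'[X] B u ∉ 𝔓'.asIdeal →
      𝔓.under R = 𝔓'.under R) :
    Pr (𝔓1.under R) := by
  haveI := v.isPrime
  rcases hloc with hall | ⟨p, hp, hpar⟩
  · exact hall 𝔓1 h1
  by_contra hno
  have hn1 : θB - algebraMap k'[X] B p ∉ 𝔓1.asIdeal := fun h => hno ((hpar 𝔓1 h1).1 h)
  have hpu : p - u ∉ v.asIdeal := by
    intro h3
    apply hn1
    have e : θB - algebraMap k'[X] B p = (θB - algebraMap k'[X] B u) -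
        algebraMap k'[X] B (p - u) := by rw [map_sub]; ring
    rw [e]
    exact 𝔓1.asIdeal.sub_mem hu ((mem_under h1 _).2 h3)
  have hqp : p ^ 2 + (A2 + u) * p + (u ^ 2 + A2 * u + A4) ∈ v.asIdeal := by
    have e : fval A2 A4 A6 p - fval A2 A4 A6 u =
        (p - u) * (p ^ 2 + (A2 + u) * p + (u ^ 2 + A2 * u + A4)) := by
      unfold fval; ring
    have h3 := v.asIdeal.sub_mem hp hfu
    rw [e] at h3
    exact (v.isPrime.mem_or_mem h3).resolve_left hpu
  set p' : k'[X] := -(A2 + u) - p with hp'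
  have hqp' : p' ^ 2 + (A2 + u) * p' + (u ^ 2 + A2 * u + A4) ∈ v.asIdeal := by
    have e : p' ^ 2 + (A2 + u) * p' + (u ^ 2 + A2 * u + A4) =
        p ^ 2 + (A2 + u) * p + (u ^ 2 + A2 * u + A4) := by rw [hp']; ring
    rw [e]
    exact hqp
  have hfp' : fval A2 A4 A6 p' ∈ v.asIdeal := by
    have e : fval A2 A4 A6 p' = (p' - u) * (p' ^ 2 + (A2 + u) * p' + (u ^ 2 + A2 * u + A4)) +
        fval A2 A4 A6 u := by
      unfold fval; ring
    rw [e]
    exact v.asIdeal.add_mem (v.asIdeal.mul_mem_left _ hqp') hfu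
  have hp'u : p' - u ∉ v.asIdeal := by
    intro h3
    apply hder
    have e : 3 * u ^ 2 + 2 * A2 * u + A4 =
        (p' ^ 2 + (A2 + u) * p' + (u ^ 2 + A2 * u + A4)) - (p' - u) * (p' + u + (A2 + u)) := by
      ring
    rw [e]
    exact v.asIdeal.sub_mem hqp' (v.asIdeal.mul_mem_right _ h3)
  have hpp' : p - p' ∉ v.asIdeal := by
    intro h3
    apply hdisc
    have e : (A2 + u) ^ 2 - 4 * (u ^ 2 + A2 * u + A4) =
        (p - p') * (p - p') - 4 * (p ^ 2 + (A2 + u) * p + (u ^ 2 + A2 * u + A4)) := by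
      rw [hp']; ring
    rw [e]
    exact v.asIdeal.sub_mem (v.asIdeal.mul_mem_left _ h3) (v.asIdeal.mul_mem_left _ hqp)
  obtain ⟨𝔓2, h2, h2p⟩ := hspec p hp
  obtain ⟨𝔓3, h3, h3p⟩ := hspec p' hfp'
  have hn2 : θB - algebraMap k'[X] B u ∉ 𝔓2.asIdeal := by
    intro h
    apply hpu
    rw [← mem_under h2]
    have e : algebraMap k'[X] B (p - u) = (θB - algebraMap k'[X] B u) -
        (θB - algebraMap k'[X] B p) := by rw [map_sub]; ring
    rw [e]
    exact 𝔓2.asIdeal.sub_mem h h2p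
  have hn3 : θB - algebraMap k'[X] B u ∉ 𝔓3.asIdeal := by
    intro h
    apply hp'u
    rw [← mem_under h3]
    have e : algebraMap k'[X] B (p' - u) = (θB - algebraMap k'[X] B u) -
        (θB - algebraMap k'[X] B p') := by rw [map_sub]; ring
    rw [e]
    exact 𝔓3.asIdeal.sub_mem h h3p
  have hn3' : θB - algebraMap k'[X] B p ∉ 𝔓3.asIdeal := by
    intro h
    apply hpp'
    rw [← mem_under h3]
    have e : algebraMap k'[X] B (p - p') = (θB - algebraMap k'[X] B p') -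
        (θB - algebraMap k'[X] B p) := by rw [map_sub]; ring
    rw [e]
    exact 𝔓3.asIdeal.sub_mem h3p h
  have e23 := huniq 𝔓2 𝔓3 h2 h3 hn2 hn3
  have r2 : Pr (𝔓2.under R) := (hpar 𝔓2 h2).1 h2p
  have r3 : ¬ Pr (𝔓3.under R) := (hpar 𝔓3 h3).2 hn3'
  rw [e23] at r2
  exact r3 r2

end half

end Pool.Agent.TH115.GD
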