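import Pool.Agent.TH115.TC.ParT

/-!
Parity of the valuations for quadratic twists: the primes which divide the twist.
-/

set_option autoImplicit false
set_option linter.all false

open Polynomial IsDedekindDomain WeierstrassCurve WeierstrassCurve.Affine WithZero
open scoped Classical

namespace Pool.Agent.TH115.GD

section smooth

variable {k k' K F : Type} [Field k] [Field k'] [Algebra k k'] [Field K] [Algebra k[X] K]
  [Field F] [Algebra k'[X] F] [IsFractionRing k'[X] F] [Algebra K F]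

theorem locSm_tw (hKF : ∀ p : k[X], algebraMap K F (algebraMap k[X] K p) =
      algebraMap k'[X] F (p.map (algebraMap k k'))) {a2 a4 a6 D : k[X]} (hS : SmoothC a2 a4 a6)
    (v : HeightOneSpectrum k'[X]) (hv : D.map (algebraMap k k') ∉ v.asIdeal) :
    LocSm (F := F) (crvC (algebraMap k[X] K (D * a2)) (algebraMap k[X] K (D ^ 2 * a4))
      (algebraMap k[X] K (D ^ 3 * a6))) v := by
  intro x vL hvL hx h1 h3
  set W := crvC (algebraMap k[X] K a2) (algebraMap k[X] K a4) (algebraMap k[X] K a6) with hW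
  set d := algebraMap K (Comp k'[X] F v) (algebraMap k[X] K D) with hd
  have vd : vL d = 1 := by
    rw [hd, IsScalarTower.algebraMap_apply K F (Comp k'[X] F v), hKF, hvL]
    have h5 : Valued.v (algebraMap F (v.adicCompletion F) (algebraMap k'[X] F
        (D.map (algebraMap k k')))) =
          v.valuation F (algebraMap k'[X] F (D.map (algebraMap k k'))) :=
      HeightOneSpectrum.valuedAdicCompletion_eq_valuation' v _
    have h6 : v.valuation F (algebraMap k'[X] F (D.map (algebraMap k k'))) = 1 := by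
      rw [v.valuation_of_algebraMap, v.intValuation_eq_one_iff]
      exact hv
    rw [h6] at h5
    exact h5
  have hd0 : d ≠ 0 := by
    intro h0
    rw [h0, map_zero] at vd
    exact zero_ne_one vd
  have e0 : x = d * (x / d) := by rw [mul_div_cancel₀ x hd0]
  have e1 : cub (crvC (algebraMap k[X] K (D * a2)) (algebraMap k[X] K (D ^ 2 * a4))
      (algebraMap k[X] K (D ^ 3 * a6))) x = d ^ 3 * cub W (x / d) := by
    conv_lhs => rw [e0]
    rw [map_mul, map_mul, map_mul, map_pow, map_pow]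
    exact cub_tw _ _ _ _ _
  have e3 : cub' (crvC (algebraMap k[X] K (D * a2)) (algebraMap k[X] K (D ^ 2 * a4))
      (algebraMap k[X] K (D ^ 3 * a6))) x = d ^ 2 * cub' W (x / d) := by
    conv_lhs => rw [e0]
    rw [map_mul, map_mul, map_mul, map_pow, map_pow]
    exact cub'_tw _ _ _ _ _
  have q1 : vL (d ^ 3 * cub W (x / d)) = vL (cub W (x / d)) := by
    rw [map_mul, map_pow, vd, one_pow, one_mul]
  have q3 : vL (d ^ 2 * cub' W (x / d)) = vL (cub' W (x / d)) := by
    rw [map_mul, map_pow, vd, one_pow, one_mul]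
  rw [e1, q1] at h1 ⊢
  rw [e3, q3] at h3
  exact hsm_of hKF hS v (x / d) vL hvL (by rw [map_div₀, vd, div_one]; exact hx) h1 h3

end smooth

section special

variable {k' F M B : Type} [Field k'] [Field F] [Algebra k'[X] F] [IsFractionRing k'[X] F]
  [Field M] [Algebra F M] [Algebra M (Sep F)]
  [IsScalarTower F M (Sep F)]
  [CommRing B] [IsDedekindDomain B] [Algebra B M] [IsFractionRing B M] [Algebra k'[X] B]
  [Algebra.IsIntegral k'[X] B] [Algebra k'[X] M] [IsScalarTower k'[X] F M]
  [IsScalarTower k'[X] B M] [Module.IsTorsionFree k'[X] B]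

/-- The prime at which `θ` is congruent to `p`. -/
theorem exists_special {a1 e1 e2 e3 : Sep F} {θ : B}
    (hθ : algebraMap M (Sep F) (algebraMap B M θ) = a1)
    (htr : ∀ e, (e = e1 ∨ e = e2 ∨ e = e3) → ∃ ρ : Sep F ≃ₐ[F] Sep F, ρ a1 = e)
    (v : HeightOneSpectrum k'[X]) {p fp : k'[X]}
    (hfp : algebraMap F (Sep F) (algebraMap k'[X] F fp) =
      (algebraMap F (Sep F) (algebraMap k'[X] F p) - e1) *
        (algebraMap F (Sep F) (algebraMap k'[X] F p) - e2) *
        (algebraMap F (Sep F) (algebraMap k'[X] F p) - e3)) (hv : fp ∈ v.asIdeal) :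
    ∃ 𝔓 : HeightOneSpectrum B, 𝔓.under k'[X] = v ∧ θ - algebraMap k'[X] B p ∈ 𝔓.asIdeal := by
  letI : Algebra k'[X] (Sep F) := ((algebraMap F (Sep F)).comp (algebraMap k'[X] F)).toAlgebra
  haveI : IsScalarTower k'[X] F (Sep F) := IsScalarTower.of_algebraMap_eq fun x => rfl
  have eB : ∀ q : k'[X], algebraMap M (Sep F) (algebraMap B M (algebraMap k'[X] B q)) =
      algebraMap k'[X] (Sep F) q := by
    intro q
    rw [← IsScalarTower.algebraMap_apply k'[X] B M, IsScalarTower.algebraMap_apply k'[X] F M,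
      ← IsScalarTower.algebraMap_apply F M (Sep F)]
    rfl
  have intB : ∀ (ρ : Sep F ≃ₐ[F] Sep F) (x : B),
      IsIntegral k'[X] (ρ (algebraMap M (Sep F) (algebraMap B M x))) := by
    intro ρ x
    obtain ⟨q, hq, he⟩ := Algebra.IsIntegral.isIntegral (R := k'[X]) x
    refine ⟨q, hq, ?_⟩
    have h1 := congrArg (fun y => ρ (algebraMap M (Sep F) (algebraMap B M y))) he
    simp only [map_zero] at h1
    have h3 : ((ρ : Sep F ≃+* Sep F) : Sep F →+* Sep F).comp
        ((algebraMap M (Sep F)).comp ((algebraMap B M).comp (algebraMap k'[X] B))) =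
        algebraMap k'[X] (Sep F) := by
      apply RingHom.ext
      intro q
      show ρ (algebraMap M (Sep F) (algebraMap B M (algebraMap k'[X] B q))) = _
      rw [eB]
      exact ρ.commutes _
    rw [← h3]
    have h4 := hom_eval₂ q (algebraMap k'[X] B) (((ρ : Sep F ≃+* Sep F) : Sep F →+* Sep F).comp
        ((algebraMap M (Sep F)).comp (algebraMap B M))) x
    rw [he, map_zero] at h4
    exact h4.symm
  let BΩ := integralClosure k'[X] (Sep F)
  have hinj : Function.Injective (algebraMap k'[X] BΩ) := by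
    intro x y h
    have h1 := congrArg (fun z : BΩ => (z : Sep F)) h
    exact IsFractionRing.injective k'[X] F ((algebraMap F (Sep F)).injective h1)
  have hker : RingHom.ker (algebraMap k'[X] BΩ) = ⊥ :=
    (RingHom.injective_iff_ker_eq_bot _).1 hinj
  haveI := v.isPrime
  obtain ⟨Q, -, hQ, hQv⟩ := Ideal.exists_ideal_over_prime_of_isIntegral v.asIdeal (⊥ : Ideal BΩ)
    (by
      rw [← RingHom.ker_eq_comap_bot, hker]
      exact bot_le)
  -- the roots are integral
  have hi : ∀ e, (e = e1 ∨ e = e2 ∨ e = e3) → IsIntegral k'[X] e := by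
    intro e he
    obtain ⟨ρ, hρ⟩ := htr e he
    rw [← hρ, ← hθ]
    exact intB ρ θ
  let E1 : BΩ := ⟨e1, hi e1 (Or.inl rfl)⟩
  let E2 : BΩ := ⟨e2, hi e2 (Or.inr (Or.inl rfl))⟩
  let E3 : BΩ := ⟨e3, hi e3 (Or.inr (Or.inr rfl))⟩
  have hprod : algebraMap k'[X] BΩ fp = (algebraMap k'[X] BΩ p - E1) *
      (algebraMap k'[X] BΩ p - E2) * (algebraMap k'[X] BΩ p - E3) := by
    apply Subtype.ext
    exact hfp
  have hmem : algebraMap k'[X] BΩ fp ∈ Q := by
    rw [← Ideal.mem_comap, hQv]
    exact hv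
  rw [hprod] at hmem
  obtain ⟨e, he, E, hE, hEQ⟩ : ∃ e, (e = e1 ∨ e = e2 ∨ e = e3) ∧ ∃ E : BΩ, (E : Sep F) = e ∧
      algebraMap k'[X] BΩ p - E ∈ Q := by
    rcases hQ.mem_or_mem hmem with h1 | h1
    · rcases hQ.mem_or_mem h1 with h3 | h3
      · exact ⟨e1, Or.inl rfl, E1, rfl, h3⟩
      · exact ⟨e2, Or.inr (Or.inl rfl), E2, rfl, h3⟩
    · exact ⟨e3, Or.inr (Or.inr rfl), E3, rfl, h1⟩
  obtain ⟨ρ, hρ⟩ := htr e he
  let ψ : B →+* BΩ := (((ρ : Sep F ≃+* Sep F) : Sep F →+* Sep F).comp
        ((algebraMap M (Sep F)).comp (algebraMap B M))).codRestrict BΩ (fun x => intB ρ x)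
  have hψ : ∀ x : B, (ψ x : Sep F) = ρ (algebraMap M (Sep F) (algebraMap B M x)) := fun x => rfl
  have hψk : ∀ q : k'[X], ψ (algebraMap k'[X] B q) = algebraMap k'[X] BΩ q := by
    intro q
    apply Subtype.ext
    rw [hψ, eB]
    exact ρ.commutes _
  have hunder : (Q.comap ψ).comap (algebraMap k'[X] B) = v.asIdeal := by
    rw [← hQv]
    ext q
    rw [Ideal.mem_comap, Ideal.mem_comap, hψk, Ideal.mem_comap]
  have hne : Q.comap ψ ≠ ⊥ := by
    intro h0
    rw [h0, ← RingHom.ker_eq_comap_bot,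
      (RingHom.injective_iff_ker_eq_bot _).1 (FaithfulSMul.algebraMap_injective k'[X] B)] at hunder
    exact v.ne_bot hunder.symm
  haveI := hQ
  refine ⟨⟨Q.comap ψ, Ideal.IsPrime.comap ψ, hne⟩, HeightOneSpectrum.ext hunder, ?_⟩
  show ψ (θ - algebraMap k'[X] B p) ∈ Q
  have e5 : ψ (θ - algebraMap k'[X] B p) = -(algebraMap k'[X] BΩ p - E) := by
    rw [map_sub, hψk]
    have : ψ θ = E := by
      apply Subtype.ext
      rw [hψ, hθ, hρ, hE]
    rw [this]
    ring
  rw [e5]
  exact neg_mem hEQ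

end special

end Pool.Agent.TH115.GD
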