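import Pool.Agent.TH115.TC.Unram2

/-!
Quadratic extensions of Dedekind domains.
-/

set_option autoImplicit false
set_option linter.all false

open Polynomial IsDedekindDomain WithZero
open scoped Classical

namespace Pool.Agent.TH115.GD

section select

variable {R' R : Type*} [CommRing R'] [IsDedekindDomain R'] [CommRing R] [IsDedekindDomain R]
  [Algebra R' R] [Algebra.IsIntegral R' R] [Module.IsTorsionFree R' R]

/-- An element which is in all primes over `v`, and which is a uniformizer at one of them. -/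
theorem sel_elt (w : HeightOneSpectrum R) : ∃ x : R, w.intValuation x = exp (-1 : ℤ) ∧
    ∀ w' : HeightOneSpectrum R, w'.under R' = w.under R' → x ∈ w'.asIdeal := by
  set v := w.under R' with hv
  haveI hlo : w.asIdeal.LiesOver v.asIdeal := ⟨rfl⟩
  have hfin : (Ideal.primesOver v.asIdeal R).Finite :=
    haveI : v.asIdeal.IsMaximal := v.isMaximal
    IsDedekindDomain.primesOver_finite v.asIdeal R
  have hsel : ∀ 𝔮 : Ideal R, 𝔮 ∈ hfin.toFinset.erase w.asIdeal → ∃ s : R, s ∈ 𝔮 ∧ s ∉ w.asIdeal := by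
    intro 𝔮 h𝔮
    rw [Finset.mem_erase, Set.Finite.mem_toFinset] at h𝔮
    obtain ⟨hne, hpr, hlie⟩ := h𝔮
    by_contra hcon
    push Not at hcon
    have hle : 𝔮 ≤ w.asIdeal := fun s hs => hcon s hs
    haveI := hpr
    haveI := hlie
    have h0 : 𝔮 ≠ ⊥ := by
      intro h0
      have h1 : v.asIdeal = 𝔮.under R' := hlie.over
      rw [h0, Ideal.under_bot] at h1
      exact v.ne_bot h1
    have hmax : 𝔮.IsMaximal := hpr.isMaximal h0
    exact hne (hmax.eq_of_le w.isPrime.ne_top hle)
  choose! s hs1 hs2 using hsel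
  obtain ⟨π, hπ⟩ := w.intValuation_exists_uniformizer
  set x0 : R := π * ∏ 𝔮 ∈ hfin.toFinset.erase w.asIdeal, s 𝔮 with hx0
  have hx0w : w.intValuation x0 = exp (-1 : ℤ) := by
    have h1 : ∏ 𝔮 ∈ hfin.toFinset.erase w.asIdeal, s 𝔮 ∉ w.asIdeal := by
      haveI := w.isPrime
      rw [Ideal.IsPrime.prod_mem_iff]
      rintro ⟨𝔮, h𝔮, h3⟩
      exact hs2 𝔮 h𝔮 h3
    rw [hx0, map_mul, hπ, (w.intValuation_eq_one_iff).2 h1, mul_one]
  refine ⟨x0, hx0w, ?_⟩
  intro w' hw'
  by_cases hw : w'.asIdeal = w.asIdeal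
  · rw [hw, ← w.intValuation_lt_one_iff_mem, hx0w, ← exp_zero, exp_lt_exp]
    norm_num
  · have hmem : w'.asIdeal ∈ hfin.toFinset.erase w.asIdeal := by
      rw [Finset.mem_erase, Set.Finite.mem_toFinset]
      refine ⟨hw, w'.isPrime, ⟨?_⟩⟩
      rw [← hw']
      rfl
    rw [hx0]
    exact Ideal.mul_mem_left _ _ (Ideal.mem_of_dvd _ (Finset.dvd_prod_of_mem s hmem)
      (hs1 _ hmem))

end select

section equiv

variable {R : Type*} [CommRing R] [IsDedekindDomain R] (e : R ≃+* R)

/-- The action of an automorphism on the primes. -/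
def cm (w : HeightOneSpectrum R) : HeightOneSpectrum R :=
  HeightOneSpectrum.comap (e : R →+* R) e.surjective w

theorem cm_mem (w : HeightOneSpectrum R) (x : R) : x ∈ (cm e w).asIdeal ↔ e x ∈ w.asIdeal :=
  Iff.rfl

theorem cm_pow (w : HeightOneSpectrum R) (n : ℕ) (x : R) :
    x ∈ (cm e w).asIdeal ^ n ↔ e x ∈ w.asIdeal ^ n := by
  have h1 : (cm e w).asIdeal = w.asIdeal.map (e.symm : R →+* R) := by
    rw [Ideal.map_comap_of_equiv]
    rfl
  have h3 : (cm e w).asIdeal ^ n = (w.asIdeal ^ n).map (e.symm : R →+* R) := by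
    rw [h1, Ideal.map_pow]
  rw [h3, Ideal.map_comap_of_equiv]
  rfl

theorem cm_int (w : HeightOneSpectrum R) (x : R) :
    (cm e w).intValuation x = w.intValuation (e x) := by
  by_cases hx : x = 0
  · rw [hx, map_zero, map_zero, map_zero]
  have hx' : e x ≠ 0 := by rwa [Ne, map_eq_zero_iff e e.injective]
  have key : ∀ n : ℕ, (cm e w).intValuation x ≤ exp (-(n : ℤ)) ↔
      w.intValuation (e x) ≤ exp (-(n : ℤ)) := by
    intro n
    rw [HeightOneSpectrum.intValuation_le_pow_iff_mem, HeightOneSpectrum.intValuation_le_pow_iff_mem,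
      cm_pow]
  have form : ∀ (v : HeightOneSpectrum R) {y : R}, y ≠ 0 →
      ∃ m : ℕ, v.intValuation y = exp (-(m : ℤ)) := by
    intro v y hy
    exact ⟨_, v.intValuation_if_neg hy⟩
  obtain ⟨m, hm⟩ := form (cm e w) hx
  obtain ⟨n, hn⟩ := form w hx'
  have h1 := (key m).1 hm.le
  have h3 := (key n).2 hn.le
  rw [hn, exp_le_exp] at h1
  rw [hm, exp_le_exp] at h3
  rw [hm, hn]
  congr 1
  omega

variable {L : Type*} [Field L] [Algebra R L] [IsFractionRing R L]

theorem cm_val {σ : L →+* L} (hσ : ∀ x : R, σ (algebraMap R L x) = algebraMap R L (e x))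
    (w : HeightOneSpectrum R) (x : L) : (cm e w).valuation L x = w.valuation L (σ x) := by
  obtain ⟨n, d, hd, rfl⟩ := IsFractionRing.div_surjective (A := R) x
  rw [map_div₀, map_div₀, hσ, hσ, map_div₀, HeightOneSpectrum.valuation_of_algebraMap,
    HeightOneSpectrum.valuation_of_algebraMap, HeightOneSpectrum.valuation_of_algebraMap,
    HeightOneSpectrum.valuation_of_algebraMap, cm_int, cm_int]

end equiv

end Pool.Agent.TH115.GD
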