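import Pool.Agent.TH115.TC.Quad

/-!
Quadratic extensions of Dedekind domains: even elements.
-/

set_option autoImplicit false
set_option linter.all false

open Polynomial IsDedekindDomain WithZero
open scoped Classical

namespace Pool.Agent.TH115.GD

section quad

variable {L' L R' R : Type} [Field L'] [Field L] [Algebra L' L] [CommRing R'] [IsDedekindDomain R']
  [Algebra R' L'] [IsFractionRing R' L'] [CommRing R] [IsDedekindDomain R] [Algebra R L]
  [IsFractionRing R L] [Algebra R' R] [Algebra R' L] [IsScalarTower R' L' L] [IsScalarTower R' R L]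
  [Algebra.IsIntegral R' R] [Module.IsTorsionFree R' R] [FiniteDimensional L' L]

/-- `L = L'(t)`, `t ^ 2 = δ` squarefree, 2 is a unit. -/
structure QD (δ : R') (t : R) (σ : L ≃ₐ[L'] L) : Prop where
  two : IsUnit (2 : R')
  sq : t ^ 2 = algebraMap R' R δ
  gen : ∀ x : L, ∃ u v : L', x = algebraMap L' L u + algebraMap L' L v * algebraMap R L t
  ord : ∀ v : HeightOneSpectrum R', exp (-1 : ℤ) ≤ v.intValuation δ
  conj : σ (algebraMap R L t) = -algebraMap R L t
  ns : ∀ y : L', y ^ 2 ≠ algebraMap R' L' δ

variable {δ : R'} {t : R} {σ : L ≃ₐ[L'] L} (h : QD δ t σ)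

include h

theorem QD.sqL : algebraMap R L t ^ 2 = algebraMap L' L (algebraMap R' L' δ) := by
  rw [← map_pow, h.sq, ← IsScalarTower.algebraMap_apply R' R L,
    ← IsScalarTower.algebraMap_apply R' L' L]

omit [IsDedekindDomain R'] [IsFractionRing R' L'] [IsDedekindDomain R] [IsFractionRing R L]
  [Algebra.IsIntegral R' R] [Module.IsTorsionFree R' R] [FiniteDimensional L' L] h in
theorem aM (a : R') : algebraMap R L (algebraMap R' R a) =
    algebraMap L' L (algebraMap R' L' a) := by
  rw [← IsScalarTower.algebraMap_apply R' R L, ← IsScalarTower.algebraMap_apply R' L' L]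

theorem QD.two' : (2 : L) ≠ 0 := by
  have h1 := h.two.map (algebraMap R' L)
  rw [map_ofNat] at h1
  exact h1.ne_zero

theorem QD.uniq {u v u' v' : L'} (e : algebraMap L' L u + algebraMap L' L v * algebraMap R L t =
    algebraMap L' L u' + algebraMap L' L v' * algebraMap R L t) : u = u' ∧ v = v' := by
  have hv : v = v' := by
    by_contra hne
    have hne' : v - v' ≠ 0 := sub_ne_zero.2 hne
    apply h.ns ((u' - u) / (v - v'))
    apply (algebraMap L' L).injective
    rw [← h.sqL, map_pow, map_div₀, map_sub, map_sub]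
    congr 1
    have h1 : algebraMap L' L v - algebraMap L' L v' ≠ 0 := by
      rw [← map_sub]
      exact (_root_.map_ne_zero _).2 hne'
    rw [div_eq_iff h1]
    linear_combination -e
  subst hv
  exact ⟨(algebraMap L' L).injective (add_right_cancel e), rfl⟩

theorem QD.inL {x : L} {u v : L'}
    (e : x = algebraMap L' L u + algebraMap L' L v * algebraMap R L t) :
    σ x = algebraMap L' L u - algebraMap L' L v * algebraMap R L t := by
  rw [e, map_add, map_mul, σ.commutes, σ.commutes, h.conj]
  ring

/-- An element of `L'` which is integral. -/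
theorem QD.down {x : R} {u : L'} (e : algebraMap R L x = algebraMap L' L u) :
    ∃ a : R', algebraMap R' L' a = u ∧ algebraMap R' R a = x := by
  have h1 : IsIntegral R' (algebraMap L' L u) := by
    rw [← e]
    exact (Algebra.IsIntegral.isIntegral (R := R') x).algebraMap
  have h3 : IsIntegral R' u := (isIntegral_algebraMap_iff (algebraMap L' L).injective).1 h1
  obtain ⟨a, ha⟩ := (IsIntegrallyClosed.isIntegral_iff (K := L')).1 h3
  refine ⟨a, ha, ?_⟩
  apply IsFractionRing.injective R L
  rw [e, ← ha, ← IsScalarTower.algebraMap_apply R' R L, ← IsScalarTower.algebraMap_apply R' L' L]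

theorem QD.dec (x : R) : ∃ a b : R', x = algebraMap R' R a + algebraMap R' R b * t := by
  obtain ⟨u, v, e⟩ := h.gen (algebraMap R L x)
  set s := galRestrict R' L' L R σ with hs
  have hsx : algebraMap R L (s x) = σ (algebraMap R L x) := algebraMap_galRestrict_apply R' σ x
  obtain ⟨c, hc1, hc2⟩ := h.down (x := x + s x) (u := 2 * u) (by
    rw [map_add, hsx, h.inL e]
    rw [e, map_mul, map_ofNat]
    ring)
  obtain ⟨i, hi⟩ := h.two.exists_left_inv
  -- `a = c / 2`
  have ha : algebraMap R' L' (i * c) = u := by
    rw [map_mul, hc1, ← mul_assoc]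
    have : algebraMap R' L' i * 2 = 1 := by
      have := congrArg (algebraMap R' L') hi
      rwa [map_mul, map_ofNat, map_one] at this
    rw [this, one_mul]
  obtain ⟨b', hb1, hb2⟩ := h.down (x := (x - algebraMap R' R (i * c)) ^ 2)
    (u := v ^ 2 * algebraMap R' L' δ) (by
      rw [map_pow, map_sub, ← IsScalarTower.algebraMap_apply R' R L,
        IsScalarTower.algebraMap_apply R' L' L, ha, e, map_mul, map_pow, ← h.sqL]
      ring)
  have hb : ∀ w : HeightOneSpectrum R', w.valuation L' v ≤ 1 := by
    intro w
    have h1 : w.valuation L' (v ^ 2 * algebraMap R' L' δ) ≤ 1 := by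
      rw [← hb1]
      exact w.valuation_le_one _
    rw [map_mul, map_pow, w.valuation_of_algebraMap] at h1
    by_contra hcon
    rw [not_le] at hcon
    have h0 : w.valuation L' v ≠ 0 := fun h => by rw [h] at hcon; exact absurd hcon (by simp)
    have e1 : exp (log (w.valuation L' v)) = w.valuation L' v := exp_log h0
    rw [← e1, ← exp_zero, exp_lt_exp] at hcon
    have h3 : w.valuation L' v ^ 2 * exp (-1 : ℤ) ≤ 1 :=
      (mul_le_mul_right (h.ord w) (w.valuation L' v ^ 2)).trans h1
    rw [← e1, ← exp_nsmul, ← exp_add, ← exp_zero, exp_le_exp] at h3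
    simp only [nsmul_eq_mul] at h3
    push_cast at h3
    omega
  obtain ⟨b, hb3⟩ := HeightOneSpectrum.mem_integers_of_valuation_le_one L' v hb
  refine ⟨i * c, b, ?_⟩
  apply IsFractionRing.injective R L
  rw [map_add, map_mul (algebraMap R L), aM (L' := L') (i * c), aM (L' := L') b, ha, hb3, e]

theorem QD.uniqR {a b a' b' : R'} (e : algebraMap R' R a + algebraMap R' R b * t =
    algebraMap R' R a' + algebraMap R' R b' * t) : a = a' ∧ b = b' := by
  have e' := congrArg (algebraMap R L) e
  rw [map_add, map_add, map_mul, map_mul, aM (L' := L') a, aM (L' := L') b, aM (L' := L') a',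
    aM (L' := L') b'] at e'
  obtain ⟨h1, h3⟩ := h.uniq e'
  exact ⟨IsFractionRing.injective R' L' h1, IsFractionRing.injective R' L' h3⟩

theorem QD.dvd (d r : R') : (t - algebraMap R' R d) ∣ algebraMap R' R r ↔ δ - d ^ 2 ∣ r := by
  constructor
  · rintro ⟨x, hx⟩
    obtain ⟨a, b, rfl⟩ := h.dec x
    have e : algebraMap R' R r + algebraMap R' R 0 * t =
        algebraMap R' R (b * δ - d * a) + algebraMap R' R (a - d * b) * t := by
      rw [hx]
      simp only [map_sub, map_mul, map_zero, ← h.sq]
      ring
    obtain ⟨h1, h3⟩ := h.uniqR e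
    refine ⟨b, ?_⟩
    have h4 : a = d * b := by linear_combination -h3
    rw [h1, h4]
    ring
  · rintro ⟨s, rfl⟩
    refine ⟨(t + algebraMap R' R d) * algebraMap R' R s, ?_⟩
    rw [map_mul, map_sub, map_pow, ← h.sq]
    ring

theorem QD.prime {d : R'} (hp : Prime (δ - d ^ 2)) : Prime (t - algebraMap R' R d) := by
  refine ⟨?_, ?_, ?_⟩
  · intro h0
    have h1 : (t - algebraMap R' R d) ∣ algebraMap R' R 0 := by rw [map_zero]; exact dvd_zero _
    have h3 : algebraMap R' R (δ - d ^ 2) = 0 := by
      rw [map_sub, map_pow, ← h.sq, sub_eq_zero.1 h0, sub_self]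
    apply hp.ne_zero
    apply FaithfulSMul.algebraMap_injective R' R
    rw [h3, map_zero]
  · intro hu
    have h1 : (t - algebraMap R' R d) ∣ algebraMap R' R 1 := by
      rw [map_one]; exact hu.dvd
    rw [h.dvd] at h1
    exact hp.not_unit (isUnit_of_dvd_one h1)
  · intro x y hxy
    obtain ⟨a, b, hx⟩ := h.dec x
    obtain ⟨a', b', hy⟩ := h.dec y
    have ex : x = algebraMap R' R (a + b * d) + (t - algebraMap R' R d) * algebraMap R' R b := by
      rw [hx, map_add, map_mul]; ring
    have ey : y = algebraMap R' R (a' + b' * d) + (t - algebraMap R' R d) * algebraMap R' R b' := by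
      rw [hy, map_add, map_mul]; ring
    have e1 : (t - algebraMap R' R d) ∣ algebraMap R' R ((a + b * d) * (a' + b' * d)) := by
      have e3 : algebraMap R' R ((a + b * d) * (a' + b' * d)) = x * y - (t - algebraMap R' R d) *
          (algebraMap R' R b * y + algebraMap R' R (a + b * d) * algebraMap R' R b') := by
        rw [map_mul, ex, ey]; ring
      rw [e3]
      exact dvd_sub hxy (dvd_mul_right _ _)
    rw [h.dvd] at e1
    rcases hp.dvd_or_dvd e1 with e3 | e3
    · left
      rw [ex]
      exact dvd_add ((h.dvd d _).2 e3) (dvd_mul_right _ _)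
    · right
      rw [ey]
      exact dvd_add ((h.dvd d _).2 e3) (dvd_mul_right _ _)

theorem QD.ord' (v : HeightOneSpectrum R') :
    v.intValuation δ = 1 ∨ v.intValuation δ = exp (-1 : ℤ) := by
  have h1 := h.ord v
  have h3 := v.intValuation_le_one δ
  have h0 : v.intValuation δ ≠ 0 := fun h0 => by
    rw [h0] at h1
    exact absurd h1 (not_le.2 exp_pos)
  have e1 : exp (log (v.intValuation δ)) = v.intValuation δ := exp_log h0
  rw [← e1, exp_le_exp] at h1
  rw [← e1, ← exp_zero, exp_le_exp] at h3
  rw [← e1]
  have : log (v.intValuation δ) = 0 ∨ log (v.intValuation δ) = -1 := by omega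
  rcases this with h4 | h4
  · left; rw [h4, exp_zero]
  · right; rw [h4]

end quad

end Pool.Agent.TH115.GD
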