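import Pool.Agent.TH115.TC.Quad2

/-!
Quadratic extensions of Dedekind domains: ramification and even elements.
-/

set_option autoImplicit false
set_option linter.all false

open Polynomial IsDedekindDomain WithZero
open scoped Classical

namespace Pool.Agent.TH115.GD

theorem nsq_odd {Γ : WithZero (Multiplicative ℤ)} (h0 : Γ ≠ 0) :
    ¬ IsSquare (Γ ^ 2 * exp (-1 : ℤ)) := by
  rintro ⟨s, hs⟩
  have hs0 : s ≠ 0 := by
    rintro rfl
    rw [mul_zero] at hs
    exact mul_ne_zero (pow_ne_zero 2 h0) exp_ne_zero hs
  have e1 : exp (log Γ) = Γ := exp_log h0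
  have e3 : exp (log s) = s := exp_log hs0
  rw [← e1, ← e3, ← exp_nsmul, ← exp_add, ← exp_add, exp_inj] at hs
  simp only [nsmul_eq_mul] at hs
  push_cast at hs
  omega

section quad

variable {L' L R' R : Type} [Field L'] [Field L] [Algebra L' L] [CommRing R'] [IsDedekindDomain R']
  [Algebra R' L'] [IsFractionRing R' L'] [CommRing R] [IsDedekindDomain R] [Algebra R L]
  [IsFractionRing R L] [Algebra R' R] [Algebra R' L] [IsScalarTower R' L' L] [IsScalarTower R' R L]
  [Algebra.IsIntegral R' R] [Module.IsTorsionFree R' R] [FiniteDimensional L' L]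
  {δ : R'} {t : R} {σ : L ≃ₐ[L'] L} (h : QD δ t σ)

include h

omit h in
theorem val_over (w : HeightOneSpectrum R) (x : L') :
    (w.under R').valuation L' x ^ ((w.under R').asIdeal.ramificationIdx' w.asIdeal) =
      w.valuation L (algebraMap L' L x) := by
  haveI hlo : w.asIdeal.LiesOver (w.under R').asIdeal := ⟨rfl⟩
  exact HeightOneSpectrum.valuation_liesOver (A := R') L (w.under R') w x

omit h in
theorem int_over (w : HeightOneSpectrum R) (x : R') :
    (w.under R').intValuation x ^ ((w.under R').asIdeal.ramificationIdx' w.asIdeal) =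
      w.intValuation (algebraMap R' R x) := by
  haveI hlo : w.asIdeal.LiesOver (w.under R').asIdeal := ⟨rfl⟩
  exact HeightOneSpectrum.intValuation_liesOver (A := R') (w.under R') w x

omit h [FiniteDimensional L' L] [Algebra L' L] [Field L'] [Field L] [Algebra R' L']
  [IsFractionRing R' L'] [Algebra R L] [IsFractionRing R L] [Algebra R' L]
  [IsScalarTower R' L' L] [IsScalarTower R' R L] in
theorem ram_ne (w : HeightOneSpectrum R) :
    (w.under R').asIdeal.ramificationIdx' w.asIdeal ≠ 0 := by
  haveI hlo : w.asIdeal.LiesOver (w.under R').asIdeal := ⟨rfl⟩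
  exact Ideal.IsDedekindDomain.ramificationIdx'_ne_zero_of_liesOver w.asIdeal (w.under R').ne_bot

/-- The primes which do not divide `δ` are unramified. -/
theorem QD.unram (w : HeightOneSpectrum R) (hw : (w.under R').intValuation δ = 1) :
    (w.under R').asIdeal.ramificationIdx' w.asIdeal = 1 := by
  set v := w.under R' with hv
  set e := v.asIdeal.ramificationIdx' w.asIdeal with he
  have he0 : e ≠ 0 := ram_ne w
  obtain ⟨x0, hx0, hx1⟩ := sel_elt (R' := R') w
  set s := galRestrict R' L' L R σ with hs
  have hst : s t = -t := by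
    apply IsFractionRing.injective R L
    rw [algebraMap_galRestrict_apply R' σ t, h.conj, map_neg]
  have hsx : s x0 ∈ w.asIdeal := by
    have h1 := hx1 (cm (s : R ≃+* R) w) (by
      apply HeightOneSpectrum.ext
      ext r
      show s (algebraMap R' R r) ∈ w.asIdeal ↔ algebraMap R' R r ∈ w.asIdeal
      rw [s.commutes])
    exact h1
  have hx : x0 ∈ w.asIdeal := hx1 w rfl
  obtain ⟨a, b, hab⟩ := h.dec x0
  have hsab : s x0 = algebraMap R' R a - algebraMap R' R b * t := by
    rw [hab, map_add, map_mul, s.commutes, s.commutes, hst]; ring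
  have h2 : IsUnit (2 : R) := by
    have := h.two.map (algebraMap R' R)
    rwa [map_ofNat] at this
  have h2w : (2 : R) ∉ w.asIdeal := fun h3 => w.isPrime.ne_top (Ideal.eq_top_of_isUnit_mem _ h3 h2)
  have htw : t ∉ w.asIdeal := by
    intro h3
    have h4 : algebraMap R' R δ ∈ w.asIdeal := by
      rw [← h.sq, pow_two]; exact Ideal.mul_mem_left _ _ h3
    rw [HeightOneSpectrum.intValuation_eq_one_iff] at hw
    exact hw h4
  haveI := w.isPrime
  have ha : algebraMap R' R a ∈ w.asIdeal := by
    have h3 : (2 : R) * algebraMap R' R a ∈ w.asIdeal := by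
      have h4 : (2 : R) * algebraMap R' R a = x0 + s x0 := by rw [hsab, hab]; ring
      rw [h4]
      exact Ideal.add_mem _ hx hsx
    exact (w.isPrime.mem_or_mem h3).resolve_left h2w
  have hb : algebraMap R' R b ∈ w.asIdeal := by
    have h3 : (2 : R) * (algebraMap R' R b * t) ∈ w.asIdeal := by
      have h4 : (2 : R) * (algebraMap R' R b * t) = x0 - s x0 := by rw [hsab, hab]; ring
      rw [h4]
      exact Ideal.sub_mem _ hx hsx
    exact (w.isPrime.mem_or_mem ((w.isPrime.mem_or_mem h3).resolve_left h2w)).resolve_right htw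
  have key : ∀ c : R', algebraMap R' R c ∈ w.asIdeal →
      w.intValuation (algebraMap R' R c) ≤ exp (-(e : ℤ)) := by
    intro c hc
    have hcv : c ∈ v.asIdeal := hc
    have h3 : v.intValuation c ≤ exp (-((1 : ℕ) : ℤ)) := by
      rw [v.intValuation_le_pow_iff_mem, pow_one]
      exact hcv
    rw [← int_over w c]
    calc v.intValuation c ^ e ≤ (exp (-((1 : ℕ) : ℤ))) ^ e := pow_le_pow_left₀ zero_le h3 e
      _ = exp (-(e : ℤ)) := by
        rw [← exp_nsmul]
        congr 1
        simp
  have hfin : w.intValuation x0 ≤ exp (-(e : ℤ)) := by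
    rw [hab]
    refine (Valuation.map_add _ _ _).trans (max_le (key a ha) ?_)
    rw [map_mul]
    calc w.intValuation (algebraMap R' R b) * w.intValuation t
        ≤ exp (-(e : ℤ)) * 1 := mul_le_mul' (key b hb) (w.intValuation_le_one t)
      _ = _ := mul_one _
  rw [hx0, exp_le_exp] at hfin
  omega

/-- The primes which divide `δ` are ramified. -/
theorem QD.ram (w : HeightOneSpectrum R) (hw : (w.under R').intValuation δ = exp (-1 : ℤ)) :
    (w.under R').asIdeal.ramificationIdx' w.asIdeal = 2 ∧ w.intValuation t = exp (-1 : ℤ) := by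
  set v := w.under R' with hv
  set e := v.asIdeal.ramificationIdx' w.asIdeal with he
  have he0 : e ≠ 0 := ram_ne w
  have ht2 : w.intValuation t ^ 2 = exp (-(e : ℤ)) := by
    rw [← map_pow, h.sq, ← int_over w δ, hw, ← exp_nsmul]
    congr 1
    rw [← he]
    simp
  have ht0 : w.intValuation t ≠ 0 := by
    intro h0
    rw [h0, zero_pow two_ne_zero] at ht2
    exact exp_ne_zero ht2.symm
  have et : exp (log (w.intValuation t)) = w.intValuation t := exp_log ht0
  set f := -log (w.intValuation t) with hf
  have et' : w.intValuation t = exp (-f) := by rw [← et, hf, neg_neg]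
  have hef : (e : ℤ) = 2 * f := by
    rw [et', ← exp_nsmul, exp_inj] at ht2
    simp only [nsmul_eq_mul] at ht2
    push_cast at ht2
    omega
  have hf1 : 1 ≤ f := by omega
  obtain ⟨x0, hx0, -⟩ := sel_elt (R' := R') w
  obtain ⟨a, b, hab⟩ := h.dec x0
  have hbt : w.intValuation (algebraMap R' R b * t) ≤ exp (-f) := by
    rw [map_mul, ← et']
    calc _ ≤ 1 * w.intValuation t := mul_le_mul_left (w.intValuation_le_one _) _
      _ = _ := one_mul _
  have ha : w.intValuation (algebraMap R' R a) ≤ exp (-f) := by
    by_cases hav : a ∈ v.asIdeal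
    · have h3 : v.intValuation a ≤ exp (-((1 : ℕ) : ℤ)) := by
        rw [v.intValuation_le_pow_iff_mem, pow_one]
        exact hav
      rw [← int_over w a]
      calc v.intValuation a ^ e ≤ (exp (-((1 : ℕ) : ℤ))) ^ e := pow_le_pow_left₀ zero_le h3 e
        _ = exp (-(e : ℤ)) := by
          rw [← exp_nsmul]
          congr 1
          simp
        _ ≤ exp (-f) := by rw [exp_le_exp]; omega
    · exfalso
      have h3 : w.intValuation (algebraMap R' R a) = 1 := by
        rw [← int_over w a, (v.intValuation_eq_one_iff).2 hav, one_pow]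
      have h4 : w.intValuation (algebraMap R' R b * t) < w.intValuation (algebraMap R' R a) := by
        rw [h3]
        refine lt_of_le_of_lt hbt ?_
        rw [← exp_zero, exp_lt_exp]
        omega
      have h5 := Valuation.map_add_eq_of_lt_left w.intValuation h4
      rw [← hab, hx0, h3, ← exp_zero, exp_inj] at h5
      omega
  have hfin : w.intValuation x0 ≤ exp (-f) := by
    rw [hab]
    exact (Valuation.map_add _ _ _).trans (max_le ha hbt)
  rw [hx0, exp_le_exp] at hfin
  have hf2 : f = 1 := by omega
  refine ⟨by omega, ?_⟩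
  rw [et', hf2]

/-- The norm of an even element. -/
theorem QD.norm_even {u v : L'} (hz : algebraMap L' L u + algebraMap L' L v * algebraMap R L t ≠ 0)
    (hev : ∀ w : HeightOneSpectrum R, IsSquare (w.valuation L
      (algebraMap L' L u + algebraMap L' L v * algebraMap R L t))) (p : HeightOneSpectrum R') :
    IsSquare (p.valuation L' (u ^ 2 - algebraMap R' L' δ * v ^ 2)) ∧
      (p.intValuation δ = exp (-1 : ℤ) → u ≠ 0 ∧
        p.valuation L' ((u ^ 2 - algebraMap R' L' δ * v ^ 2) / u ^ 2 - 1) < 1) := by
  obtain ⟨w, rfl⟩ := exists_over (B := R) p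
  have hord := h.ord' (w.under R')
  set z := algebraMap L' L u + algebraMap L' L v * algebraMap R L t with hzdef
  have hN : algebraMap L' L (u ^ 2 - algebraMap R' L' δ * v ^ 2) = z * σ z := by
    rw [h.inL (x := z) (u := u) (v := v) rfl, hzdef, map_sub, map_mul, map_pow, map_pow, ← h.sqL]
    ring
  rcases hord with h1 | h1
  · refine ⟨?_, fun h3 => ?_⟩
    · have h3 := val_over (R' := R') (L' := L') (L := L) w (u ^ 2 - algebraMap R' L' δ * v ^ 2)
      rw [h.unram w h1, pow_one] at h3
      rw [h3, hN, map_mul]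
      refine IsSquare.mul (hev w) ?_
      have h4 := cm_val ((galRestrict R' L' L R σ : R ≃ₐ[R'] R) : R ≃+* R) (L := L)
        (σ := (σ : L →+* L)) (fun x => (algebraMap_galRestrict_apply R' σ x).symm) w z
      have h5 : w.valuation L (σ z) = w.valuation L ((σ : L →+* L) z) := rfl
      rw [h5, ← h4]
      exact hev _
    · rw [h1, ← exp_zero, exp_inj] at h3
      omega
  · obtain ⟨h3, h4⟩ := h.ram w h1
    set q := w.under R' with hq
    have wu : ∀ y : L', w.valuation L (algebraMap L' L y) = q.valuation L' y ^ 2 := fun y => by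
      have h5 := val_over (R' := R') (L := L) w y
      rw [← h5]
      congr 1
      first | done | exact h3.symm
    have wt : w.valuation L (algebraMap R L t) = exp (-1 : ℤ) := by
      rw [w.valuation_of_algebraMap, h4]
    have wz := hev w
    have hlt : w.valuation L (algebraMap L' L v * algebraMap R L t) <
        w.valuation L (algebraMap L' L u) := by
      by_contra hcon
      rw [not_lt] at hcon
      rw [map_mul, wu, wu, wt] at hcon
      by_cases hv0 : v = 0
      · rw [hv0, map_zero, zero_pow two_ne_zero, zero_mul] at hcon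
        have h5 : q.valuation L' u ^ 2 = 0 := le_antisymm hcon zero_le
        have h6 : u = 0 := by
          by_contra hu
          exact pow_ne_zero 2 ((Valuation.ne_zero_iff _).2 hu) h5
        apply hz
        rw [hzdef, hv0, h6, map_zero, zero_mul, zero_add]
      · have hqv : q.valuation L' v ≠ 0 := (Valuation.ne_zero_iff _).2 hv0
        have hlt' : q.valuation L' u ^ 2 < q.valuation L' v ^ 2 * exp (-1 : ℤ) := by
          refine lt_of_le_of_ne hcon fun h7 => ?_
          exact nsq_odd hqv ⟨q.valuation L' u, by rw [← h7, pow_two]⟩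
        have h8 : w.valuation L z = q.valuation L' v ^ 2 * exp (-1 : ℤ) := by
          rw [hzdef, Valuation.map_add_eq_of_lt_right, map_mul, wu, wt]
          rw [map_mul, wu, wu, wt]
          exact hlt'
        rw [h8] at wz
        exact nsq_odd hqv wz
    rw [map_mul, wu, wu, wt] at hlt
    have hu0 : u ≠ 0 := by
      rintro rfl
      rw [map_zero, zero_pow two_ne_zero] at hlt
      exact absurd hlt (by simp)
    have hqu : q.valuation L' u ≠ 0 := (Valuation.ne_zero_iff _).2 hu0
    have hδv : q.valuation L' (algebraMap R' L' δ * v ^ 2) =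
        q.valuation L' v ^ 2 * exp (-1 : ℤ) := by
      rw [map_mul, map_pow, q.valuation_of_algebraMap, h1, mul_comm]
    have hlt2 : q.valuation L' (algebraMap R' L' δ * v ^ 2) < q.valuation L' (u ^ 2) := by
      rw [hδv, map_pow]; exact hlt
    refine ⟨?_, fun _ => ⟨hu0, ?_⟩⟩
    · rw [Valuation.map_sub_eq_of_lt_left _ hlt2, map_pow, pow_two]
      exact ⟨_, rfl⟩
    · have e1 : (u ^ 2 - algebraMap R' L' δ * v ^ 2) / u ^ 2 - 1 =
          -(algebraMap R' L' δ * v ^ 2 / u ^ 2) := by
        field_simp
        ring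
      rw [e1, Valuation.map_neg, map_div₀]
      have h9 : q.valuation L' (u ^ 2) ≠ 0 := (Valuation.ne_zero_iff _).2 (pow_ne_zero 2 hu0)
      exact (div_lt_one₀ (zero_lt_iff.2 h9)).2 hlt2

/-- If the norm is a square, the element comes from `L'`. -/
theorem QD.descend {u v s : L'}
    (hz : algebraMap L' L u + algebraMap L' L v * algebraMap R L t ≠ 0)
    (hN : u ^ 2 - algebraMap R' L' δ * v ^ 2 = s ^ 2)
    (hev : ∀ w : HeightOneSpectrum R, IsSquare (w.valuation L
      (algebraMap L' L u + algebraMap L' L v * algebraMap R L t))) :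
    ∃ (a : L') (η : L), a ≠ 0 ∧ η ≠ 0 ∧
      algebraMap L' L u + algebraMap L' L v * algebraMap R L t = algebraMap L' L a * η ^ 2 ∧
      ∀ p : HeightOneSpectrum R', p.intValuation δ = 1 → IsSquare (p.valuation L' a) := by
  set z := algebraMap L' L u + algebraMap L' L v * algebraMap R L t with hzdef
  have hNL : (algebraMap L' L s) ^ 2 = (algebraMap L' L u) ^ 2 -
      algebraMap R L t ^ 2 * (algebraMap L' L v) ^ 2 := by
    rw [← map_pow, ← hN, map_sub, map_mul, map_pow, map_pow, ← h.sqL]
  have key : ∃ (a : L') (η : L), a ≠ 0 ∧ η ≠ 0 ∧ z = algebraMap L' L a * η ^ 2 := by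
    by_cases h0 : z + algebraMap L' L s = 0
    · have h1 : z = algebraMap L' L (-s) := by rw [map_neg]; linear_combination h0
      refine ⟨-s, 1, ?_, one_ne_zero, by rw [h1]; ring⟩
      intro h3
      rw [h3, map_zero] at h1
      exact hz h1
    · have h1 : (z + algebraMap L' L s) ^ 2 = z * algebraMap L' L (2 * u + 2 * s) := by
        rw [map_add, map_mul, map_mul, map_ofNat, hzdef]
        linear_combination hNL
      have h3 : (2 * u + 2 * s : L') ≠ 0 := by
        intro h3
        rw [h3, map_zero, mul_zero] at h1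
        exact h0 (pow_eq_zero_iff two_ne_zero |>.1 h1)
      have h3' : algebraMap L' L (2 * u + 2 * s) ≠ 0 := (_root_.map_ne_zero _).2 h3
      refine ⟨2 * u + 2 * s, (z + algebraMap L' L s) / algebraMap L' L (2 * u + 2 * s), h3,
        div_ne_zero h0 h3', ?_⟩
      rw [div_pow, h1, mul_div_assoc']
      rw [eq_div_iff (pow_ne_zero 2 h3')]
      ring
  obtain ⟨a, η, ha, hη, e⟩ := key
  refine ⟨a, η, ha, hη, e, fun p hp => ?_⟩
  obtain ⟨w, rfl⟩ := exists_over (B := R) p
  have h1 := val_over (R' := R') (L' := L') (L := L) w a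
  rw [h.unram w hp, pow_one] at h1
  rw [h1]
  have h3 := hev w
  rw [e, map_mul, map_pow] at h3
  have hη' : w.valuation L η ≠ 0 := (Valuation.ne_zero_iff _).2 hη
  obtain ⟨r, hr⟩ := h3
  refine ⟨r / w.valuation L η, ?_⟩
  rw [div_mul_div_comm, ← hr, eq_div_iff (mul_ne_zero hη' hη'), pow_two]

end quad

end Pool.Agent.TH115.GD
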