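import Pool.Agent.TH115.TC.CritM

/-!
The roots of the cubic polynomial in a separable closure.
-/

set_option autoImplicit false
set_option linter.all false

open Polynomial IsDedekindDomain WeierstrassCurve WeierstrassCurve.Affine WithZero
open scoped Classical

namespace Pool.Agent.TH115.GD

section disc

variable {K : Type} [Field K]

/-- The discriminant of the cubic polynomial. -/
theorem crvC_disc (a b c : K) : (crvC a b c).Δ =
    16 * (a ^ 2 * b ^ 2 - 4 * b ^ 3 - 4 * a ^ 3 * c - 27 * c ^ 2 + 18 * a * b * c) := by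
  simp only [WeierstrassCurve.Δ, WeierstrassCurve.b₂, WeierstrassCurve.b₄, WeierstrassCurve.b₆,
    WeierstrassCurve.b₈, crvC]
  ring

theorem cub_separable {a b c : K}
    (hD : a ^ 2 * b ^ 2 - 4 * b ^ 3 - 4 * a ^ 3 * c - 27 * c ^ 2 + 18 * a * b * c ≠ 0) :
    (X ^ 3 + C a * X ^ 2 + C b * X + C c : K[X]).Separable := by
  set D := a ^ 2 * b ^ 2 - 4 * b ^ 3 - 4 * a ^ 3 * c - 27 * c ^ 2 + 18 * a * b * c with hDef
  have hd : derivative (X ^ 3 + C a * X ^ 2 + C b * X + C c : K[X]) =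
      3 * X ^ 2 + 2 * C a * X + C b := by
    simp only [derivative_add, derivative_mul, derivative_pow, derivative_X, derivative_C]
    push_cast
    simp only [map_ofNat]
    ring
  refine ⟨C D⁻¹ * (3 * (6 * C b - 2 * C a ^ 2) * X + 2 * C a * (6 * C b - 2 * C a ^ 2) -
    3 * (9 * C c - C a * C b)), -(C D⁻¹ * ((6 * C b - 2 * C a ^ 2) * X ^ 2 +
    (C a * (6 * C b - 2 * C a ^ 2) - (9 * C c - C a * C b)) * X +
    (4 * C b ^ 2 - C a ^ 2 * C b - 3 * C a * C c))), ?_⟩
  rw [hd]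
  have h1 : C D⁻¹ * (C a ^ 2 * C b ^ 2 - 4 * C b ^ 3 - 4 * C a ^ 3 * C c - 27 * C c ^ 2 +
      18 * C a * C b * C c) = 1 := by
    have h3 : (C a ^ 2 * C b ^ 2 - 4 * C b ^ 3 - 4 * C a ^ 3 * C c - 27 * C c ^ 2 +
      18 * C a * C b * C c : K[X]) = C D := by
      rw [hDef]
      simp only [map_sub, map_add, map_mul, map_pow, map_ofNat]
    rw [h3, ← C_mul, inv_mul_cancel₀ hD, C_1]
  linear_combination h1

end disc

section roots

variable {K Ω : Type} [Field K] [Field Ω] [Algebra K Ω] [IsSepClosed Ω]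

theorem cub_coeff {L : Type} [Field L] {p q r p' q' r' : L}
    (h : (X ^ 3 + C p * X ^ 2 + C q * X + C r : L[X]) = X ^ 3 + C p' * X ^ 2 + C q' * X + C r') :
    p = p' ∧ q = q' ∧ r = r' := by
  have c2 := congrArg (fun p => coeff p 2) h
  have c1 := congrArg (fun p => coeff p 1) h
  have c0 := congrArg (fun p => coeff p 0) h
  simp [coeff_X, coeff_C] at c2 c1 c0
  exact ⟨c2, c1, c0⟩

theorem cubP_sep {W : WeierstrassCurve K} (h1 : W.a₁ = 0) (h3 : W.a₃ = 0) (hΔ : W.Δ ≠ 0) :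
    (cubP W K).Separable := by
  have e : W = crvC W.a₂ W.a₄ W.a₆ := by
    ext
    · exact h1
    · rfl
    · exact h3
    · rfl
    · rfl
  rw [e, crvC_disc] at hΔ
  exact cub_separable (right_ne_zero_of_mul hΔ)

/-- The roots of the cubic. -/
theorem exists_isC {W : WeierstrassCurve K} (h1 : W.a₁ = 0) (h3 : W.a₃ = 0) (hΔ : W.Δ ≠ 0)
    (h2 : (2 : K) ≠ 0) {a : Ω} (ha : cub W a = 0) :
    ∃ b c : Ω, IsC (W.baseChange Ω).toAffine a b c := by
  set Q := (cubP W K).map (algebraMap K Ω) with hQ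
  have hsep : Q.Separable := (cubP_sep h1 h3 hΔ).map
  obtain ⟨hd, hm⟩ := cubP_deg (W := W) (F := K)
  have hQm : Q.Monic := hm.map _
  have hQs : Q.Splits := IsSepClosed.splits_of_separable Q hsep
  have hcard : Q.roots.card = 3 := by
    rw [← hQs.natDegree_eq_card_roots, hQ, natDegree_map, hd]
  obtain ⟨r1, r2, r3, hr⟩ := Multiset.card_eq_three.1 hcard
  have hnd : Q.roots.Nodup := nodup_roots hsep
  rw [hr] at hnd
  simp only [Multiset.insert_eq_cons, Multiset.nodup_cons, Multiset.mem_cons,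
    Multiset.mem_singleton, not_or, Multiset.nodup_singleton, and_true] at hnd
  have hprod := hQs.eq_prod_roots_of_monic hQm
  rw [hr] at hprod
  simp only [Multiset.insert_eq_cons, Multiset.map_cons, Multiset.map_singleton,
    Multiset.prod_cons, Multiset.prod_singleton] at hprod
  have hexp : (X - C r1) * ((X - C r2) * (X - C r3)) = X ^ 3 + C (-(r1 + r2 + r3)) * X ^ 2 +
      C (r1 * r2 + r1 * r3 + r2 * r3) * X + C (-(r1 * r2 * r3)) := by
    simp only [map_neg, map_add, map_mul]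
    ring
  rw [hexp] at hprod
  have hQe : Q = X ^ 3 + C (algebraMap K Ω W.a₂) * X ^ 2 + C (algebraMap K Ω W.a₄) * X +
      C (algebraMap K Ω W.a₆) := by
    rw [hQ]
    simp [cubP]
  rw [hQe] at hprod
  obtain ⟨c2, c1, c0⟩ := cub_coeff hprod
  have h2Ω : (2 : Ω) ≠ 0 := by
    rw [← map_ofNat (algebraMap K Ω) 2]
    exact (_root_.map_ne_zero _).2 h2
  have hC0 : IsC (W.baseChange Ω).toAffine r1 r2 r3 := by
    refine ⟨?_, ?_, ?_, ?_, ?_, h2Ω, hnd.1.1, hnd.1.2, hnd.2⟩
    · show algebraMap K Ω W.a₁ = 0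
      rw [h1, map_zero]
    · show algebraMap K Ω W.a₃ = 0
      rw [h3, map_zero]
    · show algebraMap K Ω W.a₂ = _
      rw [c2]
    · show algebraMap K Ω W.a₄ = _
      rw [c1]
    · show algebraMap K Ω W.a₆ = _
      rw [c0]
  obtain ⟨b, c, h⟩ := hC0.at_root (hC0.root ha)
  exact ⟨b, c, h⟩

end roots

end Pool.Agent.TH115.GD
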