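import Pool.Agent.TH115.TC.ParC

/-!
Smoothness of the trigonal curve at the level of completions.
-/

set_option autoImplicit false
set_option linter.all false

open Polynomial IsDedekindDomain WeierstrassCurve WeierstrassCurve.Affine WithZero Filter Topology
open scoped Classical

namespace Pool.Agent.TH115.GD

section density

variable {A F : Type*} [CommRing A] [IsDedekindDomain A] [Field F] [Algebra A F]
  [IsFractionRing A F] (v : HeightOneSpectrum A)

theorem approx (x : v.adicCompletion F) (hx : Valued.v x ≤ 1) :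
    ∃ p : A, Valued.v (x - algebraMap F (v.adicCompletion F) (algebraMap A F p)) ≤
      exp (-2 : ℤ) := by
  have vx : ∀ x : F, Valued.v (algebraMap F (v.adicCompletion F) x) = v.valuation F x :=
    fun x => HeightOneSpectrum.valuedAdicCompletion_eq_valuation' v x
  obtain ⟨π, hπ⟩ := v.valuation_exists_uniformizer F
  have hπ0 : π ≠ 0 := by
    rintro rfl
    rw [map_zero] at hπ
    exact exp_ne_zero hπ.symm
  have hπ2 : v.valuation F (π ^ 2) = exp (-2 : ℤ) := by
    rw [map_pow, hπ, ← exp_nsmul]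
    rfl
  have hne : (Valued.v (R := v.adicCompletion F)).restrict
      (algebraMap F (v.adicCompletion F) (π ^ 2)) ≠ 0 := by
    rw [Valuation.ne_zero_iff, _root_.map_ne_zero]
    exact pow_ne_zero 2 hπ0
  have hU1 : {z : v.adicCompletion F | Valued.v z < exp (-2 : ℤ)} ∈ 𝓝 (0 : v.adicCompletion F) := by
    rw [Valued.mem_nhds_zero]
    refine ⟨Units.mk0 _ hne, fun z hz => ?_⟩
    have h1 := (Valuation.restrict_lt_iff _).1 hz
    rw [vx, hπ2] at h1
    exact h1
  have ht : Tendsto (fun z : v.adicCompletion F => x - z) (𝓝 x) (𝓝 0) := by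
    have h5 : Tendsto (fun z : v.adicCompletion F => x - z) (𝓝 x) (𝓝 (x - x)) :=
      tendsto_const_nhds.sub tendsto_id
    rwa [sub_self] at h5
  obtain ⟨z, hz, y, rfl⟩ := mem_closure_iff_nhds.1
    (HeightOneSpectrum.denseRange_algebraMap F v x) _ (ht hU1)
  have hz' : Valued.v (x - algebraMap F (v.adicCompletion F) y) < exp (-2 : ℤ) := hz
  have hy1 : v.valuation F y ≤ 1 := by
    rw [← vx]
    have e : algebraMap F (v.adicCompletion F) y = x - (x - algebraMap F (v.adicCompletion F) y) := by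
      ring
    rw [e]
    refine (Valuation.map_sub _ _ _).trans (max_le hx (hz'.le.trans ?_))
    rw [← exp_zero, exp_le_exp]
    norm_num
  obtain ⟨p, hp⟩ := v.exists_valuation_sub_lt_of_integer hy1 (Units.mk0 (exp (-2 : ℤ)) exp_ne_zero)
  refine ⟨p, ?_⟩
  have e : x - algebraMap F (v.adicCompletion F) (algebraMap A F p) =
      (x - algebraMap F (v.adicCompletion F) y) -
        algebraMap F (v.adicCompletion F) (algebraMap A F p - y) := by
    rw [map_sub]; ring
  rw [e]
  refine (Valuation.map_sub _ _ _).trans (max_le hz'.le ?_)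
  rw [vx]
  exact hp.le

end density

section smooth

variable {k k' K F : Type} [Field k] [Field k'] [Algebra k k'] [Field K] [Algebra k[X] K]
  [Field F] [Algebra k'[X] F] [IsFractionRing k'[X] F] [Algebra K F]

/-- The curve `y ^ 2 = x ^ 3 + a2 x ^ 2 + a4 x + a6`. -/
def crvC {K : Type*} [Field K] (a2 a4 a6 : K) : WeierstrassCurve K := ⟨0, a2, 0, a4, a6⟩

theorem hsm_of (hKF : ∀ p : k[X], algebraMap K F (algebraMap k[X] K p) =
      algebraMap k'[X] F (p.map (algebraMap k k'))) {a2 a4 a6 : k[X]} (hS : SmoothC a2 a4 a6)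
    (v : HeightOneSpectrum k'[X]) (x : Comp k'[X] F v)
    (vL : Valuation (Comp k'[X] F v) (WithZero (Multiplicative ℤ)))
    (hvL : vL = (Valued.v : Valuation (v.adicCompletion F) (WithZero (Multiplicative ℤ))))
    (hx : vL x ≤ 1)
    (h1 : vL (cub (crvC (algebraMap k[X] K a2) (algebraMap k[X] K a4) (algebraMap k[X] K a6)) x) < 1)
    (h3 : vL (cub' (crvC (algebraMap k[X] K a2) (algebraMap k[X] K a4) (algebraMap k[X] K a6)) x)
      < 1) :
    vL (cub (crvC (algebraMap k[X] K a2) (algebraMap k[X] K a4) (algebraMap k[X] K a6)) x) =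
      exp (-1 : ℤ) := by
  set W := crvC (algebraMap k[X] K a2) (algebraMap k[X] K a4) (algebraMap k[X] K a6) with hW
  have vx : ∀ x : F, vL (algebraMap F (Comp k'[X] F v) x) = v.valuation F x := fun x => by
    rw [hvL]
    exact HeightOneSpectrum.valuedAdicCompletion_eq_valuation' v x
  have vi : ∀ p : k'[X], vL (algebraMap F (Comp k'[X] F v) (algebraMap k'[X] F p)) = v.intValuation p := fun p => by
    rw [vx, v.valuation_of_algebraMap]
  have vi1 : ∀ p : k'[X], vL (algebraMap F (Comp k'[X] F v) (algebraMap k'[X] F p)) ≤ 1 := fun p => by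
    rw [vi]; exact v.intValuation_le_one p
  have eK : ∀ p : k[X], algebraMap K (Comp k'[X] F v) (algebraMap k[X] K p) =
      algebraMap F (Comp k'[X] F v) (algebraMap k'[X] F (p.map (algebraMap k k'))) := fun p => by
    rw [IsScalarTower.algebraMap_apply K F (Comp k'[X] F v), hKF]
  by_contra hne
  have h2 : vL (cub W x) ≤ exp (-2 : ℤ) := by
    by_cases h0 : vL (cub W x) = 0
    · rw [h0]; exact zero_le
    · have e : exp (log (vL (cub W x))) = vL (cub W x) := exp_log h0
      rw [← e, ← exp_zero, exp_lt_exp] at h1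
      rw [← e, exp_inj] at hne
      rw [← e, exp_le_exp]
      omega
  obtain ⟨p, hp⟩ : ∃ p : k'[X], vL (x - algebraMap F (Comp k'[X] F v) (algebraMap k'[X] F p)) ≤ exp (-2 : ℤ) := by
    have hx' : (Valued.v (R := v.adicCompletion F) (Γ₀ := WithZero (Multiplicative ℤ))) x ≤ 1 := by
      rw [hvL] at hx; exact hx
    obtain ⟨p, hp⟩ := approx v x hx'
    refine ⟨p, ?_⟩
    rw [hvL]
    exact hp
  set y := algebraMap F (Comp k'[X] F v) (algebraMap k'[X] F p) with hy
  set A2 := algebraMap K (Comp k'[X] F v) W.a₂ with hA2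
  set A4 := algebraMap K (Comp k'[X] F v) W.a₄ with hA4
  set A6 := algebraMap K (Comp k'[X] F v) W.a₆ with hA6
  have w2 : vL A2 ≤ 1 := by rw [hA2]; show vL (algebraMap K (Comp k'[X] F v) (algebraMap k[X] K a2)) ≤ 1; rw [eK]; exact vi1 _
  have w4 : vL A4 ≤ 1 := by rw [hA4]; show vL (algebraMap K (Comp k'[X] F v) (algebraMap k[X] K a4)) ≤ 1; rw [eK]; exact vi1 _
  have wy : vL y ≤ 1 := vi1 p
  have wn : ∀ n : ℕ, vL (n : (Comp k'[X] F v)) ≤ 1 := fun n => by
    have := vi1 (n : k'[X])
    rwa [map_natCast, map_natCast] at this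
  have two : exp (-2 : ℤ) < (1 : WithZero (Multiplicative ℤ)) := by
    rw [← exp_zero, exp_lt_exp]; norm_num
  have ad : ∀ {s t : (Comp k'[X] F v)}, vL s ≤ 1 → vL t ≤ 1 → vL (s + t) ≤ 1 := fun hs ht =>
    (Valuation.map_add _ _ _).trans (max_le hs ht)
  have mu : ∀ {s t : (Comp k'[X] F v)}, vL s ≤ 1 → vL t ≤ 1 → vL (s * t) ≤ 1 := fun hs ht => by
    rw [map_mul]; exact mul_le_one' hs ht
  have c1 : vL (cub W y) ≤ exp (-2 : ℤ) := by
    have e : cub W y = cub W x - (x - y) * (x * x + x * y + y * y + A2 * (x + y) + A4) := by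
      simp only [cub]
      ring
    rw [e]
    refine (Valuation.map_sub _ _ _).trans (max_le h2 ?_)
    rw [map_mul]
    calc vL (x - y) * vL (x * x + x * y + y * y + A2 * (x + y) + A4)
        ≤ exp (-2 : ℤ) * 1 := mul_le_mul' hp
          (ad (ad (ad (ad (mu hx hx) (mu hx wy)) (mu wy wy)) (mu w2 (ad hx wy))) w4)
      _ = exp (-2 : ℤ) := mul_one _
  have c3 : vL (cub' W y) < 1 := by
    have e : cub' W y = cub' W x - (x - y) * (((3 : ℕ) : (Comp k'[X] F v)) * (x + y) + ((2 : ℕ) : (Comp k'[X] F v)) * A2) := by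
      simp only [cub']
      push_cast
      ring
    rw [e]
    refine lt_of_le_of_lt (Valuation.map_sub _ _ _) (max_lt h3 ?_)
    rw [map_mul]
    calc vL (x - y) * vL (((3 : ℕ) : (Comp k'[X] F v)) * (x + y) + ((2 : ℕ) : (Comp k'[X] F v)) * A2)
        ≤ exp (-2 : ℤ) * 1 := mul_le_mul' hp (ad (mu (wn 3) (ad hx wy)) (mu (wn 2) w2))
      _ < 1 := by rw [mul_one]; exact two
  have e1 : cub W y = algebraMap F (Comp k'[X] F v) (algebraMap k'[X] F (p ^ 3 + a2.map (algebraMap k k') * p ^ 2 +
      a4.map (algebraMap k k') * p + a6.map (algebraMap k k'))) := by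
    simp only [cub, map_add, map_mul, map_pow, ← eK]
    rfl
  have e3 : cub' W y = algebraMap F (Comp k'[X] F v) (algebraMap k'[X] F (3 * p ^ 2 +
      2 * a2.map (algebraMap k k') * p + a4.map (algebraMap k k'))) := by
    simp only [cub', map_add, map_mul, map_pow, ← eK, map_ofNat]
    rfl
  rw [e1, vi] at c1
  rw [e3, vi] at c3
  refine smooth_poly hS (I := v.asIdeal) v.isPrime.ne_top (p := p) ?_ ?_
  · exact (v.intValuation_le_pow_iff_mem _ 2).1 (by exact_mod_cast c1)
  · rwa [HeightOneSpectrum.intValuation_lt_one_iff_mem] at c3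

end smooth

end Pool.Agent.TH115.GD
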