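import Pool.Agent.TH115.TC.Quad3
import Pool.Agent.TH115.SK.DecK

/-!
Construction of the quadratic extension `L = L'(t)` and of the integral closure.
-/

set_option autoImplicit false
set_option linter.all false

open Polynomial IsDedekindDomain WithZero
open scoped Classical

namespace Pool.Agent.TH115.GD

section conj

variable {L' L : Type} [Field L'] [Field L] [Algebra L' L] {t : L} {d : L'}

theorem conj_aux (ht : t ^ 2 = algebraMap L' L d) (h2 : (2 : L') ≠ 0)
    (hns : ∀ y : L', y ^ 2 ≠ d)
    (gen : ∀ x : L, ∃ u v : L', x = algebraMap L' L u + algebraMap L' L v * t) :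
    FiniteDimensional L' L ∧ Algebra.IsSeparable L' L ∧ ∃ σ : L ≃ₐ[L'] L, σ t = -t := by
  have hd : d ≠ 0 := fun h => hns 0 (by rw [h]; ring)
  have hfin : FiniteDimensional L' L := by
    let f : (L' × L') →ₗ[L'] L :=
      { toFun := fun p => p.1 • (1 : L) + p.2 • t
        map_add' := fun p q => by
          simp only [Prod.fst_add, Prod.snd_add, add_smul]
          ring
        map_smul' := fun c p => by
          simp only [Prod.smul_fst, Prod.smul_snd, smul_eq_mul, mul_smul, RingHom.id_apply,
            smul_add] }
    refine Module.Finite.of_surjective f fun x => ?_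
    obtain ⟨u, v, e⟩ := gen x
    refine ⟨(u, v), ?_⟩
    show u • (1 : L) + v • t = x
    rw [e, Algebra.smul_def, Algebra.smul_def, mul_one]
  set p : L'[X] := X ^ 2 - C d with hp
  have hps : p.Separable := by
    have := separable_X_pow_sub_C (n := 2) d (by exact_mod_cast h2) hd
    exact this
  have hfac : p.map (algebraMap L' L) = (X - C t) * (X - C (-t)) := by
    rw [hp, Polynomial.map_sub, Polynomial.map_pow, map_X, map_C, ← ht]
    simp only [C_pow, C_neg]
    ring
  have hmon : p.Monic := monic_X_pow_sub_C d two_ne_zero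
  haveI : p.IsSplittingField L' L := by
    constructor
    · rw [hfac]
      exact (Splits.X_sub_C t).mul (Splits.X_sub_C (-t))
    · rw [eq_top_iff]
      intro x _
      obtain ⟨u, v, e⟩ := gen x
      have htm : t ∈ Algebra.adjoin L' (p.rootSet L) := by
        apply Algebra.subset_adjoin
        rw [mem_rootSet]
        refine ⟨hmon.ne_zero, ?_⟩
        rw [hp, map_sub, map_pow, aeval_X, aeval_C, ht, sub_self]
      rw [e]
      exact add_mem (Subalgebra.algebraMap_mem _ u) (mul_mem (Subalgebra.algebraMap_mem _ v) htm)
  haveI : IsGalois L' L := IsGalois.of_separable_splitting_field (p := p) hps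
  refine ⟨hfin, inferInstance, ?_⟩
  have h1 : t ∉ Set.range (algebraMap L' L) := by
    rintro ⟨y, rfl⟩
    apply hns y
    apply (algebraMap L' L).injective
    rw [map_pow, ht]
  rw [IsGalois.mem_range_algebraMap_iff_fixed] at h1
  push Not at h1
  obtain ⟨σ, hσ⟩ := h1
  refine ⟨σ, ?_⟩
  have h3 : (σ t) ^ 2 = t ^ 2 := by rw [← map_pow, ht, σ.commutes]
  rcases sq_eq_sq_iff_eq_or_eq_neg.1 h3 with h4 | h4
  · exact absurd h4 hσ
  · exact h4

end conj

section mk

variable {L' L R' : Type} [Field L'] [Field L] [Algebra L' L] [CommRing R'] [IsDedekindDomain R']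
  [Algebra R' L'] [IsFractionRing R' L'] [Algebra R' L] [IsScalarTower R' L' L]

/-- The quadratic extension. -/
theorem mkQD {t : L} {δ : R'} (ht : t ^ 2 = algebraMap R' L δ) (two : IsUnit (2 : R'))
    (gen : ∀ x : L, ∃ u v : L', x = algebraMap L' L u + algebraMap L' L v * t)
    (ord : ∀ v : HeightOneSpectrum R', exp (-1 : ℤ) ≤ v.intValuation δ)
    (hq : ∃ v : HeightOneSpectrum R', v.intValuation δ = exp (-1 : ℤ)) :
    FiniteDimensional L' L ∧ IsDedekindDomain (integralClosure R' L) ∧
    IsFractionRing (integralClosure R' L) L ∧ Module.IsTorsionFree R' (integralClosure R' L) ∧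
    ∃ (t' : integralClosure R' L) (σ : L ≃ₐ[L'] L), algebraMap (integralClosure R' L) L t' = t ∧
      QD (L' := L') (R := integralClosure R' L) δ t' σ := by
  have hns : ∀ y : L', y ^ 2 ≠ algebraMap R' L' δ := by
    intro y hy
    obtain ⟨v, hv⟩ := hq
    have h1 : v.valuation L' (y ^ 2) = exp (-1 : ℤ) := by
      rw [hy, v.valuation_of_algebraMap, hv]
    have hy0 : v.valuation L' y ≠ 0 := by
      intro h0
      rw [map_pow, h0, zero_pow two_ne_zero] at h1
      exact exp_ne_zero h1.symm
    rw [map_pow, ← exp_log hy0, ← exp_nsmul, exp_inj] at h1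
    simp only [nsmul_eq_mul] at h1
    push_cast at h1
    omega
  have h2 : (2 : L') ≠ 0 := by
    have h1 := two.map (algebraMap R' L')
    rw [map_ofNat] at h1
    exact h1.ne_zero
  have htL : t ^ 2 = algebraMap L' L (algebraMap R' L' δ) := by
    rw [ht, ← IsScalarTower.algebraMap_apply R' L' L]
  obtain ⟨hfin, hsep, σ, hσ⟩ := conj_aux htL h2 hns gen
  haveI := hfin
  haveI := hsep
  have hint : IsIntegral R' t := by
    refine ⟨X ^ 2 - C δ, monic_X_pow_sub_C δ two_ne_zero, ?_⟩
    rw [eval₂_sub, eval₂_pow, eval₂_X, eval₂_C, ht, sub_self]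
  haveI hD : IsDedekindDomain (integralClosure R' L) := integralClosure.isDedekindDomain R' L' L
  haveI hF : IsFractionRing (integralClosure R' L) L :=
    integralClosure.isFractionRing_of_finite_extension L' L
  haveI hTF : Module.IsTorsionFree R' (integralClosure R' L) := by
    rw [Module.isTorsionFree_iff_algebraMap_injective]
    intro x y h
    have h1 := congrArg (algebraMap (integralClosure R' L) L) h
    rw [← IsScalarTower.algebraMap_apply R' (integralClosure R' L) L,
      ← IsScalarTower.algebraMap_apply R' (integralClosure R' L) L,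
      IsScalarTower.algebraMap_apply R' L' L, IsScalarTower.algebraMap_apply R' L' L] at h1
    exact IsFractionRing.injective R' L' ((algebraMap L' L).injective h1)
  refine ⟨hfin, hD, hF, hTF, ⟨t, hint⟩, σ, rfl, ?_⟩
  exact
    { two := two
      sq := by
        apply Subtype.ext
        exact ht
      gen := gen
      ord := ord
      conj := hσ
      ns := hns }

end mk

end Pool.Agent.TH115.GD
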