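import Pool.Agent.TH115.TC.Tower1

/-!
Squares modulo a prime, and the even elements of a quadratic extension.
-/

set_option autoImplicit false
set_option linter.all false

open Polynomial IsDedekindDomain WithZero
open scoped Classical

namespace Pool.Agent.TH115.GD

section modsq

variable {k : Type} [Field k]

/-- A constant which is a square modulo an irreducible polynomial of odd degree is a square. -/
theorem const_sq_mod {P : k[X]} (hP : Irreducible P) (hodd : Odd P.natDegree) {c : k} {e : k[X]}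
    (h : P ∣ e ^ 2 - C c) : IsSquare c := by
  haveI : Fact (Irreducible P) := ⟨hP⟩
  by_cases hc : c = 0
  · rw [hc]; exact IsSquare.zero
  have h1 : (AdjoinRoot.mk P e) ^ 2 = algebraMap k (AdjoinRoot P) c := by
    have h3 := AdjoinRoot.mk_eq_zero.2 h
    rw [map_sub, map_pow, sub_eq_zero] at h3
    rw [h3]
    rfl
  have hfr : Module.finrank k (AdjoinRoot P) = P.natDegree := by
    rw [(AdjoinRoot.powerBasis hP.ne_zero).finrank, AdjoinRoot.powerBasis_dim]
  have h3 := congrArg (Algebra.norm k) h1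
  rw [map_pow, Algebra.norm_algebraMap, hfr] at h3
  obtain ⟨m, hm⟩ := hodd
  refine ⟨Algebra.norm k (AdjoinRoot.mk P e) / c ^ m, ?_⟩
  have hcm : c ^ m ≠ 0 := pow_ne_zero m hc
  rw [div_mul_div_comm, ← pow_two, h3, hm, eq_div_iff (mul_ne_zero hcm hcm)]
  ring

theorem inv_mod {P n : k[X]} (hP : Irreducible P) (h : ¬ P ∣ n) : ∃ m, P ∣ m * n - 1 := by
  obtain ⟨a, b, e⟩ := (hP.coprime_iff_not_dvd).2 h
  exact ⟨b, -a, by linear_combination e⟩

end modsq

section red

variable {k : Type} [Field k] {L' R' : Type} [Field L'] [CommRing R'] [IsDedekindDomain R']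
  [Algebra R' L'] [IsFractionRing R' L']

theorem sq_red {π b : R'} (hπ0 : π ≠ 0) {v : HeightOneSpectrum R'}
    (hv : ∀ x, x ∈ v.asIdeal ↔ π ∣ x) (hb : ¬ π ∣ b) {y : L'}
    (hy : v.valuation L' (algebraMap R' L' b * y ^ 2 - 1) < 1) :
    ∃ n s : R', ¬ π ∣ s ∧ π ∣ b * n ^ 2 - s ^ 2 := by
  have hspan : v.asIdeal = Ideal.span {π} := by
    ext x
    rw [hv, Ideal.mem_span_singleton]
  have hvπ : v.intValuation π = exp (-1 : ℤ) := v.intValuation_singleton hπ0 hspan
  have hvb : v.valuation L' (algebraMap R' L' b) = 1 := by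
    rw [v.valuation_of_algebraMap, v.intValuation_eq_one_iff, hv]
    exact hb
  have h1 : v.valuation L' (algebraMap R' L' b * y ^ 2) = 1 := by
    have e : algebraMap R' L' b * y ^ 2 = (algebraMap R' L' b * y ^ 2 - 1) + 1 := by ring
    rw [e, Valuation.map_add_eq_of_lt_right, map_one]
    rw [map_one]; exact hy
  rw [map_mul, hvb, one_mul, map_pow] at h1
  have hvy : v.valuation L' y = 1 := by
    have h0 : v.valuation L' y ≠ 0 := by
      intro h0
      rw [h0, zero_pow two_ne_zero] at h1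
      exact zero_ne_one h1
    rw [← exp_log h0, ← exp_nsmul, ← exp_zero, exp_inj] at h1
    rw [← exp_log h0, ← exp_zero, exp_inj]
    simp only [nsmul_eq_mul] at h1
    push_cast at h1
    omega
  obtain ⟨n, s, hs, rfl⟩ := IsFractionRing.div_surjective (A := R') y
  have hs0 : s ≠ 0 := nonZeroDivisors.ne_zero hs
  have hsL : algebraMap R' L' s ≠ 0 := by
    rw [Ne, map_eq_zero_iff _ (IsFractionRing.injective R' L')]
    exact hs0
  obtain ⟨m, hm⟩ : ∃ m : ℕ, v.intValuation s = exp (-(m : ℤ)) := ⟨_, v.intValuation_if_neg hs0⟩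
  have hn : v.intValuation n = exp (-(m : ℤ)) := by
    rw [map_div₀, v.valuation_of_algebraMap, v.valuation_of_algebraMap, hm,
      div_eq_one_iff_eq exp_ne_zero] at hvy
    exact hvy
  have hd : ∀ x : R', v.intValuation x = exp (-(m : ℤ)) → ∃ x', x = π ^ m * x' := by
    intro x hx
    have h3 := hx.le
    rw [v.intValuation_le_pow_iff_mem, hspan, Ideal.span_singleton_pow,
      Ideal.mem_span_singleton] at h3
    exact h3
  obtain ⟨n', rfl⟩ := hd n hn
  obtain ⟨s', rfl⟩ := hd s hm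
  have hπm : algebraMap R' L' (π ^ m) ≠ 0 := by
    rw [Ne, map_eq_zero_iff _ (IsFractionRing.injective R' L')]
    exact pow_ne_zero m hπ0
  have hs' : v.intValuation s' = 1 := by
    rw [map_mul, map_pow, hvπ, ← exp_nsmul] at hm
    have e : (m • (-1 : ℤ)) = -(m : ℤ) := by simp
    rw [e] at hm
    exact (mul_eq_left₀ exp_ne_zero).1 hm
  have hs'L : algebraMap R' L' s' ≠ 0 := by
    intro h0
    apply hsL
    rw [map_mul, h0, mul_zero]
  refine ⟨n', s', ?_, ?_⟩
  · rw [← hv, ← v.intValuation_eq_one_iff]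
    exact hs'
  · rw [← hv, ← v.intValuation_lt_one_iff_mem, ← v.valuation_of_algebraMap (K := L')]
    have e : algebraMap R' L' (b * n' ^ 2 - s' ^ 2) = (algebraMap R' L' s') ^ 2 *
        (algebraMap R' L' b * (algebraMap R' L' (π ^ m * n') / algebraMap R' L' (π ^ m * s')) ^ 2 -
          1) := by
      rw [map_mul (algebraMap R' L') (π ^ m), map_mul (algebraMap R' L') (π ^ m),
        mul_div_mul_left _ _ hπm, mul_sub, div_pow, mul_one, map_sub, map_mul, map_pow, map_pow]
      congr 1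
      rw [mul_div_assoc', mul_div_assoc', eq_div_iff (pow_ne_zero 2 hs'L)]
      ring
    show v.valuation L' (algebraMap R' L' (b * n' ^ 2 - s' ^ 2)) < 1
    rw [e, map_mul, map_pow, v.valuation_of_algebraMap, hs', one_pow, one_mul]
    exact hy

/-- Reduction to polynomials. -/
theorem sq_red2 [Algebra k R'] {π θ : R'} {P : k[X]} (hP : Irreducible P) (hπ0 : π ≠ 0)
    (hdvd : ∀ e : k[X], π ∣ aeval θ e ↔ P ∣ e) (hres : ∀ x : R', ∃ e : k[X], π ∣ x - aeval θ e)
    {v : HeightOneSpectrum R'} (hv : ∀ x, x ∈ v.asIdeal ↔ π ∣ x) {B : k[X]} (hB : ¬ P ∣ B) {y : L'}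
    (hy : v.valuation L' (algebraMap R' L' (aeval θ B) * y ^ 2 - 1) < 1) :
    ∃ e : k[X], P ∣ e ^ 2 - B := by
  obtain ⟨n, s, hs, hn⟩ := sq_red hπ0 hv (fun h => hB ((hdvd B).1 h)) hy
  obtain ⟨en, hen⟩ := hres n
  obtain ⟨es, hes⟩ := hres s
  have h1 : ¬ P ∣ es := by
    intro h
    apply hs
    have h3 := (hdvd es).2 h
    have := dvd_add hes h3
    rwa [sub_add_cancel] at this
  have h3 : P ∣ B * en ^ 2 - es ^ 2 := by
    rw [← hdvd, map_sub, map_mul, map_pow, map_pow]
    have e : aeval θ B * (aeval θ en) ^ 2 - (aeval θ es) ^ 2 = (aeval θ B * n ^ 2 - s ^ 2) -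
        ((n - aeval θ en) * (aeval θ B * (n + aeval θ en)) -
          (s - aeval θ es) * (s + aeval θ es)) := by ring
    rw [e]
    exact dvd_sub hn (dvd_sub (hen.mul_right _) (hes.mul_right _))
  have h4 : ¬ P ∣ en := by
    intro h
    apply h1
    have h5 : P ∣ es ^ 2 := by
      have : es ^ 2 = B * en ^ 2 - (B * en ^ 2 - es ^ 2) := by ring
      rw [this]
      exact dvd_sub (((dvd_pow h two_ne_zero)).mul_left _) h3
    exact hP.prime.dvd_of_dvd_pow h5
  obtain ⟨m, q, hm⟩ := inv_mod hP h4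
  refine ⟨m * es, ?_⟩
  have e : (m * es) ^ 2 - B = B * ((m * en - 1) * (m * en + 1)) -
      m ^ 2 * (B * en ^ 2 - es ^ 2) := by ring
  rw [e]
  refine dvd_sub ?_ (h3.mul_left _)
  rw [hm]
  exact ⟨B * (q * (m * en + 1)), by ring⟩

end red

section even

variable {k L' L R' R : Type} [Field k] [Field L'] [Field L] [Algebra L' L] [CommRing R']
  [IsDedekindDomain R']
  [Algebra R' L'] [IsFractionRing R' L'] [CommRing R] [IsDedekindDomain R] [Algebra R L]
  [IsFractionRing R L] [Algebra R' R] [Algebra R' L] [IsScalarTower R' L' L] [IsScalarTower R' R L]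
  [Algebra.IsIntegral R' R] [Module.IsTorsionFree R' R] [FiniteDimensional L' L]
  [Algebra k L'] [Algebra k L] [IsScalarTower k L' L]
  {δ : R'} {t : R} {σ : L ≃ₐ[L'] L} (h : QD δ t σ)

include h

theorem QD.even_gen {θ' : L'} {V' V : Set k[X]}
    (H1 : ∀ z : L', z ≠ 0 → (∀ v : HeightOneSpectrum R', IsSquare (v.valuation L' z)) →
      ∃ (c : k) (A : k[X]) (w : L'), c ≠ 0 ∧ A ∈ V' ∧ w ≠ 0 ∧
        z = algebraMap k L' c * aeval θ' A * w ^ 2)
    (H0 : ∃ p : HeightOneSpectrum R', p.intValuation δ = exp (-1 : ℤ))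
    (H2 : ∀ (c : k) (A : k[X]) (w : L'), c ≠ 0 → A ∈ V' → w ≠ 0 →
      (∀ p : HeightOneSpectrum R', p.intValuation δ = exp (-1 : ℤ) →
        p.valuation L' (algebraMap k L' c * aeval θ' A * w ^ 2 - 1) < 1) →
      IsSquare (algebraMap k L' c * aeval θ' A))
    (H3 : ∀ a : L', a ≠ 0 → (∀ p : HeightOneSpectrum R', p.intValuation δ = 1 →
        IsSquare (p.valuation L' a)) →
      ∃ (c : k) (A : k[X]) (w : L'), c ≠ 0 ∧ A ∈ V ∧ w ≠ 0 ∧
        (a = algebraMap k L' c * aeval θ' A * w ^ 2 ∨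
          a * algebraMap R' L' δ = algebraMap k L' c * aeval θ' A * w ^ 2))
    (z : L) (hz : z ≠ 0) (hev : ∀ v : HeightOneSpectrum R, IsSquare (v.valuation L z)) :
    ∃ (c : k) (A : k[X]) (w : L), c ≠ 0 ∧ A ∈ V ∧ w ≠ 0 ∧
      z = algebraMap k L c * aeval (algebraMap L' L θ') A * w ^ 2 := by
  obtain ⟨u, v, rfl⟩ := h.gen z
  have hne := h.norm_even hz hev
  set N : L' := u ^ 2 - algebraMap R' L' δ * v ^ 2 with hN
  obtain ⟨p0, hp0⟩ := H0
  have hu0 : u ≠ 0 := ((hne p0).2 hp0).1
  have hN0 : N ≠ 0 := by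
    intro h0
    have h1 := ((hne p0).2 hp0).2
    rw [h0, zero_div, zero_sub, Valuation.map_neg, map_one] at h1
    exact lt_irrefl _ h1
  obtain ⟨c, A, w, hc, hA, hw, e⟩ := H1 N hN0 (fun p => (hne p).1)
  have hsq : IsSquare (algebraMap k L' c * aeval θ' A) := by
    refine H2 c A (w / u) hc hA (div_ne_zero hw hu0) fun p hp => ?_
    have h1 := ((hne p).2 hp).2
    have e1 : algebraMap k L' c * aeval θ' A * (w / u) ^ 2 = N / u ^ 2 := by
      rw [e, div_pow, mul_div_assoc']
    rw [e1]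
    exact h1
  obtain ⟨s, hs⟩ := hsq
  have hNs : u ^ 2 - algebraMap R' L' δ * v ^ 2 = (s * w) ^ 2 := by
    rw [← hN, e, hs]; ring
  obtain ⟨a, η, ha, hη, ez, hpa⟩ := h.descend hz hNs hev
  obtain ⟨c', A', w', hc', hA', hw', e'⟩ := H3 a ha hpa
  have hAL : ∀ A : k[X], aeval (algebraMap L' L θ') A = algebraMap L' L (aeval θ' A) :=
    fun A => aeval_algebraMap_apply L θ' A
  rcases e' with e' | e'
  · refine ⟨c', A', algebraMap L' L w' * η, hc', hA',
      mul_ne_zero ((_root_.map_ne_zero _).2 hw') hη, ?_⟩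
    rw [ez, e', hAL, map_mul, map_mul, map_pow, ← IsScalarTower.algebraMap_apply k L' L]
    ring
  · have hδ : algebraMap R' L' δ ≠ 0 := fun h0 => h.ns 0 (by rw [h0]; ring)
    have ht : algebraMap R L t ≠ 0 := by
      intro h0
      have := h.sqL
      rw [h0, zero_pow two_ne_zero] at this
      exact (_root_.map_ne_zero _).2 hδ this.symm
    refine ⟨c', A', algebraMap L' L w' * (η / algebraMap R L t), hc', hA',
      mul_ne_zero ((_root_.map_ne_zero _).2 hw') (div_ne_zero hη ht), ?_⟩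
    have e3 := congrArg (algebraMap L' L) e'
    rw [map_mul, ← h.sqL, map_mul, map_mul, map_pow, ← IsScalarTower.algebraMap_apply k L' L,
      ← hAL] at e3
    have e4 : algebraMap k L c' * aeval (algebraMap L' L θ') A' *
        (algebraMap L' L w' * (η / algebraMap R L t)) ^ 2 =
        (algebraMap k L c' * aeval (algebraMap L' L θ') A' * (algebraMap L' L w') ^ 2) *
          (η / algebraMap R L t) ^ 2 := by ring
    rw [ez, e4, ← e3, div_pow, mul_assoc, mul_div_assoc', mul_comm (algebraMap R L t ^ 2),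
      mul_div_cancel_right₀ _ (pow_ne_zero 2 ht)]

end even

end Pool.Agent.TH115.GD
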