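import Pool.Agent.TH115.TC.Tower2

/-!
The levels of the tower: the ring of functions of the curve `h(t) ^ 2 = -g(θ)`.
-/

set_option autoImplicit false
set_option linter.all false

open Polynomial IsDedekindDomain WithZero
open scoped Classical

namespace Pool.Agent.TH115.GD

section defs

variable {k : Type} [Field k]

/-- The composite of quadratic polynomials `a X ^ 2 + c`. -/
noncomputable def cq : List (k × k) → k[X]
  | [] => X
  | p :: l => (cq l).comp (C p.1 * X ^ 2 + C p.2)

/-- The critical values of `cq l`. -/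
noncomputable def crit : List (k × k) → List k
  | [] => []
  | p :: l => (cq l).eval p.2 :: crit l

/-- `g + β` is irreducible and separable, and no constant multiple of `X - r`, for a root `r`
of `g`, is a square modulo `g + β`. -/
def Good (g : k[X]) (β : k) : Prop :=
  Irreducible (g + C β) ∧ (g + C β).Separable ∧
    ∀ (r c : k) (e : k[X]), g.eval r = 0 → c ≠ 0 → ¬ (g + C β) ∣ e ^ 2 - C c * (X - C r)

/-- The functions attached to the sections. -/
def Vset (g : k[X]) : Set k[X] := {A | A = 1 ∨ ∃ r, g.eval r = 0 ∧ A = X - C r}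

/-- A level of the tower. -/
structure Lev (s : k) (g h : k[X]) {L : Type} [Field L] [Algebra k L] (θ t : L)
    (R : Type) [CommRing R] [IsDedekindDomain R] [Algebra k R] [Algebra R L] [IsFractionRing R L]
    (θR tR : R) : Prop where
  hθ : algebraMap R L θR = θ
  ht : algebraMap R L tR = t
  int : ((aeval θR : k[X] →ₐ[k] R) : k[X] →+* R).IsIntegral
  prime : ∀ d : k, Irreducible (g + C (s * (h.eval d) ^ 2)) → Prime (tR - algebraMap k R d)
  dvdG : ∀ (d : k) (e : k[X]), (tR - algebraMap k R d) ∣ aeval θR e ↔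
    g + C (s * (h.eval d) ^ 2) ∣ e
  res : ∀ (d : k) (x : R), ∃ e : k[X], (tR - algebraMap k R d) ∣ x - aeval θR e
  even : ∀ z : L, z ≠ 0 → (∀ v : HeightOneSpectrum R, IsSquare (v.valuation L z)) →
    ∃ (c : k) (A : k[X]) (w : L), c ≠ 0 ∧ A ∈ Vset g ∧ w ≠ 0 ∧
      z = algebraMap k L c * aeval θ A * w ^ 2

end defs

section gen

variable {k L' L : Type} [Field k] [Field L'] [Field L] [Algebra L' L]
  [Algebra k L'] [Algebra k L] [IsScalarTower k L' L]

theorem top_of_top {θ t : L} (htop : IntermediateField.adjoin k {θ, t} = ⊤) {θ' : L'}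
    (hθ : algebraMap L' L θ' = θ) : IntermediateField.adjoin L' {t} = ⊤ := by
  rw [eq_top_iff]
  intro x _
  have hx : x ∈ IntermediateField.adjoin k {θ, t} := by rw [htop]; trivial
  refine IntermediateField.adjoin_induction k
    (p := fun x _ => x ∈ IntermediateField.adjoin L' {t}) ?_ ?_ ?_ ?_ ?_ hx
  · intro y hy
    rcases hy with rfl | hy
    · rw [← hθ]
      exact IntermediateField.algebraMap_mem _ θ'
    · rw [Set.mem_singleton_iff] at hy
      subst hy
      exact IntermediateField.mem_adjoin_simple_self L' y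
  · intro y
    rw [IsScalarTower.algebraMap_apply k L' L]
    exact IntermediateField.algebraMap_mem _ _
  · intro x y _ _ hx hy
    exact add_mem hx hy
  · intro x _ hx
    exact inv_mem hx
  · intro x y _ _ hx hy
    exact mul_mem hx hy

theorem gen_of_top {t : L} {d : L'} (ht : t ^ 2 = algebraMap L' L d)
    (htop : IntermediateField.adjoin L' {t} = ⊤) (x : L) :
    ∃ u v : L', x = algebraMap L' L u + algebraMap L' L v * t := by
  have hint : IsIntegral L' t := by
    refine ⟨X ^ 2 - C d, monic_X_pow_sub_C d two_ne_zero, ?_⟩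
    rw [eval₂_sub, eval₂_pow, eval₂_X, eval₂_C, ht, sub_self]
  have hx : x ∈ (IntermediateField.adjoin L' {t}).toSubalgebra := by rw [htop]; trivial
  rw [IntermediateField.adjoin_simple_toSubalgebra_of_isAlgebraic hint.isAlgebraic] at hx
  refine Algebra.adjoin_induction
    (p := fun x _ => ∃ u v : L', x = algebraMap L' L u + algebraMap L' L v * t) ?_ ?_ ?_ ?_ hx
  · intro y hy
    rw [Set.mem_singleton_iff] at hy
    subst hy
    exact ⟨0, 1, by rw [map_zero, map_one]; ring⟩
  · intro r
    exact ⟨r, 0, by rw [map_zero]; ring⟩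
  · rintro x y _ _ ⟨u, v, rfl⟩ ⟨u', v', rfl⟩
    exact ⟨u + u', v + v', by rw [map_add, map_add]; ring⟩
  · rintro x y _ _ ⟨u, v, rfl⟩ ⟨u', v', rfl⟩
    refine ⟨u * u' + v * v' * d, u * v' + v * u', ?_⟩
    simp only [map_add, map_mul, ← ht]
    ring

end gen

section lev

variable {k L' L R' R : Type} [Field k] [Field L'] [Field L] [Algebra L' L] [CommRing R']
  [IsDedekindDomain R']
  [Algebra R' L'] [IsFractionRing R' L'] [CommRing R] [IsDedekindDomain R] [Algebra R L]
  [IsFractionRing R L] [Algebra R' R] [Algebra R' L] [IsScalarTower R' L' L] [IsScalarTower R' R L]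
  [Algebra.IsIntegral R' R] [Module.IsTorsionFree R' R] [FiniteDimensional L' L]
  [Algebra k L'] [Algebra k L] [IsScalarTower k L' L] [Algebra k R'] [Algebra k R]
  [IsScalarTower k R' R]
  {δ : R'} {t : R} {σ : L ≃ₐ[L'] L}

theorem lev_of_QD (h : QD δ t σ) {s : k} {g h0 : k[X]} {θ : R'}
    (hdvd : ∀ (d : k) (e : k[X]), (δ - algebraMap k R' d ^ 2) ∣ aeval θ e ↔
      g + C (s * (h0.eval d) ^ 2) ∣ e)
    (hpr : ∀ d : k, Irreducible (g + C (s * (h0.eval d) ^ 2)) → Prime (δ - algebraMap k R' d ^ 2))
    (hres : ∀ (d : k) (x : R'), ∃ e : k[X], (δ - algebraMap k R' d ^ 2) ∣ x - aeval θ e)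
    (hint : ((aeval θ : k[X] →ₐ[k] R') : k[X] →+* R').IsIntegral)
    (heven : ∀ z : L, z ≠ 0 → (∀ v : HeightOneSpectrum R, IsSquare (v.valuation L z)) →
      ∃ (c : k) (A : k[X]) (w : L), c ≠ 0 ∧ A ∈ Vset g ∧ w ≠ 0 ∧
        z = algebraMap k L c * aeval (algebraMap R' L θ) A * w ^ 2) :
    Lev s g h0 (algebraMap R' L θ) (algebraMap R L t) R (algebraMap R' R θ) t := by
  have hae : ∀ e : k[X], aeval (algebraMap R' R θ) e = algebraMap R' R (aeval θ e) :=
    fun e => aeval_algebraMap_apply R θ e
  have hal : ∀ d : k, algebraMap k R d = algebraMap R' R (algebraMap k R' d) :=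
    fun d => IsScalarTower.algebraMap_apply k R' R d
  refine ⟨(IsScalarTower.algebraMap_apply R' R L θ).symm, rfl, ?_, ?_, ?_, ?_, heven⟩
  · have h1 : (algebraMap R' R).IsIntegral := algebraMap_isIntegral_iff.2 inferInstance
    have h3 := RingHom.IsIntegral.trans _ _ hint h1
    have e : (algebraMap R' R).comp ((aeval θ : k[X] →ₐ[k] R') : k[X] →+* R') =
        ((aeval (algebraMap R' R θ) : k[X] →ₐ[k] R) : k[X] →+* R) := by
      apply RingHom.ext
      intro p
      exact (hae p).symm
    rwa [e] at h3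
  · intro d hd
    rw [hal]
    exact h.prime (hpr d hd)
  · intro d e
    rw [hal, hae, h.dvd, hdvd]
  · intro d x
    obtain ⟨a, b, rfl⟩ := h.dec x
    obtain ⟨e, he⟩ := hres d (a + b * algebraMap k R' d)
    refine ⟨e, ?_⟩
    rw [hal, hae]
    have e1 : algebraMap R' R a + algebraMap R' R b * t - algebraMap R' R (aeval θ e) =
        algebraMap R' R b * (t - algebraMap R' R (algebraMap k R' d)) +
          algebraMap R' R (a + b * algebraMap k R' d - aeval θ e) := by
      rw [map_sub, map_add, map_mul]; ring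
    rw [e1]
    exact dvd_add (dvd_mul_left _ _) ((h.dvd _ _).2 he)

end lev

end Pool.Agent.TH115.GD
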