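import Pool.Agent.TH115.TC.Tower3

/-!
The step of the tower.
-/

set_option autoImplicit false
set_option linter.all false

open Polynomial IsDedekindDomain WithZero
open scoped Classical

namespace Pool.Agent.TH115.GD

/-- The prime generated by a prime element. -/
def primeOf {R' : Type} [CommRing R'] [IsDedekindDomain R'] {δ : R'} (h : Prime δ) :
    HeightOneSpectrum R' where
  asIdeal := Ideal.span {δ}
  isPrime := (Ideal.span_singleton_prime h.ne_zero).2 h
  ne_bot := by
    rw [Ne, Ideal.span_singleton_eq_bot]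
    exact h.ne_zero

theorem primeOf_mem {R' : Type} [CommRing R'] [IsDedekindDomain R'] {δ : R'} (h : Prime δ) (x : R') :
    x ∈ (primeOf h).asIdeal ↔ δ ∣ x := Ideal.mem_span_singleton

theorem primeOf_val {R' : Type} [CommRing R'] [IsDedekindDomain R'] {δ : R'} (h : Prime δ) :
    (primeOf h).intValuation δ = exp (-1 : ℤ) :=
  (primeOf h).intValuation_singleton h.ne_zero rfl

theorem primeOf_uniq {R' : Type} [CommRing R'] [IsDedekindDomain R'] {δ : R'} (h : Prime δ)
    (p : HeightOneSpectrum R') : p = primeOf h ∨ p.intValuation δ = 1 := by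
  by_cases hp : δ ∈ p.asIdeal
  · left
    apply HeightOneSpectrum.ext
    have h1 : (primeOf h).asIdeal ≤ p.asIdeal := by
      show Ideal.span {δ} ≤ p.asIdeal
      rw [Ideal.span_singleton_le_iff_mem]
      exact hp
    exact ((primeOf h).isMaximal.eq_of_le p.isPrime.ne_top h1).symm
  · right
    exact (p.intValuation_eq_one_iff).2 hp

theorem wz_sq {Γ : WithZero (Multiplicative ℤ)} (h : ¬ IsSquare Γ) :
    IsSquare (Γ * exp (-1 : ℤ)) := by
  by_cases h0 : Γ = 0
  · rw [h0, zero_mul]; exact IsSquare.zero
  have e1 : exp (log Γ) = Γ := exp_log h0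
  rw [← e1, isSquare_exp, Int.not_even_iff_odd] at h
  rw [← e1, ← exp_add, isSquare_exp]
  obtain ⟨m, hm⟩ := h
  exact ⟨m, by omega⟩

section step

variable {k L' L R' : Type} [Field k] [Field L'] [Field L] [Algebra L' L] [CommRing R']
  [IsDedekindDomain R'] [Algebra R' L'] [IsFractionRing R' L']
  [Algebra k L'] [Algebra k L] [IsScalarTower k L' L] [Algebra k R'] [IsScalarTower k R' L']

theorem lev_step (h2 : (2 : k) ≠ 0) {s : k} {g h0 : k[X]} (hdeg : g.natDegree = 3) {θ τ : L'} {θR τR : R'}
    (hL : Lev s g h0 θ τ R' θR τR) {a c : k} (ha : a ≠ 0) (hgood : Good g (s * (h0.eval c) ^ 2)) {t : L}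
    (htop : IntermediateField.adjoin L' {t} = ⊤)
    (ht : algebraMap L' L τ = algebraMap k L a * t ^ 2 + algebraMap k L c) :
    ∃ (R : Type) (_ : CommRing R) (_ : IsDedekindDomain R) (_ : Algebra k R) (_ : Algebra R L)
      (_ : IsFractionRing R L) (_ : IsScalarTower k R L) (θ' t' : R),
      Lev s g (h0.comp (C a * X ^ 2 + C c)) (algebraMap L' L θ) t R θ' t' := by
  obtain ⟨hirr, hsep, hgr⟩ := hgood
  have hG3 : (g + C (s * (h0.eval c) ^ 2)).natDegree = 3 := by rw [natDegree_add_C, hdeg]
  letI : Algebra R' L := ((algebraMap L' L).comp (algebraMap R' L')).toAlgebra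
  haveI : IsScalarTower R' L' L := IsScalarTower.of_algebraMap_eq fun x => rfl
  have hkR : ∀ x : k, algebraMap R' L' (algebraMap k R' x) = algebraMap k L' x :=
    fun x => (IsScalarTower.algebraMap_apply k R' L' x).symm
  haveI : IsScalarTower k R' L := IsScalarTower.of_algebraMap_eq fun x => by
    show algebraMap k L x = algebraMap L' L (algebraMap R' L' (algebraMap k R' x))
    rw [hkR, ← IsScalarTower.algebraMap_apply k L' L]
  set δ : R' := algebraMap k R' a⁻¹ * (τR - algebraMap k R' c) with hδ
  have hau : IsUnit (algebraMap k R' a⁻¹) := (isUnit_iff_ne_zero.2 (inv_ne_zero ha)).map _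
  have hδd : ∀ d : k, δ - algebraMap k R' d ^ 2 =
      algebraMap k R' a⁻¹ * (τR - algebraMap k R' (a * d ^ 2 + c)) := by
    intro d
    have e : algebraMap k R' a⁻¹ * algebraMap k R' a = 1 := by
      rw [← map_mul, inv_mul_cancel₀ ha, map_one]
    rw [hδ, map_add, map_mul, map_pow]
    linear_combination (algebraMap k R' d ^ 2) * e
  have hev' : ∀ d : k, (h0.comp (C a * X ^ 2 + C c)).eval d = h0.eval (a * d ^ 2 + c) := by
    intro d
    rw [eval_comp]
    simp
  have two : IsUnit (2 : R') := by
    have h1 : IsUnit (2 : k) := isUnit_iff_ne_zero.2 h2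
    have h3 := h1.map (algebraMap k R')
    rwa [map_ofNat] at h3
  have hp : Prime δ := by
    have h1 := hL.prime c hirr
    rw [hδ]
    exact ((associated_unit_mul_left _ _ hau).prime_iff).2 h1
  have ord : ∀ v : HeightOneSpectrum R', exp (-1 : ℤ) ≤ v.intValuation δ := by
    intro v
    rcases primeOf_uniq hp v with rfl | h1
    · exact (primeOf_val hp).ge
    · rw [h1, ← exp_zero, exp_le_exp]; norm_num
  have htδ : t ^ 2 = algebraMap R' L δ := by
    show t ^ 2 = algebraMap L' L (algebraMap R' L' δ)
    rw [hδ, map_mul, map_sub, hkR, hkR, hL.ht, map_mul, map_sub, ht,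
      ← IsScalarTower.algebraMap_apply k L' L, ← IsScalarTower.algebraMap_apply k L' L]
    have e : algebraMap k L a⁻¹ * algebraMap k L a = 1 := by
      rw [← map_mul, inv_mul_cancel₀ ha, map_one]
    linear_combination -(t ^ 2) * e
  have gen := gen_of_top (L' := L') (L := L) (t := t) (d := algebraMap R' L' δ) htδ htop
  obtain ⟨hfin, hD, hF, hTF, t', σ, ht', hQ⟩ := mkQD htδ two gen ord ⟨primeOf hp, primeOf_val hp⟩
  haveI := hfin
  haveI := hD
  haveI := hF
  haveI := hTF
  have hθL : algebraMap R' L θR = algebraMap L' L θ := by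
    show algebraMap L' L (algebraMap R' L' θR) = _
    rw [hL.hθ]
  have heven := hQ.even_gen (k := k) (θ' := θ) (V' := Vset g) (V := Vset g) hL.even
    ⟨primeOf hp, primeOf_val hp⟩ (by
      intro c1 A w hc1 hA hw hval
      have h1 := hval (primeOf hp) (primeOf_val hp)
      have hθe : ∀ e : k[X], algebraMap R' L' (aeval θR e) = aeval θ e := fun e => by
        rw [← hL.hθ, aeval_algebraMap_apply]
      have e1 : algebraMap k L' c1 * aeval θ A * w ^ 2 =
          algebraMap R' L' (aeval θR (C c1 * A)) * w ^ 2 := by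
        rw [hθe, map_mul, aeval_C]
      rw [e1] at h1
      have hdv : ∀ e : k[X], δ ∣ aeval θR e ↔ g + C (s * (h0.eval c) ^ 2) ∣ e := by
        intro e
        rw [← hL.dvdG c e, hδ, hau.mul_left_dvd]
      have hB : ¬ (g + C (s * (h0.eval c) ^ 2)) ∣ C c1 * A := by
        intro h3
        have hA0 : C c1 * A ≠ 0 ∧ (C c1 * A).natDegree ≤ 1 := by
          have hc1' : (C c1 : k[X]) ≠ 0 := C_ne_zero.2 hc1
          rcases hA with rfl | ⟨r, -, rfl⟩
          · rw [mul_one]
            exact ⟨hc1', by rw [natDegree_C]; norm_num⟩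
          · exact ⟨mul_ne_zero hc1' (X_sub_C_ne_zero r), by
              rw [natDegree_C_mul hc1, natDegree_X_sub_C]⟩
        have h4 := natDegree_le_of_dvd h3 hA0.1
        omega
      obtain ⟨e, he⟩ := sq_red2 hirr hp.ne_zero hdv (fun x => by
        obtain ⟨e, he⟩ := hL.res c x
        exact ⟨e, by rw [hδ, hau.mul_left_dvd]; exact he⟩) (primeOf_mem hp) hB h1
      rcases hA with rfl | ⟨r, hr, rfl⟩
      · rw [mul_one] at he
        have hsq := const_sq_mod hirr (by rw [hG3]; decide) he
        rw [map_one, mul_one]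
        exact hsq.map (algebraMap k L')
      · exact absurd he (hgr r c1 e hr hc1)) (by
      intro a0 ha0 hpa
      have hδL : algebraMap R' L' δ ≠ 0 := by
        rw [Ne, map_eq_zero_iff _ (IsFractionRing.injective R' L')]
        exact hp.ne_zero
      by_cases hsq : IsSquare ((primeOf hp).valuation L' a0)
      · obtain ⟨c1, A, w, h1, h3, h4, e⟩ := hL.even a0 ha0 (by
          intro v
          rcases primeOf_uniq hp v with rfl | h1
          · exact hsq
          · exact hpa v h1)
        exact ⟨c1, A, w, h1, h3, h4, Or.inl e⟩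
      · obtain ⟨c1, A, w, h1, h3, h4, e⟩ := hL.even (a0 * algebraMap R' L' δ)
          (mul_ne_zero ha0 hδL) (by
          intro v
          rcases primeOf_uniq hp v with rfl | h1
          · rw [map_mul, (primeOf hp).valuation_of_algebraMap, primeOf_val]
            exact wz_sq hsq
          · rw [map_mul, v.valuation_of_algebraMap, h1, mul_one]
            exact hpa v h1)
        exact ⟨c1, A, w, h1, h3, h4, Or.inr e⟩)
  have hlev := lev_of_QD (k := k) hQ (g := g) (h0 := h0.comp (C a * X ^ 2 + C c)) (θ := θR)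
    (fun d e => by rw [hδd, hau.mul_left_dvd, hL.dvdG, hev'])
    (fun d hd => by
      rw [hev'] at hd
      rw [hδd]
      exact ((associated_unit_mul_left _ _ hau).prime_iff).2 (hL.prime _ hd))
    (fun d x => by
      obtain ⟨e, he⟩ := hL.res (a * d ^ 2 + c) x
      exact ⟨e, by rw [hδd, hau.mul_left_dvd]; exact he⟩)
    hL.int (by rw [hθL]; exact heven)
  rw [hθL, ht'] at hlev
  exact ⟨integralClosure R' L, inferInstance, hD, inferInstance, inferInstance, hF,
    inferInstance, _, _, hlev⟩

end step

end Pool.Agent.TH115.GD
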