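import Pool.Agent.TH115.TC.Tower4

/-!
The base of the tower: `t ^ 2 = -g(θ)`.
-/

set_option autoImplicit false
set_option linter.all false

open Polynomial IsDedekindDomain WithZero
open scoped Classical

namespace Pool.Agent.TH115.GD

section poly

variable {k : Type} [Field k]

theorem ord_sqf {S : k[X]} (hS : Squarefree S) (v : HeightOneSpectrum k[X]) :
    exp (-1 : ℤ) ≤ v.intValuation S := by
  obtain ⟨π, hπ, hv⟩ := exists_gen v
  have hspan : v.asIdeal = Ideal.span {π} := by
    ext p
    rw [hv, Ideal.mem_span_singleton]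
  by_contra hcon
  rw [not_le] at hcon
  obtain ⟨m, hm⟩ : ∃ m : ℕ, v.intValuation S = exp (-(m : ℤ)) := ⟨_, v.intValuation_if_neg hS.ne_zero⟩
  have h1 : v.intValuation S ≤ exp (-((2 : ℕ) : ℤ)) := by
    rw [hm, exp_lt_exp] at hcon
    rw [hm, exp_le_exp]
    push_cast
    omega
  rw [v.intValuation_le_pow_iff_mem, hspan, Ideal.span_singleton_pow,
    Ideal.mem_span_singleton, pow_two] at h1
  exact hπ.not_isUnit (hS π h1)

theorem odd_factor {g : k[X]} (hdeg : g.natDegree = 3) :
    ∃ P : k[X], Irreducible P ∧ P ∣ g ∧ Odd P.natDegree := by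
  have hg0 : g ≠ 0 := by
    rintro rfl
    simp at hdeg
  by_cases hirr : Irreducible g
  · exact ⟨g, hirr, dvd_rfl, by rw [hdeg]; decide⟩
  · have hnu : ¬ IsUnit g := by
      intro hu
      rw [natDegree_eq_zero_of_isUnit hu] at hdeg
      omega
    rw [irreducible_iff] at hirr
    push Not at hirr
    obtain ⟨a, b, hab, ha, hb⟩ := hirr hnu
    have ha0 : a ≠ 0 := by rintro rfl; rw [zero_mul] at hab; exact hg0 hab
    have hb0 : b ≠ 0 := by rintro rfl; rw [mul_zero] at hab; exact hg0 hab
    have hd := hdeg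
    rw [hab, natDegree_mul ha0 hb0] at hd
    have h1 : ∀ p : k[X], p ≠ 0 → ¬ IsUnit p → p.natDegree ≠ 0 := by
      intro p hp hpu h0
      apply hpu
      rw [natDegree_eq_zero] at h0
      obtain ⟨c, rfl⟩ := h0
      exact isUnit_C.2 (isUnit_iff_ne_zero.2 (fun h => hp (by rw [h, C_0])))
    have h3 := h1 a ha0 ha
    have h4 := h1 b hb0 hb
    have h5 : a.natDegree = 1 ∨ b.natDegree = 1 := by omega
    rcases h5 with h5 | h5
    · refine ⟨a, irreducible_of_degree_eq_one ?_, ⟨b, hab⟩, by rw [h5]; decide⟩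
      rw [degree_eq_natDegree ha0, h5]
      rfl
    · refine ⟨b, irreducible_of_degree_eq_one ?_, ⟨a, by rw [hab, mul_comm]⟩, by rw [h5]; decide⟩
      rw [degree_eq_natDegree hb0, h5]
      rfl

theorem mem_Vset {g M : k[X]} (hM : M.Monic) (hd : M ∣ g) (h1 : M.natDegree ≤ 1) : M ∈ Vset g := by
  rcases Nat.le_one_iff_eq_zero_or_eq_one.1 h1 with h3 | h3
  · left
    exact hM.natDegree_eq_zero.1 h3
  · right
    have h4 := hM.eq_X_add_C h3
    refine ⟨-M.coeff 0, ?_, ?_⟩
    · obtain ⟨q, rfl⟩ := hd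
      rw [eval_mul]
      have : M.eval (-M.coeff 0) = 0 := by
        conv_lhs => rw [h4]
        simp
      rw [this, zero_mul]
    · rw [C_neg, sub_neg_eq_add]
      exact h4

end poly

section base

variable {k L' L : Type} [Field k] [Field L'] [Field L] [Algebra L' L] [Algebra k[X] L']
  [IsFractionRing k[X] L'] [Algebra k L'] [Algebra k L] [IsScalarTower k L' L]
  [IsScalarTower k k[X] L'] [Algebra k[X] L] [IsScalarTower k[X] L' L] [IsScalarTower k k[X] L]

theorem base_aux (h2 : (2 : k) ≠ 0) {s : k} (hs0 : s ≠ 0) {g : k[X]} (hmon : g.Monic)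
    (hdeg : g.natDegree = 3)
    (hsep : g.Separable) {t : L} (htop : IntermediateField.adjoin L' {t} = ⊤)
    (ht : t ^ 2 = algebraMap k[X] L (C (-s⁻¹) * g)) :
    ∃ (R : Type) (_ : CommRing R) (_ : IsDedekindDomain R) (_ : Algebra k R) (_ : Algebra R L)
      (_ : IsFractionRing R L) (_ : IsScalarTower k R L) (θ' t' : R),
      Lev s g X (algebraMap k[X] L X) t R θ' t' := by
  have hsqf : Squarefree g := hsep.squarefree
  have hs1 : -s⁻¹ ≠ 0 := neg_ne_zero.2 (inv_ne_zero hs0)
  have hsu : IsUnit (C (-s⁻¹) : k[X]) := isUnit_C.2 (isUnit_iff_ne_zero.2 hs1)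
  set δ : k[X] := C (-s⁻¹) * g with hδ
  have hdδ : ∀ p : k[X], Irreducible p → (p ∣ δ ↔ p ∣ g) := by
    intro p hp
    rw [hδ, hp.prime.dvd_mul]
    refine ⟨fun h => h.resolve_left fun h' => hp.not_isUnit (isUnit_of_dvd_unit h' hsu), Or.inr⟩
  have hsqf' : Squarefree δ := squarefree_C_mul hs1 hsqf
  have hg0 : g ≠ 0 := hmon.ne_zero
  have hδ0 : δ ≠ 0 := mul_ne_zero hsu.ne_zero hg0
  have two : IsUnit (2 : k[X]) := by
    have h1 : IsUnit (2 : k) := isUnit_iff_ne_zero.2 h2
    have h3 := h1.map (C : k →+* k[X])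
    rwa [map_ofNat] at h3
  have htδ : t ^ 2 = algebraMap k[X] L δ := ht
  have htδ' : t ^ 2 = algebraMap L' L (algebraMap k[X] L' δ) := by
    rw [htδ, ← IsScalarTower.algebraMap_apply k[X] L' L]
  have gen := gen_of_top (L' := L') (L := L) (t := t) htδ' htop
  have ord := ord_sqf hsqf'
  have hval : ∀ {P : k[X]} (hP : Irreducible P), P ∣ g →
      (primeOf hP.prime).intValuation δ = exp (-1 : ℤ) := by
    intro P hP hPg
    have h1 := ord (primeOf hP.prime)
    have h3 : (primeOf hP.prime).intValuation δ < 1 := by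
      rw [HeightOneSpectrum.intValuation_lt_one_iff_mem, primeOf_mem, hdδ P hP]
      exact hPg
    obtain ⟨m, hm⟩ : ∃ m : ℕ, (primeOf hP.prime).intValuation δ = exp (-(m : ℤ)) :=
      ⟨_, (primeOf hP.prime).intValuation_if_neg hδ0⟩
    rw [hm, exp_le_exp] at h1
    rw [hm, ← exp_zero, exp_lt_exp] at h3
    rw [hm]
    congr 1
    omega
  obtain ⟨P, hP, hPg, hPodd⟩ := odd_factor hdeg
  obtain ⟨hfin, hD, hF, hTF, t', σ, ht', hQ⟩ := mkQD htδ two gen ord ⟨_, hval hP hPg⟩
  haveI := hfin
  haveI := hD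
  haveI := hF
  haveI := hTF
  have hae : ∀ e : k[X], aeval (X : k[X]) e = e := fun e => aeval_X_left_apply e
  have hθe : ∀ e : k[X], aeval (algebraMap k[X] L' X) e = algebraMap k[X] L' e := fun e => by
    rw [aeval_algebraMap_apply, hae]
  have hkC : ∀ c : k, algebraMap k L' c = algebraMap k[X] L' (C c) := fun c =>
    IsScalarTower.algebraMap_apply k k[X] L' c
  have heven := hQ.even_gen (k := k) (θ' := algebraMap k[X] L' X) (V' := {1}) (V := Vset g)
    (by
      intro z hz hev
      obtain ⟨r, S, c, hr, hS, hS', hc, e⟩ := sq_decK (k := k) hz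
      have hS1 : S = 1 := by
        by_contra hne
        have hnu : ¬ IsUnit S := fun hu => hne (hS.eq_one_of_isUnit hu)
        obtain ⟨π, hπ, hπS⟩ := WfDvdMonoid.exists_irreducible_factor hnu hS.ne_zero
        have h1 := hev (primeOf hπ.prime)
        rw [sq_iff_dec (primeOf hπ.prime) hS' hr hc e] at h1
        exact h1 ((primeOf_mem hπ.prime S).2 hπS)
      refine ⟨r, 1, c, hr, rfl, hc, ?_⟩
      rw [e, hS1, mul_one, map_one, mul_one, hkC, mul_comm])
    ⟨_, hval hP hPg⟩
    (by
      intro c A w hc hA hw hv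
      have hA1 : A = 1 := hA
      subst hA1
      have h1 := hv _ (hval hP hPg)
      have e1 : algebraMap k L' c * aeval (algebraMap k[X] L' X) (1 : k[X]) * w ^ 2 =
          algebraMap k[X] L' (aeval (X : k[X]) (C c)) * w ^ 2 := by
        rw [map_one, mul_one, hkC, hae]
      rw [e1] at h1
      have hB : ¬ P ∣ C c := by
        intro h3
        exact hP.not_isUnit (isUnit_of_dvd_unit h3 (isUnit_C.2 (isUnit_iff_ne_zero.2 hc)))
      obtain ⟨e, he⟩ := sq_red2 (k := k) hP hP.ne_zero (fun e => by rw [hae])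
        (fun x => ⟨x, by rw [hae, sub_self]; exact dvd_zero _⟩) (primeOf_mem hP.prime) hB h1
      have hsq := const_sq_mod hP hPodd he
      rw [map_one, mul_one]
      exact hsq.map (algebraMap k L'))
    (by
      intro a ha hpa
      obtain ⟨r, S, c, hr, hS, hS', hc, e⟩ := sq_decK (k := k) ha
      have hSg : S ∣ g := by
        apply dvd_of_primes hS'
        intro π hπ hπS
        by_contra hπg
        have h1 : (primeOf hπ.prime).intValuation δ = 1 := by
          rw [HeightOneSpectrum.intValuation_eq_one_iff, primeOf_mem, hdδ π hπ]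
          exact hπg
        have h3 := hpa _ h1
        rw [sq_iff_dec (primeOf hπ.prime) hS' hr hc e] at h3
        exact h3 ((primeOf_mem hπ.prime S).2 hπS)
      obtain ⟨q, hq⟩ := hSg
      have hqm : q.Monic := hS.of_mul_monic_left (hq ▸ hmon)
      by_cases h1 : S.natDegree ≤ 1
      · refine ⟨r, S, c, hr, mem_Vset hS ⟨q, hq⟩ h1, hc, Or.inl ?_⟩
        rw [e, hθe, hkC, ← map_mul, mul_comm]
      · have h3 : q.natDegree ≤ 1 := by
          have h4 := hdeg
          rw [hq, hS.natDegree_mul hqm] at h4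
          omega
        have hSL : algebraMap k[X] L' S ≠ 0 := by
          rw [Ne, map_eq_zero_iff _ (IsFractionRing.injective k[X] L')]
          exact hS.ne_zero
        refine ⟨-s⁻¹ * r, q, c * algebraMap k[X] L' S, mul_ne_zero hs1 hr,
          mem_Vset hqm ⟨S, by rw [hq, mul_comm]⟩ h3, mul_ne_zero hc hSL, Or.inr ?_⟩
        rw [e, hθe, hkC, hδ]
        have e5 : algebraMap k[X] L' g = algebraMap k[X] L' S * algebraMap k[X] L' q := by
          rw [← map_mul, ← hq]
        rw [map_mul (algebraMap k[X] L') (C (-s⁻¹)) g, e5, C_mul]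
        simp only [map_mul]
        ring)
  have hal : ∀ d : k, δ - algebraMap k k[X] d ^ 2 = C (-s⁻¹) * (g + C (s * d ^ 2)) := by
    intro d
    have h7 : algebraMap k k[X] d = C d := rfl
    rw [h7, hδ, mul_add, ← C_mul, ← C_pow]
    have h8 : -s⁻¹ * (s * d ^ 2) = -(d ^ 2) := by
      rw [← mul_assoc, neg_mul, inv_mul_cancel₀ hs0]
      ring
    rw [h8, C_neg (a := d ^ 2)]
    ring
  have hlev := lev_of_QD (k := k) hQ (s := s) (g := g) (h0 := X) (θ := X)
    (fun d e => by rw [hal, hae, hsu.mul_left_dvd, eval_X])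
    (fun d hd => by
      rw [hal]
      rw [eval_X] at hd
      exact ((associated_unit_mul_left _ _ hsu).prime_iff).2 hd.prime)
    (fun d x => ⟨x, by rw [hae, sub_self]; exact dvd_zero _⟩)
    (RingHom.isIntegral_of_surjective _ fun x => ⟨x, hae x⟩)
    (by rw [IsScalarTower.algebraMap_apply k[X] L' L]; exact heven)
  rw [ht'] at hlev
  exact ⟨integralClosure k[X] L, inferInstance, hD, inferInstance, inferInstance, hF,
    inferInstance, _, _, hlev⟩

end base

section base'

variable {k L : Type} [Field k] [Field L] [Algebra k L]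

theorem lev_base (h2 : (2 : k) ≠ 0) {s : k} (hs0 : s ≠ 0) {g : k[X]} (hmon : g.Monic)
    (hdeg : g.natDegree = 3)
    (hsep : g.Separable) {θ t : L} (hθ : Transcendental k θ)
    (htop : IntermediateField.adjoin k {θ, t} = ⊤) (ht : algebraMap k L s * t ^ 2 = -aeval θ g) :
    ∃ (R : Type) (_ : CommRing R) (_ : IsDedekindDomain R) (_ : Algebra k R) (_ : Algebra R L)
      (_ : IsFractionRing R L) (_ : IsScalarTower k R L) (θ' t' : R), Lev s g X θ t R θ' t' := by
  letI : Algebra k[X] L := (aeval θ : k[X] →ₐ[k] L).toRingHom.toAlgebra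
  have hX : ∀ p : k[X], algebraMap k[X] L p = aeval θ p := fun p => rfl
  have hinj : Function.Injective (algebraMap k[X] L) :=
    transcendental_iff_injective.1 hθ
  haveI : IsScalarTower k k[X] L := IsScalarTower.of_algebraMap_eq fun x => by
    rw [hX]
    exact (aeval_C θ x).symm
  letI : Algebra (FractionRing k[X]) L :=
    (IsFractionRing.lift (A := k[X]) (K := FractionRing k[X]) hinj).toAlgebra
  haveI : IsScalarTower k[X] (FractionRing k[X]) L := IsScalarTower.of_algebraMap_eq fun x =>
    (IsFractionRing.lift_algebraMap hinj x).symm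
  haveI : IsScalarTower k (FractionRing k[X]) L := IsScalarTower.of_algebraMap_eq fun x => by
    rw [IsScalarTower.algebraMap_apply k k[X] (FractionRing k[X]),
      ← IsScalarTower.algebraMap_apply k[X] (FractionRing k[X]) L,
      ← IsScalarTower.algebraMap_apply k k[X] L]
  have h1 : algebraMap k[X] L X = θ := by rw [hX, aeval_X]
  have htop' := top_of_top (k := k) (L' := FractionRing k[X]) htop
    (θ' := algebraMap k[X] (FractionRing k[X]) X) (by
      rw [← IsScalarTower.algebraMap_apply k[X] (FractionRing k[X]) L, h1])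
  have h3 := base_aux (L' := FractionRing k[X]) h2 hs0 hmon hdeg hsep htop' (t := t) (by
    rw [hX, map_mul, aeval_C, map_neg]
    have e : algebraMap k L s⁻¹ * algebraMap k L s = 1 := by
      rw [← map_mul, inv_mul_cancel₀ hs0, map_one]
    linear_combination -(t ^ 2) * e + algebraMap k L s⁻¹ * ht)
  rwa [h1] at h3

end base'

end Pool.Agent.TH115.GD
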