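import Pool.Agent.TH115.TC.Tower6

/-!
The levels of the tower, for a general base.
-/

set_option autoImplicit false
set_option linter.all false

open Polynomial IsDedekindDomain WithZero
open scoped Classical

namespace Pool.Agent.TH115.GD

section defs

variable {k : Type} [Field k]

/-- `G` is irreducible and separable, and no constant multiple of `A`, for `A ≠ 1` in `V`,
is a square modulo `G`. -/
def GoodG (V : Set k[X]) (G : k[X]) : Prop :=
  Irreducible G ∧ G.Separable ∧ ∀ A ∈ V, A ≠ 1 → ∀ (c : k) (e : k[X]), c ≠ 0 →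
    ¬ G ∣ e ^ 2 - C c * A

/-- A level of the tower. -/
structure LevG (V : Set k[X]) (g ψ h : k[X]) {L : Type} [Field L] [Algebra k L] (θ t : L)
    (R : Type) [CommRing R] [IsDedekindDomain R] [Algebra k R] [Algebra R L] [IsFractionRing R L]
    (θR tR : R) : Prop where
  hθ : algebraMap R L θR = θ
  ht : algebraMap R L tR = t
  int : ((aeval θR : k[X] →ₐ[k] R) : k[X] →+* R).IsIntegral
  gen : ∀ x : R, ∃ p : k[X][X], x = eval₂ ((aeval tR : k[X] →ₐ[k] R) : k[X] →+* R) θR p
  prime : ∀ d : k, Irreducible (g + C (ψ.eval (h.eval d))) → Prime (tR - algebraMap k R d)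
  dvdG : ∀ (d : k) (e : k[X]), (tR - algebraMap k R d) ∣ aeval θR e ↔
    g + C (ψ.eval (h.eval d)) ∣ e
  res : ∀ (d : k) (x : R), ∃ e : k[X], (tR - algebraMap k R d) ∣ x - aeval θR e
  even : ∀ z : L, z ≠ 0 → (∀ v : HeightOneSpectrum R, IsSquare (v.valuation L z)) →
    ∃ (c : k) (A : k[X]) (w : L), c ≠ 0 ∧ A ∈ V ∧ w ≠ 0 ∧
      z = algebraMap k L c * aeval θ A * w ^ 2

end defs

section lev

variable {k L' L R' R : Type} [Field k] [Field L'] [Field L] [Algebra L' L] [CommRing R']
  [IsDedekindDomain R']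
  [Algebra R' L'] [IsFractionRing R' L'] [CommRing R] [IsDedekindDomain R] [Algebra R L]
  [IsFractionRing R L] [Algebra R' R] [Algebra R' L] [IsScalarTower R' L' L] [IsScalarTower R' R L]
  [Algebra.IsIntegral R' R] [Module.IsTorsionFree R' R] [FiniteDimensional L' L]
  [Algebra k L'] [Algebra k L] [IsScalarTower k L' L] [Algebra k R'] [Algebra k R]
  [IsScalarTower k R' R]
  {δ : R'} {t : R} {σ : L ≃ₐ[L'] L}

theorem levG_of_QD (h : QD δ t σ) {V : Set k[X]} {g ψ h0 : k[X]} {θ : R'}
    (hdvd : ∀ (d : k) (e : k[X]), (δ - algebraMap k R' d ^ 2) ∣ aeval θ e ↔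
      g + C (ψ.eval (h0.eval d)) ∣ e)
    (hpr : ∀ d : k, Irreducible (g + C (ψ.eval (h0.eval d))) → Prime (δ - algebraMap k R' d ^ 2))
    (hres : ∀ (d : k) (x : R'), ∃ e : k[X], (δ - algebraMap k R' d ^ 2) ∣ x - aeval θ e)
    (hint : ((aeval θ : k[X] →ₐ[k] R') : k[X] →+* R').IsIntegral)
    (hgen : ∀ x : R, ∃ p : k[X][X], x = eval₂ ((aeval t : k[X] →ₐ[k] R) : k[X] →+* R)
      (algebraMap R' R θ) p)
    (heven : ∀ z : L, z ≠ 0 → (∀ v : HeightOneSpectrum R, IsSquare (v.valuation L z)) →
      ∃ (c : k) (A : k[X]) (w : L), c ≠ 0 ∧ A ∈ V ∧ w ≠ 0 ∧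
        z = algebraMap k L c * aeval (algebraMap R' L θ) A * w ^ 2) :
    LevG V g ψ h0 (algebraMap R' L θ) (algebraMap R L t) R (algebraMap R' R θ) t := by
  have hae : ∀ e : k[X], aeval (algebraMap R' R θ) e = algebraMap R' R (aeval θ e) :=
    fun e => aeval_algebraMap_apply R θ e
  have hal : ∀ d : k, algebraMap k R d = algebraMap R' R (algebraMap k R' d) :=
    fun d => IsScalarTower.algebraMap_apply k R' R d
  refine ⟨(IsScalarTower.algebraMap_apply R' R L θ).symm, rfl, ?_, hgen, ?_, ?_, ?_, heven⟩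
  · have h1 : (algebraMap R' R).IsIntegral := algebraMap_isIntegral_iff.2 inferInstance
    have h3 := RingHom.IsIntegral.trans _ _ hint h1
    have e : (algebraMap R' R).comp ((aeval θ : k[X] →ₐ[k] R') : k[X] →+* R') =
        ((aeval (algebraMap R' R θ) : k[X] →ₐ[k] R) : k[X] →+* R) := by
      apply RingHom.ext
      intro p
      exact (hae p).symm
    rwa [e] at h3
  · intro d hd
    rw [hal]
    exact h.prime (hpr d hd)
  · intro d e
    rw [hal, hae, h.dvd, hdvd]
  · intro d x
    obtain ⟨a, b, rfl⟩ := h.dec x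
    obtain ⟨e, he⟩ := hres d (a + b * algebraMap k R' d)
    refine ⟨e, ?_⟩
    rw [hal, hae]
    have e1 : algebraMap R' R a + algebraMap R' R b * t - algebraMap R' R (aeval θ e) =
        algebraMap R' R b * (t - algebraMap R' R (algebraMap k R' d)) +
          algebraMap R' R (a + b * algebraMap k R' d - aeval θ e) := by
      rw [map_sub, map_add, map_mul]; ring
    rw [e1]
    exact dvd_add (dvd_mul_left _ _) ((h.dvd _ _).2 he)

end lev

section step

variable {k L' L R' : Type} [Field k] [Field L'] [Field L] [Algebra L' L] [CommRing R']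
  [IsDedekindDomain R'] [Algebra R' L'] [IsFractionRing R' L']
  [Algebra k L'] [Algebra k L] [IsScalarTower k L' L] [Algebra k R'] [IsScalarTower k R' L']

theorem levG_step (h2 : (2 : k) ≠ 0) {V : Set k[X]} {g ψ h0 : k[X]} (hdeg : g.natDegree = 3) {θ τ : L'} {θR τR : R'}
    (hL : LevG V g ψ h0 θ τ R' θR τR) {a c : k} (ha : a ≠ 0) (hgood : GoodG V (g + C (ψ.eval (h0.eval c)))) {t : L}
    (htop : IntermediateField.adjoin L' {t} = ⊤)
    (ht : algebraMap L' L τ = algebraMap k L a * t ^ 2 + algebraMap k L c) :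
    ∃ (R : Type) (_ : CommRing R) (_ : IsDedekindDomain R) (_ : Algebra k R) (_ : Algebra R L)
      (_ : IsFractionRing R L) (_ : IsScalarTower k R L) (θ' t' : R),
      LevG V g ψ (h0.comp (C a * X ^ 2 + C c)) (algebraMap L' L θ) t R θ' t' := by
  obtain ⟨hirr, hsep, hgr⟩ := hgood
  have hG3 : (g + C (ψ.eval (h0.eval c))).natDegree = 3 := by rw [natDegree_add_C, hdeg]
  letI : Algebra R' L := ((algebraMap L' L).comp (algebraMap R' L')).toAlgebra
  haveI : IsScalarTower R' L' L := IsScalarTower.of_algebraMap_eq fun x => rfl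
  have hkR : ∀ x : k, algebraMap R' L' (algebraMap k R' x) = algebraMap k L' x :=
    fun x => (IsScalarTower.algebraMap_apply k R' L' x).symm
  haveI : IsScalarTower k R' L := IsScalarTower.of_algebraMap_eq fun x => by
    show algebraMap k L x = algebraMap L' L (algebraMap R' L' (algebraMap k R' x))
    rw [hkR, ← IsScalarTower.algebraMap_apply k L' L]
  set δ : R' := algebraMap k R' a⁻¹ * (τR - algebraMap k R' c) with hδ
  have hau : IsUnit (algebraMap k R' a⁻¹) := (isUnit_iff_ne_zero.2 (inv_ne_zero ha)).map _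
  have hδd : ∀ d : k, δ - algebraMap k R' d ^ 2 =
      algebraMap k R' a⁻¹ * (τR - algebraMap k R' (a * d ^ 2 + c)) := by
    intro d
    have e : algebraMap k R' a⁻¹ * algebraMap k R' a = 1 := by
      rw [← map_mul, inv_mul_cancel₀ ha, map_one]
    rw [hδ, map_add, map_mul, map_pow]
    linear_combination (algebraMap k R' d ^ 2) * e
  have hev' : ∀ d : k, (h0.comp (C a * X ^ 2 + C c)).eval d = h0.eval (a * d ^ 2 + c) := by
    intro d
    rw [eval_comp]
    simp
  have two : IsUnit (2 : R') := by
    have h1 : IsUnit (2 : k) := isUnit_iff_ne_zero.2 h2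
    have h3 := h1.map (algebraMap k R')
    rwa [map_ofNat] at h3
  have hp : Prime δ := by
    have h1 := hL.prime c hirr
    rw [hδ]
    exact ((associated_unit_mul_left _ _ hau).prime_iff).2 h1
  have ord : ∀ v : HeightOneSpectrum R', exp (-1 : ℤ) ≤ v.intValuation δ := by
    intro v
    rcases primeOf_uniq hp v with rfl | h1
    · exact (primeOf_val hp).ge
    · rw [h1, ← exp_zero, exp_le_exp]; norm_num
  have htδ : t ^ 2 = algebraMap R' L δ := by
    show t ^ 2 = algebraMap L' L (algebraMap R' L' δ)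
    rw [hδ, map_mul, map_sub, hkR, hkR, hL.ht, map_mul, map_sub, ht,
      ← IsScalarTower.algebraMap_apply k L' L, ← IsScalarTower.algebraMap_apply k L' L]
    have e : algebraMap k L a⁻¹ * algebraMap k L a = 1 := by
      rw [← map_mul, inv_mul_cancel₀ ha, map_one]
    linear_combination -(t ^ 2) * e
  have gen := gen_of_top (L' := L') (L := L) (t := t) (d := algebraMap R' L' δ) htδ htop
  obtain ⟨hfin, hD, hF, hTF, t', σ, ht', hQ⟩ := mkQD htδ two gen ord ⟨primeOf hp, primeOf_val hp⟩
  haveI := hfin
  haveI := hD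
  haveI := hF
  haveI := hTF
  have hθL : algebraMap R' L θR = algebraMap L' L θ := by
    show algebraMap L' L (algebraMap R' L' θR) = _
    rw [hL.hθ]
  have heven := hQ.even_gen (k := k) (θ' := θ) (V' := V) (V := V) hL.even
    ⟨primeOf hp, primeOf_val hp⟩ (by
      intro c1 A w hc1 hA hw hval
      have h1 := hval (primeOf hp) (primeOf_val hp)
      have hθe : ∀ e : k[X], algebraMap R' L' (aeval θR e) = aeval θ e := fun e => by
        rw [← hL.hθ, aeval_algebraMap_apply]
      have e1 : algebraMap k L' c1 * aeval θ A * w ^ 2 =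
          algebraMap R' L' (aeval θR (C c1 * A)) * w ^ 2 := by
        rw [hθe, map_mul, aeval_C]
      rw [e1] at h1
      have hdv : ∀ e : k[X], δ ∣ aeval θR e ↔ g + C (ψ.eval (h0.eval c)) ∣ e := by
        intro e
        rw [← hL.dvdG c e, hδ, hau.mul_left_dvd]
      have hB : ¬ (g + C (ψ.eval (h0.eval c))) ∣ C c1 * A := by
        intro h3
        by_cases hA1 : A = 1
        · rw [hA1, mul_one] at h3
          have h4 := natDegree_le_of_dvd h3 (C_ne_zero.2 hc1)
          rw [natDegree_C] at h4
          omega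
        · refine hgr A hA hA1 c1 0 hc1 ?_
          rw [zero_pow two_ne_zero, zero_sub]
          exact h3.neg_right
      obtain ⟨e, he⟩ := sq_red2 hirr hp.ne_zero hdv (fun x => by
        obtain ⟨e, he⟩ := hL.res c x
        exact ⟨e, by rw [hδ, hau.mul_left_dvd]; exact he⟩) (primeOf_mem hp) hB h1
      by_cases hA1 : A = 1
      · subst hA1
        rw [mul_one] at he
        have hsq := const_sq_mod hirr (by rw [hG3]; decide) he
        rw [map_one, mul_one]
        exact hsq.map (algebraMap k L')
      · exact absurd he (hgr A hA hA1 c1 e hc1)) (by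
      intro a0 ha0 hpa
      have hδL : algebraMap R' L' δ ≠ 0 := by
        rw [Ne, map_eq_zero_iff _ (IsFractionRing.injective R' L')]
        exact hp.ne_zero
      by_cases hsq : IsSquare ((primeOf hp).valuation L' a0)
      · obtain ⟨c1, A, w, h1, h3, h4, e⟩ := hL.even a0 ha0 (by
          intro v
          rcases primeOf_uniq hp v with rfl | h1
          · exact hsq
          · exact hpa v h1)
        exact ⟨c1, A, w, h1, h3, h4, Or.inl e⟩
      · obtain ⟨c1, A, w, h1, h3, h4, e⟩ := hL.even (a0 * algebraMap R' L' δ)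
          (mul_ne_zero ha0 hδL) (by
          intro v
          rcases primeOf_uniq hp v with rfl | h1
          · rw [map_mul, (primeOf hp).valuation_of_algebraMap, primeOf_val]
            exact wz_sq hsq
          · rw [map_mul, v.valuation_of_algebraMap, h1, mul_one]
            exact hpa v h1)
        exact ⟨c1, A, w, h1, h3, h4, Or.inr e⟩)
  -- the generators
  have hτt : algebraMap R' (integralClosure R' L) τR =
      algebraMap k (integralClosure R' L) a * t' ^ 2 + algebraMap k (integralClosure R' L) c := by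
    apply IsFractionRing.injective (integralClosure R' L) L
    rw [map_add, map_mul, map_pow, ht', ← IsScalarTower.algebraMap_apply R' (integralClosure R' L) L,
      ← IsScalarTower.algebraMap_apply k (integralClosure R' L) L,
      ← IsScalarTower.algebraMap_apply k (integralClosure R' L) L, ← ht, ← hL.ht]
    rfl
  have hpa : ∀ x : R', ∃ p : k[X][X], algebraMap R' (integralClosure R' L) x =
      eval₂ ((aeval t' : k[X] →ₐ[k] (integralClosure R' L)) : k[X] →+* (integralClosure R' L))
        (algebraMap R' (integralClosure R' L) θR) p := by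
    intro x
    obtain ⟨p, hp⟩ := hL.gen x
    refine ⟨p.map (compRingHom (C a * X ^ 2 + C c)), ?_⟩
    rw [eval₂_map]
    have e1 := hom_eval₂ p ((aeval τR : k[X] →ₐ[k] R') : k[X] →+* R')
      (algebraMap R' (integralClosure R' L)) θR
    rw [← hp] at e1
    rw [e1]
    congr 1
    apply Polynomial.ringHom_ext
    · intro r
      show algebraMap R' (integralClosure R' L) (aeval τR (C r)) =
        aeval t' ((C r).comp (C a * X ^ 2 + C c))
      rw [C_comp, aeval_C, aeval_C, ← IsScalarTower.algebraMap_apply k R' (integralClosure R' L)]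
    · show algebraMap R' (integralClosure R' L) (aeval τR X) =
        aeval t' ((X : k[X]).comp (C a * X ^ 2 + C c))
      rw [X_comp, aeval_X, hτt, map_add, map_mul, map_pow, aeval_X, aeval_C, aeval_C]
  have hgen' : ∀ x : integralClosure R' L, ∃ p : k[X][X], x =
      eval₂ ((aeval t' : k[X] →ₐ[k] (integralClosure R' L)) : k[X] →+* (integralClosure R' L))
        (algebraMap R' (integralClosure R' L) θR) p := by
    intro x
    obtain ⟨u, v, e⟩ := hQ.dec x
    obtain ⟨p, hp⟩ := hpa u
    obtain ⟨q, hq⟩ := hpa v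
    refine ⟨p + q * C X, ?_⟩
    rw [eval₂_add, eval₂_mul, eval₂_C, ← hp, ← hq]
    show x = _ + _ * aeval t' X
    rw [aeval_X]
    exact e
  have hlev := levG_of_QD (k := k) hQ (V := V) (g := g) (ψ := ψ)
    (h0 := h0.comp (C a * X ^ 2 + C c)) (θ := θR)
    (fun d e => by rw [hδd, hau.mul_left_dvd, hL.dvdG, hev'])
    (fun d hd => by
      rw [hev'] at hd
      rw [hδd]
      exact ((associated_unit_mul_left _ _ hau).prime_iff).2 (hL.prime _ hd))
    (fun d x => by
      obtain ⟨e, he⟩ := hL.res (a * d ^ 2 + c) x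
      exact ⟨e, by rw [hδd, hau.mul_left_dvd]; exact he⟩)
    hL.int hgen' (by rw [hθL]; exact heven)
  rw [hθL, ht'] at hlev
  exact ⟨integralClosure R' L, inferInstance, hD, inferInstance, inferInstance, hF,
    inferInstance, _, _, hlev⟩

end step

end Pool.Agent.TH115.GD
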