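import Pool.Agent.TH115.TC.TowerG
import Pool.Agent.TH115.TC.FamB

/-!
All levels of the tower over the rational base `t = -g(θ)`.
-/

set_option autoImplicit false
set_option linter.all false

open Polynomial IsDedekindDomain WithZero
open scoped Classical

namespace Pool.Agent.TH115.GD

section base

variable {k L : Type} [Field k] [Field L] [Algebra k L]

theorem levG_base {g : k[X]} {θ t : L} (hθ : Transcendental k θ)
    (htop : IntermediateField.adjoin k {θ, t} = ⊤) (ht : t = -aeval θ g) :
    ∃ (R : Type) (_ : CommRing R) (_ : IsDedekindDomain R) (_ : Algebra k R) (_ : Algebra R L)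
      (_ : IsFractionRing R L) (_ : IsScalarTower k R L) (θ' t' : R),
      LevG {1} g X X θ t R θ' t' := by
  letI : Algebra k[X] L := (aeval θ : k[X] →ₐ[k] L).toRingHom.toAlgebra
  have hX : ∀ p : k[X], algebraMap k[X] L p = aeval θ p := fun p => rfl
  have hinj : Function.Injective (algebraMap k[X] L) :=
    transcendental_iff_injective.1 hθ
  haveI : IsScalarTower k k[X] L := IsScalarTower.of_algebraMap_eq fun x => by
    rw [hX]
    exact (aeval_C θ x).symm
  haveI : FaithfulSMul k[X] L := (faithfulSMul_iff_algebraMap_injective k[X] L).2 hinj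
  have hsurj : ∀ z : L, ∃ x y : k[X], z = algebraMap k[X] L x / algebraMap k[X] L y := by
    intro z
    have hz : z ∈ IntermediateField.adjoin k {θ, t} := by rw [htop]; trivial
    refine IntermediateField.adjoin_induction k
      (p := fun z _ => ∃ x y : k[X], z = algebraMap k[X] L x / algebraMap k[X] L y)
      ?_ ?_ ?_ ?_ ?_ hz
    · intro y hy
      rcases hy with rfl | hy
      · exact ⟨X, 1, by rw [hX, hX, aeval_X, map_one, div_one]⟩
      · rw [Set.mem_singleton_iff] at hy
        subst hy
        exact ⟨-g, 1, by rw [hX, hX, map_neg, map_one, div_one, ← ht]⟩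
    · intro c
      exact ⟨C c, 1, by rw [hX, hX, aeval_C, map_one, div_one]⟩
    · rintro x y _ _ ⟨a, b, rfl⟩ ⟨c, d, rfl⟩
      by_cases hb : algebraMap k[X] L b = 0
      · exact ⟨c, d, by rw [hb, div_zero, zero_add]⟩
      · by_cases hd : algebraMap k[X] L d = 0
        · exact ⟨a, b, by rw [hd, div_zero, add_zero]⟩
        · refine ⟨a * d + b * c, b * d, ?_⟩
          rw [div_add_div _ _ hb hd, map_add, map_mul, map_mul, map_mul]
    · rintro x _ ⟨a, b, rfl⟩
      exact ⟨b, a, by rw [inv_div]⟩
    · rintro x y _ _ ⟨a, b, rfl⟩ ⟨c, d, rfl⟩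
      exact ⟨a * c, b * d, by rw [div_mul_div_comm, map_mul, map_mul]⟩
  haveI : IsFractionRing k[X] L := IsFractionRing.of_field k[X] L hsurj
  have hae : ∀ e : k[X], aeval (X : k[X]) e = e := fun e => aeval_X_left_apply e
  have hal : ∀ d : k, -g - algebraMap k k[X] d = -(g + C d) := by
    intro d
    have h7 : algebraMap k k[X] d = C d := rfl
    rw [h7]
    ring
  refine ⟨k[X], inferInstance, inferInstance, inferInstance, inferInstance, inferInstance,
    inferInstance, X, -g, ?_⟩
  refine ⟨by rw [hX, aeval_X], by rw [hX, map_neg, ht], ?_, ?_, ?_, ?_, ?_, ?_⟩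
  · exact RingHom.isIntegral_of_surjective _ fun x => ⟨x, hae x⟩
  · intro x
    refine ⟨x.map C, ?_⟩
    rw [eval₂_map]
    have e1 : ((aeval (-g) : k[X] →ₐ[k] k[X]) : k[X] →+* k[X]).comp C = C := by
      apply RingHom.ext
      intro c
      exact aeval_C (-g) c
    rw [e1, eval₂_C_X]
  · intro d hd
    rw [eval_X, eval_X] at hd
    rw [hal]
    exact hd.prime.neg
  · intro d e
    rw [hal, hae, eval_X, eval_X, neg_dvd]
  · intro d x
    exact ⟨x, by rw [hae, sub_self]; exact dvd_zero _⟩
  · intro z hz hev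
    obtain ⟨r, S, c, hr, hS, hS', hc, e⟩ := sq_decK (k := k) hz
    have hS1 : S = 1 := by
      by_contra hne
      have hnu : ¬ IsUnit S := fun hu => hne (hS.eq_one_of_isUnit hu)
      obtain ⟨π, hπ, hπS⟩ := WfDvdMonoid.exists_irreducible_factor hnu hS.ne_zero
      have h1 := hev (primeOf hπ.prime)
      rw [sq_iff_dec (primeOf hπ.prime) hS' hr hc e] at h1
      exact h1 ((primeOf_mem hπ.prime S).2 hπS)
    refine ⟨r, 1, c, hr, rfl, hc, ?_⟩
    rw [e, hS1, mul_one, map_one, mul_one, hX, aeval_C, mul_comm]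

end base

theorem levG_all {k : Type} [Field k] (h2 : (2 : k) ≠ 0) {g : k[X]} (hdeg : g.natDegree = 3) :
    ∀ (l : List (k × k)), (∀ p ∈ l, p.1 ≠ 0) →
    (∀ γ ∈ crit l, GoodG {1} (g + C γ)) → ∀ (L : Type) [Field L] [Algebra k L] (θ t : L),
    Transcendental k θ → IntermediateField.adjoin k {θ, t} = ⊤ →
    aeval t (cq l) = -aeval θ g →
    ∃ (R : Type) (_ : CommRing R) (_ : IsDedekindDomain R) (_ : Algebra k R) (_ : Algebra R L)
      (_ : IsFractionRing R L) (_ : IsScalarTower k R L) (θ' t' : R),
      LevG {1} g X (cq l) θ t R θ' t' := by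
  intro l
  induction l with
  | nil =>
    intro _ _ L _ _ θ t hθ htop ht
    have e : aeval t (cq ([] : List (k × k))) = t := aeval_X t
    rw [e] at ht
    exact levG_base hθ htop ht
  | cons p l ih =>
    intro hl hgood L _ _ θ t hθ htop ht
    have hp1 : p.1 ≠ 0 := hl p (List.mem_cons_self)
    set τ : L := algebraMap k L p.1 * t ^ 2 + algebraMap k L p.2 with hτ
    have hθm : θ ∈ IntermediateField.adjoin k ({θ, τ} : Set L) :=
      IntermediateField.subset_adjoin k _ (Or.inl rfl)
    have hτm : τ ∈ IntermediateField.adjoin k ({θ, τ} : Set L) :=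
      IntermediateField.subset_adjoin k _ (Or.inr rfl)
    have haev : ∀ x : L, aeval x (cq (p :: l)) =
        aeval (algebraMap k L p.1 * x ^ 2 + algebraMap k L p.2) (cq l) := by
      intro x
      show aeval x ((cq l).comp (C p.1 * X ^ 2 + C p.2)) = _
      rw [aeval_comp]
      simp
    let L' := IntermediateField.adjoin k ({θ, τ} : Set L)
    have hθ' : Transcendental k (⟨θ, hθm⟩ : L') := by
      intro h
      exact hθ (h.algebraMap (A := L))
    obtain ⟨R', i1, i2, i3, i4, i5, i6, θR, τR, hL⟩ := ih (fun q hq => hl q (List.mem_cons_of_mem _ hq))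
      (fun γ hγ => hgood γ (List.mem_cons_of_mem _ hγ)) L' ⟨θ, hθm⟩ ⟨τ, hτm⟩ hθ'
      (adjoin_self θ τ hθm hτm) (by
        apply (algebraMap L' L).injective
        rw [map_neg, ← aeval_algebraMap_apply, ← aeval_algebraMap_apply]
        show aeval τ (cq l) = -aeval θ g
        rw [← ht, haev])
    exact levG_step h2 hdeg hL hp1 (by rw [eval_X]; exact hgood _ List.mem_cons_self)
      (top_of_top (k := k) (L' := L') htop (θ' := ⟨θ, hθm⟩) rfl) rfl

end Pool.Agent.TH115.GD
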