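import Pool.Agent.TH115.TC.Inert

/-!
The twists of the family `y ^ 2 = g(x) + h(t)`.
-/

set_option autoImplicit false
set_option linter.all false

open Polynomial IsDedekindDomain WithZero
open scoped Classical

namespace Pool.Agent.TH115.GD

section fam

variable {k : Type} [Field k] {b2 b1 b0 : k} {l : List (k × k)}

/-- The conditions at the critical values. -/
def GoodL (b2 b1 b0 : k) (l : List (k × k)) : Prop :=
  ∀ γ ∈ crit l, Irreducible (cb b2 b1 b0 + C γ) ∧ (cb b2 b1 b0 + C γ).Separable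

theorem quad_coeff {a b c : k} (h : (C a * X ^ 2 + C b * X + C c : k[X]) = 0) :
    a = 0 ∧ b = 0 ∧ c = 0 := by
  have c2 := congrArg (fun p : k[X] => p.coeff 2) h
  have c1 := congrArg (fun p : k[X] => p.coeff 1) h
  have c0 := congrArg (fun p : k[X] => p.coeff 0) h
  simp [coeff_X, coeff_C] at c2 c1 c0
  exact ⟨c2, c1, c0⟩

theorem disc_poly (h2 : (2 : k) ≠ 0) (hder : derivative (cb b2 b1 b0) ≠ 0) :
    (C (b2 ^ 2 * b1 ^ 2) - C (4 * b1 ^ 3) - C (4 * b2 ^ 3) * (C b0 + X) -
      C 27 * (C b0 + X) ^ 2 + C (18 * b2 * b1) * (C b0 + X) : k[X]) ≠ 0 := by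
  intro h0
  have e : (C (b2 ^ 2 * b1 ^ 2) - C (4 * b1 ^ 3) - C (4 * b2 ^ 3) * (C b0 + X) -
      C 27 * (C b0 + X) ^ 2 + C (18 * b2 * b1) * (C b0 + X) : k[X]) =
      C (-27) * X ^ 2 + C (-(4 * b2 ^ 3) - 54 * b0 + 18 * b2 * b1) * X +
      C (b2 ^ 2 * b1 ^ 2 - 4 * b1 ^ 3 - 4 * b2 ^ 3 * b0 - 27 * b0 ^ 2 + 18 * b2 * b1 * b0) := by
    have e54 : (C (54 : k) : k[X]) = 2 * C 27 := by
      rw [show (54 : k) = 2 * 27 by norm_num, C_mul, C_ofNat]
    simp only [C_sub, C_add, C_mul, C_neg, C_pow, e54]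
    ring
  rw [e] at h0
  obtain ⟨c2, c1, c0⟩ := quad_coeff h0
  have h3 : (3 : k) = 0 := by
    have h27 : (27 : k) = 3 ^ 3 := by norm_num
    rw [neg_eq_zero, h27] at c2
    exact pow_eq_zero_iff (three_ne_zero) |>.1 c2
  have hb2 : b2 = 0 := by
    have h4 : (4 : k) * b2 ^ 3 = 0 := by
      linear_combination -c1 - (18 * b0 - 6 * b2 * b1) * h3
    rcases mul_eq_zero.1 h4 with h5 | h5
    · exfalso
      have h6 : (4 : k) = 2 ^ 2 := by norm_num
      rw [h6] at h5
      exact pow_ne_zero 2 h2 h5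
    · exact pow_eq_zero_iff (three_ne_zero) |>.1 h5
  have hb1 : b1 = 0 := by
    have h4 : (4 : k) * b1 ^ 3 = 0 := by
      rw [hb2] at c0
      linear_combination -c0 - (9 * b0 ^ 2) * h3
    rcases mul_eq_zero.1 h4 with h5 | h5
    · exfalso
      have h6 : (4 : k) = 2 ^ 2 := by norm_num
      rw [h6] at h5
      exact pow_ne_zero 2 h2 h5
    · exact pow_eq_zero_iff (three_ne_zero) |>.1 h5
  apply hder
  rw [cb_der, hb2, hb1]
  have h5 : (3 : k[X]) = 0 := by
    have : (C (3 : k) : k[X]) = 3 := C_ofNat 3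
    rw [← this, h3, C_0]
  rw [h5, C_0]
  ring

theorem disc_tw {K : Type} [Field K] [Algebra k[X] K] [IsFractionRing k[X] K] (h2 : (2 : k) ≠ 0)
    (hder : derivative (cb b2 b1 b0) ≠ 0) (hl : ∀ p ∈ l, p.1 ≠ 0) :
    (crvC (algebraMap k[X] K (C b2)) (algebraMap k[X] K (C b1))
      (algebraMap k[X] K (C b0 + cq l))).Δ ≠ 0 := by
  rw [crvC_disc]
  have h1 := disc_poly (b0 := b0) h2 hder
  set Q : k[X] := C (b2 ^ 2 * b1 ^ 2) - C (4 * b1 ^ 3) - C (4 * b2 ^ 3) * (C b0 + X) -
      C 27 * (C b0 + X) ^ 2 + C (18 * b2 * b1) * (C b0 + X) with hQ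
  have h3 : Q.comp (cq l) ≠ 0 := by
    intro h0
    rcases comp_eq_zero_iff.1 h0 with h4 | h4
    · exact h1 h4
    · have h5 := congrArg natDegree h4.2
      rw [natDegree_C, cq_deg l hl] at h5
      have : 0 < 2 ^ l.length := by positivity
      omega
  have e : algebraMap k[X] K (16 * Q.comp (cq l)) ≠ 0 := by
    rw [Ne, map_eq_zero_iff _ (IsFractionRing.injective k[X] K)]
    refine mul_ne_zero ?_ h3
    have h5 : (16 : k[X]) = C (2 ^ 4) := by
      have h6 : ((2 : k) ^ 4) = 16 := by norm_num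
      rw [h6]
      exact (C_ofNat 16).symm
    rw [h5]
    exact C_ne_zero.2 (pow_ne_zero 4 h2)
  rw [hQ] at e
  simp only [sub_comp, add_comp, mul_comp, pow_comp, C_comp, X_comp] at e
  simp only [C_mul, C_pow, C_ofNat] at e
  simp only [map_mul, map_sub, map_add, map_pow, map_ofNat] at e
  simp only [map_add]
  intro h0
  apply e
  rw [← h0]

theorem smooth_tw (h2 : (2 : k) ≠ 0) (hl : ∀ p ∈ l, p.1 ≠ 0) (hgood : GoodL b2 b1 b0 l) :
    SmoothC (C b2) (C b1) (C b0 + cq l) := by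
  set f : k[X][X] := X ^ 3 + C (C b2) * X ^ 2 + C (C b1) * X + C (C b0 + cq l) with hf
  set fx : k[X][X] := 3 * X ^ 2 + 2 * C (C b2) * X + C (C b1) with hfx
  set ft : k[X][X] := C (derivative (C b2)) * X ^ 2 + C (derivative (C b1)) * X +
    C (derivative (C b0 + cq l)) with hft
  have hft' : ft = C (derivative (cq l)) := by
    rw [hft]
    simp
  have key : Ideal.span ({f, fx, ft} : Set k[X][X]) = ⊤ := by
    by_contra hne
    obtain ⟨m, hm, hle⟩ := Ideal.exists_le_maximal _ hne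
    haveI := hm
    letI : Field (k[X][X] ⧸ m) := Ideal.Quotient.field m
    let φ : k[X][X] →+* (k[X][X] ⧸ m) := Ideal.Quotient.mk m
    letI : Algebra k (k[X][X] ⧸ m) := (φ.comp ((C : k[X] →+* k[X][X]).comp C)).toAlgebra
    have hz : ∀ p ∈ ({f, fx, ft} : Set k[X][X]), φ p = 0 := fun p hp =>
      Ideal.Quotient.eq_zero_iff_mem.2 (hle (Ideal.subset_span hp))
    have hf0 := hz f (by simp)
    have hfx0 := hz fx (by simp)
    have hft0 := hz ft (by simp)
    have hCt : ∀ p : k[X], φ (C p) = aeval (φ (C X)) p := by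
      intro p
      rw [aeval_def, eval₂_eq_sum_range]
      conv_lhs => rw [p.as_sum_range_C_mul_X_pow]
      simp only [map_sum, map_mul, map_pow]
      rfl
    have hk : ∀ c : k, φ (C (C c)) = algebraMap k (k[X][X] ⧸ m) c := fun c => rfl
    set x := φ X with hx
    set t := φ (C X) with ht
    have hgx : aeval x (cb b2 b1 b0) + aeval t (cq l) = 0 := by
      rw [hf] at hf0
      rw [← hf0]
      simp only [cb, map_add, map_mul, map_pow, aeval_C, aeval_X, hk, hCt]
      ring
    have hgx' : aeval x (derivative (cb b2 b1 b0)) = 0 := by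
      rw [hfx] at hfx0
      rw [← hfx0, cb_der]
      simp only [map_add, map_mul, map_pow, aeval_C, aeval_X, hk, map_ofNat]
      rfl
    have h2κ : (2 : k[X][X] ⧸ m) ≠ 0 := by
      have h3 : algebraMap k (k[X][X] ⧸ m) 2 ≠ 0 := (_root_.map_ne_zero _).2 h2
      rwa [map_ofNat] at h3
    have h3 : aeval t (derivative (cq l)) = 0 := by
      rw [hft', hCt] at hft0
      exact hft0
    have hsepx : ∀ G : k[X], G.Separable → aeval x G = 0 → aeval x (derivative G) = 0 → False := by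
      rintro G ⟨u, v, e⟩ h3 h4
      have e' := congrArg (aeval x) e
      rw [map_add, map_mul, map_mul, h3, h4, mul_zero, mul_zero, add_zero, map_one] at e'
      exact zero_ne_one e'
    obtain ⟨γ, hγ, h4⟩ := crit_val h2κ l hl t h3
    refine hsepx _ (hgood γ hγ).2 ?_ ?_
    · rw [map_add, aeval_C, ← h4]
      exact hgx
    · rw [derivative_add, derivative_C, add_zero]
      exact hgx'
  have h1 : (1 : k[X][X]) ∈ Ideal.span ({f, fx, ft} : Set k[X][X]) := by rw [key]; trivial
  obtain ⟨U, V, T, e⟩ := Submodule.mem_span_triple.1 h1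
  exact ⟨U, V, T, e⟩

end fam

section int

variable {k R : Type} [Field k] [CommRing R] [Algebra k R] [Algebra k[X] R] [IsScalarTower k k[X] R]
  {b2 b1 b0 : k}

theorem int_tw {θR tR : R} {h : k[X]} (ht : algebraMap k[X] R X = tR)
    (heqR : aeval tR h = -aeval θR (cb b2 b1 b0))
    (hint : ((aeval θR : k[X] →ₐ[k] R) : k[X] →+* R).IsIntegral) : Algebra.IsIntegral k[X] R := by
  have hCt : ∀ p : k[X], algebraMap k[X] R p = aeval tR p := by
    intro p
    rw [← ht, aeval_algebraMap_apply, aeval_X_left_apply]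
  have hθint : IsIntegral k[X] θR := by
    refine ⟨(cb b2 b1 b0).map C + C h, ?_, ?_⟩
    · apply Monic.add_of_left ((cb_deg b2 b1 b0).2.map _)
      have h1 : ((cb b2 b1 b0).map (C : k →+* k[X])).degree = 3 := by
        rw [degree_map, degree_eq_natDegree (cb_deg b2 b1 b0).2.ne_zero, (cb_deg b2 b1 b0).1]
        rfl
      rw [h1]
      exact lt_of_le_of_lt degree_C_le (by norm_num)
    · rw [eval₂_add, eval₂_C, eval₂_map]
      have e1 : (algebraMap k[X] R).comp C = algebraMap k R := by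
        rw [IsScalarTower.algebraMap_eq k k[X] R]
        rfl
      rw [e1, ← aeval_def, hCt, heqR]
      ring
  haveI : Algebra.IsIntegral k[X] (Algebra.adjoin k[X] ({θR} : Set R)) := by
    refine Algebra.IsIntegral.adjoin (fun x hx => ?_)
    rw [Set.mem_singleton_iff] at hx
    subst hx
    exact hθint
  refine ⟨fun x => ?_⟩
  have hx : IsIntegral (Algebra.adjoin k[X] ({θR} : Set R)) x := by
    obtain ⟨p, hp, he⟩ := hint x
    have hmem : ∀ q : k[X], ((aeval θR : k[X] →ₐ[k] R) : k[X] →+* R) q ∈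
        Algebra.adjoin k[X] ({θR} : Set R) := by
      intro q
      have hθm : θR ∈ Algebra.adjoin k[X] ({θR} : Set R) :=
        Algebra.subset_adjoin (Set.mem_singleton θR)
      have hcm : ∀ c : k, algebraMap k R c ∈ Algebra.adjoin k[X] ({θR} : Set R) := by
        intro c
        rw [IsScalarTower.algebraMap_apply k k[X] R]
        exact Subalgebra.algebraMap_mem _ _
      have e : ((aeval θR : k[X] →ₐ[k] R) : k[X] →+* R) q =
          ∑ i ∈ Finset.range (q.natDegree + 1), algebraMap k R (q.coeff i) * θR ^ i := by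
        show aeval θR q = _
        rw [aeval_def, eval₂_eq_sum_range]
      rw [e]
      exact Subalgebra.sum_mem _ fun i _ => Subalgebra.mul_mem _ (hcm _) (Subalgebra.pow_mem _ hθm i)
    let ψ : k[X] →+* Algebra.adjoin k[X] ({θR} : Set R) :=
      ((aeval θR : k[X] →ₐ[k] R) : k[X] →+* R).codRestrict _ hmem
    refine ⟨p.map ψ, hp.map _, ?_⟩
    rw [eval₂_map]
    exact he
  exact isIntegral_trans x hx

end int

section tw

variable {k k' K F : Type} [Field k] [Field k'] [Algebra k k'] [Field K] [Algebra k[X] K]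
  [Field F] [Algebra k'[X] F] [IsFractionRing k'[X] F] [Algebra K F]
  {b2 b1 b0 : k} {l : List (k × k)}

theorem hnr_tw (hT : IsTower k k' K F) (hl : ∀ p ∈ l, p.1 ≠ 0) (x : F) :
    cub (crvC (algebraMap k[X] K (C b2)) (algebraMap k[X] K (C b1))
      (algebraMap k[X] K (C b0 + cq l))) x ≠ 0 := by
  intro hx
  set φ := algebraMap k k' with hφ
  have hx' : x ^ 3 + algebraMap k'[X] F (C (φ b2)) * x ^ 2 + algebraMap k'[X] F (C (φ b1)) * x +
      algebraMap k'[X] F (C (φ b0) + (cq l).map φ) = 0 := by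
    have h1 : algebraMap K F (algebraMap k[X] K (C b2)) = algebraMap k'[X] F (C (φ b2)) := by
      rw [hT.map, map_C]
    have h3 : algebraMap K F (algebraMap k[X] K (C b1)) = algebraMap k'[X] F (C (φ b1)) := by
      rw [hT.map, map_C]
    have h4 : algebraMap K F (algebraMap k[X] K (C b0 + cq l)) =
        algebraMap k'[X] F (C (φ b0) + (cq l).map φ) := by
      rw [hT.map, Polynomial.map_add, map_C]
    rw [← h1, ← h3, ← h4]
    exact hx
  have hint : IsIntegral k'[X] x := by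
    refine ⟨X ^ 3 + C (C (φ b2)) * X ^ 2 + C (C (φ b1)) * X +
      C (C (φ b0) + (cq l).map φ), ?_, ?_⟩
    · monicity!
    · simp only [eval₂_add, eval₂_mul, eval₂_pow, eval₂_X, eval₂_C]
      exact hx'
  obtain ⟨y, rfl⟩ := (IsIntegrallyClosed.isIntegral_iff (K := F)).1 hint
  have hy : (cb (φ b2) (φ b1) (φ b0)).comp y = -((cq l).map φ) := by
    apply IsFractionRing.injective k'[X] F
    have e : (cb (φ b2) (φ b1) (φ b0)).comp y =
        y ^ 3 + C (φ b2) * y ^ 2 + C (φ b1) * y + C (φ b0) := by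
      unfold cb
      simp
    rw [e]
    simp only [map_add, map_mul, map_pow, map_neg] at hx' ⊢
    linear_combination hx'
  have h1 := congrArg natDegree hy
  rw [natDegree_comp, (cb_deg _ _ _).1, natDegree_neg, natDegree_map, cq_deg l hl] at h1
  have h3 : 3 ∣ 2 ^ l.length := ⟨y.natDegree, h1.symm⟩
  have h4 := Nat.Prime.dvd_of_dvd_pow Nat.prime_three h3
  omega

/-- The twist of `y ^ 2 = x ^ 3 + b2 x ^ 2 + b1 x + b0 + h(t)` by `D(t)`. -/
noncomputable def twC (K : Type) [Field K] [Algebra k[X] K] (b2 b1 b0 : k) (h D : k[X]) :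
    WeierstrassCurve K :=
  crvC (algebraMap k[X] K (D * C b2)) (algebraMap k[X] K (D ^ 2 * C b1))
    (algebraMap k[X] K (D ^ 3 * (C b0 + h)))

theorem twC_eq (h D : k[X]) : twC K b2 b1 b0 h D =
    crvC (algebraMap k[X] K D * algebraMap k[X] K (C b2))
      (algebraMap k[X] K D ^ 2 * algebraMap k[X] K (C b1))
      (algebraMap k[X] K D ^ 3 * algebraMap k[X] K (C b0 + h)) := by
  unfold twC
  rw [map_mul, map_mul, map_mul, map_pow, map_pow]

theorem hnr_twD (hT : IsTower k k' K F) (hl : ∀ p ∈ l, p.1 ≠ 0) {D : k[X]} (hD : D ≠ 0) (x : F) :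
    cub (twC K b2 b1 b0 (cq l) D) x ≠ 0 := by
  haveI := hT.fracK
  have hd : algebraMap K F (algebraMap k[X] K D) ≠ 0 := by
    rw [Ne, _root_.map_eq_zero, map_eq_zero_iff _ (IsFractionRing.injective k[X] K)]
    exact hD
  have e : x = algebraMap K F (algebraMap k[X] K D) *
      (x / algebraMap K F (algebraMap k[X] K D)) := by
    rw [mul_div_cancel₀ _ hd]
  rw [e, twC_eq, cub_tw]
  exact mul_ne_zero (pow_ne_zero 3 hd) (hnr_tw hT hl _)

theorem disc_twD [IsFractionRing k[X] K] (h2 : (2 : k) ≠ 0)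
    (hder : derivative (cb b2 b1 b0) ≠ 0) (hl : ∀ p ∈ l, p.1 ≠ 0) {D : k[X]} (hD : D ≠ 0) :
    (twC K b2 b1 b0 (cq l) D).Δ ≠ 0 := by
  have h1 := disc_tw (K := K) (l := l) (b0 := b0) h2 hder hl
  have hd : algebraMap k[X] K D ≠ 0 := by
    rw [Ne, map_eq_zero_iff _ (IsFractionRing.injective k[X] K)]
    exact hD
  rw [crvC_disc] at h1
  rw [twC_eq, crvC_disc]
  intro h0
  refine mul_ne_zero (pow_ne_zero 6 hd) h1 ?_
  rw [← h0]
  ring

end tw

end Pool.Agent.TH115.GD
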