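import Mathlib

/-!
Extensions of constants are unramified.
-/

set_option autoImplicit false
set_option linter.all false

open Polynomial IsDedekindDomain WithZero
open scoped Classical

namespace Pool.Agent.TH115.GD

section desc

variable {k k' N M : Type*} [Field k] [Field k'] [Algebra k k'] [IsGalois k k'] [Field N]
  [Field M] [Algebra k N] [Algebra k' M] [Algebra k M] [IsScalarTower k k' M] [Algebra N M]
  [IsScalarTower k N M]
  (htop : IntermediateField.adjoin N (Set.range (algebraMap k' M)) = ⊤)

omit [IsGalois k k'] in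
theorem const_mem {γ y : k'} (hy : y ∈ IntermediateField.adjoin k {γ}) :
    algebraMap k' M y ∈ IntermediateField.adjoin N {algebraMap k' M γ} := by
  refine IntermediateField.adjoin_induction k
    (p := fun y _ => algebraMap k' M y ∈ IntermediateField.adjoin N {algebraMap k' M γ})
    ?_ ?_ ?_ ?_ ?_ hy
  · intro y hy
    rw [Set.mem_singleton_iff] at hy
    subst hy
    exact IntermediateField.mem_adjoin_simple_self N _
  · intro y
    rw [← IsScalarTower.algebraMap_apply k k' M, IsScalarTower.algebraMap_apply k N M]
    exact IntermediateField.algebraMap_mem _ _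
  · intro x y _ _ hx hy
    rw [map_add]; exact add_mem hx hy
  · intro x _ hx
    rw [map_inv₀]; exact inv_mem hx
  · intro x y _ _ hx hy
    rw [map_mul]; exact mul_mem hx hy

variable (k)

include k

theorem two_const (β1 β2 : k') : ∃ β : k',
    IntermediateField.adjoin N {algebraMap k' M β1} ≤
      IntermediateField.adjoin N {algebraMap k' M β} ∧
    IntermediateField.adjoin N {algebraMap k' M β2} ≤
      IntermediateField.adjoin N {algebraMap k' M β} := by
  have i1 : IsIntegral k β1 := Algebra.IsIntegral.isIntegral _
  have i3 : IsIntegral k β2 := Algebra.IsIntegral.isIntegral _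
  haveI : FiniteDimensional k (IntermediateField.adjoin k {β1, β2}) :=
    IntermediateField.finiteDimensional_adjoin fun x hx => by
      rcases hx with rfl | hx
      · exact i1
      · rw [Set.mem_singleton_iff.1 hx]; exact i3
  obtain ⟨γ, hγ⟩ := Field.exists_primitive_element k (IntermediateField.adjoin k {β1, β2})
  have key : ∀ y : k', y ∈ IntermediateField.adjoin k {β1, β2} →
      y ∈ IntermediateField.adjoin k {(γ : k')} := by
    intro y hy
    have h1 : (⟨y, hy⟩ : IntermediateField.adjoin k {β1, β2}) ∈
        (⊤ : IntermediateField k (IntermediateField.adjoin k {β1, β2})) := trivial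
    rw [← hγ] at h1
    refine IntermediateField.adjoin_induction k
      (p := fun (y : IntermediateField.adjoin k {β1, β2}) _ =>
        (y : k') ∈ IntermediateField.adjoin k {(γ : k')}) ?_ ?_ ?_ ?_ ?_ h1
    · intro y hy
      rw [Set.mem_singleton_iff] at hy
      subst hy
      exact IntermediateField.mem_adjoin_simple_self k _
    · intro y
      exact IntermediateField.algebraMap_mem _ y
    · intro x y _ _ hx hy
      exact add_mem hx hy
    · intro x _ hx
      exact inv_mem hx
    · intro x y _ _ hx hy
      exact mul_mem hx hy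
  refine ⟨γ, ?_, ?_⟩
  · rw [IntermediateField.adjoin_simple_le_iff]
    exact const_mem (key _ (IntermediateField.subset_adjoin k _ (by simp)))
  · rw [IntermediateField.adjoin_simple_le_iff]
    exact const_mem (key _ (IntermediateField.subset_adjoin k _ (by simp)))

include htop in
theorem mem_simple (x : M) : ∃ β : k', x ∈ IntermediateField.adjoin N {algebraMap k' M β} := by
  have hx : x ∈ (⊤ : IntermediateField N M) := trivial
  rw [← htop] at hx
  refine IntermediateField.adjoin_induction N
    (p := fun x _ => ∃ β : k', x ∈ IntermediateField.adjoin N {algebraMap k' M β})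
    ?_ ?_ ?_ ?_ ?_ hx
  · rintro _ ⟨β, rfl⟩
    exact ⟨β, IntermediateField.mem_adjoin_simple_self N _⟩
  · intro y
    exact ⟨0, IntermediateField.algebraMap_mem _ y⟩
  · rintro x y _ _ ⟨β1, h1⟩ ⟨β2, h3⟩
    obtain ⟨β, h4, h5⟩ := two_const k (N := N) (M := M) β1 β2
    exact ⟨β, add_mem (h4 h1) (h5 h3)⟩
  · rintro x _ ⟨β, h1⟩
    exact ⟨β, inv_mem h1⟩
  · rintro x y _ _ ⟨β1, h1⟩ ⟨β2, h3⟩
    obtain ⟨β, h4, h5⟩ := two_const k (N := N) (M := M) β1 β2
    exact ⟨β, mul_mem (h4 h1) (h5 h3)⟩

/-- The minimal polynomial of a constant over `N`. -/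
theorem const_minpoly (β : k') : IsIntegral N (algebraMap k' M β) ∧
    (minpoly N (algebraMap k' M β)).Separable ∧
    ((minpoly N (algebraMap k' M β)).map (algebraMap N M)).Splits ∧
    ∀ y : M, aeval y (minpoly N (algebraMap k' M β)) = 0 → ∃ γ : k', algebraMap k' M γ = y := by
  have i1 : IsIntegral k β := Algebra.IsIntegral.isIntegral _
  have i3 : IsIntegral k (algebraMap k' M β) := i1.algebraMap
  have i4 : IsIntegral N (algebraMap k' M β) := i3.tower_top
  have hdvd : minpoly N (algebraMap k' M β) ∣ (minpoly k β).map (algebraMap k N) := by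
    apply minpoly.dvd
    rw [aeval_map_algebraMap, aeval_algebraMap_apply, minpoly.aeval, map_zero]
  have hsep : (minpoly k β).Separable := Algebra.IsSeparable.isSeparable k β
  have hspl : ((minpoly k β).map (algebraMap k k')).Splits := Normal.splits inferInstance β
  have hne : minpoly k β ≠ 0 := minpoly.ne_zero i1
  have hmapM : ((minpoly k β).map (algebraMap k N)).map (algebraMap N M) =
      ((minpoly k β).map (algebraMap k k')).map (algebraMap k' M) := by
    rw [Polynomial.map_map, Polynomial.map_map, ← IsScalarTower.algebraMap_eq,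
      ← IsScalarTower.algebraMap_eq]
  refine ⟨i4, hsep.map.of_dvd hdvd, ?_, fun y hy => ?_⟩
  · have h1 : (((minpoly k β).map (algebraMap k N)).map (algebraMap N M)).Splits := by
      rw [hmapM]
      exact hspl.map _
    refine h1.of_dvd ?_ (Polynomial.map_dvd _ hdvd)
    rw [Polynomial.map_map]
    exact (Polynomial.map_ne_zero_iff ((algebraMap N M).comp (algebraMap k N)).injective).2 hne
  · have h1 : (((minpoly k β).map (algebraMap k k')).map (algebraMap k' M)).eval y = 0 := by
      rw [← hmapM]
      obtain ⟨q, hq⟩ := hdvd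
      rw [hq, Polynomial.map_mul, eval_mul, eval_map_algebraMap, hy, zero_mul]
    have h0 : ((minpoly k β).map (algebraMap k k')).map (algebraMap k' M) ≠ 0 := by
      rw [Polynomial.map_map]
      exact (Polynomial.map_ne_zero_iff ((algebraMap k' M).comp (algebraMap k k')).injective).2 hne
    have h3 := (mem_roots h0).2 h1
    rw [hspl.roots_map_of_injective (algebraMap k' M).injective, Multiset.mem_map] at h3
    obtain ⟨s, -, hs⟩ := h3
    exact ⟨s, hs⟩

include htop in
theorem normal_const : Normal N M := by
  rw [normal_iff]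
  intro x
  have hx : x ∈ IntermediateField.adjoin N (Set.range (algebraMap k' M)) := by
    rw [htop]; trivial
  refine ⟨?_, ?_⟩
  · obtain ⟨β, hβ⟩ := mem_simple k htop x
    obtain ⟨i1, -⟩ := const_minpoly k (N := N) (M := M) β
    haveI : FiniteDimensional N (IntermediateField.adjoin N {algebraMap k' M β}) :=
      IntermediateField.adjoin.finiteDimensional i1
    have h1 : IsIntegral N (⟨x, hβ⟩ : IntermediateField.adjoin N {algebraMap k' M β}) :=
      Algebra.IsIntegral.isIntegral _
    exact h1.map (IntermediateField.adjoin N {algebraMap k' M β}).val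
  · refine IntermediateField.splits_of_mem_adjoin N M (S := Set.range (algebraMap k' M)) ?_ hx
    rintro _ ⟨β, rfl⟩
    obtain ⟨i1, -, i3, -⟩ := const_minpoly k (N := N) (M := M) β
    exact ⟨i1, i3⟩

include htop in
/-- Galois descent for an element. -/
theorem desc_elt (x : M) : ∃ (β : k') (h : N[X]), x = aeval (algebraMap k' M β) h ∧
    ∀ (I : Submodule k' M), (∀ τ : M ≃ₐ[N] M, τ x ∈ I) →
      ∀ i, algebraMap N M (h.coeff i) ∈ I := by
  haveI := normal_const k htop
  obtain ⟨β, hβ⟩ := mem_simple k htop x
  obtain ⟨i1, i2, i3, i4⟩ := const_minpoly k (N := N) (M := M) β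
  set b := algebraMap k' M β with hb
  set g := minpoly N b with hg
  have hgm : g.Monic := minpoly.monic i1
  obtain ⟨h0, hh0⟩ : ∃ h0 : N[X], aeval b h0 = x := by
    have h1 : x ∈ (IntermediateField.adjoin N {b}).toSubalgebra := hβ
    rw [IntermediateField.adjoin_simple_toSubalgebra_of_isAlgebraic i1.isAlgebraic,
      Algebra.adjoin_singleton_eq_range_aeval] at h1
    exact h1
  set h := h0 %ₘ g with hh
  have hx : aeval b h = x := by
    rw [← hh0, hh]
    exact aeval_modByMonic_eq_self_of_root (minpoly.aeval N b)
  have hdeg : h.degree < g.degree := degree_modByMonic_lt _ hgm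
  refine ⟨β, h, hx.symm, fun I hI i => ?_⟩
  set S : Finset M := (g.map (algebraMap N M)).roots.toFinset with hS
  have hcard : S.card = g.natDegree := by
    have hnd : (g.map (algebraMap N M)).roots.Nodup := nodup_roots i2.map
    rw [hS, Multiset.toFinset_card_of_nodup hnd, ← i3.natDegree_eq_card_roots,
      natDegree_map]
  have hgM : g.map (algebraMap N M) ≠ 0 := (Polynomial.map_ne_zero_iff (algebraMap N M).injective).2
    hgm.ne_zero
  have hroot : ∀ y ∈ S, aeval y g = 0 := by
    intro y hy
    rw [hS, Multiset.mem_toFinset, mem_roots hgM, IsRoot.def, eval_map_algebraMap] at hy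
    exact hy
  have hdegM : (h.map (algebraMap N M)).degree < S.card := by
    rw [degree_map, hcard, ← degree_eq_natDegree hgm.ne_zero]
    exact hdeg
  have hint := Lagrange.eq_interpolate (s := S) (v := id) (f := h.map (algebraMap N M))
    (Set.injOn_id _) hdegM
  have hco : algebraMap N M (h.coeff i) = ∑ y ∈ S,
      (h.map (algebraMap N M)).eval y * (Lagrange.basis S id y).coeff i := by
    have h5 := congrArg (fun p => p.coeff i) hint
    simp only [Lagrange.interpolate_apply, finset_sum_coeff, coeff_C_mul, id, coeff_map] at h5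
    exact h5
  rw [hco]
  refine Submodule.sum_mem _ fun y hy => ?_
  -- the conjugate
  have hconj : IsConjRoot N y b := by
    have h1 : aeval y (minpoly N b) = 0 := hroot y hy
    have := isConjRoot_of_aeval_eq_zero i1 h1
    exact this.symm
  obtain ⟨τ, hτ⟩ := hconj.exists_algEquiv
  have hev : (h.map (algebraMap N M)).eval y = τ x := by
    rw [eval_map_algebraMap, ← hτ, ← hx]
    exact Polynomial.aeval_algHom_apply τ.toAlgHom b h
  -- the coefficient
  have hbas : Lagrange.basis S id y ∈ Polynomial.lifts (algebraMap k' M) := by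
    unfold Lagrange.basis
    refine Submonoid.prod_mem (Polynomial.lifts (algebraMap k' M)).toSubmonoid fun y' hy' => ?_
    obtain ⟨γ, hγ⟩ := i4 y (hroot y hy)
    obtain ⟨γ', hγ'⟩ := i4 y' (hroot y' (Finset.mem_erase.1 hy').2)
    rw [Subsemiring.mem_toSubmonoid, Polynomial.mem_lifts]
    refine ⟨C (γ - γ')⁻¹ * (X - C γ'), ?_⟩
    unfold Lagrange.basisDivisor
    rw [Polynomial.map_mul, Polynomial.map_sub, map_C, map_X, map_C, map_inv₀, map_sub, hγ, hγ']
    rfl
  obtain ⟨q, hq⟩ := (Polynomial.mem_lifts _).1 hbas
  have hc : (Lagrange.basis S id y).coeff i = algebraMap k' M (q.coeff i) := by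
    rw [← hq, coeff_map]
  rw [hc, hev, mul_comm, ← Algebra.smul_def]
  exact I.smul_mem _ (hI τ)

end desc

end Pool.Agent.TH115.GD
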